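import Pool.Agent.Lib.MP_db21fa_an.TF.Defs
import Pool.Agent.Lib.MP_db21fa_an_h84.Osgood

/-!
Module B: complex analysis on finite-dimensional spaces.
-/

set_option autoImplicit false

set_option linter.unusedSectionVars false

open Filter Topology Metric

namespace Pool.Agent.Lib.MP_db21fa_an.TF

variable {E F : Type*} [NormedAddCommGroup E] [NormedSpace ℂ E] [NormedAddCommGroup F]
  [NormedSpace ℂ F]

/-! ### identity theorem -/

theorem identity_convex {f : E → ℂ} {U : Set E} (hU : IsOpen U) (hc : Convex ℝ U)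
    (hf : DifferentiableOn ℂ f U) {x₀ : E} (hx : x₀ ∈ U) (h : ∀ᶠ x in 𝓝 x₀, f x = 0) :
    ∀ x ∈ U, f x = 0 := by
  intro x hxU
  -- the line through x₀ and x
  let L : ℂ → E := fun t => x₀ + t • (x - x₀)
  have hLd : Differentiable ℂ L := by
    intro t
    exact ((differentiableAt_id.smul_const (x - x₀)).const_add x₀)
  have hLc : Continuous L := hLd.continuous
  let V : Set ℂ := L ⁻¹' U
  have hVo : IsOpen V := hU.preimage hLc
  have hVc : Convex ℝ V := by
    intro a ha b hb s t hs ht hst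
    change L (s • a + t • b) ∈ U
    have hL : L (s • a + t • b) = s • L a + t • L b := by
      simp only [L]
      have h1 : x₀ = s • x₀ + t • x₀ := by rw [← add_smul, hst, one_smul]
      have h2 : (s • a + t • b) • (x - x₀) = s • (a • (x - x₀)) + t • (b • (x - x₀)) := by
        rw [add_smul, smul_assoc, smul_assoc]
      rw [h2, smul_add, smul_add]
      nth_rewrite 1 [h1]
      abel
    rw [hL]
    exact hc ha hb hs ht hst
  have hg : DifferentiableOn ℂ (fun t => f (L t)) V :=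
    hf.comp hLd.differentiableOn (fun t ht => ht)
  have hga : AnalyticOnNhd ℂ (fun t => f (L t)) V := hg.analyticOnNhd hVo
  have h0 : (0 : ℂ) ∈ V := by
    change L 0 ∈ U
    simp only [L, zero_smul, add_zero]; exact hx
  have h1 : (1 : ℂ) ∈ V := by
    change L 1 ∈ U
    simp only [L, one_smul, add_sub_cancel]; exact hxU
  have hL0 : L 0 = x₀ := by simp [L]
  have he : (fun t => f (L t)) =ᶠ[𝓝 0] 0 := by
    have : Tendsto L (𝓝 0) (𝓝 x₀) := by
      have := hLc.tendsto 0
      rwa [hL0] at this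
    exact this.eventually h
  have := hga.eqOn_zero_of_preconnected_of_eventuallyEq_zero hVc.isPreconnected h0 he h1
  simpa [L] using this

theorem identity {f : E → ℂ} (hf : Differentiable ℂ f) {x₀ : E} (h : ∀ᶠ x in 𝓝 x₀, f x = 0) :
    f = 0 := by
  funext x
  exact identity_convex isOpen_univ convex_univ hf.differentiableOn (Set.mem_univ x₀) h x
    (Set.mem_univ x)

theorem mul_eq_zero_entire {f g : E → ℂ} (hf : Differentiable ℂ f) (hg : Differentiable ℂ g)
    (h : ∀ x, f x * g x = 0) : f = 0 ∨ g = 0 := by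
  by_cases hf0 : f = 0
  · exact Or.inl hf0
  · right
    obtain ⟨x₀, hx₀⟩ := Function.ne_iff.mp hf0
    have : ∀ᶠ x in 𝓝 x₀, f x ≠ 0 := hf.continuous.continuousAt.eventually_ne hx₀
    refine identity hg (x₀ := x₀) (this.mono fun x hx => ?_)
    exact (mul_eq_zero.mp (h x)).resolve_left hx

theorem dense_ne_zero {f : E → ℂ} (hf : Differentiable ℂ f) (h : f ≠ 0) :
    Dense {x | f x ≠ 0} := by
  intro x
  by_contra hx
  rw [mem_closure_iff_nhds] at hx
  push Not at hx
  obtain ⟨t, ht, hempty⟩ := hx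
  apply h
  refine identity hf (x₀ := x) ?_
  filter_upwards [ht] with y hy
  by_contra hne
  have : y ∈ t ∩ {x | f x ≠ 0} := ⟨hy, hne⟩
  rw [hempty] at this
  exact this

/-! ### Cauchy estimates, derivatives -/

theorem norm_fderiv_le {f : E → ℂ} {x : E} {r M : ℝ} (hr : 0 < r)
    (hf : DifferentiableOn ℂ f (ball x r)) (hM : ∀ y ∈ ball x r, ‖f y‖ ≤ M) :
    ‖fderiv ℂ f x‖ ≤ M / r := by
  have hM0 : 0 ≤ M := (norm_nonneg _).trans (hM x (mem_ball_self hr))
  have hfx : DifferentiableAt ℂ f x := hf.differentiableAt (isOpen_ball.mem_nhds (mem_ball_self hr))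
  refine ContinuousLinearMap.opNorm_le_bound _ (by positivity) fun w => ?_
  rcases eq_or_ne w 0 with rfl | hw
  · simp
  have hw' : 0 < ‖w‖ := norm_pos_iff.mpr hw
  -- for every ρ < r / ‖w‖
  have key : ∀ ρ : ℝ, 0 < ρ → ρ < r / ‖w‖ → ‖fderiv ℂ f x w‖ ≤ M / ρ := by
    intro ρ hρ hρr
    have hmap : ∀ t ∈ closedBall (0 : ℂ) ρ, x + t • w ∈ ball x r := by
      intro t ht
      rw [mem_ball, dist_eq_norm, add_sub_cancel_left, norm_smul]
      rw [mem_closedBall, dist_zero_right] at ht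
      calc ‖t‖ * ‖w‖ ≤ ρ * ‖w‖ := by gcongr
        _ < r := by rwa [lt_div_iff₀ hw'] at hρr
    have hdl : Differentiable ℂ (fun t : ℂ => x + t • w) := fun t =>
      (differentiableAt_id.smul_const w).const_add x
    have hd : DifferentiableOn ℂ (fun t : ℂ => f (x + t • w)) (closedBall 0 ρ) :=
      hf.comp hdl.differentiableOn hmap
    have hder : HasDerivAt (fun t : ℂ => f (x + t • w)) (fderiv ℂ f x w) 0 := by
      have h2 : HasFDerivAt f (fderiv ℂ f x) (x + (0 : ℂ) • w) := by
        rw [zero_smul, add_zero]; exact hfx.hasFDerivAt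
      have h3 : HasDerivAt (fun t : ℂ => x + t • w) w 0 := by
        simpa using ((hasDerivAt_id (0 : ℂ)).smul_const w).const_add x
      exact h2.comp_hasDerivAt (0 : ℂ) h3
    rw [← hder.deriv]
    refine Complex.norm_deriv_le_of_forall_mem_sphere_norm_le hρ ?_ ?_
    · exact (hd.mono closure_ball_subset_closedBall).diffContOnCl
    · intro t ht
      exact hM _ (hmap t (sphere_subset_closedBall ht))
  -- limit ρ → r / ‖w‖
  have hlim : Tendsto (fun ρ : ℝ => M / ρ) (𝓝[<] (r / ‖w‖)) (𝓝 (M / (r / ‖w‖))) := by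
    have : ContinuousAt (fun ρ : ℝ => M / ρ) (r / ‖w‖) :=
      continuousAt_const.div continuousAt_id (by positivity)
    exact this.tendsto.mono_left nhdsWithin_le_nhds
  have h1 : ‖fderiv ℂ f x w‖ ≤ M / (r / ‖w‖) := by
    refine ge_of_tendsto hlim ?_
    have hpos : (0 : ℝ) < r / ‖w‖ := by positivity
    filter_upwards [Ioo_mem_nhdsLT hpos] with ρ hρ
    exact key ρ hρ.1 hρ.2
  calc ‖fderiv ℂ f x w‖ ≤ M / (r / ‖w‖) := h1
    _ = M / r * ‖w‖ := by field_simp

theorem differentiable_dirDeriv [FiniteDimensional ℂ E] {f : E → ℂ} (hf : Differentiable ℂ f)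
    (c : E) : Differentiable ℂ (fun x => fderiv ℂ f x c) := by
  let n := Module.finrank ℂ E
  let e : E ≃L[ℂ] (Fin n → ℂ) := ContinuousLinearEquiv.ofFinrankEq (by simp [n])
  let g : (Fin n → ℂ) → ℂ := fun z => f (e.symm z)
  have hg : Differentiable ℂ g := hf.comp e.symm.differentiable
  have hfg : f = fun x => g (e x) := by
    funext x; simp [g]
  have h1 : ∀ x, fderiv ℂ f x = (fderiv ℂ g (e x)).comp (e : E →L[ℂ] (Fin n → ℂ)) := by
    intro x
    have := (hg (e x)).hasFDerivAt.comp x e.hasFDerivAt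
    rw [hfg]
    exact this.fderiv
  have h2 : (fun x => fderiv ℂ f x c) = fun x => fderiv ℂ g (e x) (e c) := by
    funext x; rw [h1]; rfl
  rw [h2]
  have h3 : Differentiable ℂ (fderiv ℂ g) :=
    Pool.Agent.Lib.MP_db21fa_an_h84.differentiable_fderiv hg
  have h4 : Differentiable ℂ (fun x => fderiv ℂ g (e x)) := h3.comp e.differentiable
  exact fun x => (h4 x).clm_apply (differentiableAt_const _)


/-! ### limits -/

/-- a locally uniform limit of holomorphic functions is holomorphic -/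
theorem differentiableOn_of_limit [FiniteDimensional ℂ E] {F : ℕ → E → ℂ} {f : E → ℂ} {U : Set E}
    (hU : IsOpen U) (hF : ∀ k, DifferentiableOn ℂ (F k) U)
    (h : TendstoLocallyUniformlyOn F f atTop U) : DifferentiableOn ℂ f U := by
  intro x hx
  refine DifferentiableAt.differentiableWithinAt ?_
  -- a ball on which the convergence is uniform
  have hloc : ∃ r > 0, ball x (2 * r) ⊆ U ∧ TendstoUniformlyOn F f atTop (ball x (2 * r)) := by
    have h1 : ∀ u ∈ uniformity ℂ, ∃ t ∈ 𝓝[U] x, ∀ᶠ n in atTop, ∀ y ∈ t, (f y, F n y) ∈ u :=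
      fun u hu => h u hu x hx
    have : ProperSpace E := FiniteDimensional.proper ℂ E
    obtain ⟨r, hr, hrU⟩ := Metric.isOpen_iff.mp hU x hx
    refine ⟨r / 4, by positivity, fun y hy => hrU ?_, ?_⟩
    · rw [mem_ball] at hy ⊢; linarith
    · have hsub : closedBall x (r / 2) ⊆ U := fun y hy => hrU (by
        rw [mem_closedBall] at hy; rw [mem_ball]; linarith)
      have hc : TendstoUniformlyOn F f atTop (closedBall x (r / 2)) :=
        (tendstoLocallyUniformlyOn_iff_forall_isCompact hU).mp h _ hsub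
          (isCompact_closedBall x (r / 2))
      refine hc.mono fun y hy => ?_
      rw [mem_ball] at hy; rw [mem_closedBall]; linarith
  obtain ⟨r, hr, hrU, hunif⟩ := hloc
  -- the derivatives form a uniform Cauchy sequence on `ball x r`
  have hsub : ∀ y ∈ ball x r, ball y r ⊆ ball x (2 * r) := by
    intro y hy z hz
    rw [mem_ball] at *
    calc dist z x ≤ dist z y + dist y x := dist_triangle _ _ _
      _ < r + r := add_lt_add hz hy
      _ = 2 * r := by ring
  have hcauchy : UniformCauchySeqOn (fun n => fderiv ℂ (F n)) atTop (ball x r) := by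
    rw [Metric.uniformCauchySeqOn_iff]
    intro ε hε
    have h2 := (Metric.uniformCauchySeqOn_iff.mp hunif.uniformCauchySeqOn) (ε * r / 2)
      (by positivity)
    obtain ⟨N, hN⟩ := h2
    refine ⟨N, fun m hm n hn y hy => ?_⟩
    have hdm : DifferentiableOn ℂ (F m) (ball y r) := (hF m).mono ((hsub y hy).trans hrU)
    have hdn : DifferentiableOn ℂ (F n) (ball y r) := (hF n).mono ((hsub y hy).trans hrU)
    have hb := norm_fderiv_le (f := F m - F n) (x := y) (M := ε * r / 2) hr (hdm.sub hdn)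
      (fun z hz => by
        have := hN m hm n hn z (hsub y hy hz)
        rw [dist_eq_norm] at this
        exact this.le)
    have hym : DifferentiableAt ℂ (F m) y := hdm.differentiableAt (ball_mem_nhds y hr)
    have hyn : DifferentiableAt ℂ (F n) y := hdn.differentiableAt (ball_mem_nhds y hr)
    rw [fderiv_sub hym hyn] at hb
    rw [dist_eq_norm]
    calc ‖fderiv ℂ (F m) y - fderiv ℂ (F n) y‖ ≤ ε * r / 2 / r := hb
      _ = ε / 2 := by field_simp
      _ < ε := by linarith
  -- the limit of the derivatives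
  have hlim : ∀ y ∈ ball x r, ∃ g : E →L[ℂ] ℂ, Tendsto (fun n => fderiv ℂ (F n) y) atTop (𝓝 g) := by
    intro y hy
    exact cauchySeq_tendsto_of_complete (hcauchy.cauchySeq hy)
  choose! g hg using hlim
  have hgu : TendstoUniformlyOn (fun n => fderiv ℂ (F n)) g atTop (ball x r) :=
    hcauchy.tendstoUniformlyOn_of_tendsto hg
  have hfin : HasFDerivAt f (g x) x := by
    refine hasFDerivAt_of_tendstoUniformlyOn isOpen_ball hgu (f := F) ?_ ?_ (mem_ball_self hr)
    · intro n y hy
      exact ((hF n).differentiableAt (hU.mem_nhds (hrU (by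
        rw [mem_ball] at hy ⊢; linarith)))).hasFDerivAt
    · intro y hy
      exact hunif.tendsto_at (by rw [mem_ball] at hy ⊢; linarith)
  exact hfin.differentiableAt

theorem LU.locally {q : ℕ → E → ℂ} {p : E → ℂ} (h : LU q p) :
    TendstoLocallyUniformlyOn q p atTop Set.univ := by
  intro u hu x _
  refine ⟨closedBall 0 (‖x‖ + 1), ?_, h _ u hu⟩
  rw [nhdsWithin_univ]
  have : ball (0 : E) (‖x‖ + 1) ∈ 𝓝 x := isOpen_ball.mem_nhds (by
    rw [mem_ball, dist_zero_right]; linarith)
  exact mem_of_superset this ball_subset_closedBall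

theorem LU.differentiable [FiniteDimensional ℂ E] {q : ℕ → E → ℂ} {p : E → ℂ}
    (hq : ∀ k, Differentiable ℂ (q k)) (h : LU q p) : Differentiable ℂ p := by
  rw [← differentiableOn_univ]
  exact differentiableOn_of_limit isOpen_univ (fun k => (hq k).differentiableOn) h.locally

theorem LU.dirDeriv [FiniteDimensional ℂ E] {q : ℕ → E → ℂ} {p : E → ℂ}
    (hq : ∀ k, Differentiable ℂ (q k)) (h : LU q p) (c : E) :
    LU (fun k x => fderiv ℂ (q k) x c) (fun x => fderiv ℂ p x c) := by
  have hp : Differentiable ℂ p := h.differentiable hq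
  intro R
  rw [Metric.tendstoUniformlyOn_iff]
  intro ε hε
  have h1 := (Metric.tendstoUniformlyOn_iff.mp (h (R + 1))) (ε / (‖c‖ + 1)) (by positivity)
  filter_upwards [h1] with k hk x hx
  have hb := norm_fderiv_le (f := p - q k) (x := x) (r := 1) (M := ε / (‖c‖ + 1)) one_pos
    (hp.sub (hq k)).differentiableOn (fun y hy => by
      have hy' : y ∈ closedBall (0 : E) (R + 1) := by
        rw [mem_closedBall] at hx ⊢
        rw [mem_ball] at hy
        calc dist y 0 ≤ dist y x + dist x 0 := dist_triangle _ _ _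
          _ ≤ 1 + R := add_le_add hy.le hx
          _ = R + 1 := by ring
      have := hk y hy'
      rw [dist_eq_norm] at this
      exact this.le)
  rw [fderiv_sub (hp x) (hq k x), div_one] at hb
  rw [dist_eq_norm]
  calc ‖fderiv ℂ p x c - fderiv ℂ (q k) x c‖ = ‖(fderiv ℂ p x - fderiv ℂ (q k) x) c‖ := by
        rw [sub_apply]
    _ ≤ ‖fderiv ℂ p x - fderiv ℂ (q k) x‖ * ‖c‖ := ContinuousLinearMap.le_opNorm _ _
    _ ≤ ε / (‖c‖ + 1) * ‖c‖ := by gcongr
    _ < ε := by
        rw [div_mul_eq_mul_div, div_lt_iff₀ (by positivity)]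
        nlinarith [norm_nonneg c]

theorem LU.tendsto {q : ℕ → E → ℂ} {p : E → ℂ} (h : LU q p) (x : E) :
    Tendsto (fun k => q k x) atTop (𝓝 (p x)) :=
  (h ‖x‖).tendsto_at (by rw [mem_closedBall, dist_zero_right])

/-- evaluation at moving points -/
theorem LU.tendsto_at {q : ℕ → E → ℂ} {p : E → ℂ} (h : LU q p) (hp : Continuous p)
    {x : ℕ → E} {x₀ : E} (hx : Tendsto x atTop (𝓝 x₀)) :
    Tendsto (fun k => q k (x k)) atTop (𝓝 (p x₀)) := by
  have h1 : Tendsto (fun k => p (x k)) atTop (𝓝 (p x₀)) := (hp.tendsto x₀).comp hx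
  have h2 : ∀ᶠ k in atTop, x k ∈ closedBall (0 : E) (‖x₀‖ + 1) := by
    have : ball (0 : E) (‖x₀‖ + 1) ∈ 𝓝 x₀ := isOpen_ball.mem_nhds (by
      rw [mem_ball, dist_zero_right]; linarith)
    exact (hx.eventually this).mono fun k hk => ball_subset_closedBall hk
  have h3 := Metric.tendstoUniformlyOn_iff.mp (h (‖x₀‖ + 1))
  rw [Metric.tendsto_atTop] at h1 ⊢
  intro ε hε
  obtain ⟨N1, hN1⟩ := h1 (ε / 2) (by positivity)
  obtain ⟨N2, hN2⟩ := eventually_atTop.mp (h3 (ε / 2) (by positivity))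
  obtain ⟨N3, hN3⟩ := eventually_atTop.mp h2
  refine ⟨max N1 (max N2 N3), fun k hk => ?_⟩
  have hk1 : N1 ≤ k := (le_max_left _ _).trans hk
  have hk2 : N2 ≤ k := ((le_max_left _ _).trans (le_max_right _ _)).trans hk
  have hk3 : N3 ≤ k := ((le_max_right _ _).trans (le_max_right _ _)).trans hk
  calc dist (q k (x k)) (p x₀) ≤ dist (q k (x k)) (p (x k)) + dist (p (x k)) (p x₀) :=
        dist_triangle _ _ _
    _ < ε / 2 + ε / 2 := by
        refine add_lt_add ?_ (hN1 k hk1)
        rw [dist_comm]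
        exact hN2 k hk2 _ (hN3 k hk3)
    _ = ε := by ring

theorem LU.mul [FiniteDimensional ℂ E] {q q' : ℕ → E → ℂ} {p p' : E → ℂ} (h : LU q p)
    (h' : LU q' p') (hp : Continuous p) (hp' : Continuous p') :
    LU (fun k x => q k x * q' k x) (fun x => p x * p' x) := by
  have : ProperSpace E := FiniteDimensional.proper ℂ E
  intro R
  obtain ⟨M, hM⟩ := (isCompact_closedBall (0 : E) R).exists_bound_of_continuousOn hp.continuousOn
  obtain ⟨M', hM'⟩ := (isCompact_closedBall (0 : E) R).exists_bound_of_continuousOn hp'.continuousOn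
  rw [Metric.tendstoUniformlyOn_iff]
  intro ε hε
  set B : ℝ := |M| + |M'| + 1 with hB
  have hBpos : 0 < B := by positivity
  set δ : ℝ := min 1 (ε / (2 * B)) with hδ
  have hδpos : 0 < δ := lt_min one_pos (by positivity)
  have h1 := (Metric.tendstoUniformlyOn_iff.mp (h R)) δ hδpos
  have h2 := (Metric.tendstoUniformlyOn_iff.mp (h' R)) δ hδpos
  filter_upwards [h1, h2] with k hk hk' x hx
  have e1 : ‖p x - q k x‖ < δ := by have := hk x hx; rwa [dist_eq_norm] at this
  have e2 : ‖p' x - q' k x‖ < δ := by have := hk' x hx; rwa [dist_eq_norm] at this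
  have b1 : ‖p x‖ ≤ |M| := (hM x hx).trans (le_abs_self _)
  have b2 : ‖p' x‖ ≤ |M'| := (hM' x hx).trans (le_abs_self _)
  have b3 : ‖q' k x‖ ≤ |M'| + 1 := by
    calc ‖q' k x‖ = ‖p' x - (p' x - q' k x)‖ := by congr 1; ring
      _ ≤ ‖p' x‖ + ‖p' x - q' k x‖ := norm_sub_le _ _
      _ ≤ |M'| + 1 := by
        have : δ ≤ 1 := min_le_left _ _
        linarith
  rw [dist_eq_norm]
  have hid : p x * p' x - q k x * q' k x = p x * (p' x - q' k x) + (p x - q k x) * q' k x := by ring
  calc ‖p x * p' x - q k x * q' k x‖ ≤ ‖p x‖ * ‖p' x - q' k x‖ + ‖p x - q k x‖ * ‖q' k x‖ := by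
        rw [hid]
        refine (norm_add_le _ _).trans ?_
        rw [norm_mul, norm_mul]
    _ ≤ |M| * δ + δ * (|M'| + 1) := by
        gcongr
    _ = δ * B := by rw [hB]; ring
    _ ≤ ε / (2 * B) * B := by gcongr; exact min_le_right _ _
    _ = ε / 2 := by field_simp
    _ < ε := by linarith

theorem LU.subseq {q : ℕ → E → ℂ} {p : E → ℂ} (h : LU q p) {φ : ℕ → ℕ} (hφ : Tendsto φ atTop atTop) :
    LU (fun j => q (φ j)) p := by
  intro R u hu
  exact hφ.eventually (h R u hu)

/-- composition with converging affine maps -/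
theorem LU.comp_affine [FiniteDimensional ℂ E] {q : ℕ → E → ℂ} {p : E → ℂ} (h : LU q p)
    (hp : Continuous p) {t : ℕ → E} {t₀ : E} (ht : Tendsto t atTop (𝓝 t₀)) :
    LU (fun k x => q k (x + t k)) (fun x => p (x + t₀)) := by
  have : ProperSpace E := FiniteDimensional.proper ℂ E
  intro R
  rw [Metric.tendstoUniformlyOn_iff]
  intro ε hε
  set S : ℝ := R + ‖t₀‖ + 1 with hS
  have huc : UniformContinuousOn p (closedBall 0 S) :=
    (isCompact_closedBall (0 : E) S).uniformContinuousOn_of_continuous hp.continuousOn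
  rw [Metric.uniformContinuousOn_iff] at huc
  obtain ⟨δ, hδ, hpδ⟩ := huc (ε / 2) (by positivity)
  have h1 := (Metric.tendstoUniformlyOn_iff.mp (h S)) (ε / 2) (by positivity)
  have h2 : ∀ᶠ k in atTop, dist (t k) t₀ < min δ 1 := by
    rw [Metric.tendsto_atTop] at ht
    obtain ⟨N, hN⟩ := ht (min δ 1) (lt_min hδ one_pos)
    exact eventually_atTop.mpr ⟨N, hN⟩
  filter_upwards [h1, h2] with k hk hk' x hx
  rw [mem_closedBall, dist_zero_right] at hx
  have hd : dist (x + t₀) (x + t k) < min δ 1 := by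
    rw [dist_add_left, dist_comm]; exact hk'
  have m0 : x + t₀ ∈ closedBall (0 : E) S := by
    rw [mem_closedBall, dist_zero_right]
    calc ‖x + t₀‖ ≤ ‖x‖ + ‖t₀‖ := norm_add_le _ _
      _ ≤ S := by rw [hS]; linarith
  have m1 : x + t k ∈ closedBall (0 : E) S := by
    rw [mem_closedBall, dist_zero_right]
    have h3 : ‖t k‖ ≤ ‖t₀‖ + 1 := by
      have : ‖t k - t₀‖ < 1 := by
        rw [← dist_eq_norm]; exact hk'.trans_le (min_le_right _ _)
      calc ‖t k‖ = ‖t₀ + (t k - t₀)‖ := by congr 1; abel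
        _ ≤ ‖t₀‖ + ‖t k - t₀‖ := norm_add_le _ _
        _ ≤ ‖t₀‖ + 1 := by linarith
    calc ‖x + t k‖ ≤ ‖x‖ + ‖t k‖ := norm_add_le _ _
      _ ≤ S := by rw [hS]; linarith
  calc dist (p (x + t₀)) (q k (x + t k)) ≤ dist (p (x + t₀)) (p (x + t k)) +
        dist (p (x + t k)) (q k (x + t k)) := dist_triangle _ _ _
    _ < ε / 2 + ε / 2 := add_lt_add (hpδ _ m0 _ m1 (hd.trans_le (min_le_left _ _))) (hk _ m1)
    _ = ε := by ring

/-- exponentials of converging linear forms -/
theorem LU.exp [FiniteDimensional ℂ E] {l : ℕ → E →L[ℂ] ℂ} {l₀ : E →L[ℂ] ℂ} {c : ℕ → ℂ} {c₀ : ℂ}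
    (h : Tendsto l atTop (𝓝 l₀)) (hc : Tendsto c atTop (𝓝 c₀)) :
    LU (fun k x => Complex.exp (l k x + c k)) (fun x => Complex.exp (l₀ x + c₀)) := by
  intro R
  -- the affine forms converge uniformly and are bounded
  set S : ℝ := ‖l₀‖ * |R| + ‖c₀‖ + 1 with hS
  have huc : UniformContinuousOn Complex.exp (closedBall 0 S) :=
    (isCompact_closedBall (0 : ℂ) S).uniformContinuousOn_of_continuous
      Complex.continuous_exp.continuousOn
  rw [Metric.uniformContinuousOn_iff] at huc
  rw [Metric.tendstoUniformlyOn_iff]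
  intro ε hε
  obtain ⟨δ, hδ, hpδ⟩ := huc ε hε
  set δ' : ℝ := min δ 1 with hδ'
  have hδ'pos : 0 < δ' := lt_min hδ one_pos
  have h1 : ∀ᶠ k in atTop, ‖l k - l₀‖ < δ' / (2 * (|R| + 1)) := by
    have := (Metric.tendsto_atTop.mp h) (δ' / (2 * (|R| + 1))) (by positivity)
    obtain ⟨N, hN⟩ := this
    refine eventually_atTop.mpr ⟨N, fun k hk => ?_⟩
    rw [← dist_eq_norm]; exact hN k hk
  have h2 : ∀ᶠ k in atTop, ‖c k - c₀‖ < δ' / 2 := by
    have := (Metric.tendsto_atTop.mp hc) (δ' / 2) (by positivity)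
    obtain ⟨N, hN⟩ := this
    refine eventually_atTop.mpr ⟨N, fun k hk => ?_⟩
    rw [← dist_eq_norm]; exact hN k hk
  filter_upwards [h1, h2] with k hk hk' x hx
  rw [mem_closedBall, dist_zero_right] at hx
  have hx' : ‖x‖ ≤ |R| := hx.trans (le_abs_self _)
  have hdiff : ‖(l k x + c k) - (l₀ x + c₀)‖ < δ' := by
    calc ‖(l k x + c k) - (l₀ x + c₀)‖ = ‖(l k - l₀) x + (c k - c₀)‖ := by
          rw [sub_apply]; congr 1; ring
      _ ≤ ‖(l k - l₀) x‖ + ‖c k - c₀‖ := norm_add_le _ _
      _ ≤ ‖l k - l₀‖ * ‖x‖ + ‖c k - c₀‖ := by gcongr; exact ContinuousLinearMap.le_opNorm _ _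
      _ ≤ δ' / (2 * (|R| + 1)) * |R| + ‖c k - c₀‖ := by gcongr
      _ < δ' / 2 + δ' / 2 := by
          refine add_lt_add_of_le_of_lt ?_ hk'
          rw [div_mul_eq_mul_div, div_le_div_iff₀ (by positivity) (by positivity)]
          nlinarith [abs_nonneg R]
      _ = δ' := by ring
  have m0 : l₀ x + c₀ ∈ closedBall (0 : ℂ) S := by
    rw [mem_closedBall, dist_zero_right]
    calc ‖l₀ x + c₀‖ ≤ ‖l₀ x‖ + ‖c₀‖ := norm_add_le _ _
      _ ≤ ‖l₀‖ * ‖x‖ + ‖c₀‖ := by gcongr; exact ContinuousLinearMap.le_opNorm _ _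
      _ ≤ ‖l₀‖ * |R| + ‖c₀‖ := by gcongr
      _ ≤ S := by rw [hS]; linarith
  have m1 : l k x + c k ∈ closedBall (0 : ℂ) S := by
    rw [mem_closedBall, dist_zero_right]
    calc ‖l k x + c k‖ = ‖(l₀ x + c₀) + ((l k x + c k) - (l₀ x + c₀))‖ := by congr 1; ring
      _ ≤ ‖l₀ x + c₀‖ + ‖(l k x + c k) - (l₀ x + c₀)‖ := norm_add_le _ _
      _ ≤ (‖l₀‖ * |R| + ‖c₀‖) + 1 := by
          have hle : δ' ≤ 1 := min_le_right _ _
          have h3 : ‖l₀ x + c₀‖ ≤ ‖l₀‖ * |R| + ‖c₀‖ := by
            calc ‖l₀ x + c₀‖ ≤ ‖l₀ x‖ + ‖c₀‖ := norm_add_le _ _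
              _ ≤ ‖l₀‖ * ‖x‖ + ‖c₀‖ := by gcongr; exact ContinuousLinearMap.le_opNorm _ _
              _ ≤ ‖l₀‖ * |R| + ‖c₀‖ := by gcongr
          linarith
      _ = S := by rw [hS]
  exact hpδ _ m0 _ m1 (by rw [dist_comm, dist_eq_norm]; exact hdiff.trans_le (min_le_left _ _))


/-- **Montel**, on an open set -/
theorem montel_open [FiniteDimensional ℂ E] {U : Set E} (hU : IsOpen U) {q : ℕ → E → ℂ}
    (hq : ∀ k, DifferentiableOn ℂ (q k) U)
    (hb : ∀ x ∈ U, ∃ r > 0, ∃ C : ℝ, ball x r ⊆ U ∧ ∀ k, ∀ y ∈ ball x r, ‖q k y‖ ≤ C) :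
    ∃ (φ : ℕ → ℕ) (p : E → ℂ), StrictMono φ ∧ DifferentiableOn ℂ p U ∧
      TendstoLocallyUniformlyOn (fun j => q (φ j)) p atTop U := by
  classical
  have : ProperSpace E := FiniteDimensional.proper ℂ E
  have : LocallyCompactSpace U := hU.locallyCompactSpace
  let f : ℕ → C(U, ℂ) := fun k => ⟨U.domRestrict (q k), (hq k).continuousOn.domRestrict⟩
  have : T2Space (UniformOnFun U ℂ {K : Set U | IsCompact K}) :=
    UniformOnFun.t2Space_of_covering
      (Set.eq_univ_iff_forall.mpr fun x => Set.mem_sUnion_of_mem (Set.mem_singleton x)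
        isCompact_singleton)
  have hemb : IsClosedEmbedding
      (UniformOnFun.ofFun {K : Set U | IsCompact K} ∘ (fun g : C(U, ℂ) => (g : U → ℂ))) :=
    ContinuousMap.isUniformEmbedding_toUniformOnFunIsCompact.isClosedEmbedding
  have hcomp : IsCompact (closure (Set.range f)) := by
    refine ArzelaAscoli.isCompact_closure_of_isClosedEmbedding (fun K hK => hK) hemb ?_ ?_
    · -- equicontinuity
      intro K _
      refine Equicontinuous.equicontinuousOn ?_ K
      intro x
      rw [Metric.equicontinuousAt_iff]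
      intro ε hε
      obtain ⟨r, hr, C, hrU, hC⟩ := hb x.1 x.2
      have hC0 : 0 ≤ C := (norm_nonneg _).trans (hC 0 x.1 (mem_ball_self hr))
      have hsub : ∀ y ∈ ball x.1 (r / 2), ball y (r / 2) ⊆ ball x.1 r := by
        intro y hy z hz
        rw [mem_ball] at *
        calc dist z x.1 ≤ dist z y + dist y x.1 := dist_triangle _ _ _
          _ < r / 2 + r / 2 := add_lt_add hz hy
          _ = r := by ring
      have hlip : ∀ k, ∀ y ∈ ball x.1 (r / 2), ‖q k y - q k x.1‖ ≤ C / (r / 2) * ‖y - x.1‖ := by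
        intro k y hy
        refine Convex.norm_image_sub_le_of_norm_fderiv_le (𝕜 := ℂ) (s := ball x.1 (r / 2)) ?_ ?_
          (convex_ball _ _) (mem_ball_self (by positivity)) hy
        · intro z hz
          exact (hq k).differentiableAt (hU.mem_nhds (hrU (ball_subset_ball (by linarith) hz)))
        · intro z hz
          refine norm_fderiv_le (by positivity) ((hq k).mono ((hsub z hz).trans hrU)) ?_
          intro w hw
          exact hC k w (hsub z hz hw)
      refine ⟨min (r / 2) (ε / (C / (r / 2) + 1)), lt_min (by positivity) (by positivity), ?_⟩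
      rintro y hy ⟨_, k, rfl⟩
      have hy1 : dist y.1 x.1 < r / 2 := hy.trans_le (min_le_left _ _)
      have hy2 : dist y.1 x.1 < ε / (C / (r / 2) + 1) := hy.trans_le (min_le_right _ _)
      have h1 := hlip k y.1 hy1
      change dist (q k x.1) (q k y.1) < ε
      rw [dist_comm, dist_eq_norm]
      rw [dist_eq_norm] at hy2
      calc ‖q k y.1 - q k x.1‖ ≤ C / (r / 2) * ‖y.1 - x.1‖ := h1
        _ ≤ (C / (r / 2) + 1) * ‖y.1 - x.1‖ := by gcongr; linarith
        _ < ε := by
          rw [lt_div_iff₀ (by positivity)] at hy2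
          linarith
    · -- pointwise boundedness
      intro K _ x _
      obtain ⟨r, hr, C, hrU, hC⟩ := hb x.1 x.2
      refine ⟨closedBall 0 C, isCompact_closedBall _ _, ?_⟩
      rintro _ ⟨k, rfl⟩
      rw [mem_closedBall, dist_zero_right]
      exact hC k x.1 (mem_ball_self hr)
  obtain ⟨g, -, φ, hφ, hlim⟩ := hcomp.tendsto_subseq (x := f)
    (fun k => subset_closure (Set.mem_range_self k))
  rw [ContinuousMap.tendsto_iff_tendstoLocallyUniformly] at hlim
  let p : E → ℂ := fun x => if h : x ∈ U then g ⟨x, h⟩ else 0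
  have hconv : TendstoLocallyUniformlyOn (fun j => q (φ j)) p atTop U := by
    rw [tendstoLocallyUniformlyOn_iff_tendstoLocallyUniformly_comp_coe]
    have hp : p ∘ ((↑) : U → E) = g := by
      funext x
      simp [p]
    rw [hp]
    exact hlim
  exact ⟨φ, p, hφ, differentiableOn_of_limit hU (fun k => hq (φ k)) hconv, hconv⟩

/-- **Montel** -/
theorem montel [FiniteDimensional ℂ E] {q : ℕ → E → ℂ} (hq : ∀ k, Differentiable ℂ (q k))
    (hb : ∀ R : ℝ, ∃ C : ℝ, ∀ k, ∀ x ∈ closedBall (0 : E) R, ‖q k x‖ ≤ C) :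
    ∃ (φ : ℕ → ℕ) (p : E → ℂ), StrictMono φ ∧ Differentiable ℂ p ∧ LU (fun j => q (φ j)) p := by
  have : ProperSpace E := FiniteDimensional.proper ℂ E
  obtain ⟨φ, p, h1, h2, h3⟩ := montel_open isOpen_univ (fun k => (hq k).differentiableOn)
    (fun x _ => by
      obtain ⟨C, hC⟩ := hb (‖x‖ + 1)
      refine ⟨1, one_pos, C, Set.subset_univ _, fun k y hy => hC k y ?_⟩
      rw [mem_closedBall, dist_zero_right]
      rw [mem_ball, dist_eq_norm] at hy
      calc ‖y‖ = ‖x + (y - x)‖ := by congr 1; abel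
        _ ≤ ‖x‖ + ‖y - x‖ := norm_add_le _ _
        _ ≤ ‖x‖ + 1 := by linarith)
  refine ⟨φ, p, h1, differentiableOn_univ.mp h2, fun R => ?_⟩
  exact (tendstoLocallyUniformlyOn_iff_forall_isCompact isOpen_univ).mp h3 _ (Set.subset_univ _)
    (isCompact_closedBall (0 : E) R)

/-- Montel for functions which are bounded on one ball only (`DifferentiableOn`): a subsequence
converges uniformly on every smaller closed ball. -/
theorem montel_ball [FiniteDimensional ℂ E] {q : ℕ → E → ℂ} {R C : ℝ}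
    (hq : ∀ k, DifferentiableOn ℂ (q k) (ball 0 R)) (hb : ∀ k, ∀ x ∈ ball (0 : E) R, ‖q k x‖ ≤ C) :
    ∃ (φ : ℕ → ℕ) (p : E → ℂ), StrictMono φ ∧ DifferentiableOn ℂ p (ball 0 R) ∧
      ∀ r < R, TendstoUniformlyOn (fun j => q (φ j)) p atTop (closedBall 0 r) := by
  have : ProperSpace E := FiniteDimensional.proper ℂ E
  obtain ⟨φ, p, h1, h2, h3⟩ := montel_open isOpen_ball hq (fun x hx => by
    obtain ⟨r, hr, hsub⟩ := Metric.isOpen_iff.mp isOpen_ball x hx
    exact ⟨r, hr, C, hsub, fun k y hy => hb k y (hsub hy)⟩)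
  refine ⟨φ, p, h1, h2, fun r hr => ?_⟩
  exact (tendstoLocallyUniformlyOn_iff_forall_isCompact isOpen_ball).mp h3 _
    (closedBall_subset_ball hr) (isCompact_closedBall (0 : E) r)

end Pool.Agent.Lib.MP_db21fa_an.TF
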