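import Pool.Agent.Lib.MP_db21fa_an.TF.LinAlg

/-!
Module F0: the exact discrete identities.
-/

set_option autoImplicit false

open Filter Topology Metric

namespace Pool.Agent.Lib.MP_db21fa_an.TF

variable {E : Type*} [NormedAddCommGroup E] [NormedSpace ℂ E]

/-- `exp (m l(x)) p (x + m β)` -/
noncomputable def Qz (p : E → ℂ) (l : E →L[ℂ] ℂ) (β : E) (m : ℤ) (x : E) : ℂ :=
  Complex.exp (m * l x) * p (x + (m : ℂ) • β)

/-- the odd coefficient functions -/
noncomputable def oF {N : ℕ} (p q D : E → ℂ) (a b : Fin N → E) (i : Fin N) (y : E) : ℂ :=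
  ∑ l, (mm (PK p q) a b)⁻¹ i l * (p (a l - y) * D (a l + y) - p (a l + y) * D (a l - y))

/-- the bilinear operation -/
noncomputable def BF {N : ℕ} (o : Fin N → E → ℂ) (b : Fin N → E) (q q' : E → ℂ) (u : E) : ℂ :=
  ∑ i, q ((1 / 2 : ℂ) • u - b i) * q' ((1 / 2 : ℂ) • u + b i) * o i ((1 / 2 : ℂ) • u)

private theorem PK_shift_rank {p : E → ℂ} {N : ℕ} (hr : RankLE (PK p p) N)
    (l : E →L[ℂ] ℂ) (β : E) (c : ℂ) (q : E → ℂ)
    (hq : ∀ x, q x = c * Complex.exp (l x) * p (x + β)) : RankLE (PK p q) N := by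
  have h1 := (hr.comp (fun x : E => x + (1 / 2 : ℂ) • β) (fun y : E => y + (1 / 2 : ℂ) • β)).scale
    (fun x => c * Complex.exp (l x)) (fun y => Complex.exp (l y))
  have h2 : (fun x y : E => c * Complex.exp (l x) * Complex.exp (l y) *
      PK p p (x + (1 / 2 : ℂ) • β) (y + (1 / 2 : ℂ) • β)) = PK p q := by
    funext x y
    have e1 : x + (1 / 2 : ℂ) • β - (y + (1 / 2 : ℂ) • β) = x - y := by abel
    have e2 : x + (1 / 2 : ℂ) • β + (y + (1 / 2 : ℂ) • β) = x + y + β := by
      have : β = (1 / 2 : ℂ) • β + (1 / 2 : ℂ) • β := by rw [← add_smul]; norm_num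
      calc x + (1 / 2 : ℂ) • β + (y + (1 / 2 : ℂ) • β)
          = x + y + ((1 / 2 : ℂ) • β + (1 / 2 : ℂ) • β) := by abel
        _ = x + y + β := by rw [← this]
    simp only [PK, e1, e2, hq, map_add, Complex.exp_add]
    ring
  rw [h2] at h1
  exact h1

/-- two-term relation; `q` is any nonzero multiple of `exp (l x) * p (x + β)`. -/
theorem two_term {p : E → ℂ} {N : ℕ} (hr : RankLE (PK p p) N) {a b : Fin N → E}
    (l : E →L[ℂ] ℂ) (β : E) (c : ℂ) (hc : c ≠ 0) (q : E → ℂ)
    (hq : ∀ x, q x = c * Complex.exp (l x) * p (x + β))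
    (hdet : (mm (PK p q) a b).det ≠ 0) (m : ℤ) (u : E) :
    Qz p l β m 0 * Qz p l β (m + 1) u - Qz p l β m u * Qz p l β (m + 1) 0 =
      BF (oF p q q a b) b (Qz p l β m) (Qz p l β (m + 1)) u := by
  have hK := PK_shift_rank hr l β c q hq
  have key : ∀ x y : E, Qz p l β m (x - y) * Qz p l β (m + 1) (x + y) =
      c⁻¹ * Complex.exp (2 * m * l x - m * l β) * PK p q (x + (m : ℂ) • β) y := by
    intro x y
    have e1 : x + (m : ℂ) • β - y = x - y + (m : ℂ) • β := by abel
    have e2 : x + (m : ℂ) • β + y + β = x + y + ((m + 1 : ℤ) : ℂ) • β := by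
      push_cast
      rw [add_smul, one_smul]
      abel
    have e3 : Complex.exp (m * l (x - y)) * Complex.exp (((m + 1 : ℤ) : ℂ) * l (x + y)) =
        Complex.exp (2 * m * l x - m * l β) * Complex.exp (l (x + (m : ℂ) • β + y)) := by
      rw [← Complex.exp_add, ← Complex.exp_add]
      congr 1
      simp only [map_add, map_sub, map_smul, smul_eq_mul]
      push_cast
      ring
    simp only [Qz, PK, hq, e1]
    rw [e2]
    calc Complex.exp (m * l (x - y)) * p (x - y + (m : ℂ) • β) *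
          (Complex.exp (((m + 1 : ℤ) : ℂ) * l (x + y)) * p (x + y + ((m + 1 : ℤ) : ℂ) • β))
        = (Complex.exp (m * l (x - y)) * Complex.exp (((m + 1 : ℤ) : ℂ) * l (x + y))) *
          (p (x - y + (m : ℂ) • β) * p (x + y + ((m + 1 : ℤ) : ℂ) • β)) := by ring
      _ = (c⁻¹ * c) * (Complex.exp (2 * m * l x - m * l β) *
          Complex.exp (l (x + (m : ℂ) • β + y))) *
          (p (x - y + (m : ℂ) • β) * p (x + y + ((m + 1 : ℤ) : ℂ) • β)) := by
          rw [e3, inv_mul_cancel₀ hc, one_mul]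
      _ = _ := by ring
  have form : ∀ x y : E, Qz p l β m (x - y) * Qz p l β (m + 1) (x + y) =
      ∑ j, Qz p l β m (x - b j) * Qz p l β (m + 1) (x + b j) *
        ∑ i, (mm (PK p q) a b)⁻¹ j i * (p (a i - y) * q (a i + y)) := by
    intro x y
    rw [key, rank_formula hK hdet, Finset.sum_comm, Finset.mul_sum]
    refine Finset.sum_congr rfl fun j _ => ?_
    rw [key x (b j), Finset.mul_sum, Finset.mul_sum]
    refine Finset.sum_congr rfl fun i _ => ?_
    have : PK p q (a i) y = p (a i - y) * q (a i + y) := rfl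
    rw [this]
    ring
  have hu : (1 / 2 : ℂ) • u + (1 / 2 : ℂ) • u = u := by
    rw [← add_smul]
    norm_num
  have f1 := form ((1 / 2 : ℂ) • u) ((1 / 2 : ℂ) • u)
  have f2 := form ((1 / 2 : ℂ) • u) (-((1 / 2 : ℂ) • u))
  rw [sub_self, hu] at f1
  rw [sub_neg_eq_add, hu, add_neg_cancel] at f2
  rw [f1, f2, ← Finset.sum_sub_distrib]
  simp only [BF, oF]
  refine Finset.sum_congr rfl fun j _ => ?_
  rw [← mul_sub, ← Finset.sum_sub_distrib]
  congr 1
  refine Finset.sum_congr rfl fun i _ => ?_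
  rw [sub_neg_eq_add, ← sub_eq_add_neg]
  ring

/-- replacing `D = q` by `D = q - p` does not change `oF` -/
theorem oF_sub {p q : E → ℂ} {N : ℕ} (a b : Fin N → E) (i : Fin N) (y : E) :
    oF p q (fun x => q x - p x) a b i y = oF p q q a b i y := by
  simp only [oF]
  exact Finset.sum_congr rfl fun l _ => by ring

/-- three-term relation, for the functions `exp (s m ^ 2 + t m) * Qz m` -/
theorem three_term {p : E → ℂ} {N : ℕ} (hr : RankLE (PK p p) N) {a b : Fin N → E}
    (hdet : (mm (PK p p) a b).det ≠ 0) (l : E →L[ℂ] ℂ) (β : E) (s t : ℂ) (P : ℤ → E → ℂ)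
    (hP : ∀ m x, P m x = Complex.exp (s * m ^ 2 + t * m) * Qz p l β m x) (m r : ℤ) (x y : E) :
    P (m - r) (x - y) * P (m + r) (x + y) =
      ∑ i, ∑ j, P m (x - b i) * P m (x + b i) * (mm (PK p p) a b)⁻¹ i j *
        (P (-r) (a j - y) * P r (a j + y)) := by
  have key : ∀ (m r : ℤ) (x y : E), P (m - r) (x - y) * P (m + r) (x + y) =
      Complex.exp (2 * s * m ^ 2 + 2 * t * m + 2 * m * l x) *
        Complex.exp (2 * s * r ^ 2 + 2 * r * l y) *
        PK p p (x + (m : ℂ) • β) (y + (r : ℂ) • β) := by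
    intro m r x y
    have e1 : x + (m : ℂ) • β - (y + (r : ℂ) • β) = x - y + ((m - r : ℤ) : ℂ) • β := by
      push_cast
      rw [sub_smul]
      abel
    have e2 : x + (m : ℂ) • β + (y + (r : ℂ) • β) = x + y + ((m + r : ℤ) : ℂ) • β := by
      push_cast
      rw [add_smul]
      abel
    have e3 : Complex.exp (s * ((m - r : ℤ) : ℂ) ^ 2 + t * ((m - r : ℤ) : ℂ)) *
        Complex.exp (((m - r : ℤ) : ℂ) * l (x - y)) *
        (Complex.exp (s * ((m + r : ℤ) : ℂ) ^ 2 + t * ((m + r : ℤ) : ℂ)) *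
        Complex.exp (((m + r : ℤ) : ℂ) * l (x + y))) =
        Complex.exp (2 * s * m ^ 2 + 2 * t * m + 2 * m * l x) *
        Complex.exp (2 * s * r ^ 2 + 2 * r * l y) := by
      simp only [← Complex.exp_add]
      congr 1
      simp only [map_add, map_sub]
      push_cast
      ring
    simp only [hP, Qz, PK, e1, e2]
    rw [← e3]
    ring
  have h1 : ∀ i, P m (x - b i) * P m (x + b i) =
      Complex.exp (2 * s * m ^ 2 + 2 * t * m + 2 * m * l x) * PK p p (x + (m : ℂ) • β) (b i) := by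
    intro i
    have := key m 0 x (b i)
    simpa using this
  have h2 : ∀ j, P (-r) (a j - y) * P r (a j + y) =
      Complex.exp (2 * s * r ^ 2 + 2 * r * l y) * PK p p (a j) (y + (r : ℂ) • β) := by
    intro j
    have := key 0 r (a j) y
    simpa using this
  rw [key, rank_formula hr hdet, Finset.sum_comm, Finset.mul_sum]
  refine Finset.sum_congr rfl fun i _ => ?_
  rw [Finset.mul_sum]
  refine Finset.sum_congr rfl fun j _ => ?_
  rw [h1, h2]
  ring

end Pool.Agent.Lib.MP_db21fa_an.TF
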