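import Pool.Agent.Lib.MP_db21fa_an.TF.Defs

/-!
The structure `Approach`.
-/

set_option autoImplicit false

open Filter Topology Metric

namespace Pool.Agent.Lib.MP_db21fa_an.TF

variable {E : Type*} [NormedAddCommGroup E] [NormedSpace ℂ E] [FiniteDimensional ℂ E]

/-- The normalised translates `c j * exp (l j x) * p (x + β j)` with value `1` at `0`, converging to `p`,
with the secant direction `η`. -/
structure Approach (p : E → ℂ) (β : ℕ → E) (c : ℕ → ℂ) (l : ℕ → E →L[ℂ] ℂ) (ε : ℕ → ℝ)
    (η : E → ℂ) : Prop where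
  one : ∀ j, c j * p (β j) = 1
  pos : ∀ j, 0 < ε j
  zero : Tendsto ε atTop (𝓝 0)
  lim : LU (fun j x => c j * Complex.exp (l j x) * p (x + β j)) p
  diff : Differentiable ℂ η
  sec : LU (fun j x => (c j * Complex.exp (l j x) * p (x + β j) - p x) / ε j) η

end Pool.Agent.Lib.MP_db21fa_an.TF
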