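import Pool.Agent.Lib.MP_db21fa_an.TF.Cx

/-!
Module J: extension by doubling.
-/

set_option autoImplicit false

open Filter Topology Metric

namespace Pool.Agent.Lib.MP_db21fa_an.TF

variable {E : Type*} [NormedAddCommGroup E] [NormedSpace ℂ E] [FiniteDimensional ℂ E]

/-- the right-hand side of the kernel identity on `E × ℂ` -/
noncomputable def KRhs {N : ℕ} (C : Matrix (Fin N) (Fin N) ℂ) (a b : Fin N → E) (P : E × ℂ → ℂ)
    (Z W : E × ℂ) : ℂ :=
  ∑ i, ∑ j, P (Z - (b i, 0)) * P (Z + (b i, 0)) * C i j * (P ((a j, 0) - W) * P ((a j, 0) + W))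

private noncomputable def Gop {N : ℕ} (C : Matrix (Fin N) (Fin N) ℂ) (a b : Fin N → E)
    (P : E × ℂ → ℂ) (Z : E × ℂ) : ℂ := KRhs C a b P ((2 : ℂ)⁻¹ • Z) ((2 : ℂ)⁻¹ • Z)

omit [NormedSpace ℂ E] [FiniteDimensional ℂ E] in
private theorem mem_box {r t : ℝ} {Z : E × ℂ} :
    Z ∈ (ball 0 r ×ˢ ball 0 t : Set (E × ℂ)) ↔ ‖Z.1‖ < r ∧ ‖Z.2‖ < t := by
  simp [Set.mem_prod]

omit [NormedSpace ℂ E] [FiniteDimensional ℂ E] in
private theorem box_mono {r t r' t' : ℝ} (hr : r ≤ r') (ht : t ≤ t') :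
    (ball 0 r ×ˢ ball 0 t : Set (E × ℂ)) ⊆ ball 0 r' ×ˢ ball 0 t' :=
  Set.prod_mono (ball_subset_ball hr) (ball_subset_ball ht)

omit [FiniteDimensional ℂ E] in
private theorem box_shift {r t μ : ℝ} {c : E} (hc : ‖c‖ ≤ μ) {Z : E × ℂ}
    (hZ : Z ∈ (ball 0 (r - μ) ×ˢ ball 0 t : Set (E × ℂ))) :
    Z - (c, 0) ∈ (ball 0 r ×ˢ ball 0 t : Set (E × ℂ)) ∧
    Z + (c, 0) ∈ (ball 0 r ×ˢ ball 0 t : Set (E × ℂ)) ∧
    (c, 0) - Z ∈ (ball 0 r ×ˢ ball 0 t : Set (E × ℂ)) ∧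
    (c, 0) + Z ∈ (ball 0 r ×ˢ ball 0 t : Set (E × ℂ)) := by
  rw [mem_box] at hZ
  obtain ⟨h1, h2⟩ := hZ
  have e1 : ‖Z.1 - c‖ < r := by linarith [norm_sub_le Z.1 c]
  have e2 : ‖Z.1 + c‖ < r := by linarith [norm_add_le Z.1 c]
  have e3 : ‖c - Z.1‖ < r := by rw [norm_sub_rev]; exact e1
  have e4 : ‖c + Z.1‖ < r := by rw [add_comm]; exact e2
  refine ⟨mem_box.2 ⟨?_, ?_⟩, mem_box.2 ⟨?_, ?_⟩, mem_box.2 ⟨?_, ?_⟩, mem_box.2 ⟨?_, ?_⟩⟩ <;>
    simpa using by assumption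

omit [FiniteDimensional ℂ E] in
private theorem half_mem {r t μ : ℝ} {Z : E × ℂ}
    (hZ : Z ∈ (ball 0 (2 * (r - μ)) ×ˢ ball 0 (2 * t) : Set (E × ℂ))) :
    (2 : ℂ)⁻¹ • Z ∈ (ball 0 (r - μ) ×ˢ ball 0 t : Set (E × ℂ)) := by
  rw [mem_box] at hZ ⊢
  have hn : ‖(2 : ℂ)⁻¹‖ = 2⁻¹ := by simp
  simp only [Prod.smul_fst, Prod.smul_snd, norm_smul, hn]
  constructor <;> linarith [hZ.1, hZ.2]

omit [FiniteDimensional ℂ E] in
private theorem krhs_congr {N : ℕ} {C : Matrix (Fin N) (Fin N) ℂ} {a b : Fin N → E} {r t μ : ℝ}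
    (ha : ∀ i, ‖a i‖ ≤ μ) (hb : ∀ i, ‖b i‖ ≤ μ) {P P' : E × ℂ → ℂ}
    (h : ∀ Z ∈ (ball 0 r ×ˢ ball 0 t : Set (E × ℂ)), P Z = P' Z) {Z W : E × ℂ}
    (hZ : Z ∈ (ball 0 (r - μ) ×ˢ ball 0 t : Set (E × ℂ)))
    (hW : W ∈ (ball 0 (r - μ) ×ˢ ball 0 t : Set (E × ℂ))) :
    KRhs C a b P Z W = KRhs C a b P' Z W := by
  refine Finset.sum_congr rfl fun i _ => Finset.sum_congr rfl fun j _ => ?_
  obtain ⟨h1, h2, -, -⟩ := box_shift (hb i) hZ
  obtain ⟨-, -, h3, h4⟩ := box_shift (ha j) hW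
  rw [h _ h1, h _ h2, h _ h3, h _ h4]

omit [FiniteDimensional ℂ E] in
private theorem gop_diff {N : ℕ} (C : Matrix (Fin N) (Fin N) ℂ) {a b : Fin N → E} {r t μ : ℝ}
    (ha : ∀ i, ‖a i‖ ≤ μ) (hb : ∀ i, ‖b i‖ ≤ μ) {P : E × ℂ → ℂ}
    (hP : DifferentiableOn ℂ P (ball 0 r ×ˢ ball 0 t)) :
    DifferentiableOn ℂ (Gop C a b P) (ball 0 (2 * (r - μ)) ×ˢ ball 0 (2 * t)) := by
  have key : ∀ (g : E × ℂ → E × ℂ), Differentiable ℂ g →
      (∀ Z ∈ (ball 0 (2 * (r - μ)) ×ˢ ball 0 (2 * t) : Set (E × ℂ)),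
        g Z ∈ (ball 0 r ×ˢ ball 0 t : Set (E × ℂ))) →
      DifferentiableOn ℂ (fun Z => P (g Z)) (ball 0 (2 * (r - μ)) ×ˢ ball 0 (2 * t)) :=
    fun g hg hm => hP.comp hg.differentiableOn hm
  unfold Gop KRhs
  refine DifferentiableOn.fun_sum fun i _ => DifferentiableOn.fun_sum fun j _ => ?_
  refine DifferentiableOn.mul (DifferentiableOn.mul (DifferentiableOn.mul ?_ ?_)
    (differentiableOn_const _)) (DifferentiableOn.mul ?_ ?_)
  · exact key _ (by fun_prop) fun Z hZ => (box_shift (hb i) (half_mem hZ)).1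
  · exact key _ (by fun_prop) fun Z hZ => (box_shift (hb i) (half_mem hZ)).2.1
  · exact key _ (by fun_prop) fun Z hZ => (box_shift (ha j) (half_mem hZ)).2.2.1
  · exact key _ (by fun_prop) fun Z hZ => (box_shift (ha j) (half_mem hZ)).2.2.2

/-- **doubling**: a local solution of the kernel identity extends to an entire one -/
theorem doubling {N : ℕ} (C : Matrix (Fin N) (Fin N) ℂ) (a b : Fin N → E) {R T : ℝ}
    (hR : 0 < R) (ha : ∀ i, 2 * ‖a i‖ < R) (hb : ∀ i, 2 * ‖b i‖ < R) (hT : 0 < T)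
    {P : E × ℂ → ℂ} (hP : DifferentiableOn ℂ P (ball 0 R ×ˢ ball 0 T)) (h0 : P 0 = 1)
    (hid : ∀ᶠ Z : (E × ℂ) × (E × ℂ) in 𝓝 0,
      P (Z.1 - Z.2) * P (Z.1 + Z.2) = KRhs C a b P Z.1 Z.2) :
    ∃ Q : E × ℂ → ℂ, Differentiable ℂ Q ∧ (∀ Z ∈ (ball 0 R ×ˢ ball 0 T : Set (E × ℂ)), Q Z = P Z) ∧
      ∀ Z W, Q (Z - W) * Q (Z + W) = KRhs C a b Q Z W := by
  -- the constant `μ`
  obtain ⟨μ, hμ0, hμR, haμ, hbμ⟩ : ∃ μ : ℝ, 0 ≤ μ ∧ 2 * μ < R ∧ (∀ i, ‖a i‖ ≤ μ) ∧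
      (∀ i, ‖b i‖ ≤ μ) := by
    let s : Finset ℝ := insert 0 ((Finset.univ.image fun i => ‖a i‖) ∪
      (Finset.univ.image fun i => ‖b i‖))
    have hs : s.Nonempty := ⟨0, Finset.mem_insert_self _ _⟩
    refine ⟨s.max' hs, s.le_max' _ (Finset.mem_insert_self _ _), ?_, fun i => s.le_max' _ ?_,
      fun i => s.le_max' _ ?_⟩
    · have := s.max'_mem hs
      simp only [s, Finset.mem_insert, Finset.mem_union, Finset.mem_image, Finset.mem_univ,
        true_and] at this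
      rcases this with h | ⟨i, h⟩ | ⟨i, h⟩
      · rw [show s.max' hs = 0 from h]; simpa using hR
      · rw [show s.max' hs = ‖a i‖ from h.symm]; exact ha i
      · rw [show s.max' hs = ‖b i‖ from h.symm]; exact hb i
    · simp [s]
    · simp [s]
  -- radii
  set r : ℕ → ℝ := fun k => 2 ^ k * (R - 2 * μ) + 2 * μ with hr
  set t : ℕ → ℝ := fun k => 2 ^ k * T with ht
  have hr0 : r 0 = R := by simp [hr]
  have ht0 : t 0 = T := by simp [ht]
  have hrs : ∀ k, 2 * (r k - μ) = r (k + 1) := fun k => by simp only [hr]; ring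
  have hts : ∀ k, 2 * t k = t (k + 1) := fun k => by simp only [ht]; ring
  have hrm : ∀ k, r k ≤ r (k + 1) := fun k => by
    simp only [hr, pow_succ]
    nlinarith [pow_pos (show (0 : ℝ) < 2 by norm_num) k]
  have htm : ∀ k, t k ≤ t (k + 1) := fun k => by
    simp only [ht, pow_succ]
    nlinarith [pow_pos (show (0 : ℝ) < 2 by norm_num) k]
  have hrmono : Monotone r := monotone_nat_of_le_succ hrm
  have htmono : Monotone t := monotone_nat_of_le_succ htm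
  set Om : ℕ → Set (E × ℂ) := fun k => ball 0 (r k) ×ˢ ball 0 (t k) with hOm
  have hOmono : ∀ {j k}, j ≤ k → Om j ⊆ Om k := fun h => box_mono (hrmono h) (htmono h)
  have hOopen : ∀ k, IsOpen (Om k) := fun k => isOpen_ball.prod isOpen_ball
  have hO0 : (0 : E × ℂ) ∈ Om 0 := by
    simp only [hOm, hr0, ht0]; exact mem_box.2 ⟨by simpa using hR, by simpa using hT⟩
  -- the sequence
  set p : ℕ → E × ℂ → ℂ := fun k => (Gop C a b)^[k] P with hp
  have hpsucc : ∀ k, p (k + 1) = Gop C a b (p k) := fun k => by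
    simp only [hp, Function.iterate_succ_apply']
  have hp0 : p 0 = P := rfl
  have hdiff : ∀ k, DifferentiableOn ℂ (p k) (Om k) := by
    intro k
    induction k with
    | zero => simpa only [hOm, hr0, ht0, hp0] using hP
    | succ k ih =>
      rw [hpsucc]
      have := gop_diff C haμ hbμ ih
      rwa [hrs, hts] at this
  have hfix : ∀ k, ∀ Z ∈ Om k, p (k + 1) Z = p k Z := by
    intro k
    induction k with
    | zero =>
      have hsub : DifferentiableOn ℂ (fun Z => p 1 Z - p 0 Z) (Om 0) :=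
        ((hdiff 1).mono (hOmono (Nat.zero_le 1))).sub (hdiff 0)
      have hconv : Convex ℝ (Om 0) := (convex_ball _ _).prod (convex_ball _ _)
      have hev : ∀ᶠ Z in 𝓝 (0 : E × ℂ), p 1 Z - p 0 Z = 0 := by
        have hc : Tendsto (fun Z : E × ℂ => (((2 : ℂ)⁻¹ • Z, (2 : ℂ)⁻¹ • Z) :
            (E × ℂ) × (E × ℂ))) (𝓝 0) (𝓝 0) := by
          have : Continuous (fun Z : E × ℂ => (((2 : ℂ)⁻¹ • Z, (2 : ℂ)⁻¹ • Z) :
            (E × ℂ) × (E × ℂ))) := by fun_prop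
          have h := this.tendsto 0
          have e0 : (((2 : ℂ)⁻¹ • (0 : E × ℂ), (2 : ℂ)⁻¹ • (0 : E × ℂ)) :
            (E × ℂ) × (E × ℂ)) = 0 := by simp
          rwa [e0] at h
        filter_upwards [hc.eventually hid] with Z hZ
        simp only [sub_self, h0, one_mul] at hZ
        have e : (2 : ℂ)⁻¹ • Z + (2 : ℂ)⁻¹ • Z = Z := by
          rw [← add_smul]; norm_num
        rw [e] at hZ
        rw [hpsucc 0, hp0, sub_eq_zero, hZ]
        rfl
      intro Z hZ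
      have := identity_convex (hOopen 0) hconv hsub hO0 hev Z hZ
      exact sub_eq_zero.1 this
    | succ k ih =>
      intro Z hZ
      rw [hpsucc (k + 1)]
      conv_rhs => rw [hpsucc k]
      have hZ' : Z ∈ (ball 0 (2 * (r k - μ)) ×ˢ ball 0 (2 * t k) : Set (E × ℂ)) := by
        rw [hrs, hts]; exact hZ
      exact krhs_congr haμ hbμ ih (half_mem hZ') (half_mem hZ')
  have hcons : ∀ k j, ∀ Z ∈ Om k, p (k + j) Z = p k Z := by
    intro k j
    induction j with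
    | zero => intro Z _; rfl
    | succ j ih =>
      intro Z hZ
      rw [← add_assoc, hfix _ Z (hOmono (Nat.le_add_right k j) hZ), ih Z hZ]
  have hcons' : ∀ {k j}, k ≤ j → ∀ Z ∈ Om k, p j Z = p k Z := by
    intro k j hkj Z hZ
    obtain ⟨d, rfl⟩ := Nat.exists_eq_add_of_le hkj
    exact hcons k d Z hZ
  have hex : ∀ Z : E × ℂ, ∃ k, Z ∈ Om k := by
    intro Z
    obtain ⟨k₁, h₁⟩ := pow_unbounded_of_one_lt (‖Z.1‖ / (R - 2 * μ)) (show (1 : ℝ) < 2 by norm_num)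
    obtain ⟨k₂, h₂⟩ := pow_unbounded_of_one_lt (‖Z.2‖ / T) (show (1 : ℝ) < 2 by norm_num)
    refine ⟨max k₁ k₂, mem_box.2 ⟨?_, ?_⟩⟩
    · have : ‖Z.1‖ < r k₁ := by
        rw [div_lt_iff₀ (by linarith)] at h₁
        simp only [hr]; linarith
      exact this.trans_le (hrmono (le_max_left _ _))
    · have : ‖Z.2‖ < t k₂ := by
        rw [div_lt_iff₀ hT] at h₂
        simp only [ht]; linarith
      exact this.trans_le (htmono (le_max_right _ _))
  choose κ hκ using hex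
  set Q : E × ℂ → ℂ := fun Z => p (κ Z) Z with hQdef
  have hQ : ∀ k, ∀ Z ∈ Om k, Q Z = p k Z := by
    intro k Z hZ
    simp only [hQdef]
    rcases le_total k (κ Z) with h | h
    · exact hcons' h Z hZ
    · exact (hcons' h Z (hκ Z)).symm
  have hQd : Differentiable ℂ Q := by
    intro Z
    have hm := hκ Z
    have h1 : DifferentiableAt ℂ (p (κ Z)) Z := (hdiff (κ Z)).differentiableAt
      ((hOopen _).mem_nhds hm)
    refine h1.congr_of_eventuallyEq ?_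
    filter_upwards [(hOopen _).mem_nhds hm] with W hW
    exact hQ _ W hW
  have hQP : ∀ Z ∈ (ball 0 R ×ˢ ball 0 T : Set (E × ℂ)), Q Z = P Z := by
    intro Z hZ
    have : Z ∈ Om 0 := by simpa only [hOm, hr0, ht0] using hZ
    rw [hQ 0 Z this, hp0]
  refine ⟨Q, hQd, hQP, ?_⟩
  -- the identity
  set H : (E × ℂ) × (E × ℂ) → ℂ := fun Z =>
    Q (Z.1 - Z.2) * Q (Z.1 + Z.2) - KRhs C a b Q Z.1 Z.2 with hH
  have hHd : Differentiable ℂ H := by
    have key : ∀ (g : (E × ℂ) × (E × ℂ) → E × ℂ), Differentiable ℂ g →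
      Differentiable ℂ (fun Z => Q (g Z)) := fun g hg => hQd.comp hg
    simp only [hH, KRhs]
    refine Differentiable.sub (Differentiable.mul (key _ (by fun_prop)) (key _ (by fun_prop))) ?_
    refine Differentiable.fun_sum fun i _ => Differentiable.fun_sum fun j _ => ?_
    exact Differentiable.mul (Differentiable.mul (Differentiable.mul (key _ (by fun_prop))
      (key _ (by fun_prop))) (differentiable_const _))
      (Differentiable.mul (key _ (by fun_prop)) (key _ (by fun_prop)))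
  have hH0 : H = 0 := by
    refine identity hHd (x₀ := 0) ?_
    have hopen : IsOpen (ball 0 R ×ˢ ball 0 T : Set (E × ℂ)) := isOpen_ball.prod isOpen_ball
    have hopen' : IsOpen (ball 0 (R - μ) ×ˢ ball 0 T : Set (E × ℂ)) :=
      isOpen_ball.prod isOpen_ball
    have m1 : (0 : E × ℂ) ∈ (ball 0 R ×ˢ ball 0 T : Set (E × ℂ)) :=
      mem_box.2 ⟨by simpa using hR, by simpa using hT⟩
    have m2 : (0 : E × ℂ) ∈ (ball 0 (R - μ) ×ˢ ball 0 T : Set (E × ℂ)) :=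
      mem_box.2 ⟨by simp; linarith, by simpa using hT⟩
    have c1 : Tendsto (fun Z : (E × ℂ) × (E × ℂ) => Z.1 - Z.2) (𝓝 0) (𝓝 0) := by
      have h : Continuous (fun Z : (E × ℂ) × (E × ℂ) => Z.1 - Z.2) := by fun_prop
      simpa using h.tendsto 0
    have c2 : Tendsto (fun Z : (E × ℂ) × (E × ℂ) => Z.1 + Z.2) (𝓝 0) (𝓝 0) := by
      have h : Continuous (fun Z : (E × ℂ) × (E × ℂ) => Z.1 + Z.2) := by fun_prop
      simpa using h.tendsto 0
    have c3 : Tendsto (fun Z : (E × ℂ) × (E × ℂ) => Z.1) (𝓝 0) (𝓝 0) := by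
      have h : Continuous (fun Z : (E × ℂ) × (E × ℂ) => Z.1) := by fun_prop
      simpa using h.tendsto 0
    have c4 : Tendsto (fun Z : (E × ℂ) × (E × ℂ) => Z.2) (𝓝 0) (𝓝 0) := by
      have h : Continuous (fun Z : (E × ℂ) × (E × ℂ) => Z.2) := by fun_prop
      simpa using h.tendsto 0
    filter_upwards [hid, c1.eventually (hopen.mem_nhds m1), c2.eventually (hopen.mem_nhds m1),
      c3.eventually (hopen'.mem_nhds m2), c4.eventually (hopen'.mem_nhds m2)] with Z h1 h2 h3 h4 h5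
    simp only [hH]
    rw [hQP _ h2, hQP _ h3, krhs_congr haμ hbμ hQP h4 h5, h1, sub_self]
  intro Z W
  have := congrFun hH0 (Z, W)
  simp only [hH, Pi.zero_apply] at this
  exact sub_eq_zero.1 this

end Pool.Agent.Lib.MP_db21fa_an.TF
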