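import Pool.Agent.Lib.MP_db21fa_an.TF.Defs

/-!
`AdmFull`.
-/

set_option autoImplicit false

open Filter Topology Metric

namespace Pool.Agent.Lib.MP_db21fa_an.TF

variable {E : Type*} [NormedAddCommGroup E] [NormedSpace ℂ E] [FiniteDimensional ℂ E]

/-- `h` is similar to a Gaussian times a function on `ℂ ^ m` with cocompact multiplier periods -/
def AdmFull (h : E → ℂ) (m : ℕ) : Prop :=
  ∃ (v : E →L[ℂ] (Fin m → ℂ)) (B : E →L[ℂ] E →L[ℂ] ℂ) (κ : E →L[ℂ] ℂ)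
    (p : (Fin m → ℂ) → ℂ), Differentiable ℂ p ∧ (∃ x, p (v x) ≠ 0) ∧ FullPer p ∧
    Sim h (fun x => gs B κ x * p (v x))

end Pool.Agent.Lib.MP_db21fa_an.TF
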