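import Pool.Agent.Lib.MP_db21fa_an.TF.GradOps

/-!
Module S7: the centre: the commutative monoid `ZEl` and the commutative algebra `CC`.
-/

set_option autoImplicit false

open Filter Topology Metric

namespace Pool.Agent.Lib.MP_db21fa_an.TF

variable {E G ι : Type*} [NormedAddCommGroup E] [NormedSpace ℂ E] [NormedAddCommGroup G]
  [NormedSpace ℂ G]

namespace Dat

variable (D : Dat E G ι)

/-- central symbols of degree `w` -/
structure IsZ (w : G) (Φ : E → G → ℂ) : Prop where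
  isH : D.IsH w Φ
  comm : ∀ w' Φ', D.IsH w' Φ' → D.cmp w' Φ Φ' = D.cmp w Φ' Φ

/-- the space of central symbols of degree `w` -/
def Zc (w : G) : Submodule ℂ (E → G → ℂ) where
  carrier := {Φ | D.IsZ w Φ}
  add_mem' := by
    intro Φ Φ' h h'
    refine ⟨(D.H w).add_mem h.isH h'.isH, fun w' Ψ hΨ => ?_⟩
    rw [cmp_add_left, cmp_add_right, h.comm w' Ψ hΨ, h'.comm w' Ψ hΨ]
  zero_mem' := by
    refine ⟨(D.H w).zero_mem, fun w' Ψ _ => ?_⟩
    have h1 := cmp_smul_left (D := D) w' 0 (0 : E → G → ℂ) Ψ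
    have h2 := cmp_smul_right (D := D) w 0 Ψ (0 : E → G → ℂ)
    simp only [zero_smul] at h1 h2
    rw [h1, h2]
  smul_mem' := by
    intro s Φ h
    refine ⟨(D.H w).smul_mem s h.isH, fun w' Ψ hΨ => ?_⟩
    rw [cmp_smul_left, cmp_smul_right, h.comm w' Ψ hΨ]

theorem mem_Zc {w : G} {Φ : E → G → ℂ} : Φ ∈ D.Zc w ↔ D.IsZ w Φ := Iff.rfl

variable {D}

theorem isZ_one : D.IsZ 0 D.one :=
  ⟨isH_one, fun w' Φ' h => by rw [one_cmp h, cmp_one h]⟩

theorem isZ_tr (a : E) : D.IsZ (D.v a) (D.tr a) :=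
  ⟨isH_tr a, fun w' Φ' h => by rw [tr_cmp a h, cmp_tr a h]⟩

theorem isZ_mu (i : ι) : D.IsZ (D.ω i) (D.mu i) :=
  ⟨isH_mu i, fun w' Φ' h => by rw [mu_cmp i h, cmp_mu i h]⟩

/-- an inverse of a central symbol is central -/
theorem IsZ.of_inverse {w : G} {Φ Φ' : E → G → ℂ} (h : D.IsZ w Φ) (h' : D.IsH (-w) Φ')
    (h1 : D.cmp (-w) Φ Φ' = D.one) : D.IsZ (-w) Φ' := by
  refine ⟨h', fun w' X hX => ?_⟩
  have h2 : D.cmp w Φ' Φ = D.one := by rw [← h1, h.comm (-w) Φ' h']
  have hA : D.IsH (-w + w') (D.cmp w' Φ' X) := h'.cmp hX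
  have e1 := cmp_assoc hA h.isH h'
  rw [h1, add_neg_cancel, cmp_one hA] at e1
  have e2 := cmp_assoc h' hX h.isH
  rw [← h.comm w' X hX, add_comm w' w] at e2
  have e3 := cmp_assoc h' h.isH hX
  rw [h2, one_cmp hX] at e3
  rw [← e1, e2, ← e3]

theorem isZ_mu' (i : ι) : D.IsZ (-D.ω i) (D.mu' i) :=
  (isZ_mu i).of_inverse (isH_mu' i) (mu_cmp_mu' i)

theorem IsZ.cmp {w w' : G} {Φ Φ' : E → G → ℂ} (h : D.IsZ w Φ) (h' : D.IsZ w' Φ') :
    D.IsZ (w + w') (D.cmp w' Φ Φ') := by
  refine ⟨h.isH.cmp h'.isH, fun w'' X hX => ?_⟩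
  rw [cmp_assoc h.isH h'.isH hX, h'.comm w'' X hX, add_comm w' w'',
    ← cmp_assoc h.isH hX h'.isH, h.comm w'' X hX, cmp_assoc hX h.isH h'.isH]

/-! ### central elements as a commutative monoid -/

variable (D)

/-- homogeneous central elements -/
@[ext] structure ZEl where
  w : G
  Φ : E → G → ℂ
  isZ : D.IsZ w Φ

variable {D}

noncomputable instance : CommMonoid D.ZEl where
  mul X Y := ⟨X.w + Y.w, D.cmp Y.w X.Φ Y.Φ, X.isZ.cmp Y.isZ⟩
  one := ⟨0, D.one, isZ_one⟩
  mul_assoc := by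
    intro X Y Z
    exact ZEl.ext (add_assoc _ _ _) (cmp_assoc X.isZ.isH Y.isZ.isH Z.isZ.isH)
  one_mul := by
    intro X
    exact ZEl.ext (zero_add _) (one_cmp X.isZ.isH)
  mul_one := by
    intro X
    exact ZEl.ext (add_zero _) (cmp_one X.isZ.isH)
  mul_comm := by
    intro X Y
    exact ZEl.ext (add_comm _ _) (X.isZ.comm Y.w Y.Φ Y.isZ.isH)

theorem ZEl.mul_w (X Y : D.ZEl) : (X * Y).w = X.w + Y.w := rfl

theorem ZEl.mul_Φ (X Y : D.ZEl) : (X * Y).Φ = D.cmp Y.w X.Φ Y.Φ := rfl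

theorem ZEl.one_w : (1 : D.ZEl).w = 0 := rfl

theorem ZEl.one_Φ : (1 : D.ZEl).Φ = D.one := rfl

/-! ### the commutative algebra of central elements of degree `0` -/

variable (D)

/-- central elements of degree `0` -/
def CC : Type _ := D.Zc 0

variable {D}

noncomputable instance : AddCommGroup D.CC := inferInstanceAs (AddCommGroup (D.Zc 0))

noncomputable instance : Module ℂ D.CC := inferInstanceAs (Module ℂ (D.Zc 0))

noncomputable instance : CommRing D.CC :=
  { (inferInstance : AddCommGroup D.CC) with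
    mul := fun X Y => ⟨D.cmp 0 X.1 Y.1, by
      have h := IsZ.cmp (D := D) X.2 Y.2
      rw [add_zero] at h
      exact h⟩
    one := ⟨D.one, isZ_one⟩
    left_distrib := by
      intro X Y Z
      exact Subtype.ext (cmp_add_right 0 X.1 Y.1 Z.1)
    right_distrib := by
      intro X Y Z
      exact Subtype.ext (cmp_add_left 0 X.1 Y.1 Z.1)
    zero_mul := by
      intro X
      refine Subtype.ext ?_
      have h1 := cmp_smul_left (D := D) 0 0 (0 : E → G → ℂ) X.1
      simp only [zero_smul] at h1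
      exact h1
    mul_zero := by
      intro X
      refine Subtype.ext ?_
      have h1 := cmp_smul_right (D := D) 0 0 X.1 (0 : E → G → ℂ)
      simp only [zero_smul] at h1
      exact h1
    mul_assoc := by
      intro X Y Z
      refine Subtype.ext ?_
      have h := cmp_assoc (D := D) X.2.isH Y.2.isH Z.2.isH
      rw [add_zero] at h
      exact h
    one_mul := by
      intro X
      exact Subtype.ext (one_cmp (D := D) X.2.isH)
    mul_one := by
      intro X
      exact Subtype.ext (cmp_one (D := D) X.2.isH)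
    mul_comm := by
      intro X Y
      exact Subtype.ext (X.2.comm 0 Y.1 Y.2.isH) }

noncomputable instance : Algebra ℂ D.CC := Algebra.ofModule
  (by
    intro r X Y
    exact Subtype.ext (cmp_smul_left 0 r X.1 Y.1))
  (by
    intro r X Y
    exact Subtype.ext (cmp_smul_right 0 r X.1 Y.1))

theorem CC.mul_val (X Y : D.CC) : (X * Y).1 = D.cmp 0 X.1 Y.1 := rfl

theorem CC.one_val : (1 : D.CC).1 = D.one := rfl

end Dat

end Pool.Agent.Lib.MP_db21fa_an.TF
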