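import Pool.Agent.Lib.MP_db21fa_an.TF.PresH

/-!
Module S6: constant dimension and frames of `H w`.
-/

set_option autoImplicit false

open Filter Topology Metric

namespace Pool.Agent.Lib.MP_db21fa_an.TF

variable {E G ι : Type*} [NormedAddCommGroup E] [NormedSpace ℂ E] [NormedAddCommGroup G]
  [NormedSpace ℂ G]

namespace Dat

variable (D : Dat E G ι)

/-- a family with the invariance of `H` has constant dimension -/
theorem const_dim {S : G → Submodule ℂ (E → G → ℂ)} (h : Presented S)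
    (htr : ∀ w x, Module.finrank ℂ (S (w + D.v x)) = Module.finrank ℂ (S w))
    (hmu : ∀ w i, Module.finrank ℂ (S (w + D.ω i)) = Module.finrank ℂ (S w)) (B : ℕ)
    (hB : ∀ w, Module.finrank ℂ (S w) ≤ B) :
    ∃ d, ∀ w, Module.finrank ℂ (S w) = d := by
  classical
  obtain ⟨w₀, hw₀⟩ : ∃ w₀, ∀ w, Module.finrank ℂ (S w) ≤ Module.finrank ℂ (S w₀) := by
    have hne : (Set.range fun w => Module.finrank ℂ (S w)).Nonempty := ⟨_, ⟨0, rfl⟩⟩
    have hbd : BddAbove (Set.range fun w => Module.finrank ℂ (S w)) := by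
      refine ⟨B, ?_⟩
      rintro _ ⟨w, rfl⟩
      exact hB w
    obtain ⟨w₀, hw₀⟩ := Nat.sSup_mem hne hbd
    refine ⟨w₀, fun w => ?_⟩
    have := le_csSup hbd (Set.mem_range_self w)
    simpa [← hw₀] using this
  have hA := D.Z {w | Module.finrank ℂ (S w₀) ≤ Module.finrank ℂ (S w)}
    (h.locAnalytic _)
    ⟨w₀, (le_rfl : Module.finrank ℂ (S w₀) ≤ Module.finrank ℂ (S w₀))⟩ (fun u hu x => by
      have hu' : Module.finrank ℂ (S w₀) ≤ Module.finrank ℂ (S u) := hu
      show Module.finrank ℂ (S w₀) ≤ Module.finrank ℂ (S (u + D.v x))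
      rwa [htr]) (by
      rintro u hu _ ⟨i, rfl⟩
      have hu' : Module.finrank ℂ (S w₀) ≤ Module.finrank ℂ (S u) := hu
      refine ⟨?_, ?_⟩
      · show Module.finrank ℂ (S w₀) ≤ Module.finrank ℂ (S (u + D.ω i))
        rwa [hmu]
      · show Module.finrank ℂ (S w₀) ≤ Module.finrank ℂ (S (u - D.ω i))
        have := hmu (u - D.ω i) i
        rw [sub_add_cancel] at this
        rwa [← this])
  refine ⟨Module.finrank ℂ (S w₀), fun w => le_antisymm (hw₀ w) ?_⟩
  have : w ∈ {w | Module.finrank ℂ (S w₀) ≤ Module.finrank ℂ (S w)} := by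
    rw [hA]; trivial
  exact this

variable {D}

/-- left multiplication as a linear map -/
noncomputable def lmul (D : Dat E G ι) (w : G) (X : E → G → ℂ) :
    (E → G → ℂ) →ₗ[ℂ] (E → G → ℂ) where
  toFun Φ := D.cmp w X Φ
  map_add' := D.cmp_add_right w X
  map_smul' := fun s Φ => D.cmp_smul_right w s X Φ

theorem lmul_apply (w : G) (X Φ : E → G → ℂ) : D.lmul w X Φ = D.cmp w X Φ := rfl

/-- left multiplication by an element with a left inverse does not decrease the dimension -/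
theorem finrank_le_of_leftInv {S : G → Submodule ℂ (E → G → ℂ)} (hS : ∀ w, S w ≤ D.H w)
    (hfd : ∀ w, FiniteDimensional ℂ (S w)) {a b : G} {X Y : E → G → ℂ}
    (hX : D.IsH a X) (hY : D.IsH b Y)
    (hYX : D.cmp a Y X = D.one) {w w' : G}
    (hmul : ∀ Φ, Φ ∈ S w → D.cmp w X Φ ∈ S w') :
    Module.finrank ℂ (S w) ≤ Module.finrank ℂ (S w') := by
  have := hfd w'
  refine LinearMap.finrank_le_finrank_of_injective
    (f := (D.lmul w X).restrict (p := S w) (q := S w') (fun Φ hΦ => hmul Φ hΦ)) ?_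
  rw [injective_iff_map_eq_zero]
  rintro ⟨Φ, hΦ⟩ h0
  have h1 : D.cmp w X Φ = 0 := by
    have := congrArg Subtype.val h0
    simpa [LinearMap.restrict_apply, lmul_apply] using this
  have h2 := cmp_assoc hY hX (hS w hΦ)
  rw [hYX, one_cmp (hS w hΦ), h1] at h2
  have h3 : D.cmp (a + w) Y (0 : E → G → ℂ) = 0 := by
    have := D.cmp_smul_right (a + w) 0 Y (0 : E → G → ℂ)
    simpa using this
  apply Subtype.ext
  simp only [ZeroMemClass.coe_zero]
  rw [h2, h3]

/-- multiplication by a unit preserves the dimension -/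
theorem finrank_of_unit {S : G → Submodule ℂ (E → G → ℂ)} (hS : ∀ w, S w ≤ D.H w)
    (hfd : ∀ w, FiniteDimensional ℂ (S w)) {a b : G} (hab : b + a = 0) {X Y : E → G → ℂ}
    (hX : D.IsH a X) (hY : D.IsH b Y) (hYX : D.cmp a Y X = D.one) (hXY : D.cmp b X Y = D.one)
    (hmulX : ∀ w Φ, Φ ∈ S w → D.cmp w X Φ ∈ S (a + w))
    (hmulY : ∀ w Φ, Φ ∈ S w → D.cmp w Y Φ ∈ S (b + w)) (w : G) :
    Module.finrank ℂ (S (w + a)) = Module.finrank ℂ (S w) := by
  refine le_antisymm ?_ ?_
  · refine finrank_le_of_leftInv hS hfd hY hX hXY (w := w + a) (w' := w) ?_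
    intro Φ hΦ
    have h1 := hmulY (w + a) Φ hΦ
    have h2 : b + (w + a) = w := by rw [add_comm w a, ← add_assoc, hab, zero_add]
    rwa [h2] at h1
  · refine finrank_le_of_leftInv hS hfd hX hY hYX (w := w) (w' := w + a) ?_
    intro Φ hΦ
    rw [add_comm w a]
    exact hmulX w Φ hΦ

theorem tr_neg_cmp_tr (a : E) : D.cmp (D.v a) (D.tr (-a)) (D.tr a) = D.one := by
  rw [tr_cmp (-a) (isH_tr a)]
  funext z g
  simp [tr, one]

theorem tr_cmp_tr_neg (a : E) : D.cmp (D.v (-a)) (D.tr a) (D.tr (-a)) = D.one := by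
  rw [tr_cmp a (isH_tr (-a))]
  funext z g
  simp [tr, one]

theorem finrank_H_le [FiniteDimensional ℂ E] [FiniteDimensional ℂ G] (w : G) :
    Module.finrank ℂ (D.H w) ≤ D.N * D.N := by
  classical
  obtain ⟨⟨a, b⟩, hab⟩ := D.exists_points (0 + w + w)
  obtain ⟨⟨a', b'⟩, hab'⟩ := D.exists_points 0
  let f : (E → G → ℂ) →ₗ[ℂ] (Fin D.N × Fin D.N → ℂ) :=
    { toFun := fun Φ ij => D.KF Φ 0 (a ij.1) (b' ij.2)
      map_add' := fun Φ Ψ => by funext ij; simp [KF]
      map_smul' := fun s Φ => by funext ij; simp [KF] }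
  have hinj : Function.Injective (f.comp (D.H w).subtype) := by
    rw [injective_iff_map_eq_zero]
    rintro ⟨Φ, hΦ⟩ h0
    have h1 : ∀ i j, D.KF Φ 0 (a i) (b' j) = 0 := fun i j => congrFun h0 (i, j)
    have h2 : ∀ x j, D.KF Φ 0 x (b' j) = 0 := by
      intro x j
      have := (mem_colSp_iff (D.rankEq (0 + w + w)).1 hab _).1 (hΦ.col 0 (b' j)) x
      rw [this]
      simp [h1]
    have h3 : ∀ x y, D.KF Φ 0 x y = 0 := by
      intro x y
      have := (mem_rowSp_iff (D.rankEq 0).1 hab' _).1 (hΦ.row 0 x) y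
      rw [this]
      simp [h2]
    apply Subtype.ext
    exact IsH.eq_zero hΦ fun x y => by simpa [KF] using h3 x y
  have := LinearMap.finrank_le_finrank_of_injective hinj
  simpa using this

variable (D)

theorem exists_framed_H [FiniteDimensional ℂ E] [FiniteDimensional ℂ G] :
    ∃ d, Framed D.H d := by
  have hfd : ∀ w, FiniteDimensional ℂ (D.H w) := fun w => D.presented_H.finiteDimensional w
  have hS : ∀ w, D.H w ≤ D.H w := fun w => le_rfl
  obtain ⟨d, hd⟩ := D.const_dim D.presented_H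
    (fun w x => finrank_of_unit hS hfd (a := D.v x) (b := D.v (-x)) (by simp) (isH_tr x)
      (isH_tr (-x)) (tr_neg_cmp_tr x) (tr_cmp_tr_neg x) (fun w Φ hΦ => (isH_tr x).cmp hΦ)
      (fun w Φ hΦ => (isH_tr (-x)).cmp hΦ) w)
    (fun w i => finrank_of_unit hS hfd (a := D.ω i) (b := -D.ω i) (by simp) (isH_mu i)
      (isH_mu' i) (mu'_cmp_mu i) (mu_cmp_mu' i) (fun w Φ hΦ => (isH_mu i).cmp hΦ)
      (fun w Φ hΦ => (isH_mu' i).cmp hΦ) w)
    (D.N * D.N) finrank_H_le
  exact ⟨d, D.presented_H.framed hd⟩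

end Dat

end Pool.Agent.Lib.MP_db21fa_an.TF
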