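import Pool.Agent.Lib.MP_db21fa_an.TF.Center
import Pool.Agent.Lib.MP_db21fa_an.TF.FrameH

/-!
Module S8: frames of the centre.
-/

set_option autoImplicit false

open Filter Topology Metric

namespace Pool.Agent.Lib.MP_db21fa_an.TF

variable {E G ι : Type*} [NormedAddCommGroup E] [NormedSpace ℂ E] [NormedAddCommGroup G]
  [NormedSpace ℂ G]

namespace Dat

variable {D : Dat E G ι}

/-- right multiplication as a linear map -/
noncomputable def rmul (D : Dat E G ι) (w' : G) (X : E → G → ℂ) :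
    (E → G → ℂ) →ₗ[ℂ] (E → G → ℂ) where
  toFun Φ := D.cmp w' Φ X
  map_add' := fun Φ Ψ => D.cmp_add_left w' Φ Ψ X
  map_smul' := fun s Φ => D.cmp_smul_left w' s Φ X

theorem rmul_apply (w' : G) (X Φ : E → G → ℂ) : D.rmul w' X Φ = D.cmp w' Φ X := rfl

theorem holFam_at {V : Type*} [NormedAddCommGroup V] [NormedSpace ℂ V] {F : V → E → G → ℂ}
    {U : Set V} (h : HolFam F U) (z : E) (g : G) : DifferentiableOn ℂ (fun t => F t z g) U := by
  have h1 : DifferentiableOn ℂ (fun t : V => (t, ((z, g) : E × G))) U :=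
    (differentiable_id.prodMk (differentiable_const _)).differentiableOn
  have h2 := DifferentiableOn.comp h h1 (fun t ht => Set.mk_mem_prod ht (Set.mem_univ _))
  exact h2

theorem IsH.holFam_const {V : Type*} [NormedAddCommGroup V] [NormedSpace ℂ V] {w : G}
    {Φ : E → G → ℂ} (h : D.IsH w Φ) (U : Set V) : HolFam (fun _ : V => Φ) U := by
  have h1 : Differentiable ℂ (fun q : V × (E × G) => Φ q.2.1 q.2.2) :=
    h.diff.comp differentiable_snd
  exact h1.differentiableOn

/-- the commutator functional -/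
noncomputable def comL (D : Dat E G ι) {r : ℕ} (F : Fin r → G → E → G → ℂ) (w' : G)
    (Φ' : E → G → ℂ) (z : E) (g : G) (w : G) : (Fin r → ℂ) →ₗ[ℂ] ℂ :=
  ∑ i, (D.cmp w' (F i w) Φ' z g - D.cmp w Φ' (F i w) z g) • LinearMap.proj i

theorem comL_apply {r : ℕ} (F : Fin r → G → E → G → ℂ) (w' : G)
    (Φ' : E → G → ℂ) (z : E) (g : G) (w : G) (A : Fin r → ℂ) :
    D.comL F w' Φ' z g w A =
      D.cmp w' (∑ i, A i • F i w) Φ' z g - D.cmp w Φ' (∑ i, A i • F i w) z g := by
  have h1 : D.cmp w' (∑ i, A i • F i w) Φ' = ∑ i, A i • D.cmp w' (F i w) Φ' := by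
    have := map_sum (D.rmul w' Φ') (fun i => A i • F i w) Finset.univ
    simp only [map_smul, rmul_apply] at this
    exact this
  have h2 : D.cmp w Φ' (∑ i, A i • F i w) = ∑ i, A i • D.cmp w Φ' (F i w) := by
    have := map_sum (D.lmul w Φ') (fun i => A i • F i w) Finset.univ
    simp only [map_smul, lmul_apply] at this
    exact this
  rw [h1, h2]
  simp only [comL, LinearMap.coe_sum, Finset.sum_apply, LinearMap.smul_apply,
    LinearMap.coe_proj, Function.eval, smul_eq_mul, Pi.smul_apply, ← Finset.sum_sub_distrib]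
  exact Finset.sum_congr rfl fun i _ => by ring

theorem presented_Zc [FiniteDimensional ℂ E] [FiniteDimensional ℂ G] : Presented D.Zc := by
  classical
  obtain ⟨r, hdim, hfr⟩ := D.exists_framed_H
  intro w₀
  obtain ⟨U, F, hU, hw₀, hF, hFU⟩ := hfr w₀
  have hFi : ∀ w ∈ U, ∀ i, D.IsH w (F i w) := fun w hw i => (hFU w hw).1 i
  refine ⟨U, r, {L | ∃ (w' : G) (Φ' : E → G → ℂ) (z : E) (g : G), D.IsH w' Φ' ∧
    L = D.comL F w' Φ' z g}, fun w A => ∑ i, A i • F i w, hU, hw₀, ?_, ?_, ?_, ?_, ?_, ?_⟩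
  · rintro L ⟨w', Φ', z, g, hΦ', rfl⟩ A
    have e : (fun w => D.comL F w' Φ' z g w A) = fun w =>
        ∑ i, (D.cmp w' (F i w) Φ' z g - D.cmp w Φ' (F i w) z g) * A i := by
      funext w
      simp [comL, LinearMap.coe_sum, Finset.sum_apply]
    rw [e]
    refine DifferentiableOn.fun_sum fun i _ => ?_
    refine DifferentiableOn.mul (DifferentiableOn.sub ?_ ?_) (differentiableOn_const _)
    · exact holFam_at (HolFam.cmp (w := fun t => t) (w' := fun _ => w') hU
        (differentiableOn_const _) (fun t ht => hFi t ht i) (fun _ _ => hΦ') (hF i)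
        (hΦ'.holFam_const U)) z g
    · exact holFam_at (HolFam.cmp (w := fun _ => w') (w' := fun t => t) hU differentiableOn_id
        (fun _ _ => hΦ') (fun t ht => hFi t ht i) (hΦ'.holFam_const U) (hF i)) z g
  · intro w hw A hA
    rw [mem_kerFam] at hA
    refine ⟨?_, ?_⟩
    · exact (D.H w).sum_mem fun i _ => (D.H w).smul_mem _ (hFi w hw i)
    · intro w' Φ' hΦ'
      funext z g
      have := hA _ ⟨w', Φ', z, g, hΦ', rfl⟩
      rw [comL_apply] at this
      exact sub_eq_zero.1 this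
  · intro w hw Φ hΦ
    have hΦ' : D.IsZ w Φ := hΦ
    have hfd := (hdim w).1
    let f : Fin r → D.H w := fun i => ⟨F i w, hFi w hw i⟩
    have hli : LinearIndependent ℂ f := by
      refine LinearIndependent.of_comp (D.H w).subtype ?_
      exact (hFU w hw).2
    have hsp : Submodule.span ℂ (Set.range f) = ⊤ := by
      refine hli.span_eq_top_of_card_eq_finrank' ?_
      rw [Fintype.card_fin, (hdim w).2]
    have hmem : (⟨Φ, hΦ'.isH⟩ : D.H w) ∈ Submodule.span ℂ (Set.range f) := by
      rw [hsp]; trivial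
    obtain ⟨c, hc⟩ := (Submodule.mem_span_range_iff_exists_fun ℂ).1 hmem
    have hc' : ∑ i, c i • F i w = Φ := by
      have := congrArg (fun q : D.H w => (q : E → G → ℂ)) hc
      simpa [f] using this
    refine ⟨c, ?_, hc'⟩
    rw [mem_kerFam]
    rintro L ⟨w', Φ', z, g, hΦ'', rfl⟩
    rw [comL_apply, hc', hΦ'.comm w' Φ' hΦ'', sub_self]
  · intro w hw A _ h0
    have := Fintype.linearIndependent_iff.1 (hFU w hw).2 A h0
    funext i
    exact this i
  · intro w _ A _ A' _ s
    simp only [Pi.add_apply, Pi.smul_apply, smul_eq_mul, add_smul, mul_smul,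
      Finset.sum_add_distrib, Finset.smul_sum]
  · intro U' A hU' hsub hA _
    have e : (fun q : G × (E × G) => (∑ i, A q.1 i • F i q.1) q.2.1 q.2.2) =
        fun q : G × (E × G) => ∑ i, A q.1 i * F i q.1 q.2.1 q.2.2 := by
      funext q
      simp [Finset.sum_apply]
    show DifferentiableOn ℂ (fun q : G × (E × G) => (∑ i, A q.1 i • F i q.1) q.2.1 q.2.2)
      (U' ×ˢ Set.univ)
    rw [e]
    refine DifferentiableOn.fun_sum fun i _ => DifferentiableOn.mul ?_ ?_
    · have h1 : DifferentiableOn ℂ (fun w => A w i) U' := (differentiableOn_pi.1 hA) i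
      exact h1.comp differentiable_fst.differentiableOn (fun q hq => hq.1)
    · exact (hF i).mono (Set.prod_mono hsub le_rfl)

theorem Zc_le_H (w : G) : D.Zc w ≤ D.H w := fun _ h => IsZ.isH h

theorem exists_framed_Zc [FiniteDimensional ℂ E] [FiniteDimensional ℂ G] :
    ∃ d, Framed D.Zc d := by
  have hfd : ∀ w, FiniteDimensional ℂ (D.Zc w) := fun w => presented_Zc.finiteDimensional w
  have hfdH : ∀ w, FiniteDimensional ℂ (D.H w) := fun w => D.presented_H.finiteDimensional w
  have hS : ∀ w, D.Zc w ≤ D.H w := Zc_le_H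
  obtain ⟨d, hd⟩ := D.const_dim (S := D.Zc) presented_Zc
    (fun w x => finrank_of_unit hS hfd (a := D.v x) (b := D.v (-x)) (by simp) (isH_tr x)
      (isH_tr (-x)) (tr_neg_cmp_tr x) (tr_cmp_tr_neg x) (fun w Φ hΦ => (isZ_tr x).cmp hΦ)
      (fun w Φ hΦ => (isZ_tr (-x)).cmp hΦ) w)
    (fun w i => finrank_of_unit hS hfd (a := D.ω i) (b := -D.ω i) (by simp) (isH_mu i)
      (isH_mu' i) (mu'_cmp_mu i) (mu_cmp_mu' i) (fun w Φ hΦ => (isZ_mu i).cmp hΦ)
      (fun w Φ hΦ => (isZ_mu' i).cmp hΦ) w)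
    (D.N * D.N) (fun w => by
      have := hfdH w
      exact (Submodule.finrank_mono (hS w)).trans (finrank_H_le w))
  exact ⟨d, presented_Zc.framed hd⟩

end Dat

end Pool.Agent.Lib.MP_db21fa_an.TF
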