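import Pool.Agent.Lib.MP_db21fa_an.TF.Defs

/-!
Module P: holomorphic 2-cocycles with values in the units of a finite-dimensional commutative
algebra are coboundaries (locally).
-/

set_option autoImplicit false

open Filter Topology Metric

namespace Pool.Agent.Lib.MP_db21fa_an.TF

namespace CoboundAux

/-- the derivative in the second variable at `0` is holomorphic in the first variable -/
theorem deriv_param {E : Type*} [NormedAddCommGroup E] [NormedSpace ℂ E] [CompleteSpace E]
    {δ : ℝ} (hδ : 0 < δ) (b : ℂ → ℂ → E)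
    (hb : DifferentiableOn ℂ (fun q : ℂ × ℂ => b q.1 q.2) (ball 0 δ ×ˢ ball 0 δ)) :
    DifferentiableOn ℂ (fun t => deriv (b t) 0) (ball 0 δ) := by
  have hb2 : ∀ t ∈ ball (0 : ℂ) δ, DifferentiableOn ℂ (b t) (ball 0 δ) := by
    intro t ht
    have h1 : DifferentiableOn ℂ (fun s : ℂ => ((t, s) : ℂ × ℂ)) (ball 0 δ) :=
      ((differentiable_const t).prodMk differentiable_id).differentiableOn
    exact hb.comp h1 (fun s hs => ⟨ht, hs⟩)
  have hb1 : ∀ s ∈ ball (0 : ℂ) δ, DifferentiableOn ℂ (fun t => b t s) (ball 0 δ) := by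
    intro s hs
    have h1 : DifferentiableOn ℂ (fun t : ℂ => ((t, s) : ℂ × ℂ)) (ball 0 δ) :=
      (differentiable_id.prodMk (differentiable_const s)).differentiableOn
    exact hb.comp h1 (fun t ht => ⟨ht, hs⟩)
  set h : ℕ → ℂ := fun n => ((δ / (n + 3) : ℝ) : ℂ) with hdef
  have hpos : ∀ n : ℕ, 0 < δ / ((n : ℝ) + 3) := fun n => by positivity
  have hlt : ∀ n : ℕ, δ / ((n : ℝ) + 3) < δ / 2 := by
    intro n
    have : (0 : ℝ) ≤ n := Nat.cast_nonneg n
    apply div_lt_div_of_pos_left hδ (by norm_num) (by linarith)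
  have hnorm : ∀ n, ‖h n‖ = δ / ((n : ℝ) + 3) := by
    intro n
    rw [hdef]
    simp only [Complex.norm_real, Real.norm_eq_abs]
    exact abs_of_pos (hpos n)
  have hne : ∀ n, h n ≠ 0 := by
    intro n h0
    have := hnorm n
    rw [h0, norm_zero] at this
    linarith [hpos n]
  have hlim : Tendsto (fun n : ℕ => δ / ((n : ℝ) + 3)) atTop (𝓝 0) := by
    apply Tendsto.div_atTop tendsto_const_nhds
    exact tendsto_atTop_add_const_right _ _ tendsto_natCast_atTop_atTop
  have key : TendstoLocallyUniformlyOn (fun n t => dslope (b t) 0 (h n))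
      (fun t => deriv (b t) 0) atTop (ball 0 δ) := by
    rw [tendstoLocallyUniformlyOn_iff_forall_isCompact isOpen_ball]
    intro K hK hKc
    have hcont : ContinuousOn (fun q : ℂ × ℂ => b q.1 q.2) (K ×ˢ closedBall 0 (δ / 2)) := by
      apply hb.continuousOn.mono
      apply Set.prod_mono hK
      exact closedBall_subset_ball (by linarith)
    obtain ⟨M, hM⟩ := (hKc.prod (isCompact_closedBall (0 : ℂ) (δ / 2))).exists_bound_of_continuousOn
      hcont
    have hM' : ∀ t ∈ K, ∀ s ∈ closedBall (0 : ℂ) (δ / 2), ‖b t s‖ ≤ M :=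
      fun t ht s hs => hM (t, s) ⟨ht, hs⟩
    set L : ℝ := (2 * M) / (δ / 2) with hL
    have hbound : ∀ t ∈ K, ∀ s ∈ ball (0 : ℂ) (δ / 2), ‖dslope (b t) 0 s‖ ≤ L := by
      intro t ht s hs
      apply Complex.norm_dslope_le_div_of_mapsTo_ball
        ((hb2 t (hK ht)).mono (ball_subset_ball (by linarith))) _ hs
      intro z hz
      rw [mem_closedBall, dist_eq_norm]
      have h1 := hM' t ht z (ball_subset_closedBall hz)
      have h2 := hM' t ht 0 (mem_closedBall_self (by linarith))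
      calc ‖b t z - b t 0‖ ≤ ‖b t z‖ + ‖b t 0‖ := norm_sub_le _ _
        _ ≤ 2 * M := by linarith
    have hdist : ∀ t ∈ K, ∀ s ∈ ball (0 : ℂ) (δ / 2),
        dist (dslope (b t) 0 s) (deriv (b t) 0) ≤ (2 * L) / (δ / 2) * dist s 0 := by
      intro t ht s hs
      rw [← dslope_same (b t) (0 : ℂ)]
      apply Complex.dist_le_div_mul_dist_of_mapsTo_ball _ _ hs
      · apply (Complex.differentiableOn_dslope (ball_mem_nhds _ (by linarith))).2
        exact (hb2 t (hK ht)).mono (ball_subset_ball (by linarith))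
      · intro z hz
        rw [mem_closedBall, dist_eq_norm]
        have h1 := hbound t ht z hz
        have h2 := hbound t ht 0 (mem_ball_self (by linarith))
        calc ‖dslope (b t) 0 z - dslope (b t) 0 0‖ ≤ ‖dslope (b t) 0 z‖ + ‖dslope (b t) 0 0‖ :=
              norm_sub_le _ _
          _ ≤ 2 * L := by linarith
    rw [Metric.tendstoUniformlyOn_iff]
    intro ε hε
    have hlim2 : Tendsto (fun n : ℕ => (2 * L) / (δ / 2) * (δ / ((n : ℝ) + 3))) atTop (𝓝 0) := by
      simpa using hlim.const_mul ((2 * L) / (δ / 2))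
    filter_upwards [hlim2.eventually (gt_mem_nhds hε)] with n hn t ht
    rw [dist_comm]
    have hmem : h n ∈ ball (0 : ℂ) (δ / 2) := by
      rw [mem_ball_zero_iff, hnorm]; exact hlt n
    refine lt_of_le_of_lt (hdist t ht (h n) hmem) ?_
    rwa [dist_zero_right, hnorm]
  refine key.differentiableOn (Eventually.of_forall fun n => ?_) isOpen_ball
  have hmem : h n ∈ ball (0 : ℂ) δ := by
    rw [mem_ball_zero_iff, hnorm]
    have := hlt n
    linarith
  have : DifferentiableOn ℂ (fun t => (h n - 0)⁻¹ • (b t (h n) - b t 0)) (ball 0 δ) :=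
    ((hb1 (h n) hmem).sub (hb1 0 (mem_ball_self hδ))).const_smul _
  refine this.congr fun t _ => ?_
  rw [dslope_of_ne _ (hne n), slope_def_module]

theorem normed {C : Type*} [NormedCommRing C] [NormedAlgebra ℂ C] [CompleteSpace C]
    {δ : ℝ} (hδ : 0 < δ) (b : ℂ → ℂ → C)
    (hb : DifferentiableOn ℂ (fun q : ℂ × ℂ => b q.1 q.2) (ball 0 δ ×ˢ ball 0 δ))
    (hb0 : ∀ t ∈ ball (0 : ℂ) δ, b t 0 = 1)
    (hcoc : ∀ t s r : ℂ, ‖t‖ + ‖s‖ + ‖r‖ < δ → b t s * b (t + s) r = b t (s + r) * b s r) :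
    ∃ (u : ℂ → C), u 0 = 1 ∧ (∀ t ∈ ball (0 : ℂ) δ, IsUnit (u t)) ∧
      DifferentiableOn ℂ u (ball 0 δ) ∧
      ∀ t s : ℂ, ‖t‖ + ‖s‖ < δ → b t s * (u t * u s) = u (t + s) := by
  let _ : NormedAlgebra ℚ C := NormedAlgebra.restrictScalars ℚ ℂ C
  have hA := deriv_param hδ b hb
  set A : ℂ → C := fun t => deriv (b t) 0 with hAdef
  obtain ⟨τ, hτ0, hτ⟩ := hA.isExactOn_ball.with_val_at 0 0
  have hb2 : ∀ t ∈ ball (0 : ℂ) δ, DifferentiableOn ℂ (b t) (ball 0 δ) := by
    intro t ht
    have h1 : DifferentiableOn ℂ (fun s : ℂ => ((t, s) : ℂ × ℂ)) (ball 0 δ) :=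
      ((differentiable_const t).prodMk differentiable_id).differentiableOn
    exact hb.comp h1 (fun s hs => ⟨ht, hs⟩)
  have hb2' : ∀ t ∈ ball (0 : ℂ) δ, ∀ s ∈ ball (0 : ℂ) δ, HasDerivAt (b t) (deriv (b t) s) s := by
    intro t ht s hs
    exact ((hb2 t ht).differentiableAt (isOpen_ball.mem_nhds hs)).hasDerivAt
  -- the differential equation
  have hD : ∀ t s : ℂ, ‖t‖ + ‖s‖ < δ → deriv (b t) s = b t s * (A (t + s) - A s) := by
    intro t s hts
    have ht : t ∈ ball (0 : ℂ) δ := by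
      rw [mem_ball_zero_iff]; linarith [norm_nonneg s]
    have hs : s ∈ ball (0 : ℂ) δ := by
      rw [mem_ball_zero_iff]; linarith [norm_nonneg t]
    have hts' : t + s ∈ ball (0 : ℂ) δ := by
      rw [mem_ball_zero_iff]; exact lt_of_le_of_lt (norm_add_le _ _) hts
    have h0 : (0 : ℂ) ∈ ball (0 : ℂ) δ := mem_ball_self hδ
    have e1 : HasDerivAt (fun r => b t s * b (t + s) r) (b t s * A (t + s)) 0 :=
      (hb2' (t + s) hts' 0 h0).const_mul _
    have e2 : HasDerivAt (fun r => b t (s + r)) (deriv (b t) s) 0 := by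
      have h1 : HasDerivAt (b t) (deriv (b t) s) (s + 0) := by
        rw [add_zero]; exact hb2' t ht s hs
      exact h1.comp_const_add s 0
    have e3 : HasDerivAt (fun r => b t (s + r) * b s r)
        (deriv (b t) s * b s 0 + b t (s + 0) * A s) 0 :=
      e2.mul (hb2' s hs 0 h0)
    have e4 : (fun r => b t s * b (t + s) r) =ᶠ[𝓝 0] fun r => b t (s + r) * b s r := by
      have : ∀ᶠ r : ℂ in 𝓝 0, ‖r‖ < δ - ‖t‖ - ‖s‖ := by
        have := ball_mem_nhds (0 : ℂ) (show 0 < δ - ‖t‖ - ‖s‖ by linarith)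
        filter_upwards [this] with r hr
        rwa [mem_ball_zero_iff] at hr
      filter_upwards [this] with r hr
      exact hcoc t s r (by linarith)
    have e5 := (e3.congr_of_eventuallyEq e4).unique e1
    rw [hb0 s hs, mul_one, add_zero] at e5
    rw [mul_sub, ← e5]
    ring
  refine ⟨fun t => NormedSpace.exp (τ t), ?_, ?_, ?_, ?_⟩
  · simp only [hτ0]; exact NormedSpace.exp_zero
  · intro t _
    exact NormedSpace.isUnit_exp _
  · intro t ht
    have h1 : HasFDerivAt (NormedSpace.exp : C → C) (NormedSpace.exp (τ t) • (1 : C →L[ℂ] C)) (τ t) :=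
      hasFDerivAt_exp
    exact (h1.comp_hasDerivAt t (hτ t ht)).differentiableAt.differentiableWithinAt
  · intro t s hts
    have ht : t ∈ ball (0 : ℂ) δ := by
      rw [mem_ball_zero_iff]; linarith [norm_nonneg s]
    set ρ : ℝ := δ - ‖t‖ with hρ
    have hρ0 : 0 < ρ := by
      rw [mem_ball_zero_iff] at ht; rw [hρ]; linarith
    set G : ℂ → C := fun x => b t x * NormedSpace.exp (τ t + τ x - τ (t + x)) with hG
    have hGd : ∀ x ∈ ball (0 : ℂ) ρ, HasDerivAt G 0 x := by
      intro x hx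
      rw [mem_ball_zero_iff] at hx
      have htx : ‖t‖ + ‖x‖ < δ := by rw [hρ] at hx; linarith
      have hxd : x ∈ ball (0 : ℂ) δ := by
        rw [mem_ball_zero_iff]; linarith [norm_nonneg t]
      have htx' : t + x ∈ ball (0 : ℂ) δ := by
        rw [mem_ball_zero_iff]; exact lt_of_le_of_lt (norm_add_le _ _) htx
      have h1 : HasDerivAt (fun y => τ t + τ y - τ (t + y)) (A x - A (t + x)) x := by
        have h2 : HasDerivAt (fun y => τ (t + y)) (A (t + x)) x :=
          (hτ (t + x) htx').comp_const_add t x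
        exact ((hτ x hxd).const_add (τ t)).sub h2
      have h3 : HasFDerivAt (NormedSpace.exp : C → C)
          (NormedSpace.exp (τ t + τ x - τ (t + x)) • (1 : C →L[ℂ] C))
          (τ t + τ x - τ (t + x)) := hasFDerivAt_exp
      have h4 := h3.comp_hasDerivAt x h1
      have h5 : HasDerivAt G
          (deriv (b t) x * (NormedSpace.exp (τ t + τ x - τ (t + x))) +
            b t x * (NormedSpace.exp (τ t + τ x - τ (t + x)) * (A x - A (t + x)))) x :=
        (hb2' t ht x hxd).mul h4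
      rw [hD t x htx] at h5
      convert h5 using 1
      ring
    have hconst : G s = G 0 := by
      apply isOpen_ball.is_const_of_deriv_eq_zero (convex_ball (0 : ℂ) ρ).isPreconnected
        (fun x hx => (hGd x hx).differentiableAt.differentiableWithinAt)
        (fun x hx => (hGd x hx).deriv)
      · rw [mem_ball_zero_iff, hρ]; linarith
      · exact mem_ball_self hρ0
    have hG0 : G 0 = 1 := by
      simp only [hG, hτ0, add_zero, sub_self, NormedSpace.exp_zero, mul_one]
      exact hb0 t ht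
    rw [hG0] at hconst
    simp only [hG] at hconst
    have h6 : NormedSpace.exp (τ t + τ s - τ (t + s)) * NormedSpace.exp (τ (t + s)) =
        NormedSpace.exp (τ t) * NormedSpace.exp (τ s) := by
      rw [← NormedSpace.exp_add, ← NormedSpace.exp_add]
      congr 1
      abel
    show b t s * (NormedSpace.exp (τ t) * NormedSpace.exp (τ s)) = NormedSpace.exp (τ (t + s))
    rw [← h6, ← mul_assoc, hconst, one_mul]

end CoboundAux

open scoped Matrix.Norms.Operator in
/-- `b (t, s) = u (t + s) * u(t)⁻¹ * u(s)⁻¹` -/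
theorem coboundary {C : Type*} [CommRing C] [Algebra ℂ C] {d : ℕ} (bas : Module.Basis (Fin d) ℂ C)
    {δ : ℝ} (hδ : 0 < δ) (b : ℂ → ℂ → C)
    (hb : ∀ i, DifferentiableOn ℂ (fun q : ℂ × ℂ => bas.repr (b q.1 q.2) i)
      (ball 0 δ ×ˢ ball 0 δ))
    (hb0 : ∀ t ∈ ball (0 : ℂ) δ, b t 0 = 1) (hb0' : ∀ t ∈ ball (0 : ℂ) δ, b 0 t = 1)
    (hcoc : ∀ t s r : ℂ, ‖t‖ + ‖s‖ + ‖r‖ < δ → b t s * b (t + s) r = b t (s + r) * b s r) :
    ∃ (δ' : ℝ) (u : ℂ → C), 0 < δ' ∧ u 0 = 1 ∧ (∀ t ∈ ball (0 : ℂ) δ', IsUnit (u t)) ∧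
      (∀ i, DifferentiableOn ℂ (fun t : ℂ => bas.repr (u t) i) (ball 0 δ')) ∧
      ∀ t s : ℂ, ‖t‖ + ‖s‖ < δ' → b t s * (u t * u s) = u (t + s) := by
  let _ : NormedCommRing C := NormedCommRing.induced C (Matrix (Fin d) (Fin d) ℂ)
    (Algebra.leftMulMatrix bas) (Algebra.leftMulMatrix_injective bas)
  let _ : NormedAlgebra ℂ C := NormedAlgebra.induced ℂ C (Matrix (Fin d) (Fin d) ℂ)
    (Algebra.leftMulMatrix bas)
  have : FiniteDimensional ℂ C := bas.finiteDimensional_of_finite
  have : CompleteSpace C := FiniteDimensional.complete ℂ C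
  have hb' : DifferentiableOn ℂ (fun q : ℂ × ℂ => b q.1 q.2) (ball 0 δ ×ˢ ball 0 δ) := by
    have : DifferentiableOn ℂ (fun q : ℂ × ℂ => ∑ i, bas.repr (b q.1 q.2) i • bas i)
        (ball 0 δ ×ˢ ball 0 δ) := by
      apply DifferentiableOn.fun_sum
      intro i _
      exact (hb i).smul_const _
    refine this.congr fun q _ => ?_
    exact (bas.sum_repr _).symm
  obtain ⟨u, hu0, hu1, hu2, hu3⟩ := CoboundAux.normed hδ b hb' hb0 hcoc
  refine ⟨δ, u, hδ, hu0, hu1, fun i => ?_, hu3⟩
  have : Differentiable ℂ (LinearMap.toContinuousLinearMap (bas.coord i)) :=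
    (LinearMap.toContinuousLinearMap (bas.coord i)).differentiable
  exact this.comp_differentiableOn hu2

end Pool.Agent.Lib.MP_db21fa_an.TF
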