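import Pool.Agent.Lib.MP_db21fa_an.TF.Cx

/-!
Module O: kernels of holomorphic families of linear functionals.
-/

set_option autoImplicit false

open Filter Topology Metric

namespace Pool.Agent.Lib.MP_db21fa_an.TF

variable {G : Type*} [NormedAddCommGroup G] [NormedSpace ℂ G]

/-- common kernel of a family of functionals depending on `w` -/
def kerFam {M : ℕ} (𝓛 : Set (G → (Fin M → ℂ) →ₗ[ℂ] ℂ)) (w : G) : Submodule ℂ (Fin M → ℂ) :=
  ⨅ L ∈ 𝓛, LinearMap.ker (L w)

omit [NormedAddCommGroup G] [NormedSpace ℂ G] in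
theorem mem_kerFam {M : ℕ} {𝓛 : Set (G → (Fin M → ℂ) →ₗ[ℂ] ℂ)} {w : G} {A : Fin M → ℂ} :
    A ∈ kerFam 𝓛 w ↔ ∀ L ∈ 𝓛, L w A = 0 := by
  simp [kerFam, Submodule.mem_iInf]

/-- the values of the family at `w` -/
private def valFam {M : ℕ} (𝓛 : Set (G → (Fin M → ℂ) →ₗ[ℂ] ℂ)) (w : G) :
    Set (Module.Dual ℂ (Fin M → ℂ)) := (fun L : G → (Fin M → ℂ) →ₗ[ℂ] ℂ => L w) '' 𝓛

private theorem kerFam_eq_coann {M : ℕ} (𝓛 : Set (G → (Fin M → ℂ) →ₗ[ℂ] ℂ)) (w : G) :
    kerFam 𝓛 w = (Submodule.span ℂ (valFam 𝓛 w)).dualCoannihilator := by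
  ext A
  rw [mem_kerFam, Submodule.mem_dualCoannihilator]
  constructor
  · intro h φ hφ
    induction hφ using Submodule.span_induction with
    | mem φ hφ =>
      obtain ⟨L, hL, rfl⟩ := hφ
      exact h L hL
    | zero => rfl
    | add φ ψ _ _ h1 h2 => rw [LinearMap.add_apply, h1, h2, add_zero]
    | smul c φ _ h1 => rw [LinearMap.smul_apply, h1, smul_zero]
  · intro h L hL
    exact h (L w) (Submodule.subset_span ⟨L, hL, rfl⟩)

private theorem finrank_span_add {M : ℕ} (𝓛 : Set (G → (Fin M → ℂ) →ₗ[ℂ] ℂ)) (w : G) :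
    Module.finrank ℂ (Submodule.span ℂ (valFam 𝓛 w)) + Module.finrank ℂ (kerFam 𝓛 w) = M := by
  have h := Subspace.finrank_add_finrank_dualCoannihilator_eq (Submodule.span ℂ (valFam 𝓛 w))
  rw [← kerFam_eq_coann] at h
  simpa using h

/-- linearly independent functionals have a dual system of vectors -/
private theorem exists_dual_vectors {V : Type*} [AddCommGroup V] [Module ℂ V] {r : ℕ}
    {φ : Fin r → Module.Dual ℂ V} (h : LinearIndependent ℂ φ) :
    ∃ v : Fin r → V, ∀ i j, φ i (v j) = if i = j then 1 else 0 := by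
  have hsurj : LinearMap.range (LinearMap.pi φ) = ⊤ := by
    by_contra hne
    obtain ⟨f, hf, hle⟩ := Submodule.exists_le_ker_of_lt_top _ (lt_top_iff_ne_top.2 hne)
    apply hf
    have hc : ∑ i, f (Pi.single i 1) • φ i = 0 := by
      ext x
      have h1 : f (LinearMap.pi φ x) = 0 := hle (LinearMap.mem_range_self _ x)
      have h2 : LinearMap.pi φ x = ∑ i, φ i x • (Pi.single i (1 : ℂ) : Fin r → ℂ) := by
        funext j
        simp [Finset.sum_apply, Pi.single_apply]
      rw [h2, map_sum] at h1
      simp only [map_smul, smul_eq_mul] at h1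
      simp only [LinearMap.coe_sum, Finset.sum_apply, LinearMap.smul_apply, smul_eq_mul,
        LinearMap.zero_apply]
      rw [← h1]
      exact Finset.sum_congr rfl fun i _ => mul_comm _ _
    have h3 := Fintype.linearIndependent_iff.1 h _ hc
    refine LinearMap.pi_ext' fun i => LinearMap.ext_ring ?_
    simpa using h3 i
  have h1 : ∀ j : Fin r, ∃ v, LinearMap.pi φ v = Pi.single j 1 := by
    intro j
    exact LinearMap.mem_range.1 (hsurj ▸ Submodule.mem_top)
  choose v hv using h1
  refine ⟨v, fun i j => ?_⟩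
  have := congrFun (hv j) i
  simpa [Pi.single_apply] using this

private theorem prod_differentiableOn {ι : Type*} {U : Set G} {f : ι → G → ℂ} (s : Finset ι)
    (h : ∀ i, DifferentiableOn ℂ (f i) U) : DifferentiableOn ℂ (fun w => ∏ i ∈ s, f i w) U := by
  classical
  induction s using Finset.induction_on with
  | empty => simp
  | insert a s ha ih =>
    simp only [Finset.prod_insert ha]
    exact (h a).mul ih

private theorem det_differentiableOn {ι : Type*} [Fintype ι] [DecidableEq ι] {U : Set G}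
    {A : G → Matrix ι ι ℂ} (h : ∀ i j, DifferentiableOn ℂ (fun w => A w i j) U) :
    DifferentiableOn ℂ (fun w => (A w).det) U := by
  simp only [Matrix.det_apply]
  refine DifferentiableOn.fun_sum fun σ _ => ?_
  refine DifferentiableOn.const_smul ?_ _
  exact prod_differentiableOn _ fun i => h _ _

/-- the set where the kernel has dimension at least `d` is analytic -/
theorem kerFam_analytic {M : ℕ} {𝓛 : Set (G → (Fin M → ℂ) →ₗ[ℂ] ℂ)} {U : Set G}
    (h𝓛 : ∀ L ∈ 𝓛, ∀ A, DifferentiableOn ℂ (fun w => L w A) U) (d : ℕ) :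
    ∃ 𝓕 : Set (G → ℂ), (∀ f ∈ 𝓕, DifferentiableOn ℂ f U) ∧
      ∀ w ∈ U, (d ≤ Module.finrank ℂ (kerFam 𝓛 w) ↔ ∀ f ∈ 𝓕, f w = 0) := by
  by_cases hdM : d ≤ M
  swap
  · refine ⟨{fun _ => (1 : ℂ)}, ?_, ?_⟩
    · rintro f rfl
      exact differentiableOn_const _
    · intro w _
      have h := finrank_span_add 𝓛 w
      constructor
      · intro h'; omega
      · intro h'
        have := h' _ rfl
        exact absurd this one_ne_zero
  obtain ⟨r, hr⟩ : ∃ r, r + d = M := ⟨M - d, by omega⟩
  refine ⟨{f | ∃ (L : Fin (r + 1) → G → (Fin M → ℂ) →ₗ[ℂ] ℂ) (v : Fin (r + 1) → Fin M → ℂ),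
    (∀ i, L i ∈ 𝓛) ∧ f = fun w => (Matrix.of fun i j => L i w (v j)).det}, ?_, ?_⟩
  · rintro f ⟨L, v, hL, rfl⟩
    refine det_differentiableOn fun i j => ?_
    simpa using h𝓛 (L i) (hL i) (v j)
  · intro w _
    have hfin := finrank_span_add 𝓛 w
    constructor
    · rintro hd f ⟨L, v, hL, rfl⟩
      by_contra hne
      -- the functionals are linearly independent
      have hli : LinearIndependent ℂ (fun i => (L i w : Module.Dual ℂ (Fin M → ℂ))) := by
        rw [Fintype.linearIndependent_iff]
        intro c hc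
        have hrow : (Matrix.of fun i j => L i w (v j)).transpose.mulVec c = 0 := by
          funext j
          have := congrArg (fun φ : Module.Dual ℂ (Fin M → ℂ) => φ (v j)) hc
          simp only [LinearMap.coe_sum, Finset.sum_apply, LinearMap.smul_apply, smul_eq_mul,
            LinearMap.zero_apply] at this
          simp only [Matrix.mulVec, dotProduct, Matrix.transpose_apply, Matrix.of_apply,
            Pi.zero_apply]
          rw [← this]
          exact Finset.sum_congr rfl fun i _ => mul_comm _ _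
        have hc0 : c = 0 := by
          by_contra hc0
          apply hne
          change (Matrix.of fun i j => L i w (v j)).det = 0
          rw [← Matrix.det_transpose]
          exact Matrix.exists_mulVec_eq_zero_iff.1 ⟨c, hc0, hrow⟩
        intro i
        rw [hc0]; rfl
      have hcard : r + 1 ≤ Module.finrank ℂ (Submodule.span ℂ (valFam 𝓛 w)) := by
        have h1 := finrank_span_eq_card hli
        rw [Fintype.card_fin] at h1
        rw [← h1]
        apply Submodule.finrank_mono
        apply Submodule.span_mono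
        rintro _ ⟨i, rfl⟩
        exact ⟨L i, hL i, rfl⟩
      omega
    · intro hF
      by_contra hd
      push Not at hd
      have hge : r + 1 ≤ Module.finrank ℂ (Submodule.span ℂ (valFam 𝓛 w)) := by omega
      obtain ⟨f, hf, -, hli⟩ := Submodule.exists_fun_fin_finrank_span_eq ℂ (valFam 𝓛 w)
      have hli' : LinearIndependent ℂ (fun i : Fin (r + 1) => f (Fin.castLE hge i)) :=
        hli.comp _ (Fin.castLE_injective hge)
      obtain ⟨v, hv⟩ := exists_dual_vectors hli'
      choose L hL hLf using hf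
      have := hF _ ⟨fun i => L (Fin.castLE hge i), v, fun i => hL _, rfl⟩
      have h1 : (Matrix.of fun i j => L (Fin.castLE hge i) w (v j)) = (1 : Matrix _ _ ℂ) := by
        ext i j
        have h2 : L (Fin.castLE hge i) w = f (Fin.castLE hge i) := hLf _
        rw [Matrix.of_apply, h2, hv, Matrix.one_apply]
      simp only [h1, Matrix.det_one] at this
      exact one_ne_zero this

/-- constant rank: holomorphic frames -/
theorem kerFam_frame {M : ℕ} {𝓛 : Set (G → (Fin M → ℂ) →ₗ[ℂ] ℂ)} {U : Set G} (hU : IsOpen U)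
    (h𝓛 : ∀ L ∈ 𝓛, ∀ A, DifferentiableOn ℂ (fun w => L w A) U) {d : ℕ}
    (hd : ∀ w ∈ U, Module.finrank ℂ (kerFam 𝓛 w) = d) {w₀ : G} (hw₀ : w₀ ∈ U) :
    ∃ (U' : Set G) (f : Fin d → G → (Fin M → ℂ)), IsOpen U' ∧ w₀ ∈ U' ∧ U' ⊆ U ∧
      (∀ i, DifferentiableOn ℂ (f i) U') ∧
      ∀ w ∈ U', (∀ i, f i w ∈ kerFam 𝓛 w) ∧ LinearIndependent ℂ (fun i => f i w) := by
  obtain ⟨r, φ, L, hL, hLφ, hspan, hrd⟩ : ∃ (r : ℕ) (φ : Fin r → Module.Dual ℂ (Fin M → ℂ))
      (L : Fin r → G → (Fin M → ℂ) →ₗ[ℂ] ℂ), (∀ i, L i ∈ 𝓛) ∧ (∀ i, L i w₀ = φ i) ∧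
        Submodule.span ℂ (Set.range φ) = Submodule.span ℂ (valFam 𝓛 w₀) ∧ r + d = M := by
    obtain ⟨φ, hφ, hspan, -⟩ := Submodule.exists_fun_fin_finrank_span_eq ℂ (valFam 𝓛 w₀)
    choose L hL hLφ using hφ
    refine ⟨_, φ, L, hL, hLφ, hspan, ?_⟩
    have := finrank_span_add 𝓛 w₀
    rwa [hd w₀ hw₀] at this
  -- a basis of the kernel at `w₀` and a left inverse
  have hK : Module.finrank ℂ (kerFam 𝓛 w₀) = d := hd w₀ hw₀
  let bas := Module.finBasisOfFinrankEq ℂ (kerFam 𝓛 w₀) hK
  let ι : (Fin d → ℂ) →ₗ[ℂ] (Fin M → ℂ) :=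
    (kerFam 𝓛 w₀).subtype ∘ₗ (bas.equivFun.symm : (Fin d → ℂ) →ₗ[ℂ] kerFam 𝓛 w₀)
  have hιinj : LinearMap.ker ι = ⊥ := by
    rw [LinearMap.ker_eq_bot]
    exact Subtype.val_injective.comp bas.equivFun.symm.injective
  obtain ⟨g, hg⟩ := ι.exists_leftInverse_of_injective hιinj
  have hgι : ∀ t, g (ι t) = t := fun t => by
    have := congrArg (fun f : (Fin d → ℂ) →ₗ[ℂ] (Fin d → ℂ) => f t) hg
    simpa using this
  have hιsurj : ∀ A ∈ kerFam 𝓛 w₀, ∃ t, ι t = A := by
    intro A hA
    refine ⟨bas.equivFun ⟨A, hA⟩, ?_⟩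
    simp [ι]
  -- the square matrix
  let e : Fin r ⊕ Fin d ≃ Fin M := finSumFinEquiv.trans (finCongr hrd)
  let A : G → Matrix (Fin r ⊕ Fin d) (Fin r ⊕ Fin d) ℂ := fun w =>
    Matrix.of fun i j => Sum.elim (fun a => L a w (Pi.single (e j) 1))
      (fun b => g (Pi.single (e j) 1) b) i
  -- the vector with coordinates `c`
  let vec : (Fin r ⊕ Fin d → ℂ) → (Fin M → ℂ) := fun c k => c (e.symm k)
  have hvec : ∀ c, vec c = ∑ j, c j • (Pi.single (e j) (1 : ℂ) : Fin M → ℂ) := by
    intro c
    funext k
    simp only [vec, Finset.sum_apply, Pi.smul_apply, Pi.single_apply, smul_eq_mul, mul_ite, mul_one,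
      mul_zero]
    rw [Finset.sum_eq_single (e.symm k)]
    · simp
    · intro j _ hj
      rw [if_neg]
      rintro rfl
      simp at hj
    · simp
  have hAl : ∀ w c a, (A w).mulVec c (Sum.inl a) = L a w (vec c) := by
    intro w c a
    rw [hvec, map_sum]
    simp only [Matrix.mulVec, dotProduct, A, Matrix.of_apply, Sum.elim_inl, map_smul, smul_eq_mul]
    exact Finset.sum_congr rfl fun j _ => mul_comm _ _
  have hAr : ∀ w c b, (A w).mulVec c (Sum.inr b) = g (vec c) b := by
    intro w c b
    rw [hvec, map_sum]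
    simp only [Matrix.mulVec, dotProduct, A, Matrix.of_apply, Sum.elim_inr, map_smul,
      Finset.sum_apply, Pi.smul_apply, smul_eq_mul]
    exact Finset.sum_congr rfl fun j _ => mul_comm _ _
  have hdet0 : (A w₀).det ≠ 0 := by
    intro h0
    obtain ⟨c, hc, hc0⟩ := Matrix.exists_mulVec_eq_zero_iff.2 h0
    apply hc
    have h1 : vec c ∈ kerFam 𝓛 w₀ := by
      rw [kerFam_eq_coann, Submodule.mem_dualCoannihilator]
      have h2 : ∀ ψ ∈ Submodule.span ℂ (Set.range φ), ψ (vec c) = 0 := by
        intro ψ hψ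
        induction hψ using Submodule.span_induction with
        | mem ψ hψ =>
          obtain ⟨a, rfl⟩ := hψ
          have h3 := congrFun hc0 (Sum.inl a)
          rw [hAl] at h3
          have h4 : L a w₀ = φ a := hLφ a
          rw [← h4]
          exact h3
        | zero => rfl
        | add φ ψ _ _ h1 h2 => rw [LinearMap.add_apply, h1, h2, add_zero]
        | smul c φ _ h1 => rw [LinearMap.smul_apply, h1, smul_zero]
      rw [hspan] at h2
      exact h2
    obtain ⟨t, ht⟩ := hιsurj _ h1
    have h5 : t = 0 := by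
      rw [← hgι t, ht]
      funext b
      have h6 := congrFun hc0 (Sum.inr b)
      rw [hAr] at h6
      exact h6
    have h7 : vec c = 0 := by rw [← ht, h5, map_zero]
    funext j
    have h8 := congrFun h7 (e j)
    simpa [vec] using h8
  have hAdiff : ∀ i j, DifferentiableOn ℂ (fun w => A w i j) U := by
    intro i j
    rcases i with a | b
    · exact h𝓛 (L a) (hL a) _
    · exact differentiableOn_const _
  have hdetdiff := det_differentiableOn hAdiff
  let U' : Set G := U ∩ (fun w => (A w).det) ⁻¹' {0}ᶜ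
  have hU'open : IsOpen U' := hdetdiff.continuousOn.isOpen_inter_preimage hU isOpen_compl_singleton
  have hU'U : U' ⊆ U := Set.inter_subset_left
  let f : Fin d → G → (Fin M → ℂ) := fun i w => vec ((A w).cramer (Pi.single (Sum.inr i) 1))
  refine ⟨U', f, hU'open, ⟨hw₀, hdet0⟩, hU'U, ?_, ?_⟩
  · intro i
    rw [differentiableOn_pi]
    intro k
    simp only [f, vec, Matrix.cramer_apply]
    refine (det_differentiableOn fun i' j' => ?_).mono hU'U
    simp only [Matrix.updateCol_apply]
    split_ifs with h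
    · exact differentiableOn_const _
    · exact hAdiff i' j'
  · rintro w ⟨hwU, hwdet⟩
    have hwdet' : (A w).det ≠ 0 := hwdet
    -- the joint kernel of the functionals `L a`
    let K : Submodule ℂ (Fin M → ℂ) := LinearMap.ker (LinearMap.pi fun a => L a w)
    have hle : kerFam 𝓛 w ≤ K := by
      intro x hx
      rw [mem_kerFam] at hx
      rw [LinearMap.mem_ker]
      funext a
      exact hx (L a) (hL a)
    have hKd : Module.finrank ℂ K ≤ d := by
      have hinj : Function.Injective (g ∘ₗ K.subtype) := by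
        rw [← LinearMap.ker_eq_bot, LinearMap.ker_eq_bot']
        rintro ⟨x, hx⟩ hgx
        have hgx' : g x = 0 := hgx
        rw [LinearMap.mem_ker] at hx
        have hxvec : vec (fun j => x (e j)) = x := by
          funext k; simp [vec]
        have hmul : (A w).mulVec (fun j => x (e j)) = 0 := by
          funext i
          rcases i with a | b
          · rw [hAl, hxvec]
            exact congrFun hx a
          · rw [hAr, hxvec, hgx']
            rfl
        have hz : (fun j => x (e j)) = 0 := by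
          by_contra hne
          exact hwdet' (Matrix.exists_mulVec_eq_zero_iff.1 ⟨_, hne, hmul⟩)
        have : x = 0 := by
          rw [← hxvec, hz]
          rfl
        exact Subtype.ext this
      have := LinearMap.finrank_le_finrank_of_injective hinj
      simpa using this
    have hKeq : kerFam 𝓛 w = K :=
      Submodule.eq_of_le_of_finrank_le hle (by rw [hd w hwU]; exact hKd)
    constructor
    · intro i
      rw [hKeq, LinearMap.mem_ker]
      funext a
      have h1 : L a w (f i w) = (A w).mulVec ((A w).cramer (Pi.single (Sum.inr i) 1))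
          (Sum.inl a) := (hAl w _ a).symm
      rw [LinearMap.pi_apply, h1, Matrix.mulVec_cramer]
      simp
    · rw [Fintype.linearIndependent_iff]
      intro c hc i
      have h1 : ∀ j, g (f j w) = (A w).det • (Pi.single j (1 : ℂ) : Fin d → ℂ) := by
        intro j
        funext b
        have h2 : g (f j w) b = (A w).mulVec ((A w).cramer (Pi.single (Sum.inr j) 1))
          (Sum.inr b) := (hAr w _ b).symm
        rw [h2, Matrix.mulVec_cramer]
        simp [Pi.single_apply]
      have h3 := congrArg g hc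
      rw [map_sum, map_zero] at h3
      have h4 := congrFun h3 i
      simp only [map_smul, h1, Finset.sum_apply, Pi.smul_apply, smul_eq_mul, Pi.single_apply,
        mul_ite, mul_one, mul_zero, Pi.zero_apply, Finset.sum_ite_eq, Finset.mem_univ, if_true] at h4
      exact (mul_eq_zero.1 h4).resolve_right hwdet'

end Pool.Agent.Lib.MP_db21fa_an.TF
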