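import Pool.Agent.Lib.MP_db21fa_an.TF.SimCalc

/-!
Module M: spaces of theta functions are finite-dimensional; converse direction.
-/

set_option autoImplicit false

open Filter Topology Metric

namespace Pool.Agent.Lib.MP_db21fa_an.TF

variable {E : Type*} [NormedAddCommGroup E] [NormedSpace ℂ E] [FiniteDimensional ℂ E]

/-- spaces of entire functions with uniform estimates are finite-dimensional -/
theorem finiteDimensional_of_bound (S : Submodule ℂ (E → ℂ)) (hd : ∀ q ∈ S, Differentiable ℂ q)
    (ρ : ℝ) (hb : ∀ R : ℝ, ∃ C : ℝ, ∀ q ∈ S, ∀ x ∈ closedBall (0 : E) R,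
      ∃ y ∈ closedBall (0 : E) ρ, ‖q x‖ ≤ C * ‖q y‖)
    (hcl : ∀ (q : ℕ → E → ℂ) (f : E → ℂ), (∀ k, q k ∈ S) → LU q f → f ∈ S) :
    FiniteDimensional ℂ S := by
  have : ProperSpace E := FiniteDimensional.proper ℂ E
  have : CompactSpace (closedBall (0 : E) ρ) :=
    isCompact_iff_compactSpace.mp (isCompact_closedBall (0 : E) ρ)
  -- the restriction map
  let T : S →ₗ[ℂ] C(closedBall (0 : E) ρ, ℂ) :=
    { toFun := fun q => ⟨fun x => q.1 x, by
        exact (hd q.1 q.2).continuous.comp continuous_subtype_val⟩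
      map_add' := fun q q' => by ext x; rfl
      map_smul' := fun a q => by ext x; rfl }
  have hT : ∀ (q : S) (x : closedBall (0 : E) ρ), T q x = q.1 x := fun q x => rfl
  have hinj : Function.Injective T := by
    rw [injective_iff_map_eq_zero]
    intro q hq
    apply Subtype.ext
    funext x
    obtain ⟨C, hC⟩ := hb ‖x‖
    obtain ⟨y, hy, hxy⟩ := hC q.1 q.2 x (by rw [mem_closedBall, dist_zero_right])
    have h0 : q.1 y = 0 := by
      have : T q ⟨y, hy⟩ = 0 := by rw [hq]; rfl
      exact this
    rw [h0, norm_zero, mul_zero] at hxy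
    exact norm_le_zero_iff.mp hxy
  let V : Submodule ℂ C(closedBall (0 : E) ρ, ℂ) := LinearMap.range T
  -- the closed unit ball of `V` is compact
  have hcomp : IsCompact (closedBall (0 : V) 1) := by
    apply IsSeqCompact.isCompact
    intro v hv
    have hex : ∀ n, ∃ q : S, T q = (v n : C(closedBall (0 : E) ρ, ℂ)) := fun n => (v n).2
    choose q hq using hex
    have hq1 : ∀ n, ∀ y ∈ closedBall (0 : E) ρ, ‖(q n).1 y‖ ≤ 1 := by
      intro n y hy
      have h1 : ‖(v n : C(closedBall (0 : E) ρ, ℂ))‖ ≤ 1 := by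
        have := hv n
        rw [mem_closedBall, dist_zero_right] at this
        exact this
      have h2 : (q n).1 y = (v n : C(closedBall (0 : E) ρ, ℂ)) ⟨y, hy⟩ := by rw [← hq n]; rfl
      rw [h2]
      exact (ContinuousMap.norm_coe_le_norm _ _).trans h1
    obtain ⟨φ, p, hφ, hp, hlim⟩ := montel (q := fun n => (q n).1) (fun n => hd _ (q n).2)
      (fun R => by
        obtain ⟨C, hC⟩ := hb R
        refine ⟨|C|, fun k x hx => ?_⟩
        obtain ⟨y, hy, hxy⟩ := hC (q k).1 (q k).2 x hx
        calc ‖(q k).1 x‖ ≤ C * ‖(q k).1 y‖ := hxy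
          _ ≤ |C| * ‖(q k).1 y‖ := by gcongr; exact le_abs_self C
          _ ≤ |C| * 1 := by gcongr; exact hq1 k y hy
          _ = |C| := mul_one _)
    have hpS : p ∈ S := hcl _ _ (fun j => (q (φ j)).2) hlim
    let w : V := ⟨T ⟨p, hpS⟩, ⟨_, rfl⟩⟩
    have hconv : Tendsto (v ∘ φ) atTop (𝓝 w) := by
      rw [tendsto_subtype_rng]
      change Tendsto (fun j => (v (φ j) : C(closedBall (0 : E) ρ, ℂ))) atTop (𝓝 (T ⟨p, hpS⟩))
      rw [ContinuousMap.tendsto_iff_tendstoUniformly]
      have h3 := hlim ρ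
      rw [tendstoUniformlyOn_iff_tendstoUniformly_comp_coe] at h3
      intro u hu
      filter_upwards [h3 u hu] with j hj x
      have h4 := hj x
      have h5 : (v (φ j) : C(closedBall (0 : E) ρ, ℂ)) x = (q (φ j)).1 x := by
        rw [← hq (φ j)]; rfl
      rw [h5]
      exact h4
    refine ⟨w, ?_, φ, hφ, hconv⟩
    exact isClosed_closedBall.mem_of_tendsto hconv (Eventually.of_forall fun j => hv (φ j))
  have hV : FiniteDimensional ℂ V :=
    FiniteDimensional.of_isCompact_closedBall₀ ℂ one_pos hcomp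
  exact Module.Finite.of_injective T.rangeRestrict (fun a b hab => hinj (by
    have := congrArg (Subtype.val) hab
    exact this))

theorem thetaSp_finiteDimensional {ι : Type*} [Fintype ι] (ω : Module.Basis ι ℝ E)
    (l : ι → E →L[ℂ] ℂ) (c : ι → ℂ) : FiniteDimensional ℂ (ThetaSp ω l c) := by
  have : ProperSpace E := FiniteDimensional.proper ℂ E
  -- every lattice vector is a multiplier period
  have hper : ∀ lam ∈ Submodule.span ℤ (Set.range ω), ∃ (L : E →L[ℂ] ℂ) (d : ℂ),
      ∀ q ∈ ThetaSp ω l c, ∀ u, q (u + lam) = Complex.exp (L u + d) * q u := by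
    intro lam hlam
    induction hlam using Submodule.span_induction with
    | mem x hx =>
      obtain ⟨i, rfl⟩ := hx
      exact ⟨l i, c i, fun q hq u => hq.2 i u⟩
    | zero => exact ⟨0, 0, fun q hq u => by simp⟩
    | add x y _ _ hx hy =>
      obtain ⟨L, d, h1⟩ := hx
      obtain ⟨L', d', h2⟩ := hy
      refine ⟨L + L', L' x + d + d', fun q hq u => ?_⟩
      rw [← add_assoc, h2 q hq, h1 q hq, ← mul_assoc, ← Complex.exp_add]
      congr 2
      rw [map_add, add_apply]
      ring
    | smul a x _ hx =>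
      obtain ⟨L, d, h1⟩ := hx
      -- integer multiples
      have hneg : ∀ q ∈ ThetaSp ω l c, ∀ u, q (u + -x) = Complex.exp ((-L) u + (L x - d)) * q u := by
        intro q hq u
        have h2 := h1 q hq (u + -x)
        rw [neg_add_cancel_right] at h2
        rw [h2, ← mul_assoc, ← Complex.exp_add]
        have : (-L) u + (L x - d) + (L (u + -x) + d) = 0 := by
          rw [map_add, map_neg, neg_apply]
          ring
        rw [this, Complex.exp_zero, one_mul]
      have hnat : ∀ (y : E) (M : E →L[ℂ] ℂ) (e : ℂ),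
          (∀ q ∈ ThetaSp ω l c, ∀ u, q (u + y) = Complex.exp (M u + e) * q u) → ∀ n : ℕ,
          ∃ (M' : E →L[ℂ] ℂ) (e' : ℂ), ∀ q ∈ ThetaSp ω l c, ∀ u,
            q (u + n • y) = Complex.exp (M' u + e') * q u := by
        intro y M e h n
        induction n with
        | zero => exact ⟨0, 0, fun q hq u => by simp⟩
        | succ n ih =>
          obtain ⟨M', e', h'⟩ := ih
          refine ⟨M' + M, M (n • y) + e' + e, fun q hq u => ?_⟩
          rw [succ_nsmul, ← add_assoc, h q hq, h' q hq, ← mul_assoc, ← Complex.exp_add]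
          congr 2
          rw [map_add, add_apply]
          ring
      obtain ⟨n, rfl | rfl⟩ := Int.eq_nat_or_neg a
      · obtain ⟨M', e', h'⟩ := hnat x L d h1 n
        exact ⟨M', e', fun q hq u => by rw [natCast_zsmul]; exact h' q hq u⟩
      · obtain ⟨M', e', h'⟩ := hnat (-x) (-L) (L x - d) hneg n
        refine ⟨M', e', fun q hq u => ?_⟩
        have : (-(n : ℤ)) • x = n • (-x) := by
          rw [neg_smul, natCast_zsmul, smul_neg]
        rw [this]; exact h' q hq u
  choose! L d hLd using hper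
  refine finiteDimensional_of_bound (ThetaSp ω l c) (fun q hq => hq.1) (∑ i, ‖ω i‖) ?_ ?_
  · intro R
    set ρ : ℝ := ∑ i, ‖ω i‖ with hρ
    have hfin : (closedBall (0 : E) (R + ρ) ∩ (Submodule.span ℤ (Set.range ω) : Set E)).Finite :=
      ZSpan.setFinite_inter ω isBounded_closedBall
    obtain ⟨C, hC⟩ := (hfin.image fun lam => Real.exp (‖L lam‖ * ρ + ‖d lam‖)).bddAbove
    refine ⟨C, fun q hq x hx => ?_⟩
    have hy : ZSpan.fract ω x ∈ closedBall (0 : E) ρ := by
      rw [mem_closedBall, dist_zero_right]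
      exact ZSpan.norm_fract_le ω x
    refine ⟨ZSpan.fract ω x, hy, ?_⟩
    set y := ZSpan.fract ω x with hydef
    set lam : E := (ZSpan.floor ω x : E) with hlam
    have hx' : x = y + lam := by
      rw [hydef, ZSpan.fract_apply, sub_add_cancel]
    have hlamS : lam ∈ Submodule.span ℤ (Set.range ω) := (ZSpan.floor ω x).2
    have hlamB : lam ∈ closedBall (0 : E) (R + ρ) := by
      rw [mem_closedBall, dist_zero_right] at *
      have : lam = x - y := by rw [hx']; abel
      rw [this]
      exact (norm_sub_le _ _).trans (add_le_add hx hy)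
    have hq1 : q x = Complex.exp (L lam y + d lam) * q y := by
      rw [hx']; exact hLd lam hlamS q hq y
    rw [hq1, norm_mul, Complex.norm_exp]
    refine mul_le_mul_of_nonneg_right ?_ (norm_nonneg _)
    refine le_trans ?_ (hC ⟨lam, ⟨hlamB, hlamS⟩, rfl⟩)
    apply Real.exp_le_exp.mpr
    calc (L lam y + d lam).re ≤ ‖L lam y + d lam‖ := Complex.re_le_norm _
      _ ≤ ‖L lam y‖ + ‖d lam‖ := norm_add_le _ _
      _ ≤ ‖L lam‖ * ‖y‖ + ‖d lam‖ := by gcongr; exact ContinuousLinearMap.le_opNorm _ _
      _ ≤ ‖L lam‖ * ρ + ‖d lam‖ := by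
        gcongr
        rwa [mem_closedBall, dist_zero_right] at hy
  · intro q f hq hf
    refine ⟨hf.differentiable fun k => (hq k).1, fun i u => ?_⟩
    have h1 : Tendsto (fun k => q k (u + ω i)) atTop (𝓝 (f (u + ω i))) := hf.tendsto _
    have h2 : Tendsto (fun k => q k (u + ω i)) atTop (𝓝 (Complex.exp (l i u + c i) * f u)) := by
      have : (fun k => q k (u + ω i)) = fun k => Complex.exp (l i u + c i) * q k u := by
        funext k; exact (hq k).2 i u
      rw [this]
      exact (hf.tendsto u).const_mul _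
    exact tendsto_nhds_unique h1 h2

/-- two theta functions with the same linear forms are similar -/
theorem sim_theta {ι : Type*} [Fintype ι] (ω : Module.Basis ι ℝ E) (l : ι → E →L[ℂ] ℂ)
    (c c' : ι → ℂ) {p q : E → ℂ} (hp : p ∈ ThetaSp ω l c) (hq : q ∈ ThetaSp ω l c') : Sim p q := by
  have hfd : FiniteDimensional ℂ (ThetaSp ω (fun i => (2 : ℂ) • l i) (fun i => c i + c' i)) :=
    thetaSp_finiteDimensional ω _ _
  set V := ThetaSp ω (fun i => (2 : ℂ) • l i) (fun i => c i + c' i) with hV
  have hmem : ∀ y : E, (fun x => PK p q x y) ∈ V := by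
    intro y
    refine ⟨?_, fun i x => ?_⟩
    · exact (hp.1.comp (differentiable_id.sub_const y)).mul
        (hq.1.comp (differentiable_id.add_const y))
    · have e1 : x + ω i - y = (x - y) + ω i := by abel
      have e2 : x + ω i + y = (x + y) + ω i := by abel
      simp only [PK]
      rw [e1, e2, hp.2 i, hq.2 i]
      have e3 : ((2 : ℂ) • l i) x + (c i + c' i) = (l i (x - y) + c i) + (l i (x + y) + c' i) := by
        rw [smul_apply, map_sub, map_add, smul_eq_mul]; ring
      rw [e3, Complex.exp_add (l i (x - y) + c i)]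
      ring
  let B := Module.finBasis ℂ V
  refine ⟨Module.finrank ℂ V, fun j x => (B j).1 x, fun j y => B.repr ⟨_, hmem y⟩ j, fun x y => ?_⟩
  have h1 := B.sum_repr ⟨_, hmem y⟩
  have h2 := congrFun (congrArg Subtype.val h1) x
  refine h2.symm.trans ?_
  simp only [Submodule.coe_sum, Submodule.coe_smul, Finset.sum_apply, Pi.smul_apply, smul_eq_mul]
  exact Finset.sum_congr rfl fun j _ => mul_comm _ _

end Pool.Agent.Lib.MP_db21fa_an.TF
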