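import Pool.Agent.Lib.MP_db21fa_an.TF.FinalDefs
import Pool.Agent.Lib.MP_db21fa_an.TF.FinDim

/-!
Module X2: converse.
-/

set_option autoImplicit false

open Filter Topology Metric

namespace Pool.Agent.Lib.MP_db21fa_an.TF

section Trans

variable {E : Type*} [NormedAddCommGroup E] [NormedSpace ℂ E]

private theorem transFR_const (a : ℂ) : TransFR (fun _ : E => a) :=
  ⟨differentiable_const a, 1, fun _ _ => a, fun _ _ => 1, fun x y => by simp⟩

private theorem transFR_mul {e e' : E → ℂ} (h : TransFR e) (h' : TransFR e') :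
    TransFR (fun x => e x * e' x) := ⟨h.1.mul h'.1, h.2.mul h'.2⟩

private theorem transFR_add {e e' : E → ℂ} (h : TransFR e) (h' : TransFR e') :
    TransFR (fun x => e x + e' x) := ⟨h.1.add h'.1, h.2.add h'.2⟩

private theorem transFR_lin (l : E →L[ℂ] ℂ) : TransFR (fun x => l x) := by
  refine ⟨l.differentiable, ?_⟩
  have h1 : FR (fun x _ : E => l x) := ⟨1, fun _ x => l x, fun _ _ => 1, fun x y => by simp⟩
  have h2 : FR (fun _ y : E => l y) := ⟨1, fun _ _ => 1, fun _ y => l y, fun x y => by simp⟩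
  refine (congrArg FR ?_).mpr (h1.add h2)
  funext x y
  exact map_add l x y

private theorem transFR_exp (l : E →L[ℂ] ℂ) : TransFR (fun x => Complex.exp (l x)) := by
  refine ⟨l.differentiable.cexp, 1, fun _ x => Complex.exp (l x), fun _ y => Complex.exp (l y),
    fun x y => ?_⟩
  simp [map_add, Complex.exp_add]

end Trans

private theorem transFR_poly {n : ℕ} (P : MvPolynomial (Fin n) ℂ) :
    TransFR (fun x : Fin n → ℂ => MvPolynomial.eval x P) := by
  induction P using MvPolynomial.induction_on with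
  | C a => simpa using transFR_const (E := Fin n → ℂ) a
  | add p q hp hq => simpa using transFR_add hp hq
  | mul_X p i hp =>
    simpa using transFR_mul hp (transFR_lin (ContinuousLinearMap.proj (R := ℂ)
      (φ := fun _ : Fin n => ℂ) i))

private theorem pd_differentiable {m : ℕ} {θ : (Fin m → ℂ) → ℂ} (h : Differentiable ℂ θ)
    (s : List (Fin m)) : Differentiable ℂ (pd s θ) := by
  induction s with
  | nil => exact h
  | cons i s ih => exact differentiable_dirDeriv ih _

private theorem sim_pd {m : ℕ} {h θ : (Fin m → ℂ) → ℂ} (hh : Differentiable ℂ h)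
    (hθ : Differentiable ℂ θ) (H : Sim h θ) (s : List (Fin m)) : Sim h (pd s θ) := by
  induction s with
  | nil => exact H
  | cons i s ih => exact Sim.deriv hh (pd_differentiable hθ s) ih _

/-- **converse** -/
theorem converse {n m : ℕ} {A : Matrix (Fin n) (Fin n) ℂ} {V : Matrix (Fin m) (Fin n) ℂ}
    {ω L : Fin (2 * m) → Fin m → ℂ} (hω : LinearIndependent ℝ ω) {h b : (Fin n → ℂ) → ℂ}
    (hh : ThetaExp A V ω L h) (hb : ThetaExp A V ω L b) : Sim h b := by
  obtain ⟨k, P, μ, α, θ, hθ, hf⟩ := hh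
  obtain ⟨k', P', μ', α', θ', hθ', hf'⟩ := hb
  -- the basis
  have hcard : Fintype.card (Fin (2 * m)) = Module.finrank ℝ (Fin m → ℂ) := by
    rw [Fintype.card_fin, Module.finrank_pi_fintype]
    simp [Complex.finrank_real_complex, mul_comm]
  have hspan := hω.span_eq_top_of_card_eq_finrank' hcard
  let bas : Module.Basis (Fin (2 * m)) ℝ (Fin m → ℂ) := Module.Basis.mk hω hspan.ge
  have hbas : ∀ i, bas i = ω i := fun i => Module.Basis.mk_apply hω hspan.ge i
  -- the linear forms
  let l : Fin (2 * m) → (Fin m → ℂ) →L[ℂ] ℂ := fun i =>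
    ∑ j, L i j • ContinuousLinearMap.proj (R := ℂ) (φ := fun _ : Fin m => ℂ) j
  have hl : ∀ i u, l i u = ∑ j, L i j * u j := by
    intro i u
    simp [l, ContinuousLinearMap.sum_apply]
  have hsim : ∀ j j', Sim (θ j) (θ' j') := by
    intro j j'
    obtain ⟨h1, c, h2⟩ := hθ j
    obtain ⟨h1', c', h2'⟩ := hθ' j'
    exact sim_theta bas l c c' ⟨h1, fun i u => by rw [hbas, h2, hl]⟩
      ⟨h1', fun i u => by rw [hbas, h2', hl]⟩
  have hsim2 : ∀ j j', Sim (pd (α j) (θ j)) (pd (α' j') (θ' j')) := by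
    intro j j'
    have h1 : Sim (θ j) (pd (α' j') (θ' j')) := sim_pd (hθ j).1 (hθ' j').1 (hsim j j') _
    exact (sim_pd (pd_differentiable (hθ' j').1 _) (hθ j).1 h1.symm _).symm
  -- composition with `V`
  let v : (Fin n → ℂ) →L[ℂ] (Fin m → ℂ) := LinearMap.toContinuousLinearMap (Matrix.toLin' V)
  have hv : ∀ x, v x = V.mulVec x := fun x => by
    simp [v]
  let e : Fin k → (Fin n → ℂ) → ℂ := fun j x =>
    MvPolynomial.eval x (P j) * Complex.exp (∑ i, μ j i * x i)
  let e' : Fin k' → (Fin n → ℂ) → ℂ := fun j x =>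
    MvPolynomial.eval x (P' j) * Complex.exp (∑ i, μ' j i * x i)
  have hexp : ∀ ν : Fin n → ℂ, TransFR (fun x : Fin n → ℂ => Complex.exp (∑ i, ν i * x i)) := by
    intro ν
    have h1 := transFR_exp (∑ i, ν i • ContinuousLinearMap.proj (R := ℂ)
      (φ := fun _ : Fin n => ℂ) i)
    refine (congrArg TransFR ?_).mpr h1
    funext x
    simp [ContinuousLinearMap.sum_apply]
  have he : ∀ j, TransFR (e j) := fun j => transFR_mul (transFR_poly (P j)) (hexp (μ j))
  have he' : ∀ j, TransFR (e' j) := fun j => transFR_mul (transFR_poly (P' j)) (hexp (μ' j))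
  let p : (Fin n → ℂ) → ℂ := fun x => ∑ j, e j x * pd (α j) (θ j) (v x)
  let q : (Fin n → ℂ) → ℂ := fun x => ∑ j, e' j x * pd (α' j) (θ' j) (v x)
  have hpq : Sim p q := by
    refine Sim.sum (b := fun j' x => e' j' x * pd (α' j') (θ' j') (v x)) Finset.univ
      fun j' _ => ?_
    refine Sim.symm ?_
    refine Sim.sum (b := fun j x => e j x * pd (α j) (θ j) (v x)) Finset.univ fun j _ => ?_
    refine Sim.mul_transFR (b := fun x => pd (α j) (θ j) (v x)) ?_ (he j)
    refine Sim.symm ?_
    exact Sim.mul_transFR (b := fun x => pd (α' j') (θ' j') (v x)) ((hsim2 j j').comp v) (he' j')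
  -- the Gaussian factor
  let B : (Fin n → ℂ) →L[ℂ] (Fin n → ℂ) →L[ℂ] ℂ := ∑ i, ∑ j, A i j •
    ContinuousLinearMap.smulRight (ContinuousLinearMap.proj (R := ℂ) (φ := fun _ : Fin n => ℂ) i)
      (ContinuousLinearMap.proj (R := ℂ) (φ := fun _ : Fin n => ℂ) j)
  have hB : ∀ x, gs B 0 x = Complex.exp (∑ i, ∑ j, A i j * x i * x j) := by
    intro x
    simp [gs, B, ContinuousLinearMap.sum_apply, mul_assoc]
  have h1 := hpq.gauss B 0 0
  have e1 : h = fun x => gs B 0 x * p x := by
    funext x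
    rw [hf, hB]
    simp only [p, e, hv]
  have e2 : b = fun x => gs B 0 x * q x := by
    funext x
    rw [hf', hB]
    simp only [q, e', hv]
  rw [e1, e2]
  exact h1

end Pool.Agent.Lib.MP_db21fa_an.TF
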