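import Pool.Agent.Lib.MP_db21fa_an.TF.SimCalc

/-!
Module S1: the data of step 2, constancy of the rank, independence on slices.
-/

set_option autoImplicit false

open Filter Topology Metric

namespace Pool.Agent.Lib.MP_db21fa_an.TF

/-- The data of step 2: a theta function `p` on `G` with multiplier periods `ω i`, a linear map
`v : E → G` satisfying principle (Z), and a function `h` on `E` similar to `p ∘ v`. -/
structure Dat (E G ι : Type*) [NormedAddCommGroup E] [NormedSpace ℂ E] [NormedAddCommGroup G]
    [NormedSpace ℂ G] where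
  v : E →L[ℂ] G
  ω : ι → G
  l : ι → G →L[ℂ] ℂ
  c : ι → ℂ
  p : G → ℂ
  h : E → ℂ
  hp : Differentiable ℂ p
  per : ∀ i u, p (u + ω i) = Complex.exp (l i u + c i) * p u
  hh : Differentiable ℂ h
  pv : ∃ x, p (v x) ≠ 0
  h0 : h ≠ 0
  Z : ZPrin v (Set.range ω)
  sim : Sim h (fun x => p (v x))
  fd : FiniteDimensional ℂ (ThetaSp ω l c)

variable {E G ι : Type*} [NormedAddCommGroup E] [NormedSpace ℂ E] [NormedAddCommGroup G]
  [NormedSpace ℂ G]

namespace Dat

variable (D : Dat E G ι)

/-- the kernels `K_u` -/
def K (u : G) (x y : E) : ℂ := D.h (x - y) * D.p (D.v (x + y) + u)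

/-- the kernels attached to a function on `E × G` -/
def KF (D : Dat E G ι) (Φ : E → G → ℂ) (u : G) (x y : E) : ℂ := Φ (x - y) (D.v (x + y) + u)

theorem K_shift (u : G) (t x y : E) : D.K u (x + t) (y + t) = D.K (u + D.v t + D.v t) x y := by
  have h1 : x + t - (y + t) = x - y := by abel
  have h2 : D.v (x + t + (y + t)) + u = D.v (x + y) + (u + D.v t + D.v t) := by
    simp only [map_add]
    abel
  simp only [K, h1, h2]

theorem KF_shift (Φ : E → G → ℂ) (u : G) (t x y : E) :
    D.KF Φ u (x + t) (y + t) = D.KF Φ (u + D.v t + D.v t) x y := by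
  have h1 : x + t - (y + t) = x - y := by abel
  have h2 : D.v (x + t + (y + t)) + u = D.v (x + y) + (u + D.v t + D.v t) := by
    simp only [map_add]
    abel
  simp only [KF, h1, h2]

theorem K_per (u : G) (i : ι) (x y : E) : D.K (u + D.ω i) x y =
    Complex.exp (D.l i (D.v x)) * Complex.exp (D.l i (D.v y)) *
      (Complex.exp (D.l i u + D.c i) * D.K u x y) := by
  have h1 : D.v (x + y) + (u + D.ω i) = (D.v (x + y) + u) + D.ω i := by abel
  simp only [K]
  rw [h1, D.per]
  have h2 : Complex.exp (D.l i (D.v (x + y) + u) + D.c i) = Complex.exp (D.l i (D.v x)) *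
      Complex.exp (D.l i (D.v y)) * Complex.exp (D.l i u + D.c i) := by
    rw [← Complex.exp_add, ← Complex.exp_add]
    congr 1
    simp only [map_add]
    ring
  rw [h2]
  ring

private theorem differentiable_prod' {F ι' : Type*} [NormedAddCommGroup F] [NormedSpace ℂ F]
    (s : Finset ι') {f : ι' → F → ℂ} (hf : ∀ i, Differentiable ℂ (f i)) :
    Differentiable ℂ (fun u => ∏ i ∈ s, f i u) := by
  classical
  induction s using Finset.induction_on with
  | empty => simp
  | insert i s hi ih =>
    simp only [Finset.prod_insert hi]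
    exact (hf i).mul ih

private theorem differentiable_minor {n : ℕ} (a b : Fin n → E) :
    Differentiable ℂ (fun u => (mm (D.K u) a b).det) := by
  have h1 : ∀ i j, Differentiable ℂ (fun u => mm (D.K u) a b i j) := by
    intro i j
    have : (fun u => mm (D.K u) a b i j) =
        fun u => D.h (a i - b j) * D.p (D.v (a i + b j) + u) := rfl
    rw [this]
    exact (D.hp.comp (differentiable_id.const_add _)).const_mul _
  have h2 : (fun u => (mm (D.K u) a b).det) = fun u => ∑ σ : Equiv.Perm (Fin n),
      (Equiv.Perm.sign σ : ℂ) * ∏ i, mm (D.K u) a b (σ i) i := by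
    funext u
    rw [Matrix.det_apply']
  rw [h2]
  exact Differentiable.fun_sum fun σ _ =>
    (differentiable_prod' Finset.univ fun i => h1 (σ i) i).const_mul _

private theorem rankLE_all {n : ℕ} {u₀ : G} (h : RankLE (D.K u₀) n) (u : G) :
    RankLE (D.K u) n := by
  have hA := D.Z {u | RankLE (D.K u) n} ?_ ⟨u₀, h⟩ ?_ ?_
  · have : u ∈ {u | RankLE (D.K u) n} := by
      rw [hA]
      exact Set.mem_univ u
    exact this
  · intro w₀
    refine ⟨Set.univ, isOpen_univ, Set.mem_univ _,
      {f | ∃ a b : Fin (n + 1) → E, f = fun u => (mm (D.K u) a b).det}, ?_, ?_⟩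
    · rintro f ⟨a, b, rfl⟩
      exact (D.differentiable_minor a b).differentiableOn
    · intro w _
      refine ⟨?_, ?_⟩
      · rintro hw f ⟨a, b, rfl⟩
        exact rankLE_iff_minors.1 hw a b
      · intro hw
        exact rankLE_iff_minors.2 fun a b => hw _ ⟨a, b, rfl⟩
  · intro w hw x
    have h1 := RankLE.comp hw (fun y : E => y + (1 / 2 : ℂ) • x) (fun y : E => y + (1 / 2 : ℂ) • x)
    have h2 : (fun y z : E => D.K w (y + (1 / 2 : ℂ) • x) (z + (1 / 2 : ℂ) • x)) =
        D.K (w + D.v x) := by
      funext y z
      rw [K_shift, add_assoc, ← map_add, ← add_smul]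
      norm_num
    rw [h2] at h1
    exact h1
  · rintro w hw _ ⟨i, rfl⟩
    have key : ∀ w, RankLE (D.K w) n ↔ RankLE (D.K (w + D.ω i)) n := by
      intro w
      constructor
      · intro hw
        have h1 := hw.scale (fun x => Complex.exp (D.l i (D.v x)))
          (fun y => Complex.exp (D.l i (D.v y)) * Complex.exp (D.l i w + D.c i))
        refine (congrArg (fun K => RankLE K n) ?_).mpr h1
        funext x y
        rw [K_per]
        ring
      · intro hw
        have h1 := hw.scale (fun x => (Complex.exp (D.l i (D.v x)))⁻¹)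
          (fun y => (Complex.exp (D.l i (D.v y)))⁻¹ * (Complex.exp (D.l i w + D.c i))⁻¹)
        refine (congrArg (fun K => RankLE K n) ?_).mpr h1
        funext x y
        rw [K_per]
        have e1 := Complex.exp_ne_zero (D.l i (D.v x))
        have e2 := Complex.exp_ne_zero (D.l i (D.v y))
        have e3 := Complex.exp_ne_zero (D.l i w + D.c i)
        field_simp
    refine ⟨(key w).1 hw, (key _).2 ?_⟩
    rw [sub_add_cancel]
    exact hw

/-- the rank of `K_u` does not depend on `u` -/
theorem exists_rank : ∃ N, ∀ u, RankEq (D.K u) N := by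
  obtain ⟨N, hN⟩ := FR.exists_rankEq D.sim
  have h0 : D.K 0 = PK D.h (fun x => D.p (D.v x)) := by
    funext x y
    simp only [K, PK, add_zero]
  rw [← h0] at hN
  exact ⟨N, fun u => ⟨D.rankLE_all hN.1 u, fun n hn => hN.2 n (D.rankLE_all hn 0)⟩⟩

/-- the rank -/
noncomputable def N : ℕ := D.exists_rank.choose

theorem rankEq (u : G) : RankEq (D.K u) D.N := D.exists_rank.choose_spec u

/-- linearly independent theta functions are linearly independent on every translate of `v E` -/
theorem slices {r : ℕ} {q : Fin r → G → ℂ} (hq : ∀ j, q j ∈ ThetaSp D.ω D.l D.c)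
    (hli : LinearIndependent ℂ q) (u : G) :
    ∃ t : Fin r → E, (Matrix.of fun i j => q j (D.v (t i) + u)).det ≠ 0 := by
  have hind : LinearIndependent ℂ (fun j => fun t : E => q j (D.v t + u)) := by
    rw [Fintype.linearIndependent_iff]
    intro g hg
    have hg' : ∀ t : E, ∑ j, g j * q j (D.v t + u) = 0 := by
      intro t
      have := congrFun hg t
      simpa [Finset.sum_apply] using this
    have hqd : ∀ j, Differentiable ℂ (q j) := fun j => (hq j).1
    have hqp : ∀ j i u, q j (u + D.ω i) = Complex.exp (D.l i u + D.c i) * q j u :=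
      fun j => (hq j).2
    have hA := D.Z {w | ∀ t : E, ∑ j, g j * q j (D.v t + w) = 0} ?_ ⟨u, hg'⟩ ?_ ?_
    · have hall : ∀ w, ∑ j, g j * q j w = 0 := by
        intro w
        have hw : w ∈ {w | ∀ t : E, ∑ j, g j * q j (D.v t + w) = 0} := by
          rw [hA]
          exact Set.mem_univ w
        have := hw 0
        simpa using this
      refine Fintype.linearIndependent_iff.1 hli g ?_
      funext w
      have := hall w
      simpa [Finset.sum_apply] using this
    · intro w₀
      refine ⟨Set.univ, isOpen_univ, Set.mem_univ _,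
        Set.range (fun (t : E) (w : G) => ∑ j, g j * q j (D.v t + w)), ?_, ?_⟩
      · rintro f ⟨t, rfl⟩
        refine Differentiable.differentiableOn ?_
        exact Differentiable.fun_sum fun j _ =>
          ((hqd j).comp (differentiable_id.const_add _)).const_mul _
      · intro w _
        refine ⟨?_, ?_⟩
        · rintro hw f ⟨t, rfl⟩
          exact hw t
        · intro hw t
          exact hw _ ⟨t, rfl⟩
    · intro w hw x t
      have h1 := hw (t + x)
      have h2 : D.v (t + x) + w = D.v t + (w + D.v x) := by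
        rw [map_add]
        abel
      rw [h2] at h1
      exact h1
    · rintro w hw _ ⟨i, rfl⟩
      have key : ∀ (w : G) (t : E), ∑ j, g j * q j (D.v t + (w + D.ω i)) =
          Complex.exp (D.l i (D.v t + w) + D.c i) * ∑ j, g j * q j (D.v t + w) := by
        intro w t
        rw [Finset.mul_sum]
        refine Finset.sum_congr rfl fun j _ => ?_
        rw [← add_assoc, hqp]
        ring
      refine ⟨fun t => ?_, fun t => ?_⟩
      · rw [key, hw t, mul_zero]
      · have h1 := key (w - D.ω i) t
        rw [sub_add_cancel, hw t] at h1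
        exact (mul_eq_zero.1 h1.symm).resolve_left (Complex.exp_ne_zero _)
  exact exists_det_ne_zero (fun j => fun t : E => q j (D.v t + u)) hind

end Dat

/-- a set defined by global entire functions is analytic -/
theorem locAnalytic_global (𝓕 : Set (G → ℂ)) (h : ∀ f ∈ 𝓕, Differentiable ℂ f) :
    LocAnalytic {w | ∀ f ∈ 𝓕, f w = 0} := by
  intro w₀
  exact ⟨Set.univ, isOpen_univ, Set.mem_univ _, 𝓕, fun f hf => (h f hf).differentiableOn,
    fun w _ => Iff.rfl⟩

end Pool.Agent.Lib.MP_db21fa_an.TF
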