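import Mathlib

/-!
Definitions for the classification of all entire `h, b` on `ℂ ^ n` such that
`h (x - y) * b (x + y)` has finite rank.
-/

set_option autoImplicit false

open Filter Topology

namespace Pool.Agent.Lib.MP_db21fa_an.TF

/-- The kernel `K` is a sum of at most `N` products of a function of `x` and a function of `y`. -/
def RankLE {X Y : Type*} (K : X → Y → ℂ) (N : ℕ) : Prop :=
  ∃ (f : Fin N → X → ℂ) (g : Fin N → Y → ℂ), ∀ x y, K x y = ∑ j, f j x * g j y

/-- finite rank -/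
def FR {X Y : Type*} (K : X → Y → ℂ) : Prop := ∃ N, RankLE K N

/-- `N` is the exact rank of `K` -/
def RankEq {X Y : Type*} (K : X → Y → ℂ) (N : ℕ) : Prop := RankLE K N ∧ ∀ n, RankLE K n → N ≤ n

/-- the matrix `K (a i) (b j)` -/
def mm {X Y : Type*} {N : ℕ} (K : X → Y → ℂ) (a : Fin N → X) (b : Fin N → Y) :
    Matrix (Fin N) (Fin N) ℂ := Matrix.of fun i j => K (a i) (b j)

/-- the span of the functions `K x` of `y` -/
def rowSp {X Y : Type*} (K : X → Y → ℂ) : Submodule ℂ (Y → ℂ) := Submodule.span ℂ (Set.range K)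

/-- the span of the functions `K · y` of `x` -/
def colSp {X Y : Type*} (K : X → Y → ℂ) : Submodule ℂ (X → ℂ) :=
  Submodule.span ℂ (Set.range fun y x => K x y)

/-- The kernel `h (x - y) * b (x + y)`. -/
def PK {E : Type*} [AddGroup E] (h b : E → ℂ) (x y : E) : ℂ := h (x - y) * b (x + y)

/-- `h` and `b` are similar: `h (x - y) * b (x + y)` has finite rank. -/
def Sim {E : Type*} [AddGroup E] (h b : E → ℂ) : Prop := FR (PK h b)

section normed

variable {E : Type*} [NormedAddCommGroup E] [NormedSpace ℂ E]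

/-- Uniform convergence on all balls. -/
def LU (q : ℕ → E → ℂ) (p : E → ℂ) : Prop :=
  ∀ R : ℝ, TendstoUniformlyOn q p atTop (Metric.closedBall 0 R)

/-- multiplier periods of `p` -/
def Per (p : E → ℂ) : Set E :=
  {γ | ∃ (l : E →L[ℂ] ℂ) (c : ℂ), ∀ u, p (u + γ) = Complex.exp (l u + c) * p u}

/-- the multiplier periods span `E` over `ℝ` -/
def FullPer (p : E → ℂ) : Prop := Submodule.span ℝ (Per p) = ⊤

/-- `p` is nondegenerate: `∂_c p = (affine) * p` only for `c = 0`. -/
def NonDeg (p : E → ℂ) : Prop :=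
  ∀ (c : E) (l : E →L[ℂ] ℂ) (γ : ℂ), (∀ u, fderiv ℂ p u c = (l u + γ) * p u) → c = 0

/-- `p` has rank `N`, and no nonzero entire function similar to `p` has smaller rank. -/
structure RankMin (p : E → ℂ) (N : ℕ) : Prop where
  diff : Differentiable ℂ p
  ne : p ≠ 0
  rank : RankLE (PK p p) N
  min : ∀ q : E → ℂ, Differentiable ℂ q → q ≠ 0 → Sim p q → ∀ n, RankLE (PK q q) n → N ≤ n

/-- `A` is locally the common zero set of a family of holomorphic functions. -/
def LocAnalytic (A : Set E) : Prop :=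
  ∀ w₀ : E, ∃ U : Set E, IsOpen U ∧ w₀ ∈ U ∧ ∃ 𝓕 : Set (E → ℂ),
    (∀ f ∈ 𝓕, DifferentiableOn ℂ f U) ∧ ∀ w ∈ U, (w ∈ A ↔ ∀ f ∈ 𝓕, f w = 0)

/-- Principle (Z): a nonempty analytic set which is invariant under the translations by `v x` and
by `± ω`, `ω ∈ Ω`, is everything. -/
def ZPrin {G : Type*} [NormedAddCommGroup G] [NormedSpace ℂ G] (v : E →L[ℂ] G) (Ω : Set G) :
    Prop :=
  ∀ A : Set G, LocAnalytic A → A.Nonempty → (∀ u ∈ A, ∀ x : E, u + v x ∈ A) →
    (∀ u ∈ A, ∀ ω ∈ Ω, u + ω ∈ A ∧ u - ω ∈ A) → A = Set.univ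

/-- The space of entire functions with `q (u + ω i) = exp (l i u + c i) * q u`. -/
def ThetaSp {ι : Type*} (ω : ι → E) (l : ι → E →L[ℂ] ℂ) (c : ι → ℂ) : Submodule ℂ (E → ℂ) where
  carrier := {q | Differentiable ℂ q ∧ ∀ i u, q (u + ω i) = Complex.exp (l i u + c i) * q u}
  add_mem' := by
    rintro q q' ⟨h1, h2⟩ ⟨h1', h2'⟩
    refine ⟨h1.add h1', fun i u => ?_⟩
    simp only [Pi.add_apply, h2, h2']; ring
  zero_mem' := by
    refine ⟨differentiable_const 0, fun i u => ?_⟩
    simp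
  smul_mem' := by
    rintro a q ⟨h1, h2⟩
    refine ⟨h1.const_smul a, fun i u => ?_⟩
    simp only [Pi.smul_apply, smul_eq_mul, h2]; ring

/-- translation-finite functions (exponential polynomials) -/
def TransFR (e : E → ℂ) : Prop := Differentiable ℂ e ∧ FR (fun x y => e (x + y))

/-- The Gaussian factor `exp (B x x + κ x)`. -/
noncomputable def gs (B : E →L[ℂ] E →L[ℂ] ℂ) (κ : E →L[ℂ] ℂ) (x : E) : ℂ :=
  Complex.exp (B x x + κ x)

end normed

end Pool.Agent.Lib.MP_db21fa_an.TF
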