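import Pool.Agent.Lib.MP_db21fa_an.TF.Ode

/-!
Module G2: `euler` and `scalar_rec` are proved in `Ode.lean`.
-/
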