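import Pool.Agent.Lib.MP_db21fa_an.TF.SimCalc

/-!
Module K2: termination of the extension process (the bound `k ≤ dim E * N`).
-/

set_option autoImplicit false

open Filter Topology Metric

namespace Pool.Agent.Lib.MP_db21fa_an.TF

namespace ExtBound

variable {F : Type*} [NormedAddCommGroup F] [NormedSpace ℂ F]

/-- directional derivative -/
noncomputable def dd (P : F → ℂ) (c X : F) : ℂ := fderiv ℂ P X c

theorem hasDeriv_dd {P : F → ℂ} (hP : Differentiable ℂ P) (X c : F) :
    HasDerivAt (fun s : ℂ => P (X + s • c)) (dd P c X) 0 := by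
  have h1 : HasFDerivAt P (fderiv ℂ P X) (X + (0 : ℂ) • c) := by
    rw [zero_smul, add_zero]; exact (hP X).hasFDerivAt
  have h2 : HasDerivAt (fun s : ℂ => X + s • c) c 0 := by
    have := ((hasDerivAt_id (0 : ℂ)).smul_const c).const_add X
    simpa using this
  exact h1.comp_hasDerivAt 0 h2

/-- derivative of `Y ↦ P (X - Y) P (X + Y)` -/
theorem deriv_Y {P : F → ℂ} (hP : Differentiable ℂ P) (X Y c : F) :
    HasDerivAt (fun s : ℂ => P (X - (Y + s • c)) * P (X + (Y + s • c)))
      (P (X - Y) * dd P c (X + Y) - dd P c (X - Y) * P (X + Y)) 0 := by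
  have h1 := hasDeriv_dd hP (X + Y) c
  have h2 := hasDeriv_dd hP (X - Y) (-c)
  have e1 : (fun s : ℂ => P (X + Y + s • c)) = fun s : ℂ => P (X + (Y + s • c)) := by
    funext s; rw [add_assoc]
  have e2 : (fun s : ℂ => P (X - Y + s • (-c))) = fun s : ℂ => P (X - (Y + s • c)) := by
    funext s; congr 1; rw [smul_neg]; abel
  have e3 : dd P (-c) (X - Y) = - dd P c (X - Y) := by
    unfold dd; rw [map_neg]
  rw [e1] at h1
  rw [e2, e3] at h2
  refine (h2.mul h1).congr_deriv ?_
  simp only [zero_smul, add_zero]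
  ring

/-- derivative of `X ↦ P (X - Y) P (X + Y)` -/
theorem deriv_X {P : F → ℂ} (hP : Differentiable ℂ P) (X Y c : F) :
    HasDerivAt (fun s : ℂ => P (X + s • c - Y) * P (X + s • c + Y))
      (dd P c (X - Y) * P (X + Y) + P (X - Y) * dd P c (X + Y)) 0 := by
  have h1 := hasDeriv_dd hP (X + Y) c
  have h2 := hasDeriv_dd hP (X - Y) c
  have e1 : (fun s : ℂ => P (X + Y + s • c)) = fun s : ℂ => P (X + s • c + Y) := by
    funext s; congr 1; abel
  have e2 : (fun s : ℂ => P (X - Y + s • c)) = fun s : ℂ => P (X + s • c - Y) := by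
    funext s; congr 1; abel
  rw [e1] at h1
  rw [e2] at h2
  refine (h2.mul h1).congr_deriv ?_
  simp only [zero_smul, add_zero]

variable [FiniteDimensional ℂ F]

theorem dd_diff {P : F → ℂ} (hP : Differentiable ℂ P) (c : F) : Differentiable ℂ (dd P c) :=
  differentiable_dirDeriv hP c

/-- a differentiable function on a ball with the midpoint property is affine -/
theorem affine_of_midpoint {g : F → ℂ} {δ : ℝ} (hδ : 0 < δ)
    (hg : DifferentiableOn ℂ g (ball 0 δ))
    (hm : ∀ t s : F, t ∈ ball (0 : F) δ → t - s ∈ ball (0 : F) δ → t + s ∈ ball (0 : F) δ →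
      g (t - s) + g (t + s) = 2 * g t) :
    ∃ L : F →L[ℂ] ℂ, ∀ t ∈ ball (0 : F) δ, g t = L t + g 0 := by
  have hgd : ∀ t ∈ ball (0 : F) δ, DifferentiableAt ℂ g t := fun t ht =>
    hg.differentiableAt (isOpen_ball.mem_nhds ht)
  have hconst : ∀ u ∈ ball (0 : F) δ, ∀ v ∈ ball (0 : F) δ, fderiv ℂ g u = fderiv ℂ g v := by
    intro u hu v hv
    set t : F := (2 : ℂ)⁻¹ • (u + v) with ht
    set s₀ : F := (2 : ℂ)⁻¹ • (v - u) with hs₀
    have h2 : (2 : ℂ)⁻¹ + (2 : ℂ)⁻¹ = 1 := by norm_num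
    have e1 : t - s₀ = u := by
      have : t - s₀ = (2 : ℂ)⁻¹ • u + (2 : ℂ)⁻¹ • u := by
        rw [ht, hs₀, smul_sub, smul_add]; abel
      rw [this, ← add_smul, h2, one_smul]
    have e2 : t + s₀ = v := by
      have : t + s₀ = (2 : ℂ)⁻¹ • v + (2 : ℂ)⁻¹ • v := by
        rw [ht, hs₀, smul_sub, smul_add]; abel
      rw [this, ← add_smul, h2, one_smul]
    have htb : t ∈ ball (0 : F) δ := by
      rw [mem_ball_zero_iff] at hu hv ⊢
      rw [ht, norm_smul]
      have h4 : ‖(2 : ℂ)⁻¹‖ = 1 / 2 := by simp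
      rw [h4]
      linarith [norm_add_le u v]
    have hz : (fun s => g (t - s) + g (t + s)) =ᶠ[𝓝 s₀] fun _ => 2 * g t := by
      have c1 : ContinuousAt (fun s : F => t - s) s₀ := by fun_prop
      have c2 : ContinuousAt (fun s : F => t + s) s₀ := by fun_prop
      have n1 : ∀ᶠ s in 𝓝 s₀, t - s ∈ ball (0 : F) δ :=
        c1.eventually_mem (isOpen_ball.mem_nhds (by rw [e1]; exact hu))
      have n2 : ∀ᶠ s in 𝓝 s₀, t + s ∈ ball (0 : F) δ :=
        c2.eventually_mem (isOpen_ball.mem_nhds (by rw [e2]; exact hv))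
      filter_upwards [n1, n2] with s hs1 hs2 using hm t s htb hs1 hs2
    have d1 : HasFDerivAt (fun s => g (t - s)) (-(fderiv ℂ g u)) s₀ := by
      have h7 : HasFDerivAt g (fderiv ℂ g u) (t - s₀) := by
        rw [e1]; exact (hgd u hu).hasFDerivAt
      have h8 : HasFDerivAt (fun s : F => t - s) (-(ContinuousLinearMap.id ℂ F)) s₀ :=
        (hasFDerivAt_id s₀).const_sub t
      have h9 : HasFDerivAt (fun s => g (t - s))
        ((fderiv ℂ g u).comp (-(ContinuousLinearMap.id ℂ F))) s₀ := h7.comp s₀ h8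
      refine h9.congr_fderiv ?_
      ext e
      simp
    have d2 : HasFDerivAt (fun s => g (t + s)) (fderiv ℂ g v) s₀ := by
      have h7 : HasFDerivAt g (fderiv ℂ g v) (t + s₀) := by
        rw [e2]; exact (hgd v hv).hasFDerivAt
      have h8 : HasFDerivAt (fun s : F => t + s) (ContinuousLinearMap.id ℂ F) s₀ :=
        (hasFDerivAt_id s₀).const_add t
      have h9 : HasFDerivAt (fun s => g (t + s))
        ((fderiv ℂ g v).comp (ContinuousLinearMap.id ℂ F)) s₀ := h7.comp s₀ h8
      refine h9.congr_fderiv ?_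
      ext e
      simp
    have d3 := d1.add d2
    have d4 : HasFDerivAt (fun s => g (t - s) + g (t + s)) (0 : F →L[ℂ] ℂ) s₀ :=
      (hasFDerivAt_const (2 * g t) s₀).congr_of_eventuallyEq hz
    have d5 := d3.unique d4
    have d6 : fderiv ℂ g v - fderiv ℂ g u = 0 := by
      rw [← d5]; abel
    exact (sub_eq_zero.1 d6).symm
  set L := fderiv ℂ g 0 with hL
  refine ⟨L, fun t ht => ?_⟩
  have h0 : (0 : F) ∈ ball (0 : F) δ := mem_ball_self hδ
  have hf : DifferentiableOn ℂ (fun t => g t - L t) (ball 0 δ) :=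
    hg.sub L.differentiable.differentiableOn
  have hf' : (ball (0 : F) δ).EqOn (fderiv ℂ (fun t => g t - L t)) 0 := by
    intro u hu
    have h1 : HasFDerivAt (fun t => g t - L t) (fderiv ℂ g u - L) u :=
      (hgd u hu).hasFDerivAt.sub L.hasFDerivAt
    rw [h1.fderiv, hconst u hu 0 h0]
    simp [hL]
  have := isOpen_ball.is_const_of_fderiv_eq_zero (convex_ball (0 : F) δ).isPreconnected hf hf' ht h0
  simp only [map_zero, sub_zero] at this
  linear_combination this

variable {E : Type*} [NormedAddCommGroup E] [NormedSpace ℂ E] [FiniteDimensional ℂ E]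

/-- if `p dη = η dp` then `η = γ p` -/
theorem prop_of_wronskian {p η : E → ℂ} (hp : Differentiable ℂ p) (hη : Differentiable ℂ η)
    (hp0 : p ≠ 0) (h : ∀ x, p x • fderiv ℂ η x = η x • fderiv ℂ p x) :
    ∃ γ : ℂ, ∀ x, η x = γ * p x := by
  obtain ⟨x₀, hx₀⟩ : ∃ x, p x ≠ 0 := by
    by_contra hc
    push Not at hc
    exact hp0 (funext hc)
  obtain ⟨δ, hδ, hball⟩ := Metric.eventually_nhds_iff_ball.1
    (hp.continuous.continuousAt.eventually_ne hx₀)
  have hf : DifferentiableOn ℂ (fun x => η x / p x) (ball x₀ δ) := fun x hx => by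
    have h1 : DifferentiableAt ℂ (fun x => (p x)⁻¹) x :=
      (differentiableAt_inv (hball x hx)).comp x (hp x)
    have h2 : (fun x => η x / p x) = fun x => η x * (p x)⁻¹ := by
      funext x; rw [div_eq_mul_inv]
    rw [h2]
    exact ((hη x).mul h1).differentiableWithinAt
  have hf' : (ball x₀ δ).EqOn (fderiv ℂ (fun x => η x / p x)) 0 := by
    intro x hx
    have hpx := hball x hx
    have h1 : HasFDerivAt (fun x => η x * (p x)⁻¹)
        (η x • (-((p x ^ 2)⁻¹) • fderiv ℂ p x) + (p x)⁻¹ • fderiv ℂ η x) x :=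
      (hη x).hasFDerivAt.mul ((hasDerivAt_inv hpx).comp_hasFDerivAt x (hp x).hasFDerivAt)
    have h2 : (fun x => η x / p x) = fun x => η x * (p x)⁻¹ := by
      funext x; rw [div_eq_mul_inv]
    rw [h2, h1.fderiv]
    ext e
    have h3 := congrArg (fun T : E →L[ℂ] ℂ => T e) (h x)
    simp only [smul_apply, smul_eq_mul] at h3
    simp only [smul_apply, add_apply, smul_eq_mul, Pi.zero_apply, zero_apply]
    field_simp
    linear_combination h3
  refine ⟨η x₀ / p x₀, ?_⟩
  have hD : Differentiable ℂ (fun x => η x - η x₀ / p x₀ * p x) := hη.sub (hp.const_mul _)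
  have hz : (fun x => η x - η x₀ / p x₀ * p x) = 0 := by
    refine identity hD (x₀ := x₀) ?_
    filter_upwards [ball_mem_nhds x₀ hδ] with x hx
    have h4 := isOpen_ball.is_const_of_fderiv_eq_zero (convex_ball x₀ δ).isPreconnected hf hf'
      hx (mem_ball_self hδ)
    have h5 : η x / p x = η x₀ / p x₀ := h4
    rw [← h5, div_mul_cancel₀ _ (hball x hx), sub_self]
  intro x
  have := congrFun hz x
  simp only [Pi.zero_apply] at this
  linear_combination this

/-- the second part: if `η_τ = γ p` then `τ = 0` -/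
theorem tau_zero {p : E → ℂ} {N k : ℕ} {P : E × (Fin k → ℂ) → ℂ} (hP : Differentiable ℂ P)
    (hrP : RankLE (PK P P) N) (hres : ∀ x, P (x, 0) = p x) (hnd : NonDeg P)
    {a b : Fin N → E} (hd : (mm (PK p p) a b).det ≠ 0) (hp0 : p ≠ 0) (τ : Fin k → ℂ) {γ : ℂ}
    (hη : ∀ x, dd P (0, τ) (x, 0) = γ * p x) : τ = 0 := by
  classical
  set c : E × (Fin k → ℂ) := (0, τ) with hc
  set a' : Fin N → E × (Fin k → ℂ) := fun i => (a i, 0) with ha'
  set b' : Fin N → E × (Fin k → ℂ) := fun i => (b i, 0) with hb'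
  have hmm : mm (PK P P) a' b' = mm (PK p p) a b := by
    ext i j
    show P ((a i, 0) - (b j, 0)) * P ((a i, 0) + (b j, 0)) = p (a i - b j) * p (a i + b j)
    rw [Prod.mk_sub_mk, Prod.mk_add_mk, sub_zero, add_zero, hres, hres]
  have hd' : (mm (PK P P) a' b').det ≠ 0 := by rw [hmm]; exact hd
  set M := (mm (PK P P) a' b')⁻¹ with hM
  have hrf : ∀ X Y, P (X - Y) * P (X + Y) = ∑ i, ∑ j, PK P P X (b' j) * M j i * PK P P (a' i) Y :=
    fun X Y => rank_formula hrP hd' X Y
  -- S1
  have S1 : ∀ X (y : E), P (X - (y, 0)) * dd P c (X + (y, 0)) -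
      dd P c (X - (y, 0)) * P (X + (y, 0)) = 0 := by
    intro X y
    have h1 := deriv_Y hP X (y, 0) c
    have h2 : HasDerivAt (fun s : ℂ => ∑ i, ∑ j, PK P P X (b' j) * M j i *
        PK P P (a' i) ((y, 0) + s • c)) (∑ i, ∑ j, PK P P X (b' j) * M j i * 0) 0 := by
      refine HasDerivAt.fun_sum (fun i _ => HasDerivAt.fun_sum (fun j _ => ?_))
      have h3 := deriv_Y hP (a' i) (y, 0) c
      have e : P (a' i - (y, 0)) * dd P c (a' i + (y, 0)) -
          dd P c (a' i - (y, 0)) * P (a' i + (y, 0)) = 0 := by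
        rw [ha']
        simp only [Prod.mk_sub_mk, Prod.mk_add_mk, sub_zero, add_zero, hres, hη]
        ring
      rw [e] at h3
      exact h3.const_mul _
    have h4 : (fun s : ℂ => P (X - ((y, 0) + s • c)) * P (X + ((y, 0) + s • c))) =
        fun s : ℂ => ∑ i, ∑ j, PK P P X (b' j) * M j i * PK P P (a' i) ((y, 0) + s • c) := by
      funext s; exact hrf _ _
    rw [h4] at h1
    have h5 := h1.unique h2
    rw [h5]
    simp
  -- S2
  have S2 : ∀ (u v : E) (t : Fin k → ℂ), P (u, t) * dd P c (v, t) = dd P c (u, t) * P (v, t) := by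
    intro u v t
    have h2 : (2 : ℂ)⁻¹ + (2 : ℂ)⁻¹ = 1 := by norm_num
    have h := S1 ((2 : ℂ)⁻¹ • (u + v), t) ((2 : ℂ)⁻¹ • (v - u))
    have e1 : (((2 : ℂ)⁻¹ • (u + v), t) : E × (Fin k → ℂ)) - ((2 : ℂ)⁻¹ • (v - u), 0) = (u, t) := by
      rw [Prod.mk_sub_mk, sub_zero]
      congr 1
      have : (2 : ℂ)⁻¹ • (u + v) - (2 : ℂ)⁻¹ • (v - u) = (2 : ℂ)⁻¹ • u + (2 : ℂ)⁻¹ • u := by
        rw [smul_sub, smul_add]; abel
      rw [this, ← add_smul, h2, one_smul]
    have e2 : (((2 : ℂ)⁻¹ • (u + v), t) : E × (Fin k → ℂ)) + ((2 : ℂ)⁻¹ • (v - u), 0) = (v, t) := by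
      rw [Prod.mk_add_mk, add_zero]
      congr 1
      have : (2 : ℂ)⁻¹ • (u + v) + (2 : ℂ)⁻¹ • (v - u) = (2 : ℂ)⁻¹ • v + (2 : ℂ)⁻¹ • v := by
        rw [smul_sub, smul_add]; abel
      rw [this, ← add_smul, h2, one_smul]
    rw [e1, e2] at h
    linear_combination h
  obtain ⟨x₀, hx₀⟩ : ∃ x, p x ≠ 0 := by
    by_contra hcc
    push Not at hcc
    exact hp0 (funext hcc)
  have hPt : Differentiable ℂ (fun t : Fin k → ℂ => P (x₀, t)) :=
    hP.comp ((differentiable_const x₀).prodMk differentiable_id)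
  have hDt : Differentiable ℂ (fun t : Fin k → ℂ => dd P c (x₀, t)) :=
    (dd_diff hP c).comp ((differentiable_const x₀).prodMk differentiable_id)
  have hP0 : P (x₀, 0) ≠ 0 := by rw [hres]; exact hx₀
  obtain ⟨δ, hδ, hball⟩ := Metric.eventually_nhds_iff_ball.1
    (hPt.continuous.continuousAt.eventually_ne hP0)
  set g : (Fin k → ℂ) → ℂ := fun t => dd P c (x₀, t) / P (x₀, t) with hg
  have hgP : ∀ t ∈ ball (0 : Fin k → ℂ) δ, ∀ x, dd P c (x, t) = g t * P (x, t) := by
    intro t ht x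
    have h := S2 x₀ x t
    have hne := hball t ht
    rw [hg]
    field_simp
    linear_combination h
  -- S3
  have S3 : ∀ t ∈ ball (0 : Fin k → ℂ) δ, ∀ (x : E) (Y : E × (Fin k → ℂ)),
      dd P c ((x, t) - Y) * P ((x, t) + Y) + P ((x, t) - Y) * dd P c ((x, t) + Y) =
      2 * g t * (P ((x, t) - Y) * P ((x, t) + Y)) := by
    intro t ht x Y
    have h1 := deriv_X hP (x, t) Y c
    have h2 : HasDerivAt (fun s : ℂ => ∑ i, ∑ j, PK P P ((x, t) + s • c) (b' j) * M j i *
        PK P P (a' i) Y) (∑ i, ∑ j, (2 * g t * PK P P (x, t) (b' j)) * M j i *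
        PK P P (a' i) Y) 0 := by
      refine HasDerivAt.fun_sum (fun i _ => HasDerivAt.fun_sum (fun j _ => ?_))
      have h3 := deriv_X hP (x, t) (b' j) c
      have e : dd P c ((x, t) - b' j) * P ((x, t) + b' j) +
          P ((x, t) - b' j) * dd P c ((x, t) + b' j) = 2 * g t * PK P P (x, t) (b' j) := by
        unfold PK
        rw [hb']
        simp only [Prod.mk_sub_mk, Prod.mk_add_mk, sub_zero, add_zero, hgP t ht]
        ring
      rw [e] at h3
      exact (h3.mul_const _).mul_const _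
    have h4 : (fun s : ℂ => P ((x, t) + s • c - Y) * P ((x, t) + s • c + Y)) =
        fun s : ℂ => ∑ i, ∑ j, PK P P ((x, t) + s • c) (b' j) * M j i * PK P P (a' i) Y := by
      funext s; exact hrf _ _
    rw [h4] at h1
    have h5 := h1.unique h2
    rw [h5, hrf (x, t) Y, Finset.mul_sum]
    refine Finset.sum_congr rfl (fun i _ => ?_)
    rw [Finset.mul_sum]
    refine Finset.sum_congr rfl (fun j _ => ?_)
    ring
  -- S4
  have S4 : ∀ t s : Fin k → ℂ, t ∈ ball (0 : Fin k → ℂ) δ → t - s ∈ ball (0 : Fin k → ℂ) δ →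
      t + s ∈ ball (0 : Fin k → ℂ) δ → g (t - s) + g (t + s) = 2 * g t := by
    intro t s ht h1 h2
    have h := S3 t ht x₀ (0, s)
    rw [Prod.mk_sub_mk, Prod.mk_add_mk, sub_zero, add_zero, hgP _ h1, hgP _ h2] at h
    have n1 := hball _ h1
    have n2 := hball _ h2
    have n3 : P (x₀, t - s) * P (x₀, t + s) ≠ 0 := mul_ne_zero n1 n2
    apply mul_right_cancel₀ n3
    linear_combination h
  have hgd : DifferentiableOn ℂ g (ball 0 δ) := fun t ht => by
    have h1 : DifferentiableAt ℂ (fun t : Fin k → ℂ => (P (x₀, t))⁻¹) t :=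
      (differentiableAt_inv (hball t ht)).comp t (hPt t)
    have h2 : g = fun t => dd P c (x₀, t) * (P (x₀, t))⁻¹ := by
      funext t; exact div_eq_mul_inv _ _
    rw [h2]
    exact ((hDt t).mul h1).differentiableWithinAt
  obtain ⟨L, hL⟩ := affine_of_midpoint hδ hgd S4
  -- S6
  have S6 : ∀ X : E × (Fin k → ℂ), fderiv ℂ P X c =
      ((L.comp (ContinuousLinearMap.snd ℂ E (Fin k → ℂ))) X + g 0) * P X := by
    have hH : Differentiable ℂ (fun X : E × (Fin k → ℂ) => dd P c X -
        ((L.comp (ContinuousLinearMap.snd ℂ E (Fin k → ℂ))) X + g 0) * P X) :=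
      (dd_diff hP c).sub (((L.comp (ContinuousLinearMap.snd ℂ E (Fin k → ℂ))).differentiable.add_const
        _).mul hP)
    have hz := identity hH (x₀ := (0, 0)) (by
      have hsnd : ContinuousAt (fun X : E × (Fin k → ℂ) => X.2) (0, 0) := continuous_snd.continuousAt
      have hn : ∀ᶠ X : E × (Fin k → ℂ) in 𝓝 (0, 0), X.2 ∈ ball (0 : Fin k → ℂ) δ :=
        hsnd.eventually_mem (ball_mem_nhds _ hδ)
      filter_upwards [hn] with X hX
      have h1 := hgP X.2 hX X.1
      have h2 := hL X.2 hX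
      show dd P c X - (L X.2 + g 0) * P X = 0
      rw [← h2]
      have : dd P c X = g X.2 * P X := h1
      rw [this, sub_self])
    intro X
    have := congrFun hz X
    simp only [Pi.zero_apply] at this
    exact sub_eq_zero.1 this
  have h0 := hnd c _ _ S6
  rw [hc] at h0
  exact (Prod.mk_eq_zero.1 h0).2

/-- termination -/
theorem ext_bound_main {p : E → ℂ} {N : ℕ} (hr : RankEq (PK p p) N) (hp0 : p ≠ 0) {k : ℕ}
    {P : E × (Fin k → ℂ) → ℂ} (hP : Differentiable ℂ P) (hrP : RankLE (PK P P) N)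
    (hres : ∀ x, P (x, 0) = p x) (hnd : NonDeg P) : k ≤ Module.finrank ℂ E * N := by
  classical
  obtain ⟨a, b, hd⟩ := hr.exists_minor
  have hp : Differentiable ℂ p := by
    have : p = fun x => P (x, 0) := by funext x; exact (hres x).symm
    rw [this]
    exact hP.comp (differentiable_id.prodMk (differentiable_const 0))
  set a' : Fin N → E × (Fin k → ℂ) := fun i => (a i, 0) with ha'
  set b' : Fin N → E × (Fin k → ℂ) := fun i => (b i, 0) with hb'
  have hmm : mm (PK P P) a' b' = mm (PK p p) a b := by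
    ext i j
    show P ((a i, 0) - (b j, 0)) * P ((a i, 0) + (b j, 0)) = p (a i - b j) * p (a i + b j)
    rw [Prod.mk_sub_mk, Prod.mk_add_mk, sub_zero, add_zero, hres, hres]
  have hd' : (mm (PK P P) a' b').det ≠ 0 := by rw [hmm]; exact hd
  set M := (mm (PK P P) a' b')⁻¹ with hM
  have hrf : ∀ X Y, P (X - Y) * P (X + Y) = ∑ i, ∑ j, PK P P X (b' j) * M j i * PK P P (a' i) Y :=
    fun X Y => rank_formula hrP hd' X Y
  -- directional derivatives
  set η : (Fin k → ℂ) → E → ℂ := fun τ x => dd P (0, τ) (x, 0) with hη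
  have hηd : ∀ τ, Differentiable ℂ (η τ) := fun τ =>
    (dd_diff hP (0, τ)).comp (differentiable_id.prodMk (differentiable_const 0))
  -- the coefficients
  set κ : (Fin k → ℂ) → Fin N → E → ℂ := fun τ i y => p (a i - y) * η τ (a i + y) -
    η τ (a i - y) * p (a i + y) with hκ
  have hκd : ∀ τ i, Differentiable ℂ (κ τ i) := by
    intro τ i
    have h1 : Differentiable ℂ (fun y : E => a i - y) := differentiable_id.const_sub _
    have h2 : Differentiable ℂ (fun y : E => a i + y) := differentiable_id.const_add _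
    exact ((hp.comp h1).mul ((hηd τ).comp h2)).sub (((hηd τ).comp h1).mul (hp.comp h2))
  have A1 : ∀ τ x y, p (x - y) * η τ (x + y) - η τ (x - y) * p (x + y) =
      ∑ i, ∑ j, PK P P (x, 0) (b' j) * M j i * κ τ i y := by
    intro τ x y
    have h1 := deriv_Y hP (x, 0) (y, 0) (0, τ)
    have h2 : HasDerivAt (fun s : ℂ => ∑ i, ∑ j, PK P P (x, 0) (b' j) * M j i *
        PK P P (a' i) ((y, 0) + s • (0, τ))) (∑ i, ∑ j, PK P P (x, 0) (b' j) * M j i * κ τ i y) 0 := by
      refine HasDerivAt.fun_sum (fun i _ => HasDerivAt.fun_sum (fun j _ => ?_))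
      have h3 := deriv_Y hP (a' i) (y, 0) (0, τ)
      have e : P (a' i - (y, 0)) * dd P (0, τ) (a' i + (y, 0)) -
          dd P (0, τ) (a' i - (y, 0)) * P (a' i + (y, 0)) = κ τ i y := by
        rw [ha', hκ, hη]
        simp only [Prod.mk_sub_mk, Prod.mk_add_mk, sub_zero, add_zero, hres]
      rw [e] at h3
      exact h3.const_mul _
    have h4 : (fun s : ℂ => P ((x, 0) - ((y, 0) + s • (0, τ))) * P ((x, 0) + ((y, 0) + s • (0, τ)))) =
        fun s : ℂ => ∑ i, ∑ j, PK P P (x, 0) (b' j) * M j i * PK P P (a' i) ((y, 0) + s • (0, τ)) := by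
      funext s; exact hrf _ _
    rw [h4] at h1
    have h5 := h1.unique h2
    rw [← h5]
    simp only [Prod.mk_sub_mk, Prod.mk_add_mk, sub_zero, add_zero, hres, hη]
  -- linearity in `τ`
  have hηadd : ∀ τ τ' x, η (τ + τ') x = η τ x + η τ' x := by
    intro τ τ' x
    show fderiv ℂ P (x, 0) (0, τ + τ') = fderiv ℂ P (x, 0) (0, τ) + fderiv ℂ P (x, 0) (0, τ')
    rw [← map_add, Prod.mk_add_mk, add_zero]
  have hηsmul : ∀ (r : ℂ) τ x, η (r • τ) x = r * η τ x := by
    intro r τ x
    show fderiv ℂ P (x, 0) (0, r • τ) = r * fderiv ℂ P (x, 0) (0, τ)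
    have : ((0, r • τ) : E × (Fin k → ℂ)) = r • (0, τ) := by
      rw [Prod.smul_mk, smul_zero]
    rw [this, map_smul, smul_eq_mul]
  have hκadd : ∀ τ τ' i, κ (τ + τ') i = κ τ i + κ τ' i := by
    intro τ τ' i
    funext y
    simp only [hκ, hηadd, Pi.add_apply]
    ring
  have hκsmul : ∀ (r : ℂ) τ i, κ (r • τ) i = r • κ τ i := by
    intro r τ i
    funext y
    simp only [hκ, hηsmul, Pi.smul_apply, smul_eq_mul]
    ring
  let e := Module.finBasis ℂ E
  let Φ : (Fin k → ℂ) →ₗ[ℂ] (Fin (Module.finrank ℂ E) → Fin N → ℂ) :=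
    { toFun := fun τ m i => fderiv ℂ (κ τ i) 0 (e m)
      map_add' := by
        intro τ τ'
        funext m i
        show fderiv ℂ (κ (τ + τ') i) 0 (e m) = fderiv ℂ (κ τ i) 0 (e m) + fderiv ℂ (κ τ' i) 0 (e m)
        rw [hκadd, fderiv_add (hκd τ i 0) (hκd τ' i 0)]
        rfl
      map_smul' := by
        intro r τ
        funext m i
        show fderiv ℂ (κ (r • τ) i) 0 (e m) = r * fderiv ℂ (κ τ i) 0 (e m)
        rw [hκsmul, fderiv_const_smul (hκd τ i 0)]
        rfl }
  have hinj : Function.Injective Φ := by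
    rw [injective_iff_map_eq_zero]
    intro τ hτ
    have hκ0 : ∀ i, fderiv ℂ (κ τ i) 0 = 0 := by
      intro i
      have : ((fderiv ℂ (κ τ i) 0 : E →L[ℂ] ℂ) : E →ₗ[ℂ] ℂ) = 0 := by
        refine e.ext (fun m => ?_)
        have := congrFun (congrFun hτ m) i
        exact this
      ext v
      exact congrArg (fun T : E →ₗ[ℂ] ℂ => T v) this
    have hW : ∀ x, p x • fderiv ℂ (η τ) x = η τ x • fderiv ℂ p x := by
      intro x
      ext v
      -- derivative of both sides of `A1` in direction `v` at `y = 0`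
      have l1 : HasDerivAt (fun s : ℂ => p (x - s • v) * η τ (x + s • v) -
          η τ (x - s • v) * p (x + s • v))
          (2 * (p x * fderiv ℂ (η τ) x v - η τ x * fderiv ℂ p x v)) 0 := by
        have d1 := hasDeriv_dd hp x v
        have d2 := hasDeriv_dd hp x (-v)
        have d3 := hasDeriv_dd (hηd τ) x v
        have d4 := hasDeriv_dd (hηd τ) x (-v)
        have e2 : (fun s : ℂ => p (x + s • (-v))) = fun s : ℂ => p (x - s • v) := by
          funext s; rw [smul_neg, sub_eq_add_neg]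
        have e4 : (fun s : ℂ => η τ (x + s • (-v))) = fun s : ℂ => η τ (x - s • v) := by
          funext s; rw [smul_neg, sub_eq_add_neg]
        rw [e2] at d2
        rw [e4] at d4
        refine ((d2.mul d3).sub (d4.mul d1)).congr_deriv ?_
        simp only [zero_smul, add_zero, sub_zero, dd, map_neg]
        ring
      have l2 : HasDerivAt (fun s : ℂ => ∑ i, ∑ j, PK P P (x, 0) (b' j) * M j i * κ τ i (s • v))
          (∑ i, ∑ j, PK P P (x, 0) (b' j) * M j i * 0) 0 := by
        refine HasDerivAt.fun_sum (fun i _ => HasDerivAt.fun_sum (fun j _ => ?_))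
        have h3 := hasDeriv_dd (hκd τ i) 0 v
        have e3 : (fun s : ℂ => κ τ i (0 + s • v)) = fun s : ℂ => κ τ i (s • v) := by
          funext s; rw [zero_add]
        have e5 : dd (κ τ i) v 0 = 0 := by
          unfold dd; rw [hκ0 i]; rfl
        rw [e3, e5] at h3
        exact h3.const_mul _
      have h4 : (fun s : ℂ => p (x - s • v) * η τ (x + s • v) -
          η τ (x - s • v) * p (x + s • v)) =
          fun s : ℂ => ∑ i, ∑ j, PK P P (x, 0) (b' j) * M j i * κ τ i (s • v) := by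
        funext s; exact A1 τ x (s • v)
      rw [h4] at l1
      have h5 := l1.unique l2
      simp only [mul_zero, Finset.sum_const_zero] at h5
      simp only [smul_apply, smul_eq_mul]
      linear_combination h5 / 2
    obtain ⟨γ, hγ⟩ := prop_of_wronskian hp (hηd τ) hp0 hW
    exact tau_zero hP hrP hres hnd hd hp0 τ hγ
  have := LinearMap.finrank_le_finrank_of_injective hinj
  simpa [Module.finrank_pi_fintype] using this

end ExtBound

variable {E : Type*} [NormedAddCommGroup E] [NormedSpace ℂ E] [FiniteDimensional ℂ E]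

/-- termination -/
theorem ext_bound {p : E → ℂ} {N : ℕ} (hr : RankEq (PK p p) N) (hp0 : p ≠ 0) {k : ℕ}
    {P : E × (Fin k → ℂ) → ℂ} (hP : Differentiable ℂ P) (hrP : RankLE (PK P P) N)
    (hres : ∀ x, P (x, 0) = p x) (hnd : NonDeg P) : k ≤ Module.finrank ℂ E * N :=
  ExtBound.ext_bound_main hr hp0 hP hrP hres hnd

end Pool.Agent.Lib.MP_db21fa_an.TF
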