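import Pool.Agent.Lib.MP_db21fa_an.TF.FinalDefs

/-!
Auxiliary file for the modules X3 and X4: functions of order-two growth.
-/

set_option autoImplicit false

open Filter Topology Metric

namespace Pool.Agent.Lib.MP_db21fa_an.TF

namespace Gr

variable {E G : Type*} [NormedAddCommGroup E] [NormedSpace ℂ E] [NormedAddCommGroup G]
  [NormedSpace ℂ G]

/-- order-two growth, with respect to the norm -/
def O2 (F : E → ℂ) : Prop :=
  ∃ A c : ℝ, 0 ≤ A ∧ 0 ≤ c ∧ ∀ z, ‖F z‖ ≤ A * Real.exp (c * ‖z‖ ^ 2)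

theorem norm_sq_le_sum {n : ℕ} (z : Fin n → ℂ) : ‖z‖ ^ 2 ≤ ∑ i, ‖z i‖ ^ 2 := by
  have h0 : 0 ≤ ∑ i, ‖z i‖ ^ 2 := Finset.sum_nonneg fun i _ => by positivity
  have h : ‖z‖ ≤ Real.sqrt (∑ i, ‖z i‖ ^ 2) := by
    rw [pi_norm_le_iff_of_nonneg (Real.sqrt_nonneg _)]
    intro i
    apply Real.le_sqrt_of_sq_le
    exact Finset.single_le_sum (f := fun i => ‖z i‖ ^ 2) (fun j _ => by positivity)
      (Finset.mem_univ i)
  calc ‖z‖ ^ 2 ≤ Real.sqrt (∑ i, ‖z i‖ ^ 2) ^ 2 := by gcongr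
    _ = _ := Real.sq_sqrt h0

theorem sum_le_norm_sq {n : ℕ} (z : Fin n → ℂ) : ∑ i, ‖z i‖ ^ 2 ≤ n * ‖z‖ ^ 2 := by
  calc ∑ i, ‖z i‖ ^ 2 ≤ ∑ _i : Fin n, ‖z‖ ^ 2 := by
        apply Finset.sum_le_sum
        intro i _
        have := norm_le_pi_norm z i
        gcongr
    _ = n * ‖z‖ ^ 2 := by simp

theorem orderTwo_iff {n : ℕ} {F : (Fin n → ℂ) → ℂ} : OrderTwo F ↔ O2 F := by
  constructor
  · rintro ⟨A, c, h⟩
    have hA : 0 ≤ A := by
      have := h 0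
      simp only [Pi.zero_apply, norm_zero, ne_eq, OfNat.ofNat_ne_zero, not_false_eq_true,
        zero_pow, Finset.sum_const_zero, mul_zero, Real.exp_zero, mul_one] at this
      exact (norm_nonneg _).trans this
    refine ⟨A, |c| * n, hA, by positivity, fun z => (h z).trans ?_⟩
    apply mul_le_mul_of_nonneg_left _ hA
    apply Real.exp_le_exp.mpr
    have h1 : 0 ≤ ∑ i, ‖z i‖ ^ 2 := Finset.sum_nonneg fun i _ => by positivity
    calc c * ∑ i, ‖z i‖ ^ 2 ≤ |c| * ∑ i, ‖z i‖ ^ 2 := by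
          gcongr; exact le_abs_self c
      _ ≤ |c| * (n * ‖z‖ ^ 2) := by gcongr; exact sum_le_norm_sq z
      _ = _ := by ring
  · rintro ⟨A, c, hA, hc, h⟩
    refine ⟨A, c, fun z => (h z).trans ?_⟩
    apply mul_le_mul_of_nonneg_left _ hA
    apply Real.exp_le_exp.mpr
    gcongr
    exact norm_sq_le_sum z

theorem O2.mul {F H : E → ℂ} (hF : O2 F) (hH : O2 H) : O2 (fun z => F z * H z) := by
  obtain ⟨A, c, hA, hc, h⟩ := hF
  obtain ⟨B, d, hB, hd, h'⟩ := hH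
  refine ⟨A * B, c + d, by positivity, by positivity, fun z => ?_⟩
  rw [norm_mul]
  calc ‖F z‖ * ‖H z‖ ≤ (A * Real.exp (c * ‖z‖ ^ 2)) * (B * Real.exp (d * ‖z‖ ^ 2)) := by
        gcongr
        · exact h z
        · exact h' z
    _ = A * B * Real.exp ((c + d) * ‖z‖ ^ 2) := by
        rw [add_mul, Real.exp_add]; ring

theorem O2.add {F H : E → ℂ} (hF : O2 F) (hH : O2 H) : O2 (fun z => F z + H z) := by
  obtain ⟨A, c, hA, hc, h⟩ := hF
  obtain ⟨B, d, hB, hd, h'⟩ := hH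
  refine ⟨A + B, c + d, by positivity, by positivity, fun z => ?_⟩
  calc ‖F z + H z‖ ≤ ‖F z‖ + ‖H z‖ := norm_add_le _ _
    _ ≤ A * Real.exp (c * ‖z‖ ^ 2) + B * Real.exp (d * ‖z‖ ^ 2) := add_le_add (h z) (h' z)
    _ ≤ A * Real.exp ((c + d) * ‖z‖ ^ 2) + B * Real.exp ((c + d) * ‖z‖ ^ 2) := by
        gcongr
        · linarith
        · linarith
    _ = _ := by ring

theorem O2.const (a : ℂ) : O2 (fun _ : E => a) :=
  ⟨‖a‖, 0, by positivity, le_rfl, fun z => by simp⟩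

theorem O2.const_mul {F : E → ℂ} (hF : O2 F) (a : ℂ) : O2 (fun z => a * F z) :=
  (O2.const a).mul hF

theorem O2.mono {F H : E → ℂ} (hF : O2 F) (h : ∀ z, ‖H z‖ ≤ ‖F z‖) : O2 H := by
  obtain ⟨A, c, hA, hc, hh⟩ := hF
  exact ⟨A, c, hA, hc, fun z => (h z).trans (hh z)⟩

theorem O2.sum {ι : Type*} (s : Finset ι) {F : ι → E → ℂ} (h : ∀ i ∈ s, O2 (F i)) :
    O2 (fun z => ∑ i ∈ s, F i z) := by
  classical
  induction s using Finset.induction_on with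
  | empty => simpa using O2.const (E := E) 0
  | insert a s ha ih =>
    simp only [Finset.sum_insert ha]
    exact (h a (Finset.mem_insert_self _ _)).add (ih fun i hi => h i (Finset.mem_insert_of_mem hi))

/-- composition with an affine map -/
theorem O2.comp_bound {F : G → ℂ} (hF : O2 F) {T : E → G} {a b : ℝ} (ha : 0 ≤ a) (hb : 0 ≤ b)
    (hT : ∀ z, ‖T z‖ ≤ a * ‖z‖ + b) : O2 (fun z => F (T z)) := by
  obtain ⟨A, c, hA, hc, h⟩ := hF
  refine ⟨A * Real.exp (c * (2 * b ^ 2)), c * (2 * a ^ 2), by positivity, by positivity,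
    fun z => (h _).trans ?_⟩
  rw [mul_assoc, ← Real.exp_add]
  apply mul_le_mul_of_nonneg_left _ hA
  apply Real.exp_le_exp.mpr
  have h1 : ‖T z‖ ^ 2 ≤ (a * ‖z‖ + b) ^ 2 := by
    have := hT z
    gcongr
  have h2 : (a * ‖z‖ + b) ^ 2 ≤ 2 * a ^ 2 * ‖z‖ ^ 2 + 2 * b ^ 2 := by
    nlinarith [sq_nonneg (a * ‖z‖ - b)]
  calc c * ‖T z‖ ^ 2 ≤ c * (2 * a ^ 2 * ‖z‖ ^ 2 + 2 * b ^ 2) := by gcongr; exact h1.trans h2
    _ = _ := by ring

theorem O2.exp {F : E → ℂ} {a b : ℝ} (hb : 0 ≤ b) (h : ∀ z, ‖F z‖ ≤ a + b * ‖z‖ ^ 2) :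
    O2 (fun z => Complex.exp (F z)) := by
  refine ⟨Real.exp a, b, by positivity, hb, fun z => ?_⟩
  rw [Complex.norm_exp, ← Real.exp_add]
  exact Real.exp_le_exp.mpr ((Complex.re_le_norm _).trans (h z))

theorem O2.norm_le {F : E → ℂ} {a : ℝ} (ha : 0 ≤ a) (h : ∀ z, ‖F z‖ ≤ a * ‖z‖) : O2 F := by
  refine ⟨a, 1, ha, by norm_num, fun z => (h z).trans ?_⟩
  apply mul_le_mul_of_nonneg_left _ ha
  have h1 : ‖z‖ ≤ 1 * ‖z‖ ^ 2 + 1 := by nlinarith [sq_nonneg (‖z‖ - 1), norm_nonneg z]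
  exact h1.trans (Real.add_one_le_exp _)

theorem O2.fderiv {F : E → ℂ} (hd : Differentiable ℂ F) (hF : O2 F) (v : E) :
    O2 (fun z => fderiv ℂ F z v) := by
  obtain ⟨A, c, hA, hc, h⟩ := hF
  refine ⟨A * Real.exp (2 * c) * ‖v‖, 2 * c, by positivity, by positivity, fun z => ?_⟩
  have h1 : ‖_root_.fderiv ℂ F z‖ ≤ (A * Real.exp (c * (‖z‖ + 1) ^ 2)) / 1 := by
    refine norm_fderiv_le one_pos hd.differentiableOn fun y hy => (h y).trans ?_
    have h2 : ‖y‖ ≤ ‖z‖ + 1 := by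
      have h3 : ‖y - z‖ < 1 := by simpa [dist_eq_norm] using hy
      calc ‖y‖ = ‖z + (y - z)‖ := by congr 1; abel
        _ ≤ ‖z‖ + ‖y - z‖ := norm_add_le _ _
        _ ≤ _ := by linarith
    gcongr
  rw [div_one] at h1
  have h4 : (‖z‖ + 1) ^ 2 ≤ 2 * ‖z‖ ^ 2 + 2 := by nlinarith [sq_nonneg (‖z‖ - 1)]
  calc ‖_root_.fderiv ℂ F z v‖ ≤ ‖_root_.fderiv ℂ F z‖ * ‖v‖ := ContinuousLinearMap.le_opNorm _ _
    _ ≤ (A * Real.exp (c * (2 * ‖z‖ ^ 2 + 2))) * ‖v‖ := by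
        gcongr
        refine h1.trans ?_
        gcongr
    _ = A * Real.exp (2 * c) * ‖v‖ * Real.exp (2 * c * ‖z‖ ^ 2) := by
        rw [show c * (2 * ‖z‖ ^ 2 + 2) = 2 * c + 2 * c * ‖z‖ ^ 2 by ring, Real.exp_add]
        ring

theorem O2.poly {n : ℕ} (P : MvPolynomial (Fin n) ℂ) :
    O2 (fun x : Fin n → ℂ => MvPolynomial.eval x P) := by
  induction P using MvPolynomial.induction_on with
  | C a => simpa using O2.const (E := Fin n → ℂ) a
  | add p q hp hq => simpa using hp.add hq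
  | mul_X p i hp =>
    have h : O2 (fun x : Fin n → ℂ => x i) :=
      O2.norm_le (a := 1) (by norm_num) fun z => by rw [one_mul]; exact norm_le_pi_norm z i
    simpa using hp.mul h

theorem differentiable_poly {n : ℕ} (P : MvPolynomial (Fin n) ℂ) :
    Differentiable ℂ (fun x : Fin n → ℂ => MvPolynomial.eval x P) := by
  induction P using MvPolynomial.induction_on with
  | C a => simp
  | add p q hp hq =>
    simp only [map_add]
    exact hp.fun_add hq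
  | mul_X p i hp =>
    have h : Differentiable ℂ (fun x : Fin n → ℂ => x i) := by fun_prop
    simp only [map_mul, MvPolynomial.eval_X]
    exact hp.fun_mul h

end Gr

end Pool.Agent.Lib.MP_db21fa_an.TF
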