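import Pool.Agent.Lib.MP_db21fa_an.TF.FinalDefs
import Pool.Agent.Lib.MP_db21fa_an.TF.FinDim
import Pool.Agent.Lib.MP_db21fa_an.TF.GrowthAux
import Pool.Agent.Lib.MP_db21fa_an.TF.Cx

/-!
Module X3: growth.
-/

set_option autoImplicit false

open Filter Topology Metric

namespace Pool.Agent.Lib.MP_db21fa_an.TF

private theorem pd_differentiable {m : ℕ} (s : List (Fin m)) {f : (Fin m → ℂ) → ℂ}
    (hf : Differentiable ℂ f) : Differentiable ℂ (pd s f) := by
  induction s with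
  | nil => exact hf
  | cons i s ih => exact differentiable_dirDeriv ih _

private theorem pd_O2 {m : ℕ} (s : List (Fin m)) {f : (Fin m → ℂ) → ℂ}
    (hf : Differentiable ℂ f) (h2 : Gr.O2 f) : Gr.O2 (pd s f) := by
  induction s with
  | nil => exact h2
  | cons i s ih => exact Gr.O2.fderiv (pd_differentiable s hf) ih _

section growth

variable {E : Type*} [NormedAddCommGroup E] [NormedSpace ℂ E]

private theorem step_nat {θ : E → ℂ} {a : ℝ} (ha : 0 ≤ a) {w : E} (hw : ‖w‖ ≤ a)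
    (hP : ∀ u, ‖θ (u + w)‖ ≤ Real.exp (a * ‖u‖ + a ^ 2 + a) * ‖θ u‖) (n : ℕ) (u : E) :
    ‖θ (u + n • w)‖ ≤ Real.exp (n * (a * (‖u‖ + n * a) + a ^ 2 + a)) * ‖θ u‖ := by
  induction n with
  | zero => simp
  | succ n ih =>
    have h1 : u + (n + 1) • w = (u + n • w) + w := by rw [succ_nsmul, add_assoc]
    have h2 : ‖u + n • w‖ ≤ ‖u‖ + n * a := by
      refine (norm_add_le _ _).trans ?_
      gcongr
      refine (norm_nsmul_le).trans ?_
      gcongr
    rw [h1]
    calc ‖θ (u + n • w + w)‖ ≤ Real.exp (a * ‖u + n • w‖ + a ^ 2 + a) * ‖θ (u + n • w)‖ := hP _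
      _ ≤ Real.exp (a * (‖u‖ + n * a) + a ^ 2 + a) *
          (Real.exp (n * (a * (‖u‖ + n * a) + a ^ 2 + a)) * ‖θ u‖) := by gcongr
      _ = Real.exp ((n + 1) * (a * (‖u‖ + n * a) + a ^ 2 + a)) * ‖θ u‖ := by
          rw [← mul_assoc, ← Real.exp_add]; ring_nf
      _ ≤ _ := by
          push_cast
          gcongr
          linarith

private theorem step_sum {ι : Type*} {θ : E → ℂ} {a : ℝ} (ha : 0 ≤ a) {w : ι → E}
    (hw : ∀ i, ‖w i‖ ≤ a)
    (hP : ∀ i u, ‖θ (u + w i)‖ ≤ Real.exp (a * ‖u‖ + a ^ 2 + a) * ‖θ u‖) (k : ι → ℕ)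
    (s : Finset ι) (u : E) :
    ‖θ (u + ∑ i ∈ s, k i • w i)‖ ≤
      Real.exp ((∑ i ∈ s, k i : ℕ) * (a * (‖u‖ + (∑ i ∈ s, k i : ℕ) * a) + a ^ 2 + a)) * ‖θ u‖ := by
  classical
  induction s using Finset.induction_on with
  | empty => simp
  | insert j s hj ih =>
    rw [Finset.sum_insert hj, Finset.sum_insert hj]
    set T := ∑ i ∈ s, k i with hT
    have h2 : ‖u + ∑ i ∈ s, k i • w i‖ ≤ ‖u‖ + T * a := by
      refine (norm_add_le _ _).trans ?_
      gcongr
      refine (norm_sum_le _ _).trans ?_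
      rw [hT, Nat.cast_sum, Finset.sum_mul]
      apply Finset.sum_le_sum
      intro i _
      refine (norm_nsmul_le).trans ?_
      gcongr
      exact hw i
    have h1 : u + (k j • w j + ∑ i ∈ s, k i • w i) = (u + ∑ i ∈ s, k i • w i) + k j • w j := by
      abel
    rw [h1]
    refine (step_nat ha (hw j) (hP j) (k j) _).trans ?_
    calc Real.exp ((k j : ℝ) * (a * (‖u + ∑ i ∈ s, k i • w i‖ + (k j : ℝ) * a) + a ^ 2 + a)) *
          ‖θ (u + ∑ i ∈ s, k i • w i)‖
        ≤ Real.exp ((k j : ℝ) * (a * ((‖u‖ + T * a) + (k j : ℝ) * a) + a ^ 2 + a)) *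
          (Real.exp (T * (a * (‖u‖ + T * a) + a ^ 2 + a)) * ‖θ u‖) := by gcongr
      _ = Real.exp ((k j : ℝ) * (a * ((‖u‖ + T * a) + (k j : ℝ) * a) + a ^ 2 + a) +
            T * (a * (‖u‖ + T * a) + a ^ 2 + a)) * ‖θ u‖ := by
          rw [← mul_assoc, ← Real.exp_add]
      _ ≤ Real.exp (((k j + T : ℕ) : ℝ) * (a * (‖u‖ + ((k j + T : ℕ) : ℝ) * a) + a ^ 2 + a)) *
          ‖θ u‖ := by
          apply mul_le_mul_of_nonneg_right _ (norm_nonneg _)
          apply Real.exp_le_exp.mpr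
          push_cast
          have h3 : 0 ≤ (T : ℝ) * (a * ((k j : ℝ) * a)) := by positivity
          nlinarith

end growth

/-- theta functions have order-two growth -/
theorem IsTheta.O2 {m : ℕ} {ω L : Fin (2 * m) → Fin m → ℂ} (hω : LinearIndependent ℝ ω)
    {θ : (Fin m → ℂ) → ℂ} (hθ : IsTheta ω L θ) : Gr.O2 θ := by
  obtain ⟨hd, c, hc⟩ := hθ
  have hfin : Module.finrank ℝ (Fin m → ℂ) = 2 * m := by
    rw [Module.finrank_pi_fintype]
    simp [Complex.finrank_real_complex, mul_comm]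
  have hsp : Submodule.span ℝ (Set.range ω) = ⊤ :=
    hω.span_eq_top_of_card_eq_finrank' (by rw [Fintype.card_fin, hfin])
  let B : Module.Basis (Fin (2 * m)) ℝ (Fin m → ℂ) := Module.Basis.mk hω hsp.ge
  have hB : ∀ i, B i = ω i := fun i => by simp [B]
  -- bounds
  have hLb : ∀ i, ∀ u : Fin m → ℂ, ‖∑ j, L i j * u j‖ ≤ (∑ j, ‖L i j‖) * ‖u‖ := by
    intro i u
    refine (norm_sum_le _ _).trans ?_
    rw [Finset.sum_mul]
    apply Finset.sum_le_sum
    intro j _
    rw [norm_mul]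
    have := norm_le_pi_norm u j
    gcongr
  set a : ℝ := ∑ i, ((∑ j, ‖L i j‖) + ‖ω i‖ + ‖c i‖) with ha
  have ha0 : 0 ≤ a := Finset.sum_nonneg fun i _ => by positivity
  have hai : ∀ i, (∑ j, ‖L i j‖) + ‖ω i‖ + ‖c i‖ ≤ a := fun i =>
    Finset.single_le_sum (f := fun i => (∑ j, ‖L i j‖) + ‖ω i‖ + ‖c i‖)
      (fun j _ => by positivity) (Finset.mem_univ i)
  have hLa : ∀ i, (∑ j, ‖L i j‖) ≤ a := fun i => by
    have := hai i; have := norm_nonneg (ω i); have := norm_nonneg (c i); linarith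
  have hωa : ∀ i, ‖ω i‖ ≤ a := fun i => by
    have := hai i
    have : 0 ≤ ∑ j, ‖L i j‖ := Finset.sum_nonneg fun i _ => by positivity
    have := norm_nonneg (c i); linarith
  have hca : ∀ i, ‖c i‖ ≤ a := fun i => by
    have := hai i
    have : 0 ≤ ∑ j, ‖L i j‖ := Finset.sum_nonneg fun i _ => by positivity
    have := norm_nonneg (ω i); linarith
  have hexp : ∀ (i : Fin (2 * m)) (u : Fin m → ℂ), ‖∑ j, L i j * u j + c i‖ ≤ a * ‖u‖ + a := by
    intro i u
    refine (norm_add_le _ _).trans (add_le_add ((hLb i u).trans ?_) (hca i))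
    exact mul_le_mul_of_nonneg_right (hLa i) (norm_nonneg _)
  have hplus : ∀ i u, ‖θ (u + ω i)‖ ≤ Real.exp (a * ‖u‖ + a ^ 2 + a) * ‖θ u‖ := by
    intro i u
    rw [hc i u, norm_mul, Complex.norm_exp]
    apply mul_le_mul_of_nonneg_right _ (norm_nonneg _)
    apply Real.exp_le_exp.mpr
    have := (Complex.re_le_norm _).trans (hexp i u)
    nlinarith [sq_nonneg a]
  have hminus : ∀ i u, ‖θ (u + -ω i)‖ ≤ Real.exp (a * ‖u‖ + a ^ 2 + a) * ‖θ u‖ := by
    intro i u
    have h1 := hc i (u + -ω i)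
    rw [neg_add_cancel_right] at h1
    have h2 : θ (u + -ω i) = Complex.exp (-(∑ j, L i j * (u + -ω i) j + c i)) * θ u := by
      rw [h1, ← mul_assoc, ← Complex.exp_add, neg_add_cancel, Complex.exp_zero, one_mul]
    rw [h2, norm_mul, Complex.norm_exp]
    apply mul_le_mul_of_nonneg_right _ (norm_nonneg _)
    apply Real.exp_le_exp.mpr
    have h3 := (Complex.re_le_norm (-(∑ j, L i j * (u + -ω i) j + c i)))
    rw [norm_neg] at h3
    have h4 := h3.trans (hexp i _)
    have h5 : ‖u + -ω i‖ ≤ ‖u‖ + a := by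
      refine (norm_add_le _ _).trans ?_
      rw [norm_neg]
      linarith [hωa i]
    have h6 : a * ‖u + -ω i‖ ≤ a * (‖u‖ + a) := by gcongr
    nlinarith
  -- reduction to a compact set
  set ρ : ℝ := ∑ i, ‖ω i‖ with hρ
  have hρ0 : 0 ≤ ρ := Finset.sum_nonneg fun i _ => norm_nonneg _
  obtain ⟨S, hS⟩ : ∃ S, ∀ y ∈ closedBall (0 : Fin m → ℂ) ρ, ‖θ y‖ ≤ S :=
    (isCompact_closedBall (0 : Fin m → ℂ) ρ).exists_bound_of_continuousOn hd.continuous.continuousOn
  have hS0 : 0 ≤ S := (norm_nonneg _).trans (hS 0 (by simp [hρ0]))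
  obtain ⟨β, hβ0, hβ⟩ : ∃ β : ℝ, 0 ≤ β ∧ ∀ u i, |B.repr u i| ≤ β * ‖u‖ := by
    let R : (Fin m → ℂ) →L[ℝ] (Fin (2 * m) → ℝ) :=
      LinearMap.toContinuousLinearMap (B.equivFun.toLinearMap)
    refine ⟨‖R‖, norm_nonneg _, fun u i => ?_⟩
    have h1 : ‖R u i‖ ≤ ‖R u‖ := norm_le_pi_norm (R u) i
    exact h1.trans (R.le_opNorm u)
  set D : ℝ := (2 * m : ℕ) * (β + 1) with hD
  have hD0 : 0 ≤ D := by positivity
  set C : ℝ := D * (a * ρ + a ^ 2 + a + a * (D * a)) with hC
  have hC0 : 0 ≤ C := by positivity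
  refine ⟨S * Real.exp (2 * C), 2 * C, by positivity, by positivity, fun u => ?_⟩
  let nn : Fin (2 * m) → ℤ := fun i => ⌊B.repr u i⌋
  let k : Fin (2 * m) → ℕ := fun i => (nn i).natAbs
  let w : Fin (2 * m) → Fin m → ℂ := fun i => if 0 ≤ nn i then ω i else -ω i
  have hw : ∀ i, ‖w i‖ ≤ a := by
    intro i
    by_cases h : 0 ≤ nn i
    · simpa [w, h] using hωa i
    · simpa [w, h] using hωa i
  have hP : ∀ i u, ‖θ (u + w i)‖ ≤ Real.exp (a * ‖u‖ + a ^ 2 + a) * ‖θ u‖ := by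
    intro i u
    by_cases h : 0 ≤ nn i
    · simpa only [w, h, if_true] using hplus i u
    · simpa only [w, h, if_false] using hminus i u
  have hkw : ∀ i, k i • w i = (nn i : ℝ) • ω i := by
    intro i
    by_cases h : 0 ≤ nn i
    · have h1 : ((k i : ℕ) : ℝ) = (nn i : ℝ) := by
        have h2 : ((k i : ℕ) : ℤ) = nn i := Int.natAbs_of_nonneg h
        rw [← Int.cast_natCast, h2]
      simp only [w, h, if_true]
      rw [← h1, Nat.cast_smul_eq_nsmul]
    · have h1 : ((k i : ℕ) : ℝ) = -(nn i : ℝ) := by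
        have h2 : ((k i : ℕ) : ℤ) = -nn i := Int.ofNat_natAbs_of_nonpos (by omega)
        rw [← Int.cast_natCast, h2, Int.cast_neg]
      simp only [w, h, if_false]
      rw [← Nat.cast_smul_eq_nsmul ℝ, h1, smul_neg, neg_smul, neg_neg]
  set y : Fin m → ℂ := ∑ i, Int.fract (B.repr u i) • ω i with hy
  have hu : u = y + ∑ i, k i • w i := by
    conv_lhs => rw [← B.sum_repr u]
    rw [hy, ← Finset.sum_add_distrib]
    apply Finset.sum_congr rfl
    intro i _
    rw [hkw, ← add_smul, hB]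
    congr 1
    exact (Int.fract_add_floor _).symm
  have hyρ : ‖y‖ ≤ ρ := by
    rw [hy, hρ]
    refine (norm_sum_le _ _).trans (Finset.sum_le_sum fun i _ => ?_)
    rw [norm_smul, Real.norm_of_nonneg (Int.fract_nonneg _)]
    exact mul_le_of_le_one_left (norm_nonneg _) (Int.fract_lt_one _).le
  have hT : ((∑ i, k i : ℕ) : ℝ) ≤ D * (‖u‖ + 1) := by
    rw [Nat.cast_sum]
    calc ∑ i, (k i : ℝ) ≤ ∑ _i : Fin (2 * m), (β + 1) * (‖u‖ + 1) := by
          apply Finset.sum_le_sum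
          intro i _
          have h1 : (k i : ℝ) = |(nn i : ℝ)| := by
            simp only [k]
            rw [Nat.cast_natAbs, Int.cast_abs]
          rw [h1]
          have h2 := hβ u i
          have h3 : |(nn i : ℝ)| ≤ |B.repr u i| + 1 := by
            have h4 : (nn i : ℝ) = B.repr u i - Int.fract (B.repr u i) := by
              rw [Int.self_sub_fract]
            rw [h4]
            refine (abs_sub _ _).trans ?_
            have h5 := Int.fract_nonneg (B.repr u i)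
            have h6 := (Int.fract_lt_one (B.repr u i)).le
            rw [abs_of_nonneg h5]
            linarith
          have h7 := norm_nonneg u
          nlinarith
      _ = D * (‖u‖ + 1) := by
          rw [Finset.sum_const, Finset.card_univ, Fintype.card_fin, nsmul_eq_mul, hD]
          ring
  set T : ℝ := ((∑ i, k i : ℕ) : ℝ) with hTd
  have hT0 : 0 ≤ T := by positivity
  have hmain := step_sum ha0 hw hP k Finset.univ y
  rw [← hu, ← hTd] at hmain
  have hun := norm_nonneg u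
  refine hmain.trans ?_
  calc Real.exp (T * (a * (‖y‖ + T * a) + a ^ 2 + a)) * ‖θ y‖
      ≤ Real.exp (2 * C + 2 * C * ‖u‖ ^ 2) * S := by
        gcongr
        · have h1 : T * (a * (‖y‖ + T * a) + a ^ 2 + a) ≤
              (D * (‖u‖ + 1)) * (a * (ρ + (D * (‖u‖ + 1)) * a) + a ^ 2 + a) := by
            gcongr
          have h2 : a * (ρ + (D * (‖u‖ + 1)) * a) + a ^ 2 + a ≤
              (a * ρ + a ^ 2 + a + a * (D * a)) * (‖u‖ + 1) := by
            have h3 : 0 ≤ (a * ρ + a ^ 2 + a) * ‖u‖ := by positivity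
            nlinarith
          have h4 : (D * (‖u‖ + 1)) * (a * (ρ + (D * (‖u‖ + 1)) * a) + a ^ 2 + a) ≤
              C * (‖u‖ + 1) ^ 2 := by
            calc _ ≤ (D * (‖u‖ + 1)) * ((a * ρ + a ^ 2 + a + a * (D * a)) * (‖u‖ + 1)) := by
                  gcongr
              _ = _ := by rw [hC]; ring
          have h5 : C * (‖u‖ + 1) ^ 2 ≤ 2 * C + 2 * C * ‖u‖ ^ 2 := by
            nlinarith [mul_nonneg hC0 (sq_nonneg (‖u‖ - 1))]
          linarith
        · exact hS y (by simpa using hyρ)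
    _ = S * Real.exp (2 * C) * Real.exp (2 * C * ‖u‖ ^ 2) := by
        rw [Real.exp_add]; ring

theorem ThetaExp.differentiable {n m : ℕ} {A : Matrix (Fin n) (Fin n) ℂ}
    {V : Matrix (Fin m) (Fin n) ℂ} {ω L : Fin (2 * m) → Fin m → ℂ} {h : (Fin n → ℂ) → ℂ}
    (hh : ThetaExp A V ω L h) : Differentiable ℂ h := by
  obtain ⟨k, P, μ, α, θ, hθ, hf⟩ := hh
  have hV : Differentiable ℂ (fun x : Fin n → ℂ => V.mulVec x) :=
    (LinearMap.toContinuousLinearMap (Matrix.mulVecLin V)).differentiable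
  have : h = fun x => Complex.exp (∑ i, ∑ j, A i j * x i * x j) *
      ∑ j, MvPolynomial.eval x (P j) * Complex.exp (∑ i, μ j i * x i) *
        pd (α j) (θ j) (V.mulVec x) := funext hf
  rw [this]
  apply Differentiable.fun_mul
  · fun_prop
  · apply Differentiable.fun_sum
    intro j _
    apply Differentiable.fun_mul
    · apply Differentiable.fun_mul
      · exact Gr.differentiable_poly _
      · fun_prop
    · exact (pd_differentiable (α j) (hθ j).1).comp hV

/-- growth -/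
theorem ThetaExp.orderTwo {n m : ℕ} {A : Matrix (Fin n) (Fin n) ℂ} {V : Matrix (Fin m) (Fin n) ℂ}
    {ω L : Fin (2 * m) → Fin m → ℂ} (hω : LinearIndependent ℝ ω) {h : (Fin n → ℂ) → ℂ}
    (hh : ThetaExp A V ω L h) : OrderTwo h := by
  obtain ⟨k, P, μ, α, θ, hθ, hf⟩ := hh
  have : h = fun x => Complex.exp (∑ i, ∑ j, A i j * x i * x j) *
      ∑ j, MvPolynomial.eval x (P j) * Complex.exp (∑ i, μ j i * x i) *
        pd (α j) (θ j) (V.mulVec x) := funext hf
  rw [this, Gr.orderTwo_iff]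
  apply Gr.O2.mul
  · apply Gr.O2.exp (a := 0) (b := ∑ i, ∑ j, ‖A i j‖)
      (Finset.sum_nonneg fun i _ => Finset.sum_nonneg fun j _ => norm_nonneg _)
    intro z
    rw [zero_add, Finset.sum_mul]
    refine (norm_sum_le _ _).trans (Finset.sum_le_sum fun i _ => ?_)
    rw [Finset.sum_mul]
    refine (norm_sum_le _ _).trans (Finset.sum_le_sum fun j _ => ?_)
    rw [norm_mul, norm_mul, sq, mul_assoc]
    have h1 := norm_le_pi_norm z i
    have h2 := norm_le_pi_norm z j
    gcongr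
  · apply Gr.O2.sum
    intro j _
    apply Gr.O2.mul
    · apply Gr.O2.mul
      · exact Gr.O2.poly _
      · apply Gr.O2.exp (a := ∑ i, ‖μ j i‖) (b := ∑ i, ‖μ j i‖)
          (Finset.sum_nonneg fun i _ => norm_nonneg _)
        intro z
        rw [Finset.sum_mul, ← Finset.sum_add_distrib]
        refine (norm_sum_le _ _).trans (Finset.sum_le_sum fun i _ => ?_)
        rw [norm_mul]
        have h1 := norm_le_pi_norm z i
        have h2 : ‖z i‖ ≤ 1 + ‖z‖ ^ 2 := by
          nlinarith [sq_nonneg (‖z‖ - 1), norm_nonneg z]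
        calc ‖μ j i‖ * ‖z i‖ ≤ ‖μ j i‖ * (1 + ‖z‖ ^ 2) := by gcongr
          _ = _ := by ring
    · let T : (Fin n → ℂ) →L[ℂ] (Fin m → ℂ) := LinearMap.toContinuousLinearMap (Matrix.mulVecLin V)
      refine Gr.O2.comp_bound (pd_O2 (α j) (hθ j).1 (IsTheta.O2 hω (hθ j)))
        (T := fun x => V.mulVec x) (a := ‖T‖) (b := 0) (norm_nonneg _) le_rfl fun z => ?_
      rw [add_zero]
      exact T.le_opNorm z

end Pool.Agent.Lib.MP_db21fa_an.TF
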