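import Pool.Agent.Lib.MP_db21fa_an.TF.Defs

/-!
Module A: linear algebra of kernels of finite rank.
-/

set_option autoImplicit false

open Filter Topology

namespace Pool.Agent.Lib.MP_db21fa_an.TF

variable {X Y X' Y' : Type*} {K L : X → Y → ℂ} {N M : ℕ}

private theorem rankLE_of_fintype {ι : Type*} [Fintype ι] (f : ι → X → ℂ) (g : ι → Y → ℂ)
    (h : ∀ x y, K x y = ∑ j, f j x * g j y) : RankLE K (Fintype.card ι) := by
  refine ⟨fun j => f ((Fintype.equivFin ι).symm j), fun j => g ((Fintype.equivFin ι).symm j),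
    fun x y => ?_⟩
  rw [h x y]
  exact ((Fintype.equivFin ι).symm.sum_comp (fun j => f j x * g j y)).symm

theorem RankLE.mono (h : RankLE K N) (hN : N ≤ M) : RankLE K M := by
  obtain ⟨f, g, hfg⟩ := h
  have := rankLE_of_fintype (K := K) (ι := Fin N ⊕ Fin (M - N)) (Sum.elim f (fun _ _ => 0))
    (Sum.elim g (fun _ _ => 0)) (fun x y => by simp [hfg x y])
  have hc : Fintype.card (Fin N ⊕ Fin (M - N)) = M := by
    simp; omega
  rwa [hc] at this

theorem RankLE.comp (h : RankLE K N) (f : X' → X) (g : Y' → Y) :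
    RankLE (fun x y => K (f x) (g y)) N := by
  obtain ⟨p, q, hpq⟩ := h
  exact ⟨fun j x => p j (f x), fun j y => q j (g y), fun x y => hpq _ _⟩

theorem RankLE.scale (h : RankLE K N) (α : X → ℂ) (β : Y → ℂ) :
    RankLE (fun x y => α x * β y * K x y) N := by
  obtain ⟨p, q, hpq⟩ := h
  refine ⟨fun j x => α x * p j x, fun j y => β y * q j y, fun x y => ?_⟩
  simp only [hpq, Finset.mul_sum]
  exact Finset.sum_congr rfl fun j _ => by ring

theorem RankLE.add (h : RankLE K N) (h' : RankLE L M) :
    RankLE (fun x y => K x y + L x y) (N + M) := by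
  obtain ⟨f, g, hfg⟩ := h
  obtain ⟨f', g', hfg'⟩ := h'
  have := rankLE_of_fintype (K := fun x y => K x y + L x y) (ι := Fin N ⊕ Fin M) (Sum.elim f f')
    (Sum.elim g g') (fun x y => by simp [hfg x y, hfg' x y])
  have hc : Fintype.card (Fin N ⊕ Fin M) = N + M := by simp
  rwa [hc] at this

theorem RankLE.mul (h : RankLE K N) (h' : RankLE L M) :
    RankLE (fun x y => K x y * L x y) (N * M) := by
  obtain ⟨f, g, hfg⟩ := h
  obtain ⟨f', g', hfg'⟩ := h'
  have := rankLE_of_fintype (K := fun x y => K x y * L x y) (ι := Fin N × Fin M)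
    (fun p x => f p.1 x * f' p.2 x) (fun p y => g p.1 y * g' p.2 y) (fun x y => by
      rw [hfg x y, hfg' x y, Finset.sum_mul_sum, Fintype.sum_prod_type]
      exact Finset.sum_congr rfl fun i _ => Finset.sum_congr rfl fun j _ => by ring)
  have hc : Fintype.card (Fin N × Fin M) = N * M := by simp
  rwa [hc] at this

theorem RankLE.swap (h : RankLE K N) : RankLE (fun y x => K x y) N := by
  obtain ⟨p, q, hpq⟩ := h
  exact ⟨q, p, fun y x => (hpq x y).trans (Finset.sum_congr rfl fun j _ => mul_comm _ _)⟩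

private theorem minor_eq_zero (h : RankLE K N) (a : Fin (N + 1) → X) (b : Fin (N + 1) → Y) :
    (mm K a b).det = 0 := by
  obtain ⟨f, g, hfg⟩ := h
  by_contra hd
  let F : Matrix (Fin (N + 1)) (Fin N) ℂ := Matrix.of fun i j => f j (a i)
  let G : Matrix (Fin N) (Fin (N + 1)) ℂ := Matrix.of fun j i => g j (b i)
  have hFG : mm K a b = F * G := by
    ext i j
    simp [mm, F, G, Matrix.mul_apply, hfg]
  have h1 : (mm K a b).rank = N + 1 := by
    have := Matrix.rank_of_isUnit (mm K a b) ((Matrix.isUnit_iff_isUnit_det _).2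
      (isUnit_iff_ne_zero.2 hd))
    simpa using this
  have h2 : (F * G).rank ≤ N := (Matrix.rank_mul_le_left F G).trans (by
    simpa using Matrix.rank_le_width F)
  rw [hFG] at h1
  omega

/-- the determinant of a bordered matrix -/
private theorem det_bordered (K : X → Y → ℂ) {r : ℕ} (a : Fin r → X) (b : Fin r → Y)
    (hd : (mm K a b).det ≠ 0) (x : X) (y : Y) :
    (mm K (Fin.snoc a x : Fin (r + 1) → X) (Fin.snoc b y : Fin (r + 1) → Y)).det =
      (mm K a b).det * (K x y - ∑ i, ∑ j, K x (b j) * (mm K a b)⁻¹ j i * K (a i) y) := by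
  classical
  have hu : IsUnit (mm K a b).det := isUnit_iff_ne_zero.2 hd
  letI : Invertible (mm K a b) := Matrix.invertibleOfIsUnitDet _ hu
  let e : Fin r ⊕ Fin 1 ≃ Fin (r + 1) := finSumFinEquiv
  rw [← Matrix.det_submatrix_equiv_self e]
  have hblock : (mm K (Fin.snoc a x : Fin (r + 1) → X) (Fin.snoc b y : Fin (r + 1) → Y)).submatrix
      e e = Matrix.fromBlocks (mm K a b) (Matrix.of fun i (_ : Fin 1) => K (a i) y)
        (Matrix.of fun (_ : Fin 1) j => K x (b j)) (Matrix.of fun _ _ => K x y) := by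
    have h1 : ∀ i : Fin r, e (Sum.inl i) = i.castSucc := fun i => by
      simp [e, finSumFinEquiv_apply_left, Fin.castSucc]
    have h2 : ∀ i : Fin 1, e (Sum.inr i) = Fin.last r := fun i => by
      have : i = 0 := Subsingleton.elim _ _
      subst this
      simp [e, finSumFinEquiv_apply_right]
      rfl
    ext i j
    rcases i with i | i <;> rcases j with j | j <;>
      simp [mm, Matrix.fromBlocks, h1, h2, Fin.snoc_castSucc, Fin.snoc_last]
  rw [hblock, Matrix.det_fromBlocks₁₁, Matrix.det_fin_one, Matrix.invOf_eq_nonsing_inv]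
  congr 1
  simp only [Matrix.sub_apply, Matrix.of_apply, Matrix.mul_apply, Finset.sum_mul]

private theorem formula_of_minors {r : ℕ}
    (h : ∀ (a : Fin (r + 1) → X) (b : Fin (r + 1) → Y), (mm K a b).det = 0)
    {a : Fin r → X} {b : Fin r → Y} (hd : (mm K a b).det ≠ 0) (x : X) (y : Y) :
    K x y = ∑ i, ∑ j, K x (b j) * (mm K a b)⁻¹ j i * K (a i) y := by
  have h1 := det_bordered K a b hd x y
  rw [h] at h1
  rcases mul_eq_zero.1 h1.symm with h2 | h2
  · exact absurd h2 hd
  · exact sub_eq_zero.1 h2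

private theorem rankLE_of_minors (N : ℕ) :
    (∀ (a : Fin (N + 1) → X) (b : Fin (N + 1) → Y), (mm K a b).det = 0) → RankLE K N := by
  induction N with
  | zero =>
    intro h
    have hd : (mm K (Fin.elim0 : Fin 0 → X) (Fin.elim0 : Fin 0 → Y)).det ≠ 0 := by simp
    refine ⟨fun j => Fin.elim0 j, fun j => Fin.elim0 j, fun x y => ?_⟩
    rw [formula_of_minors h hd x y]
    simp
  | succ n ih =>
    intro h
    by_cases h0 : ∀ (a : Fin (n + 1) → X) (b : Fin (n + 1) → Y), (mm K a b).det = 0
    · exact (ih h0).mono (Nat.le_succ n)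
    · push Not at h0
      obtain ⟨a, b, hd⟩ := h0
      refine ⟨fun i x => ∑ j, K x (b j) * (mm K a b)⁻¹ j i, fun i y => K (a i) y,
        fun x y => ?_⟩
      rw [formula_of_minors h hd x y]
      exact Finset.sum_congr rfl fun i _ => by rw [Finset.sum_mul]

/-- rank at most `N` iff all `(N+1)`-minors vanish -/
theorem rankLE_iff_minors : RankLE K N ↔
    ∀ (a : Fin (N + 1) → X) (b : Fin (N + 1) → Y), (mm K a b).det = 0 :=
  ⟨minor_eq_zero, rankLE_of_minors N⟩

theorem FR.exists_rankEq (h : FR K) : ∃ N, RankEq K N := by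
  classical
  exact ⟨Nat.find h, Nat.find_spec h, fun n hn => Nat.find_min' h hn⟩

theorem RankEq.exists_minor (h : RankEq K N) :
    ∃ (a : Fin N → X) (b : Fin N → Y), (mm K a b).det ≠ 0 := by
  rcases Nat.eq_zero_or_pos N with h0 | h0
  · subst h0
    exact ⟨Fin.elim0, Fin.elim0, by simp⟩
  · obtain ⟨k, rfl⟩ : ∃ k, N = k + 1 := ⟨N - 1, by omega⟩
    by_contra hcon
    push Not at hcon
    have := h.2 k (rankLE_of_minors k hcon)
    omega

theorem rankEq_of_minor (h : RankLE K N) {a : Fin N → X} {b : Fin N → Y}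
    (hd : (mm K a b).det ≠ 0) : RankEq K N := by
  refine ⟨h, fun n hn => ?_⟩
  by_contra hlt
  push Not at hlt
  obtain ⟨k, rfl⟩ : ∃ k, N = k + 1 := ⟨N - 1, by omega⟩
  exact hd (minor_eq_zero (hn.mono (by omega)) a b)

/-- **the rank formula** -/
theorem rank_formula (h : RankLE K N) {a : Fin N → X} {b : Fin N → Y}
    (hd : (mm K a b).det ≠ 0) (x : X) (y : Y) :
    K x y = ∑ i, ∑ j, K x (b j) * (mm K a b)⁻¹ j i * K (a i) y :=
  formula_of_minors (minor_eq_zero h) hd x y

theorem mem_rowSp_iff (h : RankLE K N) {a : Fin N → X} {b : Fin N → Y}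
    (hd : (mm K a b).det ≠ 0) (f : Y → ℂ) :
    f ∈ rowSp K ↔ ∀ y, f y = ∑ i, ∑ j, f (b j) * (mm K a b)⁻¹ j i * K (a i) y := by
  constructor
  · intro hf
    refine Submodule.span_induction (p := fun f _ => ∀ y, f y =
      ∑ i, ∑ j, f (b j) * (mm K a b)⁻¹ j i * K (a i) y) ?_ ?_ ?_ ?_ hf
    · rintro _ ⟨x, rfl⟩ y
      exact rank_formula h hd x y
    · intro y
      simp
    · intro u v _ _ hu hv y
      simp only [Pi.add_apply, add_mul, Finset.sum_add_distrib]
      rw [← hu y, ← hv y]
    · intro c u _ hu y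
      simp only [Pi.smul_apply, smul_eq_mul, mul_assoc, ← Finset.mul_sum]
      simp only [mul_assoc, ← Finset.mul_sum] at hu
      rw [← hu y]
  · intro hf
    have : f = ∑ i, (∑ j, f (b j) * (mm K a b)⁻¹ j i) • K (a i) := by
      funext y
      rw [hf y]
      simp [Finset.sum_apply, Finset.sum_mul]
    rw [this]
    exact Submodule.sum_mem _ fun i _ => Submodule.smul_mem _ _
      (Submodule.subset_span ⟨a i, rfl⟩)

theorem mem_colSp_iff (h : RankLE K N) {a : Fin N → X} {b : Fin N → Y}
    (hd : (mm K a b).det ≠ 0) (f : X → ℂ) :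
    f ∈ colSp K ↔ ∀ x, f x = ∑ i, ∑ j, K x (b j) * (mm K a b)⁻¹ j i * f (a i) := by
  constructor
  · intro hf
    refine Submodule.span_induction (p := fun f _ => ∀ x, f x =
      ∑ i, ∑ j, K x (b j) * (mm K a b)⁻¹ j i * f (a i)) ?_ ?_ ?_ ?_ hf
    · rintro _ ⟨y, rfl⟩ x
      exact rank_formula h hd x y
    · intro x
      simp
    · intro u v _ _ hu hv x
      simp only [Pi.add_apply, mul_add, Finset.sum_add_distrib]
      rw [← hu x, ← hv x]
    · intro c u _ hu x
      have : ∀ i j, K x (b j) * (mm K a b)⁻¹ j i * (c • u) (a i) =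
          c * (K x (b j) * (mm K a b)⁻¹ j i * u (a i)) := fun i j => by
        simp only [Pi.smul_apply, smul_eq_mul]; ring
      simp only [this, ← Finset.mul_sum]
      rw [← hu x]
      rfl
  · intro hf
    have : f = ∑ j, (∑ i, (mm K a b)⁻¹ j i * f (a i)) • (fun x => K x (b j)) := by
      funext x
      rw [hf x, Finset.sum_comm]
      simp only [Finset.sum_apply, Pi.smul_apply, smul_eq_mul, Finset.sum_mul]
      exact Finset.sum_congr rfl fun j _ => Finset.sum_congr rfl fun i _ => by ring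
    rw [this]
    exact Submodule.sum_mem _ fun j _ => Submodule.smul_mem _ _
      (Submodule.subset_span ⟨b j, rfl⟩)

private theorem rowSp_le_span {f : Fin N → X → ℂ} {g : Fin N → Y → ℂ}
    (hfg : ∀ x y, K x y = ∑ j, f j x * g j y) :
    rowSp K ≤ Submodule.span ℂ (Set.range g) := by
  refine Submodule.span_le.2 ?_
  rintro _ ⟨x, rfl⟩
  have : K x = ∑ j, f j x • g j := by
    funext y
    simp [hfg, Finset.sum_apply]
  rw [this]
  exact Submodule.sum_mem _ fun j _ => Submodule.smul_mem _ _ (Submodule.subset_span ⟨j, rfl⟩)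

theorem finiteDimensional_rowSp (h : RankLE K N) : FiniteDimensional ℂ (rowSp K) := by
  obtain ⟨f, g, hfg⟩ := h
  have : FiniteDimensional ℂ (Submodule.span ℂ (Set.range g)) :=
    FiniteDimensional.span_of_finite ℂ (Set.finite_range g)
  exact Submodule.finiteDimensional_of_le (rowSp_le_span hfg)

private theorem finrank_rowSp_le (h : RankLE K N) : Module.finrank ℂ (rowSp K) ≤ N := by
  obtain ⟨f, g, hfg⟩ := h
  have : FiniteDimensional ℂ (Submodule.span ℂ (Set.range g)) :=
    FiniteDimensional.span_of_finite ℂ (Set.finite_range g)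
  refine (Submodule.finrank_mono (rowSp_le_span hfg)).trans ?_
  have h1 := finrank_range_le_card (R := ℂ) g
  rw [Fintype.card_fin] at h1
  exact h1

private theorem rankLE_of_mem (W : Submodule ℂ (Y → ℂ)) [FiniteDimensional ℂ W]
    (h : ∀ x, K x ∈ W) : RankLE K (Module.finrank ℂ W) := by
  let B := Module.finBasis ℂ W
  refine ⟨fun j x => B.repr ⟨K x, h x⟩ j, fun j => (B j : Y → ℂ), fun x y => ?_⟩
  have h1 := B.sum_repr ⟨K x, h x⟩
  have h2 := congrArg (fun w : W => (w : Y → ℂ) y) h1
  simp only [Submodule.coe_sum, Submodule.coe_smul, Finset.sum_apply, Pi.smul_apply,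
    smul_eq_mul] at h2
  exact h2.symm

theorem finrank_rowSp (h : RankEq K N) : Module.finrank ℂ (rowSp K) = N := by
  have := finiteDimensional_rowSp h.1
  refine le_antisymm (finrank_rowSp_le h.1) (h.2 _ (rankLE_of_mem (rowSp K) fun x => ?_))
  exact Submodule.subset_span ⟨x, rfl⟩

theorem rankLE_of_rowSp_le (h : RankLE K N) (hle : rowSp L ≤ rowSp K) : RankLE L N := by
  have := finiteDimensional_rowSp h
  exact (rankLE_of_mem (rowSp K) fun x => hle (Submodule.subset_span ⟨x, rfl⟩)).mono
    (finrank_rowSp_le h)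

/-- if `rowSp L ≤ rowSp K` and the ranks are equal, the spaces are equal -/
theorem rowSp_eq_of_le (h : RankLE K N) (h' : RankEq L N) (hle : rowSp L ≤ rowSp K) :
    rowSp L = rowSp K := by
  have := finiteDimensional_rowSp h
  refine Submodule.eq_of_le_of_finrank_le hle ?_
  rw [finrank_rowSp h']
  exact finrank_rowSp_le h

/-- limits -/
theorem rankLE_of_tendsto {Kj : ℕ → X → Y → ℂ} (h : ∀ j, RankLE (Kj j) N)
    (hlim : ∀ x y, Tendsto (fun j => Kj j x y) atTop (𝓝 (K x y))) : RankLE K N := by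
  rw [rankLE_iff_minors]
  intro a b
  have h1 : Tendsto (fun j => mm (Kj j) a b) atTop (𝓝 (mm K a b)) := by
    refine tendsto_pi_nhds.2 fun i => tendsto_pi_nhds.2 fun l => ?_
    exact hlim (a i) (b l)
  have h2 : Tendsto (fun j => (mm (Kj j) a b).det) atTop (𝓝 (mm K a b).det) :=
    ((Continuous.matrix_det continuous_id).tendsto _).comp h1
  have h3 : (fun j => (mm (Kj j) a b).det) = fun _ => (0 : ℂ) := by
    funext j
    exact minor_eq_zero (h j) a b
  rw [h3] at h2
  exact tendsto_nhds_unique h2 tendsto_const_nhds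

/-- a linearly independent finite family of functions has a nonvanishing determinant -/
theorem exists_det_ne_zero {T : Type*} {r : ℕ} (f : Fin r → T → ℂ) (hf : LinearIndependent ℂ f) :
    ∃ t : Fin r → T, (Matrix.of fun i j => f j (t i)).det ≠ 0 := by
  classical
  rcases Nat.eq_zero_or_pos r with h0 | h0
  · subst h0
    exact ⟨Fin.elim0, by simp⟩
  · obtain ⟨k, rfl⟩ : ∃ k, r = k + 1 := ⟨r - 1, by omega⟩
    have h1 : ¬ RankLE f k := by
      intro h
      have h2 := finrank_rowSp_le h
      have h3 : Module.finrank ℂ (rowSp f) = k + 1 := by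
        have := finrank_span_eq_card hf
        rw [Fintype.card_fin] at this
        exact this
      omega
    rw [rankLE_iff_minors] at h1
    push Not at h1
    obtain ⟨a, b, hd⟩ := h1
    refine ⟨b, fun hcon => hd ?_⟩
    have h4 : mm f a b = (Matrix.of fun i j : Fin (k + 1) => if a i = j then (1 : ℂ) else 0) *
        (Matrix.of fun i j => f j (b i)).transpose := by
      ext i j
      simp [mm, Matrix.mul_apply]
    rw [h4, Matrix.det_mul, Matrix.det_transpose, hcon, mul_zero]

/-- bordered minors: if all bordered minors vanish, then `g` is a combination of the `f j`, with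
coefficients given by Cramer's rule -/
theorem eq_of_bordered {T : Type*} {r : ℕ} (f : Fin r → T → ℂ) (g : T → ℂ)
    (hb : ∀ t : Fin (r + 1) → T, (Matrix.of fun i (j : Fin (r + 1)) =>
      (Fin.snoc (fun j => f j (t i)) (g (t i)) : Fin (r + 1) → ℂ) j).det = 0)
    {t : Fin r → T} (ht : (Matrix.of fun i j => f j (t i)).det ≠ 0) (s : T) :
    g s = ∑ j, ∑ i, f j s * (Matrix.of fun i j => f j (t i))⁻¹ j i * g (t i) := by
  let K : T → Fin (r + 1) → ℂ := fun u => (Fin.snoc (fun j => f j u) (g u) : Fin (r + 1) → ℂ)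
  have hM : mm K t Fin.castSucc = Matrix.of fun i j => f j (t i) := by
    ext i j
    simp [mm, K, Fin.snoc_castSucc]
  have h1 := det_bordered K t Fin.castSucc (by rw [hM]; exact ht) s (Fin.last r)
  have h2 : mm K (Fin.snoc t s : Fin (r + 1) → T)
      (Fin.snoc Fin.castSucc (Fin.last r) : Fin (r + 1) → Fin (r + 1)) =
      Matrix.of fun i (j : Fin (r + 1)) =>
        (Fin.snoc (fun j => f j ((Fin.snoc t s : Fin (r + 1) → T) i))
          (g ((Fin.snoc t s : Fin (r + 1) → T) i)) : Fin (r + 1) → ℂ) j := by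
    have h3 : (Fin.snoc Fin.castSucc (Fin.last r) : Fin (r + 1) → Fin (r + 1)) = id := by
      funext j
      refine Fin.lastCases ?_ (fun i => ?_) j
      · simp
      · simp
    rw [h3]
    rfl
  rw [h2, hb, hM] at h1
  rcases mul_eq_zero.1 h1.symm with h4 | h4
  · exact absurd h4 ht
  · have h5 := sub_eq_zero.1 h4
    have h6 : K s (Fin.last r) = g s := by simp [K]
    rw [h6] at h5
    rw [h5, Finset.sum_comm]
    refine Finset.sum_congr rfl fun j _ => Finset.sum_congr rfl fun i _ => ?_
    simp [K, Fin.snoc_castSucc]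

end Pool.Agent.Lib.MP_db21fa_an.TF
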