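import Pool.Agent.Lib.MP_db21fa_an.TF.FinalDefs
import Pool.Agent.Lib.MP_db21fa_an.TF.LinAlg
import Pool.Agent.Lib.MP_db21fa_an.TF.GrowthAux

/-!
Module X4: entire factors of order-two growth.
-/

set_option autoImplicit false

open Filter Topology Metric

namespace Pool.Agent.Lib.MP_db21fa_an.TF

private theorem good_row {n : ℕ} {h b : (Fin n → ℂ) → ℂ} (hh : Differentiable ℂ h)
    (hb : Differentiable ℂ b) (hh2 : OrderTwo h) (hb2 : OrderTwo b) (a : Fin n → ℂ) :
    Differentiable ℂ (fun y => PK h b a y) ∧ OrderTwo (fun y => PK h b a y) := by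
  constructor
  · exact (hh.comp (by fun_prop : Differentiable ℂ fun y : Fin n → ℂ => a - y)).fun_mul
      (hb.comp (by fun_prop : Differentiable ℂ fun y : Fin n → ℂ => a + y))
  · rw [Gr.orderTwo_iff] at *
    refine Gr.O2.mul (hh2.comp_bound (T := fun y => a - y) (a := 1) (b := ‖a‖) zero_le_one
      (norm_nonneg _) fun y => ?_) (hb2.comp_bound (T := fun y => a + y) (a := 1) (b := ‖a‖)
      zero_le_one (norm_nonneg _) fun y => ?_)
    · have := norm_sub_le a y
      linarith
    · have := norm_add_le a y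
      linarith

private theorem good_col {n : ℕ} {h b : (Fin n → ℂ) → ℂ} (hh : Differentiable ℂ h)
    (hb : Differentiable ℂ b) (hh2 : OrderTwo h) (hb2 : OrderTwo b) (a : Fin n → ℂ) :
    Differentiable ℂ (fun x => PK h b x a) ∧ OrderTwo (fun x => PK h b x a) := by
  constructor
  · exact (hh.comp (by fun_prop : Differentiable ℂ fun y : Fin n → ℂ => y - a)).fun_mul
      (hb.comp (by fun_prop : Differentiable ℂ fun y : Fin n → ℂ => y + a))
  · rw [Gr.orderTwo_iff] at *
    refine Gr.O2.mul (hh2.comp_bound (T := fun y => y - a) (a := 1) (b := ‖a‖) zero_le_one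
      (norm_nonneg _) fun y => ?_) (hb2.comp_bound (T := fun y => y + a) (a := 1) (b := ‖a‖)
      zero_le_one (norm_nonneg _) fun y => ?_)
    · have := norm_sub_le y a
      linarith
    · have := norm_add_le y a
      linarith

/-- the factors can be chosen entire and of order-two growth -/
theorem exists_solution {n N : ℕ} {h b : (Fin n → ℂ) → ℂ} (hh : Differentiable ℂ h)
    (hb : Differentiable ℂ b) (hh2 : OrderTwo h) (hb2 : OrderTwo b) (hr : RankLE (PK h b) N) :
    ∃ f g : Fin N → (Fin n → ℂ) → ℂ, IsSolution h b f g := by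
  obtain ⟨r, hrk⟩ := FR.exists_rankEq ⟨N, hr⟩
  obtain ⟨k, rfl⟩ : ∃ k, N = r + k := ⟨N - r, by have := hrk.2 N hr; omega⟩
  obtain ⟨a, b', hd⟩ := hrk.exists_minor
  set M := (mm (PK h b) a b')⁻¹ with hM
  have hz : Differentiable ℂ (fun _ : Fin n → ℂ => (0 : ℂ)) ∧
      OrderTwo (fun _ : Fin n → ℂ => (0 : ℂ)) :=
    ⟨by fun_prop, 0, 0, fun z => by simp⟩
  have hg : ∀ j : Fin r, Differentiable ℂ (fun y => ∑ i, M j i * PK h b (a i) y) ∧
      OrderTwo (fun y => ∑ i, M j i * PK h b (a i) y) := by
    intro j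
    constructor
    · apply Differentiable.fun_sum
      intro i _
      exact (good_row hh hb hh2 hb2 (a i)).1.const_mul _
    · rw [Gr.orderTwo_iff]
      apply Gr.O2.sum
      intro i _
      exact (Gr.orderTwo_iff.mp (good_row hh hb hh2 hb2 (a i)).2).const_mul _
  refine ⟨Fin.append (fun j x => PK h b x (b' j)) (fun _ _ => 0),
    Fin.append (fun j y => ∑ i, M j i * PK h b (a i) y) (fun _ _ => 0), ⟨hh, hh2⟩, ⟨hb, hb2⟩,
    ?_, ?_, ?_⟩
  · intro j
    refine Fin.addCases (fun i => ?_) (fun i => ?_) j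
    · rw [Fin.append_left]; exact good_col hh hb hh2 hb2 _
    · rw [Fin.append_right]; exact hz
  · intro j
    refine Fin.addCases (fun i => ?_) (fun i => ?_) j
    · rw [Fin.append_left]; exact hg i
    · rw [Fin.append_right]; exact hz
  · intro x y
    rw [Fin.sum_univ_add]
    simp only [Fin.append_left, Fin.append_right, mul_zero, Finset.sum_const_zero, add_zero]
    change PK h b x y = _
    rw [rank_formula hrk.1 hd x y, Finset.sum_comm]
    apply Finset.sum_congr rfl
    intro j _
    rw [Finset.mul_sum]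
    apply Finset.sum_congr rfl
    intro i _
    rw [mul_assoc]

end Pool.Agent.Lib.MP_db21fa_an.TF
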