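import Pool.Agent.Lib.MP_db21fa_an.TF.Forward
import Pool.Agent.Lib.MP_db21fa_an.TF.Converse
import Pool.Agent.Lib.MP_db21fa_an.TF.Growth
import Pool.Agent.Lib.MP_db21fa_an.TF.Solution

/-!
Main theorem.
-/

set_option autoImplicit false

open Filter Topology Metric

namespace Pool.Agent.Lib.MP_db21fa_an.TF

/-- **main theorem** -/
theorem classification {n : ℕ} (h b : (Fin n → ℂ) → ℂ) (hh : Differentiable ℂ h)
    (hb : Differentiable ℂ b) (hh0 : h ≠ 0) (hb0 : b ≠ 0) :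
    ((∃ (N : ℕ) (f g : Fin N → (Fin n → ℂ) → ℂ), IsSolution h b f g) ↔
      ∃ (m : ℕ) (A : Matrix (Fin n) (Fin n) ℂ) (V : Matrix (Fin m) (Fin n) ℂ)
        (ω L : Fin (2 * m) → Fin m → ℂ), LinearIndependent ℝ ω ∧ ThetaExp A V ω L h ∧
        ThetaExp A V ω L b) := by
  constructor
  · rintro ⟨N, f, g, hs⟩
    exact forward hh hb hh0 hb0 ⟨N, f, g, hs.2.2.2.2⟩
  · rintro ⟨m, A, V, ω, L, hω, h1, h2⟩
    obtain ⟨N, hN⟩ := converse hω h1 h2
    obtain ⟨f, g, hfg⟩ := exists_solution hh hb (h1.orderTwo hω) (h2.orderTwo hω) hN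
    exact ⟨N, f, g, hfg⟩

end Pool.Agent.Lib.MP_db21fa_an.TF
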