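import Pool.Agent.Lib.MP_db21fa_an.TF.Scalar

/-!
Definitions of the final statement.
-/

set_option autoImplicit false

open Filter Topology Metric

namespace Pool.Agent.Lib.MP_db21fa_an.TF

/-- order-two growth -/
def OrderTwo {n : ℕ} (F : (Fin n → ℂ) → ℂ) : Prop :=
  ∃ A c : ℝ, ∀ z, ‖F z‖ ≤ A * Real.exp (c * ∑ i, ‖z i‖ ^ 2)

/-- `(h, b, f, g)` is a solution of `(1)_N` on `ℂ ^ n` -/
def IsSolution {n N : ℕ} (h b : (Fin n → ℂ) → ℂ) (f g : Fin N → (Fin n → ℂ) → ℂ) : Prop :=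
  (Differentiable ℂ h ∧ OrderTwo h) ∧ (Differentiable ℂ b ∧ OrderTwo b) ∧
  (∀ j, Differentiable ℂ (f j) ∧ OrderTwo (f j)) ∧ (∀ j, Differentiable ℂ (g j) ∧ OrderTwo (g j)) ∧
  ∀ x y, h (x - y) * b (x + y) = ∑ j, f j x * g j y

/-- `θ` is a theta function with period vectors `ω i` and linear forms `L i` -/
def IsTheta {m : ℕ} (ω L : Fin (2 * m) → Fin m → ℂ) (θ : (Fin m → ℂ) → ℂ) : Prop :=
  Differentiable ℂ θ ∧ ∃ c : Fin (2 * m) → ℂ, ∀ i u,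
    θ (u + ω i) = Complex.exp (∑ j, L i j * u j + c i) * θ u

/-- the class of functions attached to `(A, V, ω, L)` -/
def ThetaExp {n m : ℕ} (A : Matrix (Fin n) (Fin n) ℂ) (V : Matrix (Fin m) (Fin n) ℂ)
    (ω L : Fin (2 * m) → Fin m → ℂ) (f : (Fin n → ℂ) → ℂ) : Prop :=
  ∃ (k : ℕ) (P : Fin k → MvPolynomial (Fin n) ℂ) (μ : Fin k → Fin n → ℂ)
    (α : Fin k → List (Fin m)) (θ : Fin k → (Fin m → ℂ) → ℂ), (∀ j, IsTheta ω L (θ j)) ∧
    ∀ x, f x = Complex.exp (∑ i, ∑ j, A i j * x i * x j) *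
      ∑ j, MvPolynomial.eval x (P j) * Complex.exp (∑ i, μ j i * x i) *
        pd (α j) (θ j) (V.mulVec x)

end Pool.Agent.Lib.MP_db21fa_an.TF
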