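import Pool.Agent.Lib.MP_db21fa_an.TF.TwoThree
import Pool.Agent.Lib.MP_db21fa_an.TF.Approach
import Pool.Agent.Lib.MP_db21fa_an.TF.Qode
import Pool.Agent.Lib.MP_db21fa_an.TF.Euler
import Pool.Agent.Lib.MP_db21fa_an.TF.Doubling
import Pool.Agent.Lib.MP_db21fa_an.H68.FlowK

/-!
Module I: the flow in the secant direction, and the extension of `p` to one more variable.
-/

set_option autoImplicit false

open Filter Topology Metric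

namespace Pool.Agent.Lib.MP_db21fa_an.TF

variable {E : Type*} [NormedAddCommGroup E] [NormedSpace ℂ E] [FiniteDimensional ℂ E]

/-- local flow -/
theorem flow_local {p : E → ℂ} {N : ℕ} (hp : Differentiable ℂ p) (hp0 : p 0 = 1)
    (hr : RankEq (PK p p) N) {β : ℕ → E} {c : ℕ → ℂ} {l : ℕ → E →L[ℂ] ℂ} {ε : ℕ → ℝ} {η : E → ℂ}
    (hA : Approach p β c l ε η) {a b : Fin N → E} (hdet : (mm (PK p p) a b).det ≠ 0) {R : ℝ}
    (hR : 0 < R) (ha : ∀ i, 2 * ‖a i‖ < R) (hb : ∀ i, 2 * ‖b i‖ < R) :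
    ∃ (T : ℝ) (P : E × ℂ → ℂ), 0 < T ∧ DifferentiableOn ℂ P (ball 0 R ×ˢ ball 0 T) ∧
      (∀ x ∈ ball (0 : E) R, P (x, 0) = p x) ∧
      (∀ x ∈ ball (0 : E) R, HasDerivAt (fun t : ℂ => P (x, t)) (η x) 0) ∧
      ∀ᶠ Z : (E × ℂ) × (E × ℂ) in 𝓝 0,
        P (Z.1 - Z.2) * P (Z.1 + Z.2) = KRhs (mm (PK p p) a b)⁻¹ a b P Z.1 Z.2 :=
  H68.flow_local' hp hp0 hr.1 hA hdet hR ha hb

/-- the extension of `p` in the secant direction -/
theorem flow {p : E → ℂ} {N : ℕ} (hp : Differentiable ℂ p) (hp0 : p 0 = 1)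
    (hr : RankEq (PK p p) N) {β : ℕ → E} {c : ℕ → ℂ} {l : ℕ → E →L[ℂ] ℂ} {ε : ℕ → ℝ} {η : E → ℂ}
    (hA : Approach p β c l ε η) :
    ∃ P : E × ℂ → ℂ, Differentiable ℂ P ∧ RankLE (PK P P) N ∧ (∀ x, P (x, 0) = p x) ∧
      ∀ x, HasDerivAt (fun t : ℂ => P (x, t)) (η x) 0 :=
  H68.flow' hp hp0 hr hA

end Pool.Agent.Lib.MP_db21fa_an.TF
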