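import Pool.Agent.Lib.MP_db21fa_an.TF.Cx

/-!
Module L1: quotients by degenerate directions.
-/

set_option autoImplicit false

open Filter Topology Metric

namespace Pool.Agent.Lib.MP_db21fa_an.TF

/-- solution of the equation `∂_c p = (l + γ) p` along the lines in the direction `c` -/
private theorem flow_formula {E : Type*} [NormedAddCommGroup E] [NormedSpace ℂ E] {p : E → ℂ}
    (hp : Differentiable ℂ p) {c : E} {l : E →L[ℂ] ℂ} {γ : ℂ}
    (h : ∀ u, fderiv ℂ p u c = (l u + γ) * p u) (w : E) (t : ℂ) :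
    p (w + t • c) = Complex.exp (t * l w + t ^ 2 * l c / 2 + γ * t) * p w := by
  let F : ℂ → ℂ := fun t => Complex.exp (-(t * l w + t ^ 2 * l c / 2 + γ * t)) * p (w + t • c)
  have hF : ∀ t, HasDerivAt F 0 t := by
    intro t
    have h1 : HasDerivAt (fun t : ℂ => w + t • c) c t := by
      simpa using ((hasDerivAt_id t).smul_const c).const_add w
    have h2 : HasDerivAt (fun t : ℂ => p (w + t • c)) (fderiv ℂ p (w + t • c) c) t :=
      (hp (w + t • c)).hasFDerivAt.comp_hasDerivAt t h1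
    rw [h] at h2
    have h3 : HasDerivAt (fun t : ℂ => -(t * l w + t ^ 2 * l c / 2 + γ * t))
        (-(l w + t * l c + γ)) t := by
      have e1 : HasDerivAt (fun t : ℂ => t * l w) (l w) t := by
        simpa using (hasDerivAt_id t).mul_const (l w)
      have e2 : HasDerivAt (fun t : ℂ => t ^ 2 * l c / 2) (t * l c) t := by
        refine (((hasDerivAt_pow 2 t).mul_const (l c)).div_const 2).congr_deriv ?_
        norm_num
        ring
      have e3 : HasDerivAt (fun t : ℂ => γ * t) γ t := by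
        simpa using (hasDerivAt_id t).const_mul γ
      exact ((e1.add e2).add e3).neg
    have h5 : l (w + t • c) = l w + t * l c := by rw [map_add, map_smul, smul_eq_mul]
    rw [h5] at h2
    exact (h3.cexp.mul h2).congr_deriv (by ring)
  have hc : F t = F 0 := is_const_of_deriv_eq_zero (fun t => (hF t).differentiableAt)
    (fun t => (hF t).deriv) t 0
  simp only [F, zero_mul, zero_smul, add_zero, ne_eq, OfNat.ofNat_ne_zero, not_false_eq_true,
    zero_pow, zero_div, mul_zero, neg_zero, Complex.exp_zero, one_mul] at hc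
  rw [← hc, ← mul_assoc, ← Complex.exp_add, add_neg_cancel, Complex.exp_zero, one_mul]

/-- degenerate directions can be divided out -/
theorem quotient {m : ℕ} {p : (Fin m → ℂ) → ℂ} (hp : Differentiable ℂ p) (hnd : ¬ NonDeg p) :
    ∃ (m' : ℕ) (π : (Fin m → ℂ) →L[ℂ] (Fin m' → ℂ)) (p' : (Fin m' → ℂ) → ℂ)
      (B : (Fin m → ℂ) →L[ℂ] (Fin m → ℂ) →L[ℂ] ℂ) (κ : (Fin m → ℂ) →L[ℂ] ℂ), m' < m ∧
      Function.Surjective π ∧ Differentiable ℂ p' ∧ ∀ u, p u = gs B κ u * p' (π u) := by
  simp only [NonDeg, not_forall] at hnd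
  obtain ⟨c, l, γ, h, hc⟩ := hnd
  obtain ⟨i, hi⟩ := Function.ne_iff.mp hc
  have hi' : c i ≠ 0 := hi
  let φ : (Fin m → ℂ) →L[ℂ] ℂ := (c i)⁻¹ • ContinuousLinearMap.proj i
  have hφc : φ c = 1 := by
    simp [φ, inv_mul_cancel₀ hi']
  have hm : 0 < m := Fin.pos i
  have hφs : Function.Surjective (φ : (Fin m → ℂ) →ₗ[ℂ] ℂ) := by
    intro z
    refine ⟨z • c, ?_⟩
    simp only [ContinuousLinearMap.coe_coe, map_smul, hφc, smul_eq_mul, mul_one]
  have hker : Module.finrank ℂ (LinearMap.ker (φ : (Fin m → ℂ) →ₗ[ℂ] ℂ)) = m - 1 := by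
    have h1 := LinearMap.finrank_range_add_finrank_ker (φ : (Fin m → ℂ) →ₗ[ℂ] ℂ)
    rw [LinearMap.range_eq_top.2 hφs, finrank_top, Module.finrank_self] at h1
    simp only [Module.finrank_fintype_fun_eq_card, Fintype.card_fin] at h1
    omega
  let e : LinearMap.ker (φ : (Fin m → ℂ) →ₗ[ℂ] ℂ) ≃L[ℂ] (Fin (m - 1) → ℂ) :=
    ContinuousLinearEquiv.ofFinrankEq (by rw [hker]; simp)
  let P : (Fin m → ℂ) →L[ℂ] LinearMap.ker (φ : (Fin m → ℂ) →ₗ[ℂ] ℂ) :=
    (ContinuousLinearMap.id ℂ (Fin m → ℂ) - φ.smulRight c).codRestrict _ (by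
      intro u
      rw [LinearMap.mem_ker]
      simp only [ContinuousLinearMap.coe_coe, ContinuousLinearMap.sub_apply,
        ContinuousLinearMap.id_apply, ContinuousLinearMap.smulRight_apply, map_sub, map_smul,
        hφc, smul_eq_mul, mul_one, sub_self])
  have hPu : ∀ u, ((P u : LinearMap.ker (φ : (Fin m → ℂ) →ₗ[ℂ] ℂ)) : Fin m → ℂ) =
      u - φ u • c := fun u => rfl
  refine ⟨m - 1, (e : _ →L[ℂ] (Fin (m - 1) → ℂ)).comp P,
    fun z => p ((e.symm z : LinearMap.ker (φ : (Fin m → ℂ) →ₗ[ℂ] ℂ)) : Fin m → ℂ),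
    φ.smulRight (l - (l c / 2) • φ), γ • φ, by omega, ?_, ?_, ?_⟩
  · intro z
    refine ⟨((e.symm z : LinearMap.ker (φ : (Fin m → ℂ) →ₗ[ℂ] ℂ)) : Fin m → ℂ), ?_⟩
    have h0 : φ ((e.symm z : LinearMap.ker (φ : (Fin m → ℂ) →ₗ[ℂ] ℂ)) : Fin m → ℂ) = 0 :=
      LinearMap.mem_ker.1 (e.symm z).2
    have h1 : P ((e.symm z : LinearMap.ker (φ : (Fin m → ℂ) →ₗ[ℂ] ℂ)) : Fin m → ℂ) = e.symm z := by
      apply Subtype.ext
      rw [hPu, h0, zero_smul, sub_zero]
    simp only [ContinuousLinearMap.coe_comp', Function.comp_apply, h1]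
    exact e.apply_symm_apply z
  · exact hp.comp (((LinearMap.ker (φ : (Fin m → ℂ) →ₗ[ℂ] ℂ)).subtypeL.differentiable).comp
      e.symm.differentiable)
  · intro u
    have h1 : e.symm (((e : _ →L[ℂ] (Fin (m - 1) → ℂ)).comp P) u) = P u := by
      simp only [ContinuousLinearMap.coe_comp', Function.comp_apply]
      exact e.symm_apply_apply (P u)
    have h2 := flow_formula hp h (u - φ u • c) (φ u)
    rw [sub_add_cancel] at h2
    rw [h2]
    simp only [h1, hPu, gs]
    congr 2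
    simp only [ContinuousLinearMap.smulRight_apply, ContinuousLinearMap.smul_apply,
      ContinuousLinearMap.sub_apply, smul_eq_mul, map_sub, map_smul]
    ring

/-- the quotient has cocompact periods if `p` has -/
theorem fullPer_quotient {m m' : ℕ} {p : (Fin m → ℂ) → ℂ} (hp : Differentiable ℂ p) (hp0 : p ≠ 0)
    {π : (Fin m → ℂ) →L[ℂ] (Fin m' → ℂ)} {p' : (Fin m' → ℂ) → ℂ}
    {B : (Fin m → ℂ) →L[ℂ] (Fin m → ℂ) →L[ℂ] ℂ} {κ : (Fin m → ℂ) →L[ℂ] ℂ}
    (hπ : Function.Surjective π) (hp' : Differentiable ℂ p')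
    (h : ∀ u, p u = gs B κ u * p' (π u)) (hf : FullPer p) : FullPer p' := by
  obtain ⟨u₀, hu₀⟩ := Function.ne_iff.mp hp0
  have hu₀' : p' (π u₀) ≠ 0 := by
    intro h0
    apply hu₀
    rw [h u₀, h0, mul_zero]
    rfl
  obtain ⟨σ, hσ⟩ := (π : (Fin m → ℂ) →ₗ[ℂ] (Fin m' → ℂ)).exists_rightInverse_of_surjective
    (LinearMap.range_eq_top.2 hπ)
  have hσ' : ∀ w, π (σ w) = w := fun w => by
    have := LinearMap.congr_fun hσ w
    simpa using this
  have key : ∀ g ∈ Per p, π g ∈ Per p' := by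
    rintro g ⟨l, c, hlc⟩
    -- the exponent
    let Lf : (Fin m → ℂ) →L[ℂ] ℂ := l - B.flip g - B g
    let C : ℂ := c - B g g - κ g
    have h1 : ∀ u, p' (π u + π g) = Complex.exp (Lf u + C) * p' (π u) := by
      intro u
      have h2 := hlc u
      rw [h, h u, map_add] at h2
      have h3 : gs B κ (u + g) = gs B κ u * Complex.exp (B u g + B g u + B g g + κ g) := by
        simp only [gs, ← Complex.exp_add]
        congr 1
        simp only [map_add, ContinuousLinearMap.add_apply]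
        ring
      rw [h3] at h2
      have h4 : gs B κ u ≠ 0 := Complex.exp_ne_zero _
      have h5 : Complex.exp (B u g + B g u + B g g + κ g) * p' (π u + π g) =
          Complex.exp (l u + c) * p' (π u) := by
        apply mul_left_cancel₀ h4
        rw [← mul_assoc, h2]
        ring
      have h6 : Lf u + C = -(B u g + B g u + B g g + κ g) + (l u + c) := by
        simp only [Lf, C, ContinuousLinearMap.sub_apply, ContinuousLinearMap.flip_apply]
        ring
      rw [h6, Complex.exp_add, mul_assoc, ← h5, ← mul_assoc, ← Complex.exp_add, neg_add_cancel,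
        Complex.exp_zero, one_mul]
    have h7 : ∀ k, π k = 0 → Lf k = 0 := by
      intro k hk
      by_contra hne
      have h8 := h1 (u₀ + (Lf k)⁻¹ • k)
      have h9 : π (u₀ + (Lf k)⁻¹ • k) = π u₀ := by
        rw [map_add, map_smul, hk, smul_zero, add_zero]
      rw [h9, h1 u₀] at h8
      have h10 := mul_right_cancel₀ hu₀' h8
      have h11 : Lf (u₀ + (Lf k)⁻¹ • k) = Lf u₀ + 1 := by
        rw [map_add, map_smul, smul_eq_mul, inv_mul_cancel₀ hne]
      rw [h11, show Lf u₀ + 1 + C = (Lf u₀ + C) + 1 by ring, Complex.exp_add (Lf u₀ + C) 1] at h10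
      have h12 : Complex.exp 1 = 1 := by
        have := mul_left_cancel₀ (Complex.exp_ne_zero (Lf u₀ + C))
          ((mul_one (Complex.exp (Lf u₀ + C))).trans h10)
        exact this.symm
      have h13 : Real.exp 1 = 1 := by
        have := congrArg Complex.re h12
        rw [← Complex.ofReal_one, Complex.exp_ofReal_re, Complex.ofReal_re] at this
        exact this
      have h14 : (1 : ℝ) = 0 := Real.exp_injective (h13.trans Real.exp_zero.symm)
      exact one_ne_zero h14
    let Lq : (Fin m' → ℂ) →L[ℂ] ℂ := LinearMap.toContinuousLinearMap ((Lf : _ →ₗ[ℂ] ℂ).comp σ)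
    refine ⟨Lq, C, fun w => ?_⟩
    have h15 := h1 (σ w)
    rw [hσ' w] at h15
    rw [h15]
    rfl
  have hspan : Submodule.map ((π.restrictScalars ℝ : (Fin m → ℂ) →L[ℝ] (Fin m' → ℂ)) :
      (Fin m → ℂ) →ₗ[ℝ] (Fin m' → ℂ)) (Submodule.span ℝ (Per p)) ≤
      Submodule.span ℝ (Per p') := by
    rw [Submodule.map_span]
    refine Submodule.span_mono ?_
    rintro _ ⟨g, hg, rfl⟩
    exact key g hg
  have hf' : Submodule.span ℝ (Per p) = ⊤ := hf
  rw [hf'] at hspan
  refine top_le_iff.1 (le_trans ?_ hspan)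
  intro w _
  obtain ⟨u, hu⟩ := hπ w
  exact ⟨u, Submodule.mem_top, hu⟩

end Pool.Agent.Lib.MP_db21fa_an.TF
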