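import Pool.Agent.Lib.MP_db21fa_an.TF.AdmDefs
import Pool.Agent.Lib.MP_db21fa_an.TF.Dat
import Pool.Agent.Lib.MP_db21fa_an.TF.FinDim
import Pool.Agent.Lib.MP_db21fa_an.TF.Quotient

/-!
Module W2: nondegeneracy of the linear forms for minimal data.
-/

set_option autoImplicit false

open Filter Topology Metric

namespace Pool.Agent.Lib.MP_db21fa_an.TF

variable {E : Type*} [NormedAddCommGroup E] [NormedSpace ℂ E] [FiniteDimensional ℂ E]

private theorem gs_differentiable' {F : Type*} [NormedAddCommGroup F] [NormedSpace ℂ F]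
    (B : F →L[ℂ] F →L[ℂ] ℂ) (κ : F →L[ℂ] ℂ) : Differentiable ℂ (gs B κ) := by
  unfold gs
  refine Differentiable.cexp ?_
  refine Differentiable.add ?_ κ.differentiable
  exact B.differentiable.clm_apply differentiable_id

private theorem gs_ne_zero' {F : Type*} [NormedAddCommGroup F] [NormedSpace ℂ F]
    (B : F →L[ℂ] F →L[ℂ] ℂ) (κ : F →L[ℂ] ℂ) (x : F) : gs B κ x ≠ 0 := Complex.exp_ne_zero _

/-- the operator `q ↦ ∂_{u₀} q - A q` maps theta functions to theta functions -/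
private theorem theta_op {m : ℕ} {ω : Fin (2 * m) → (Fin m → ℂ)}
    {l : Fin (2 * m) → (Fin m → ℂ) →L[ℂ] ℂ} {c : Fin (2 * m) → ℂ} {u₀ : Fin m → ℂ}
    {A : (Fin m → ℂ) →L[ℂ] ℂ} (hA : ∀ i, l i u₀ = A (ω i)) {q : (Fin m → ℂ) → ℂ}
    (hq : q ∈ ThetaSp ω l c) : (fun u => fderiv ℂ q u u₀ - A u * q u) ∈ ThetaSp ω l c := by
  obtain ⟨hd, hper⟩ := hq
  refine ⟨(differentiable_dirDeriv hd u₀).sub (A.differentiable.mul hd), fun i u => ?_⟩
  -- the derivative of the multiplier relation in the direction `u₀`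
  have h1 : HasFDerivAt (fun u => q (u + ω i)) (fderiv ℂ q (u + ω i)) u := by
    have h0 := (hd (u + ω i)).hasFDerivAt.comp u ((hasFDerivAt_id u).add_const (ω i))
    rwa [ContinuousLinearMap.comp_id] at h0
  have h2 : HasFDerivAt (fun u => Complex.exp (l i u + c i))
      (Complex.exp (l i u + c i) • (l i : (Fin m → ℂ) →L[ℂ] ℂ)) u :=
    ((l i).hasFDerivAt.add_const (c i)).cexp
  have h3 := h2.mul (hd u).hasFDerivAt
  have h4 : (fun u => q (u + ω i)) = fun u => Complex.exp (l i u + c i) * q u :=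
    funext fun u => hper i u
  rw [h4] at h1
  have h5 := h1.unique h3
  have h6 := congrArg (fun L : (Fin m → ℂ) →L[ℂ] ℂ => L u₀) h5
  simp only [ContinuousLinearMap.add_apply, ContinuousLinearMap.smul_apply, smul_eq_mul] at h6
  simp only [h6, hper i u, map_add, hA i]
  ring

/-- nondegeneracy of the linear forms for minimal data -/
theorem nd_of_minimal {h : E → ℂ} (hd : Differentiable ℂ h) {m : ℕ}
    (hmin : ∀ m' < m, ¬ AdmFull h m')
    {v : E →L[ℂ] (Fin m → ℂ)} {B : E →L[ℂ] E →L[ℂ] ℂ} {κ : E →L[ℂ] ℂ}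
    {p : (Fin m → ℂ) → ℂ} (hp : Differentiable ℂ p) (hpv : ∃ x, p (v x) ≠ 0)
    (hs : Sim h (fun x => gs B κ x * p (v x)))
    (ω : Module.Basis (Fin (2 * m)) ℝ (Fin m → ℂ)) {l : Fin (2 * m) → (Fin m → ℂ) →L[ℂ] ℂ}
    {c : Fin (2 * m) → ℂ} (hper : ∀ i u, p (u + ω i) = Complex.exp (l i u + c i) * p u)
    (hZ : ZPrin v (Set.range ω)) (u₀ : Fin m → ℂ) (A : (Fin m → ℂ) →L[ℂ] ℂ)
    (hA : ∀ i, l i u₀ = A (ω i)) : u₀ = 0 := by
  by_contra hu₀
  obtain ⟨x₀, hx₀⟩ := hpv
  have hpT : p ∈ ThetaSp (⇑ω) l c := ⟨hp, hper⟩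
  have hfd : FiniteDimensional ℂ (ThetaSp (⇑ω) l c) := thetaSp_finiteDimensional ω l c
  have hnt : Nontrivial (ThetaSp (⇑ω) l c) := by
    refine ⟨⟨⟨p, hpT⟩, 0, fun hc => hx₀ ?_⟩⟩
    have := congrArg (fun q : ThetaSp (⇑ω) l c => (q : (Fin m → ℂ) → ℂ) (v x₀)) hc
    simpa using this
  -- the operator and an eigenvector
  let J : ThetaSp (⇑ω) l c →ₗ[ℂ] ThetaSp (⇑ω) l c :=
    { toFun := fun q => ⟨_, theta_op hA q.2⟩
      map_add' := by
        intro q q'
        apply Subtype.ext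
        funext u
        have e : ((q + q' : ThetaSp (⇑ω) l c) : (Fin m → ℂ) → ℂ) =
            (q : (Fin m → ℂ) → ℂ) + (q' : (Fin m → ℂ) → ℂ) := rfl
        change fderiv ℂ ((q + q' : ThetaSp (⇑ω) l c) : (Fin m → ℂ) → ℂ) u u₀ -
          A u * ((q + q' : ThetaSp (⇑ω) l c) : (Fin m → ℂ) → ℂ) u =
          (fderiv ℂ (q : (Fin m → ℂ) → ℂ) u u₀ - A u * (q : (Fin m → ℂ) → ℂ) u) +
          (fderiv ℂ (q' : (Fin m → ℂ) → ℂ) u u₀ - A u * (q' : (Fin m → ℂ) → ℂ) u)
        rw [e, fderiv_add (q.2.1 u) (q'.2.1 u)]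
        simp only [ContinuousLinearMap.add_apply, Pi.add_apply]
        ring
      map_smul' := by
        intro a q
        apply Subtype.ext
        funext u
        have e : ((a • q : ThetaSp (⇑ω) l c) : (Fin m → ℂ) → ℂ) =
            a • (q : (Fin m → ℂ) → ℂ) := rfl
        change fderiv ℂ ((a • q : ThetaSp (⇑ω) l c) : (Fin m → ℂ) → ℂ) u u₀ -
          A u * ((a • q : ThetaSp (⇑ω) l c) : (Fin m → ℂ) → ℂ) u =
          a * (fderiv ℂ (q : (Fin m → ℂ) → ℂ) u u₀ - A u * (q : (Fin m → ℂ) → ℂ) u)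
        rw [e, fderiv_const_smul (q.2.1 u)]
        simp only [ContinuousLinearMap.smul_apply, Pi.smul_apply, smul_eq_mul]
        ring }
  obtain ⟨γ, hγ⟩ := Module.End.exists_eigenvalue J
  obtain ⟨Q, hQ⟩ := hγ.exists_hasEigenvector
  have hQe : J Q = γ • Q := hQ.apply_eq_smul
  have hQ0 : Q ≠ 0 := hQ.2
  obtain ⟨q, hqT⟩ := Q
  have hq0 : q ≠ 0 := fun hc => hQ0 (Subtype.ext hc)
  have hqd : Differentiable ℂ q := hqT.1
  have heq : ∀ u, fderiv ℂ q u u₀ = (A u + γ) * q u := by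
    intro u
    have h1 := congrArg (fun q : ThetaSp (⇑ω) l c => (q : (Fin m → ℂ) → ℂ) u) hQe
    have h2 : fderiv ℂ q u u₀ - A u * q u = γ * q u := h1
    linear_combination h2
  have hndq : ¬ NonDeg q := fun hc => hu₀ (hc u₀ A γ heq)
  have hqfull : FullPer q := by
    have h1 : Set.range ω ⊆ Per q := by
      rintro _ ⟨i, rfl⟩
      exact ⟨l i, c i, hqT.2 i⟩
    unfold FullPer
    rw [eq_top_iff, ← ω.span_eq]
    exact Submodule.span_mono h1
  -- `q ∘ v ≠ 0`
  have hqv : ∃ x, q (v x) ≠ 0 := by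
    by_contra hc
    push Not at hc
    have hall := hZ {u | ∀ x, q (v x + u) = 0} ?_ ⟨0, fun x => by simpa using hc x⟩ ?_ ?_
    · apply hq0
      funext u
      have : u ∈ {u | ∀ x, q (v x + u) = 0} := by
        rw [hall]
        exact Set.mem_univ u
      simpa using this 0
    · intro w₀
      refine ⟨Set.univ, isOpen_univ, Set.mem_univ _,
        Set.range fun (x : E) (u : Fin m → ℂ) => q (v x + u), ?_, ?_⟩
      · rintro _ ⟨x, rfl⟩
        exact (hqd.comp (differentiable_id.const_add (v x))).differentiableOn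
      · intro w _
        simp only [Set.mem_setOf_eq, Set.forall_mem_range]
    · intro u hu x x'
      have := hu (x' + x)
      rw [map_add] at this
      rw [← this]
      congr 1
      abel
    · rintro u hu _ ⟨i, rfl⟩
      constructor
      · intro x
        rw [← add_assoc, hqT.2 i, hu x, mul_zero]
      · intro x
        have h1 := hqT.2 i (v x + (u - ω i))
        have h2 : v x + (u - ω i) + ω i = v x + u := by abel
        rw [h2, hu x] at h1
        rcases mul_eq_zero.1 h1.symm with h3 | h3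
        · exact absurd h3 (Complex.exp_ne_zero _)
        · exact h3
  -- the quotient
  obtain ⟨m', π, q', B', κ', hm', hπ, hq'd, hqq⟩ := quotient hqd hndq
  have hfull' : FullPer q' := fullPer_quotient hqd hq0 hπ hq'd hqq hqfull
  have hsim : Sim p q := sim_theta ω l c c hpT hqT
  have hsim1 := (hsim.comp v).gauss B κ κ
  have hgp : Differentiable ℂ (fun x => gs B κ x * p (v x)) :=
    (gs_differentiable' B κ).mul (hp.comp v.differentiable)
  have hgq : Differentiable ℂ (fun x => gs B κ x * q (v x)) :=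
    (gs_differentiable' B κ).mul (hqd.comp v.differentiable)
  have hne : (fun x => gs B κ x * p (v x)) ≠ 0 := by
    intro hc
    have := congrFun hc x₀
    rcases mul_eq_zero.1 this with h3 | h3
    · exact gs_ne_zero' B κ x₀ h3
    · exact hx₀ h3
  have hsim2 : Sim h (fun x => gs B κ x * q (v x)) := Sim.trans hd hgp hgq hne hs hsim1
  obtain ⟨x₁, hx₁⟩ := hqv
  apply hmin m' hm'
  refine ⟨π.comp v,
    B + (ContinuousLinearMap.compL ℂ E (Fin m → ℂ) ℂ).flip v ∘L (B'.comp v),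
    κ + κ'.comp v, q', hq'd, ⟨x₁, ?_⟩, hfull', ?_⟩
  · intro h0
    apply hx₁
    rw [hqq, show q' (π (v x₁)) = 0 from h0, mul_zero]
  · refine (congrArg (Sim h) ?_).mp hsim2
    funext x
    rw [hqq (v x)]
    simp only [gs, ContinuousLinearMap.add_apply, ContinuousLinearMap.coe_comp',
      Function.comp_apply, ContinuousLinearMap.flip_apply, ContinuousLinearMap.compL_apply]
    rw [← mul_assoc, ← Complex.exp_add]
    congr 2
    ring

end Pool.Agent.Lib.MP_db21fa_an.TF
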