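import Pool.Agent.Lib.MP_db21fa_an.TF.LinAlg
import Pool.Agent.Lib.MP_db21fa_an.TF.Cx

/-!
Module C: calculus of similar functions.
-/

set_option autoImplicit false
set_option linter.unusedSectionVars false

open Filter Topology Metric

namespace Pool.Agent.Lib.MP_db21fa_an.TF

theorem FR.mul {X Y : Type*} {K L : X → Y → ℂ} (h : FR K) (h' : FR L) :
    FR (fun x y => K x y * L x y) := by
  obtain ⟨N, hN⟩ := h
  obtain ⟨M, hM⟩ := h'
  exact ⟨N * M, hN.mul hM⟩

theorem FR.add {X Y : Type*} {K L : X → Y → ℂ} (h : FR K) (h' : FR L) :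
    FR (fun x y => K x y + L x y) := by
  obtain ⟨N, hN⟩ := h
  obtain ⟨M, hM⟩ := h'
  exact ⟨N + M, hN.add hM⟩

private theorem FR.comp' {X Y X' Y' : Type*} {K : X → Y → ℂ} (h : FR K) (f : X' → X)
    (g : Y' → Y) : FR (fun x y => K (f x) (g y)) := by
  obtain ⟨N, hN⟩ := h
  exact ⟨N, hN.comp f g⟩

private theorem FR.scale' {X Y : Type*} {K : X → Y → ℂ} (h : FR K) (α : X → ℂ) (β : Y → ℂ) :
    FR (fun x y => α x * β y * K x y) := by
  obtain ⟨N, hN⟩ := h
  exact ⟨N, hN.scale α β⟩

private theorem FR.zero' {X Y : Type*} : FR (fun (_ : X) (_ : Y) => (0 : ℂ)) :=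
  ⟨0, fun _ _ => 0, fun _ _ => 0, fun x y => by simp⟩

private theorem FR.sum' {X Y ι : Type*} (s : Finset ι) {K : ι → X → Y → ℂ}
    (h : ∀ i ∈ s, FR (K i)) : FR (fun x y => ∑ i ∈ s, K i x y) := by
  classical
  induction s using Finset.induction_on with
  | empty => simpa using FR.zero'
  | insert i s hi ih =>
    have h1 := ih (fun j hj => h j (Finset.mem_insert_of_mem hj))
    have h2 := (h i (Finset.mem_insert_self i s)).add h1
    simpa [Finset.sum_insert hi] using h2

/-- cancellation -/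
theorem RankLE.cancel {X Y : Type*} [TopologicalSpace X] {K : X → Y → ℂ} {N : ℕ} {α : X → ℂ}
    (hα : Dense {x | α x ≠ 0}) (hK : ∀ y, Continuous fun x => K x y)
    (h : RankLE (fun x y => α x * K x y) N) : RankLE K N := by
  rw [rankLE_iff_minors] at h ⊢
  intro a b
  have hclosed : IsClosed {a : Fin (N + 1) → X | (mm K a b).det = 0} := by
    refine isClosed_eq ?_ continuous_const
    refine Continuous.matrix_det ?_
    refine continuous_matrix fun i j => ?_
    exact (hK (b j)).comp (continuous_apply i)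
  have hdense : Dense (Set.pi Set.univ fun _ : Fin (N + 1) => {x | α x ≠ 0}) :=
    dense_pi Set.univ fun _ _ => hα
  have hsub : (Set.pi Set.univ fun _ : Fin (N + 1) => {x | α x ≠ 0}) ⊆
      {a : Fin (N + 1) → X | (mm K a b).det = 0} := by
    intro a' ha'
    have h1 := h a' b
    have h2 : mm (fun x y => α x * K x y) a' b
        = Matrix.diagonal (fun i => α (a' i)) * mm K a' b := by
      ext i j
      simp [mm, Matrix.diagonal_mul]
    rw [h2, Matrix.det_mul, Matrix.det_diagonal] at h1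
    rcases mul_eq_zero.mp h1 with h3 | h3
    · exfalso
      obtain ⟨i, _, hi⟩ := Finset.prod_eq_zero_iff.mp h3
      exact ha' i (Set.mem_univ i) hi
    · exact h3
  have huniv := (hdense.mono hsub)
  have := hclosed.closure_eq ▸ huniv.closure_eq
  have ha : a ∈ {a : Fin (N + 1) → X | (mm K a b).det = 0} := by
    rw [this]; trivial
  exact ha

variable {E G : Type*} [NormedAddCommGroup E] [NormedSpace ℂ E] [NormedAddCommGroup G]
  [NormedSpace ℂ G]

private theorem half_aux (s t : E) :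
    (1 / 2 : ℂ) • (s + t) - (1 / 2 : ℂ) • (t - s) = s ∧
      (1 / 2 : ℂ) • (s + t) + (1 / 2 : ℂ) • (t - s) = t := by
  constructor
  · rw [← smul_sub, show s + t - (t - s) = (2 : ℂ) • s by rw [two_smul]; abel, smul_smul]
    norm_num
  · rw [← smul_add, show s + t + (t - s) = (2 : ℂ) • t by rw [two_smul]; abel, smul_smul]
    norm_num

/-- moving the arguments does not change the rank -/
theorem rankLE_PK_shift {h b : E → ℂ} {N : ℕ} (H : RankLE (PK h b) N) (s t : E) :
    RankLE (PK (fun x => h (x + s)) (fun x => b (x + t))) N := by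
  have h1 := H.comp (fun x : E => x + (1 / 2 : ℂ) • (s + t)) (fun y : E => y + (1 / 2 : ℂ) • (t - s))
  refine (congrArg (fun K => RankLE K N) ?_).mpr h1
  funext x y
  obtain ⟨e1, e2⟩ := half_aux s t
  simp only [PK]
  rw [show x + (1 / 2 : ℂ) • (s + t) - (y + (1 / 2 : ℂ) • (t - s))
      = (x - y) + ((1 / 2 : ℂ) • (s + t) - (1 / 2 : ℂ) • (t - s)) by abel, e1,
    show x + (1 / 2 : ℂ) • (s + t) + (y + (1 / 2 : ℂ) • (t - s))
      = (x + y) + ((1 / 2 : ℂ) • (s + t) + (1 / 2 : ℂ) • (t - s)) by abel, e2]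

theorem rankLE_PK_exp {h b : E → ℂ} {N : ℕ} (H : RankLE (PK h b) N) (l l' : E →L[ℂ] ℂ)
    (c c' : ℂ) :
    RankLE (PK (fun x => c * Complex.exp (l x) * h x) (fun x => c' * Complex.exp (l' x) * b x))
      N := by
  have h1 := H.scale (fun x => c * Complex.exp (l x + l' x))
    (fun y => c' * Complex.exp (l' y - l y))
  refine (congrArg (fun K => RankLE K N) ?_).mpr h1
  funext x y
  have e : Complex.exp (l (x - y)) * Complex.exp (l' (x + y))
      = Complex.exp (l x + l' x) * Complex.exp (l' y - l y) := by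
    rw [← Complex.exp_add, ← Complex.exp_add, map_sub, map_add]
    ring_nf
  simp only [PK]
  calc c * Complex.exp (l (x - y)) * h (x - y) * (c' * Complex.exp (l' (x + y)) * b (x + y))
      = c * c' * (Complex.exp (l (x - y)) * Complex.exp (l' (x + y))) * (h (x - y) * b (x + y)) := by
        ring
    _ = _ := by rw [e]; ring

theorem rankLE_PK_gauss {h b : E → ℂ} {N : ℕ} (H : RankLE (PK h b) N)
    (B : E →L[ℂ] E →L[ℂ] ℂ) (κ κ' : E →L[ℂ] ℂ) :
    RankLE (PK (fun x => gs B κ x * h x) (fun x => gs B κ' x * b x)) N := by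
  have h1 := H.scale (fun x => Complex.exp (2 * B x x + κ x + κ' x))
    (fun y => Complex.exp (2 * B y y + κ' y - κ y))
  refine (congrArg (fun K => RankLE K N) ?_).mpr h1
  funext x y
  have e : gs B κ (x - y) * gs B κ' (x + y)
      = Complex.exp (2 * B x x + κ x + κ' x) * Complex.exp (2 * B y y + κ' y - κ y) := by
    rw [gs, gs, ← Complex.exp_add, ← Complex.exp_add]
    congr 1
    simp only [map_sub, map_add, sub_apply, add_apply]
    ring
  simp only [PK]
  calc gs B κ (x - y) * h (x - y) * (gs B κ' (x + y) * b (x + y))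
      = (gs B κ (x - y) * gs B κ' (x + y)) * (h (x - y) * b (x + y)) := by ring
    _ = _ := by rw [e]

theorem rankLE_PK_comp {p q : G → ℂ} {N : ℕ} (H : RankLE (PK p q) N) (v : E →L[ℂ] G) :
    RankLE (PK (fun x => p (v x)) (fun x => q (v x))) N := by
  have h1 := H.comp (fun x : E => v x) (fun y : E => v y)
  refine (congrArg (fun K => RankLE K N) ?_).mpr h1
  funext x y
  simp only [PK, map_sub, map_add]

theorem Sim.symm {h b : E → ℂ} (H : Sim h b) : Sim b h := by
  have h1 := FR.comp' H (fun x : E => x) (fun y : E => -y)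
  refine (congrArg FR ?_).mpr h1
  funext x y
  simp only [PK, sub_neg_eq_add]
  rw [← sub_eq_add_neg]
  ring

theorem Sim.shift {h b : E → ℂ} (H : Sim h b) (s t : E) :
    Sim (fun x => h (x + s)) (fun x => b (x + t)) := by
  obtain ⟨N, hN⟩ := H
  exact ⟨N, rankLE_PK_shift hN s t⟩

/-- the row expansion in a form with values of `h` and `b` -/
private theorem Sim.expand {h b : E → ℂ} (H : Sim h b) :
    ∃ (N : ℕ) (β : Fin N → E) (g : Fin N → E → ℂ), ∀ x y,
      h (x - y) * b (x + y) = ∑ j, (h (x - β j) * b (x + β j)) * g j y := by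
  obtain ⟨N, hN⟩ := FR.exists_rankEq H
  obtain ⟨a, β, hd⟩ := hN.exists_minor
  refine ⟨N, β, fun j y => ∑ i, (mm (PK h b) a β)⁻¹ j i * PK h b (a i) y, fun x y => ?_⟩
  have h1 := rank_formula hN.1 hd x y
  simp only [PK] at h1 ⊢
  rw [h1, Finset.sum_comm]
  refine Finset.sum_congr rfl fun j _ => ?_
  rw [Finset.mul_sum]
  refine Finset.sum_congr rfl fun i _ => ?_
  ring

theorem Sim.trans {h b c : E → ℂ} (hh : Differentiable ℂ h) (hb : Differentiable ℂ b)
    (hc : Differentiable ℂ c) (hb0 : b ≠ 0) (H : Sim h b) (H' : Sim b c) : Sim h c := by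
  obtain ⟨N, β, g, hg⟩ := H.expand
  obtain ⟨M, β', g', hg'⟩ := H'.expand
  -- the kernel `h (x + s) c (x - s)`
  have key : FR (fun x s : E => (b x * b x) * (h (x + s) * c (x - s))) := by
    have e : (fun x s : E => (b x * b x) * (h (x + s) * c (x - s))) =
        fun x s : E => ∑ j, ∑ k, (g j (-((1 / 2 : ℂ) • s)) * g' k (-((1 / 2 : ℂ) • s))) *
          ((h (x + (1 / 2 : ℂ) • s - β j) * b (x - (1 / 2 : ℂ) • s - β' k)) *
            (b (x + (1 / 2 : ℂ) • s + β j) * c (x - (1 / 2 : ℂ) • s + β' k))) := by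
      funext x s
      have e1 := hg (x + (1 / 2 : ℂ) • s) (-((1 / 2 : ℂ) • s))
      have e2 := hg' (x - (1 / 2 : ℂ) • s) (-((1 / 2 : ℂ) • s))
      have hs : (1 / 2 : ℂ) • s + (1 / 2 : ℂ) • s = s := by
        rw [← add_smul]; norm_num
      rw [show x + (1 / 2 : ℂ) • s - -((1 / 2 : ℂ) • s) = x + ((1 / 2 : ℂ) • s + (1 / 2 : ℂ) • s) by
        abel, hs, show x + (1 / 2 : ℂ) • s + -((1 / 2 : ℂ) • s) = x by abel] at e1
      rw [show x - (1 / 2 : ℂ) • s - -((1 / 2 : ℂ) • s) = x by abel,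
        show x - (1 / 2 : ℂ) • s + -((1 / 2 : ℂ) • s) = x - ((1 / 2 : ℂ) • s + (1 / 2 : ℂ) • s) by
        abel, hs] at e2
      calc (b x * b x) * (h (x + s) * c (x - s)) = (h (x + s) * b x) * (b x * c (x - s)) := by ring
        _ = _ := by
          rw [e1, e2, Finset.sum_mul_sum]
          refine Finset.sum_congr rfl fun j _ => Finset.sum_congr rfl fun k _ => ?_
          ring
    rw [e]
    refine FR.sum' _ fun j _ => FR.sum' _ fun k _ => ?_
    have F1 : FR (fun x s : E => h (x + (1 / 2 : ℂ) • s - β j) * b (x - (1 / 2 : ℂ) • s - β' k)) := by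
      have h1 := FR.comp' (H.shift (-β j) (-β' k)) (fun x : E => x) (fun s : E => -((1 / 2 : ℂ) • s))
      refine (congrArg FR ?_).mpr h1
      funext x s
      simp only [PK]
      congr 2 <;> abel
    have F2 : FR (fun x s : E => b (x + (1 / 2 : ℂ) • s + β j) * c (x - (1 / 2 : ℂ) • s + β' k)) := by
      have h1 := FR.comp' (H'.shift (β j) (β' k)) (fun x : E => x) (fun s : E => -((1 / 2 : ℂ) • s))
      refine (congrArg FR ?_).mpr h1
      funext x s
      simp only [PK]
      congr 2 <;> abel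
    have h3 := FR.scale' (F1.mul F2) (fun _ => 1)
      (fun s => g j (-((1 / 2 : ℂ) • s)) * g' k (-((1 / 2 : ℂ) • s)))
    refine (congrArg FR ?_).mpr h3
    funext x s
    ring
  obtain ⟨r, hr⟩ := key
  have hcanc : RankLE (fun x s : E => h (x + s) * c (x - s)) r := by
    refine RankLE.cancel (α := fun x => b x * b x) ?_ ?_ hr
    · refine (dense_ne_zero hb hb0).mono ?_
      intro x hx
      exact mul_ne_zero hx hx
    · intro y
      exact (hh.continuous.comp (continuous_id.add continuous_const)).mul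
        (hc.continuous.comp (continuous_id.sub continuous_const))
  refine ⟨r, ?_⟩
  have h1 := hcanc.comp (fun x : E => x) (fun y : E => -y)
  refine (congrArg (fun K => RankLE K r) ?_).mpr h1
  funext x y
  simp only [PK, sub_neg_eq_add]
  rw [← sub_eq_add_neg]

theorem Sim.self {h b : E → ℂ} (hh : Differentiable ℂ h) (hb : Differentiable ℂ b) (hb0 : b ≠ 0)
    (H : Sim h b) : Sim h h :=
  Sim.trans hh hb hh hb0 H H.symm

theorem Sim.gauss {h b : E → ℂ} (H : Sim h b) (B : E →L[ℂ] E →L[ℂ] ℂ) (κ κ' : E →L[ℂ] ℂ) :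
    Sim (fun x => gs B κ x * h x) (fun x => gs B κ' x * b x) := by
  obtain ⟨N, hN⟩ := H
  exact ⟨N, rankLE_PK_gauss hN B κ κ'⟩

theorem Sim.comp {p q : G → ℂ} (H : Sim p q) (v : E →L[ℂ] G) :
    Sim (fun x => p (v x)) (fun x => q (v x)) := by
  obtain ⟨N, hN⟩ := H
  exact ⟨N, rankLE_PK_comp hN v⟩

theorem Sim.add {h b b' : E → ℂ} (H : Sim h b) (H' : Sim h b') : Sim h (fun x => b x + b' x) := by
  have h1 := FR.add H H'
  refine (congrArg FR ?_).mpr h1
  funext x y
  simp only [PK]
  ring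

theorem Sim.sum {ι : Type*} (s : Finset ι) {h : E → ℂ} {b : ι → E → ℂ}
    (H : ∀ i ∈ s, Sim h (b i)) : Sim h (fun x => ∑ i ∈ s, b i x) := by
  have h1 := FR.sum' s (K := fun i => PK h (b i)) H
  refine (congrArg FR ?_).mpr h1
  funext x y
  simp only [PK, Finset.mul_sum]

theorem Sim.smul {h b : E → ℂ} (H : Sim h b) (a : ℂ) : Sim h (fun x => a * b x) := by
  have h1 := FR.scale' H (fun _ => a) (fun _ => 1)
  refine (congrArg FR ?_).mpr h1
  funext x y
  simp only [PK]
  ring

theorem Sim.mul_transFR {h b e : E → ℂ} (H : Sim h b) (he : TransFR e) :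
    Sim h (fun x => e x * b x) := by
  have h1 := FR.mul he.2 H
  refine (congrArg FR ?_).mpr h1
  funext x y
  simp only [PK]
  ring

theorem Sim.deriv [FiniteDimensional ℂ E] {h b : E → ℂ} (hh : Differentiable ℂ h)
    (hb : Differentiable ℂ b) (H : Sim h b) (c : E) : Sim h (fun x => fderiv ℂ b x c) := by
  obtain ⟨N, hN⟩ := H
  refine ⟨N + N, ?_⟩
  -- difference quotients
  refine rankLE_of_tendsto (Kj := fun k x y =>
    ((k + 1 : ℕ) : ℂ) * (h (x - y) * b (x + y + (((k + 1 : ℕ) : ℂ))⁻¹ • c)) +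
      (-((k + 1 : ℕ) : ℂ)) * (h (x - y) * b (x + y))) ?_ ?_
  · intro k
    have h1 := (rankLE_PK_shift hN 0 ((((k + 1 : ℕ) : ℂ))⁻¹ • c)).scale
      (fun _ => ((k + 1 : ℕ) : ℂ)) (fun _ => 1)
    have h2 := hN.scale (fun _ => -((k + 1 : ℕ) : ℂ)) (fun _ => 1)
    refine (congrArg (fun K => RankLE K (N + N)) ?_).mpr (h1.add h2)
    funext x y
    simp only [PK, add_zero, mul_one]
  · intro x y
    simp only [PK]
    have hd : HasFDerivAt b (fderiv ℂ b (x + y)) (x + y) := (hb (x + y)).hasFDerivAt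
    have hn : Tendsto (fun k : ℕ => ‖((k + 1 : ℕ) : ℂ)‖) atTop atTop := by
      have : (fun k : ℕ => ‖((k + 1 : ℕ) : ℂ)‖) = fun k : ℕ => ((k + 1 : ℕ) : ℝ) := by
        funext k
        exact Complex.norm_natCast _
      rw [this]
      exact (tendsto_natCast_atTop_atTop).comp (tendsto_add_atTop_nat 1)
    have hl := (hd.lim c hn).const_mul (h (x - y))
    refine hl.congr fun k => ?_
    simp only [smul_eq_mul]
    ring

end Pool.Agent.Lib.MP_db21fa_an.TF
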