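import Pool.Agent.Lib.MP_db21fa_an.TF.Cx

/-!
Module N: closed subgroups and principle (Z).
-/

set_option autoImplicit false

open Filter Topology Metric

namespace Pool.Agent.Lib.MP_db21fa_an.TF

variable {E G : Type*} [NormedAddCommGroup E] [NormedSpace ℂ E] [NormedAddCommGroup G]
  [NormedSpace ℂ G] [FiniteDimensional ℂ G]

section real

variable {V : Type*} [NormedAddCommGroup V] [NormedSpace ℝ V]

/-- the subspace of all `u` with `ℝ u ⊆ T` -/
def lineSub (T : AddSubgroup V) : Submodule ℝ V where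
  carrier := {u | ∀ t : ℝ, t • u ∈ T}
  add_mem' := by
    intro a b ha hb t
    rw [smul_add]
    exact T.add_mem (ha t) (hb t)
  zero_mem' := by
    intro t
    rw [smul_zero]
    exact T.zero_mem
  smul_mem' := by
    intro c x hx t
    rw [smul_smul]
    exact hx (t * c)

theorem mem_lineSub {T : AddSubgroup V} {u : V} : u ∈ lineSub T ↔ ∀ t : ℝ, t • u ∈ T := Iff.rfl

theorem lineSub_le {T : AddSubgroup V} {u : V} (hu : u ∈ lineSub T) : u ∈ T := by
  have := hu 1
  rwa [one_smul] at this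

/-- a limit direction of small elements is a line -/
theorem mem_lineSub_of_tendsto {T : AddSubgroup V} (hT : IsClosed (T : Set V)) {s : ℕ → V} {e : V}
    (hs : ∀ j, s j ∈ T) (hne : ∀ j, s j ≠ 0) (h0 : Tendsto s atTop (𝓝 0))
    (he : Tendsto (fun j => (‖s j‖)⁻¹ • s j) atTop (𝓝 e)) : e ∈ lineSub T := by
  intro t
  have hn : ∀ j, 0 < ‖s j‖ := fun j => norm_pos_iff.mpr (hne j)
  have h1 : Tendsto (fun j => (⌊t / ‖s j‖⌋ : ℤ) • s j) atTop (𝓝 (t • e)) := by
    have h2 : Tendsto (fun j => t • ((‖s j‖)⁻¹ • s j)) atTop (𝓝 (t • e)) := he.const_smul t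
    have h3 : Tendsto (fun j => (⌊t / ‖s j‖⌋ : ℤ) • s j - t • ((‖s j‖)⁻¹ • s j)) atTop (𝓝 0) := by
      apply squeeze_zero_norm (a := fun j => ‖s j‖)
      · intro j
        have h4 : (⌊t / ‖s j‖⌋ : ℤ) • s j - t • ((‖s j‖)⁻¹ • s j) =
            ((⌊t / ‖s j‖⌋ : ℝ) - t / ‖s j‖) • s j := by
          rw [sub_smul, smul_smul, div_eq_mul_inv, Int.cast_smul_eq_zsmul]
        rw [h4, norm_smul]
        have h5 : ‖((⌊t / ‖s j‖⌋ : ℝ) - t / ‖s j‖)‖ ≤ 1 := by
          rw [Real.norm_eq_abs, abs_le]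
          constructor
          · linarith [Int.lt_floor_add_one (t / ‖s j‖)]
          · linarith [Int.floor_le (t / ‖s j‖)]
        calc ‖((⌊t / ‖s j‖⌋ : ℝ) - t / ‖s j‖)‖ * ‖s j‖ ≤ 1 * ‖s j‖ :=
              mul_le_mul_of_nonneg_right h5 (norm_nonneg _)
          _ = ‖s j‖ := one_mul _
      · simpa using h0.norm
    have h6 := h3.add h2
    simpa using h6
  exact hT.mem_of_tendsto h1 (Eventually.of_forall fun j => T.zsmul_mem (hs j) _)

/-- small elements of a closed subgroup lie on lines of the subgroup -/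
theorem small_mem_lineSub [FiniteDimensional ℝ V] (T : AddSubgroup V)
    (hT : IsClosed (T : Set V)) : ∃ η > (0 : ℝ), ∀ u ∈ T, ‖u‖ < η → u ∈ lineSub T := by
  by_contra hcon
  push Not at hcon
  have hcon' : ∀ j : ℕ, ∃ u ∈ T, ‖u‖ < 1 / ((j : ℝ) + 1) ∧ u ∉ lineSub T :=
    fun j => hcon _ (by positivity)
  choose t htT htn htV using hcon'
  obtain ⟨W, hW⟩ := (lineSub T).exists_isCompl
  -- the projection onto `W` along `lineSub T`
  let P : V →ₗ[ℝ] V := W.subtype ∘ₗ (Submodule.projectionOnto W (lineSub T) hW.symm)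
  have hPsub : ∀ u, u - P u ∈ lineSub T := by
    intro u
    have h1 : (Submodule.projectionOnto W (lineSub T) hW.symm) (u - P u) = 0 := by
      rw [map_sub]
      have : (Submodule.projectionOnto W (lineSub T) hW.symm) (P u) =
          (Submodule.projectionOnto W (lineSub T) hW.symm) u :=
        Submodule.projectionOnto_apply_left hW.symm _
      rw [this, sub_self]
    exact (Submodule.projectionOnto_apply_eq_zero_iff hW.symm).mp h1
  have hPW : ∀ u, P u ∈ W := by
    intro u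
    simp [P]
  have hPker : ∀ u ∈ lineSub T, P u = 0 := by
    intro u hu
    have : (Submodule.projectionOnto W (lineSub T) hW.symm) u = 0 :=
      (Submodule.projectionOnto_apply_eq_zero_iff hW.symm).mpr hu
    simp [P, this]
  have hPP : ∀ u ∈ W, P u = u := by
    intro u hu
    have h1 := hPsub u
    have h2 : u - P u ∈ W := W.sub_mem hu (hPW u)
    have h3 : u - P u = 0 := by
      have := hW.disjoint
      rw [Submodule.disjoint_def] at this
      exact this _ h1 h2
    exact (sub_eq_zero.mp h3).symm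
  have hPc : Continuous P := P.continuous_of_finiteDimensional
  let s : ℕ → V := fun j => P (t j)
  have hsT : ∀ j, s j ∈ T := by
    intro j
    have h1 := lineSub_le (hPsub (t j))
    have h2 : s j = t j - (t j - P (t j)) := by simp [s]
    rw [h2]
    exact T.sub_mem (htT j) h1
  have hsne : ∀ j, s j ≠ 0 := by
    intro j h
    apply htV j
    have h1 := hPsub (t j)
    have h2 : P (t j) = 0 := h
    rwa [h2, sub_zero] at h1
  have ht0 : Tendsto t atTop (𝓝 0) := by
    apply squeeze_zero_norm (a := fun j : ℕ => 1 / ((j : ℝ) + 1))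
    · intro j; exact (htn j).le
    · exact tendsto_one_div_add_atTop_nhds_zero_nat
  have hs0 : Tendsto s atTop (𝓝 0) := by
    have := (hPc.tendsto 0).comp ht0
    rw [map_zero] at this
    exact this
  have hcomp : IsCompact (sphere (0 : V) 1) := isCompact_sphere 0 1
  have hmem : ∀ j, (‖s j‖)⁻¹ • s j ∈ sphere (0 : V) 1 := by
    intro j
    rw [mem_sphere_zero_iff_norm, norm_smul, norm_inv, norm_norm]
    exact inv_mul_cancel₀ (norm_ne_zero_iff.mpr (hsne j))
  obtain ⟨e, he, φ, hφ, hlim⟩ := hcomp.tendsto_subseq hmem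
  have h1 : e ∈ lineSub T := mem_lineSub_of_tendsto hT (s := s ∘ φ) (fun j => hsT _)
    (fun j => hsne _) (hs0.comp hφ.tendsto_atTop) hlim
  have h2 : P e = 0 := hPker e h1
  have h3 : e ∈ W := by
    have hWc : IsClosed (W : Set V) := W.closed_of_finiteDimensional
    exact hWc.mem_of_tendsto hlim (Eventually.of_forall fun j => W.smul_mem _ (hPW _))
  have h4 : e = 0 := by rw [← hPP e h3, h2]
  rw [mem_sphere_zero_iff_norm, h4, norm_zero] at he
  exact zero_ne_one he

end real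

/-- closed subgroup lemma: let `T` be a closed subgroup containing a lattice, and let `V` be the
subspace of all `u` with `ℝ u ⊆ T`. Then `V` is spanned by lattice points. -/
theorem closed_subgroup {V : Type*} [NormedAddCommGroup V] [NormedSpace ℝ V]
    [FiniteDimensional ℝ V] {ι : Type*} [Fintype ι] (ω : Module.Basis ι ℝ V) (T : AddSubgroup V)
    (hT : IsClosed (T : Set V)) (hω : ∀ i, ω i ∈ T) (s : V) (hs : ∀ t : ℝ, t • s ∈ T) :
    s ∈ Submodule.span ℝ {γ : V | γ ∈ AddSubgroup.closure (Set.range ω) ∧ ∀ t : ℝ, t • γ ∈ T} := by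
  set S := Submodule.span ℝ {γ : V | γ ∈ AddSubgroup.closure (Set.range ω) ∧ ∀ t : ℝ, t • γ ∈ T}
    with hS
  have hScl : IsClosed (S : Set V) := S.closed_of_finiteDimensional
  obtain ⟨η₀, hη₀, hsmall⟩ := small_mem_lineSub T hT
  have hmem : s ∈ closure (S : Set V) := by
    rw [Metric.mem_closure_iff]
    intro ε hε
    -- the fractional parts of `k s`
    let r : ℕ → V := fun k => ZSpan.fract ω ((k : ℝ) • s)
    have hrb : ∀ k, r k ∈ closedBall (0 : V) (∑ i, ‖ω i‖) := by
      intro k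
      rw [mem_closedBall_zero_iff]
      exact ZSpan.norm_fract_le ω _
    obtain ⟨x, -, φ, hφ, hlim⟩ := (isCompact_closedBall (0 : V) (∑ i, ‖ω i‖)).tendsto_subseq hrb
    have hη : 0 < min ε η₀ := lt_min hε hη₀
    obtain ⟨n, hn⟩ := Metric.cauchySeq_iff.mp hlim.cauchySeq (min ε η₀) hη
    have hd := hn (n + 1) (by simp) n (by simp)
    set k := φ n with hk
    set k' := φ (n + 1) with hk'
    have hkk' : k < k' := hφ (Nat.lt_succ_self n)
    have hd' : ‖r k' - r k‖ < min ε η₀ := by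
      rw [← dist_eq_norm]; exact hd
    -- the lattice vector
    let lam : V := (ZSpan.floor ω ((k' : ℝ) • s) : V) - (ZSpan.floor ω ((k : ℝ) • s) : V)
    have hfloor : ∀ u : V, ((ZSpan.floor ω u : V)) ∈ AddSubgroup.closure (Set.range ω) := by
      intro u
      have h1 := (ZSpan.floor ω u).2
      have h2 : (Submodule.span ℤ (Set.range ω)).toAddSubgroup =
          AddSubgroup.closure (Set.range ω) := Submodule.span_int_eq_addSubgroupClosure _
      rw [← h2]
      exact h1
    have hlamL : lam ∈ AddSubgroup.closure (Set.range ω) :=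
      AddSubgroup.sub_mem _ (hfloor _) (hfloor _)
    have hLT : AddSubgroup.closure (Set.range ω) ≤ T := by
      rw [AddSubgroup.closure_le]
      rintro _ ⟨i, rfl⟩
      exact hω i
    have hlamT : lam ∈ T := hLT hlamL
    set m : ℝ := (k' : ℝ) - (k : ℝ) with hm
    have hm1 : 1 ≤ m := by
      have : ((k : ℝ)) + 1 ≤ (k' : ℝ) := by exact_mod_cast hkk'
      linarith
    have hrel : m • s = lam + (r k' - r k) := by
      have h1 : (k' : ℝ) • s = (ZSpan.floor ω ((k' : ℝ) • s) : V) + r k' := by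
        simp [r, ZSpan.fract_apply]
      have h2 : (k : ℝ) • s = (ZSpan.floor ω ((k : ℝ) • s) : V) + r k := by
        simp [r, ZSpan.fract_apply]
      rw [hm, sub_smul]
      conv_lhs => rw [h1, h2]
      simp only [lam]
      abel
    have hδT : r k' - r k ∈ T := by
      have : r k' - r k = m • s - lam := by rw [hrel]; abel
      rw [this]
      exact T.sub_mem (hs m) hlamT
    have hδV : r k' - r k ∈ lineSub T := hsmall _ hδT (lt_of_lt_of_le hd' (min_le_right _ _))
    have hsV : s ∈ lineSub T := hs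
    have hlamV : lam ∈ lineSub T := by
      have : lam = m • s - (r k' - r k) := by rw [hrel]; abel
      rw [this]
      exact (lineSub T).sub_mem ((lineSub T).smul_mem m hsV) hδV
    have hlamS : lam ∈ S := Submodule.subset_span ⟨hlamL, hlamV⟩
    have hm0 : m ≠ 0 := by linarith
    refine ⟨m⁻¹ • lam, S.smul_mem _ hlamS, ?_⟩
    have h7 : s - m⁻¹ • lam = m⁻¹ • (r k' - r k) := by
      have h8 : r k' - r k = m • s - lam := by rw [hrel]; abel
      rw [h8, smul_sub m⁻¹ (m • s) lam, smul_smul m⁻¹ m s, inv_mul_cancel₀ hm0, one_smul]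
    rw [dist_eq_norm, h7, norm_smul]
    have h9 : ‖m⁻¹‖ ≤ 1 := by
      rw [norm_inv, Real.norm_eq_abs, abs_of_pos (by linarith)]
      exact inv_le_one_of_one_le₀ hm1
    calc ‖m⁻¹‖ * ‖r k' - r k‖ ≤ 1 * ‖r k' - r k‖ :=
          mul_le_mul_of_nonneg_right h9 (norm_nonneg _)
      _ = ‖r k' - r k‖ := one_mul _
      _ < ε := lt_of_lt_of_le hd' (min_le_left _ _)
  rwa [hScl.closure_eq] at hmem

/-- an analytic set is closed -/
theorem LocAnalytic.isClosed {A : Set G} (hA : LocAnalytic A) : IsClosed A := by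
  rw [← isOpen_compl_iff, isOpen_iff_mem_nhds]
  intro w hw
  obtain ⟨U, hU, hwU, 𝓕, h𝓕, hAU⟩ := hA w
  have h1 : ¬ ∀ f ∈ 𝓕, f w = 0 := fun h => hw ((hAU w hwU).mpr h)
  push Not at h1
  obtain ⟨f, hf, hfw⟩ := h1
  have hc : ContinuousAt f w := ((h𝓕 f hf).continuousOn).continuousAt (hU.mem_nhds hwU)
  have h2 : ∀ᶠ u in 𝓝 w, f u ≠ 0 := hc.eventually_ne hfw
  filter_upwards [h2, hU.mem_nhds hwU] with u hu huU huA
  exact hu ((hAU u huU).mp huA f hf)

/-- an analytic set which contains `a + t • u` for all real `t` contains it for all complex `t` -/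
theorem LocAnalytic.complex_line {A : Set G} (hA : LocAnalytic A) {a u : G}
    (h : ∀ t : ℝ, a + (t : ℂ) • u ∈ A) (t : ℂ) : a + t • u ∈ A := by
  let L : ℂ → G := fun t => a + t • u
  have hLc : Continuous L := by fun_prop
  have hLd : Differentiable ℂ L := by fun_prop
  let Z : Set ℂ := {t | L t ∈ A}
  -- local data
  have hloc : ∀ t₀ : ℂ, ∃ ρ > (0 : ℝ), ∃ 𝓕 : Set (ℂ → ℂ),
      (∀ g ∈ 𝓕, DifferentiableOn ℂ g (ball t₀ ρ)) ∧
      ∀ t ∈ ball t₀ ρ, (t ∈ Z ↔ ∀ g ∈ 𝓕, g t = 0) := by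
    intro t₀
    obtain ⟨U, hU, hwU, 𝓕, h𝓕, hAU⟩ := hA (L t₀)
    obtain ⟨ρ, hρ, hb⟩ := Metric.isOpen_iff.mp (hU.preimage hLc) t₀ hwU
    refine ⟨ρ, hρ, (fun f => f ∘ L) '' 𝓕, ?_, ?_⟩
    · rintro _ ⟨f, hf, rfl⟩
      exact (h𝓕 f hf).comp hLd.differentiableOn (fun t ht => hb ht)
    · intro t ht
      have h1 := hAU (L t) (hb ht)
      constructor
      · rintro h2 _ ⟨f, hf, rfl⟩
        exact h1.mp h2 f hf
      · intro h2
        exact h1.mpr fun f hf => h2 _ ⟨f, hf, rfl⟩
  -- the identity theorem on a disc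
  have hid : ∀ t₀ : ℂ, ∀ z₀ : ℂ, ∀ ρ > (0 : ℝ), ∀ 𝓕 : Set (ℂ → ℂ),
      (∀ g ∈ 𝓕, DifferentiableOn ℂ g (ball t₀ ρ)) →
      (∀ t ∈ ball t₀ ρ, (t ∈ Z ↔ ∀ g ∈ 𝓕, g t = 0)) → z₀ ∈ ball t₀ ρ →
      (∃ᶠ z in 𝓝[≠] z₀, z ∈ Z) → ball t₀ ρ ⊆ Z := by
    intro t₀ z₀ ρ hρ 𝓕 h𝓕 hZ hz₀ hfreq z hz
    rw [hZ z hz]
    intro g hg
    have han : AnalyticOnNhd ℂ g (ball t₀ ρ) := (h𝓕 g hg).analyticOnNhd isOpen_ball
    have hfr : ∃ᶠ z in 𝓝[≠] z₀, g z = 0 := by
      have hev : ∀ᶠ z in 𝓝[≠] z₀, z ∈ ball t₀ ρ :=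
        nhdsWithin_le_nhds (isOpen_ball.mem_nhds hz₀)
      exact (hfreq.and_eventually hev).mono fun z hz => (hZ z hz.2).mp hz.1 g hg
    exact han.eqOn_zero_of_preconnected_of_frequently_eq_zero
      (convex_ball t₀ ρ).isPreconnected hz₀ hfr hz
  -- `interior Z` is clopen and nonempty
  have hne : (interior Z).Nonempty := by
    obtain ⟨ρ, hρ, 𝓕, h𝓕, hZ⟩ := hloc 0
    have h1 : ball (0 : ℂ) ρ ⊆ Z := by
      apply hid 0 0 ρ hρ 𝓕 h𝓕 hZ (mem_ball_self hρ)
      rw [frequently_nhdsWithin_iff] 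
      rw [Metric.nhds_basis_ball.frequently_iff]
      intro r hr
      refine ⟨((r / 2 : ℝ) : ℂ), ?_, h (r / 2), ?_⟩
      · rw [mem_ball_zero_iff, Complex.norm_real, Real.norm_eq_abs, abs_of_pos (by linarith)]
        linarith
      · simp only [Set.mem_compl_iff, Set.mem_singleton_iff, Complex.ofReal_eq_zero]
        linarith
    exact ⟨0, mem_interior.mpr ⟨ball 0 ρ, h1, isOpen_ball, mem_ball_self hρ⟩⟩
  have hcl : IsClosed (interior Z) := by
    rw [← closure_subset_iff_isClosed]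
    intro t₀ ht₀
    obtain ⟨ρ, hρ, 𝓕, h𝓕, hZ⟩ := hloc t₀
    obtain ⟨z₀, hz₀Z, hz₀⟩ := Metric.mem_closure_iff.mp ht₀ ρ hρ
    have hz₀b : z₀ ∈ ball t₀ ρ := by rw [mem_ball, dist_comm]; exact hz₀
    have h1 : ball t₀ ρ ⊆ Z := by
      apply hid t₀ z₀ ρ hρ 𝓕 h𝓕 hZ hz₀b
      have h2 : ∀ᶠ z in 𝓝[≠] z₀, z ∈ Z := by
        apply nhdsWithin_le_nhds
        exact mem_of_superset (isOpen_interior.mem_nhds hz₀Z) interior_subset
      exact h2.frequently
    exact mem_interior.mpr ⟨ball t₀ ρ, h1, isOpen_ball, mem_ball_self hρ⟩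
  have huniv : interior Z = Set.univ := IsClopen.eq_univ ⟨hcl, isOpen_interior⟩ hne
  have h9 : t ∈ interior Z := by rw [huniv]; trivial
  have h10 : t ∈ Z := interior_subset h9
  exact h10

/-- **principle (Z)** from the minimality of the dimension -/
theorem zprin_of_min (v : E →L[ℂ] G) {ι : Type*} [Fintype ι] (ω : Module.Basis ι ℝ G)
    (hmin : ∀ S : Submodule ℂ G, (∀ x, v x ∈ S) →
      (∀ s ∈ S, s ∈ Submodule.span ℝ {γ : G | γ ∈ AddSubgroup.closure (Set.range ω) ∧ γ ∈ S}) →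
      S = ⊤) :
    ZPrin v (Set.range ω) := by
  intro A hA hne hv hω
  have hcl : IsClosed A := hA.isClosed
  -- the stabiliser
  let T : AddSubgroup G :=
    { carrier := {g | ∀ a ∈ A, a + g ∈ A ∧ a - g ∈ A}
      add_mem' := by
        intro g g' hg hg' a ha
        refine ⟨?_, ?_⟩
        · rw [← add_assoc]; exact (hg' _ (hg a ha).1).1
        · rw [← sub_sub]; exact (hg' _ (hg a ha).2).2
      zero_mem' := by
        intro a ha
        simpa using ha
      neg_mem' := by
        intro g hg a ha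
        refine ⟨?_, ?_⟩
        · rw [← sub_eq_add_neg]; exact (hg a ha).2
        · rw [sub_neg_eq_add]; exact (hg a ha).1 }
  have hTmem : ∀ g : G, g ∈ T ↔ ∀ a ∈ A, a + g ∈ A ∧ a - g ∈ A := fun g => Iff.rfl
  have hTcl : IsClosed (T : Set G) := by
    have h1 : (T : Set G) = ⋂ a ∈ A, {g : G | a + g ∈ A ∧ a - g ∈ A} := by
      ext g
      simp only [Set.mem_iInter, Set.mem_ofPred_eq, SetLike.mem_coe]
      exact hTmem g
    rw [h1]
    apply isClosed_biInter
    intro a _
    have h2 : {g : G | a + g ∈ A ∧ a - g ∈ A} = (fun g => a + g) ⁻¹' A ∩ (fun g => a - g) ⁻¹' A :=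
      rfl
    rw [h2]
    exact (hcl.preimage (by fun_prop)).inter (hcl.preimage (by fun_prop))
  have hωT : ∀ i, ω i ∈ T := by
    intro i a ha
    exact hω a ha (ω i) ⟨i, rfl⟩
  have hvT : ∀ x, v x ∈ T := by
    intro x a ha
    refine ⟨hv a ha x, ?_⟩
    have := hv a ha (-x)
    rwa [map_neg, ← sub_eq_add_neg] at this
  have hcomplex : ∀ u : G, (∀ t : ℝ, t • u ∈ T) → ∀ c : ℂ, c • u ∈ T := by
    intro u hu c a ha
    have h1 : ∀ t : ℝ, a + (t : ℂ) • u ∈ A := by
      intro t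
      have := (hu t a ha).1
      rwa [← Complex.coe_smul] at this
    refine ⟨hA.complex_line h1 c, ?_⟩
    have := hA.complex_line h1 (-c)
    rwa [neg_smul, ← sub_eq_add_neg] at this
  let S : Submodule ℂ G :=
    { carrier := {u | ∀ c : ℂ, c • u ∈ T}
      add_mem' := by
        intro a b ha hb c
        rw [smul_add]
        exact T.add_mem (ha c) (hb c)
      zero_mem' := by
        intro c
        rw [smul_zero]
        exact T.zero_mem
      smul_mem' := by
        intro c x hx c'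
        rw [smul_smul]
        exact hx (c' * c) }
  have hSmem : ∀ u : G, u ∈ S ↔ ∀ c : ℂ, c • u ∈ T := fun u => Iff.rfl
  have hS : S = ⊤ := by
    apply hmin S
    · intro x c
      rw [← map_smul]
      exact hvT _
    · intro s hs
      have hs' : ∀ t : ℝ, t • s ∈ T := by
        intro t
        have := hs (t : ℂ)
        rwa [Complex.coe_smul] at this
      have : FiniteDimensional ℝ G := FiniteDimensional.complexToReal G
      have h1 := closed_subgroup ω T hTcl hωT s hs'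
      refine Submodule.span_mono ?_ h1
      rintro γ ⟨hγ1, hγ2⟩
      exact ⟨hγ1, hcomplex γ hγ2⟩
  have hTtop : ∀ g : G, g ∈ T := by
    intro g
    have h1 : g ∈ S := by rw [hS]; trivial
    have := h1 1
    rwa [one_smul] at this
  obtain ⟨a, ha⟩ := hne
  rw [Set.eq_univ_iff_forall]
  intro x
  have := (hTtop (x - a) a ha).1
  rwa [add_sub_cancel] at this

end Pool.Agent.Lib.MP_db21fa_an.TF
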