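import Pool.Agent.Lib.MP_db21fa_an.TF.StepOne
import Pool.Agent.Lib.MP_db21fa_an.TF.ZMinimal
import Pool.Agent.Lib.MP_db21fa_an.TF.NDMinimal

/-!
Module W3: minimal data.
-/

set_option autoImplicit false

open Filter Topology Metric

namespace Pool.Agent.Lib.MP_db21fa_an.TF

variable {E : Type*} [NormedAddCommGroup E] [NormedSpace ℂ E] [FiniteDimensional ℂ E]

/-- **minimal data** -/
theorem exists_min_data {h : E → ℂ} (hd : Differentiable ℂ h) (h0 : h ≠ 0) (hs : Sim h h) :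
    ∃ (m : ℕ) (v : E →L[ℂ] (Fin m → ℂ)) (B : E →L[ℂ] E →L[ℂ] ℂ) (κ : E →L[ℂ] ℂ)
      (p : (Fin m → ℂ) → ℂ) (ω : Module.Basis (Fin (2 * m)) ℝ (Fin m → ℂ))
      (l : Fin (2 * m) → (Fin m → ℂ) →L[ℂ] ℂ) (c : Fin (2 * m) → ℂ),
      Differentiable ℂ p ∧ (∃ x, p (v x) ≠ 0) ∧ Sim h (fun x => gs B κ x * p (v x)) ∧
      (∀ i u, p (u + ω i) = Complex.exp (l i u + c i) * p u) ∧ ZPrin v (Set.range ω) ∧
      ∀ (u₀ : Fin m → ℂ) (A : (Fin m → ℂ) →L[ℂ] ℂ), (∀ i, l i u₀ = A (ω i)) → u₀ = 0 := by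
  classical
  have hex : ∃ m, AdmFull h m := by
    obtain ⟨m, v, B, κ, p, h1, h2, h3, h4⟩ := step_one hd h0 hs
    exact ⟨m, v, B, κ, p, h1, h2, h3, h4⟩
  obtain ⟨v, B, κ, p, hp, hpv, hf, hsim⟩ := Nat.find_spec hex
  have hmin : ∀ m' < Nat.find hex, ¬ AdmFull h m' := fun m' hm' => Nat.find_min hex hm'
  generalize Nat.find hex = m at v B κ p hp hpv hf hsim hmin
  obtain ⟨b, hbs, hbspan, hbli⟩ := exists_linearIndependent ℝ (Per p)
  have hf' : Submodule.span ℝ (Per p) = ⊤ := hf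
  rw [hf'] at hbspan
  let bas : Module.Basis b ℝ (Fin m → ℂ) := Module.Basis.mk hbli (by
    rw [Subtype.range_coe_subtype, Set.setOf_mem_eq, hbspan])
  have hfin : Finite b := Module.Finite.finite_basis bas
  have : Fintype b := Fintype.ofFinite b
  have hcard : Fintype.card b = 2 * m := by
    rw [← Module.finrank_eq_card_basis bas, finrank_real_of_complex]
    simp
  let e : b ≃ Fin (2 * m) := Fintype.equivFinOfCardEq hcard
  let ω : Module.Basis (Fin (2 * m)) ℝ (Fin m → ℂ) := bas.reindex e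
  have hω : ∀ i, ω i ∈ Per p := by
    intro i
    have : ω i = ((e.symm i : b) : Fin m → ℂ) := by
      simp [ω, bas]
    rw [this]
    exact hbs (e.symm i).2
  choose l c hlc using hω
  have hZ := zprin_of_minimal hmin hp hpv hsim ω (fun i => ⟨l i, c i, hlc i⟩)
  exact ⟨m, v, B, κ, p, ω, l, c, hp, hpv, hsim, hlc, hZ,
    nd_of_minimal hd hmin hp hpv hsim ω hlc hZ⟩

end Pool.Agent.Lib.MP_db21fa_an.TF
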