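import Pool.Agent.Lib.MP_db21fa_an.TF.OneParam

/-!
Module S10: the main theorem of step 2.
-/

set_option autoImplicit false

open Filter Topology Metric

namespace Pool.Agent.Lib.MP_db21fa_an.TF

variable {E G ι : Type*} [NormedAddCommGroup E] [NormedSpace ℂ E] [NormedAddCommGroup G]
  [NormedSpace ℂ G]

namespace S10

open Dat

variable {D : Dat E G ι}

/-- translations as elements of the monoid -/
noncomputable def T (D : Dat E G ι) (x : E) : D.ZEl := ⟨D.v x, D.tr x, isZ_tr x⟩

/-- multiplications as elements of the monoid -/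
noncomputable def Mu (D : Dat E G ι) (i : ι) : D.ZEl := ⟨D.ω i, D.mu i, isZ_mu i⟩

noncomputable def Mu' (D : Dat E G ι) (i : ι) : D.ZEl := ⟨-D.ω i, D.mu' i, isZ_mu' i⟩

/-- elements of degree `0` as elements of the algebra -/
def ofZ (X : D.ZEl) (h : X.w = 0) : D.CC := ⟨X.Φ, h ▸ X.isZ⟩

/-- elements of the algebra as elements of the monoid -/
def tz (c : D.CC) : D.ZEl := ⟨0, c.1, c.2⟩

theorem tz_ofZ (X : D.ZEl) (h : X.w = 0) : tz (ofZ X h) = X := by
  cases X
  simp only at h
  subst h
  rfl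

theorem tz_mul (c c' : D.CC) : tz (c * c') = tz c * tz c' := by
  apply ZEl.ext
  · rw [ZEl.mul_w]; simp [tz]
  · rfl

theorem tz_one : tz (1 : D.CC) = 1 := rfl

theorem tz_inj {c c' : D.CC} (h : tz c = tz c') : c = c' := Subtype.ext (congrArg ZEl.Φ h)

theorem T_add (x x' : E) : T D (x + x') = T D x * T D x' := by
  apply ZEl.ext
  · rw [ZEl.mul_w]; exact map_add D.v x x'
  · rw [ZEl.mul_Φ]
    show D.tr (x + x') = D.cmp (D.v x') (D.tr x) (D.tr x')
    rw [tr_cmp x (isH_tr x')]
    funext z g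
    simp only [tr, map_add, add_assoc]

theorem T_zero : T D 0 = 1 := by
  apply ZEl.ext
  · exact map_zero D.v
  · show D.tr 0 = D.one
    funext z g
    simp [tr, one]

theorem Mu_mul (i : ι) : Mu D i * Mu' D i = 1 := by
  apply ZEl.ext
  · rw [ZEl.mul_w]; exact add_neg_cancel _
  · exact mu_cmp_mu' i

/-- the linear map `c ↦ Φ ∘ c` -/
noncomputable def cmpL (D : Dat E G ι) (Φ : E → G → ℂ) : D.CC →ₗ[ℂ] (E → G → ℂ) where
  toFun c := D.cmp 0 Φ c.1
  map_add' c c' := cmp_add_right 0 Φ c.1 c'.1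
  map_smul' s c := cmp_smul_right 0 s Φ c.1

theorem cmpL_apply (Φ : E → G → ℂ) (c : D.CC) : cmpL D Φ c = D.cmp 0 Φ c.1 := rfl

theorem cmp_sum {k : ℕ} (Φ : E → G → ℂ) (a : Fin k → ℂ) (b : Fin k → D.CC) (z : E) (g : G) :
    cmpL D Φ (∑ j, a j • b j) z g = ∑ j, a j * D.cmp 0 Φ (b j).1 z g := by
  rw [map_sum, Finset.sum_apply, Finset.sum_apply]
  refine Finset.sum_congr rfl fun j _ => ?_
  rw [map_smul]
  rfl

/-- the value map -/
noncomputable def valL (D : Dat E G ι) : D.CC →ₗ[ℂ] (E → G → ℂ) where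
  toFun c := c.1
  map_add' _ _ := rfl
  map_smul' _ _ := rfl

theorem valL_inj : Function.Injective (valL D) := fun _ _ h => Subtype.ext h

theorem valL_apply (c : D.CC) : valL D c = c.1 := rfl

end S10

variable [FiniteDimensional ℂ E] [FiniteDimensional ℂ G]

/-- **step 2** -/
theorem step_two (D : Dat E G ι) :
    ∃ (k : ℕ) (e : Fin k → E → ℂ) (Θ : Fin k → G → ℂ) (M : ι → Matrix (Fin k) (Fin k) ℂ),
      (∀ j, TransFR (e j)) ∧ (∀ j, Differentiable ℂ (Θ j)) ∧ (∀ i, IsUnit (M i)) ∧
      (∀ i i', M i * M i' = M i' * M i) ∧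
      (∀ i j u, Θ j (u + D.ω i) = Complex.exp (D.l i u) * ∑ j', M i j j' * Θ j' u) ∧
      ∀ x, D.h x = ∑ j, e j x * Θ j (D.v x) := by
  classical
  have : FiniteDimensional ℂ D.CC := D.finiteDimensional_CC
  obtain ⟨A, A0, Aadd, Aw, Ahol⟩ := D.exists_flat
  obtain ⟨x₀, hx₀⟩ := D.pv
  set g₀ : G := D.v x₀ with hg₀
  let k := Module.finrank ℂ D.CC
  let b : Module.Basis (Fin k) ℂ D.CC := Module.finBasis ℂ D.CC
  -- the function `c`
  have hcw : ∀ x, (A (-(D.v x)) * S10.T D x).w = 0 := fun x => by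
    rw [Dat.ZEl.mul_w, Aw]; exact neg_add_cancel _
  let c : E → D.CC := fun x => S10.ofZ (A (-(D.v x)) * S10.T D x) (hcw x)
  have htz : ∀ x, S10.tz (c x) = A (-(D.v x)) * S10.T D x := fun x => S10.tz_ofZ _ _
  have cadd : ∀ x y, c (x + y) = c x * c y := by
    intro x y
    apply S10.tz_inj
    rw [S10.tz_mul, htz, htz, htz, S10.T_add, map_add, neg_add, Aadd]
    exact mul_mul_mul_comm _ _ _ _
  have hT : ∀ x, S10.T D x = A (D.v x) * S10.tz (c x) := by
    intro x
    rw [htz, ← mul_assoc, ← Aadd, add_neg_cancel, A0, one_mul]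
  let e : Fin k → E → ℂ := fun j x => b.repr (c x) j
  have hsum : ∀ x, c x = ∑ j, e j x • b j := fun x => (b.sum_repr (c x)).symm
  -- the units `γ i`
  have hgw : ∀ i, (S10.Mu' D i * A (D.ω i)).w = 0 := fun i => by
    rw [Dat.ZEl.mul_w, Aw]; exact neg_add_cancel _
  have hdw : ∀ i, (S10.Mu D i * A (-D.ω i)).w = 0 := fun i => by
    rw [Dat.ZEl.mul_w, Aw]; exact add_neg_cancel _
  let γ : ι → D.CC := fun i => S10.ofZ (S10.Mu' D i * A (D.ω i)) (hgw i)
  let δ : ι → D.CC := fun i => S10.ofZ (S10.Mu D i * A (-D.ω i)) (hdw i)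
  have hγ : ∀ i, S10.tz (γ i) = S10.Mu' D i * A (D.ω i) := fun i => S10.tz_ofZ _ _
  have hδ : ∀ i, S10.tz (δ i) = S10.Mu D i * A (-D.ω i) := fun i => S10.tz_ofZ _ _
  have hγδ : ∀ i, γ i * δ i = 1 := by
    intro i
    apply S10.tz_inj
    rw [S10.tz_mul, hγ, hδ, S10.tz_one, mul_mul_mul_comm, mul_comm (S10.Mu' D i), S10.Mu_mul,
      one_mul, ← Aadd, add_neg_cancel, A0]
  have hAω : ∀ i, A (D.ω i) = S10.Mu D i * S10.tz (γ i) := by
    intro i
    rw [hγ, ← mul_assoc, S10.Mu_mul, one_mul]
  let M : ι → Matrix (Fin k) (Fin k) ℂ := fun i => (Algebra.leftMulMatrix b (γ i)).transpose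
  let Θ : Fin k → G → ℂ := fun j w => (D.p g₀)⁻¹ * D.cmp 0 (A w).Φ (b j).1 0 (g₀ - w)
  have hAis : ∀ w, D.IsH w (A w).Φ := fun w => by
    have := (A w).isZ.isH
    rwa [Aw w] at this
  have hbis : ∀ j, D.IsH 0 (b j).1 := fun j => (b j).2.isH
  refine ⟨k, e, Θ, M, fun j => ⟨?_, ?_⟩, ?_, ?_, ?_, ?_, ?_⟩
  · -- `e j` is entire
    have hF : ∀ i : Fin k, HolFam (fun (_ : G) => (b i).1) (Set.univ : Set G) := by
      intro i
      exact ((hbis i).diff.comp (differentiable_snd (𝕜 := ℂ) (E := G) (F := E × G))).differentiableOn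
    have hli : LinearIndependent ℂ (fun i : Fin k => (b i).1) :=
      b.linearIndependent.map' (S10.valL D) (LinearMap.ker_eq_bot.2 S10.valL_inj)
    have hA' : HolFam (fun x : E => (A (-(D.v x))).Φ) (Set.univ : Set E) := by
      have h1 : Differentiable ℂ (fun q : E × (E × G) => (-(D.v q.1), (q.2.1, q.2.2))) :=
        ((D.v.differentiable.comp differentiable_fst).neg).prodMk
          ((differentiable_fst.comp differentiable_snd).prodMk
            (differentiable_snd.comp differentiable_snd))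
      have h2 : Differentiable ℂ (fun q : G × (E × G) => (A q.1).Φ q.2.1 q.2.2) := by
        have := Ahol
        unfold HolFam at this
        rwa [Set.univ_prod_univ, differentiableOn_univ] at this
      exact (h2.comp h1).differentiableOn
    have htr : HolFam (fun x : E => D.tr x) (Set.univ : Set E) := by
      have h1 : Differentiable ℂ (fun q : E × (E × G) => D.h (q.2.1 + q.1)) :=
        D.hh.comp ((differentiable_fst.comp differentiable_snd).add differentiable_fst)
      have h2 : Differentiable ℂ (fun q : E × (E × G) => D.p (q.2.2 + D.v q.1)) :=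
        D.hp.comp ((differentiable_snd.comp differentiable_snd).add
          (D.v.differentiable.comp differentiable_fst))
      exact (h1.mul h2).differentiableOn
    have hΦ : HolFam (fun x : E => (c x).1) (Set.univ : Set E) := by
      refine Dat.HolFam.cmp (w := fun x : E => -(D.v x)) (w' := fun x : E => D.v x) isOpen_univ
        D.v.differentiable.differentiableOn (fun x _ => hAis _) (fun x _ => Dat.isH_tr x) hA' htr
    obtain ⟨α, hα, hα'⟩ := hol_coords (U := (Set.univ : Set G)) isOpen_univ hF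
      (fun _ _ => hli) (O := (Set.univ : Set E)) isOpen_univ (w := fun _ => (0 : G))
      (Φ := fun x => (c x).1) (fun _ _ => Set.mem_univ _) (differentiableOn_const _) hΦ (by
        intro x _
        have : (c x).1 = ∑ j, e j x • (b j).1 := by
          have h := congrArg (S10.valL D) (hsum x)
          rw [map_sum] at h
          simpa only [map_smul, S10.valL_apply] using h
        simp only [this]
        exact Submodule.sum_mem _ fun j _ => Submodule.smul_mem _ _
          (Submodule.subset_span ⟨j, rfl⟩))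
    have hαe : ∀ j x, α j x = e j x := by
      intro j x
      have h1 : c x = ∑ j, α j x • b j := by
        apply S10.valL_inj
        rw [map_sum]
        simpa only [map_smul, S10.valL_apply] using hα' x (Set.mem_univ x)
      show α j x = b.repr (c x) j
      rw [h1, b.repr_sum_self]
    have : (fun x => e j x) = α j := by funext x; exact (hαe j x).symm
    show Differentiable ℂ (fun x => e j x)
    rw [this]
    exact differentiableOn_univ.1 (hα j)
  · -- finite rank
    refine ⟨k, fun a x => e a x, fun a y => b.repr (b a * c y) j, fun x y => ?_⟩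
    show b.repr (c (x + y)) j = _
    rw [cadd, hsum x, Finset.sum_mul, map_sum, Finsupp.finsetSum_apply]
    refine Finset.sum_congr rfl fun a _ => ?_
    rw [smul_mul_assoc, map_smul, Finsupp.smul_apply, smul_eq_mul]
  · -- `Θ j` is entire
    intro j
    have hF : HolFam (fun (_ : G) => (b j).1) (Set.univ : Set G) :=
      ((hbis j).diff.comp (differentiable_snd (𝕜 := ℂ) (E := G) (F := E × G))).differentiableOn
    have h1 : HolFam (fun w => D.cmp 0 (A w).Φ (b j).1) (Set.univ : Set G) :=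
      Dat.HolFam.cmp (w := fun w : G => w) (w' := fun _ : G => (0 : G)) isOpen_univ
        (differentiableOn_const _) (fun w _ => hAis w) (fun w _ => hbis j) Ahol hF
    have h2 : Differentiable ℂ (fun q : G × (E × G) => D.cmp 0 (A q.1).Φ (b j).1 q.2.1 q.2.2) := by
      unfold HolFam at h1
      rwa [Set.univ_prod_univ, differentiableOn_univ] at h1
    have h3 : Differentiable ℂ (fun w : G => (w, ((0 : E), g₀ - w))) :=
      differentiable_id.prodMk ((differentiable_const _).prodMk
        ((differentiable_const _).sub differentiable_id))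
    exact (h2.comp h3).const_mul _
  · intro i
    rw [Matrix.isUnit_transpose]
    exact ((IsUnit.of_mul_eq_one _ (hγδ i))).map (Algebra.leftMulMatrix b)
  · intro i i'
    show (Algebra.leftMulMatrix b (γ i)).transpose * (Algebra.leftMulMatrix b (γ i')).transpose =
      (Algebra.leftMulMatrix b (γ i')).transpose * (Algebra.leftMulMatrix b (γ i)).transpose
    rw [← Matrix.transpose_mul, ← Matrix.transpose_mul, ← map_mul, ← map_mul, mul_comm]
  · -- periods
    intro i j u
    have h1 : A (u + D.ω i) * S10.tz (b j) = S10.Mu D i * (A u * S10.tz (γ i * b j)) := by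
      rw [Aadd, hAω, S10.tz_mul]
      simp only [mul_assoc, mul_left_comm]
    have h2 := congrArg Dat.ZEl.Φ h1
    have h3 : (S10.Mu D i * (A u * S10.tz (γ i * b j))).Φ =
        fun z g => Complex.exp (D.l i (A u * S10.tz (γ i * b j)).w) *
          Complex.exp (D.l i (D.v z)) * (A u * S10.tz (γ i * b j)).Φ z (g + D.ω i) :=
      Dat.mu_cmp i (A u * S10.tz (γ i * b j)).isZ.isH
    have h4 : (A u * S10.tz (γ i * b j)).w = u := by
      rw [Dat.ZEl.mul_w, Aw]; exact add_zero _
    rw [h3, h4] at h2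
    have h5 := congrFun (congrFun h2 0) (g₀ - (u + D.ω i))
    simp only [map_zero, Complex.exp_zero, mul_one] at h5
    have h6 : g₀ - (u + D.ω i) + D.ω i = g₀ - u := by abel
    rw [h6] at h5
    have h7 : γ i * b j = ∑ j', M i j j' • b j' := by
      conv_lhs => rw [← b.sum_repr (γ i * b j)]
      refine Finset.sum_congr rfl fun j' _ => ?_
      congr 1
      show _ = (Algebra.leftMulMatrix b (γ i)) j' j
      rw [Algebra.leftMulMatrix_eq_repr_mul]
    have h8 : (A u * S10.tz (γ i * b j)).Φ 0 (g₀ - u) =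
        ∑ j', M i j j' * D.cmp 0 (A u).Φ (b j').1 0 (g₀ - u) := by
      rw [← S10.cmp_sum, ← h7]; rfl
    rw [h8] at h5
    show (D.p g₀)⁻¹ * D.cmp 0 (A (u + D.ω i)).Φ (b j).1 0 (g₀ - (u + D.ω i)) =
      Complex.exp (D.l i u) * ∑ j', M i j j' * ((D.p g₀)⁻¹ * D.cmp 0 (A u).Φ (b j').1 0 (g₀ - u))
    have h9 : D.cmp 0 (A (u + D.ω i)).Φ (b j).1 0 (g₀ - (u + D.ω i)) = Complex.exp (D.l i u) *
        ∑ j', M i j j' * D.cmp 0 (A u).Φ (b j').1 0 (g₀ - u) := h5
    rw [h9, Finset.mul_sum, Finset.mul_sum, Finset.mul_sum]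
    refine Finset.sum_congr rfl fun j' _ => ?_
    ring
  · -- the formula for `h`
    intro x
    have h1 : (S10.T D x).Φ = D.cmp 0 (A (D.v x)).Φ (c x).1 := by
      rw [hT]; rfl
    have h2 : D.tr x 0 (g₀ - D.v x) = D.cmp 0 (A (D.v x)).Φ (c x).1 0 (g₀ - D.v x) := by
      rw [← h1]; rfl
    rw [← S10.cmpL_apply, hsum, S10.cmp_sum] at h2
    have h3 : D.tr x 0 (g₀ - D.v x) = D.h x * D.p g₀ := by
      simp [Dat.tr]
    rw [h3] at h2
    calc D.h x = (D.p g₀)⁻¹ * (D.h x * D.p g₀) := by
          field_simp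
      _ = _ := by
          rw [h2, Finset.mul_sum]
          refine Finset.sum_congr rfl fun j _ => ?_
          show _ = e j x * ((D.p g₀)⁻¹ * D.cmp 0 (A (D.v x)).Φ (b j).1 0 (g₀ - D.v x))
          ring

end Pool.Agent.Lib.MP_db21fa_an.TF
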