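import Pool.Agent.Lib.MP_db21fa_an.TF.FinalDefs
import Pool.Agent.Lib.MP_db21fa_an.TF.MinData
import Pool.Agent.Lib.MP_db21fa_an.TF.StepTwo
import Pool.Agent.Lib.MP_db21fa_an_h84.LeviCivita

/-!
Module X1: forward direction.
-/

set_option autoImplicit false

open Filter Topology Metric

namespace Pool.Agent.Lib.MP_db21fa_an.TF

namespace ModX1

/-! ### coordinates -/

theorem clm_apply_eq_sum {m : ℕ} (l : (Fin m → ℂ) →L[ℂ] ℂ) (u : Fin m → ℂ) :
    l u = ∑ j, l (Pi.single j 1) * u j := by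
  conv_lhs => rw [← Finset.univ_sum_single u, map_sum]
  refine Finset.sum_congr rfl fun j _ => ?_
  have e : (Pi.single j (u j) : Fin m → ℂ) = u j • Pi.single j (1 : ℂ) := by
    rw [← Pi.single_smul, smul_eq_mul, mul_one]
  rw [e, map_smul, smul_eq_mul, mul_comm]

theorem bilin_eq_sum {n : ℕ} (B : (Fin n → ℂ) →L[ℂ] (Fin n → ℂ) →L[ℂ] ℂ) (x : Fin n → ℂ) :
    B x x = ∑ i, ∑ j, B (Pi.single i 1) (Pi.single j 1) * x i * x j := by
  have h1 : B x x = ∑ i, x i * B (Pi.single i 1) x := by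
    have h2 := clm_apply_eq_sum (B.flip x) x
    simp only [ContinuousLinearMap.flip_apply] at h2
    rw [h2]
    exact Finset.sum_congr rfl fun i _ => mul_comm _ _
  rw [h1]
  refine Finset.sum_congr rfl fun i _ => ?_
  rw [clm_apply_eq_sum (B (Pi.single i 1)) x, Finset.mul_sum]
  refine Finset.sum_congr rfl fun j _ => ?_
  ring

theorem mulVec_eq {n m : ℕ} (v : (Fin n → ℂ) →L[ℂ] (Fin m → ℂ)) (x : Fin n → ℂ) :
    (Matrix.of fun a i => v (Pi.single i 1) a).mulVec x = v x := by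
  funext a
  have h1 := clm_apply_eq_sum ((ContinuousLinearMap.proj (R := ℂ) a).comp v) x
  simp only [ContinuousLinearMap.comp_apply, ContinuousLinearMap.proj_apply] at h1
  rw [h1]
  rfl

/-! ### spans -/

/-- the generators -/
def Gen {n m : ℕ} (V : Matrix (Fin m) (Fin n) ℂ) (ω L : Fin (2 * m) → Fin m → ℂ) :
    Set ((Fin n → ℂ) → ℂ) :=
  {f | ∃ (P : MvPolynomial (Fin n) ℂ) (μ : Fin n → ℂ) (α : List (Fin m)) (θ : (Fin m → ℂ) → ℂ),
    IsTheta ω L θ ∧ ∀ x, f x = MvPolynomial.eval x P * Complex.exp (∑ i, μ i * x i) *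
      pd α θ (V.mulVec x)}

theorem thetaExp_of_mem {n m : ℕ} {A : Matrix (Fin n) (Fin n) ℂ} {V : Matrix (Fin m) (Fin n) ℂ}
    {ω L : Fin (2 * m) → Fin m → ℂ} {f g : (Fin n → ℂ) → ℂ}
    (hg : g ∈ Submodule.span ℂ (Gen V ω L))
    (hf : ∀ x, f x = Complex.exp (∑ i, ∑ j, A i j * x i * x j) * g x) : ThetaExp A V ω L f := by
  obtain ⟨k, a, G, hG⟩ := Submodule.mem_span_set'.1 hg
  choose P μ α θ hθ hGe using fun j => (G j).2
  refine ⟨k, fun j => MvPolynomial.C (a j) * P j, μ, α, θ, hθ, fun x => ?_⟩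
  rw [hf, ← hG, Finset.sum_apply]
  congr 1
  refine Finset.sum_congr rfl fun j _ => ?_
  rw [Pi.smul_apply, hGe, map_mul, MvPolynomial.eval_C, smul_eq_mul]
  ring

theorem mul_mem {n m : ℕ} {V : Matrix (Fin m) (Fin n) ℂ} {ω L : Fin (2 * m) → Fin m → ℂ}
    {f : (Fin n → ℂ) → ℂ} (hf : f ∈ Submodule.span ℂ (Gen V ω L)) (Q : MvPolynomial (Fin n) ℂ)
    (ν : Fin n → ℂ) :
    (fun x => MvPolynomial.eval x Q * Complex.exp (∑ i, ν i * x i) * f x) ∈
      Submodule.span ℂ (Gen V ω L) := by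
  induction hf using Submodule.span_induction with
  | mem f h =>
    obtain ⟨P, μ, α, θ, hθ, hf⟩ := h
    refine Submodule.subset_span ⟨Q * P, fun i => ν i + μ i, α, θ, hθ, fun x => ?_⟩
    simp only [hf, map_mul, add_mul, Finset.sum_add_distrib]
    rw [Complex.exp_add]
    ring
  | zero =>
    simp only [Pi.zero_apply, mul_zero]
    exact Submodule.zero_mem _
  | add f g _ _ h1 h2 =>
    have := Submodule.add_mem _ h1 h2
    refine (congrArg (fun F => F ∈ Submodule.span ℂ (Gen V ω L)) ?_).mpr this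
    funext x
    simp only [Pi.add_apply]
    ring
  | smul c f _ h =>
    have := Submodule.smul_mem _ c h
    refine (congrArg (fun F => F ∈ Submodule.span ℂ (Gen V ω L)) ?_).mpr this
    funext x
    simp only [Pi.smul_apply, smul_eq_mul]
    ring

theorem expPoly_mul_mem {n m : ℕ} {V : Matrix (Fin m) (Fin n) ℂ} {ω L : Fin (2 * m) → Fin m → ℂ}
    {f e : (Fin n → ℂ) → ℂ} (hf : f ∈ Submodule.span ℂ (Gen V ω L))
    (he : MP_db21fa_an_h84.IsExpPoly e) :
    (fun x => e x * f x) ∈ Submodule.span ℂ (Gen V ω L) := by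
  obtain ⟨Λ, p, hp⟩ := he
  have h1 : (fun x => e x * f x) = ∑ lam ∈ Λ, fun x => MvPolynomial.eval x (p lam) *
      Complex.exp (∑ i, lam i * x i) * f x := by
    funext x
    rw [Finset.sum_apply, hp, Finset.sum_mul]
  rw [h1]
  exact Submodule.sum_mem _ fun lam _ => mul_mem hf _ _

/-- composition with `v` -/
theorem comp_mem {n m : ℕ} (v : (Fin n → ℂ) →L[ℂ] (Fin m → ℂ)) {ω : Fin (2 * m) → Fin m → ℂ}
    {l : Fin (2 * m) → (Fin m → ℂ) →L[ℂ] ℂ} {F : (Fin m → ℂ) → ℂ} (hF : F ∈ ThetaDer ω l) :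
    (fun x => F (v x)) ∈ Submodule.span ℂ
      (Gen (Matrix.of fun a i => v (Pi.single i 1) a) ω (fun i j => l i (Pi.single j 1))) := by
  unfold ThetaDer at hF
  induction hF using Submodule.span_induction with
  | mem f h =>
    obtain ⟨P, α, c, θ, hθ, hf⟩ := h
    refine Submodule.subset_span ⟨MvPolynomial.bind₁ (fun a => ∑ i, MvPolynomial.C
      (v (Pi.single i 1) a) * MvPolynomial.X i) P, 0, α, θ, ⟨hθ.1, c, fun i u => ?_⟩, fun x => ?_⟩
    · rw [hθ.2 i u, clm_apply_eq_sum (l i) u]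
    · simp only [hf, mulVec_eq]
      have h1 : MvPolynomial.eval x (MvPolynomial.bind₁ (fun a => ∑ i, MvPolynomial.C
          (v (Pi.single i 1) a) * MvPolynomial.X i) P) = MvPolynomial.eval (v x) P := by
        rw [← MvPolynomial.coe_aeval_eq_eval, ← MvPolynomial.coe_aeval_eq_eval]
        simp only [RingHom.coe_coe]
        rw [MvPolynomial.aeval_bind₁]
        congr 2
        funext a
        rw [map_sum, ← mulVec_eq v x]
        refine Finset.sum_congr rfl fun i _ => ?_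
        simp
      rw [h1]
      simp
  | zero => exact Submodule.zero_mem _
  | add f g _ _ h1 h2 => exact Submodule.add_mem _ h1 h2
  | smul c f _ h => exact Submodule.smul_mem _ c h

/-- translation-finite functions are exponential polynomials -/
theorem isExpPoly_of_transFR {n : ℕ} {e : (Fin n → ℂ) → ℂ} (he : TransFR e) :
    MP_db21fa_an_h84.IsExpPoly e := by
  obtain ⟨hd, N, hN⟩ := he
  rw [rankLE_iff_minors] at hN
  exact MP_db21fa_an_h84.levi_civita (N := N) hd fun x y => hN x y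

/-! ### the data -/

section data

variable {E : Type*} [NormedAddCommGroup E] [NormedSpace ℂ E]

theorem gs_ne_zero (B : E →L[ℂ] E →L[ℂ] ℂ) (κ : E →L[ℂ] ℂ) (x : E) : gs B κ x ≠ 0 :=
  Complex.exp_ne_zero _

theorem gs_neg_mul (B : E →L[ℂ] E →L[ℂ] ℂ) (κ : E →L[ℂ] ℂ) (x : E) :
    gs (-B) (-κ) x * gs B κ x = 1 := by
  unfold gs
  rw [← Complex.exp_add, ← Complex.exp_zero]
  congr 1
  simp only [_root_.neg_apply]
  ring

theorem differentiable_gs (B : E →L[ℂ] E →L[ℂ] ℂ) (κ : E →L[ℂ] ℂ) :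
    Differentiable ℂ (gs B κ) := by
  unfold gs
  have h1 : Differentiable ℂ fun x : E => B x x :=
    (B.differentiable).clm_apply differentiable_id
  exact (h1.add κ.differentiable).cexp

end data

/-- integrality of the form -/
theorem integral {m : ℕ} {p : (Fin m → ℂ) → ℂ} {ι : Type*} {ω : ι → Fin m → ℂ}
    {l : ι → (Fin m → ℂ) →L[ℂ] ℂ} {c : ι → ℂ} {u₀ : Fin m → ℂ} (hu₀ : p u₀ ≠ 0)
    (hper : ∀ i u, p (u + ω i) = Complex.exp (l i u + c i) * p u) (i i' : ι) :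
    ∃ n : ℤ, l i (ω i') - l i' (ω i) = 2 * Real.pi * Complex.I * n := by
  have h1 := hper i (u₀ + ω i')
  have h2 := hper i' (u₀ + ω i)
  rw [hper i' u₀, ← mul_assoc, ← Complex.exp_add] at h1
  rw [hper i u₀, ← mul_assoc, ← Complex.exp_add] at h2
  rw [add_right_comm, h2] at h1
  have h3 := mul_right_cancel₀ hu₀ h1
  obtain ⟨n, hn⟩ := Complex.exp_eq_exp_iff_exists_int.1 h3
  simp only [map_add] at hn
  refine ⟨-n, ?_⟩
  push_cast
  linear_combination -hn

/-- one function -/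
theorem thetaExp_of_sim {n m : ℕ} {f : (Fin n → ℂ) → ℂ} (hf : Differentiable ℂ f) (hf0 : f ≠ 0)
    {v : (Fin n → ℂ) →L[ℂ] (Fin m → ℂ)} {B : (Fin n → ℂ) →L[ℂ] (Fin n → ℂ) →L[ℂ] ℂ}
    {κ : (Fin n → ℂ) →L[ℂ] ℂ} {p : (Fin m → ℂ) → ℂ}
    {ω : Module.Basis (Fin (2 * m)) ℝ (Fin m → ℂ)} {l : Fin (2 * m) → (Fin m → ℂ) →L[ℂ] ℂ}
    {c : Fin (2 * m) → ℂ} (hp : Differentiable ℂ p) (hpv : ∃ x, p (v x) ≠ 0)
    (hs : Sim f (fun x => gs B κ x * p (v x)))
    (hper : ∀ i u, p (u + ω i) = Complex.exp (l i u + c i) * p u)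
    (hZ : ZPrin v (Set.range ω))
    (hND : ∀ (u₀ : Fin m → ℂ) (A : (Fin m → ℂ) →L[ℂ] ℂ), (∀ i, l i u₀ = A (ω i)) → u₀ = 0) :
    ThetaExp (Matrix.of fun i j => B (Pi.single i 1) (Pi.single j 1))
      (Matrix.of fun a i => v (Pi.single i 1) a) ω (fun i j => l i (Pi.single j 1)) f := by
  have hs' : Sim (fun x => gs (-B) (-κ) x * f x) (fun x => p (v x)) := by
    have h1 := hs.gauss (-B) (-κ) (-κ)
    refine (congrArg (fun F => Sim (fun x => gs (-B) (-κ) x * f x) F) ?_).mpr h1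
    funext x
    rw [← mul_assoc, gs_neg_mul, one_mul]
  obtain ⟨x₀, hx₀⟩ : ∃ x, f x ≠ 0 := Function.ne_iff.1 hf0
  let D : Dat (Fin n → ℂ) (Fin m → ℂ) (Fin (2 * m)) :=
    { v := v
      ω := ω
      l := l
      c := c
      p := p
      h := fun x => gs (-B) (-κ) x * f x
      hp := hp
      per := hper
      hh := (differentiable_gs _ _).mul hf
      pv := hpv
      h0 := fun h => (mul_ne_zero (gs_ne_zero _ _ x₀) hx₀) (congrFun h x₀)
      Z := hZ
      sim := hs'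
      fd := thetaSp_finiteDimensional ω l c }
  obtain ⟨k, e, Θ, M, he, hΘ, hM, hMc, hΘper, hrep⟩ := step_two D
  obtain ⟨x₁, hx₁⟩ := hpv
  have hmem : ∀ j, Θ j ∈ ThetaDer ω l := fun j =>
    scalar_refinement ω l (integral hx₁ hper) hND hΘ hM hMc hΘper j
  have h1 : (fun x => Complex.exp (κ x) * (gs (-B) (-κ) x * f x)) ∈ Submodule.span ℂ
      (Gen (Matrix.of fun a i => v (Pi.single i 1) a) ω (fun i j => l i (Pi.single j 1))) := by
    have h2 : (fun x => Complex.exp (κ x) * (gs (-B) (-κ) x * f x)) =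
        ∑ j, fun x => MvPolynomial.eval x (1 : MvPolynomial (Fin n) ℂ) *
          Complex.exp (∑ i, κ (Pi.single i 1) * x i) * (e j x * Θ j (v x)) := by
      funext x
      rw [Finset.sum_apply, ← Finset.mul_sum, ← hrep x, clm_apply_eq_sum κ x, map_one, one_mul]
    rw [h2]
    exact Submodule.sum_mem _ fun j _ =>
      mul_mem (expPoly_mul_mem (comp_mem v (hmem j)) (isExpPoly_of_transFR (he j))) _ _
  refine thetaExp_of_mem h1 fun x => ?_
  have h3 : Complex.exp (∑ i, ∑ j, (Matrix.of fun i j => B (Pi.single i 1) (Pi.single j 1)) i j *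
      x i * x j) = Complex.exp (B x x) := by
    rw [bilin_eq_sum]
    rfl
  rw [h3, ← mul_assoc, ← Complex.exp_add]
  have h4 : Complex.exp (B x x + κ x) = gs B κ x := rfl
  rw [h4, ← mul_assoc, mul_comm (gs B κ x), gs_neg_mul, one_mul]

end ModX1

open ModX1 in
/-- **forward direction** -/
theorem forward {n : ℕ} {h b : (Fin n → ℂ) → ℂ} (hh : Differentiable ℂ h)
    (hb : Differentiable ℂ b) (hh0 : h ≠ 0) (hb0 : b ≠ 0) (hs : Sim h b) :
    ∃ (m : ℕ) (A : Matrix (Fin n) (Fin n) ℂ) (V : Matrix (Fin m) (Fin n) ℂ)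
      (ω L : Fin (2 * m) → Fin m → ℂ), LinearIndependent ℝ ω ∧ ThetaExp A V ω L h ∧
      ThetaExp A V ω L b := by
  have hhh : Sim h h := Sim.self hh hb hb0 hs
  obtain ⟨m, v, B, κ, p, ω, l, c, hp, hpv, hsp, hper, hZ, hND⟩ := exists_min_data hh hh0 hhh
  have hd : Differentiable ℂ (fun x => gs B κ x * p (v x)) :=
    (differentiable_gs B κ).mul (hp.comp v.differentiable)
  have hbp : Sim b (fun x => gs B κ x * p (v x)) := Sim.trans hb hh hd hh0 hs.symm hsp
  exact ⟨m, _, _, ω, _, ω.linearIndependent, thetaExp_of_sim hh hh0 hp hpv hsp hper hZ hND,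
    thetaExp_of_sim hb hb0 hp hpv hbp hper hZ hND⟩

end Pool.Agent.Lib.MP_db21fa_an.TF
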