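import Pool.Agent.Lib.MP_db21fa_an.TF.Grad
import Pool.Agent.Lib.MP_db21fa_an.TF.ConstRank

/-!
Module S4: presentations and holomorphic frames for families of spaces of symbols.
-/

set_option autoImplicit false

open Filter Topology Metric

namespace Pool.Agent.Lib.MP_db21fa_an.TF

variable {E G ι : Type*} [NormedAddCommGroup E] [NormedSpace ℂ E] [NormedAddCommGroup G]
  [NormedSpace ℂ G]

/-- The family of spaces `S w` is locally presented as the kernel of a holomorphic family of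
functionals on some `ℂ ^ M`. -/
def Presented (S : G → Submodule ℂ (E → G → ℂ)) : Prop :=
  ∀ w₀ : G, ∃ (U : Set G) (M : ℕ) (𝓛 : Set (G → (Fin M → ℂ) →ₗ[ℂ] ℂ))
    (Ψ : G → (Fin M → ℂ) → E → G → ℂ), IsOpen U ∧ w₀ ∈ U ∧
    (∀ L ∈ 𝓛, ∀ A, DifferentiableOn ℂ (fun w => L w A) U) ∧
    (∀ w ∈ U, ∀ A ∈ kerFam 𝓛 w, Ψ w A ∈ S w) ∧
    (∀ w ∈ U, ∀ Φ ∈ S w, ∃ A ∈ kerFam 𝓛 w, Ψ w A = Φ) ∧
    (∀ w ∈ U, ∀ A ∈ kerFam 𝓛 w, Ψ w A = 0 → A = 0) ∧
    (∀ w ∈ U, ∀ A ∈ kerFam 𝓛 w, ∀ A' ∈ kerFam 𝓛 w, ∀ s : ℂ,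
      Ψ w (s • A + A') = s • Ψ w A + Ψ w A') ∧
    (∀ (U' : Set G) (A : G → (Fin M → ℂ)), IsOpen U' → U' ⊆ U → DifferentiableOn ℂ A U' →
      (∀ w ∈ U', A w ∈ kerFam 𝓛 w) → HolFam (fun w => Ψ w (A w)) U')

/-- The family `S w` has dimension `d` and local holomorphic frames. -/
def Framed (S : G → Submodule ℂ (E → G → ℂ)) (d : ℕ) : Prop :=
  (∀ w, FiniteDimensional ℂ (S w) ∧ Module.finrank ℂ (S w) = d) ∧
  ∀ w₀ : G, ∃ (U : Set G) (F : Fin d → G → E → G → ℂ), IsOpen U ∧ w₀ ∈ U ∧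
    (∀ i, HolFam (F i) U) ∧ ∀ w ∈ U, (∀ i, F i w ∈ S w) ∧ LinearIndependent ℂ (fun i => F i w)

/-- at every point of the chart the presentation is a linear isomorphism -/
private theorem exists_equiv {S : G → Submodule ℂ (E → G → ℂ)} {M : ℕ}
    {𝓛 : Set (G → (Fin M → ℂ) →ₗ[ℂ] ℂ)} {Ψ : G → (Fin M → ℂ) → E → G → ℂ} {w : G}
    (h1 : ∀ A ∈ kerFam 𝓛 w, Ψ w A ∈ S w)
    (h2 : ∀ Φ ∈ S w, ∃ A ∈ kerFam 𝓛 w, Ψ w A = Φ)
    (h3 : ∀ A ∈ kerFam 𝓛 w, Ψ w A = 0 → A = 0)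
    (h4 : ∀ A ∈ kerFam 𝓛 w, ∀ A' ∈ kerFam 𝓛 w, ∀ s : ℂ,
      Ψ w (s • A + A') = s • Ψ w A + Ψ w A') :
    ∃ e : kerFam 𝓛 w ≃ₗ[ℂ] S w, ∀ A, ((e A : S w) : E → G → ℂ) = Ψ w A := by
  have h0 : Ψ w 0 = 0 := by
    have h := h4 0 (Submodule.zero_mem _) 0 (Submodule.zero_mem _) 1
    simp only [smul_zero, add_zero, one_smul] at h
    exact left_eq_add.1 h
  let φ : kerFam 𝓛 w →ₗ[ℂ] S w :=
    { toFun := fun A => ⟨Ψ w A, h1 A A.2⟩
      map_add' := by
        rintro ⟨A, hA⟩ ⟨A', hA'⟩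
        apply Subtype.ext
        have h := h4 A hA A' hA' 1
        simpa using h
      map_smul' := by
        rintro s ⟨A, hA⟩
        apply Subtype.ext
        have h := h4 A hA 0 (Submodule.zero_mem _) s
        rw [h0] at h
        simpa using h }
  have hinj : Function.Injective φ := by
    rw [← LinearMap.ker_eq_bot, LinearMap.ker_eq_bot']
    rintro ⟨A, hA⟩ h
    have h5 : Ψ w A = 0 := congrArg (fun x : S w => (x : E → G → ℂ)) h
    exact Subtype.ext (h3 A hA h5)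
  have hsurj : Function.Surjective φ := by
    rintro ⟨Φ, hΦ⟩
    obtain ⟨A, hA, h5⟩ := h2 Φ hΦ
    exact ⟨⟨A, hA⟩, Subtype.ext h5⟩
  exact ⟨LinearEquiv.ofBijective φ ⟨hinj, hsurj⟩, fun A => rfl⟩

theorem Presented.finiteDimensional {S : G → Submodule ℂ (E → G → ℂ)} (h : Presented S) (w : G) :
    FiniteDimensional ℂ (S w) := by
  obtain ⟨U, M, 𝓛, Ψ, -, hwU, -, h1, h2, h3, h4, -⟩ := h w
  obtain ⟨e, -⟩ := exists_equiv (h1 w hwU) (h2 w hwU) (h3 w hwU) (h4 w hwU)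
  exact Module.Finite.equiv e

theorem Presented.locAnalytic {S : G → Submodule ℂ (E → G → ℂ)} (h : Presented S) (d : ℕ) :
    LocAnalytic {w | d ≤ Module.finrank ℂ (S w)} := by
  intro w₀
  obtain ⟨U, M, 𝓛, Ψ, hU, hwU, h𝓛, h1, h2, h3, h4, -⟩ := h w₀
  obtain ⟨𝓕, hF, hF'⟩ := kerFam_analytic h𝓛 d
  refine ⟨U, hU, hwU, 𝓕, hF, fun w hw => ?_⟩
  obtain ⟨e, -⟩ := exists_equiv (h1 w hw) (h2 w hw) (h3 w hw) (h4 w hw)
  rw [← hF' w hw, Set.mem_setOf_eq, e.finrank_eq]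

theorem Presented.framed {S : G → Submodule ℂ (E → G → ℂ)} (h : Presented S) {d : ℕ}
    (hd : ∀ w, Module.finrank ℂ (S w) = d) : Framed S d := by
  refine ⟨fun w => ⟨h.finiteDimensional w, hd w⟩, fun w₀ => ?_⟩
  obtain ⟨U, M, 𝓛, Ψ, hU, hwU, h𝓛, h1, h2, h3, h4, h5⟩ := h w₀
  have hd' : ∀ w ∈ U, Module.finrank ℂ (kerFam 𝓛 w) = d := by
    intro w hw
    obtain ⟨e, -⟩ := exists_equiv (h1 w hw) (h2 w hw) (h3 w hw) (h4 w hw)
    rw [e.finrank_eq, hd]
  obtain ⟨U', f, hU', hw', hsub, hf, hf'⟩ := kerFam_frame hU h𝓛 hd' hwU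
  refine ⟨U', fun i w => Ψ w (f i w), hU', hw', fun i => ?_, fun w hw => ⟨fun i => ?_, ?_⟩⟩
  · exact h5 U' (f i) hU' hsub (hf i) fun w hw => (hf' w hw).1 i
  · exact h1 w (hsub hw) _ ((hf' w hw).1 i)
  · have hwU := hsub hw
    obtain ⟨e, he⟩ := exists_equiv (h1 w hwU) (h2 w hwU) (h3 w hwU) (h4 w hwU)
    have hli : LinearIndependent ℂ (fun i => (⟨f i w, (hf' w hw).1 i⟩ : kerFam 𝓛 w)) := by
      have h6 := (hf' w hw).2
      exact LinearIndependent.of_comp (kerFam 𝓛 w).subtype h6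
    have h7 : LinearIndependent ℂ ((S w).subtype ∘ e ∘
        fun i => (⟨f i w, (hf' w hw).1 i⟩ : kerFam 𝓛 w)) := by
      have h8 := hli.map' (e : kerFam 𝓛 w →ₗ[ℂ] S w) (LinearMap.ker_eq_bot.2 e.injective)
      exact h8.map' (S w).subtype (LinearMap.ker_eq_bot.2 Subtype.val_injective)
    have h9 : ((S w).subtype ∘ e ∘ fun i => (⟨f i w, (hf' w hw).1 i⟩ : kerFam 𝓛 w)) =
        fun i => Ψ w (f i w) := by
      funext i
      exact he _
    rwa [h9] at h7

private theorem prod_diffOn {κ V : Type*} [NormedAddCommGroup V] [NormedSpace ℂ V] {U : Set V}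
    {f : κ → V → ℂ} (s : Finset κ)
    (h : ∀ i, DifferentiableOn ℂ (f i) U) : DifferentiableOn ℂ (fun w => ∏ i ∈ s, f i w) U := by
  classical
  induction s using Finset.induction_on with
  | empty => simp
  | insert a s ha ih =>
    simp only [Finset.prod_insert ha]
    exact (h a).mul ih

private theorem det_diffOn {κ V : Type*} [NormedAddCommGroup V] [NormedSpace ℂ V] [Fintype κ]
    [DecidableEq κ] {U : Set V}
    {A : V → Matrix κ κ ℂ} (h : ∀ i j, DifferentiableOn ℂ (fun w => A w i j) U) :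
    DifferentiableOn ℂ (fun w => (A w).det) U := by
  simp only [Matrix.det_apply]
  refine DifferentiableOn.fun_sum fun σ _ => ?_
  refine DifferentiableOn.const_smul ?_ _
  exact prod_diffOn _ fun i => h _ _

/-- coordinates with respect to a frame: a holomorphic family in the span of a frame is a
holomorphic combination of the frame -/
theorem hol_coords {d : ℕ} {F : Fin d → G → E → G → ℂ} {U : Set G} (hU : IsOpen U)
    (hF : ∀ i, HolFam (F i) U) (hli : ∀ w ∈ U, LinearIndependent ℂ (fun i => F i w))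
    {V : Type*} [NormedAddCommGroup V] [NormedSpace ℂ V] {O : Set V} (hO : IsOpen O) {w : V → G}
    {Φ : V → E → G → ℂ} (hwU : ∀ t ∈ O, w t ∈ U) (hw : DifferentiableOn ℂ w O) (hΦ : HolFam Φ O)
    (hs : ∀ t ∈ O, Φ t ∈ Submodule.span ℂ (Set.range fun i => F i (w t))) :
    ∃ α : Fin d → V → ℂ, (∀ i, DifferentiableOn ℂ (α i) O) ∧
      ∀ t ∈ O, Φ t = ∑ i, α i t • F i (w t) := by
  classical
  have hex : ∀ t : V, ∃ a : Fin d → ℂ, t ∈ O → Φ t = ∑ i, a i • F i (w t) := by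
    intro t
    by_cases ht : t ∈ O
    · obtain ⟨a, ha⟩ := (Submodule.mem_span_range_iff_exists_fun ℂ).1 (hs t ht)
      exact ⟨a, fun _ => ha.symm⟩
    · exact ⟨0, fun h => absurd h ht⟩
  choose a ha using hex
  refine ⟨fun i t => a t i, fun i => ?_, fun t ht => ha t ht⟩
  -- evaluation functions are holomorphic
  have hev : ∀ (j : Fin d) (x : E × G), DifferentiableOn ℂ (fun t => F j (w t) x.1 x.2) O := by
    intro j x
    have h1 : DifferentiableOn ℂ (fun t : V => ((w t, x) : G × (E × G))) O :=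
      hw.prodMk (differentiableOn_const _)
    exact (hF j).comp h1 fun t ht => ⟨hwU t ht, Set.mem_univ _⟩
  have hevΦ : ∀ x : E × G, DifferentiableOn ℂ (fun t => Φ t x.1 x.2) O := by
    intro x
    have h1 : DifferentiableOn ℂ (fun t : V => ((t, x) : V × (E × G))) O :=
      differentiableOn_id.prodMk (differentiableOn_const _)
    exact DifferentiableOn.comp (hΦ : DifferentiableOn ℂ
      (fun q : V × (E × G) => Φ q.1 q.2.1 q.2.2) (O ×ˢ Set.univ)) h1
      fun t ht => ⟨ht, Set.mem_univ _⟩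
  intro t₀ ht₀
  -- points
  have hli' : LinearIndependent ℂ (fun (j : Fin d) (x : E × G) => F j (w t₀) x.1 x.2) := by
    have h1 := hli (w t₀) (hwU t₀ ht₀)
    rw [Fintype.linearIndependent_iff] at h1 ⊢
    intro c hc
    apply h1 c
    funext z g
    have h2 := congrFun hc (z, g)
    simpa [Finset.sum_apply] using h2
  obtain ⟨x, hx⟩ := exists_det_ne_zero _ hli'
  let B : V → Matrix (Fin d) (Fin d) ℂ := fun t => Matrix.of fun k j => F j (w t) (x k).1 (x k).2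
  have hBd : ∀ k j, DifferentiableOn ℂ (fun t => B t k j) O := fun k j => hev j (x k)
  have hdet := det_diffOn hBd
  have hdet0 : (B t₀).det ≠ 0 := hx
  let b : V → Fin d → ℂ := fun t k => Φ t (x k).1 (x k).2
  have hBa : ∀ t ∈ O, (B t).mulVec (a t) = b t := by
    intro t ht
    funext k
    have h1 := congrFun (congrFun (ha t ht) (x k).1) (x k).2
    simp only [Finset.sum_apply, Pi.smul_apply, smul_eq_mul] at h1
    simp only [Matrix.mulVec, dotProduct, B, Matrix.of_apply, b]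
    rw [h1]
    exact Finset.sum_congr rfl fun j _ => mul_comm _ _
  have hO' : IsOpen (O ∩ (fun t => (B t).det) ⁻¹' {0}ᶜ) :=
    hdet.continuousOn.isOpen_inter_preimage hO isOpen_compl_singleton
  have hform : ∀ t ∈ O ∩ (fun t => (B t).det) ⁻¹' {0}ᶜ,
      a t i = ((B t).det)⁻¹ * (B t).cramer (b t) i := by
    rintro t ⟨ht, hd⟩
    have hd' : (B t).det ≠ 0 := hd
    have h1 : (B t).cramer (b t) = (B t).det • a t := by
      rw [← hBa t ht, Matrix.cramer_eq_adjugate_mulVec, Matrix.mulVec_mulVec,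
        Matrix.adjugate_mul, Matrix.smul_mulVec, Matrix.one_mulVec]
    rw [h1, Pi.smul_apply, smul_eq_mul, ← mul_assoc, inv_mul_cancel₀ hd', one_mul]
  have hcr : DifferentiableOn ℂ (fun t => (B t).cramer (b t) i) O := by
    simp only [Matrix.cramer_apply]
    refine det_diffOn fun i' j' => ?_
    simp only [Matrix.updateCol_apply]
    split_ifs with h
    · exact hevΦ (x i')
    · exact hBd i' j'
  have hright : DifferentiableOn ℂ (fun t => ((B t).det)⁻¹ * (B t).cramer (b t) i)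
      (O ∩ (fun t => (B t).det) ⁻¹' {0}ᶜ) := by
    refine DifferentiableOn.mul ?_ (hcr.mono Set.inter_subset_left)
    exact (hdet.mono Set.inter_subset_left).inv fun t ht => ht.2
  have h2 : DifferentiableOn ℂ (fun t => a t i) (O ∩ (fun t => (B t).det) ⁻¹' {0}ᶜ) :=
    hright.congr fun t ht => hform t ht
  exact ((h2 t₀ ⟨ht₀, hdet0⟩).differentiableAt (hO'.mem_nhds ⟨ht₀, hdet0⟩)).differentiableWithinAt

end Pool.Agent.Lib.MP_db21fa_an.TF
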