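import Pool.Agent.Lib.MP_db21fa_an.TF.KeyExt
import Pool.Agent.Lib.MP_db21fa_an.TF.ExtBound

/-!
Module K3: a maximal extension has cocompact periods.
-/

set_option autoImplicit false

set_option linter.unusedSectionVars false

open Filter Topology Metric

namespace Pool.Agent.Lib.MP_db21fa_an.TF

variable {E : Type*} [NormedAddCommGroup E] [NormedSpace ℂ E] [FiniteDimensional ℂ E]

/-- `p` extends to `k` more variables -/
private def HasExt (p : E → ℂ) (N k : ℕ) : Prop :=
  ∃ P : E × (Fin k → ℂ) → ℂ, Differentiable ℂ P ∧ RankLE (PK P P) N ∧ (∀ x, P (x, 0) = p x) ∧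
    NonDeg P

private theorem hasExt_zero {p : E → ℂ} {N : ℕ} (hmin : RankMin p N) (hnd : NonDeg p) :
    HasExt p N 0 := by
  refine ⟨fun z => p z.1, hmin.diff.comp differentiable_fst, ?_, fun x => rfl, ?_⟩
  · exact rankLE_PK_comp hmin.rank (ContinuousLinearMap.fst ℂ E (Fin 0 → ℂ))
  · rintro ⟨c, τ⟩ L γ hL
    have hτ : τ = 0 := Subsingleton.elim _ _
    have hc : c = 0 := by
      apply hnd c (L.comp (ContinuousLinearMap.inl ℂ E (Fin 0 → ℂ))) γ
      intro u
      have h1 := hL (u, 0)
      have h2 : HasFDerivAt (fun z : E × (Fin 0 → ℂ) => p z.1)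
          ((fderiv ℂ p u).comp (ContinuousLinearMap.fst ℂ E (Fin 0 → ℂ))) (u, 0) :=
        (hmin.diff u).hasFDerivAt.comp (u, (0 : Fin 0 → ℂ)) hasFDerivAt_fst
      rw [h2.fderiv] at h1
      exact h1
    rw [hc, hτ]
    rfl

private noncomputable def addVar (k : ℕ) :
    (E × (Fin (k + 1) → ℂ)) →L[ℂ] (E × (Fin k → ℂ)) × ℂ :=
  ((ContinuousLinearMap.fst ℂ E (Fin (k + 1) → ℂ)).prod
    (ContinuousLinearMap.pi fun i : Fin k =>
      (ContinuousLinearMap.proj (R := ℂ) (φ := fun _ : Fin (k + 1) => ℂ) i.succ).comp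
        (ContinuousLinearMap.snd ℂ E (Fin (k + 1) → ℂ)))).prod
    ((ContinuousLinearMap.proj (R := ℂ) (φ := fun _ : Fin (k + 1) => ℂ) 0).comp
      (ContinuousLinearMap.snd ℂ E (Fin (k + 1) → ℂ)))

private theorem addVar_apply (k : ℕ) (z : E × (Fin (k + 1) → ℂ)) :
    addVar k z = ((z.1, fun i : Fin k => z.2 i.succ), z.2 0) := rfl

private theorem hasExt_succ {p : E → ℂ} {N k : ℕ} (hmin : RankMin p N) (hp0 : p 0 = 1)
    {P : E × (Fin k → ℂ) → ℂ} (hP : Differentiable ℂ P) (hr : RankLE (PK P P) N)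
    (hres : ∀ x, P (x, 0) = p x) (hnd : NonDeg P) (hnf : ¬ FullPer P) : HasExt p N (k + 1) := by
  have hm : RankMin P N :=
    rankMin_ext hmin (ContinuousLinearMap.inl ℂ E (Fin k → ℂ)) hP hr fun x => hres x
  have h0 : P 0 = 1 := by
    rw [← hp0, ← hres 0]
    rfl
  obtain ⟨Q, hQ, hQr, hQres, hQnd⟩ := key_ext hm hnd h0 hnf
  let A : (E × (Fin (k + 1) → ℂ)) →L[ℂ] (E × (Fin k → ℂ)) × ℂ := addVar k
  have hA : Differentiable ℂ fun z => A z := A.differentiable
  refine ⟨fun z => Q (addVar k z), hQ.comp hA, rankLE_PK_comp hQr A, ?_, ?_⟩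
  · intro x
    have h1 : addVar k (x, (0 : Fin (k + 1) → ℂ)) = ((x, (0 : Fin k → ℂ)), (0 : ℂ)) := by
      rw [addVar_apply]; rfl
    change Q (addVar k (x, 0)) = p x
    rw [h1, hQres, hres]
  · intro w L γ hL
    -- the inverse of `addVar`
    let back : (E × (Fin k → ℂ)) × ℂ → E × (Fin (k + 1) → ℂ) :=
      fun z => (z.1.1, Fin.cons z.2 z.1.2)
    have hback : ∀ z, addVar k (back z) = z := by
      rintro ⟨⟨x, t⟩, s⟩
      rw [addVar_apply]
      simp [back]
    have hback' : ∀ z, back (addVar k z) = z := by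
      rintro ⟨x, t⟩
      rw [addVar_apply]
      simp only [back]
      ext i
      · rfl
      · refine Fin.cases ?_ (fun j => ?_) i <;> simp
    let bl : ((E × (Fin k → ℂ)) × ℂ) →ₗ[ℂ] (E × (Fin (k + 1) → ℂ)) :=
      { toFun := back
        map_add' := by
          intro x y
          have hinj : Function.Injective (addVar (E := E) k) := fun a b hab => by
            rw [← hback' a, hab, hback']
          apply hinj
          rw [hback, map_add, hback, hback]
        map_smul' := by
          intro a x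
          have hinj : Function.Injective (addVar (E := E) k) := fun a b hab => by
            rw [← hback' a, hab, hback']
          apply hinj
          rw [hback, map_smul, hback]
          rfl }
    have hz := hQnd (addVar k w) (L.comp (LinearMap.toContinuousLinearMap bl)) γ (by
      intro u
      have h1 := hL (back u)
      have h2 : HasFDerivAt (fun z : E × (Fin (k + 1) → ℂ) => Q (addVar k z))
          ((fderiv ℂ Q (addVar k (back u))).comp (addVar k)) (back u) := by
        have h3 : HasFDerivAt (fun z => A z) A (back u) := A.hasFDerivAt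
        exact (hQ (addVar k (back u))).hasFDerivAt.comp (back u) h3
      rw [h2.fderiv] at h1
      simp only [ContinuousLinearMap.comp_apply, hback] at h1
      exact h1)
    rw [← hback' w, hz]
    change bl 0 = 0
    rw [map_zero]

/-- a maximal extension has cocompact periods -/
theorem exists_full_ext {p : E → ℂ} {N : ℕ} (hmin : RankMin p N) (hnd : NonDeg p) (hp0 : p 0 = 1) :
    ∃ (k : ℕ) (P : E × (Fin k → ℂ) → ℂ), Differentiable ℂ P ∧ (∀ x, P (x, 0) = p x) ∧
      FullPer P := by
  classical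
  have hb : ∀ k, HasExt p N k → k ≤ Module.finrank ℂ E * N := by
    rintro k ⟨P, hP, hr, hres, hn⟩
    exact ext_bound hmin.rankEq hmin.ne hP hr hres hn
  have h0 := hasExt_zero hmin hnd
  have hmax := Nat.findGreatest_spec (P := HasExt p N) (n := Module.finrank ℂ E * N)
    (Nat.zero_le _) h0
  set k := Nat.findGreatest (HasExt p N) (Module.finrank ℂ E * N) with hk
  obtain ⟨P, hP, hr, hres, hn⟩ := hmax
  refine ⟨k, P, hP, hres, ?_⟩
  by_contra hnf
  have h1 := hasExt_succ hmin hp0 hP hr hres hn hnf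
  have h2 := hb _ h1
  have h3 := Nat.le_findGreatest h2 h1
  omega

end Pool.Agent.Lib.MP_db21fa_an.TF
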