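import Pool.Agent.Lib.MP_db21fa_an.TF.Dat

/-!
Module S2: the graded algebra of operators: composition.
-/

set_option autoImplicit false

open Filter Topology Metric

namespace Pool.Agent.Lib.MP_db21fa_an.TF

variable {E G ι : Type*} [NormedAddCommGroup E] [NormedSpace ℂ E] [NormedAddCommGroup G]
  [NormedSpace ℂ G]

/-- holomorphic families of functions on `E × G` -/
def HolFam {V : Type*} [NormedAddCommGroup V] [NormedSpace ℂ V] (F : V → E → G → ℂ) (U : Set V) :
    Prop :=
  DifferentiableOn ℂ (fun q : V × (E × G) => F q.1 q.2.1 q.2.2) (U ×ˢ Set.univ)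

/-! ### private lemmas of linear algebra -/

private theorem bil {n : ℕ} (r g : Fin n → ℂ) (A : Matrix (Fin n) (Fin n) ℂ) :
    ∑ i, ∑ j, r j * A j i * g i = r ⬝ᵥ (A.mulVec g) := by
  rw [Finset.sum_comm]
  simp only [dotProduct, Matrix.mulVec, Finset.mul_sum, mul_assoc]

private theorem pair_indep {X Y : Type*} {N : ℕ} {K : X → Y → ℂ} (h : RankLE K N)
    {a a' : Fin N → X} {b b' : Fin N → Y} (hd : (mm K a b).det ≠ 0) (hd' : (mm K a' b').det ≠ 0)
    {ρ : Y → ℂ} (hρ : ρ ∈ rowSp K) {γ : X → ℂ} (hγ : γ ∈ colSp K) :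
    ∑ i, ∑ j, ρ (b j) * (mm K a b)⁻¹ j i * γ (a i) =
      ∑ i, ∑ j, ρ (b' j) * (mm K a' b')⁻¹ j i * γ (a' i) := by
  have h1 := (mem_rowSp_iff h hd ρ).1 hρ
  have h2 := (mem_colSp_iff h hd' γ).1 hγ
  have e1 : (fun i => γ (a i)) =
      (mm K a b').mulVec ((mm K a' b')⁻¹.mulVec (fun i => γ (a' i))) := by
    funext k
    rw [h2 (a k), bil (fun j => K (a k) (b' j)) (fun i => γ (a' i)) (mm K a' b')⁻¹]
    rfl
  have e2 : (fun j => ρ (b' j)) =
      Matrix.vecMul (Matrix.vecMul (fun j => ρ (b j)) (mm K a b)⁻¹) (mm K a b') := by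
    funext k
    rw [h1 (b' k), bil (fun j => ρ (b j)) (fun i => K (a i) (b' k)) (mm K a b)⁻¹,
      Matrix.dotProduct_mulVec]
    rfl
  rw [bil (fun j => ρ (b j)) (fun i => γ (a i)), bil (fun j => ρ (b' j)) (fun i => γ (a' i)), e1,
    e2, Matrix.dotProduct_mulVec, Matrix.dotProduct_mulVec]

private theorem differentiableAt_det {V : Type*} [NormedAddCommGroup V] [NormedSpace ℂ V] {n : ℕ}
    {M : V → Matrix (Fin n) (Fin n) ℂ} {q : V}
    (h : ∀ i j, DifferentiableAt ℂ (fun x => M x i j) q) :
    DifferentiableAt ℂ (fun x => (M x).det) q := by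
  simp only [Matrix.det_apply]
  refine DifferentiableAt.fun_sum fun σ _ => ?_
  refine DifferentiableAt.const_smul ?_ _
  have key : ∀ s : Finset (Fin n), DifferentiableAt ℂ (fun x => ∏ i ∈ s, M x (σ i) i) q := by
    classical
    intro s
    induction s using Finset.induction_on with
    | empty => simp only [Finset.prod_empty]; exact differentiableAt_const _
    | insert i s his ih =>
      simp only [Finset.prod_insert his]
      exact (h (σ i) i).mul ih
  exact key _

private theorem differentiableAt_inv {V : Type*} [NormedAddCommGroup V] [NormedSpace ℂ V] {n : ℕ}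
    {M : V → Matrix (Fin n) (Fin n) ℂ} {q : V}
    (h : ∀ i j, DifferentiableAt ℂ (fun x => M x i j) q) (h0 : (M q).det ≠ 0) (i j : Fin n) :
    DifferentiableAt ℂ (fun x => (M x)⁻¹ i j) q := by
  have e : (fun x => (M x)⁻¹ i j) = fun x => ((M x).det)⁻¹ *
      ((M x).updateRow j (Pi.single i 1)).det := by
    funext x
    rw [Matrix.inv_def, Matrix.smul_apply, Matrix.adjugate_apply, Ring.inverse_eq_inv', smul_eq_mul]
  rw [e]
  refine ((differentiableAt_det h).inv h0).mul (differentiableAt_det fun k l => ?_)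
  by_cases hk : k = j
  · subst hk
    simp only [Matrix.updateRow_self]
    exact differentiableAt_const _
  · simp only [Matrix.updateRow_ne hk]
    exact h k l

namespace Dat

variable (D : Dat E G ι)

/-- `Φ` is (the symbol of) an operator of degree `w`. -/
structure IsH (w : G) (Φ : E → G → ℂ) : Prop where
  diff : Differentiable ℂ (fun q : E × G => Φ q.1 q.2)
  per : ∀ i z g, Φ z (g + D.ω i) = Complex.exp (D.l i (g + w) + D.c i) * Φ z g
  row : ∀ u x, D.KF Φ u x ∈ rowSp (D.K u)
  col : ∀ u y, (fun x => D.KF Φ u x y) ∈ colSp (D.K (u + w + w))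

/-- the space of operators of degree `w` -/
def H (w : G) : Submodule ℂ (E → G → ℂ) where
  carrier := {Φ | D.IsH w Φ}
  add_mem' := by
    intro Φ Φ' h h'
    refine ⟨h.diff.add h'.diff, fun i z g => ?_, fun u x => ?_, fun u y => ?_⟩
    · have e1 := h.per i z g
      have e2 := h'.per i z g
      simp only [Pi.add_apply, e1, e2, mul_add]
    · exact (rowSp (D.K u)).add_mem (h.row u x) (h'.row u x)
    · exact (colSp (D.K (u + w + w))).add_mem (h.col u y) (h'.col u y)
  zero_mem' := by
    refine ⟨differentiable_const 0, fun i z g => ?_, fun u x => ?_, fun u y => ?_⟩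
    · simp
    · exact (rowSp (D.K u)).zero_mem
    · exact (colSp (D.K (u + w + w))).zero_mem
  smul_mem' := by
    intro s Φ h
    refine ⟨h.diff.const_smul s, fun i z g => ?_, fun u x => ?_, fun u y => ?_⟩
    · have e1 := h.per i z g
      simp only [Pi.smul_apply, smul_eq_mul, e1]
      ring
    · exact (rowSp (D.K u)).smul_mem s (h.row u x)
    · exact (colSp (D.K (u + w + w))).smul_mem s (h.col u y)

theorem mem_H {w : G} {Φ : E → G → ℂ} : Φ ∈ D.H w ↔ D.IsH w Φ := Iff.rfl

/-- valid points -/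
theorem exists_points (u : G) : ∃ ab : (Fin D.N → E) × (Fin D.N → E),
    (mm (D.K u) ab.1 ab.2).det ≠ 0 := by
  obtain ⟨a, b, h⟩ := (D.rankEq u).exists_minor
  exact ⟨(a, b), h⟩

noncomputable def pts (u : G) : (Fin D.N → E) × (Fin D.N → E) := (D.exists_points u).choose

private theorem pts_spec (u : G) : (mm (D.K u) (D.pts u).1 (D.pts u).2).det ≠ 0 :=
  (D.exists_points u).choose_spec

/-- composition `Φ ∘ Φ'`, where `Φ'` has degree `w'` -/
noncomputable def cmp (w' : G) (Φ Φ' : E → G → ℂ) (z : E) (g : G) : ℂ :=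
  let u := g - D.v z + w' + w'
  let a := (D.pts u).1
  let b := (D.pts u).2
  ∑ i, ∑ j, Φ (z - b j) (D.v (b j) + g + w' + w') * (mm (D.K u) a b)⁻¹ j i *
    Φ' (a i) (D.v (a i) + g - D.v z)

variable {D}

/-- the formula of `cmp_spec` at `y = 0` for arbitrary valid points -/
private theorem cmp_eq {w w' : G} {Φ Φ' : E → G → ℂ} (hΦ : D.IsH w Φ) (hΦ' : D.IsH w' Φ') (z : E)
    (g : G) {a b : Fin D.N → E} (hd : (mm (D.K (g - D.v z + w' + w')) a b).det ≠ 0) :
    D.cmp w' Φ Φ' z g = ∑ i, ∑ j, Φ (z - b j) (D.v (b j) + g + w' + w') *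
      (mm (D.K (g - D.v z + w' + w')) a b)⁻¹ j i * Φ' (a i) (D.v (a i) + g - D.v z) := by
  have h1 := pair_indep (D.rankEq (g - D.v z + w' + w')).1 (D.pts_spec (g - D.v z + w' + w')) hd
    (hΦ.row (g - D.v z + w' + w') z) (hΦ'.col (g - D.v z) 0)
  have e1 : ∀ y, D.KF Φ (g - D.v z + w' + w') z y = Φ (z - y) (D.v y + g + w' + w') := by
    intro y
    unfold KF
    congr 1
    rw [map_add]; abel
  have e2 : ∀ x, D.KF Φ' (g - D.v z) x 0 = Φ' x (D.v x + g - D.v z) := by
    intro x
    unfold KF
    rw [sub_zero, add_zero]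
    congr 1
    abel
  simp only [e1, e2] at h1
  exact h1

theorem cmp_spec {w w' : G} {Φ Φ' : E → G → ℂ} (hΦ : D.IsH w Φ) (hΦ' : D.IsH w' Φ') (u : G)
    {a b : Fin D.N → E} (hd : (mm (D.K (u + w' + w')) a b).det ≠ 0) (x y : E) :
    D.KF (D.cmp w' Φ Φ') u x y = ∑ i, ∑ j, D.KF Φ (u + w' + w') x (b j) *
      (mm (D.K (u + w' + w')) a b)⁻¹ j i * D.KF Φ' u (a i) y := by
  -- the shifted points
  have hM : mm (D.K (D.v (x + y) + u - D.v (x - y) + w' + w')) (fun i => a i - y) (fun i => b i - y)
      = mm (D.K (u + w' + w')) a b := by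
    ext i j
    have h1 := D.K_shift (u + w' + w') y (a i - y) (b j - y)
    rw [sub_add_cancel, sub_add_cancel] at h1
    have e : D.v (x + y) + u - D.v (x - y) + w' + w' = u + w' + w' + D.v y + D.v y := by
      rw [map_add, map_sub]; abel
    change D.K _ (a i - y) (b j - y) = D.K (u + w' + w') (a i) (b j)
    rw [e, h1]
  have hd' : (mm (D.K (D.v (x + y) + u - D.v (x - y) + w' + w')) (fun i => a i - y)
      (fun i => b i - y)).det ≠ 0 := by rw [hM]; exact hd
  have h1 := cmp_eq hΦ hΦ' (x - y) (D.v (x + y) + u) hd'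
  change D.cmp w' Φ Φ' (x - y) (D.v (x + y) + u) = _
  rw [h1, hM]
  refine Finset.sum_congr rfl fun i _ => Finset.sum_congr rfl fun j _ => ?_
  unfold KF
  have e1 : x - y - (b j - y) = x - b j := by abel
  have e2 : D.v (b j - y) + (D.v (x + y) + u) + w' + w' = D.v (x + b j) + (u + w' + w') := by
    rw [map_sub, map_add, map_add]; abel
  have e3 : D.v (a i - y) + (D.v (x + y) + u) - D.v (x - y) = D.v (a i + y) + u := by
    rw [map_sub, map_sub, map_add, map_add]; abel
  rw [e1, e2, e3]

theorem HolFam.cmp {V : Type*} [NormedAddCommGroup V] [NormedSpace ℂ V] {F F' : V → E → G → ℂ}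
    {w w' : V → G} {U : Set V} (hU : IsOpen U) (hw : DifferentiableOn ℂ w' U)
    (h : ∀ t ∈ U, D.IsH (w t) (F t)) (h' : ∀ t ∈ U, D.IsH (w' t) (F' t)) (hF : HolFam F U)
    (hF' : HolFam F' U) : HolFam (fun t => D.cmp (w' t) (F t) (F' t)) U := by
  rintro ⟨t₀, z₀, g₀⟩ ⟨ht₀, -⟩
  refine DifferentiableAt.differentiableWithinAt ?_
  have ht₀' : t₀ ∈ U := ht₀
  have hopen : IsOpen (U ×ˢ (Set.univ : Set (E × G))) := hU.prod isOpen_univ
  set q₀ : V × (E × G) := (t₀, z₀, g₀) with hq₀
  -- the point of the parameter space at which the kernel is taken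
  let uu : V × (E × G) → G := fun q => q.2.2 - D.v q.2.1 + w' q.1 + w' q.1
  have hw1 : DifferentiableAt ℂ (fun q : V × (E × G) => w' q.1) q₀ :=
    DifferentiableAt.comp q₀ (f := fun q : V × (E × G) => q.1) (g := w')
      (hw.differentiableAt (hU.mem_nhds ht₀')) differentiableAt_fst
  have hz : DifferentiableAt ℂ (fun q : V × (E × G) => q.2.1) q₀ :=
    differentiableAt_snd.fst
  have hg : DifferentiableAt ℂ (fun q : V × (E × G) => q.2.2) q₀ :=
    differentiableAt_snd.snd
  have hvz : DifferentiableAt ℂ (fun q : V × (E × G) => D.v q.2.1) q₀ :=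
    D.v.differentiableAt.comp q₀ hz
  have huu : DifferentiableAt ℂ uu q₀ := ((hg.sub hvz).add hw1).add hw1
  let a := (D.pts (uu q₀)).1
  let b := (D.pts (uu q₀)).2
  let M : V × (E × G) → Matrix (Fin D.N) (Fin D.N) ℂ := fun q => mm (D.K (uu q)) a b
  have hM : ∀ i j, DifferentiableAt ℂ (fun q => M q i j) q₀ := by
    intro i j
    change DifferentiableAt ℂ (fun q => D.h (a i - b j) * D.p (D.v (a i + b j) + uu q)) q₀
    refine DifferentiableAt.const_mul ?_ _
    exact DifferentiableAt.comp q₀ (g := D.p) D.hp.differentiableAt (huu.const_add _)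
  have hM0 : (M q₀).det ≠ 0 := D.pts_spec (uu q₀)
  have hev : ∀ᶠ q in 𝓝 q₀, (M q).det ≠ 0 :=
    (differentiableAt_det hM).continuousAt.eventually_ne hM0
  have hevU : ∀ᶠ q in 𝓝 q₀, q.1 ∈ U :=
    Filter.mem_of_superset (hopen.mem_nhds ⟨ht₀', trivial⟩) (fun q hq => hq.1)
  have heq : (fun q : V × (E × G) => D.cmp (w' q.1) (F q.1) (F' q.1) q.2.1 q.2.2) =ᶠ[𝓝 q₀]
      fun q => ∑ i, ∑ j, F q.1 (q.2.1 - b j) (D.v (b j) + q.2.2 + w' q.1 + w' q.1) *
        (M q)⁻¹ j i * F' q.1 (a i) (D.v (a i) + q.2.2 - D.v q.2.1) := by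
    filter_upwards [hev, hevU] with q hq hqU
    exact cmp_eq (h q.1 hqU) (h' q.1 hqU) q.2.1 q.2.2 hq
  refine DifferentiableAt.congr_of_eventuallyEq ?_ heq
  refine DifferentiableAt.fun_sum fun i _ => DifferentiableAt.fun_sum fun j _ => ?_
  refine (DifferentiableAt.mul ?_ (differentiableAt_inv hM hM0 j i)).mul ?_
  · have e : DifferentiableAt ℂ (fun q : V × (E × G) =>
        ((q.1, (q.2.1 - b j, D.v (b j) + q.2.2 + w' q.1 + w' q.1)) : V × (E × G))) q₀ :=
      differentiableAt_fst.prodMk ((hz.sub_const _).prodMk (((hg.const_add _).add hw1).add hw1))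
    exact DifferentiableAt.comp q₀ (g := fun q : V × (E × G) => F q.1 q.2.1 q.2.2)
      (hF.differentiableAt (hopen.mem_nhds ⟨ht₀', trivial⟩)) e
  · have e : DifferentiableAt ℂ (fun q : V × (E × G) =>
        ((q.1, (a i, D.v (a i) + q.2.2 - D.v q.2.1)) : V × (E × G))) q₀ :=
      differentiableAt_fst.prodMk ((differentiableAt_const _).prodMk ((hg.const_add _).sub hvz))
    exact DifferentiableAt.comp q₀ (g := fun q : V × (E × G) => F' q.1 q.2.1 q.2.2)
      (hF'.differentiableAt (hopen.mem_nhds ⟨ht₀', trivial⟩)) e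

theorem IsH.cmp {w w' : G} {Φ Φ' : E → G → ℂ} (hΦ : D.IsH w Φ) (hΦ' : D.IsH w' Φ') :
    D.IsH (w + w') (D.cmp w' Φ Φ') := by
  refine ⟨?_, ?_, ?_, ?_⟩
  · -- holomorphy: constant families
    have h1 : HolFam (fun _ : ℂ => Φ) Set.univ := by
      intro q _
      exact (DifferentiableAt.comp q (g := fun q : E × G => Φ q.1 q.2) hΦ.diff.differentiableAt
        differentiableAt_snd).differentiableWithinAt
    have h2 : HolFam (fun _ : ℂ => Φ') Set.univ := by
      intro q _
      exact (DifferentiableAt.comp q (g := fun q : E × G => Φ' q.1 q.2) hΦ'.diff.differentiableAt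
        differentiableAt_snd).differentiableWithinAt
    have h3 := HolFam.cmp (D := D) (V := ℂ) (F := fun _ => Φ) (F' := fun _ => Φ')
      (w := fun _ => w) (w' := fun _ => w') isOpen_univ (differentiableOn_const w')
      (fun _ _ => hΦ) (fun _ _ => hΦ') h1 h2
    intro q
    have h4 := h3.differentiableAt (x := ((0 : ℂ), q)) (by simp)
    exact DifferentiableAt.comp q (f := fun q : E × G => ((0 : ℂ), q)) h4
      ((differentiableAt_const _).prodMk differentiableAt_id)
  · intro i z g
    have hd := D.pts_spec (g - D.v z + w' + w')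
    set a := (D.pts (g - D.v z + w' + w')).1 with ha
    set b := (D.pts (g - D.v z + w' + w')).2 with hb
    have e0 : g + D.ω i - D.v z + w' + w' = g - D.v z + w' + w' + D.ω i := by abel
    -- the matrix at the shifted point
    have hM : mm (D.K (g + D.ω i - D.v z + w' + w')) a b =
        Matrix.diagonal (fun k => Complex.exp (D.l i (D.v (a k)) +
          (D.l i (g - D.v z + w' + w') + D.c i))) *
        mm (D.K (g - D.v z + w' + w')) a b *
          Matrix.diagonal (fun k => Complex.exp (D.l i (D.v (b k)))) := by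
      ext k m
      rw [Matrix.mul_diagonal, Matrix.diagonal_mul]
      change D.K _ (a k) (b m) = Complex.exp _ * D.K _ (a k) (b m) * Complex.exp _
      rw [e0, D.K_per, Complex.exp_add (D.l i (D.v (a k)))]
      ring
    have hinv : ∀ k m, (mm (D.K (g + D.ω i - D.v z + w' + w')) a b)⁻¹ m k =
        Complex.exp (-D.l i (D.v (b m))) * (mm (D.K (g - D.v z + w' + w')) a b)⁻¹ m k *
        Complex.exp (-(D.l i (D.v (a k)) + (D.l i (g - D.v z + w' + w') + D.c i))) := by
      intro k m
      have h1 : (mm (D.K (g + D.ω i - D.v z + w' + w')) a b)⁻¹ =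
          Matrix.diagonal (fun k => Complex.exp (-D.l i (D.v (b k)))) *
          (mm (D.K (g - D.v z + w' + w')) a b)⁻¹ *
          Matrix.diagonal (fun k => Complex.exp (-(D.l i (D.v (a k)) +
            (D.l i (g - D.v z + w' + w') + D.c i)))) := by
        refine Matrix.inv_eq_right_inv ?_
        rw [hM]
        have hu : IsUnit (mm (D.K (g - D.v z + w' + w')) a b).det := isUnit_iff_ne_zero.2 hd
        have hd1 : Matrix.diagonal (fun k => Complex.exp (D.l i (D.v (b k)))) *
            Matrix.diagonal (fun k => Complex.exp (-D.l i (D.v (b k)))) = 1 := by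
          rw [Matrix.diagonal_mul_diagonal, ← Matrix.diagonal_one]
          congr 1
          funext k
          rw [← Complex.exp_add, add_neg_cancel, Complex.exp_zero]
        have hd2 : Matrix.diagonal (fun k => Complex.exp (D.l i (D.v (a k)) +
            (D.l i (g - D.v z + w' + w') + D.c i))) *
            Matrix.diagonal (fun k => Complex.exp (-(D.l i (D.v (a k)) +
            (D.l i (g - D.v z + w' + w') + D.c i)))) = 1 := by
          rw [Matrix.diagonal_mul_diagonal, ← Matrix.diagonal_one]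
          congr 1
          funext k
          rw [← Complex.exp_add, add_neg_cancel, Complex.exp_zero]
        set A := Matrix.diagonal (fun k => Complex.exp (D.l i (D.v (a k)) +
            (D.l i (g - D.v z + w' + w') + D.c i)))
        set A' := Matrix.diagonal (fun k => Complex.exp (-(D.l i (D.v (a k)) +
            (D.l i (g - D.v z + w' + w') + D.c i))))
        set B := Matrix.diagonal (fun k => Complex.exp (D.l i (D.v (b k))))
        set B' := Matrix.diagonal (fun k => Complex.exp (-D.l i (D.v (b k))))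
        set M := mm (D.K (g - D.v z + w' + w')) a b
        calc A * M * B * (B' * M⁻¹ * A') = A * M * (B * B') * M⁻¹ * A' := by
              simp only [Matrix.mul_assoc]
          _ = A * (M * M⁻¹) * A' := by rw [hd1, Matrix.mul_one]; simp only [Matrix.mul_assoc]
          _ = 1 := by rw [Matrix.mul_nonsing_inv _ hu, Matrix.mul_one, hd2]
      rw [h1, Matrix.mul_diagonal, Matrix.diagonal_mul]
    have hd' : (mm (D.K (g + D.ω i - D.v z + w' + w')) a b).det ≠ 0 := by
      rw [hM, Matrix.det_mul, Matrix.det_mul, Matrix.det_diagonal, Matrix.det_diagonal]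
      refine mul_ne_zero (mul_ne_zero ?_ hd) ?_
      · exact Finset.prod_ne_zero_iff.2 fun _ _ => Complex.exp_ne_zero _
      · exact Finset.prod_ne_zero_iff.2 fun _ _ => Complex.exp_ne_zero _
    rw [cmp_eq hΦ hΦ' z (g + D.ω i) hd', cmp_eq hΦ hΦ' z g hd, Finset.mul_sum]
    refine Finset.sum_congr rfl fun k _ => ?_
    rw [Finset.mul_sum]
    refine Finset.sum_congr rfl fun m _ => ?_
    rw [hinv k m]
    have e1 : D.v (b m) + (g + D.ω i) + w' + w' = D.v (b m) + g + w' + w' + D.ω i := by abel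
    have e2 : D.v (a k) + (g + D.ω i) - D.v z = D.v (a k) + g - D.v z + D.ω i := by abel
    rw [e1, e2, hΦ.per, hΦ'.per]
    have e3 : Complex.exp (D.l i (g + (w + w')) + D.c i) =
        Complex.exp (D.l i (D.v (b m) + g + w' + w' + w) + D.c i) *
        Complex.exp (-D.l i (D.v (b m))) *
        Complex.exp (-(D.l i (D.v (a k)) + (D.l i (g - D.v z + w' + w') + D.c i))) *
        Complex.exp (D.l i (D.v (a k) + g - D.v z + w') + D.c i) := by
      rw [← Complex.exp_add, ← Complex.exp_add, ← Complex.exp_add]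
      congr 1
      simp only [map_add, map_sub]
      ring
    rw [e3]
    ring
  · intro u x
    have hd := D.pts_spec (u + w' + w')
    have e : D.KF (D.cmp w' Φ Φ') u x = ∑ i, ∑ j, (D.KF Φ (u + w' + w') x
        ((D.pts (u + w' + w')).2 j) * (mm (D.K (u + w' + w')) (D.pts (u + w' + w')).1
        (D.pts (u + w' + w')).2)⁻¹ j i) • D.KF Φ' u ((D.pts (u + w' + w')).1 i) := by
      funext y
      rw [cmp_spec hΦ hΦ' u hd x y]
      simp only [Finset.sum_apply, Pi.smul_apply, smul_eq_mul]
    rw [e]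
    exact Submodule.sum_mem _ fun i _ => Submodule.sum_mem _ fun j _ =>
      Submodule.smul_mem _ _ (hΦ'.row u _)
  · intro u y
    have hd := D.pts_spec (u + w' + w')
    have e : (fun x => D.KF (D.cmp w' Φ Φ') u x y) = ∑ i, ∑ j, ((mm (D.K (u + w' + w'))
        (D.pts (u + w' + w')).1 (D.pts (u + w' + w')).2)⁻¹ j i *
        D.KF Φ' u ((D.pts (u + w' + w')).1 i) y) •
        (fun x => D.KF Φ (u + w' + w') x ((D.pts (u + w' + w')).2 j)) := by
      funext x
      rw [cmp_spec hΦ hΦ' u hd x y]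
      simp only [Finset.sum_apply, Pi.smul_apply, smul_eq_mul]
      refine Finset.sum_congr rfl fun i _ => Finset.sum_congr rfl fun j _ => ?_
      ring
    rw [e]
    have e2 : u + (w + w') + (w + w') = u + w' + w' + w + w := by abel
    rw [e2]
    exact Submodule.sum_mem _ fun i _ => Submodule.sum_mem _ fun j _ =>
      Submodule.smul_mem _ _ (hΦ.col (u + w' + w') _)

end Dat

end Pool.Agent.Lib.MP_db21fa_an.TF
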