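import Pool.Agent.Lib.MP_db21fa_an.TF.Grad

/-!
Module S3: the graded algebra of operators: associativity, unit, translations, multiplications.
-/

set_option autoImplicit false

open Filter Topology Metric

namespace Pool.Agent.Lib.MP_db21fa_an.TF

variable {E G ι : Type*} [NormedAddCommGroup E] [NormedSpace ℂ E] [NormedAddCommGroup G]
  [NormedSpace ℂ G]

namespace Dat

variable {D : Dat E G ι}

private theorem ext_KF {Φ Ψ : E → G → ℂ} (h : ∀ u x y, D.KF Φ u x y = D.KF Ψ u x y) : Φ = Ψ := by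
  funext z g
  have := h (g - D.v z) z 0
  simpa [KF] using this

private theorem rowF {w : G} {Φ : E → G → ℂ} (hΦ : D.IsH w Φ) (u : G) {a b : Fin D.N → E}
    (hd : (mm (D.K u) a b).det ≠ 0) (x y : E) :
    D.KF Φ u x y = ∑ i, ∑ j, D.KF Φ u x (b j) * (mm (D.K u) a b)⁻¹ j i * D.K u (a i) y :=
  (mem_rowSp_iff (D.rankEq u).1 hd _).1 (hΦ.row u x) y

private theorem colF {w : G} {Φ : E → G → ℂ} (hΦ : D.IsH w Φ) (u : G) {a b : Fin D.N → E}
    (hd : (mm (D.K (u + w + w)) a b).det ≠ 0) (x y : E) :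
    D.KF Φ u x y = ∑ i, ∑ j, D.K (u + w + w) x (b j) * (mm (D.K (u + w + w)) a b)⁻¹ j i *
      D.KF Φ u (a i) y :=
  (mem_colSp_iff (D.rankEq (u + w + w)).1 hd _).1 (hΦ.col u y) x

theorem cmp_assoc {w w' w'' : G} {Φ Φ' Φ'' : E → G → ℂ} (hΦ : D.IsH w Φ) (hΦ' : D.IsH w' Φ')
    (hΦ'' : D.IsH w'' Φ'') :
    D.cmp w'' (D.cmp w' Φ Φ') Φ'' = D.cmp (w' + w'') Φ (D.cmp w'' Φ' Φ'') := by
  apply ext_KF (D := D)
  intro u x y
  have e : u + (w' + w'') + (w' + w'') = u + w'' + w'' + w' + w' := by abel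
  obtain ⟨⟨a, b⟩, hab⟩ := D.exists_points (u + w'' + w'')
  obtain ⟨⟨a', b'⟩, hab'⟩ := D.exists_points (u + w'' + w'' + w' + w')
  simp only at hab hab'
  have hab2 : (mm (D.K (u + (w' + w'') + (w' + w''))) a' b').det ≠ 0 := by rw [e]; exact hab'
  rw [cmp_spec (hΦ.cmp hΦ') hΦ'' u hab x y, cmp_spec hΦ (hΦ'.cmp hΦ'') u hab2 x y]
  simp only [cmp_spec hΦ hΦ' (u + w'' + w'') hab' x, cmp_spec hΦ' hΦ'' u hab _ y, e]
  simp only [Finset.sum_mul, Finset.mul_sum]
  -- reorder the sums
  have h1 : ∀ (F : Fin D.N → Fin D.N → Fin D.N → Fin D.N → ℂ),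
      (∑ i, ∑ j, ∑ k, ∑ l, F i j k l) = ∑ k, ∑ l, ∑ i, ∑ j, F i j k l := by
    intro F
    calc (∑ i, ∑ j, ∑ k, ∑ l, F i j k l) = ∑ p : Fin D.N × Fin D.N, ∑ r : Fin D.N × Fin D.N,
          F p.1 p.2 r.1 r.2 := by
          simp only [Fintype.sum_prod_type]
      _ = ∑ r : Fin D.N × Fin D.N, ∑ p : Fin D.N × Fin D.N, F p.1 p.2 r.1 r.2 :=
          Finset.sum_comm
      _ = _ := by simp only [Fintype.sum_prod_type]
  rw [h1]
  refine Finset.sum_congr rfl fun k _ => Finset.sum_congr rfl fun l _ =>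
    Finset.sum_congr rfl fun i _ => Finset.sum_congr rfl fun j _ => ?_
  ring

theorem cmp_add_left (w' : G) (Φ₁ Φ₂ Φ' : E → G → ℂ) :
    D.cmp w' (Φ₁ + Φ₂) Φ' = D.cmp w' Φ₁ Φ' + D.cmp w' Φ₂ Φ' := by
  funext z g
  simp only [cmp, Pi.add_apply, add_mul, Finset.sum_add_distrib]

theorem cmp_add_right (w' : G) (Φ Φ₁ Φ₂ : E → G → ℂ) :
    D.cmp w' Φ (Φ₁ + Φ₂) = D.cmp w' Φ Φ₁ + D.cmp w' Φ Φ₂ := by
  funext z g
  simp only [cmp, Pi.add_apply, mul_add, Finset.sum_add_distrib]

theorem cmp_smul_left (w' : G) (s : ℂ) (Φ Φ' : E → G → ℂ) :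
    D.cmp w' (s • Φ) Φ' = s • D.cmp w' Φ Φ' := by
  funext z g
  simp only [cmp, Pi.smul_apply, smul_eq_mul, Finset.mul_sum]
  refine Finset.sum_congr rfl fun i _ => Finset.sum_congr rfl fun j _ => ?_
  ring

theorem cmp_smul_right (w' : G) (s : ℂ) (Φ Φ' : E → G → ℂ) :
    D.cmp w' Φ (s • Φ') = s • D.cmp w' Φ Φ' := by
  funext z g
  simp only [cmp, Pi.smul_apply, smul_eq_mul, Finset.mul_sum]
  refine Finset.sum_congr rfl fun i _ => Finset.sum_congr rfl fun j _ => ?_
  ring

/-- the unit -/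
def one (D : Dat E G ι) (z : E) (g : G) : ℂ := D.h z * D.p g

private theorem KF_one (u : G) (x y : E) : D.KF D.one u x y = D.K u x y := rfl

theorem isH_one : D.IsH 0 D.one where
  diff := by
    have h1 : Differentiable ℂ (fun q : E × G => D.h q.1) := D.hh.comp differentiable_fst
    have h2 : Differentiable ℂ (fun q : E × G => D.p q.2) := D.hp.comp differentiable_snd
    exact h1.mul h2
  per := by
    intro i z g
    simp only [one, add_zero, D.per]
    ring
  row := by
    intro u x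
    exact Submodule.subset_span ⟨x, rfl⟩
  col := by
    intro u y
    rw [add_zero, add_zero]
    exact Submodule.subset_span ⟨y, rfl⟩

theorem one_cmp {w : G} {Φ : E → G → ℂ} (hΦ : D.IsH w Φ) : D.cmp w D.one Φ = Φ := by
  apply ext_KF (D := D)
  intro u x y
  obtain ⟨⟨a, b⟩, hab⟩ := D.exists_points (u + w + w)
  simp only at hab
  rw [cmp_spec isH_one hΦ u hab x y, colF hΦ u hab x y]
  rfl

theorem cmp_one {w : G} {Φ : E → G → ℂ} (hΦ : D.IsH w Φ) : D.cmp 0 Φ D.one = Φ := by
  apply ext_KF (D := D)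
  intro u x y
  obtain ⟨⟨a, b⟩, hab⟩ := D.exists_points (u + 0 + 0)
  simp only at hab
  rw [cmp_spec hΦ isH_one u hab x y]
  simp only [add_zero] at hab ⊢
  rw [rowF hΦ u hab x y]
  rfl

/-- translations -/
def tr (D : Dat E G ι) (a : E) (z : E) (g : G) : ℂ := D.h (z + a) * D.p (g + D.v a)

private theorem KF_tr (a : E) (u : G) (x y : E) : D.KF (D.tr a) u x y = D.K u (x + a) y := by
  simp only [KF, tr, K]
  congr 2
  · abel
  · simp only [map_add]; abel

private theorem KF_tr' (a : E) (u : G) (x y : E) :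
    D.KF (D.tr a) u x y = D.K (u + D.v a + D.v a) x (y - a) := by
  simp only [KF, tr, K]
  congr 2
  · abel
  · simp only [map_add, map_sub]; abel

theorem isH_tr (a : E) : D.IsH (D.v a) (D.tr a) where
  diff := by
    have h1 : Differentiable ℂ (fun q : E × G => D.h (q.1 + a)) :=
      D.hh.comp (differentiable_fst.add_const a)
    have h2 : Differentiable ℂ (fun q : E × G => D.p (q.2 + D.v a)) :=
      D.hp.comp (differentiable_snd.add_const _)
    exact h1.mul h2
  per := by
    intro i z g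
    simp only [tr]
    rw [show g + D.ω i + D.v a = g + D.v a + D.ω i by abel, D.per]
    ring
  row := by
    intro u x
    have : D.KF (D.tr a) u x = D.K u (x + a) := funext fun y => KF_tr a u x y
    rw [this]
    exact Submodule.subset_span ⟨x + a, rfl⟩
  col := by
    intro u y
    have : (fun x => D.KF (D.tr a) u x y) = fun x => D.K (u + D.v a + D.v a) x (y - a) :=
      funext fun x => KF_tr' a u x y
    rw [this]
    exact Submodule.subset_span ⟨y - a, rfl⟩

theorem tr_cmp (a : E) {w : G} {Φ : E → G → ℂ} (hΦ : D.IsH w Φ) :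
    D.cmp w (D.tr a) Φ = fun z g => Φ (z + a) (g + D.v a) := by
  apply ext_KF (D := D)
  intro u x y
  obtain ⟨⟨c, b⟩, hab⟩ := D.exists_points (u + w + w)
  simp only at hab
  rw [cmp_spec (isH_tr a) hΦ u hab x y]
  simp only [KF_tr]
  rw [← colF hΦ u hab (x + a) y]
  simp only [KF]
  congr 1
  · abel
  · simp only [map_add]; abel

theorem cmp_tr (a : E) {w : G} {Φ : E → G → ℂ} (hΦ : D.IsH w Φ) :
    D.cmp (D.v a) Φ (D.tr a) = fun z g => Φ (z + a) (g + D.v a) := by
  apply ext_KF (D := D)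
  intro u x y
  obtain ⟨⟨c, b⟩, hab⟩ := D.exists_points (u + D.v a + D.v a)
  simp only at hab
  rw [cmp_spec hΦ (isH_tr a) u hab x y]
  simp only [KF_tr']
  rw [← rowF hΦ (u + D.v a + D.v a) hab x (y - a)]
  simp only [KF]
  congr 1
  · abel
  · simp only [map_add, map_sub]; abel

/-- multiplications -/
noncomputable def mu (D : Dat E G ι) (i : ι) (z : E) (g : G) : ℂ :=
  Complex.exp (D.l i (D.v z)) * (D.h z * D.p (g + D.ω i))

noncomputable def mu' (D : Dat E G ι) (i : ι) (z : E) (g : G) : ℂ :=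
  Complex.exp (D.l i (D.ω i)) * Complex.exp (-D.l i (D.v z)) * (D.h z * D.p (g - D.ω i))

private theorem KF_mu (i : ι) (u : G) (x y : E) : D.KF (D.mu i) u x y =
    Complex.exp (2 * D.l i (D.v x) + D.l i u + D.c i) * D.K u x y := by
  simp only [KF, mu, K, D.per, map_sub, map_add]
  have : Complex.exp (D.l i (D.v x) - D.l i (D.v y)) *
      Complex.exp (D.l i (D.v x) + D.l i (D.v y) + D.l i u + D.c i) =
      Complex.exp (2 * D.l i (D.v x) + D.l i u + D.c i) := by
    rw [← Complex.exp_add]; congr 1; ring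
  rw [← this]
  ring

private theorem KF_mu2 (i : ι) (u : G) (x y : E) : D.KF (D.mu i) u x y =
    Complex.exp (-(2 * D.l i (D.v y)) - D.l i u - D.l i (D.ω i) - D.c i) *
      D.K (u + D.ω i + D.ω i) x y := by
  have h := D.per i (D.v (x + y) + u + D.ω i)
  simp only [KF, mu, K]
  rw [show D.v (x + y) + (u + D.ω i + D.ω i) = D.v (x + y) + u + D.ω i + D.ω i by abel, h]
  simp only [map_sub, map_add]
  have : Complex.exp (-(2 * D.l i (D.v y)) - D.l i u - D.l i (D.ω i) - D.c i) *
      Complex.exp (D.l i (D.v x) + D.l i (D.v y) + D.l i u + D.l i (D.ω i) + D.c i) =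
      Complex.exp (D.l i (D.v x) - D.l i (D.v y)) := by
    rw [← Complex.exp_add]; congr 1; ring
  rw [← this]
  ring

private theorem KF_mu' (i : ι) (u : G) (x y : E) : D.KF (D.mu' i) u x y =
    Complex.exp (2 * D.l i (D.ω i) - 2 * D.l i (D.v x) - D.l i u - D.c i) * D.K u x y := by
  have h := D.per i (D.v (x + y) + u - D.ω i)
  rw [sub_add_cancel] at h
  simp only [KF, mu', K]
  rw [h]
  simp only [map_sub, map_add]
  have : Complex.exp (2 * D.l i (D.ω i) - 2 * D.l i (D.v x) - D.l i u - D.c i) *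
      Complex.exp (D.l i (D.v x) + D.l i (D.v y) + D.l i u - D.l i (D.ω i) + D.c i) =
      Complex.exp (D.l i (D.ω i)) * Complex.exp (-(D.l i (D.v x) - D.l i (D.v y))) := by
    rw [← Complex.exp_add, ← Complex.exp_add]; congr 1; ring
  rw [← this]
  ring

private theorem KF_mu'2 (i : ι) (u : G) (x y : E) : D.KF (D.mu' i) u x y =
    Complex.exp (2 * D.l i (D.v y) + D.l i u - D.l i (D.ω i) + D.c i) *
      D.K (u + -D.ω i + -D.ω i) x y := by
  have h := D.per i (D.v (x + y) + u - D.ω i - D.ω i)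
  rw [sub_add_cancel] at h
  simp only [KF, mu', K]
  rw [show D.v (x + y) + (u + -D.ω i + -D.ω i) = D.v (x + y) + u - D.ω i - D.ω i by abel, h]
  simp only [map_sub, map_add]
  have : Complex.exp (D.l i (D.ω i)) * Complex.exp (-(D.l i (D.v x) - D.l i (D.v y))) *
      Complex.exp (D.l i (D.v x) + D.l i (D.v y) + D.l i u - D.l i (D.ω i) - D.l i (D.ω i) +
        D.c i) =
      Complex.exp (2 * D.l i (D.v y) + D.l i u - D.l i (D.ω i) + D.c i) := by
    rw [← Complex.exp_add, ← Complex.exp_add]; congr 1; ring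
  rw [← this]
  ring

theorem isH_mu (i : ι) : D.IsH (D.ω i) (D.mu i) where
  diff := by
    have h0 : Differentiable ℂ (fun q : E × G => D.l i (D.v q.1)) :=
      ((D.l i).comp D.v).differentiable.comp differentiable_fst
    have h1 : Differentiable ℂ (fun q : E × G => D.h q.1) := D.hh.comp differentiable_fst
    have h2 : Differentiable ℂ (fun q : E × G => D.p (q.2 + D.ω i)) :=
      D.hp.comp (differentiable_snd.add_const _)
    exact h0.cexp.mul (h1.mul h2)
  per := by
    intro j z g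
    simp only [mu]
    rw [show g + D.ω j + D.ω i = g + D.ω i + D.ω j by abel, D.per j]
    ring
  row := by
    intro u x
    have : D.KF (D.mu i) u x =
        Complex.exp (2 * D.l i (D.v x) + D.l i u + D.c i) • D.K u x :=
      funext fun y => KF_mu i u x y
    rw [this]
    exact Submodule.smul_mem _ _ (Submodule.subset_span ⟨x, rfl⟩)
  col := by
    intro u y
    have : (fun x => D.KF (D.mu i) u x y) =
        Complex.exp (-(2 * D.l i (D.v y)) - D.l i u - D.l i (D.ω i) - D.c i) •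
          fun x => D.K (u + D.ω i + D.ω i) x y :=
      funext fun x => KF_mu2 i u x y
    rw [this]
    exact Submodule.smul_mem _ _ (Submodule.subset_span ⟨y, rfl⟩)

theorem isH_mu' (i : ι) : D.IsH (-D.ω i) (D.mu' i) where
  diff := by
    have h0 : Differentiable ℂ (fun q : E × G => -D.l i (D.v q.1)) :=
      (((D.l i).comp D.v).differentiable.comp differentiable_fst).neg
    have h1 : Differentiable ℂ (fun q : E × G => D.h q.1) := D.hh.comp differentiable_fst
    have h2 : Differentiable ℂ (fun q : E × G => D.p (q.2 - D.ω i)) :=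
      D.hp.comp (differentiable_snd.sub_const _)
    exact (h0.cexp.const_mul _).mul (h1.mul h2)
  per := by
    intro j z g
    simp only [mu']
    rw [show g + D.ω j - D.ω i = g + -D.ω i + D.ω j by abel, D.per j,
      show g + -D.ω i = g - D.ω i by abel]
    ring
  row := by
    intro u x
    have : D.KF (D.mu' i) u x =
        Complex.exp (2 * D.l i (D.ω i) - 2 * D.l i (D.v x) - D.l i u - D.c i) • D.K u x :=
      funext fun y => KF_mu' i u x y
    rw [this]
    exact Submodule.smul_mem _ _ (Submodule.subset_span ⟨x, rfl⟩)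
  col := by
    intro u y
    have : (fun x => D.KF (D.mu' i) u x y) =
        Complex.exp (2 * D.l i (D.v y) + D.l i u - D.l i (D.ω i) + D.c i) •
          fun x => D.K (u + -D.ω i + -D.ω i) x y :=
      funext fun x => KF_mu'2 i u x y
    rw [this]
    exact Submodule.smul_mem _ _ (Submodule.subset_span ⟨y, rfl⟩)

theorem mu_cmp (i : ι) {w : G} {Φ : E → G → ℂ} (hΦ : D.IsH w Φ) :
    D.cmp w (D.mu i) Φ = fun z g => Complex.exp (D.l i w) * Complex.exp (D.l i (D.v z)) *
      Φ z (g + D.ω i) := by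
  apply ext_KF (D := D)
  intro u x y
  obtain ⟨⟨a, b⟩, hab⟩ := D.exists_points (u + w + w)
  simp only at hab
  rw [cmp_spec (isH_mu i) hΦ u hab x y]
  simp only [KF_mu, mul_assoc]
  simp only [← Finset.mul_sum]
  have h := colF hΦ u hab x y
  simp only [mul_assoc] at h
  rw [← h]
  simp only [KF, hΦ.per, map_add, map_sub]
  have : Complex.exp (D.l i w) * (Complex.exp (D.l i (D.v x) - D.l i (D.v y)) *
      Complex.exp (D.l i (D.v x) + D.l i (D.v y) + D.l i u + D.l i w + D.c i)) =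
      Complex.exp (2 * D.l i (D.v x) + (D.l i u + D.l i w + D.l i w) + D.c i) := by
    rw [← Complex.exp_add, ← Complex.exp_add]; congr 1; ring
  rw [← this]
  ring

theorem cmp_mu (i : ι) {w : G} {Φ : E → G → ℂ} (hΦ : D.IsH w Φ) :
    D.cmp (D.ω i) Φ (D.mu i) = fun z g => Complex.exp (D.l i w) * Complex.exp (D.l i (D.v z)) *
      Φ z (g + D.ω i) := by
  apply ext_KF (D := D)
  intro u x y
  obtain ⟨⟨a, b⟩, hab⟩ := D.exists_points (u + D.ω i + D.ω i)
  simp only at hab
  rw [cmp_spec hΦ (isH_mu i) u hab x y]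
  simp only [KF_mu2]
  have h1 : ∀ i' j, D.KF Φ (u + D.ω i + D.ω i) x (b j) * (mm (D.K (u + D.ω i + D.ω i)) a b)⁻¹ j i' *
      (Complex.exp (-(2 * D.l i (D.v y)) - D.l i u - D.l i (D.ω i) - D.c i) *
        D.K (u + D.ω i + D.ω i) (a i') y) =
      Complex.exp (-(2 * D.l i (D.v y)) - D.l i u - D.l i (D.ω i) - D.c i) *
      (D.KF Φ (u + D.ω i + D.ω i) x (b j) * (mm (D.K (u + D.ω i + D.ω i)) a b)⁻¹ j i' *
        D.K (u + D.ω i + D.ω i) (a i') y) := fun i' j => by ring
  simp only [h1, ← Finset.mul_sum]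
  rw [← rowF hΦ (u + D.ω i + D.ω i) hab x y]
  have h2 : D.KF Φ (u + D.ω i + D.ω i) x y =
      Complex.exp (D.l i (D.v (x + y) + (u + D.ω i) + w) + D.c i) *
        Φ (x - y) (D.v (x + y) + (u + D.ω i)) := by
    rw [← hΦ.per]
    simp only [KF]
    congr 1
    abel
  rw [h2]
  simp only [KF, map_add, map_sub]
  rw [show D.v x + D.v y + u + D.ω i = D.v x + D.v y + (u + D.ω i) by abel]
  have : Complex.exp (-(2 * D.l i (D.v y)) - D.l i u - D.l i (D.ω i) - D.c i) *
      Complex.exp (D.l i (D.v x) + D.l i (D.v y) + (D.l i u + D.l i (D.ω i)) + D.l i w + D.c i) =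
      Complex.exp (D.l i w) * Complex.exp (D.l i (D.v x) - D.l i (D.v y)) := by
    rw [← Complex.exp_add, ← Complex.exp_add]; congr 1; ring
  rw [← this]
  ring

private theorem mu_aux (i : ι) (z : E) (g : G) :
    Complex.exp (D.l i (-D.ω i)) * Complex.exp (D.l i (D.v z)) * D.mu' i z (g + D.ω i) =
      D.one z g := by
  simp only [mu', one, add_sub_cancel_right, map_neg]
  have : Complex.exp (-D.l i (D.ω i)) * Complex.exp (D.l i (D.v z)) *
      (Complex.exp (D.l i (D.ω i)) * Complex.exp (-D.l i (D.v z))) = 1 := by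
    rw [← Complex.exp_add, ← Complex.exp_add, ← Complex.exp_add]
    rw [← Complex.exp_zero]; congr 1; ring
  linear_combination (D.h z * D.p g) * this

theorem mu_cmp_mu' (i : ι) : D.cmp (-D.ω i) (D.mu i) (D.mu' i) = D.one := by
  rw [mu_cmp i (isH_mu' i)]
  funext z g
  exact mu_aux i z g

theorem mu'_cmp_mu (i : ι) : D.cmp (D.ω i) (D.mu' i) (D.mu i) = D.one := by
  rw [cmp_mu i (isH_mu' i)]
  funext z g
  exact mu_aux i z g

/-- symbols are determined by their values at `u = 0` -/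
theorem IsH.eq_zero {w : G} {Φ : E → G → ℂ} (hΦ : D.IsH w Φ)
    (h : ∀ x y, Φ (x - y) (D.v (x + y)) = 0) : Φ = 0 := by
  have hA : {u : G | ∀ f ∈ Set.range (fun q : E × E => fun u : G => D.KF Φ u q.1 q.2), f u = 0}
      = Set.univ := by
    apply D.Z
    · apply locAnalytic_global
      rintro _ ⟨q, rfl⟩
      have h1 : Differentiable ℂ (fun u : G => ((q.1 - q.2, D.v (q.1 + q.2) + u) : E × G)) :=
        (differentiable_const _).prodMk (differentiable_id.const_add _)
      exact hΦ.diff.comp h1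
    · refine ⟨0, ?_⟩
      rintro _ ⟨q, rfl⟩
      simpa [KF] using h q.1 q.2
    · intro u hu t
      rintro _ ⟨q, rfl⟩
      have h1 := hu _ ⟨(q.1 + (2⁻¹ : ℂ) • t, q.2 + (2⁻¹ : ℂ) • t), rfl⟩
      simp only at h1
      rw [KF_shift] at h1
      have e : u + D.v ((2⁻¹ : ℂ) • t) + D.v ((2⁻¹ : ℂ) • t) = u + D.v t := by
        rw [add_assoc, ← map_add, ← add_smul]
        norm_num
      rw [e] at h1
      exact h1
    · rintro u hu _ ⟨i, rfl⟩
      constructor
      · rintro _ ⟨q, rfl⟩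
        have h1 := hu _ ⟨q, rfl⟩
        simp only [KF] at h1 ⊢
        rw [← add_assoc, hΦ.per, h1, mul_zero]
      · rintro _ ⟨q, rfl⟩
        have h1 := hu _ ⟨q, rfl⟩
        simp only [KF] at h1 ⊢
        have h2 := hΦ.per i (q.1 - q.2) (D.v (q.1 + q.2) + (u - D.ω i))
        rw [show D.v (q.1 + q.2) + (u - D.ω i) + D.ω i = D.v (q.1 + q.2) + u by abel, h1] at h2
        rcases mul_eq_zero.1 h2.symm with h3 | h3
        · exact absurd h3 (Complex.exp_ne_zero _)
        · exact h3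
  apply ext_KF (D := D)
  intro u x y
  have hu : u ∈ {u : G | ∀ f ∈ Set.range (fun q : E × E => fun u : G => D.KF Φ u q.1 q.2),
      f u = 0} := by rw [hA]; trivial
  have := hu _ ⟨(x, y), rfl⟩
  simpa [KF] using this

end Dat

end Pool.Agent.Lib.MP_db21fa_an.TF
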