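import Pool.Agent.Lib.MP_db21fa_an.TF.LinAlg
import Pool.Agent.Lib.MP_db21fa_an.TF.Cx

/-!
Module F1: unisolvent points and nonlinear correction of the recurrences.
-/

set_option autoImplicit false

open Filter Topology Metric

namespace Pool.Agent.Lib.MP_db21fa_an.TF

variable {E : Type*} [NormedAddCommGroup E] [NormedSpace ℂ E] [FiniteDimensional ℂ E]

/-- evaluation at `z` of the tangent vectors -/
private noncomputable def tv (p : E → ℂ) (z : E) : (E × (E →L[ℂ] ℂ) × ℂ) →ₗ[ℂ] ℂ where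
  toFun v := fderiv ℂ p z v.1 + (v.2.1 z + v.2.2) * p z
  map_add' := by
    intro a b
    simp only [Prod.fst_add, Prod.snd_add, map_add, add_apply]
    ring
  map_smul' := by
    intro m a
    simp only [Prod.smul_fst, Prod.smul_snd, map_smul, smul_apply,
      smul_eq_mul, RingHom.id_apply]
    ring

omit [FiniteDimensional ℂ E] in
private theorem tv_apply (p : E → ℂ) (z : E) (v : E × (E →L[ℂ] ℂ) × ℂ) :
    tv p z v = fderiv ℂ p z v.1 + (v.2.1 z + v.2.2) * p z := rfl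

private theorem finrank_V :
    Module.finrank ℂ (E × (E →L[ℂ] ℂ) × ℂ) = 2 * Module.finrank ℂ E + 1 := by
  have h1 : Module.finrank ℂ (E →L[ℂ] ℂ) = Module.finrank ℂ E := by
    rw [← LinearEquiv.finrank_eq (LinearMap.toContinuousLinearMap (𝕜 := ℂ) (E := E) (F' := ℂ))]
    exact Subspace.dual_finrank_eq
  rw [Module.finrank_prod, Module.finrank_prod, h1, Module.finrank_self]
  ring

private theorem strict_p {p : E → ℂ} (hp : Differentiable ℂ p) (x : E) :
    HasStrictFDerivAt p (fderiv ℂ p x) x := by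
  have hc : Continuous (fderiv ℂ p) :=
    continuous_clm_apply.2 fun c => (differentiable_dirDeriv hp c).continuous
  exact hasStrictFDerivAt_of_hasFDerivAt_of_continuousAt
    (Filter.Eventually.of_forall fun y => (hp y).hasFDerivAt) hc.continuousAt

private theorem lip_of_bound {V : Type*} [NormedAddCommGroup V] [NormedSpace ℂ V] {g : V → ℂ}
    (hg : Differentiable ℂ g) {M : ℝ} (hM : ∀ y ∈ ball (0 : V) 2, ‖g y‖ ≤ M) :
    ∀ x ∈ ball (0 : V) 1, ∀ y ∈ ball (0 : V) 1, ‖g y - g x‖ ≤ M * ‖y - x‖ := by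
  intro x hx y hy
  refine (convex_ball (0 : V) 1).norm_image_sub_le_of_norm_fderiv_le (𝕜 := ℂ)
    (fun w _ => (hg w)) (fun w hw => ?_) hx hy
  have h := norm_fderiv_le (f := g) (x := w) (r := 1) (M := M) one_pos hg.differentiableOn
    (fun y hy => hM y ?_)
  · simpa using h
  · rw [mem_ball_zero_iff] at hw ⊢
    rw [mem_ball, dist_eq_norm] at hy
    calc ‖y‖ = ‖(y - w) + w‖ := by rw [sub_add_cancel]
      _ ≤ ‖y - w‖ + ‖w‖ := norm_add_le _ _
      _ < 2 := by linarith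

/-- the form `v.2.2 + v.2.1 z` -/
private noncomputable def Lz (z : E) : (E × (E →L[ℂ] ℂ) × ℂ) →L[ℂ] ℂ :=
  ((ContinuousLinearMap.apply ℂ ℂ z).comp
    ((ContinuousLinearMap.fst ℂ (E →L[ℂ] ℂ) ℂ).comp
      (ContinuousLinearMap.snd ℂ E ((E →L[ℂ] ℂ) × ℂ)))) +
  (ContinuousLinearMap.snd ℂ (E →L[ℂ] ℂ) ℂ).comp
      (ContinuousLinearMap.snd ℂ E ((E →L[ℂ] ℂ) × ℂ))

omit [FiniteDimensional ℂ E] in
private theorem Lz_apply (z : E) (v : E × (E →L[ℂ] ℂ) × ℂ) : Lz z v = v.2.1 z + v.2.2 := rfl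

private theorem strict_comp {p : E → ℂ} (hp : Differentiable ℂ p) (z : E) :
    HasStrictFDerivAt (fun v : E × (E →L[ℂ] ℂ) × ℂ => Complex.exp (Lz z v) * p (z + v.1))
      (LinearMap.toContinuousLinearMap (tv p z)) 0 := by
  have h1 : HasStrictFDerivAt (fun v : E × (E →L[ℂ] ℂ) × ℂ => Complex.exp (Lz z v))
      (Complex.exp (Lz z 0) • Lz z) 0 := ((Lz z).hasStrictFDerivAt (x := 0)).cexp
  have h2 : HasStrictFDerivAt (fun v : E × (E →L[ℂ] ℂ) × ℂ => p (z + v.1))
      ((fderiv ℂ p z).comp (ContinuousLinearMap.fst ℂ E ((E →L[ℂ] ℂ) × ℂ))) 0 := by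
    have h3 : HasStrictFDerivAt (fun v : E × (E →L[ℂ] ℂ) × ℂ => z + v.1)
        (ContinuousLinearMap.fst ℂ E ((E →L[ℂ] ℂ) × ℂ)) 0 :=
      ((ContinuousLinearMap.fst ℂ E ((E →L[ℂ] ℂ) × ℂ)).hasStrictFDerivAt (x := 0)).const_add z
    have h4 : HasStrictFDerivAt p (fderiv ℂ p z)
        ((fun v : E × (E →L[ℂ] ℂ) × ℂ => z + v.1) 0) := by
      simpa using strict_p hp z
    exact HasStrictFDerivAt.comp (g := p) (f := fun v : E × (E →L[ℂ] ℂ) × ℂ => z + v.1) 0 h4 h3
  have h := h1.mul h2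
  refine h.congr_fderiv ?_
  ext v <;> (simp [tv_apply, Lz_apply]; try ring)

/-- Nonlinear correction of the recurrences (step 1 of the secant lemma): the functions can be
corrected such that they agree with `p` at given points `z k` which are unisolvent for the tangent
space. -/
theorem exists_corrected {p : E → ℂ} (hp : Differentiable ℂ p) {d : ℕ} (z : Fin d → E)
    (hd : d = 2 * Module.finrank ℂ E + 1)
    (huni : ∀ (c : E) (l : E →L[ℂ] ℂ) (γ : ℂ),
      (∀ k, fderiv ℂ p (z k) c + (l (z k) + γ) * p (z k) = 0) → c = 0 ∧ l = 0 ∧ γ = 0)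
    {b : ℕ → E} {c : ℕ → ℂ} {l : ℕ → E →L[ℂ] ℂ} (hc : ∀ j, c j ≠ 0)
    (hlim : LU (fun j x => c j * Complex.exp (l j x) * p (x + b j)) p) :
    ∃ (φ : ℕ → ℕ) (β : ℕ → E) (c' : ℕ → ℂ) (l' : ℕ → E →L[ℂ] ℂ), StrictMono φ ∧
      Tendsto (fun j => β j - b (φ j)) atTop (𝓝 0) ∧ (∀ j, c' j ≠ 0) ∧
      (∀ j k, c' j * Complex.exp (l' j (z k)) * p (z k + β j) = p (z k)) ∧
      LU (fun j x => c' j * Complex.exp (l' j x) * p (x + β j)) p := by
  classical
  -- the linear map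
  let Ψ₀ : (E × (E →L[ℂ] ℂ) × ℂ) →ₗ[ℂ] (Fin d → ℂ) := LinearMap.pi fun k => tv p (z k)
  have hinj : Function.Injective Ψ₀ := by
    rw [← LinearMap.ker_eq_bot, LinearMap.ker_eq_bot']
    intro v hv
    have := huni v.1 v.2.1 v.2.2 (fun k => by
      have := congrFun hv k
      simpa [Ψ₀, tv_apply] using this)
    exact Prod.ext this.1 (Prod.ext this.2.1 this.2.2)
  have hfr : Module.finrank ℂ (E × (E →L[ℂ] ℂ) × ℂ) = Module.finrank ℂ (Fin d → ℂ) := by
    rw [finrank_V, Module.finrank_fin_fun, hd]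
  let Ψe : (E × (E →L[ℂ] ℂ) × ℂ) ≃ₗ[ℂ] (Fin d → ℂ) := LinearEquiv.ofInjectiveOfFinrankEq Ψ₀ hinj hfr
  have hΨe : ∀ v, Ψe v = Ψ₀ v := fun v => rfl
  let Ψ : (E × (E →L[ℂ] ℂ) × ℂ) ≃L[ℂ] (Fin d → ℂ) := Ψe.toContinuousLinearEquiv
  have hΨ : ∀ v k, Ψ v k = tv p (z k) v := fun v k => rfl
  -- the limit map
  set Φ : (E × (E →L[ℂ] ℂ) × ℂ) → Fin d → ℂ :=
    fun v k => Complex.exp (Lz (z k) v) * p (z k + v.1) with hΦdef
  have hΦ : HasStrictFDerivAt Φ (Ψ : (E × (E →L[ℂ] ℂ) × ℂ) →L[ℂ] (Fin d → ℂ)) 0 := by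
    rw [hasStrictFDerivAt_pi']
    intro k
    refine (strict_comp hp (z k)).congr_fderiv ?_
    ext v <;> rfl
  -- the approximating maps
  set q : ℕ → E → ℂ := fun j x => c j * Complex.exp (l j x) * p (x + b j) with hq
  have hqd : ∀ j, Differentiable ℂ (q j) := by
    intro j
    have h1 : Differentiable ℂ (fun x => Complex.exp (l j x)) := (l j).differentiable.cexp
    have h2 : Differentiable ℂ (fun x => p (x + b j)) :=
      hp.comp (differentiable_id.add_const (b j))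
    exact (h1.const_mul (c j)).mul h2
  let Φj : ℕ → (E × (E →L[ℂ] ℂ) × ℂ) → Fin d → ℂ :=
    fun j v k => Complex.exp (Lz (z k) v) * q j (z k + v.1)
  let G : ℕ → Fin d → (E × (E →L[ℂ] ℂ) × ℂ) → ℂ :=
    fun j k v => Complex.exp (Lz (z k) v) * (q j (z k + v.1) - p (z k + v.1))
  have hGd : ∀ j k, Differentiable ℂ (G j k) := by
    intro j k
    have h1 : Differentiable ℂ (fun v : E × (E →L[ℂ] ℂ) × ℂ => Complex.exp (Lz (z k) v)) :=
      (Lz (z k)).differentiable.cexp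
    have h0 : Differentiable ℂ (fun v : E × (E →L[ℂ] ℂ) × ℂ => z k + v.1) :=
      differentiable_fst.const_add (z k)
    exact h1.mul (((hqd j).comp h0).sub (hp.comp h0))
  -- uniform smallness
  have hsmall : ∀ ε > 0, ∀ᶠ j in atTop, ∀ k, ∀ v ∈ ball (0 : E × (E →L[ℂ] ℂ) × ℂ) 2,
      ‖G j k v‖ ≤ ε := by
    intro ε hε
    obtain ⟨R, hR⟩ : ∃ R : ℝ, ∀ k, ‖z k‖ ≤ R := by
      refine ⟨∑ k, ‖z k‖, fun k => ?_⟩
      exact Finset.single_le_sum (f := fun k => ‖z k‖) (fun i _ => norm_nonneg _)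
        (Finset.mem_univ k)
    have hA : 0 < Real.exp (2 * R + 2) := Real.exp_pos _
    have h := (Metric.tendstoUniformlyOn_iff.1 (hlim (R + 2))) (ε / Real.exp (2 * R + 2))
      (div_pos hε hA)
    refine h.mono fun j hj k v hv => ?_
    rw [mem_ball_zero_iff] at hv
    have hv1 : ‖v.1‖ ≤ ‖v‖ := norm_fst_le v
    have hv2 : ‖v.2‖ ≤ ‖v‖ := norm_snd_le v
    have hv21 : ‖v.2.1‖ ≤ ‖v.2‖ := norm_fst_le v.2
    have hv22 : ‖v.2.2‖ ≤ ‖v.2‖ := norm_snd_le v.2
    have hz : z k + v.1 ∈ closedBall (0 : E) (R + 2) := by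
      rw [mem_closedBall_zero_iff]
      calc ‖z k + v.1‖ ≤ ‖z k‖ + ‖v.1‖ := norm_add_le _ _
        _ ≤ R + 2 := by linarith [hR k]
    have h1 := hj (z k + v.1) hz
    rw [dist_comm, dist_eq_norm] at h1
    have h2 : ‖Complex.exp (Lz (z k) v)‖ ≤ Real.exp (2 * R + 2) := by
      rw [Complex.norm_exp]
      apply Real.exp_le_exp.2
      calc (Lz (z k) v).re ≤ ‖Lz (z k) v‖ := Complex.re_le_norm _
        _ = ‖v.2.1 (z k) + v.2.2‖ := by rw [Lz_apply]
        _ ≤ ‖v.2.1 (z k)‖ + ‖v.2.2‖ := norm_add_le _ _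
        _ ≤ ‖v.2.1‖ * ‖z k‖ + ‖v.2.2‖ := by gcongr; exact v.2.1.le_opNorm _
        _ ≤ 2 * R + 2 := by
          have : ‖v.2.1‖ * ‖z k‖ ≤ 2 * R :=
            mul_le_mul (by linarith) (hR k) (norm_nonneg _) (by norm_num)
          linarith
    calc ‖G j k v‖ = ‖Complex.exp (Lz (z k) v)‖ * ‖q j (z k + v.1) - p (z k + v.1)‖ :=
          norm_mul _ _
      _ ≤ Real.exp (2 * R + 2) * (ε / Real.exp (2 * R + 2)) :=
          mul_le_mul h2 h1.le (norm_nonneg _) hA.le
      _ = ε := by field_simp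
  -- the constant
  have : Nontrivial (E × (E →L[ℂ] ℂ) × ℂ) :=
    ⟨⟨(0, 0, 0), (0, 0, 1), by simp⟩⟩
  have hsymm : (Ψ.symm : (Fin d → ℂ) →L[ℂ] (E × (E →L[ℂ] ℂ) × ℂ)) ≠ 0 := by
    intro h
    obtain ⟨w, hw⟩ := exists_ne (0 : E × (E →L[ℂ] ℂ) × ℂ)
    apply hw
    have := congrArg (fun (T : (Fin d → ℂ) →L[ℂ] (E × (E →L[ℂ] ℂ) × ℂ)) => T (Ψ w)) h
    simpa using this
  have hnn : 0 < ‖(Ψ.symm : (Fin d → ℂ) →L[ℂ] (E × (E →L[ℂ] ℂ) × ℂ))‖₊ := by
    rw [pos_iff_ne_zero]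
    intro h1
    apply hsymm
    apply ContinuousLinearMap.ext
    intro w
    have h2 := (Ψ.symm : (Fin d → ℂ) →L[ℂ] (E × (E →L[ℂ] ℂ) × ℂ)).le_opNNNorm w
    rw [h1, zero_mul] at h2
    exact nnnorm_eq_zero.1 (le_antisymm h2 zero_le)
  set κ : NNReal := ‖(Ψ.symm : (Fin d → ℂ) →L[ℂ] (E × (E →L[ℂ] ℂ) × ℂ))‖₊⁻¹ with hκ
  have hκ0 : 0 < κ := inv_pos.2 hnn
  -- solvability
  have hsolve : ∀ ε > (0 : ℝ), ∀ᶠ j in atTop, ∃ v : E × (E →L[ℂ] ℂ) × ℂ, ‖v‖ ≤ ε ∧
      ∀ k, Φj j v k = p (z k) := by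
    intro ε hε
    obtain ⟨s, hs, hsA⟩ := hΦ.approximates_deriv_on_nhds (c := κ / 4) (Or.inr (by positivity))
    obtain ⟨r₀, hr₀, hr₀s⟩ := Metric.mem_nhds_iff.1 hs
    set r : ℝ := min (r₀ / 2) (min (1 / 2) ε) with hr
    have hr0 : 0 < r := by positivity
    have hr1 : r < 1 := lt_of_le_of_lt ((min_le_right _ _).trans (min_le_left _ _)) (by norm_num)
    have hrε : r ≤ ε := (min_le_right _ _).trans (min_le_right _ _)
    have hrr : r < r₀ := lt_of_le_of_lt (min_le_left _ _) (by linarith)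
    have hεj := hsmall (min ((κ : ℝ) / 4) ((κ : ℝ) / 2 * r)) (by positivity)
    refine hεj.mono fun j hj => ?_
    have happ : ApproximatesLinearOn (Φj j)
        (Ψ : (E × (E →L[ℂ] ℂ) × ℂ) →L[ℂ] (Fin d → ℂ)) (closedBall 0 r) (κ / 2) := by
      intro x hx y hy
      have hxs : x ∈ s := hr₀s (closedBall_subset_ball hrr hx)
      have hys : y ∈ s := hr₀s (closedBall_subset_ball hrr hy)
      have hx1 : x ∈ ball (0 : E × (E →L[ℂ] ℂ) × ℂ) 1 := closedBall_subset_ball hr1 hx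
      have hy1 : y ∈ ball (0 : E × (E →L[ℂ] ℂ) × ℂ) 1 := closedBall_subset_ball hr1 hy
      have h1 := hsA x hxs y hys
      have h2 : ‖(fun k => G j k x - G j k y)‖ ≤ (κ : ℝ) / 4 * ‖x - y‖ := by
        rw [pi_norm_le_iff_of_nonneg (by positivity)]
        intro k
        exact lip_of_bound (hGd j k) (fun w hw => (hj k w hw).trans (min_le_left _ _)) y hy1 x hx1
      have h3 : Φj j x - Φj j y - (Ψ : (E × (E →L[ℂ] ℂ) × ℂ) →L[ℂ] (Fin d → ℂ)) (x - y)
          = (Φ x - Φ y - (Ψ : (E × (E →L[ℂ] ℂ) × ℂ) →L[ℂ] (Fin d → ℂ)) (x - y))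
            + fun k => G j k x - G j k y := by
        funext k
        simp only [Φj, G, hΦdef, Pi.sub_apply, Pi.add_apply]
        ring
      rw [h3]
      calc _ ≤ _ := norm_add_le _ _
        _ ≤ ((κ / 4 : NNReal) : ℝ) * ‖x - y‖ + (κ : ℝ) / 4 * ‖x - y‖ := add_le_add h1 h2
        _ = ((κ / 2 : NNReal) : ℝ) * ‖x - y‖ := by push_cast; ring
    have hsurj := happ.surjOn_closedBall_of_nonlinearRightInverse Ψ.toNonlinearRightInverse
      (ε := r) (b := 0) hr0.le subset_rfl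
    have hmem : (fun k => p (z k)) ∈ closedBall (Φj j 0)
        ((((Ψ.toNonlinearRightInverse).nnnorm : ℝ)⁻¹ - ((κ / 2 : NNReal) : ℝ)) * r) := by
      have e1 : (((Ψ.toNonlinearRightInverse).nnnorm : ℝ)⁻¹ - ((κ / 2 : NNReal) : ℝ)) * r
          = (κ : ℝ) / 2 * r := by
        have : ((Ψ.toNonlinearRightInverse).nnnorm : ℝ)⁻¹ = (κ : ℝ) := by
          rw [hκ, NNReal.coe_inv]; rfl
        rw [this]; push_cast; ring
      rw [e1, mem_closedBall, dist_comm, dist_eq_norm, pi_norm_le_iff_of_nonneg (by positivity)]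
      intro k
      have h0 := hj k 0 (mem_ball_self (by norm_num))
      have e2 : (Φj j 0 - fun k => p (z k)) k = G j k 0 := by
        simp [Φj, G, Lz_apply]
      rw [e2]
      exact h0.trans (min_le_right _ _)
    obtain ⟨v, hv, hv'⟩ := hsurj hmem
    refine ⟨v, ?_, fun k => congrFun hv' k⟩
    rw [mem_closedBall_zero_iff] at hv
    exact hv.trans hrε
  obtain ⟨φ, hφ, hφ'⟩ := extraction_forall_of_eventually
    (P := fun n j => ∃ v : E × (E →L[ℂ] ℂ) × ℂ, ‖v‖ ≤ 1 / ((n : ℝ) + 1) ∧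
      ∀ k, Φj j v k = p (z k)) (fun n => hsolve _ (by positivity))
  choose ξ hξ hξ' using hφ'
  have hξ0 : Tendsto ξ atTop (𝓝 0) :=
    squeeze_zero_norm hξ tendsto_one_div_add_atTop_nhds_zero_nat
  have hξ1 : Tendsto (fun n => (ξ n).1) atTop (𝓝 0) := by
    simpa [Function.comp_def] using (continuous_fst.tendsto _).comp hξ0
  have hξ2 : Tendsto (fun n => (ξ n).2.1) atTop (𝓝 0) := by
    simpa [Function.comp_def] using ((continuous_fst.comp continuous_snd).tendsto _).comp hξ0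
  have hξ3 : Tendsto (fun n => (ξ n).2.2) atTop (𝓝 0) := by
    simpa [Function.comp_def] using ((continuous_snd.comp continuous_snd).tendsto _).comp hξ0
  have key : ∀ n x, c (φ n) * Complex.exp ((ξ n).2.2 + l (φ n) (ξ n).1) *
      Complex.exp (((ξ n).2.1 + l (φ n)) x) * p (x + (b (φ n) + (ξ n).1))
      = Complex.exp ((ξ n).2.1 x + (ξ n).2.2) * q (φ n) (x + (ξ n).1) := by
    intro n x
    simp only [hq, map_add]
    rw [show x + (b (φ n) + (ξ n).1) = x + (ξ n).1 + b (φ n) by abel]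
    have : ((ξ n).2.1 + l (φ n)) x = (ξ n).2.1 x + l (φ n) x := rfl
    rw [this]
    simp only [Complex.exp_add]
    ring
  refine ⟨φ, fun n => b (φ n) + (ξ n).1,
    fun n => c (φ n) * Complex.exp ((ξ n).2.2 + l (φ n) (ξ n).1),
    fun n => (ξ n).2.1 + l (φ n), hφ, ?_, ?_, ?_, ?_⟩
  · simpa using hξ1
  · intro n
    exact mul_ne_zero (hc _) (Complex.exp_ne_zero _)
  · intro n k
    rw [key]
    have := hξ' n k
    simpa only [Φj, Lz_apply] using this
  · have e : (fun j x => c (φ j) * Complex.exp ((ξ j).2.2 + l (φ j) (ξ j).1) *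
        Complex.exp (((ξ j).2.1 + l (φ j)) x) * p (x + (b (φ j) + (ξ j).1)))
        = fun j x => Complex.exp ((ξ j).2.1 x + (ξ j).2.2) * q (φ j) (x + (ξ j).1) := by
      funext j x
      exact key j x
    rw [e]
    have hexp := LU.exp hξ2 hξ3
    have hsub : LU (fun j => q (φ j)) p := LU.subseq hlim hφ.tendsto_atTop
    have haff := LU.comp_affine hsub hp.continuous hξ1
    have hpc : Continuous fun x : E => p (x + 0) := by simpa using hp.continuous
    have hmul := LU.mul hexp haff (by fun_prop) hpc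
    simpa using hmul

/-- unisolvent points, the first of them is `0` -/
theorem exists_unisolvent {p : E → ℂ} (hp : Differentiable ℂ p) (hp0 : p 0 ≠ 0)
    (hnd : NonDeg p) :
    ∃ z : Fin (2 * Module.finrank ℂ E + 1) → E, z 0 = 0 ∧
      ∀ (c : E) (l : E →L[ℂ] ℂ) (γ : ℂ),
        (∀ k, fderiv ℂ p (z k) c + (l (z k) + γ) * p (z k) = 0) → c = 0 ∧ l = 0 ∧ γ = 0 := by
  classical
  let f : E → Module.Dual ℂ (E × (E →L[ℂ] ℂ) × ℂ) := fun z => tv p z
  have hker : ∀ v : E × (E →L[ℂ] ℂ) × ℂ, (∀ z, f z v = 0) → v = 0 := by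
    intro v hv
    have h1 : v.1 = 0 := by
      apply hnd v.1 (-v.2.1) (-v.2.2)
      intro u
      have := hv u
      simp only [f, tv_apply] at this
      have e : (-v.2.1) u = -(v.2.1 u) := rfl
      rw [e]
      linear_combination this
    have h2 : ∀ u, (v.2.1 u + v.2.2) * p u = 0 := by
      intro u
      have := hv u
      simpa [f, tv_apply, h1] using this
    have h3 : v.2.2 = 0 := by
      have := h2 0
      simpa [hp0] using this
    have h4 : v.2.1 = 0 := by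
      ext u
      have hev : ∀ᶠ t in 𝓝[≠] (0 : ℂ), p (t • u) ≠ 0 := by
        have hcont : Continuous fun t : ℂ => p (t • u) :=
          hp.continuous.comp (continuous_id.smul continuous_const)
        have := hcont.continuousAt (x := 0)
        refine (this.eventually_ne (y := 0) (by simpa using hp0)).filter_mono nhdsWithin_le_nhds
      obtain ⟨t, ht, ht0⟩ := (hev.and self_mem_nhdsWithin).exists
      have := h2 (t • u)
      rw [h3] at this
      have h5 : v.2.1 (t • u) = 0 := by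
        rcases mul_eq_zero.1 this with h | h
        · simpa using h
        · exact absurd h ht
      rw [map_smul, smul_eq_mul] at h5
      rcases mul_eq_zero.1 h5 with h | h
      · exact absurd h ht0
      · simpa using h
    exact Prod.ext h1 (Prod.ext h4 h3)
  have hspan : Submodule.span ℂ (Set.range f) = ⊤ := by
    have h1 : (Submodule.span ℂ (Set.range f)).dualCoannihilator = ⊥ := by
      rw [eq_bot_iff]
      intro v hv
      rw [Submodule.mem_dualCoannihilator] at hv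
      exact hker v fun z => hv _ (Submodule.subset_span ⟨z, rfl⟩)
    rw [← Subspace.dualCoannihilator_dualAnnihilator_eq (W := Submodule.span ℂ (Set.range f)), h1,
      Submodule.dualAnnihilator_bot]
  have hf0 : f 0 ≠ 0 := by
    intro h
    have := congrArg (fun T : Module.Dual ℂ (E × (E →L[ℂ] ℂ) × ℂ) => T (0, 0, 1)) h
    simp only [f, tv_apply] at this
    simp [hp0] at this
  have hli : LinearIndepOn ℂ id ({f 0} : Set (Module.Dual ℂ (E × (E →L[ℂ] ℂ) × ℂ))) :=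
    LinearIndepOn.singleton hf0
  obtain ⟨B, hBt, hsB, htB, hB⟩ := exists_linearIndepOn_id_extension hli
    (Set.singleton_subset_iff.2 (Set.mem_range_self (f := f) 0))
  have hBspan : Submodule.span ℂ B = ⊤ := by
    rw [eq_top_iff, ← hspan]
    exact Submodule.span_le.2 htB
  have hf0B : f 0 ∈ B := hsB rfl
  let Bb : Module.Basis B ℂ (Module.Dual ℂ (E × (E →L[ℂ] ℂ) × ℂ)) :=
    Module.Basis.mk (v := fun x : B => (x : Module.Dual ℂ (E × (E →L[ℂ] ℂ) × ℂ))) hB
      (by rw [Subtype.range_coe, hBspan])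
  have hfr : Module.finrank ℂ (Module.Dual ℂ (E × (E →L[ℂ] ℂ) × ℂ))
      = 2 * Module.finrank ℂ E + 1 := by
    rw [Subspace.dual_finrank_eq, finrank_V]
  let e0 : B ≃ Fin (2 * Module.finrank ℂ E + 1) :=
    Bb.indexEquiv (Module.finBasisOfFinrankEq ℂ _ hfr)
  let e : B ≃ Fin (2 * Module.finrank ℂ E + 1) :=
    e0.trans (Equiv.swap (e0 ⟨f 0, hf0B⟩) 0)
  have he : e ⟨f 0, hf0B⟩ = 0 := by simp [e]
  have hex : ∀ x : B, ∃ z : E, f z = x := fun x => hBt x.2
  choose g hg using hex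
  refine ⟨fun k => if k = 0 then 0 else g (e.symm k), by simp, ?_⟩
  intro c l γ h
  have hz : ∀ k, f (if k = 0 then 0 else g (e.symm k)) = (e.symm k : B) := by
    intro k
    by_cases hk : k = 0
    · subst hk
      rw [if_pos rfl, ← he, Equiv.symm_apply_apply]
    · rw [if_neg hk, hg]
  have hv : ((c, l, γ) : E × (E →L[ℂ] ℂ) × ℂ) = 0 := by
    rw [← Module.forall_dual_apply_eq_zero_iff ℂ]
    intro T
    have hT : T ∈ Submodule.span ℂ B := by rw [hBspan]; trivial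
    induction hT using Submodule.span_induction with
    | mem x hx =>
      have h1 := h (e ⟨x, hx⟩)
      have h2 := hz (e ⟨x, hx⟩)
      rw [Equiv.symm_apply_apply] at h2
      have h3 : x (c, l, γ) = f (if e ⟨x, hx⟩ = 0 then 0 else g (e.symm (e ⟨x, hx⟩))) (c, l, γ) := by
        rw [Equiv.symm_apply_apply, h2]
      rw [h3]
      exact h1
    | zero => rfl
    | add x y _ _ hx hy => rw [LinearMap.add_apply, hx, hy, add_zero]
    | smul a x _ hx => rw [LinearMap.smul_apply, hx, smul_zero]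
  have h1 := congrArg Prod.fst hv
  have h2 := congrArg (fun t : E × (E →L[ℂ] ℂ) × ℂ => t.2.1) hv
  have h3 := congrArg (fun t : E × (E →L[ℂ] ℂ) × ℂ => t.2.2) hv
  exact ⟨h1, h2, h3⟩

end Pool.Agent.Lib.MP_db21fa_an.TF
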