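import Pool.Agent.Lib.MP_db21fa_an.TF.TwoThree
import Pool.Agent.Lib.MP_db21fa_an.TF.Unisolvent
import Pool.Agent.Lib.MP_db21fa_an.TF.Approach

/-!
Module F2: the secant direction.
-/

set_option autoImplicit false

open Filter Topology Metric

namespace Pool.Agent.Lib.MP_db21fa_an.TF

variable {E : Type*} [NormedAddCommGroup E] [NormedSpace ℂ E] [FiniteDimensional ℂ E]

/-- uniform bounds for a sequence converging uniformly on balls -/
private theorem LU_bdd {q : ℕ → E → ℂ} {p : E → ℂ} (h : LU q p) (hq : ∀ k, Continuous (q k))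
    (hp : Continuous p) (R : ℝ) : ∃ C : ℝ, 0 ≤ C ∧ ∀ k, ∀ x ∈ closedBall (0 : E) R, ‖q k x‖ ≤ C := by
  have : ProperSpace E := FiniteDimensional.proper ℂ E
  have hK : IsCompact (closedBall (0 : E) R) := isCompact_closedBall 0 R
  obtain ⟨C₀, hC₀⟩ := hK.exists_bound_of_continuousOn hp.continuousOn
  choose Cq hCq using fun k => hK.exists_bound_of_continuousOn (hq k).continuousOn
  have h1 := Metric.tendstoUniformlyOn_iff.1 (h R) 1 one_pos
  obtain ⟨n, hn⟩ := eventually_atTop.1 h1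
  refine ⟨|C₀| + 1 + ∑ k ∈ Finset.range n, |Cq k|, by positivity, fun k x hx => ?_⟩
  have hs : 0 ≤ ∑ k ∈ Finset.range n, |Cq k| := Finset.sum_nonneg fun _ _ => abs_nonneg _
  by_cases hk : n ≤ k
  · have h2 := hn k hk x hx
    rw [dist_eq_norm] at h2
    have h3 := hC₀ x hx
    have h4 : ‖q k x‖ ≤ ‖p x‖ + ‖p x - q k x‖ := by
      have := norm_sub_norm_le (q k x) (p x)
      rw [norm_sub_rev (q k x)] at this
      linarith
    have h5 := le_abs_self C₀
    linarith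
  · push Not at hk
    have h2 := hCq k x hx
    have h3 : |Cq k| ≤ ∑ k ∈ Finset.range n, |Cq k| :=
      Finset.single_le_sum (f := fun k => |Cq k|) (fun _ _ => abs_nonneg _)
        (Finset.mem_range.2 hk)
    have h4 := le_abs_self (Cq k)
    have h5 := abs_nonneg C₀
    linarith

private theorem inv_bdd {N : ℕ} {M : ℕ → Matrix (Fin N) (Fin N) ℂ} {M₀ : Matrix (Fin N) (Fin N) ℂ}
    (h : ∀ i j, Tendsto (fun k => M k i j) atTop (𝓝 (M₀ i j))) (h0 : M₀.det ≠ 0) :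
    ∃ C : ℝ, 0 ≤ C ∧ ∀ k i j, ‖(M k)⁻¹ i j‖ ≤ C := by
  have hM : Tendsto M atTop (𝓝 M₀) := tendsto_pi_nhds.2 fun i => tendsto_pi_nhds.2 fun j => h i j
  have hdet : Tendsto (fun k => (M k).det) atTop (𝓝 M₀.det) :=
    ((continuous_id.matrix_det).tendsto M₀).comp hM
  have hadj : Tendsto (fun k => (M k).adjugate) atTop (𝓝 M₀.adjugate) :=
    ((continuous_id.matrix_adjugate).tendsto M₀).comp hM
  have hinv : ∀ i j, Tendsto (fun k => (M k)⁻¹ i j) atTop (𝓝 (M₀⁻¹ i j)) := by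
    intro i j
    simp only [Matrix.inv_def, Ring.inverse_eq_inv', Matrix.smul_apply, smul_eq_mul]
    exact (hdet.inv₀ h0).mul (tendsto_pi_nhds.1 (tendsto_pi_nhds.1 hadj i) j)
  have hb : ∀ i j, ∃ C : ℝ, ∀ k, ‖(M k)⁻¹ i j‖ ≤ C := by
    intro i j
    obtain ⟨C, hC⟩ := (Metric.isBounded_range_of_tendsto _ (hinv i j)).exists_norm_le
    exact ⟨C, fun k => hC _ ⟨k, rfl⟩⟩
  choose C hC using hb
  refine ⟨∑ i, ∑ j, |C i j|, by positivity, fun k i j => ?_⟩
  calc ‖(M k)⁻¹ i j‖ ≤ |C i j| := (hC i j k).trans (le_abs_self _)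
    _ ≤ ∑ j, |C i j| := Finset.single_le_sum (f := fun j => |C i j|)
        (fun _ _ => abs_nonneg _) (Finset.mem_univ j)
    _ ≤ _ := Finset.single_le_sum (f := fun i => ∑ j, |C i j|)
        (fun _ _ => Finset.sum_nonneg fun _ _ => abs_nonneg _) (Finset.mem_univ i)

omit [FiniteDimensional ℂ E] in
/-- the two-term relation for the differences -/
private theorem diff_formula {p : E → ℂ} {N : ℕ} (hr : RankLE (PK p p) N) (hp0 : p 0 = 1)
    {a b : Fin N → E} (l : E →L[ℂ] ℂ) (β : E) (c : ℂ) (hc : c ≠ 0) (q : E → ℂ)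
    (hq : ∀ x, q x = c * Complex.exp (l x) * p (x + β)) (hq0 : q 0 = 1)
    (hdet : (mm (PK p q) a b).det ≠ 0) (u : E) :
    q u - p u = BF (oF p q (fun x => q x - p x) a b) b p q u := by
  have h := two_term hr l β c hc q hq hdet 0 u
  have e0 : ∀ x, Qz p l β 0 x = p x := fun x => by simp [Qz]
  have e1 : ∀ x, c * Qz p l β (0 + 1) x = q x := fun x => by
    rw [hq x]
    simp [Qz, mul_assoc]
  have e2 : (oF p q (fun x => q x - p x) a b) = oF p q q a b := by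
    funext i y
    exact oF_sub a b i y
  rw [e2]
  have h2 := congrArg (fun w => c * w) h
  simp only [e0, BF, hp0] at h2
  have e3 : c * (1 * Qz p l β (0 + 1) u - p u * Qz p l β (0 + 1) 0) = q u - p u := by
    rw [← e1 u]
    have := e1 0
    rw [hq0] at this
    linear_combination (-p u) * this
  rw [e3] at h2
  rw [h2, BF, Finset.mul_sum]
  refine Finset.sum_congr rfl fun i _ => ?_
  rw [← e1]
  ring

omit [FiniteDimensional ℂ E] in
/-- Propagation of bounds by doubling. -/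
private theorem step_bound {p : E → ℂ} {N : ℕ} (hr : RankLE (PK p p) N) (hp0 : p 0 = 1)
    {a b : Fin N → E} {μ : ℝ} (ha : ∀ i, ‖a i‖ ≤ μ) (hb : ∀ i, ‖b i‖ ≤ μ) (q : ℕ → E → ℂ)
    (l : ℕ → E →L[ℂ] ℂ) (β : ℕ → E) (c : ℕ → ℂ) (hc : ∀ j, c j ≠ 0)
    (hq : ∀ j x, q j x = c j * Complex.exp (l j x) * p (x + β j)) (hq0 : ∀ j, q j 0 = 1)
    (hdet : ∀ j, (mm (PK p (q j)) a b).det ≠ 0) {Ci : ℝ} (hCi0 : 0 ≤ Ci)
    (hCi : ∀ k i j, ‖(mm (PK p (q k)) a b)⁻¹ i j‖ ≤ Ci) {ρ Cp Cq C : ℝ} (hCp0 : 0 ≤ Cp)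
    (hCq0 : 0 ≤ Cq) (hC0 : 0 ≤ C)
    (hCp : ∀ x ∈ closedBall (0 : E) ρ, ‖p x‖ ≤ Cp)
    (hCq : ∀ k, ∀ x ∈ closedBall (0 : E) ρ, ‖q k x‖ ≤ Cq) (ε : ℕ → ℝ)
    (hC : ∀ j, ∀ x ∈ closedBall (0 : E) ρ, ‖q j x - p x‖ ≤ C * ε j) :
    ∃ C' : ℝ, 0 ≤ C' ∧ ∀ j, ∀ x ∈ closedBall (0 : E) (2 * (ρ - μ)),
      ‖q j x - p x‖ ≤ C' * ε j := by
  refine ⟨N * (Cp * Cq * (N * (Ci * (Cp * C + Cp * C)))), by positivity, fun j u hu => ?_⟩
  have hu2 : ‖(1 / 2 : ℂ) • u‖ ≤ ρ - μ := by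
    rw [mem_closedBall_zero_iff] at hu
    rw [norm_smul]
    have : ‖(1 / 2 : ℂ)‖ = 1 / 2 := by norm_num
    rw [this]
    linarith
  have hmem : ∀ v : E, ‖v‖ ≤ μ → (1 / 2 : ℂ) • u - v ∈ closedBall (0 : E) ρ ∧
      (1 / 2 : ℂ) • u + v ∈ closedBall (0 : E) ρ ∧ v - (1 / 2 : ℂ) • u ∈ closedBall (0 : E) ρ ∧
      v + (1 / 2 : ℂ) • u ∈ closedBall (0 : E) ρ := by
    intro v hv
    simp only [mem_closedBall_zero_iff]
    have h1 := norm_sub_le ((1 / 2 : ℂ) • u) v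
    have h2 := norm_add_le ((1 / 2 : ℂ) • u) v
    have h3 := norm_sub_le v ((1 / 2 : ℂ) • u)
    have h4 := norm_add_le v ((1 / 2 : ℂ) • u)
    refine ⟨?_, ?_, ?_, ?_⟩ <;> linarith
  rw [diff_formula hr hp0 (l j) (β j) (c j) (hc j) (q j) (hq j) (hq0 j) (hdet j) u]
  have hoF : ∀ i, ‖oF p (q j) (fun x => q j x - p x) a b i ((1 / 2 : ℂ) • u)‖ ≤
      (N * (Ci * (Cp * C + Cp * C))) * ε j := by
    intro i
    unfold oF
    refine (norm_sum_le _ _).trans ?_
    have hterm : ∀ k ∈ (Finset.univ : Finset (Fin N)), ‖(mm (PK p (q j)) a b)⁻¹ i k *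
        (p (a k - (1 / 2 : ℂ) • u) * (q j (a k + (1 / 2 : ℂ) • u) - p (a k + (1 / 2 : ℂ) • u)) -
        p (a k + (1 / 2 : ℂ) • u) * (q j (a k - (1 / 2 : ℂ) • u) -
          p (a k - (1 / 2 : ℂ) • u)))‖ ≤ Ci * (Cp * C + Cp * C) * ε j := by
      intro k _
      obtain ⟨-, -, h3, h4⟩ := hmem (a k) (ha k)
      rw [norm_mul]
      have h5 : ‖p (a k - (1 / 2 : ℂ) • u) * (q j (a k + (1 / 2 : ℂ) • u) -
          p (a k + (1 / 2 : ℂ) • u)) - p (a k + (1 / 2 : ℂ) • u) *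
          (q j (a k - (1 / 2 : ℂ) • u) - p (a k - (1 / 2 : ℂ) • u))‖ ≤
          Cp * (C * ε j) + Cp * (C * ε j) := by
        refine (norm_sub_le _ _).trans (add_le_add ?_ ?_)
        · rw [norm_mul]
          exact mul_le_mul (hCp _ h3) (hC j _ h4) (norm_nonneg _) hCp0
        · rw [norm_mul]
          exact mul_le_mul (hCp _ h4) (hC j _ h3) (norm_nonneg _) hCp0
      calc _ ≤ Ci * (Cp * (C * ε j) + Cp * (C * ε j)) :=
            mul_le_mul (hCi j i k) h5 (norm_nonneg _) hCi0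
        _ = _ := by ring
    refine (Finset.sum_le_sum hterm).trans (le_of_eq ?_)
    rw [Finset.sum_const, Finset.card_univ, Fintype.card_fin, nsmul_eq_mul]
    ring
  unfold BF
  refine (norm_sum_le _ _).trans ?_
  have hterm : ∀ i ∈ (Finset.univ : Finset (Fin N)), ‖p ((1 / 2 : ℂ) • u - b i) *
      q j ((1 / 2 : ℂ) • u + b i) *
      oF p (q j) (fun x => q j x - p x) a b i ((1 / 2 : ℂ) • u)‖ ≤
      Cp * Cq * ((N * (Ci * (Cp * C + Cp * C))) * ε j) := by
    intro i _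
    obtain ⟨h1, h2, -, -⟩ := hmem (b i) (hb i)
    rw [norm_mul, norm_mul]
    exact mul_le_mul (mul_le_mul (hCp _ h1) (hCq j _ h2) (norm_nonneg _) hCp0) (hoF i)
      (norm_nonneg _) (by positivity)
  refine (Finset.sum_le_sum hterm).trans (le_of_eq ?_)
  rw [Finset.sum_const, Finset.card_univ, Fintype.card_fin, nsmul_eq_mul]
  ring

/-- The secant lemma for a corrected sequence. -/
private theorem secant_aux {p : E → ℂ} {N : ℕ} (hp : Differentiable ℂ p) (hp0 : p 0 = 1)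
    (hr : RankLE (PK p p) N) {a b : Fin N → E} (hdet0 : (mm (PK p p) a b).det ≠ 0)
    {d : ℕ} (z : Fin d → E) (q : ℕ → E → ℂ)
    (l : ℕ → E →L[ℂ] ℂ) (β : ℕ → E) (c : ℕ → ℂ) (hc : ∀ j, c j ≠ 0)
    (hq : ∀ j x, q j x = c j * Complex.exp (l j x) * p (x + β j)) (hq0 : ∀ j, q j 0 = 1)
    (hdet : ∀ j, (mm (PK p (q j)) a b).det ≠ 0) (hz : ∀ j k, q j (z k) = p (z k))
    (hlim : LU q p) (hne : ∀ j, (fun x => q j x - p x) ≠ 0) :
    ∃ (ψ : ℕ → ℕ) (ε : ℕ → ℝ) (η : E → ℂ), StrictMono ψ ∧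
      Approach p (fun j => β (ψ j)) (fun j => c (ψ j)) (fun j => l (ψ j)) ε η ∧ η ≠ 0 ∧
      ∀ k, η (z k) = 0 := by
  have : ProperSpace E := FiniteDimensional.proper ℂ E
  have hqd : ∀ j, Differentiable ℂ (q j) := by
    intro j
    have : q j = fun x => c j * Complex.exp (l j x) * p (x + β j) := funext (hq j)
    rw [this]
    have h1 : Differentiable ℂ (fun x => p (x + β j)) :=
      hp.comp (differentiable_id.add_const _)
    have h2 : Differentiable ℂ (fun x => Complex.exp (l j x)) := (l j).differentiable.cexp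
    exact (h2.const_mul _).mul h1
  -- the radius
  set μ : ℝ := (∑ i, ‖a i‖) + ∑ i, ‖b i‖ with hμ
  have hμa : ∀ i, ‖a i‖ ≤ μ := fun i => by
    have h1 : ‖a i‖ ≤ ∑ i, ‖a i‖ := Finset.single_le_sum (f := fun i => ‖a i‖)
      (fun _ _ => norm_nonneg _) (Finset.mem_univ i)
    have h2 : 0 ≤ ∑ i, ‖b i‖ := Finset.sum_nonneg fun _ _ => norm_nonneg _
    linarith
  have hμb : ∀ i, ‖b i‖ ≤ μ := fun i => by
    have h1 : ‖b i‖ ≤ ∑ i, ‖b i‖ := Finset.single_le_sum (f := fun i => ‖b i‖)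
      (fun _ _ => norm_nonneg _) (Finset.mem_univ i)
    have h2 : 0 ≤ ∑ i, ‖a i‖ := Finset.sum_nonneg fun _ _ => norm_nonneg _
    linarith
  have hμ0 : 0 ≤ μ := by positivity
  set R₀ : ℝ := 2 * μ + 2 with hR₀
  have hK : IsCompact (closedBall (0 : E) R₀) := isCompact_closedBall 0 R₀
  have hKne : (closedBall (0 : E) R₀).Nonempty := ⟨0, by
    rw [mem_closedBall_zero_iff, norm_zero]; positivity⟩
  have hmax : ∀ j, ∃ x ∈ closedBall (0 : E) R₀, ∀ y ∈ closedBall (0 : E) R₀,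
      ‖q j y - p y‖ ≤ ‖q j x - p x‖ := fun j =>
    hK.exists_isMaxOn hKne (((hqd j).sub hp).continuous.norm.continuousOn)
  choose x hxm hx using hmax
  set ε₀ : ℕ → ℝ := fun j => ‖q j (x j) - p (x j)‖ with hε₀
  have hε₀pos : ∀ j, 0 < ε₀ j := by
    intro j
    refine lt_of_le_of_ne (norm_nonneg _) fun h0 => hne j ?_
    refine identity ((hqd j).sub hp) (x₀ := 0) ?_
    have hball : ball (0 : E) R₀ ∈ 𝓝 (0 : E) := ball_mem_nhds 0 (by positivity)
    filter_upwards [hball] with y hy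
    have h1 := hx j y (ball_subset_closedBall hy)
    have h2 : ‖q j y - p y‖ ≤ 0 := by
      refine h1.trans (le_of_eq ?_)
      exact h0.symm
    exact norm_le_zero_iff.1 h2
  -- uniform bounds
  obtain ⟨Ci, hCi0, hCi⟩ := inv_bdd (M := fun j => mm (PK p (q j)) a b)
    (M₀ := mm (PK p p) a b) (fun i j => by
      simp only [mm, Matrix.of_apply, PK]
      exact (hlim.tendsto _).const_mul _) hdet0
  have hbound : ∀ n : ℕ, ∃ C : ℝ, 0 ≤ C ∧ ∀ j, ∀ y ∈ closedBall (0 : E) (R₀ + 2 * n),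
      ‖q j y - p y‖ ≤ C * ε₀ j := by
    intro n
    induction n with
    | zero =>
      refine ⟨1, zero_le_one, fun j y hy => ?_⟩
      rw [one_mul]
      refine hx j y ?_
      simpa using hy
    | succ n ih =>
      obtain ⟨C, hC0, hC⟩ := ih
      obtain ⟨Cq, hCq0, hCq⟩ := LU_bdd hlim (fun k => (hqd k).continuous) hp.continuous
        (R₀ + 2 * n)
      obtain ⟨Cp, hCp⟩ := (isCompact_closedBall (0 : E) (R₀ + 2 * n)).exists_bound_of_continuousOn
        hp.continuous.continuousOn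
      obtain ⟨C', hC'0, hC'⟩ := step_bound hr hp0 hμa hμb q l β c hc hq hq0 hdet hCi0 hCi
        (abs_nonneg Cp) hCq0 hC0 (fun y hy => (hCp y hy).trans (le_abs_self _)) hCq ε₀ hC
      refine ⟨C', hC'0, fun j y hy => hC' j y ?_⟩
      rw [mem_closedBall_zero_iff] at hy ⊢
      refine hy.trans ?_
      push_cast
      have : (0 : ℝ) ≤ n := Nat.cast_nonneg n
      linarith
  -- the quotients
  set η₀ : ℕ → E → ℂ := fun j y => (q j y - p y) / ε₀ j with hη₀
  have hη₀d : ∀ j, Differentiable ℂ (η₀ j) := fun j => by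
    have h1 : Differentiable ℂ (fun y => (q j y - p y) * ((ε₀ j : ℂ))⁻¹) :=
      ((hqd j).sub hp).mul_const _
    exact h1
  have hnorm : ∀ j y, ‖η₀ j y‖ = ‖q j y - p y‖ / ε₀ j := by
    intro j y
    rw [hη₀]
    simp only
    rw [norm_div, Complex.norm_real, Real.norm_of_nonneg (hε₀pos j).le]
  have hη₀b : ∀ R : ℝ, ∃ C : ℝ, ∀ k, ∀ y ∈ closedBall (0 : E) R, ‖η₀ k y‖ ≤ C := by
    intro R
    obtain ⟨n, hn⟩ := exists_nat_gt R
    obtain ⟨C, hC0, hC⟩ := hbound n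
    refine ⟨C, fun k y hy => ?_⟩
    rw [hnorm, div_le_iff₀ (hε₀pos k)]
    refine hC k y ?_
    rw [mem_closedBall_zero_iff] at hy ⊢
    have : (0 : ℝ) ≤ n := Nat.cast_nonneg n
    linarith
  obtain ⟨ψ, η, hψ, hηd, hηlim⟩ := montel hη₀d hη₀b
  refine ⟨ψ, fun j => ε₀ (ψ j), η, hψ, ⟨?_, ?_, ?_, ?_, hηd, ?_⟩, ?_, ?_⟩
  · intro j
    have h1 := hq0 (ψ j)
    rw [hq, map_zero, Complex.exp_zero, mul_one, zero_add] at h1
    exact h1
  · exact fun j => hε₀pos _
  · have h1 : Tendsto ε₀ atTop (𝓝 0) := by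
      rw [Metric.tendsto_atTop]
      intro e he
      obtain ⟨n, hn⟩ := eventually_atTop.1 (Metric.tendstoUniformlyOn_iff.1 (hlim R₀) e he)
      refine ⟨n, fun k hk => ?_⟩
      have h2 := hn k hk (x k) (hxm k)
      rw [dist_eq_norm, norm_sub_rev] at h2
      rw [dist_zero_right, Real.norm_of_nonneg (hε₀pos k).le]
      exact h2
    exact h1.comp hψ.tendsto_atTop
  · have h1 := hlim.subseq hψ.tendsto_atTop
    have e : (fun j => q (ψ j)) = fun j x => c (ψ j) * Complex.exp (l (ψ j) x) *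
        p (x + β (ψ j)) := by
      funext j x
      exact hq _ _
    rw [e] at h1
    exact h1
  · have e : (fun j => η₀ (ψ j)) = fun j x => (c (ψ j) * Complex.exp (l (ψ j) x) *
        p (x + β (ψ j)) - p x) / (ε₀ (ψ j) : ℂ) := by
      funext j x
      rw [hη₀]
      simp only
      rw [hq]
    rw [e] at hηlim
    exact hηlim
  · intro h0
    rw [h0] at hηlim
    obtain ⟨n, hn⟩ := eventually_atTop.1 (Metric.tendstoUniformlyOn_iff.1 (hηlim R₀) 1 one_pos)
    have h2 := hn n le_rfl (x (ψ n)) (hxm _)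
    rw [Pi.zero_apply, dist_zero_left, hnorm] at h2
    rw [div_lt_one (hε₀pos _)] at h2
    exact lt_irrefl _ h2
  · intro k
    have h1 := hηlim.tendsto (z k)
    have h2 : (fun j => η₀ (ψ j) (z k)) = fun _ => 0 := by
      funext j
      rw [hη₀]
      simp only
      rw [hz, sub_self, zero_div]
    rw [h2] at h1
    exact tendsto_nhds_unique h1 tendsto_const_nhds

/-- **the secant lemma** -/
theorem secant {p : E → ℂ} {N : ℕ} (hp : Differentiable ℂ p) (hp0 : p 0 = 1)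
    (hr : RankEq (PK p p) N) (hnd : NonDeg p) {b : ℕ → E} {c : ℕ → ℂ} {l : ℕ → E →L[ℂ] ℂ}
    (hc : ∀ j, c j ≠ 0) (hlim : LU (fun j x => c j * Complex.exp (l j x) * p (x + b j)) p)
    {δ : ℝ} (hδ : 0 < δ) (haway : ∀ j, ∀ γ ∈ Per p, δ ≤ ‖b j - γ‖) :
    ∃ (β : ℕ → E) (c' : ℕ → ℂ) (l' : ℕ → E →L[ℂ] ℂ) (ε : ℕ → ℝ) (η : E → ℂ),
      Approach p β c' l' ε η ∧
      ∀ (c : E) (l : E →L[ℂ] ℂ) (γ : ℂ), (fun x => fderiv ℂ p x c + (l x + γ) * p x) ≠ η := by
  obtain ⟨z, hz0, huni⟩ := exists_unisolvent hp (by rw [hp0]; exact one_ne_zero) hnd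
  obtain ⟨φ, β, c', l', hφ, hβ, hc', hcz, hlim'⟩ := exists_corrected hp z rfl huni hc hlim
  obtain ⟨a, a', hdet0⟩ := hr.exists_minor
  set q : ℕ → E → ℂ := fun j x => c' j * Complex.exp (l' j x) * p (x + β j) with hq
  -- eventually the translation vectors are not periods
  have h1 : ∀ᶠ j in atTop, (fun x => q j x - p x) ≠ 0 := by
    have h2 : ∀ᶠ j in atTop, ‖β j - b (φ j)‖ < δ := by
      have h3 := hβ.norm
      rw [norm_zero] at h3
      exact h3.eventually (gt_mem_nhds hδ)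
    filter_upwards [h2] with j hj h0
    have hper : β j ∈ Per p := by
      refine ⟨-(l' j), -Complex.log (c' j), fun u => ?_⟩
      have h3 : q j u = p u := by
        have := congrFun h0 u
        simpa [sub_eq_zero] using this
      have h4 : c' j * Complex.exp (l' j u) * p (u + β j) = p u := h3
      rw [Complex.exp_add, Complex.exp_neg (Complex.log _), Complex.exp_log (hc' j),
        neg_apply, Complex.exp_neg, ← h4]
      have h5 : Complex.exp (l' j u) ≠ 0 := Complex.exp_ne_zero _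
      have h6 := hc' j
      field_simp
    have h7 := haway (φ j) (β j) hper
    rw [norm_sub_rev] at h7
    linarith
  have h2 : ∀ᶠ j in atTop, (mm (PK p (q j)) a a').det ≠ 0 := by
    have hM : Tendsto (fun j => mm (PK p (q j)) a a') atTop (𝓝 (mm (PK p p) a a')) :=
      tendsto_pi_nhds.2 fun i => tendsto_pi_nhds.2 fun k => by
        simp only [mm, Matrix.of_apply, PK]
        exact (hlim'.tendsto _).const_mul _
    have hdet : Tendsto (fun j => (mm (PK p (q j)) a a').det) atTop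
        (𝓝 (mm (PK p p) a a').det) :=
      ((continuous_id.matrix_det).tendsto _).comp hM
    exact hdet.eventually_ne hdet0
  obtain ⟨n, hn⟩ := eventually_atTop.1 (h1.and h2)
  obtain ⟨ψ, ε, η, hψ, hA, hη0, hηz⟩ := secant_aux hp hp0 hr.1 hdet0 z
    (fun j => q (j + n)) (fun j => l' (j + n)) (fun j => β (j + n)) (fun j => c' (j + n))
    (fun j => hc' _) (fun j x => rfl) (fun j => by
      have := hcz (j + n) 0
      rw [hz0] at this
      rw [hq]
      simp only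
      rw [this, hp0]) (fun j => (hn (j + n) (by omega)).2)
    (fun j k => hcz (j + n) k) (hlim'.subseq (tendsto_add_atTop_nat n))
    (fun j => (hn (j + n) (by omega)).1)
  refine ⟨_, _, _, ε, η, hA, fun c₀ l₀ γ₀ h0 => hη0 ?_⟩
  obtain ⟨e1, e2, e3⟩ := huni c₀ l₀ γ₀ fun k => by
    have := congrFun h0 (z k)
    rw [hηz k] at this
    exact this
  rw [← h0, e1, e2, e3]
  funext x
  simp

end Pool.Agent.Lib.MP_db21fa_an.TF
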