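import Pool.Agent.Lib.MP_db21fa_an.TF.Rec
import Pool.Agent.Lib.MP_db21fa_an.TF.Secant
import Pool.Agent.Lib.MP_db21fa_an.TF.Flow

/-!
Module K1: the extension step.
-/

set_option autoImplicit false

set_option linter.unusedSectionVars false

open Filter Topology Metric

namespace Pool.Agent.Lib.MP_db21fa_an.TF

variable {E : Type*} [NormedAddCommGroup E] [NormedSpace ℂ E] [FiniteDimensional ℂ E]

/-- derivative of a restriction to `E × {0}` -/
private theorem fderiv_slice {p : E → ℂ} {P : E × ℂ → ℂ} (hP : Differentiable ℂ P)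
    (hres : ∀ x, P (x, 0) = p x) {η : E → ℂ}
    (hη : ∀ x, HasDerivAt (fun t : ℂ => P (x, t)) (η x) 0) (x : E) (c : E) (τ : ℂ) :
    fderiv ℂ P (x, 0) (c, τ) = fderiv ℂ p x c + τ * η x := by
  have h1 : fderiv ℂ P (x, 0) (c, 0) = fderiv ℂ p x c := by
    have e : p = P ∘ (fun y : E => (y, (0 : ℂ))) := by
      funext y; exact (hres y).symm
    have hd : HasFDerivAt (fun y : E => (y, (0 : ℂ))) (ContinuousLinearMap.inl ℂ E ℂ) x :=
      (ContinuousLinearMap.inl ℂ E ℂ).hasFDerivAt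
    have h2 : HasFDerivAt p ((fderiv ℂ P (x, 0)).comp (ContinuousLinearMap.inl ℂ E ℂ)) x := by
      rw [e]
      exact (hP (x, 0)).hasFDerivAt.comp x hd
    rw [h2.fderiv]
    simp
  have h3 : fderiv ℂ P (x, 0) (0, τ) = τ * η x := by
    have hd : HasDerivAt (fun t : ℂ => (x, t)) ((0 : E), (1 : ℂ)) 0 :=
      (hasDerivAt_const (0 : ℂ) x).prodMk (hasDerivAt_id (0 : ℂ))
    have h4 : HasDerivAt (fun t : ℂ => P (x, t)) (fderiv ℂ P (x, 0) (0, 1)) 0 :=
      (hP (x, 0)).hasFDerivAt.comp_hasDerivAt (0 : ℂ) hd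
    have h5 : fderiv ℂ P (x, 0) (0, 1) = η x := h4.unique (hη x)
    have h6 : ((0 : E), τ) = τ • ((0 : E), (1 : ℂ)) := by simp
    rw [h6, map_smul, h5, smul_eq_mul]
  have h7 : (c, τ) = (c, (0 : ℂ)) + ((0 : E), τ) := by simp
  rw [h7, map_add, h1, h3]

/-- the extension step -/
theorem key_ext {p : E → ℂ} {N : ℕ} (hmin : RankMin p N) (hnd : NonDeg p) (hp0 : p 0 = 1)
    (hnf : ¬ FullPer p) :
    ∃ P : E × ℂ → ℂ, Differentiable ℂ P ∧ RankLE (PK P P) N ∧ (∀ x, P (x, 0) = p x) ∧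
      NonDeg P := by
  classical
  have hr : RankEq (PK p p) N := hmin.rankEq
  have : FiniteDimensional ℝ E := FiniteDimensional.complexToReal E
  -- a real functional vanishing on the periods
  obtain ⟨φ, hφ0, hφ⟩ : ∃ φ : E →ₗ[ℝ] ℝ, φ ≠ 0 ∧ Submodule.span ℝ (Per p) ≤ LinearMap.ker φ :=
    Submodule.exists_le_ker_of_lt_top _ (lt_top_iff_ne_top.2 hnf)
  obtain ⟨e₀, he₀⟩ : ∃ e₀, φ e₀ ≠ 0 := by
    by_contra hcon
    push Not at hcon
    exact hφ0 (LinearMap.ext hcon)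
  obtain ⟨e, hφe⟩ : ∃ e, φ e = 1 :=
    ⟨(φ e₀)⁻¹ • e₀, by rw [map_smul, smul_eq_mul, inv_mul_cancel₀ he₀]⟩
  let Φ : E →L[ℝ] ℝ := LinearMap.toContinuousLinearMap φ
  have hΦ : ∀ x, Φ x = φ x := fun x => rfl
  obtain ⟨k, k', c, l, hk, hc, hlim⟩ := recurrence hmin (fun n : ℕ => (n : ℝ) • e)
  have hδ : 0 < 1 / (‖Φ‖ + 1) := by positivity
  have haway : ∀ j, ∀ γ ∈ Per p,
      1 / (‖Φ‖ + 1) ≤ ‖(((k' j : ℕ) : ℝ) • e - ((k j : ℕ) : ℝ) • e) - γ‖ := by
    intro j γ hγ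
    have h0 : φ γ = 0 := hφ (Submodule.subset_span hγ)
    have h1 : φ ((((k' j : ℕ) : ℝ) • e - ((k j : ℕ) : ℝ) • e) - γ) = (k' j : ℝ) - (k j : ℝ) := by
      rw [map_sub, map_sub, map_smul, map_smul, hφe, h0]; simp
    have h2 : (1 : ℝ) ≤ (k' j : ℝ) - (k j : ℝ) := by
      have h3 : ((k j + 1 : ℕ) : ℝ) ≤ (k' j : ℝ) := by exact_mod_cast hk j
      push_cast at h3
      linarith
    have h4 : (1 : ℝ) ≤ ‖Φ‖ * ‖(((k' j : ℕ) : ℝ) • e - ((k j : ℕ) : ℝ) • e) - γ‖ := by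
      refine le_trans ?_ (Φ.le_opNorm _)
      rw [hΦ, h1]
      exact le_trans h2 (le_abs_self _)
    rw [div_le_iff₀ (by positivity)]
    nlinarith [norm_nonneg ((((k' j : ℕ) : ℝ) • e - ((k j : ℕ) : ℝ) • e) - γ)]
  obtain ⟨β, c', l', ε, η, hA, hη⟩ := secant hmin.diff hp0 hr hnd hc hlim hδ haway
  obtain ⟨P, hPd, hPr, hPres, hPη⟩ := flow hmin.diff hp0 hr hA
  refine ⟨P, hPd, hPr, hPres, ?_⟩
  rintro ⟨c₁, τ⟩ L γ hL
  have hx : ∀ x, fderiv ℂ p x c₁ + τ * η x = (L (x, 0) + γ) * p x := by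
    intro x
    have := hL (x, 0)
    rw [fderiv_slice hPd hPres hPη, hPres] at this
    exact this
  let L₀ : E →L[ℂ] ℂ := L.comp (ContinuousLinearMap.inl ℂ E ℂ)
  have hL₀ : ∀ x, L₀ x = L (x, 0) := fun x => rfl
  have hτ : τ = 0 := by
    by_contra hτ
    apply hη ((-τ⁻¹) • c₁) (τ⁻¹ • L₀) (τ⁻¹ * γ)
    funext x
    have h1 := hx x
    rw [map_smul, smul_apply, hL₀, smul_eq_mul, smul_eq_mul]
    have h2 : η x = τ⁻¹ * (τ * η x) := by
      rw [← mul_assoc, inv_mul_cancel₀ hτ, one_mul]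
    have h3 : τ * η x = (L (x, 0) + γ) * p x - fderiv ℂ p x c₁ := by
      rw [← h1]; ring
    rw [h2, h3]
    ring
  have hc₁ : c₁ = 0 := by
    apply hnd c₁ L₀ γ
    intro u
    have h1 := hx u
    rw [hτ, zero_mul, add_zero] at h1
    rw [h1, hL₀]
  rw [hτ, hc₁]
  rfl

/-- rank-minimality is inherited by extensions -/
theorem rankMin_ext {F : Type*} [NormedAddCommGroup F] [NormedSpace ℂ F] [FiniteDimensional ℂ F]
    {p : E → ℂ} {N : ℕ} (hmin : RankMin p N) (ι : E →L[ℂ] F) {P : F → ℂ}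
    (hP : Differentiable ℂ P) (hr : RankLE (PK P P) N) (hres : ∀ x, P (ι x) = p x) :
    RankMin P N := by
  have hp : (fun x => P (ι x)) = p := funext hres
  refine ⟨hP, ?_, hr, ?_⟩
  · rintro rfl
    apply hmin.ne
    funext x
    rw [← hres x]
    rfl
  · intro q hq hq0 hs n hn
    obtain ⟨a, ha⟩ : ∃ a, q a ≠ 0 := Function.ne_iff.1 hq0
    have h1 : Sim p (fun x => q (ι x + a)) := by
      have h2 : Sim P (fun x => q (x + a)) := by
        have h3 := hs.shift (0 : F) a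
        simpa using h3
      have h4 := h2.comp ι
      rwa [hp] at h4
    refine hmin.min (fun x => q (ι x + a)) ?_ ?_ h1 n ?_
    · exact hq.comp (ι.differentiable.add_const a)
    · intro h0
      apply ha
      have := congrFun h0 0
      simpa using this
    · exact rankLE_PK_comp (p := fun x => q (x + a)) (q := fun x => q (x + a))
        (rankLE_PK_shift hn a a) ι

end Pool.Agent.Lib.MP_db21fa_an.TF
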