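import Pool.Agent.Lib.MP_db21fa_an.TF.LinAlg
import Pool.Agent.Lib.MP_db21fa_an.TF.Cx

/-!
Module D: the normal families lemma.
-/

set_option autoImplicit false

open Filter Topology Metric

namespace Pool.Agent.Lib.MP_db21fa_an.TF

variable {E : Type*} [NormedAddCommGroup E] [NormedSpace ℂ E] [FiniteDimensional ℂ E]

namespace NFaux

/-- a dual basis of `W` with respect to evaluations -/
structure Dual (W : Submodule ℂ (E → ℂ)) (N : ℕ) (y : Fin N → E) (c : Fin N → E → ℂ) : Prop where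
  mem : ∀ i, c i ∈ W
  eq : ∀ w ∈ W, ∀ x, w x = ∑ i, w (y i) * c i x

theorem exists_dual (W : Submodule ℂ (E → ℂ)) [FiniteDimensional ℂ W]
    (hW : ∀ w ∈ W, Differentiable ℂ w) {U : Set E} (hU : IsOpen U) (hne : U.Nonempty) :
    ∃ (N : ℕ) (y : Fin N → E) (c : Fin N → E → ℂ), (∀ i, y i ∈ U) ∧ Dual W N y c := by
  classical
  set N := Module.finrank ℂ W with hN
  let b : Module.Basis (Fin N) ℂ W := Module.finBasis ℂ W
  let f : Fin N → U → ℂ := fun j t => (b j : E → ℂ) t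
  have hf : LinearIndependent ℂ f := by
    rw [Fintype.linearIndependent_iff]
    intro g hg
    have hw : ((∑ j, g j • b j : W) : E → ℂ) = 0 := by
      obtain ⟨x₀, hx₀⟩ := hne
      refine identity (x₀ := x₀) (hW _ (∑ j, g j • b j : W).2) ?_
      filter_upwards [hU.mem_nhds hx₀] with x hx
      have h := congrFun hg ⟨x, hx⟩
      simpa [f, Finset.sum_apply, Submodule.coe_sum] using h
    have hw' : (∑ j, g j • b j : W) = 0 := Subtype.ext hw
    exact (Fintype.linearIndependent_iff.1 b.linearIndependent) g hw'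
  obtain ⟨t, ht⟩ := exists_det_ne_zero f hf
  set M : Matrix (Fin N) (Fin N) ℂ := Matrix.of fun i j => f j (t i) with hM
  have hinv : M⁻¹ * M = 1 := Matrix.nonsing_inv_mul M (isUnit_iff_ne_zero.2 ht)
  refine ⟨N, fun i => (t i : E), fun i x => ∑ j, (b j : E → ℂ) x * M⁻¹ j i,
    fun i => (t i).2, ⟨fun i => ?_, fun w hw x => ?_⟩⟩
  · have : (fun x => ∑ j, (b j : E → ℂ) x * M⁻¹ j i) = ∑ j, M⁻¹ j i • (b j : E → ℂ) := by
      funext x
      simp only [Finset.sum_apply, Pi.smul_apply, smul_eq_mul]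
      exact Finset.sum_congr rfl (fun j _ => mul_comm _ _)
    rw [this]
    exact Submodule.sum_mem _ (fun j _ => Submodule.smul_mem _ _ (b j).2)
  · set α : Fin N → ℂ := fun j => b.repr ⟨w, hw⟩ j with hα
    have hwx : ∀ x, w x = ∑ j, α j * (b j : E → ℂ) x := by
      intro x
      have h := b.sum_repr ⟨w, hw⟩
      have h2 := congrArg (fun v : W => (v : E → ℂ) x) h
      simp only [Submodule.coe_sum, Submodule.coe_smul, Finset.sum_apply, Pi.smul_apply,
        smul_eq_mul] at h2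
      exact h2.symm
    have hwy : (fun i => w (t i : E)) = M.mulVec α := by
      funext i
      rw [hwx]
      simp only [Matrix.mulVec, dotProduct, hM, Matrix.of_apply, f]
      exact Finset.sum_congr rfl (fun j _ => mul_comm _ _)
    have hα2 : ∀ j, ∑ i, M⁻¹ j i * w (t i : E) = α j := by
      intro j
      have h3 : M⁻¹.mulVec (fun i => w (t i : E)) = α := by
        rw [hwy, Matrix.mulVec_mulVec, hinv, Matrix.one_mulVec]
      exact congrFun h3 j
    calc w x = ∑ j, α j * (b j : E → ℂ) x := hwx x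
      _ = ∑ j, (∑ i, M⁻¹ j i * w (t i : E)) * (b j : E → ℂ) x := by
        simp only [hα2]
      _ = ∑ j, ∑ i, w (t i : E) * ((b j : E → ℂ) x * M⁻¹ j i) := by
        refine Finset.sum_congr rfl (fun j _ => ?_)
        rw [Finset.sum_mul]
        exact Finset.sum_congr rfl (fun i _ => by ring)
      _ = ∑ i, ∑ j, w (t i : E) * ((b j : E → ℂ) x * M⁻¹ j i) := Finset.sum_comm
      _ = _ := by
        refine Finset.sum_congr rfl (fun i _ => ?_)
        rw [Finset.mul_sum]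

variable {W : Submodule ℂ (E → ℂ)} {N : ℕ} {y : Fin N → E} {c : Fin N → E → ℂ}

/-- the sum of the absolute values of the dual basis -/
noncomputable def SS (c : Fin N → E → ℂ) (x : E) : ℝ := ∑ i, ‖c i x‖

theorem SS_nonneg (c : Fin N → E → ℂ) (x : E) : 0 ≤ SS c x :=
  Finset.sum_nonneg (fun _ _ => norm_nonneg _)

theorem sum_le (a : Fin N → ℂ) (c : Fin N → E → ℂ) (x : E) :
    ‖∑ i, a i * c i x‖ ≤ ‖a‖ * SS c x := by
  refine (norm_sum_le _ _).trans ?_
  unfold SS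
  rw [Finset.mul_sum]
  refine Finset.sum_le_sum (fun i _ => ?_)
  rw [norm_mul]
  exact mul_le_mul_of_nonneg_right (norm_le_pi_norm a i) (norm_nonneg _)

theorem Dual.le (hD : Dual W N y c) {w : E → ℂ} (hw : w ∈ W) (x : E) :
    ‖w x‖ ≤ ‖fun i => w (y i)‖ * SS c x := by
  rw [hD.eq w hw x]
  exact sum_le (fun i => w (y i)) c x

theorem SS_bound (hW : ∀ w ∈ W, Differentiable ℂ w) (hD : Dual W N y c) (R : ℝ) :
    ∃ S : ℝ, 0 < S ∧ ∀ x ∈ closedBall (0 : E) R, SS c x ≤ S := by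
  have : ProperSpace E := FiniteDimensional.proper ℂ E
  have hc : Continuous (SS c) := by
    unfold SS
    exact continuous_finsetSum _ (fun i _ => (hW _ (hD.mem i)).continuous.norm)
  obtain ⟨S, hS⟩ := (isCompact_closedBall (0 : E) R).bddAbove_image hc.continuousOn
  refine ⟨max S 1, lt_of_lt_of_le one_pos (le_max_right _ _), fun x hx => ?_⟩
  exact (hS (Set.mem_image_of_mem _ hx)).trans (le_max_left _ _)

theorem Dual.compact (hW : ∀ w ∈ W, Differentiable ℂ w) (hD : Dual W N y c) {w : ℕ → E → ℂ}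
    (hw : ∀ k, w k ∈ W) (h1 : ∀ k, ‖fun i => w k (y i)‖ = 1) :
    ∃ (φ : ℕ → ℕ) (v : E → ℂ), StrictMono φ ∧ v ∈ W ∧ v ≠ 0 ∧ LU (fun j => w (φ j)) v := by
  obtain ⟨a, ha, φ, hφ, hlim⟩ := (isCompact_sphere (0 : Fin N → ℂ) 1).tendsto_subseq
    (x := fun k => fun i => w k (y i)) (fun k => by simpa using h1 k)
  have ha1 : ‖a‖ = 1 := by simpa using ha
  set v : E → ℂ := fun x => ∑ i, a i * c i x with hv
  have hvW : v ∈ W := by
    have : v = ∑ i, a i • c i := by
      funext x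
      simp [hv, Finset.sum_apply]
    rw [this]
    exact Submodule.sum_mem _ (fun i _ => Submodule.smul_mem _ _ (hD.mem i))
  have hdiff : ∀ j x, v x - w (φ j) x = ∑ i, (a i - w (φ j) (y i)) * c i x := by
    intro j x
    rw [hD.eq _ (hw (φ j)) x, hv, ← Finset.sum_sub_distrib]
    exact Finset.sum_congr rfl (fun i _ => by ring)
  have hbd : ∀ j x, ‖v x - w (φ j) x‖ ≤ ‖a - fun i => w (φ j) (y i)‖ * SS c x := by
    intro j x
    rw [hdiff j x]
    exact sum_le (fun i => a i - w (φ j) (y i)) c x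
  have hz : Tendsto (fun j => ‖a - fun i => w (φ j) (y i)‖) atTop (𝓝 0) := by
    have := (tendsto_const_nhds (x := a)).sub hlim
    simpa using this.norm
  have hLU : LU (fun j => w (φ j)) v := by
    intro R
    obtain ⟨S, hS0, hS⟩ := SS_bound hW hD R
    rw [Metric.tendstoUniformlyOn_iff]
    intro ε hε
    filter_upwards [(tendsto_order.1 hz).2 (ε / S) (div_pos hε hS0)] with j hj x hx
    rw [dist_eq_norm]
    calc ‖v x - w (φ j) x‖ ≤ ‖a - fun i => w (φ j) (y i)‖ * SS c x := hbd j x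
      _ ≤ ‖a - fun i => w (φ j) (y i)‖ * S :=
        mul_le_mul_of_nonneg_left (hS x hx) (norm_nonneg _)
      _ < ε := by rwa [← lt_div_iff₀ hS0]
  refine ⟨φ, v, hφ, hvW, ?_, hLU⟩
  intro hv0
  have : a = 0 := by
    funext i
    have t1 := hLU.tendsto (y i)
    have t2 : Tendsto (fun j => w (φ j) (y i)) atTop (𝓝 (a i)) := (tendsto_pi_nhds.1 hlim) i
    have := tendsto_nhds_unique t2 t1
    rw [this, hv0]
    rfl
  rw [this] at ha1
  simp at ha1

theorem hurwitz (hW : ∀ w ∈ W, Differentiable ℂ w) (hD : Dual W N y c) {K : Set E}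
    (hK : IsCompact K) {r : ℝ} (hr : 0 < r) :
    ∃ C : ℝ, ∀ z ∈ K, ∀ w ∈ W, (∀ x ∈ ball z r, w x ≠ 0) → w z = 1 →
      ‖fun i => w (y i)‖ ≤ C := by
  by_contra hcon
  push Not at hcon
  choose z hz w hw hnz h1 hC using fun n : ℕ => hcon ((n : ℝ) + 1)
  set s : ℕ → ℝ := fun n => ‖fun i => w n (y i)‖ with hs
  have hs0 : ∀ n, 0 < s n := fun n => by
    have := hC n
    have h2 : (0 : ℝ) ≤ n := Nat.cast_nonneg n
    show 0 < ‖fun i => w n (y i)‖
    linarith
  have hsC : ∀ n : ℕ, (n : ℝ) + 1 < s n := hC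
  set v : ℕ → E → ℂ := fun n x => ((s n : ℂ))⁻¹ * w n x with hv
  have hvW : ∀ n, v n ∈ W := fun n => W.smul_mem ((s n : ℂ))⁻¹ (hw n)
  have hv1 : ∀ n, ‖fun i => v n (y i)‖ = 1 := by
    intro n
    have : (fun i => v n (y i)) = ((s n : ℂ))⁻¹ • (fun i => w n (y i)) := rfl
    rw [this, norm_smul, norm_inv, Complex.norm_real, Real.norm_eq_abs, abs_of_pos (hs0 n)]
    exact inv_mul_cancel₀ (hs0 n).ne'
  obtain ⟨φ, V, hφ, hVW, hV0, hLU⟩ := hD.compact hW hvW hv1
  obtain ⟨z₀, hz₀, ψ, hψ, hzlim⟩ := hK.tendsto_subseq (x := fun j => z (φ j)) (fun j => hz _)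
  have hVc : Continuous V := (hW V hVW).continuous
  have hLU' : LU (fun j => v (φ (ψ j))) V := hLU.subseq hψ.tendsto_atTop
  have hLU2 := hLU'.comp_affine hVc hzlim
  have hst : Tendsto (fun j => s (φ (ψ j))) atTop atTop := by
    refine tendsto_atTop_mono (f := fun j : ℕ => (j : ℝ)) (fun j => ?_)
      tendsto_natCast_atTop_atTop
    have h1 := hsC (φ (ψ j))
    have h2 : j ≤ φ (ψ j) := ((hφ.comp hψ).id_le j)
    have h3 : (j : ℝ) ≤ (φ (ψ j) : ℕ) := by exact_mod_cast h2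
    show (j : ℝ) ≤ s (φ (ψ j))
    linarith
  -- the limit vanishes at `z₀`
  have hVz : V z₀ = 0 := by
    have t1 := hLU'.tendsto_at hVc hzlim
    have t2 : Tendsto (fun j => v (φ (ψ j)) (z (φ (ψ j)))) atTop (𝓝 0) := by
      have : (fun j => v (φ (ψ j)) (z (φ (ψ j)))) = fun j => ((s (φ (ψ j)) : ℂ))⁻¹ := by
        funext j
        show ((s (φ (ψ j)) : ℂ))⁻¹ * w (φ (ψ j)) (z (φ (ψ j))) = _
        rw [h1, mul_one]
      rw [this]
      have h3 : Tendsto (fun j => (s (φ (ψ j)))⁻¹) atTop (𝓝 0) := hst.inv_tendsto_atTop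
      have h4 := (Complex.continuous_ofReal.tendsto 0).comp h3
      simpa [Function.comp_def] using h4
    exact tendsto_nhds_unique t1 t2
  obtain ⟨p, hp⟩ : ∃ p, V p ≠ 0 := by
    by_contra h
    push Not at h
    exact hV0 (funext h)
  set u := p - z₀ with hu
  set f : ℂ → ℂ := fun t => V (t • u + z₀) with hf
  have hfd : Differentiable ℂ f := by
    have := hW V hVW
    exact this.comp ((differentiable_id.smul_const u).add_const z₀)
  have hf0 : f 0 = 0 := by simp [hf, hVz]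
  have hf1 : f 1 ≠ 0 := by simpa [hf, hu] using hp
  have hfan : AnalyticAt ℂ f 0 := hfd.analyticAt 0
  have hiso : ∀ᶠ t in 𝓝[≠] (0 : ℂ), f t ≠ 0 := by
    rcases hfan.eventually_eq_zero_or_eventually_ne_zero with h | h
    · exfalso
      apply hf1
      have := identity hfd (x₀ := (0 : ℂ)) h
      rw [this]; rfl
    · exact h
  obtain ⟨ρ₀, hρ₀, hne⟩ := Metric.eventually_nhds_iff.1 (eventually_nhdsWithin_iff.1 hiso)
  obtain ⟨ρ, hρ, hρ1, hρ2⟩ : ∃ ρ : ℝ, 0 < ρ ∧ ρ < ρ₀ ∧ ρ * ‖u‖ < r := by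
    refine ⟨min (ρ₀ / 2) (r / (2 * (‖u‖ + 1))), ?_, ?_, ?_⟩
    · have := norm_nonneg u
      positivity
    · exact lt_of_le_of_lt (min_le_left _ _) (by linarith)
    · have hu0 := norm_nonneg u
      calc min (ρ₀ / 2) (r / (2 * (‖u‖ + 1))) * ‖u‖ ≤ r / (2 * (‖u‖ + 1)) * ‖u‖ :=
            mul_le_mul_of_nonneg_right (min_le_right _ _) hu0
        _ < r := by
          rw [div_mul_eq_mul_div, div_lt_iff₀ (by positivity)]
          nlinarith
  -- lower bound on the circle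
  have hsph : ∀ t ∈ sphere (0 : ℂ) ρ, f t ≠ 0 := by
    intro t ht
    have ht' : ‖t‖ = ρ := by simpa using ht
    refine hne (by rw [dist_zero_right, ht']; exact hρ1) ?_
    intro h0
    have : t = 0 := h0
    rw [this, norm_zero] at ht'
    exact hρ.ne ht'
  have hsne : (sphere (0 : ℂ) ρ).Nonempty := NormedSpace.sphere_nonempty.2 hρ.le
  obtain ⟨t₁, ht₁, hmin⟩ := (isCompact_sphere (0 : ℂ) ρ).exists_isMinOn hsne
    hfd.continuous.norm.continuousOn
  set ε := ‖f t₁‖ with hε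
  have hε0 : 0 < ε := norm_pos_iff.2 (hsph t₁ ht₁)
  have hlow : ∀ t ∈ sphere (0 : ℂ) ρ, ε ≤ ‖f t‖ := fun t ht => hmin ht
  have hev := (Metric.tendstoUniformlyOn_iff.1 (hLU2 (ρ * ‖u‖))) (ε / 2) (by positivity)
  have hev2 := hst.eventually_gt_atTop (2 / ε)
  obtain ⟨j, hj1, hj2⟩ := (hev.and hev2).exists
  set k := φ (ψ j) with hk
  -- the maximum principle
  set g : ℂ → ℂ := fun t => (v k (t • u + z k))⁻¹ with hg
  have hin : ∀ t : ℂ, ‖t‖ ≤ ρ → t • u + z k ∈ ball (z k) r := by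
    intro t ht
    rw [mem_ball, dist_eq_norm, add_sub_cancel_right, norm_smul]
    exact lt_of_le_of_lt (mul_le_mul_of_nonneg_right ht (norm_nonneg _)) hρ2
  have hvne : ∀ x ∈ ball (z k) r, v k x ≠ 0 := by
    intro x hx
    have h0 : ((s k : ℂ))⁻¹ ≠ 0 := by
      simp [(hs0 k).ne']
    exact mul_ne_zero h0 (hnz k x hx)
  have hgd : DiffContOnCl ℂ g (ball 0 ρ) := by
    have hd : ∀ t ∈ closedBall (0 : ℂ) ρ, DifferentiableAt ℂ g t := by
      intro t ht
      have ht' : ‖t‖ ≤ ρ := by simpa using ht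
      refine DifferentiableAt.inv ?_ (hvne _ (hin t ht'))
      have h5 : Differentiable ℂ (v k) := hW _ (hvW k)
      have h6 : Differentiable ℂ (fun t : ℂ => t • u + z k) :=
        (differentiable_id.smul_const u).add_const (z k)
      exact (h5.comp h6) t
    refine ⟨fun t ht => (hd t (ball_subset_closedBall ht)).differentiableWithinAt, ?_⟩
    rw [closure_ball _ hρ.ne']
    exact fun t ht => (hd t ht).continuousAt.continuousWithinAt
  have hgb : ∀ t ∈ frontier (ball (0 : ℂ) ρ), ‖g t‖ ≤ 2 / ε := by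
    intro t ht
    rw [frontier_ball _ hρ.ne'] at ht
    have ht' : ‖t‖ = ρ := by simpa using ht
    have h7 := hj1 (t • u) (by
      rw [mem_closedBall_zero_iff, norm_smul, ht'])
    rw [dist_eq_norm] at h7
    have h8 := hlow t ht
    have h9 : ε / 2 ≤ ‖v k (t • u + z k)‖ := by
      have h10 : ‖f t‖ ≤ ‖f t - v k (t • u + z k)‖ + ‖v k (t • u + z k)‖ := by
        have := norm_add_le (f t - v k (t • u + z k)) (v k (t • u + z k))
        simpa using this
      have h11 : ‖f t - v k (t • u + z k)‖ < ε / 2 := h7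
      linarith
    show ‖(v k (t • u + z k))⁻¹‖ ≤ 2 / ε
    rw [norm_inv]
    rw [inv_le_comm₀ (by linarith) (by positivity)]
    rw [inv_div]
    exact h9
  have hfin := Complex.norm_le_of_forall_mem_frontier_norm_le Metric.isBounded_ball hgd hgb
    (subset_closure (mem_ball_self hρ))
  have hg0 : ‖g 0‖ = s k := by
    show ‖(v k ((0 : ℂ) • u + z k))⁻¹‖ = s k
    rw [zero_smul, zero_add]
    show ‖(((s k : ℂ))⁻¹ * w k (z k))⁻¹‖ = s k
    rw [h1, mul_one, inv_inv, Complex.norm_real, Real.norm_eq_abs, abs_of_pos (hs0 k)]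
  rw [hg0] at hfin
  linarith

/-- the bound for the derivative -/
theorem deriv_bound (hW : ∀ w ∈ W, Differentiable ℂ w) (hD : Dual W N y c) {K : Set E}
    (hK : IsCompact K) {r : ℝ} (hr : 0 < r) :
    ∃ C : ℝ, 0 ≤ C ∧ ∀ z ∈ K, ∀ w ∈ W, (∀ x ∈ ball z r, w x ≠ 0) → w z = 1 →
      ‖fderiv ℂ w z‖ ≤ C := by
  obtain ⟨C, hC⟩ := hurwitz hW hD hK hr
  obtain ⟨R, hR⟩ := hK.isBounded.subset_closedBall 0
  obtain ⟨S, hS0, hS⟩ := SS_bound hW hD (R + 1)
  refine ⟨max C 0 * S, by positivity, fun z hz w hw hnz h1 => ?_⟩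
  have hb : ∀ x ∈ ball z 1, ‖w x‖ ≤ max C 0 * S := by
    intro x hx
    have hx' : x ∈ closedBall (0 : E) (R + 1) := by
      have hzR : ‖z‖ ≤ R := by simpa using hR hz
      rw [mem_ball, dist_eq_norm] at hx
      rw [mem_closedBall_zero_iff]
      calc ‖x‖ = ‖z + (x - z)‖ := by congr 1; abel
        _ ≤ ‖z‖ + ‖x - z‖ := norm_add_le _ _
        _ ≤ R + 1 := by linarith
    calc ‖w x‖ ≤ ‖fun i => w (y i)‖ * SS c x := hD.le hw x
      _ ≤ max C 0 * S := mul_le_mul ((hC z hz w hw hnz h1).trans (le_max_left _ _)) (hS x hx')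
        (SS_nonneg c x) (le_max_right _ _)
  have := norm_fderiv_le (f := w) (x := z) one_pos (hW w hw).differentiableOn hb
  simpa using this

/-- logarithmic derivative -/
noncomputable def LD (q : E → ℂ) (x : E) : E →L[ℂ] ℂ := (q x)⁻¹ • fderiv ℂ q x

theorem ld_bound (hW : ∀ w ∈ W, Differentiable ℂ w) (hD : Dual W N y c) (y₀ : E) {r : ℝ}
    (hr : 0 < r) :
    ∃ C : ℝ, 0 ≤ C ∧ ∀ q : E → ℂ, Differentiable ℂ q →
      (∀ x, (fun y => q (x - y) * q (x + y)) ∈ W) →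
      (∀ z ∈ ball y₀ (2 * r), q z ≠ 0 ∧ q (-z) ≠ 0) →
      ∀ a ∈ ball y₀ r, ∀ b ∈ ball y₀ r, ‖LD q b - LD q (-a)‖ ≤ C := by
  have : ProperSpace E := FiniteDimensional.proper ℂ E
  obtain ⟨C, hC0, hC⟩ := deriv_bound hW hD (isCompact_closedBall y₀ r) hr
  refine ⟨C, hC0, fun q hq hS hnz a ha b hb => ?_⟩
  have hr2 : r ≤ 2 * r := by linarith
  have hqb : q b ≠ 0 := (hnz b (ball_subset_ball hr2 hb)).1
  have hqa : q (-a) ≠ 0 := (hnz a (ball_subset_ball hr2 ha)).2
  set x : E := (2 : ℂ)⁻¹ • (b - a) with hx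
  set z : E := (2 : ℂ)⁻¹ • (a + b) with hz
  have h2 : (2 : ℂ)⁻¹ + (2 : ℂ)⁻¹ = 1 := by norm_num
  have hxz : x - z = -a := by
    have : x - z = -((2 : ℂ)⁻¹ • a + (2 : ℂ)⁻¹ • a) := by
      rw [hx, hz, smul_sub, smul_add]; abel
    rw [this, ← add_smul, h2, one_smul]
  have hxz' : x + z = b := by
    have : x + z = (2 : ℂ)⁻¹ • b + (2 : ℂ)⁻¹ • b := by
      rw [hx, hz, smul_sub, smul_add]; abel
    rw [this, ← add_smul, h2, one_smul]
  set κ : ℂ := (q (-a) * q b)⁻¹ with hκ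
  have hκ0 : κ ≠ 0 := inv_ne_zero (mul_ne_zero hqa hqb)
  set w : E → ℂ := fun t => κ * (q (x - t) * q (x + t)) with hw
  have hwW : w ∈ W := W.smul_mem κ (hS x)
  have hwz : w z = 1 := by
    show κ * (q (x - z) * q (x + z)) = 1
    rw [hxz, hxz', hκ]
    exact inv_mul_cancel₀ (mul_ne_zero hqa hqb)
  have hzb : z ∈ closedBall y₀ r := by
    have e : z - y₀ = (2 : ℂ)⁻¹ • ((a - y₀) + (b - y₀)) := by
      have : y₀ = (2 : ℂ)⁻¹ • y₀ + (2 : ℂ)⁻¹ • y₀ := by rw [← add_smul, h2, one_smul]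
      rw [hz]
      nth_rewrite 1 [this]
      rw [smul_add, smul_add, smul_sub, smul_sub]; abel
    rw [mem_ball, dist_eq_norm] at ha hb
    rw [mem_closedBall, dist_eq_norm, e, norm_smul]
    have h3 := norm_add_le (a - y₀) (b - y₀)
    have h4 : ‖(2 : ℂ)⁻¹‖ = 1 / 2 := by simp
    rw [h4]
    linarith
  have hnw : ∀ t ∈ ball z r, w t ≠ 0 := by
    intro t ht
    have ht' : ‖t - z‖ < r := by rwa [mem_ball, dist_eq_norm] at ht
    rw [mem_ball, dist_eq_norm] at ha hb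
    have h5 : q (x + t) ≠ 0 := by
      refine (hnz (x + t) ?_).1
      have : x + t - y₀ = (b - y₀) + (t - z) := by rw [← hxz']; abel
      rw [mem_ball, dist_eq_norm, this]
      linarith [norm_add_le (b - y₀) (t - z)]
    have h6 : q (x - t) ≠ 0 := by
      have : x - t = -(t - x) := by abel
      rw [this]
      refine (hnz (t - x) ?_).2
      have ha' : a = z - x := by
        have := congrArg Neg.neg hxz
        simpa using this.symm
      have : t - x - y₀ = (a - y₀) + (t - z) := by rw [ha']; abel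
      rw [mem_ball, dist_eq_norm, this]
      linarith [norm_add_le (a - y₀) (t - z)]
    exact mul_ne_zero hκ0 (mul_ne_zero h6 h5)
  have hfd : fderiv ℂ w z = LD q b - LD q (-a) := by
    have d1 : HasFDerivAt (fun t => q (x - t)) (-(fderiv ℂ q (-a))) z := by
      have h7 : HasFDerivAt q (fderiv ℂ q (-a)) (x - z) := by
        rw [hxz]; exact (hq (-a)).hasFDerivAt
      have h8 : HasFDerivAt (fun t : E => x - t) (-(ContinuousLinearMap.id ℂ E)) z :=
        (hasFDerivAt_id z).const_sub x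
      have h9 : HasFDerivAt (fun t => q (x - t))
        ((fderiv ℂ q (-a)).comp (-(ContinuousLinearMap.id ℂ E))) z := h7.comp z h8
      refine h9.congr_fderiv ?_
      ext e
      simp
    have d2 : HasFDerivAt (fun t => q (x + t)) (fderiv ℂ q b) z := by
      have h7 : HasFDerivAt q (fderiv ℂ q b) (x + z) := by
        rw [hxz']; exact (hq b).hasFDerivAt
      have h8 : HasFDerivAt (fun t : E => x + t) (ContinuousLinearMap.id ℂ E) z :=
        (hasFDerivAt_id z).const_add x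
      have h9 : HasFDerivAt (fun t => q (x + t))
        ((fderiv ℂ q b).comp (ContinuousLinearMap.id ℂ E)) z := h7.comp z h8
      refine h9.congr_fderiv ?_
      ext e
      simp
    have d3 : HasFDerivAt w
        (κ • (q (x - z) • fderiv ℂ q b + q (x + z) • (-(fderiv ℂ q (-a))))) z :=
      (d1.mul d2).const_mul κ
    rw [d3.fderiv, hxz, hxz']
    unfold LD
    ext e
    simp only [smul_apply, add_apply, neg_apply, sub_apply, smul_eq_mul, hκ]
    field_simp
    ring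
  rw [← hfd]
  exact hC z hzb w hwW hnw hwz

/-- local normalisation -/
theorem local_norm {q : E → ℂ} (hq : Differentiable ℂ q) {y₀ : E} {r C : ℝ} (hr : 0 < r)
    (hC : 0 ≤ C) (hnz : ∀ z ∈ ball y₀ r, q z ≠ 0)
    (hld : ∀ b ∈ ball y₀ r, ‖LD q b - LD q y₀‖ ≤ C) :
    ∃ (κ : ℂ) (l : E →L[ℂ] ℂ), κ ≠ 0 ∧ κ * Complex.exp (l y₀) * q y₀ = 1 ∧
      ∀ b ∈ ball y₀ r, ‖κ * Complex.exp (l b) * q b‖ ≤ Real.exp (C * r) := by
  have hq0 : q y₀ ≠ 0 := hnz y₀ (mem_ball_self hr)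
  set l : E →L[ℂ] ℂ := - LD q y₀ with hl
  set κ : ℂ := (Complex.exp (l y₀) * q y₀)⁻¹ with hκ
  have hκ0 : κ ≠ 0 := inv_ne_zero (mul_ne_zero (Complex.exp_ne_zero _) hq0)
  refine ⟨κ, l, hκ0, ?_, fun b hb => ?_⟩
  · rw [mul_assoc, hκ]
    exact inv_mul_cancel₀ (mul_ne_zero (Complex.exp_ne_zero _) hq0)
  · set Q : E → ℂ := fun x => κ * Complex.exp (l x) * q x with hQ
    have hQd : ∀ x ∈ ball y₀ r, HasFDerivAt Q (Q x • (LD q x - LD q y₀)) x := by
      intro x hx
      have e1 : HasFDerivAt (fun x => Complex.exp (l x)) (Complex.exp (l x) • l) x :=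
        l.hasFDerivAt.cexp
      have e2 := (e1.const_mul κ).mul (hq x).hasFDerivAt
      refine e2.congr_fderiv ?_
      ext e
      have hqx := hnz x hx
      simp only [LD, hl, hQ, smul_apply, add_apply, neg_apply, sub_apply, smul_eq_mul]
      field_simp
      ring
    have hb' : ‖b - y₀‖ < r := by rwa [mem_ball, dist_eq_norm] at hb
    have hseg : ∀ t : ℝ, t ∈ Set.Icc (0 : ℝ) 1 → y₀ + (t : ℂ) • (b - y₀) ∈ ball y₀ r := by
      intro t ht
      rw [mem_ball, dist_eq_norm, add_sub_cancel_left, norm_smul, Complex.norm_real,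
        Real.norm_eq_abs, abs_of_nonneg ht.1]
      calc t * ‖b - y₀‖ ≤ 1 * ‖b - y₀‖ := mul_le_mul_of_nonneg_right ht.2 (norm_nonneg _)
        _ < r := by linarith
    set F : ℝ → ℂ := fun t => Q (y₀ + (t : ℂ) • (b - y₀)) with hF
    have hFd : ∀ t ∈ Set.Icc (0 : ℝ) 1, HasDerivAt F
        ((Q (y₀ + (t : ℂ) • (b - y₀)) •
          (LD q (y₀ + (t : ℂ) • (b - y₀)) - LD q y₀)) (b - y₀)) t := by
      intro t ht
      have h1 := (hQd _ (hseg t ht)).restrictScalars ℝ
      have h2 : HasDerivAt (fun t : ℝ => y₀ + (t : ℂ) • (b - y₀)) (b - y₀) t := by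
        have h3 : HasDerivAt (fun t : ℝ => (t : ℂ)) 1 t := Complex.ofRealCLM.hasDerivAt
        have h4 := (h3.smul_const (b - y₀)).const_add y₀
        simpa using h4
      exact h1.comp_hasDerivAt t h2
    have hFc : ContinuousOn F (Set.Icc 0 1) := fun t ht =>
      (hFd t ht).continuousAt.continuousWithinAt
    have hbound : ∀ t ∈ Set.Ico (0 : ℝ) 1,
        ‖(Q (y₀ + (t : ℂ) • (b - y₀)) • (LD q (y₀ + (t : ℂ) • (b - y₀)) - LD q y₀)) (b - y₀)‖ ≤
          (C * r) * ‖F t‖ + 0 := by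
      intro t ht
      have ht' : t ∈ Set.Icc (0 : ℝ) 1 := ⟨ht.1, ht.2.le⟩
      rw [add_zero, smul_apply, smul_eq_mul, norm_mul]
      have h5 : ‖(LD q (y₀ + (t : ℂ) • (b - y₀)) - LD q y₀) (b - y₀)‖ ≤ C * r := by
        refine (ContinuousLinearMap.le_opNorm _ _).trans ?_
        exact mul_le_mul (hld _ (hseg t ht')) hb'.le (norm_nonneg _) hC
      calc ‖Q (y₀ + (t : ℂ) • (b - y₀))‖ * ‖(LD q (y₀ + (t : ℂ) • (b - y₀)) - LD q y₀) (b - y₀)‖
          ≤ ‖Q (y₀ + (t : ℂ) • (b - y₀))‖ * (C * r) :=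
            mul_le_mul_of_nonneg_left h5 (norm_nonneg _)
        _ = _ := by rw [mul_comm]
    have hF0 : ‖F 0‖ ≤ 1 := by
      have : F 0 = 1 := by
        show Q (y₀ + ((0 : ℝ) : ℂ) • (b - y₀)) = 1
        rw [Complex.ofReal_zero, zero_smul, add_zero]
        show κ * Complex.exp (l y₀) * q y₀ = 1
        rw [mul_assoc, hκ]
        exact inv_mul_cancel₀ (mul_ne_zero (Complex.exp_ne_zero _) hq0)
      rw [this, norm_one]
    have hG := norm_le_gronwallBound_of_norm_deriv_right_le hFc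
      (fun t ht => (hFd t ⟨ht.1, ht.2.le⟩).hasDerivWithinAt) hF0 hbound 1 ⟨zero_le_one, le_rfl⟩
    have hF1 : F 1 = Q b := by
      show Q (y₀ + ((1 : ℝ) : ℂ) • (b - y₀)) = Q b
      rw [Complex.ofReal_one, one_smul]
      congr 1
      abel
    rw [hF1, gronwallBound_ε0, one_mul, sub_zero, mul_one] at hG
    exact hG

/-- doubling step -/
theorem double_step {ε : ℝ} (hW : ∀ w ∈ W, Differentiable ℂ w) (hD : Dual W N y c)
    (hy : ∀ i, ‖y i‖ ≤ ε) (y₀ : E) {q : ℕ → E → ℂ}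
    (hS : ∀ k x, (fun y => q k (x - y) * q k (x + y)) ∈ W) (h1 : ∀ k, q k y₀ = 1) {ρ : ℝ}
    (hb : ∃ M : ℝ, ∀ k z, ‖z‖ ≤ ρ → ‖q k (y₀ + z)‖ ≤ M) :
    ∃ M : ℝ, ∀ k z, ‖z‖ ≤ 2 * (ρ - ε) → ‖q k (y₀ + z)‖ ≤ M := by
  obtain ⟨M, hM⟩ := hb
  obtain ⟨S, hS0, hSb⟩ := SS_bound hW hD (ρ - ε)
  refine ⟨(max M 0) ^ 2 * S, fun k z hz => ?_⟩
  set h : E := (2 : ℂ)⁻¹ • z with hh
  have h2 : (2 : ℂ)⁻¹ + (2 : ℂ)⁻¹ = 1 := by norm_num
  have hhz : h + h = z := by rw [hh, ← add_smul, h2, one_smul]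
  have hhn : ‖h‖ ≤ ρ - ε := by
    rw [hh, norm_smul]
    have : ‖(2 : ℂ)⁻¹‖ = 1 / 2 := by simp
    rw [this]; linarith
  have e := hD.eq _ (hS k (y₀ + h)) h
  have e1 : q k (y₀ + h - h) * q k (y₀ + h + h) = q k (y₀ + z) := by
    rw [add_sub_cancel_right, h1, one_mul, add_assoc, hhz]
  have e2 : q k (y₀ + z) = ∑ i, (q k (y₀ + h - y i) * q k (y₀ + h + y i)) * c i h := by
    rw [← e1]; exact e
  rw [e2]
  refine (sum_le (fun i => q k (y₀ + h - y i) * q k (y₀ + h + y i)) c h).trans ?_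
  refine mul_le_mul ?_ (hSb h (by simpa using hhn)) (SS_nonneg c h) (by positivity)
  rw [pi_norm_le_iff_of_nonneg (by positivity)]
  intro i
  rw [norm_mul, pow_two]
  have a1 : ‖q k (y₀ + h - y i)‖ ≤ max M 0 := by
    have : y₀ + h - y i = y₀ + (h - y i) := by abel
    rw [this]
    refine (hM k _ ?_).trans (le_max_left _ _)
    linarith [norm_sub_le h (y i), hy i]
  have a2 : ‖q k (y₀ + h + y i)‖ ≤ max M 0 := by
    rw [add_assoc]
    refine (hM k _ ?_).trans (le_max_left _ _)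
    linarith [norm_add_le h (y i), hy i]
  exact mul_le_mul a1 a2 (norm_nonneg _) (le_max_right _ _)

theorem all_bound {ε : ℝ} (hε : 0 < ε) (hW : ∀ w ∈ W, Differentiable ℂ w) (hD : Dual W N y c)
    (hy : ∀ i, ‖y i‖ ≤ ε) (y₀ : E) {q : ℕ → E → ℂ}
    (hS : ∀ k x, (fun y => q k (x - y) * q k (x + y)) ∈ W) (h1 : ∀ k, q k y₀ = 1)
    (hb : ∃ M : ℝ, ∀ k z, ‖z‖ ≤ 3 * ε → ‖q k (y₀ + z)‖ ≤ M) (R : ℝ) :
    ∃ M : ℝ, ∀ k, ∀ x ∈ closedBall (0 : E) R, ‖q k x‖ ≤ M := by
  have key : ∀ n : ℕ, ∃ M : ℝ, ∀ k z, ‖z‖ ≤ 2 * ε + 2 ^ n * ε → ‖q k (y₀ + z)‖ ≤ M := by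
    intro n
    induction n with
    | zero =>
      obtain ⟨M, hM⟩ := hb
      exact ⟨M, fun k z hz => hM k z (by
        rw [pow_zero] at hz
        linarith)⟩
    | succ n ih =>
      obtain ⟨M, hM⟩ := double_step hW hD hy y₀ hS h1 ih
      refine ⟨M, fun k z hz => hM k z ?_⟩
      rw [pow_succ] at hz
      linarith
  obtain ⟨n, hn⟩ := pow_unbounded_of_one_lt ((R + ‖y₀‖) / ε) (one_lt_two)
  obtain ⟨M, hM⟩ := key n
  refine ⟨M, fun k x hx => ?_⟩
  have hx' : ‖x‖ ≤ R := by simpa using hx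
  have e : x = y₀ + (x - y₀) := by abel
  rw [e]
  refine hM k _ ?_
  have h3 : (R + ‖y₀‖) < 2 ^ n * ε := by
    rwa [div_lt_iff₀ hε] at hn
  linarith [norm_sub_le x y₀]

end NFaux

open NFaux

/-- **normal families**: entire functions `q k ≠ 0` such that all functions
`y ↦ q k (x - y) * q k (x + y)` are in one finite-dimensional space `W` have, after multiplication
by scalars and exponentials of linear forms, a subsequence converging to a nonzero function. -/
theorem NF (W : Submodule ℂ (E → ℂ)) [FiniteDimensional ℂ W] (hW : ∀ w ∈ W, Differentiable ℂ w)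
    (q : ℕ → E → ℂ) (hq : ∀ k, Differentiable ℂ (q k)) (hne : ∀ k, q k ≠ 0)
    (hS : ∀ k x, (fun y => q k (x - y) * q k (x + y)) ∈ W) :
    ∃ (φ : ℕ → ℕ) (c : ℕ → ℂ) (l : ℕ → E →L[ℂ] ℂ) (Q : E → ℂ), StrictMono φ ∧ (∀ j, c j ≠ 0) ∧
      Differentiable ℂ Q ∧ Q ≠ 0 ∧
      LU (fun j x => c j * Complex.exp (l j x) * q (φ j) x) Q := by
  obtain ⟨N, y, c, -, hD⟩ := exists_dual W hW isOpen_univ Set.univ_nonempty
  -- the functions `w k`
  set w : ℕ → E → ℂ := fun k t => q k (0 - t) * q k (0 + t) with hw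
  have hwW : ∀ k, w k ∈ W := fun k => hS k 0
  have hw0 : ∀ k, w k ≠ 0 := by
    intro k h0
    have hd : Differentiable ℂ (fun t => q k (0 - t)) :=
      (hq k).comp (differentiable_id.const_sub 0)
    have hd2 : Differentiable ℂ (fun t => q k (0 + t)) :=
      (hq k).comp (differentiable_id.const_add 0)
    rcases mul_eq_zero_entire hd hd2 (fun x => congrFun h0 x) with h | h
    · apply hne k
      funext x
      have := congrFun h (-x)
      simpa using this
    · apply hne k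
      funext x
      have := congrFun h x
      simpa using this
  set s : ℕ → ℝ := fun k => ‖fun i => w k (y i)‖ with hs
  have hs0 : ∀ k, 0 < s k := by
    intro k
    rw [hs]
    rw [norm_pos_iff]
    intro h0
    apply hw0 k
    funext x
    rw [hD.eq _ (hwW k) x]
    simp only [Pi.zero_apply]
    refine Finset.sum_eq_zero (fun i _ => ?_)
    have : w k (y i) = 0 := congrFun h0 i
    rw [this, zero_mul]
  have hv1 : ∀ k, ‖fun i => ((s k : ℂ))⁻¹ * w k (y i)‖ = 1 := by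
    intro k
    have : (fun i => ((s k : ℂ))⁻¹ * w k (y i)) = ((s k : ℂ))⁻¹ • (fun i => w k (y i)) := rfl
    rw [this, norm_smul, norm_inv, Complex.norm_real, Real.norm_eq_abs, abs_of_pos (hs0 k)]
    exact inv_mul_cancel₀ (hs0 k).ne'
  obtain ⟨φ, V, hφ, hVW, hV0, hLU⟩ := hD.compact hW
    (w := fun k t => ((s k : ℂ))⁻¹ * w k t) (fun k => W.smul_mem ((s k : ℂ))⁻¹ (hwW k)) hv1
  obtain ⟨y₀, hy₀⟩ : ∃ p, V p ≠ 0 := by
    by_contra h
    push Not at h
    exact hV0 (funext h)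
  have hVc : Continuous V := (hW V hVW).continuous
  -- a ball where `|V|` is bounded below
  have hδ0 : 0 < ‖V y₀‖ := norm_pos_iff.2 hy₀
  obtain ⟨R₀, hR₀, hball⟩ := Metric.eventually_nhds_iff_ball.1
    ((hVc.norm.tendsto y₀).eventually_const_lt (show ‖V y₀‖ / 2 < ‖V y₀‖ by linarith))
  set r := R₀ / 2 with hr
  have hr0 : 0 < r := by positivity
  have hev := (Metric.tendstoUniformlyOn_iff.1 (hLU (‖y₀‖ + R₀))) (‖V y₀‖ / 4) (by positivity)
  obtain ⟨j₀, hj₀⟩ := eventually_atTop.1 hev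
  have hnz : ∀ j, j₀ ≤ j → ∀ z ∈ ball y₀ (2 * r), q (φ j) z ≠ 0 ∧ q (φ j) (-z) ≠ 0 := by
    intro j hj z hz
    have hz' : z ∈ ball y₀ R₀ := by
      have : 2 * r = R₀ := by rw [hr]; ring
      rwa [this] at hz
    have h3 := hball z hz'
    have hzn : z ∈ closedBall (0 : E) (‖y₀‖ + R₀) := by
      rw [mem_ball, dist_eq_norm] at hz'
      rw [mem_closedBall_zero_iff]
      calc ‖z‖ = ‖y₀ + (z - y₀)‖ := by congr 1; abel
        _ ≤ ‖y₀‖ + ‖z - y₀‖ := norm_add_le _ _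
        _ ≤ _ := by linarith
    have h4 := hj₀ j hj z hzn
    rw [dist_eq_norm] at h4
    have h5 : ((s (φ j) : ℂ))⁻¹ * w (φ j) z ≠ 0 := by
      intro h0
      rw [h0, sub_zero] at h4
      linarith
    have h6 : w (φ j) z ≠ 0 := right_ne_zero_of_mul h5
    have h7 : q (φ j) (0 - z) * q (φ j) (0 + z) ≠ 0 := h6
    rw [zero_sub, zero_add] at h7
    exact ⟨right_ne_zero_of_mul h7, left_ne_zero_of_mul h7⟩
  -- logarithmic derivatives
  obtain ⟨C, hC0, hC⟩ := ld_bound hW hD y₀ hr0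
  have hld : ∀ j, j₀ ≤ j → ∀ b ∈ ball y₀ r, ‖LD (q (φ j)) b - LD (q (φ j)) y₀‖ ≤ 2 * C := by
    intro j hj b hb
    have h8 := hC (q (φ j)) (hq _) (hS _) (hnz j hj) y₀ (mem_ball_self hr0) b hb
    have h9 := hC (q (φ j)) (hq _) (hS _) (hnz j hj) y₀ (mem_ball_self hr0) y₀ (mem_ball_self hr0)
    have e : LD (q (φ j)) b - LD (q (φ j)) y₀ = (LD (q (φ j)) b - LD (q (φ j)) (-y₀)) -
      (LD (q (φ j)) y₀ - LD (q (φ j)) (-y₀)) := by abel
    rw [e]
    linarith [norm_sub_le (LD (q (φ j)) b - LD (q (φ j)) (-y₀))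
      (LD (q (φ j)) y₀ - LD (q (φ j)) (-y₀))]
  have hloc : ∀ j : ℕ, ∃ (κ : ℂ) (l : E →L[ℂ] ℂ), κ ≠ 0 ∧
      κ * Complex.exp (l y₀) * q (φ (j₀ + j)) y₀ = 1 ∧
      ∀ b ∈ ball y₀ r, ‖κ * Complex.exp (l b) * q (φ (j₀ + j)) b‖ ≤ Real.exp (2 * C * r) := by
    intro j
    refine local_norm (hq _) hr0 (by positivity) (fun z hz => ?_) (hld _ (Nat.le_add_right _ _))
    exact (hnz _ (Nat.le_add_right _ _) z (ball_subset_ball (by linarith) hz)).1
  choose κ l hκ hnorm hbd using hloc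
  set q' : ℕ → E → ℂ := fun j x => κ j * Complex.exp (l j x) * q (φ (j₀ + j)) x with hq'
  have hq'd : ∀ j, Differentiable ℂ (q' j) := by
    intro j
    have h10 : Differentiable ℂ (fun x => Complex.exp (l j x)) := (l j).differentiable.cexp
    exact (h10.const_mul (κ j)).mul (hq _)
  have hq'S : ∀ j x, (fun y => q' j (x - y) * q' j (x + y)) ∈ W := by
    intro j x
    have : (fun y => q' j (x - y) * q' j (x + y)) =
        (κ j ^ 2 * Complex.exp (2 * l j x)) •
          (fun y => q (φ (j₀ + j)) (x - y) * q (φ (j₀ + j)) (x + y)) := by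
      funext y
      show (κ j * Complex.exp (l j (x - y)) * q (φ (j₀ + j)) (x - y)) *
        (κ j * Complex.exp (l j (x + y)) * q (φ (j₀ + j)) (x + y)) =
        (κ j ^ 2 * Complex.exp (2 * l j x)) *
          (q (φ (j₀ + j)) (x - y) * q (φ (j₀ + j)) (x + y))
      have h11 : Complex.exp (2 * l j x) = Complex.exp (l j (x - y)) * Complex.exp (l j (x + y)) := by
        rw [← Complex.exp_add]
        congr 1
        rw [map_sub, map_add]; ring
      rw [h11]; ring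
    rw [this]
    exact W.smul_mem _ (hS _ x)
  -- bounds on all balls
  set ε := r / 4 with hε
  have hε0 : 0 < ε := by positivity
  obtain ⟨N', y', c', hy', hD'⟩ := exists_dual W hW (isOpen_ball (x := (0 : E)) (ε := ε))
    ⟨0, mem_ball_self hε0⟩
  have hall := all_bound hε0 hW hD' (fun i => by
    have := hy' i
    rw [mem_ball_zero_iff] at this
    exact this.le) y₀ hq'S hnorm ⟨Real.exp (2 * C * r), fun k z hz => by
      refine hbd k (y₀ + z) ?_
      rw [mem_ball, dist_eq_norm, add_sub_cancel_left]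
      have : 3 * ε < r := by rw [hε]; linarith
      linarith⟩
  obtain ⟨ψ, Q, hψ, hQ, hQLU⟩ := montel hq'd hall
  refine ⟨fun j => φ (j₀ + ψ j), fun j => κ (ψ j), fun j => l (ψ j), Q, ?_, fun j => hκ _, hQ,
    ?_, hQLU⟩
  · intro a b hab
    exact hφ (Nat.add_lt_add_left (hψ hab) j₀)
  · intro hQ0
    have t1 := hQLU.tendsto y₀
    have t2 : (fun j => q' (ψ j) y₀) = fun _ => (1 : ℂ) := by
      funext j; exact hnorm _
    rw [t2] at t1
    have := tendsto_nhds_unique t1 tendsto_const_nhds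
    rw [hQ0] at this
    exact zero_ne_one this

end Pool.Agent.Lib.MP_db21fa_an.TF
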