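import Pool.Agent.Lib.MP_db21fa_an.TF.Defs

/-!
Module G: quadratic ordinary differential equations in Banach spaces, an implicit Euler scheme,
and a scalar second order recursion.
-/

set_option autoImplicit false

open Filter Topology Metric

namespace Pool.Agent.Lib.MP_db21fa_an.TF

variable {X : Type*} [NormedAddCommGroup X] [NormedSpace ℂ X] [CompleteSpace X]


namespace OdeAux

/-- Cauchy product for a continuous bilinear map. -/
theorem bilin_tsum (𝔅 : X →L[ℂ] X →L[ℂ] X) {u : ℕ → X} (hu : Summable fun n => ‖u n‖) :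
    𝔅 (∑' n, u n) (∑' n, u n) =
      ∑' n, ∑ i ∈ Finset.range (n + 1), 𝔅 (u i) (u (n - i)) := by
  have hus : Summable u := hu.of_norm
  have hprod : Summable (fun x : ℕ × ℕ => 𝔅 (u x.1) (u x.2)) := by
    have h1 : Summable (fun x : ℕ × ℕ => ‖u x.1‖ * ‖u x.2‖) :=
      hu.mul_of_nonneg hu (fun _ => norm_nonneg _) (fun _ => norm_nonneg _)
    refine Summable.of_norm_bounded (h1.mul_left ‖𝔅‖) ?_
    intro x
    have := 𝔅.le_opNorm₂ (u x.1) (u x.2)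
    linarith [mul_assoc ‖𝔅‖ ‖u x.1‖ ‖u x.2‖]
  have h2 : 𝔅 (∑' n, u n) (∑' n, u n) = ∑' p : ℕ × ℕ, 𝔅 (u p.1) (u p.2) := by
    rw [hprod.tsum_prod' (fun b => by
      have : Summable (fun c => (𝔅 (u b)) (u c)) := hus.mapL (𝔅 (u b))
      exact this)]
    rw [ContinuousLinearMap.map_tsum 𝔅 hus]
    have h3 : Summable (fun n => 𝔅 (u n)) := hus.mapL 𝔅
    have h4 : (∑' n, 𝔅 (u n)) (∑' n, u n) = ∑' n, (𝔅 (u n)) (∑' n, u n) := by
      have := ContinuousLinearMap.map_tsum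
        (ContinuousLinearMap.apply ℂ X (∑' n, u n)) h3
      exact this
    rw [h4]
    refine tsum_congr (fun n => ?_)
    exact ContinuousLinearMap.map_tsum (𝔅 (u n)) hus
  rw [h2, ← Finset.HasAntidiagonal.sigmaAntidiagonalEquivProd.tsum_eq
    (fun p : ℕ × ℕ => 𝔅 (u p.1) (u p.2))]
  have h5 : Summable (fun x : (Σ n : ℕ, Finset.HasAntidiagonal.antidiagonal n) =>
      𝔅 (u (x.2 : ℕ × ℕ).1) (u (x.2 : ℕ × ℕ).2)) :=
    Finset.HasAntidiagonal.sigmaAntidiagonalEquivProd.summable_iff.mpr hprod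
  have h6 := h5.tsum_sigma' (fun n => (hasSum_fintype _).summable)
  refine h6.trans (tsum_congr fun n => ?_)
  rw [tsum_fintype]
  refine (Finset.sum_finset_coe
    (fun p : ℕ × ℕ => 𝔅 (u p.1) (u p.2)) (Finset.HasAntidiagonal.antidiagonal n)).trans ?_
  exact Finset.Nat.sum_antidiagonal_eq_sum_range_succ (fun i j => 𝔅 (u i) (u j)) n

/-- The coefficients. -/
noncomputable def co (𝔅 : X →L[ℂ] X →L[ℂ] X) (p : X) : ℕ → X
  | 0 => p
  | (n + 1) => ((n : ℂ) + 1)⁻¹ • ∑ i : Fin (n + 1), 𝔅 (co 𝔅 p i) (co 𝔅 p (n - i))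
termination_by n => n
decreasing_by
  · exact i.isLt
  · have := i.isLt
    omega

omit [CompleteSpace X] in
theorem co_zero (𝔅 : X →L[ℂ] X →L[ℂ] X) (p : X) : co 𝔅 p 0 = p := by
  rw [co]

omit [CompleteSpace X] in
theorem co_succ (𝔅 : X →L[ℂ] X →L[ℂ] X) (p : X) (n : ℕ) :
    co 𝔅 p (n + 1) = ((n : ℂ) + 1)⁻¹ •
      ∑ i ∈ Finset.range (n + 1), 𝔅 (co 𝔅 p i) (co 𝔅 p (n - i)) := by
  rw [co, Finset.sum_range]

omit [CompleteSpace X] in
theorem norm_co (𝔅 : X →L[ℂ] X →L[ℂ] X) (p : X) :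
    ∀ n, ‖co 𝔅 p n‖ ≤ ‖𝔅‖ ^ n * ‖p‖ ^ (n + 1) := by
  intro n
  induction n using Nat.strong_induction_on with
  | _ n ih =>
    rcases n with _ | n
    · rw [co_zero]
      simp
    · rw [co_succ, norm_smul, norm_inv]
      have hn : ‖(n : ℂ) + 1‖ = (n : ℝ) + 1 := by
        have : ((n : ℂ) + 1) = ((n + 1 : ℕ) : ℂ) := by push_cast; ring
        rw [this, Complex.norm_natCast]
        push_cast
        ring
      rw [hn]
      have h1 : ‖∑ i ∈ Finset.range (n + 1), 𝔅 (co 𝔅 p i) (co 𝔅 p (n - i))‖ ≤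
          ∑ i ∈ Finset.range (n + 1), ‖𝔅‖ ^ (n + 1) * ‖p‖ ^ (n + 1 + 1) := by
        refine (norm_sum_le _ _).trans (Finset.sum_le_sum fun i hi => ?_)
        have hi' : i < n + 1 := Finset.mem_range.mp hi
        refine (𝔅.le_opNorm₂ _ _).trans ?_
        have e1 := ih i hi'
        have e2 := ih (n - i) (by omega)
        have : ‖𝔅‖ * ‖co 𝔅 p i‖ * ‖co 𝔅 p (n - i)‖ ≤
            ‖𝔅‖ * (‖𝔅‖ ^ i * ‖p‖ ^ (i + 1)) * (‖𝔅‖ ^ (n - i) * ‖p‖ ^ (n - i + 1)) := by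
          gcongr
        refine this.trans (le_of_eq ?_)
        have hsplit : n + 1 = 1 + i + (n - i) := by omega
        have hsplit2 : n + 1 + 1 = (i + 1) + (n - i + 1) := by omega
        rw [hsplit2, pow_add ‖p‖ (i + 1) (n - i + 1), hsplit, pow_add, pow_add, pow_one]
        ring
      rw [Finset.sum_const, Finset.card_range, nsmul_eq_mul] at h1
      have hpos : (0 : ℝ) < (n : ℝ) + 1 := by positivity
      calc ((n : ℝ) + 1)⁻¹ * ‖∑ i ∈ Finset.range (n + 1), 𝔅 (co 𝔅 p i) (co 𝔅 p (n - i))‖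
          ≤ ((n : ℝ) + 1)⁻¹ * (((n + 1 : ℕ) : ℝ) * (‖𝔅‖ ^ (n + 1) * ‖p‖ ^ (n + 1 + 1))) := by
            gcongr
        _ = ‖𝔅‖ ^ (n + 1) * ‖p‖ ^ (n + 1 + 1) := by
            push_cast
            field_simp

end OdeAux

open OdeAux

/-- power series solution of `z' = 𝔅 z z`, `z 0 = p` -/
theorem qode (𝔅 : X →L[ℂ] X →L[ℂ] X) (p : X) :
    ∃ (T M : ℝ) (a : ℕ → X), 0 < T ∧ a 0 = p ∧
      (∀ n : ℕ, ((n : ℂ) + 1) • a (n + 1) = ∑ i ∈ Finset.range (n + 1), 𝔅 (a i) (a (n - i))) ∧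
      (∀ n : ℕ, ‖a n‖ ≤ M * (T⁻¹) ^ n) ∧
      ∀ t : ℂ, ‖t‖ < T → Summable (fun n => t ^ n • a n) ∧
        HasDerivAt (fun t : ℂ => ∑' n, t ^ n • a n)
          (𝔅 (∑' n, t ^ n • a n) (∑' n, t ^ n • a n)) t := by
  set K : ℝ := ‖𝔅‖ * ‖p‖ + 1 with hK
  have hKpos : 0 < K := by positivity
  have hrec : ∀ n : ℕ, ((n : ℂ) + 1) • co 𝔅 p (n + 1) =
      ∑ i ∈ Finset.range (n + 1), 𝔅 (co 𝔅 p i) (co 𝔅 p (n - i)) := by
    intro n
    rw [co_succ, smul_smul, mul_inv_cancel₀ (Nat.cast_add_one_ne_zero n), one_smul]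
  have hbd : ∀ n : ℕ, ‖co 𝔅 p n‖ ≤ ‖p‖ * K ^ n := by
    intro n
    refine (norm_co 𝔅 p n).trans ?_
    have : ‖𝔅‖ ^ n * ‖p‖ ^ (n + 1) = ‖p‖ * (‖𝔅‖ * ‖p‖) ^ n := by
      rw [mul_pow, pow_succ]
      ring
    rw [this]
    gcongr
    linarith
  refine ⟨K⁻¹, ‖p‖, co 𝔅 p, inv_pos.mpr hKpos, co_zero 𝔅 p, hrec, ?_, ?_⟩
  · intro n
    rw [inv_inv]
    exact hbd n
  · intro t ht
    have htK : ‖t‖ * K < 1 := by
      have := mul_lt_mul_of_pos_right ht hKpos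
      rwa [inv_mul_cancel₀ hKpos.ne'] at this
    have hnorm : ∀ s : ℂ, ‖s‖ * K < 1 → Summable fun n => ‖s ^ n • co 𝔅 p n‖ := by
      intro s hs
      have hg : Summable fun n : ℕ => ‖p‖ * (‖s‖ * K) ^ n :=
        (summable_geometric_of_lt_one (by positivity) hs).mul_left _
      refine Summable.of_nonneg_of_le (fun _ => norm_nonneg _) (fun n => ?_) hg
      rw [norm_smul, norm_pow]
      calc ‖s‖ ^ n * ‖co 𝔅 p n‖ ≤ ‖s‖ ^ n * (‖p‖ * K ^ n) := by
            gcongr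
            exact hbd n
        _ = ‖p‖ * (‖s‖ * K) ^ n := by
            rw [mul_pow]
            ring
    refine ⟨(hnorm t htK).of_norm, ?_⟩
    -- choose a radius
    obtain ⟨r, hr1, hr2⟩ : ∃ r : ℝ, ‖t‖ < r ∧ r < K⁻¹ := exists_between ht
    have hr0 : 0 < r := lt_of_le_of_lt (norm_nonneg t) hr1
    have hrK : r * K < 1 := by
      have := mul_lt_mul_of_pos_right hr2 hKpos
      rwa [inv_mul_cancel₀ hKpos.ne'] at this
    have hu : Summable fun n : ℕ => ((n : ℝ) * (r * K) ^ n) * (‖p‖ * r⁻¹) := by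
      have h1 := summable_pow_mul_geometric_of_norm_lt_one 1 (r := r * K) (by
        rw [Real.norm_eq_abs, abs_of_pos (by positivity)]
        exact hrK)
      simp only [pow_one] at h1
      exact h1.mul_right _
    have hder := hasDerivAt_tsum_of_isPreconnected (𝕜 := ℂ) (F := X)
      (g := fun (n : ℕ) (s : ℂ) => s ^ n • co 𝔅 p n)
      (g' := fun (n : ℕ) (s : ℂ) => ((n : ℂ) * s ^ (n - 1)) • co 𝔅 p n)
      (t := ball (0 : ℂ) r) (y₀ := 0) (y := t) hu isOpen_ball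
      (convex_ball (0 : ℂ) r).isPreconnected
      (fun n s _ => (hasDerivAt_pow n s).smul_const _)
      (fun n s hs => by
        have hs' : ‖s‖ ≤ r := (mem_ball_zero_iff.mp hs).le
        rw [norm_smul, norm_mul, Complex.norm_natCast, norm_pow]
        rcases n with _ | n
        · simp
        · have e1 : ‖s‖ ^ (n + 1 - 1) ≤ r ^ n := by
            rw [Nat.add_sub_cancel]
            gcongr
          calc ((n + 1 : ℕ) : ℝ) * ‖s‖ ^ (n + 1 - 1) * ‖co 𝔅 p (n + 1)‖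
              ≤ ((n + 1 : ℕ) : ℝ) * r ^ n * (‖p‖ * K ^ (n + 1)) := by
                gcongr
                exact hbd (n + 1)
            _ = ((n + 1 : ℕ) : ℝ) * (r * K) ^ (n + 1) * (‖p‖ * r⁻¹) := by
                rw [mul_pow, pow_succ r n]
                field_simp)
      (mem_ball_self hr0)
      (by
        have h0 : ‖(0 : ℂ)‖ * K < 1 := by simp
        exact (hnorm 0 h0).of_norm)
      (mem_ball_zero_iff.mpr hr1)
    refine hder.congr_deriv ?_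
    rw [bilin_tsum 𝔅 (hnorm t htK)]
    have hsum' : Summable fun n : ℕ => ((n : ℂ) * t ^ (n - 1)) • co 𝔅 p n := by
      refine Summable.of_norm_bounded hu ?_
      intro n
      rw [norm_smul, norm_mul, Complex.norm_natCast, norm_pow]
      rcases n with _ | n
      · simp
      · have e1 : ‖t‖ ^ (n + 1 - 1) ≤ r ^ n := by
          rw [Nat.add_sub_cancel]
          gcongr
        calc ((n + 1 : ℕ) : ℝ) * ‖t‖ ^ (n + 1 - 1) * ‖co 𝔅 p (n + 1)‖
            ≤ ((n + 1 : ℕ) : ℝ) * r ^ n * (‖p‖ * K ^ (n + 1)) := by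
              gcongr
              exact hbd (n + 1)
          _ = ((n + 1 : ℕ) : ℝ) * (r * K) ^ (n + 1) * (‖p‖ * r⁻¹) := by
              rw [mul_pow, pow_succ r n]
              field_simp
    rw [hsum'.tsum_eq_zero_add]
    simp only [Nat.cast_zero, zero_mul, zero_smul, zero_add, Nat.add_sub_cancel]
    refine tsum_congr (fun n => ?_)
    have e2 : (((n + 1 : ℕ) : ℂ) * t ^ n) • co 𝔅 p (n + 1) =
        t ^ n • (((n : ℂ) + 1) • co 𝔅 p (n + 1)) := by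
      rw [smul_smul]
      push_cast
      ring_nf
    rw [e2, hrec, Finset.smul_sum]
    refine Finset.sum_congr rfl (fun i hi => ?_)
    have hi' : i ≤ n := Nat.lt_succ_iff.mp (Finset.mem_range.mp hi)
    have e3 : 𝔅 (t ^ i • co 𝔅 p i) (t ^ (n - i) • co 𝔅 p (n - i)) =
        (t ^ i * t ^ (n - i)) • 𝔅 (co 𝔅 p i) (co 𝔅 p (n - i)) := by
      rw [map_smul, map_smul, smul_apply, smul_smul, mul_comm]
    rw [e3, ← pow_add, Nat.add_sub_cancel' hi']



namespace OdeAux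

omit [CompleteSpace X] in
theorem lip (𝔅 : X →L[ℂ] X →L[ℂ] X) (z : ℝ → X) {T M : ℝ}
    (hz : ∀ t ∈ Set.Icc 0 T, HasDerivAt z (𝔅 (z t) (z t)) t)
    (hM : ∀ t ∈ Set.Icc 0 T, ‖z t‖ ≤ M) (hM0 : 0 ≤ M) {a b : ℝ}
    (ha : a ∈ Set.Icc 0 T) (hb : b ∈ Set.Icc 0 T) :
    ‖z b - z a‖ ≤ (‖𝔅‖ + 1) * M * M * |b - a| := by
  have h := Convex.norm_image_sub_le_of_norm_hasDerivWithin_le (𝕜 := ℝ) (f := z)
    (f' := fun t => 𝔅 (z t) (z t)) (s := Set.Icc 0 T) (x := a) (y := b)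
    (C := (‖𝔅‖ + 1) * M * M) (fun t ht => (hz t ht).hasDerivWithinAt)
    (fun t ht => by
      refine (𝔅.le_opNorm₂ _ _).trans ?_
      have := hM t ht
      gcongr
      linarith) (convex_Icc 0 T) ha hb
  rwa [Real.norm_eq_abs] at h

omit [CompleteSpace X] in
theorem resid (𝔅 : X →L[ℂ] X →L[ℂ] X) (z : ℝ → X) {T M : ℝ}
    (hz : ∀ t ∈ Set.Icc 0 T, HasDerivAt z (𝔅 (z t) (z t)) t)
    (hM : ∀ t ∈ Set.Icc 0 T, ‖z t‖ ≤ M) (hM0 : 0 ≤ M) {a b : ℝ}
    (ha : a ∈ Set.Icc 0 T) (hb : b ∈ Set.Icc 0 T) (hab : a ≤ b) :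
    ‖z b - z a - (((b - a : ℝ)) : ℂ) • 𝔅 (z a) (z b)‖ ≤
      (b - a) * (2 * (‖𝔅‖ + 1) * M * ((‖𝔅‖ + 1) * M * M * (b - a))) := by
  set v : X := 𝔅 (z a) (z b) with hv
  have hsub : Set.Icc a b ⊆ Set.Icc 0 T := Set.Icc_subset_Icc ha.1 hb.2
  have hder : ∀ t ∈ Set.Icc a b,
      HasDerivWithinAt (fun t => z t - (t - a) • v) (𝔅 (z t) (z t) - v) (Set.Icc a b) t := by
    intro t ht
    have h1 := hz t (hsub ht)
    have h2 : HasDerivAt (fun t : ℝ => (t - a) • v) ((1 : ℝ) • v) t :=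
      ((hasDerivAt_id t).sub_const a).smul_const v
    rw [one_smul] at h2
    exact (h1.sub h2).hasDerivWithinAt
  have hbd : ∀ t ∈ Set.Icc a b, ‖𝔅 (z t) (z t) - v‖ ≤
      2 * (‖𝔅‖ + 1) * M * ((‖𝔅‖ + 1) * M * M * (b - a)) := by
    intro t ht
    have e1 : 𝔅 (z t) (z t) - v = 𝔅 (z t - z a) (z t) + 𝔅 (z a) (z t - z b) := by
      rw [hv, map_sub, map_sub]
      simp only [sub_apply]
      abel
    have e2 := lip 𝔅 z hz hM hM0 ha (hsub ht)
    have e3 := lip 𝔅 z hz hM hM0 hb (hsub ht)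
    have e4 : |t - a| ≤ b - a := by
      rw [abs_of_nonneg (by linarith [ht.1])]
      linarith [ht.2]
    have e5 : |t - b| ≤ b - a := by
      rw [abs_sub_comm, abs_of_nonneg (by linarith [ht.2])]
      linarith [ht.1]
    have hK : 0 ≤ (‖𝔅‖ + 1) * M * M := by positivity
    have e2' : ‖z t - z a‖ ≤ (‖𝔅‖ + 1) * M * M * (b - a) :=
      e2.trans (mul_le_mul_of_nonneg_left e4 hK)
    have e3' : ‖z t - z b‖ ≤ (‖𝔅‖ + 1) * M * M * (b - a) :=
      e3.trans (mul_le_mul_of_nonneg_left e5 hK)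
    rw [e1]
    refine (norm_add_le _ _).trans ?_
    have f1 := 𝔅.le_opNorm₂ (z t - z a) (z t)
    have f2 := 𝔅.le_opNorm₂ (z a) (z t - z b)
    have g1 : ‖𝔅‖ * ‖z t - z a‖ * ‖z t‖ ≤
        (‖𝔅‖ + 1) * ((‖𝔅‖ + 1) * M * M * (b - a)) * M := by
      have := hM t (hsub ht)
      gcongr
      linarith
    have g2 : ‖𝔅‖ * ‖z a‖ * ‖z t - z b‖ ≤
        (‖𝔅‖ + 1) * M * ((‖𝔅‖ + 1) * M * M * (b - a)) := by
      have := hM a ha
      gcongr
      linarith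
    nlinarith [f1, f2, g1, g2]
  have h := Convex.norm_image_sub_le_of_norm_hasDerivWithin_le (𝕜 := ℝ)
    (f := fun t => z t - (t - a) • v) (f' := fun t => 𝔅 (z t) (z t) - v)
    (s := Set.Icc a b) (x := a) (y := b) hder hbd (convex_Icc a b)
    (Set.left_mem_Icc.mpr hab) (Set.right_mem_Icc.mpr hab)
  rw [Real.norm_eq_abs, abs_of_nonneg (by linarith)] at h
  have e6 : z b - z a - (((b - a : ℝ)) : ℂ) • v =
      (fun t => z t - (t - a) • v) b - (fun t => z t - (t - a) • v) a := by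
    simp only [sub_self, zero_smul, sub_zero]
    rw [Complex.coe_smul]
    abel
  rw [e6]
  linarith

omit [CompleteSpace X] in
theorem onestep (𝔅 𝔇 : X →L[ℂ] X →L[ℂ] X) {ε M η ρ : ℝ} (hε : 0 < ε) (hM : 0 ≤ M)
    (hη : ‖𝔇 - 𝔅‖ ≤ η) (hη1 : η ≤ 1) (hsmall : ε * ((‖𝔅‖ + 1) * M) ≤ 1 / 2)
    {q q' za zb : X} (hq : ‖q‖ ≤ M) (hstep : q' - q = (ε : ℂ) • 𝔇 q q') (hza : ‖za‖ ≤ M)
    (hr : ‖zb - za - (ε : ℂ) • 𝔅 za zb‖ ≤ ε * ρ) :
    ‖q' - zb‖ ≤ (1 + 6 * ((‖𝔅‖ + 1) * M) * ε) * ‖q - za‖ + 2 * ε * (2 * M ^ 2 * η + ρ) := by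
  set B : ℝ := ‖𝔅‖ + 1 with hB
  have hB0 : 0 < B := by positivity
  have hD : ‖𝔇‖ ≤ B := by
    have : 𝔇 = 𝔅 + (𝔇 - 𝔅) := by abel
    calc ‖𝔇‖ = ‖𝔅 + (𝔇 - 𝔅)‖ := by rw [← this]
      _ ≤ ‖𝔅‖ + ‖𝔇 - 𝔅‖ := norm_add_le 𝔅 (𝔇 - 𝔅)
      _ ≤ B := by linarith
  have hεn : ‖(ε : ℂ)‖ = ε := by
    rw [Complex.norm_real, Real.norm_eq_abs, abs_of_pos hε]
  have hq' : ‖q'‖ ≤ 2 * M := by
    have h1 : ‖q'‖ ≤ ‖q‖ + ε * (B * M) * ‖q'‖ := by
      have e : q' = q + (ε : ℂ) • 𝔇 q q' := by rw [← hstep]; abel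
      have h2 : ‖(ε : ℂ) • 𝔇 q q'‖ ≤ ε * (B * M) * ‖q'‖ := by
        rw [norm_smul, hεn]
        have := 𝔇.le_opNorm₂ q q'
        have h3 : ‖𝔇‖ * ‖q‖ * ‖q'‖ ≤ B * M * ‖q'‖ := by gcongr
        calc ε * ‖(𝔇 q) q'‖ ≤ ε * (B * M * ‖q'‖) := by
              gcongr
              exact this.trans h3
          _ = ε * (B * M) * ‖q'‖ := by ring
      calc ‖q'‖ = ‖q + (ε : ℂ) • 𝔇 q q'‖ := by rw [← e]
        _ ≤ ‖q‖ + ‖(ε : ℂ) • 𝔇 q q'‖ := norm_add_le _ _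
        _ ≤ ‖q‖ + ε * (B * M) * ‖q'‖ := by linarith
    have h4 : ε * (B * M) * ‖q'‖ ≤ 1 / 2 * ‖q'‖ :=
      mul_le_mul_of_nonneg_right hsmall (norm_nonneg _)
    linarith
  have hkey : q' - zb = (q - za) + (ε : ℂ) • (𝔇 - 𝔅) q q' + (ε : ℂ) • 𝔅 (q - za) q' +
      (ε : ℂ) • 𝔅 za (q' - zb) - (zb - za - (ε : ℂ) • 𝔅 za zb) := by
    have e : q' = q + (ε : ℂ) • 𝔇 q q' := by rw [← hstep]; abel
    rw [map_sub 𝔅, map_sub (𝔅 za)]
    simp only [sub_apply, smul_sub]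
    nth_rewrite 1 [e]
    abel
  set x : ℝ := ε * (B * M) with hx
  have hx0 : 0 ≤ x := by positivity
  have b1 : ‖(ε : ℂ) • (𝔇 - 𝔅) q q'‖ ≤ ε * (2 * M ^ 2 * η) := by
    rw [norm_smul, hεn]
    have := (𝔇 - 𝔅).le_opNorm₂ q q'
    have h3 : ‖𝔇 - 𝔅‖ * ‖q‖ * ‖q'‖ ≤ η * M * (2 * M) := by
      have : 0 ≤ η := (norm_nonneg (𝔇 - 𝔅)).trans hη
      gcongr
    calc ε * ‖((𝔇 - 𝔅) q) q'‖ ≤ ε * (η * M * (2 * M)) := by
          gcongr
          exact this.trans h3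
      _ = ε * (2 * M ^ 2 * η) := by ring
  have b2 : ‖(ε : ℂ) • 𝔅 (q - za) q'‖ ≤ 2 * x * ‖q - za‖ := by
    rw [norm_smul, hεn]
    have := 𝔅.le_opNorm₂ (q - za) q'
    have h3 : ‖𝔅‖ * ‖q - za‖ * ‖q'‖ ≤ B * ‖q - za‖ * (2 * M) := by
      gcongr
      linarith
    calc ε * ‖(𝔅 (q - za)) q'‖ ≤ ε * (B * ‖q - za‖ * (2 * M)) := by
          gcongr
          exact this.trans h3
      _ = 2 * x * ‖q - za‖ := by rw [hx]; ring
  have b3 : ‖(ε : ℂ) • 𝔅 za (q' - zb)‖ ≤ x * ‖q' - zb‖ := by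
    rw [norm_smul, hεn]
    have := 𝔅.le_opNorm₂ za (q' - zb)
    have h3 : ‖𝔅‖ * ‖za‖ * ‖q' - zb‖ ≤ B * M * ‖q' - zb‖ := by
      gcongr
      linarith
    calc ε * ‖(𝔅 za) (q' - zb)‖ ≤ ε * (B * M * ‖q' - zb‖) := by
          gcongr
          exact this.trans h3
      _ = x * ‖q' - zb‖ := by rw [hx]; ring
  have htot : ‖q' - zb‖ ≤ ‖q - za‖ + ε * (2 * M ^ 2 * η) + 2 * x * ‖q - za‖ +
      x * ‖q' - zb‖ + ε * ρ := by
    calc ‖q' - zb‖ = ‖(q - za) + (ε : ℂ) • (𝔇 - 𝔅) q q' + (ε : ℂ) • 𝔅 (q - za) q' +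
      (ε : ℂ) • 𝔅 za (q' - zb) - (zb - za - (ε : ℂ) • 𝔅 za zb)‖ := by rw [← hkey]
      _ ≤ ‖(q - za) + (ε : ℂ) • (𝔇 - 𝔅) q q' + (ε : ℂ) • 𝔅 (q - za) q' +
      (ε : ℂ) • 𝔅 za (q' - zb)‖ + ‖zb - za - (ε : ℂ) • 𝔅 za zb‖ := norm_sub_le _ _
      _ ≤ (‖q - za‖ + ‖(ε : ℂ) • (𝔇 - 𝔅) q q'‖ + ‖(ε : ℂ) • 𝔅 (q - za) q'‖ +
      ‖(ε : ℂ) • 𝔅 za (q' - zb)‖) + ‖zb - za - (ε : ℂ) • 𝔅 za zb‖ := by
          gcongr
          refine (norm_add_le _ _).trans ?_
          gcongr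
          refine (norm_add_le _ _).trans ?_
          gcongr
          exact norm_add_le _ _
      _ ≤ _ := by linarith
  have hn1 := norm_nonneg (q' - zb)
  have hn2 := norm_nonneg (q - za)
  have hκ : 0 ≤ 2 * M ^ 2 * η + ρ := by
    have h1 : 0 ≤ ε * ρ := (norm_nonneg _).trans hr
    have h2 : 0 ≤ ρ := nonneg_of_mul_nonneg_right h1 hε
    have h3 : 0 ≤ η := (norm_nonneg (𝔇 - 𝔅)).trans hη
    positivity
  -- (1-x) E' <= (1+2x) E + ε κ
  have h7 : (1 - x) * ‖q' - zb‖ ≤ (1 + 2 * x) * ‖q - za‖ + ε * (2 * M ^ 2 * η + ρ) := by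
    linarith
  have h8 : (1 + 2 * x) * ‖q - za‖ ≤ (1 - x) * ((1 + 6 * x) * ‖q - za‖) := by
    have : 1 + 2 * x ≤ (1 - x) * (1 + 6 * x) := by nlinarith
    nlinarith
  have h9 : ε * (2 * M ^ 2 * η + ρ) ≤ (1 - x) * (2 * ε * (2 * M ^ 2 * η + ρ)) := by
    have : 0 ≤ ε * (2 * M ^ 2 * η + ρ) := by positivity
    nlinarith
  have h10 : (1 - x) * ‖q' - zb‖ ≤
      (1 - x) * ((1 + 6 * x) * ‖q - za‖ + 2 * ε * (2 * M ^ 2 * η + ρ)) := by
    linarith
  have h11 := le_of_mul_le_mul_left h10 (by linarith : 0 < 1 - x)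
  have h12 : 6 * (B * M) * ε = 6 * x := by rw [hx]; ring
  rw [h12]
  exact h11

end OdeAux


/-- **implicit Euler scheme** -/
theorem euler (e : X →L[ℂ] ℂ) (𝔅 : X →L[ℂ] X →L[ℂ] X) (z : ℝ → X) {T : ℝ} (hT : 0 < T)
    (hz : ∀ t ∈ Set.Icc 0 T, HasDerivAt z (𝔅 (z t) (z t)) t) (he : e (z 0) = 1)
    {ε : ℕ → ℝ} (hε : ∀ j, 0 < ε j) (hε0 : Tendsto ε atTop (𝓝 0))
    {𝔅' : ℕ → X →L[ℂ] X →L[ℂ] X}
    (h𝔅 : Tendsto (fun j => ((ε j : ℂ)⁻¹) • 𝔅' j) atTop (𝓝 𝔅))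
    {Q : ℕ → ℕ → X} (hQ0 : ∀ j, Q j 0 = z 0) (hne : ∀ j m, Q j m ≠ 0)
    (hrec : ∀ j m, e (Q j m) • Q j (m + 1) - e (Q j (m + 1)) • Q j m =
      𝔅' j (Q j m) (Q j (m + 1))) {δ : ℝ} (hδ : 0 < δ) :
    ∀ᶠ j in atTop, ∀ m : ℕ, m * ε j ≤ T →
      e (Q j m) ≠ 0 ∧ ‖(e (Q j m))⁻¹ • Q j m - z (m * ε j)‖ ≤ δ := by
  -- bound for z
  obtain ⟨M₀, hM₀⟩ : ∃ M₀ : ℝ, ∀ t ∈ Set.Icc 0 T, ‖z t‖ ≤ M₀ := by
    have hc : ContinuousOn z (Set.Icc 0 T) := fun t ht => (hz t ht).continuousAt.continuousWithinAt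
    exact isCompact_Icc.exists_bound_of_continuousOn hc
  have hM₀0 : 0 ≤ M₀ := (norm_nonneg _).trans (hM₀ 0 ⟨le_refl 0, hT.le⟩)
  set M : ℝ := M₀ + 1 with hM
  have hM0 : 0 ≤ M := by positivity
  have hzM : ∀ t ∈ Set.Icc 0 T, ‖z t‖ ≤ M := fun t ht => (hM₀ t ht).trans (by linarith)
  set B : ℝ := ‖𝔅‖ + 1 with hB
  have hB0 : 0 < B := by positivity
  set L : ℝ := 6 * (B * M) with hL
  have hL0 : 0 ≤ L := by positivity
  set η : ℕ → ℝ := fun j => ‖((ε j : ℂ)⁻¹) • 𝔅' j - 𝔅‖ with hηdef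
  set ρ : ℕ → ℝ := fun j => 2 * B * M * (B * M * M * ε j) with hρdef
  set κ : ℕ → ℝ := fun j => 2 * M ^ 2 * η j + ρ j with hκdef
  have hη : Tendsto η atTop (𝓝 0) := by
    have := (tendsto_iff_norm_sub_tendsto_zero (E := X →L[ℂ] X →L[ℂ] X)).mp h𝔅
    exact this
  have hρ : Tendsto ρ atTop (𝓝 0) := by
    have h1 : Tendsto (fun j => 2 * B * M * (B * M * M * ε j)) atTop
        (𝓝 (2 * B * M * (B * M * M * 0))) :=
      (hε0.const_mul _).const_mul _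
    simpa using h1
  have hκ : Tendsto κ atTop (𝓝 0) := by
    have h1 : Tendsto (fun j => 2 * M ^ 2 * η j + ρ j) atTop (𝓝 (2 * M ^ 2 * 0 + 0)) :=
      (hη.const_mul _).add hρ
    simpa using h1
  have hκ0 : ∀ j, 0 ≤ κ j := by
    intro j
    have := hε j
    have h1 : 0 ≤ η j := norm_nonneg (((ε j : ℂ)⁻¹) • 𝔅' j - 𝔅)
    have h2 : 0 ≤ ρ j := by
      rw [hρdef]
      positivity
    rw [hκdef]
    positivity
  have hfin : Tendsto (fun j => 2 * κ j * T * Real.exp (L * T)) atTop (𝓝 0) := by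
    have h1 : Tendsto (fun j => 2 * κ j * T * Real.exp (L * T)) atTop
        (𝓝 (2 * 0 * T * Real.exp (L * T))) :=
      ((hκ.const_mul 2).mul_const T).mul_const _
    simpa using h1
  have hxs : Tendsto (fun j => ε j * (B * M)) atTop (𝓝 0) := by
    have h1 := hε0.mul_const (B * M)
    simpa using h1
  filter_upwards [hη.eventually_le_const (show (0 : ℝ) < 1 by norm_num),
    hxs.eventually_le_const (show (0 : ℝ) < 1 / 2 by norm_num),
    hfin.eventually_le_const (show (0 : ℝ) < min δ 1 from lt_min hδ one_pos)] with j h1 h2 h3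
  have hεj := hε j
  obtain ⟨𝔇, h𝔇⟩ : ∃ D : X →L[ℂ] X →L[ℂ] X, D = ((ε j : ℂ)⁻¹) • 𝔅' j := ⟨_, rfl⟩
  have hεC : ((ε j : ℝ) : ℂ) ≠ 0 := Complex.ofReal_ne_zero.mpr hεj.ne'
  have hB' : ∀ u v, 𝔅' j u v = (ε j : ℂ) • 𝔇 u v := by
    intro u v
    rw [h𝔇, smul_apply, smul_apply, smul_smul, mul_inv_cancel₀ hεC, one_smul]
  have hDn : ‖𝔇‖ ≤ B := by
    have : 𝔇 = 𝔅 + (𝔇 - 𝔅) := by abel
    calc ‖𝔇‖ = ‖𝔅 + (𝔇 - 𝔅)‖ := by rw [← this]
      _ ≤ ‖𝔅‖ + ‖𝔇 - 𝔅‖ := norm_add_le 𝔅 (𝔇 - 𝔅)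
      _ ≤ B := by
          have : ‖𝔇 - 𝔅‖ ≤ 1 := by
            rw [h𝔇]
            exact h1
          linarith
  -- main induction
  have main : ∀ m : ℕ, m * ε j ≤ T → e (Q j m) ≠ 0 ∧
      ‖(e (Q j m))⁻¹ • Q j m - z (m * ε j)‖ ≤
        2 * κ j * (m * ε j) * Real.exp (L * (m * ε j)) := by
    intro m
    induction m with
    | zero =>
      intro _
      rw [hQ0, he]
      simp
    | succ m ih =>
      intro hm
      have hm' : (m : ℝ) * ε j ≤ T := by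
        push_cast at hm
        linarith
      obtain ⟨he0, hE⟩ := ih hm'
      have hmnn : 0 ≤ (m : ℝ) * ε j := by positivity
      set q : X := (e (Q j m))⁻¹ • Q j m with hq
      have hta : (m : ℝ) * ε j ∈ Set.Icc 0 T := ⟨hmnn, hm'⟩
      have htb : ((m + 1 : ℕ) : ℝ) * ε j ∈ Set.Icc 0 T := ⟨by positivity, hm⟩
      have hE1 : ‖q - z (m * ε j)‖ ≤ 1 := by
        refine hE.trans (le_trans ?_ (h3.trans (min_le_right _ _)))
        have := hκ0 j
        gcongr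
      have hqM : ‖q‖ ≤ M := by
        have e1 : q = (q - z (m * ε j)) + z (m * ε j) := by abel
        calc ‖q‖ = ‖(q - z (m * ε j)) + z (m * ε j)‖ := by rw [← e1]
          _ ≤ ‖q - z (m * ε j)‖ + ‖z (m * ε j)‖ := norm_add_le _ _
          _ ≤ M := by linarith [hM₀ _ hta]
      have hrq : Q j (m + 1) - e (Q j (m + 1)) • q = (ε j : ℂ) • 𝔇 q (Q j (m + 1)) := by
        have e1 := congrArg (fun v => (e (Q j m))⁻¹ • v) (hrec j m)
        simp only [smul_sub, smul_smul] at e1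
        rw [inv_mul_cancel₀ he0, one_smul, hB', smul_comm (e (Q j m))⁻¹ (ε j : ℂ),
          mul_comm (e (Q j m))⁻¹ (e (Q j (m + 1))), ← smul_smul] at e1
        rw [hq, e1, map_smul, smul_apply]
      have hsm : ∀ v : X, ‖(ε j : ℂ) • 𝔇 q v‖ ≤ 1 / 2 * ‖v‖ := by
        intro v
        rw [norm_smul, Complex.norm_real, Real.norm_eq_abs, abs_of_pos hεj]
        have f1 := 𝔇.le_opNorm₂ q v
        have f2 : ‖𝔇‖ * ‖q‖ * ‖v‖ ≤ B * M * ‖v‖ := by gcongr
        calc ε j * ‖(𝔇 q) v‖ ≤ ε j * (B * M * ‖v‖) := by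
              gcongr
              exact f1.trans f2
          _ = (ε j * (B * M)) * ‖v‖ := by ring
          _ ≤ 1 / 2 * ‖v‖ := by gcongr
      have he1 : e (Q j (m + 1)) ≠ 0 := by
        intro h0
        rw [h0, zero_smul, sub_zero] at hrq
        have f1 := hsm (Q j (m + 1))
        rw [← hrq] at f1
        have f2 : 0 < ‖Q j (m + 1)‖ := norm_pos_iff.mpr (hne j (m + 1))
        linarith
      refine ⟨he1, ?_⟩
      set q' : X := (e (Q j (m + 1)))⁻¹ • Q j (m + 1) with hq'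
      have hstep : q' - q = (ε j : ℂ) • 𝔇 q q' := by
        have e1 : q' - q = (e (Q j (m + 1)))⁻¹ • (Q j (m + 1) - e (Q j (m + 1)) • q) := by
          rw [smul_sub, smul_smul, inv_mul_cancel₀ he1, one_smul]
        have e2 : (𝔇 q) q' = (e (Q j (m + 1)))⁻¹ • (𝔇 q) (Q j (m + 1)) :=
          map_smul (𝔇 q) _ _
        rw [e1, hrq, e2, smul_comm]
      have hr := resid 𝔅 z hz hzM hM0 hta htb (by push_cast; nlinarith)
      have hdiff : ((m + 1 : ℕ) : ℝ) * ε j - m * ε j = ε j := by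
        push_cast
        ring
      rw [hdiff] at hr
      have hone := onestep 𝔅 𝔇 (ε := ε j) (M := M) (η := η j) (ρ := ρ j) hεj hM0
        (by rw [h𝔇]) h1 h2
        hqM hstep (hzM _ hta) hr
      refine hone.trans ?_
      have hmono : Real.exp (L * (m * ε j)) * (1 + L * ε j) ≤
          Real.exp (L * (((m + 1 : ℕ) : ℝ) * ε j)) := by
        have : L * (((m + 1 : ℕ) : ℝ) * ε j) = L * (m * ε j) + L * ε j := by
          push_cast
          ring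
        rw [this, Real.exp_add]
        have := Real.add_one_le_exp (L * ε j)
        gcongr
        linarith
      have hexp1 : 1 ≤ Real.exp (L * (((m + 1 : ℕ) : ℝ) * ε j)) :=
        Real.one_le_exp (by positivity)
      have hk := hκ0 j
      calc (1 + 6 * ((‖𝔅‖ + 1) * M) * ε j) * ‖q - z (m * ε j)‖ +
            2 * ε j * (2 * M ^ 2 * η j + ρ j)
          ≤ (1 + L * ε j) * (2 * κ j * (m * ε j) * Real.exp (L * (m * ε j))) +
            2 * ε j * κ j := by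
            have : (1 + 6 * ((‖𝔅‖ + 1) * M) * ε j) = 1 + L * ε j := rfl
            rw [this]
            gcongr
        _ = 2 * κ j * (m * ε j) * (Real.exp (L * (m * ε j)) * (1 + L * ε j)) +
            2 * ε j * κ j * 1 := by ring
        _ ≤ 2 * κ j * (m * ε j) * Real.exp (L * (((m + 1 : ℕ) : ℝ) * ε j)) +
            2 * ε j * κ j * Real.exp (L * (((m + 1 : ℕ) : ℝ) * ε j)) := by
            gcongr
        _ = 2 * κ j * (((m + 1 : ℕ) : ℝ) * ε j) *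
            Real.exp (L * (((m + 1 : ℕ) : ℝ) * ε j)) := by
            push_cast
            ring
  intro m hm
  obtain ⟨h4, h5⟩ := main m hm
  refine ⟨h4, h5.trans (le_trans ?_ (h3.trans (min_le_left _ _)))⟩
  have := hκ0 j
  gcongr


namespace OdeAux

theorem prod_exp {ι : Type*} (I : Finset ι) (x : ι → ℂ) (hx : ∀ i ∈ I, ‖x i‖ ≤ 1) :
    ‖∏ i ∈ I, (1 + x i) - Complex.exp (∑ i ∈ I, x i)‖ ≤
      Real.exp (∑ i ∈ I, ‖x i‖) * ∑ i ∈ I, ‖x i‖ ^ 2 := by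
  classical
  induction I using Finset.induction_on with
  | empty => simp
  | insert a I ha ih =>
    have ih' := ih (fun i hi => hx i (Finset.mem_insert_of_mem hi))
    have hxa := hx a (Finset.mem_insert_self a I)
    rw [Finset.prod_insert ha, Finset.sum_insert ha, Finset.sum_insert ha, Finset.sum_insert ha,
      Complex.exp_add, Real.exp_add]
    set Pr := ∏ i ∈ I, (1 + x i)
    set Sx := ∑ i ∈ I, x i
    set N := ∑ i ∈ I, ‖x i‖
    set N2 := ∑ i ∈ I, ‖x i‖ ^ 2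
    have e : (1 + x a) * Pr - Complex.exp (x a) * Complex.exp Sx =
        (1 + x a) * (Pr - Complex.exp Sx) -
          (Complex.exp (x a) - 1 - x a) * Complex.exp Sx := by ring
    rw [e]
    have h1 : ‖1 + x a‖ ≤ Real.exp ‖x a‖ := by
      refine (norm_add_le _ _).trans ?_
      rw [norm_one]
      linarith [Real.add_one_le_exp ‖x a‖]
    have h2 : ‖Complex.exp (x a) - 1 - x a‖ ≤ ‖x a‖ ^ 2 := Complex.norm_exp_sub_one_sub_id_le hxa
    have h3 : ‖Complex.exp Sx‖ ≤ Real.exp N := by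
      refine (Complex.norm_exp_le_exp_norm _).trans (Real.exp_le_exp.mpr (norm_sum_le _ _))
    have h4 : 1 ≤ Real.exp ‖x a‖ := Real.one_le_exp (norm_nonneg _)
    have hN2 : 0 ≤ N2 := Finset.sum_nonneg (fun i _ => by positivity)
    calc ‖(1 + x a) * (Pr - Complex.exp Sx) - (Complex.exp (x a) - 1 - x a) * Complex.exp Sx‖
        ≤ ‖1 + x a‖ * ‖Pr - Complex.exp Sx‖ + ‖Complex.exp (x a) - 1 - x a‖ * ‖Complex.exp Sx‖ := by
          refine (norm_sub_le _ _).trans ?_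
          rw [norm_mul, norm_mul]
      _ ≤ Real.exp ‖x a‖ * (Real.exp N * N2) + ‖x a‖ ^ 2 * Real.exp N := by gcongr
      _ ≤ Real.exp ‖x a‖ * (Real.exp N * N2) + Real.exp ‖x a‖ * (‖x a‖ ^ 2 * Real.exp N) := by
          exact add_le_add le_rfl
            (le_mul_of_one_le_left (by positivity : 0 ≤ ‖x a‖ ^ 2 * Real.exp N) h4)
      _ = Real.exp ‖x a‖ * Real.exp N * (‖x a‖ ^ 2 + N2) := by ring

theorem second_diff {g g' s : ℝ → ℂ} {a b c h ω : ℝ}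
    (hg : ∀ t ∈ Set.Icc a b, HasDerivAt g (g' t) t)
    (hg' : ∀ t ∈ Set.Icc a b, HasDerivAt g' (s t) t)
    (h0 : 0 ≤ h) (hca : a ≤ c - h) (hcb : c + h ≤ b)
    (hω : ∀ y ∈ Set.Icc a b, |y - c| ≤ h → ‖s y - s c‖ ≤ ω) :
    ‖g (c + h) + g (c - h) - 2 * g c - (h : ℂ) ^ 2 * s c‖ ≤ 2 * ω * h ^ 2 := by
  have hc : c ∈ Set.Icc a b := ⟨by linarith, by linarith⟩
  have hω0 : 0 ≤ ω := by
    have := hω c hc (by simpa using h0)
    simpa using this
  -- first derivative estimate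
  have key : ∀ y ∈ Set.Icc a b, |y - c| ≤ h →
      ‖g' y - g' c - ((y - c : ℝ) : ℂ) * s c‖ ≤ ω * |y - c| := by
    intro y hy hyc
    have hseg : ∀ t ∈ Set.uIcc c y, t ∈ Set.Icc a b ∧ |t - c| ≤ h := by
      intro t ht
      have h1 : t ∈ Set.Icc a b := by
        rcases Set.mem_uIcc.mp ht with h | h
        · exact ⟨by linarith [hc.1], by linarith [hy.2]⟩
        · exact ⟨by linarith [hy.1], by linarith [hc.2]⟩
      refine ⟨h1, ?_⟩
      have : |t - c| ≤ |y - c| := Set.abs_sub_left_of_mem_uIcc ht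
      linarith
    have hd : ∀ t ∈ Set.uIcc c y, HasDerivWithinAt
        (fun t : ℝ => g' t - ((t - c : ℝ) : ℂ) * s c) (s t - s c) (Set.uIcc c y) t := by
      intro t ht
      have h1 := hg' t (hseg t ht).1
      have h2 : HasDerivAt (fun t : ℝ => ((t - c : ℝ) : ℂ) * s c) (((1 : ℝ) : ℂ) * s c) t := by
        have h3 : HasDerivAt (fun t : ℝ => ((t - c : ℝ) : ℂ)) (((1 : ℝ) : ℂ)) t :=
          ((hasDerivAt_id t).sub_const c).ofReal_comp
        exact h3.mul_const _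
      have h4 := (h1.fun_sub h2).hasDerivWithinAt (s := Set.uIcc c y)
      rw [Complex.ofReal_one, one_mul] at h4
      exact h4
    have := Convex.norm_image_sub_le_of_norm_hasDerivWithin_le (𝕜 := ℝ)
      (f := fun t : ℝ => g' t - ((t - c : ℝ) : ℂ) * s c) (f' := fun t => s t - s c)
      (s := Set.uIcc c y) (x := c) (y := y) (C := ω) hd
      (fun t ht => hω t (hseg t ht).1 (hseg t ht).2) (convex_uIcc c y) Set.left_mem_uIcc
      Set.right_mem_uIcc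
    rw [Real.norm_eq_abs] at this
    have e : g' y - g' c - ((y - c : ℝ) : ℂ) * s c =
        (fun t : ℝ => g' t - ((t - c : ℝ) : ℂ) * s c) y -
          (fun t : ℝ => g' t - ((t - c : ℝ) : ℂ) * s c) c := by
      simp only [sub_self, Complex.ofReal_zero, zero_mul, sub_zero]
      ring
    rw [e]
    exact this
  -- second
  have hd2 : ∀ t ∈ Set.Icc 0 h, HasDerivWithinAt
      (fun t : ℝ => g (c + t) + g (c - t) - (t : ℂ) ^ 2 * s c)
      (g' (c + t) - g' (c - t) - 2 * (t : ℂ) * s c) (Set.Icc 0 h) t := by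
    intro t ht
    have m1 : c + t ∈ Set.Icc a b := ⟨by linarith [ht.1, ht.2], by linarith [ht.1, ht.2]⟩
    have m2 : c - t ∈ Set.Icc a b := ⟨by linarith [ht.1, ht.2], by linarith [ht.1, ht.2]⟩
    have h1 : HasDerivAt (fun t : ℝ => g (c + t)) (g' (c + t)) t := by
      exact (hg _ m1).comp_const_add c t
    have h2 : HasDerivAt (fun t : ℝ => g (c - t)) (-g' (c - t)) t := by
      exact (hg _ m2).comp_const_sub c t
    have h3 : HasDerivAt (fun t : ℝ => (t : ℂ) ^ 2 * s c) (2 * (t : ℂ) * s c) t := by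
      have h4 : HasDerivAt (fun t : ℝ => ((t : ℝ) : ℂ)) ((1 : ℝ) : ℂ) t :=
        (hasDerivAt_id t).ofReal_comp
      have h5 := (h4.pow 2).mul_const (s c)
      simpa using h5
    have h6 := ((h1.fun_add h2).fun_sub h3).hasDerivWithinAt (s := Set.Icc 0 h)
    rw [← sub_eq_add_neg] at h6
    exact h6
  have hb2 : ∀ t ∈ Set.Icc 0 h, ‖g' (c + t) - g' (c - t) - 2 * (t : ℂ) * s c‖ ≤ 2 * ω * h := by
    intro t ht
    have m1 : c + t ∈ Set.Icc a b := ⟨by linarith [ht.1, ht.2], by linarith [ht.1, ht.2]⟩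
    have m2 : c - t ∈ Set.Icc a b := ⟨by linarith [ht.1, ht.2], by linarith [ht.1, ht.2]⟩
    have a1 : |c + t - c| = t := by
      rw [add_sub_cancel_left, abs_of_nonneg ht.1]
    have a2 : |c - t - c| = t := by
      rw [sub_sub_cancel_left, abs_neg, abs_of_nonneg ht.1]
    have k1 := key _ m1 (by rw [a1]; exact ht.2)
    have k2 := key _ m2 (by rw [a2]; exact ht.2)
    rw [a1] at k1
    rw [a2] at k2
    have e : g' (c + t) - g' (c - t) - 2 * (t : ℂ) * s c =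
        (g' (c + t) - g' c - ((c + t - c : ℝ) : ℂ) * s c) -
          (g' (c - t) - g' c - ((c - t - c : ℝ) : ℂ) * s c) := by
      push_cast
      ring
    rw [e]
    refine (norm_sub_le _ _).trans ?_
    have : ω * t ≤ ω * h := mul_le_mul_of_nonneg_left ht.2 hω0
    linarith
  have hfin := Convex.norm_image_sub_le_of_norm_hasDerivWithin_le (𝕜 := ℝ)
    (f := fun t : ℝ => g (c + t) + g (c - t) - (t : ℂ) ^ 2 * s c)
    (f' := fun t => g' (c + t) - g' (c - t) - 2 * (t : ℂ) * s c)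
    (s := Set.Icc 0 h) (x := 0) (y := h) (C := 2 * ω * h) hd2 hb2 (convex_Icc 0 h)
    (Set.left_mem_Icc.mpr h0) (Set.right_mem_Icc.mpr h0)
  rw [Real.norm_eq_abs] at hfin
  simp only [abs_of_nonneg h0, Complex.ofReal_zero, add_zero, sub_zero, ne_eq, OfNat.ofNat_ne_zero, not_false_eq_true,
    zero_pow, zero_mul] at hfin
  have e2 : g (c + h) + g (c - h) - 2 * g c - (h : ℂ) ^ 2 * s c =
      g (c + h) + g (c - h) - (h : ℂ) ^ 2 * s c - (g c + g c) := by ring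
  rw [e2]
  calc _ ≤ 2 * ω * h * h := hfin
    _ = 2 * ω * h ^ 2 := by ring

theorem small_start {g g' s : ℝ → ℂ} {b S h : ℝ}
    (hg : ∀ t ∈ Set.Icc 0 b, HasDerivAt g (g' t) t)
    (hg' : ∀ t ∈ Set.Icc 0 b, HasDerivAt g' (s t) t) (hg0 : g 0 = 0) (hg'0 : g' 0 = 0)
    (hS : ∀ t ∈ Set.Icc 0 b, ‖s t‖ ≤ S) (h0 : 0 ≤ h) (hb : h ≤ b) : ‖g h‖ ≤ S * h * h := by
  have hS0 : 0 ≤ S := (norm_nonneg _).trans (hS 0 ⟨le_refl 0, h0.trans hb⟩)
  have h1 : ∀ t ∈ Set.Icc 0 h, ‖g' t‖ ≤ S * h := by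
    intro t ht
    have := Convex.norm_image_sub_le_of_norm_hasDerivWithin_le (𝕜 := ℝ)
      (f := g') (f' := s) (s := Set.Icc 0 h) (x := 0) (y := t) (C := S)
      (fun u hu => (hg' u ⟨hu.1, hu.2.trans hb⟩).hasDerivWithinAt)
      (fun u hu => hS u ⟨hu.1, hu.2.trans hb⟩) (convex_Icc 0 h)
      (Set.left_mem_Icc.mpr h0) ht
    rw [hg'0, sub_zero, sub_zero, Real.norm_eq_abs, abs_of_nonneg ht.1] at this
    exact this.trans (mul_le_mul_of_nonneg_left ht.2 hS0)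
  have := Convex.norm_image_sub_le_of_norm_hasDerivWithin_le (𝕜 := ℝ)
    (f := g) (f' := g') (s := Set.Icc 0 h) (x := 0) (y := h) (C := S * h)
    (fun u hu => (hg u ⟨hu.1, hu.2.trans hb⟩).hasDerivWithinAt) h1 (convex_Icc 0 h)
    (Set.left_mem_Icc.mpr h0) (Set.right_mem_Icc.mpr h0)
  rwa [hg0, sub_zero, sub_zero, Real.norm_eq_abs, abs_of_nonneg h0] at this

/-- The double product. -/
noncomputable def PP (x : ℕ → ℂ) (m : ℕ) : ℂ :=
  ∏ k ∈ Finset.range m, ∏ l ∈ Finset.range k, (1 + x (l + 1))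

theorem PP_rec (x : ℕ → ℂ) (m : ℕ) : PP x m * PP x (m + 2) = PP x (m + 1) ^ 2 * (1 + x (m + 1)) := by
  unfold PP
  rw [Finset.prod_range_succ _ (m + 1), Finset.prod_range_succ _ m,
    Finset.prod_range_succ (fun l => (1 + x (l + 1))) m]
  ring

end OdeAux


/-- **scalar second order recursion** -/
theorem scalar_rec {g g' s : ℝ → ℂ} {T T' : ℝ} (hT : 0 < T) (hT' : T < T')
    (hg : ∀ t ∈ Set.Ioo (-T') T', HasDerivAt g (g' t) t)
    (hg' : ∀ t ∈ Set.Ioo (-T') T', HasDerivAt g' (s t) t)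
    (hs : ContinuousOn s (Set.Ioo (-T') T')) (hg0 : g 0 = 0) (hg'0 : g' 0 = 0)
    {ε : ℕ → ℝ} (hε : ∀ j, 0 < ε j) (hε0 : Tendsto ε atTop (𝓝 0))
    {ν σ : ℕ → ℕ → ℂ} (hν0 : ∀ j, ν j 0 = 1) (hν1 : ∀ j, ν j 1 = 1)
    (hrec : ∀ j m, ν j m * ν j (m + 2) = ν j (m + 1) ^ 2 * (1 + (ε j : ℂ) ^ 2 * σ j (m + 1)))
    (hσ : ∀ δ > 0, ∀ᶠ j in atTop, ∀ m : ℕ, m * ε j ≤ T → ‖σ j m - s (m * ε j)‖ ≤ δ)
    {δ : ℝ} (hδ : 0 < δ) :
    ∀ᶠ j in atTop, ∀ m : ℕ, m * ε j ≤ T → ‖ν j m - Complex.exp (g (m * ε j))‖ ≤ δ := by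
  set b : ℝ := (T + T') / 2 with hb
  have hbT : T < b := by rw [hb]; linarith
  have hbT' : b < T' := by rw [hb]; linarith
  have hsub : Set.Icc 0 b ⊆ Set.Ioo (-T') T' := by
    intro t ht
    exact ⟨by linarith [ht.1], by linarith [ht.2]⟩
  have hgb : ∀ t ∈ Set.Icc 0 b, HasDerivAt g (g' t) t := fun t ht => hg t (hsub ht)
  have hg'b : ∀ t ∈ Set.Icc 0 b, HasDerivAt g' (s t) t := fun t ht => hg' t (hsub ht)
  have hsb : ContinuousOn s (Set.Icc 0 b) := hs.mono hsub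
  obtain ⟨S₀, hS₀⟩ := isCompact_Icc.exists_bound_of_continuousOn hsb
  obtain ⟨G, hG⟩ := isCompact_Icc.exists_bound_of_continuousOn
    (f := g) (s := Set.Icc 0 b) (fun t ht => (hgb t ht).continuousAt.continuousWithinAt)
  have hb0 : 0 ≤ b := by linarith
  have hS₀0 : 0 ≤ S₀ := (norm_nonneg _).trans (hS₀ 0 ⟨le_refl 0, hb0⟩)
  set S : ℝ := S₀ + 1 with hS
  have hSpos : 0 < S := by positivity
  -- the admissible error of the exponent
  set d : ℝ := min 1 (δ / (4 * Real.exp G)) with hd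
  have hd0 : 0 < d := lt_min one_pos (by positivity)
  have hd1 : d ≤ 1 := min_le_left _ _
  have hd2 : Real.exp G * (2 * d) ≤ δ / 2 := by
    have : d ≤ δ / (4 * Real.exp G) := min_le_right _ _
    calc Real.exp G * (2 * d) ≤ Real.exp G * (2 * (δ / (4 * Real.exp G))) := by gcongr
      _ = δ / 2 := by
        have := (Real.exp_pos G).ne'
        field_simp
        ring
  set τ : ℝ := d / (2 * T ^ 2) with hτ
  have hτ0 : 0 < τ := by positivity
  have hτT : T ^ 2 * τ = d / 2 := by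
    rw [hτ]
    field_simp
  -- uniform continuity
  obtain ⟨r, hr0, hr⟩ := Metric.uniformContinuousOn_iff_le.mp
    (isCompact_Icc.uniformContinuousOn_of_continuous hsb) (τ / 4) (by positivity)
  have ev1 := hσ (min 1 (τ / 2)) (lt_min one_pos (by positivity))
  have ev2 : ∀ᶠ j in atTop, ε j ≤ min r (b - T) :=
    hε0.eventually_le_const (lt_min hr0 (by linarith))
  have ev3 : ∀ᶠ j in atTop, T * S₀ * ε j ≤ d / 2 := by
    have : Tendsto (fun j => T * S₀ * ε j) atTop (𝓝 (T * S₀ * 0)) := hε0.const_mul _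
    rw [mul_zero] at this
    exact this.eventually_le_const (by positivity)
  have ev4 : ∀ᶠ j in atTop, ε j ^ 2 * S ≤ 1 / 2 := by
    have : Tendsto (fun j => ε j ^ 2 * S) atTop (𝓝 (0 ^ 2 * S)) := (hε0.pow 2).mul_const _
    rw [zero_pow two_ne_zero, zero_mul] at this
    exact this.eventually_le_const (by norm_num)
  have ev5 : ∀ᶠ j in atTop, Real.exp (T ^ 2 * S) * (ε j ^ 2 * (T ^ 2 * S ^ 2)) ≤ δ / 2 := by
    have : Tendsto (fun j => Real.exp (T ^ 2 * S) * (ε j ^ 2 * (T ^ 2 * S ^ 2))) atTop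
        (𝓝 (Real.exp (T ^ 2 * S) * (0 ^ 2 * (T ^ 2 * S ^ 2)))) :=
      ((hε0.pow 2).mul_const _).const_mul _
    rw [zero_pow two_ne_zero, zero_mul, mul_zero] at this
    exact this.eventually_le_const (by positivity)
  filter_upwards [ev1, ev2, ev3, ev4, ev5] with j h1 h2 h3 h4 h5
  have hεj := hε j
  set x : ℕ → ℂ := fun l => (ε j : ℂ) ^ 2 * σ j l with hx
  have hεn : ‖((ε j : ℝ) : ℂ)‖ = ε j := by
    rw [Complex.norm_real, Real.norm_eq_abs, abs_of_pos hεj]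
  have hmem : ∀ l : ℕ, l * ε j ≤ T → ((l : ℝ) * ε j) ∈ Set.Icc 0 b := fun l hl =>
    ⟨by positivity, by linarith⟩
  have hσS : ∀ l : ℕ, l * ε j ≤ T → ‖σ j l‖ ≤ S := by
    intro l hl
    have e1 := (h1 l hl).trans (min_le_left _ _)
    have e2 := hS₀ _ (hmem l hl)
    have e3 : σ j l = (σ j l - s (l * ε j)) + s (l * ε j) := by ring
    rw [e3]
    refine (norm_add_le _ _).trans ?_
    linarith
  have hxS : ∀ l : ℕ, l * ε j ≤ T → ‖x l‖ ≤ ε j ^ 2 * S := by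
    intro l hl
    rw [hx]
    simp only [norm_mul, norm_pow, hεn]
    have := hσS l hl
    gcongr
  have hx1 : ∀ l : ℕ, l * ε j ≤ T → 1 + x l ≠ 0 := by
    intro l hl h0
    have e1 := (hxS l hl).trans h4
    have e2 : x l = -1 := by linear_combination h0
    rw [e2, norm_neg, norm_one] at e1
    norm_num at e1
  have hmono : ∀ {l m : ℕ}, l ≤ m → (m : ℝ) * ε j ≤ T → (l : ℝ) * ε j ≤ T := by
    intro l m hlm hm
    have : (l : ℝ) * ε j ≤ (m : ℝ) * ε j := by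
      have : (l : ℝ) ≤ m := by exact_mod_cast hlm
      gcongr
    linarith
  -- nonvanishing of the product
  have hPne : ∀ m : ℕ, (m : ℝ) * ε j ≤ T → PP x m ≠ 0 := by
    intro m hm
    unfold PP
    rw [Finset.prod_ne_zero_iff]
    intro k hk
    rw [Finset.prod_ne_zero_iff]
    intro l hl
    have hk' := Finset.mem_range.mp hk
    have hl' := Finset.mem_range.mp hl
    exact hx1 (l + 1) (hmono (by omega) hm)
  have hνP : ∀ m : ℕ, (m : ℝ) * ε j ≤ T → ν j m = PP x m := by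
    intro m
    induction m using Nat.twoStepInduction with
    | zero => intro _; rw [hν0]; simp [PP]
    | one => intro _; rw [hν1]; simp [PP]
    | more m ih0 ih1 =>
      intro hm
      have e0 := ih0 (hmono (by omega) hm)
      have e1 := ih1 (hmono (by omega) hm)
      have e2 := hrec j m
      rw [e0, e1] at e2
      have e3 := PP_rec x m
      have e4 : PP x m * ν j (m + 2) = PP x m * PP x (m + 2) := by rw [e2, e3]
      exact mul_left_cancel₀ (hPne m (hmono (by omega) hm)) e4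
  intro m hm
  set A : ℕ → ℂ := fun m => ∑ k ∈ Finset.range m, ∑ l ∈ Finset.range k, x (l + 1) with hA
  have hmT : ((m : ℝ) * ε j) ^ 2 ≤ T ^ 2 := by
    have : 0 ≤ (m : ℝ) * ε j := by positivity
    gcongr
  -- product versus exponential
  have hPA : ‖PP x m - Complex.exp (A m)‖ ≤ δ / 2 := by
    set I : Finset (Σ _ : ℕ, ℕ) := (Finset.range m).sigma (fun k => Finset.range k) with hI
    have hIl : ∀ i ∈ I, ((i.2 + 1 : ℕ) : ℝ) * ε j ≤ T := by
      intro i hi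
      rw [hI, Finset.mem_sigma, Finset.mem_range, Finset.mem_range] at hi
      exact hmono (by omega) hm
    have hcard : (I.card : ℝ) ≤ (m : ℝ) ^ 2 := by
      have : I.card ≤ m ^ 2 := by
        rw [hI, Finset.card_sigma]
        calc ∑ k ∈ Finset.range m, (Finset.range k).card ≤ ∑ k ∈ Finset.range m, m := by
              refine Finset.sum_le_sum (fun k hk => ?_)
              rw [Finset.card_range]
              exact (Finset.mem_range.mp hk).le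
          _ = m ^ 2 := by rw [Finset.sum_const, Finset.card_range, smul_eq_mul, pow_two]
      exact_mod_cast this
    have e1 : PP x m = ∏ i ∈ I, (1 + x (i.2 + 1)) := by
      rw [hI, Finset.prod_sigma]
      rfl
    have e2 : A m = ∑ i ∈ I, x (i.2 + 1) := by
      rw [hI, Finset.sum_sigma]
    rw [e1, e2]
    refine (prod_exp I (fun i => x (i.2 + 1)) (fun i hi => by
      have := (hxS _ (hIl i hi)).trans h4
      linarith)).trans ?_
    have s1 : ∑ i ∈ I, ‖x (i.2 + 1)‖ ≤ T ^ 2 * S := by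
      calc ∑ i ∈ I, ‖x (i.2 + 1)‖ ≤ ∑ i ∈ I, ε j ^ 2 * S :=
            Finset.sum_le_sum (fun i hi => hxS _ (hIl i hi))
        _ = (I.card : ℝ) * (ε j ^ 2 * S) := by rw [Finset.sum_const, nsmul_eq_mul]
        _ ≤ (m : ℝ) ^ 2 * (ε j ^ 2 * S) := by gcongr
        _ = ((m : ℝ) * ε j) ^ 2 * S := by ring
        _ ≤ T ^ 2 * S := by gcongr
    have s2 : ∑ i ∈ I, ‖x (i.2 + 1)‖ ^ 2 ≤ ε j ^ 2 * (T ^ 2 * S ^ 2) := by
      calc ∑ i ∈ I, ‖x (i.2 + 1)‖ ^ 2 ≤ ∑ i ∈ I, (ε j ^ 2 * S) ^ 2 :=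
            Finset.sum_le_sum (fun i hi => by
              have := hxS _ (hIl i hi)
              gcongr)
        _ = (I.card : ℝ) * (ε j ^ 2 * S) ^ 2 := by rw [Finset.sum_const, nsmul_eq_mul]
        _ ≤ (m : ℝ) ^ 2 * (ε j ^ 2 * S) ^ 2 := by gcongr
        _ = ((m : ℝ) * ε j) ^ 2 * (ε j ^ 2 * S ^ 2) := by ring
        _ ≤ T ^ 2 * (ε j ^ 2 * S ^ 2) := by gcongr
        _ = ε j ^ 2 * (T ^ 2 * S ^ 2) := by ring
    refine le_trans ?_ h5
    have : 0 ≤ ∑ i ∈ I, ‖x (i.2 + 1)‖ ^ 2 := Finset.sum_nonneg (fun i _ => by positivity)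
    gcongr
  -- the exponent
  set a : ℕ → ℂ := fun m => ∑ l ∈ Finset.range m, x (l + 1) with ha
  set c : ℕ → ℂ := fun m => g ((m + 1 : ℕ) * ε j) - g (m * ε j) with hc
  have hac : ∀ k : ℕ, ((k + 1 : ℕ) : ℝ) * ε j ≤ T → ‖a k - c k‖ ≤ S₀ * ε j * ε j + k * (ε j ^ 2 * τ) := by
    intro k
    induction k with
    | zero =>
      intro _
      have e1 : a 0 - c 0 = -g (ε j) := by
        rw [ha, hc]
        simp [hg0]
      rw [e1, norm_neg]
      have := small_start hgb hg'b hg0 hg'0 hS₀ hεj.le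
        (by linarith [h2.trans (min_le_right _ _)])
      simpa using this
    | succ k ih =>
      intro hk
      have hk1 : ((k + 1 : ℕ) : ℝ) * ε j ≤ T := hmono (by omega) hk
      have ih' := ih hk1
      have hsd := second_diff (g := g) (g' := g') (s := s) (a := 0) (b := b)
        (c := ((k + 1 : ℕ) : ℝ) * ε j) (h := ε j) (ω := τ / 4) hgb hg'b hεj.le
        (by push_cast; nlinarith) (by linarith [h2.trans (min_le_right _ _)])
        (fun y hy hyc => by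
          have := hr y hy _ (hmem (k + 1) hk1) (by
            rw [Real.dist_eq]
            exact hyc.trans (h2.trans (min_le_left _ _)))
          rwa [dist_eq_norm] at this)
      have e1 : a (k + 1) - c (k + 1) = (a k - c k) +
          ((ε j : ℂ) ^ 2 * (σ j (k + 1) - s (((k + 1 : ℕ) : ℝ) * ε j))) -
          (g (((k + 1 : ℕ) : ℝ) * ε j + ε j) + g (((k + 1 : ℕ) : ℝ) * ε j - ε j) -
            2 * g (((k + 1 : ℕ) : ℝ) * ε j) - (ε j : ℂ) ^ 2 * s (((k + 1 : ℕ) : ℝ) * ε j)) := by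
        have f1 : ((k + 1 : ℕ) : ℝ) * ε j + ε j = ((k + 1 + 1 : ℕ) : ℝ) * ε j := by
          push_cast
          ring
        have f2 : ((k + 1 : ℕ) : ℝ) * ε j - ε j = ((k : ℕ) : ℝ) * ε j := by
          push_cast
          ring
        rw [f1, f2]
        simp only [ha, hc, hx, Finset.sum_range_succ]
        ring
      rw [e1]
      have n1 : ‖(ε j : ℂ) ^ 2 * (σ j (k + 1) - s (((k + 1 : ℕ) : ℝ) * ε j))‖ ≤
          ε j ^ 2 * (τ / 2) := by
        rw [norm_mul, norm_pow, hεn]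
        have := (h1 (k + 1) hk1).trans (min_le_right _ _)
        gcongr
      have n2 := (norm_sub_le ((a k - c k) +
          ((ε j : ℂ) ^ 2 * (σ j (k + 1) - s (((k + 1 : ℕ) : ℝ) * ε j))))
          (g (((k + 1 : ℕ) : ℝ) * ε j + ε j) + g (((k + 1 : ℕ) : ℝ) * ε j - ε j) -
            2 * g (((k + 1 : ℕ) : ℝ) * ε j) - (ε j : ℂ) ^ 2 * s (((k + 1 : ℕ) : ℝ) * ε j)))
      have n3 := norm_add_le (a k - c k)
        ((ε j : ℂ) ^ 2 * (σ j (k + 1) - s (((k + 1 : ℕ) : ℝ) * ε j)))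
      have n4 : ((k + 1 : ℕ) : ℝ) * (ε j ^ 2 * τ) = k * (ε j ^ 2 * τ) + ε j ^ 2 * (τ / 2) +
          2 * (τ / 4) * ε j ^ 2 := by
        push_cast
        ring
      rw [n4]
      linarith
  have hAg : ∀ k : ℕ, (k : ℝ) * ε j ≤ T →
      ‖A k - g (k * ε j)‖ ≤ k * (S₀ * ε j * ε j) + k ^ 2 * (ε j ^ 2 * τ) := by
    intro k
    induction k with
    | zero =>
      intro _
      simp [hA, hg0]
    | succ k ih =>
      intro hk
      have ih' := ih (hmono (by omega) hk)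
      have e1 : A (k + 1) - g (((k + 1 : ℕ) : ℝ) * ε j) = (A k - g (k * ε j)) + (a k - c k) := by
        simp only [hA, ha, hc, Finset.sum_range_succ]
        ring
      rw [e1]
      have e2 := hac k hk
      have e3 := norm_add_le (A k - g (k * ε j)) (a k - c k)
      have e4 : ((k + 1 : ℕ) : ℝ) * (S₀ * ε j * ε j) + ((k + 1 : ℕ) : ℝ) ^ 2 * (ε j ^ 2 * τ) =
          k * (S₀ * ε j * ε j) + k ^ 2 * (ε j ^ 2 * τ) + (S₀ * ε j * ε j + k * (ε j ^ 2 * τ)) +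
            ((k : ℝ) + 1) * (ε j ^ 2 * τ) := by
        push_cast
        ring
      have e5 : 0 ≤ ((k : ℝ) + 1) * (ε j ^ 2 * τ) := by positivity
      rw [e4]
      linarith
  have hD : ‖A m - g (m * ε j)‖ ≤ d := by
    refine (hAg m hm).trans ?_
    have e1 : (m : ℝ) * (S₀ * ε j * ε j) ≤ d / 2 := by
      calc (m : ℝ) * (S₀ * ε j * ε j) = ((m : ℝ) * ε j) * S₀ * ε j := by ring
        _ ≤ T * S₀ * ε j := by gcongr
        _ ≤ d / 2 := h3
    have e2 : (m : ℝ) ^ 2 * (ε j ^ 2 * τ) ≤ d / 2 := by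
      calc (m : ℝ) ^ 2 * (ε j ^ 2 * τ) = ((m : ℝ) * ε j) ^ 2 * τ := by ring
        _ ≤ T ^ 2 * τ := by gcongr
        _ = d / 2 := hτT
    linarith
  rw [hνP m hm]
  have e1 : PP x m - Complex.exp (g (m * ε j)) = (PP x m - Complex.exp (A m)) +
      Complex.exp (g (m * ε j)) * (Complex.exp (A m - g (m * ε j)) - 1) := by
    rw [mul_sub, ← Complex.exp_add]
    have : g (m * ε j) + (A m - g (m * ε j)) = A m := by ring
    rw [this]
    ring
  rw [e1]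
  refine (norm_add_le _ _).trans ?_
  have e2 : ‖Complex.exp (g (m * ε j)) * (Complex.exp (A m - g (m * ε j)) - 1)‖ ≤ δ / 2 := by
    rw [norm_mul]
    have f1 : ‖Complex.exp (g (m * ε j))‖ ≤ Real.exp G :=
      (Complex.norm_exp_le_exp_norm _).trans (Real.exp_le_exp.mpr (hG _ (hmem m hm)))
    have f2 : ‖Complex.exp (A m - g (m * ε j)) - 1‖ ≤ 2 * d :=
      (Complex.norm_exp_sub_one_le (hD.trans hd1)).trans (by linarith)
    refine le_trans ?_ hd2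
    gcongr
  linarith

end Pool.Agent.Lib.MP_db21fa_an.TF
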