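import Pool.Agent.Lib.MP_db21fa_an.TF.CenterFrame
import Pool.Agent.Lib.MP_db21fa_an.TF.Cobound

/-!
Module S9: one-parameter groups of central elements, the flat family.
-/

set_option autoImplicit false

set_option linter.unusedSectionVars false

open Filter Topology Metric

namespace Pool.Agent.Lib.MP_db21fa_an.TF

namespace OneParamAux

open scoped Matrix.Norms.Operator in
/-- local inverses in a finite-dimensional commutative algebra -/
theorem local_inverse {C : Type*} [CommRing C] [Algebra ℂ C] {d : ℕ}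
    (bas : Module.Basis (Fin d) ℂ C) {V : Type*} [NormedAddCommGroup V] [NormedSpace ℂ V]
    {O : Set V} (hO : IsOpen O) (g : V → C)
    (hg : ∀ i, DifferentiableOn ℂ (fun t => bas.repr (g t) i) O) {t₀ : V} (ht₀ : t₀ ∈ O)
    (h1 : g t₀ = 1) :
    ∃ (O' : Set V) (g' : V → C), IsOpen O' ∧ t₀ ∈ O' ∧ O' ⊆ O ∧ (∀ t ∈ O', g t * g' t = 1) ∧
      g' t₀ = 1 ∧ ∀ i, DifferentiableOn ℂ (fun t => bas.repr (g' t) i) O' := by
  let _ : NormedCommRing C := NormedCommRing.induced C (Matrix (Fin d) (Fin d) ℂ)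
    (Algebra.leftMulMatrix bas) (Algebra.leftMulMatrix_injective bas)
  let _ : NormedAlgebra ℂ C := NormedAlgebra.induced ℂ C (Matrix (Fin d) (Fin d) ℂ)
    (Algebra.leftMulMatrix bas)
  have : FiniteDimensional ℂ C := bas.finiteDimensional_of_finite
  have : CompleteSpace C := FiniteDimensional.complete ℂ C
  have hgd : DifferentiableOn ℂ g O := by
    have : DifferentiableOn ℂ (fun t => ∑ i, bas.repr (g t) i • bas i) O := by
      apply DifferentiableOn.fun_sum
      intro i _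
      exact (hg i).smul_const _
    refine this.congr fun t _ => ?_
    exact (bas.sum_repr _).symm
  have hun : {x : C | IsUnit x} ∈ 𝓝 (g t₀) := by
    rw [h1]
    exact Units.isOpen.mem_nhds isUnit_one
  have hcont : ContinuousAt g t₀ := (hgd.differentiableAt (hO.mem_nhds ht₀)).continuousAt
  obtain ⟨O', hO's, hO'o, ht'⟩ := _root_.mem_nhds_iff.1 (inter_mem (hcont hun) (hO.mem_nhds ht₀))
  refine ⟨O', fun t => Ring.inverse (g t), hO'o, ht', fun t ht => (hO's ht).2, fun t ht => ?_, ?_,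
    fun i => ?_⟩
  · have : IsUnit (g t) := (hO's ht).1
    exact Ring.mul_inverse_cancel _ this
  · change Ring.inverse (g t₀) = 1
    rw [h1, Ring.inverse_one]
  · have hd : DifferentiableOn ℂ (fun t => Ring.inverse (g t)) O' := by
      intro t ht
      have h2 : DifferentiableAt ℂ Ring.inverse (g t) := differentiableAt_inverse (hO's ht).1
      exact (h2.comp t (hgd.differentiableAt (hO.mem_nhds (hO's ht).2))).differentiableWithinAt
    have hl : Differentiable ℂ (LinearMap.toContinuousLinearMap (bas.coord i)) :=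
      ContinuousLinearMap.differentiable _
    exact hl.comp_differentiableOn hd

theorem cm1 {M : Type*} [CommMonoid M] (A t S I s r : M) :
    I * (t * s) * (A * (S * r)) = (S * I) * (A * (t * s * r)) := by ac_rfl

theorem cm2 {M : Type*} [CommMonoid M] (A t S I s r : M) :
    A * (t * S) * (I * (s * r)) = (S * I) * (A * (t * s * r)) := by ac_rfl

theorem cm3 {M : Type*} [CommMonoid M] (A I t s x y : M) :
    A * (I * (t * s) * (x * y)) = (A * I) * (t * x * (s * y)) := by ac_rfl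

end OneParamAux

variable {E G ι : Type*} [NormedAddCommGroup E] [NormedSpace ℂ E] [NormedAddCommGroup G]
  [NormedSpace ℂ G] [FiniteDimensional ℂ E] [FiniteDimensional ℂ G]

namespace Dat

variable (D : Dat E G ι)

theorem finiteDimensional_CC : FiniteDimensional ℂ D.CC := by
  obtain ⟨d, hd, -⟩ := exists_framed_Zc (D := D)
  exact (hd 0).1

/-- the element of the monoid given by an element of the algebra -/
def toZ {D : Dat E G ι} (c : D.CC) : D.ZEl := ⟨0, c.1, c.2⟩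

variable {D}

theorem toZ_mul (c c' : D.CC) : toZ (c * c') = toZ c * toZ c' := by
  apply ZEl.ext
  · rw [ZEl.mul_w]
    exact (add_zero (0 : G)).symm
  · rfl

theorem toZ_one : toZ (1 : D.CC) = 1 := rfl

theorem toZ_injective : Function.Injective (toZ (D := D)) := by
  intro c c' h
  have := congrArg ZEl.Φ h
  exact Subtype.ext this

theorem exists_toZ (X : D.ZEl) (h : X.w = 0) : ∃ c : D.CC, toZ c = X := by
  obtain ⟨w, Φ, hZ⟩ := X
  obtain rfl : w = 0 := h
  exact ⟨⟨Φ, hZ⟩, rfl⟩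

theorem pow_w (X : D.ZEl) (n : ℕ) : (X ^ n).w = n • X.w := by
  induction n with
  | zero => simp [ZEl.one_w]
  | succ n ih => rw [pow_succ, ZEl.mul_w, ih, succ_nsmul]

variable {V V' : Type*} [NormedAddCommGroup V] [NormedSpace ℂ V] [NormedAddCommGroup V']
  [NormedSpace ℂ V']

theorem HolFam.comp' {F : V → E → G → ℂ} {U : Set V} (h : HolFam F U) {φ : V' → V} {O : Set V'}
    (hφ : DifferentiableOn ℂ φ O) (hm : ∀ t ∈ O, φ t ∈ U) : HolFam (fun t => F (φ t)) O := by
  have h1 : DifferentiableOn ℂ (fun q : V' × (E × G) => (φ q.1, q.2)) (O ×ˢ Set.univ) :=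
    (hφ.comp differentiableOn_fst fun q hq => hq.1).prodMk differentiableOn_snd
  exact h.comp h1 fun q hq => ⟨hm _ hq.1, Set.mem_univ _⟩

theorem HolFam.mono' {F : V → E → G → ℂ} {U U' : Set V} (h : HolFam F U) (hs : U' ⊆ U) :
    HolFam F U' := DifferentiableOn.mono h (Set.prod_mono hs subset_rfl)

theorem HolFam.congr' {F F' : V → E → G → ℂ} {U : Set V} (h : HolFam F U)
    (hs : ∀ t ∈ U, F' t = F t) : HolFam F' U :=
  DifferentiableOn.congr h fun q hq => by rw [hs q.1 hq.1]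

theorem HolFam.lincomb {d : ℕ} {F : Fin d → V → E → G → ℂ} {U : Set V}
    (h : ∀ i, HolFam (F i) U) {α : Fin d → V → ℂ} (hα : ∀ i, DifferentiableOn ℂ (α i) U) :
    HolFam (fun t => ∑ i, α i t • F i t) U := by
  have h1 : DifferentiableOn ℂ (fun q : V × (E × G) => ∑ i, α i q.1 * F i q.1 q.2.1 q.2.2)
      (U ×ˢ Set.univ) := by
    apply DifferentiableOn.fun_sum
    intro i _
    exact ((hα i).comp differentiableOn_fst fun q hq => hq.1).mul (h i)
  refine h1.congr fun q hq => ?_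
  simp [Finset.sum_apply]

theorem holFam_const {w : G} {Φ : E → G → ℂ} (hΦ : D.IsH w Φ) (U : Set V) :
    HolFam (fun _ : V => Φ) U :=
  (hΦ.diff.comp differentiable_snd).differentiableOn

/-- holomorphic families of homogeneous central elements -/
def HZ (X : V → D.ZEl) (O : Set V) : Prop :=
  DifferentiableOn ℂ (fun t => (X t).w) O ∧ HolFam (fun t => (X t).Φ) O

theorem HZ.mul {X Y : V → D.ZEl} {O : Set V} (hO : IsOpen O) (hX : HZ X O) (hY : HZ Y O) :
    HZ (fun t => X t * Y t) O :=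
  ⟨hX.1.add hY.1, HolFam.cmp hO hY.1 (fun t _ => (X t).isZ.isH) (fun t _ => (Y t).isZ.isH)
    hX.2 hY.2⟩

theorem HZ.const (X : D.ZEl) (O : Set V) : HZ (fun _ : V => X) O :=
  ⟨differentiableOn_const _, holFam_const X.isZ.isH O⟩

theorem HZ.pow {X : V → D.ZEl} {O : Set V} (hO : IsOpen O) (hX : HZ X O) (n : ℕ) :
    HZ (fun t => X t ^ n) O := by
  induction n with
  | zero => simpa using HZ.const (D := D) 1 O
  | succ n ih => simpa [pow_succ] using ih.mul hO hX

theorem HZ.prod {κ : Type*} (s : Finset κ) {X : κ → V → D.ZEl} {O : Set V} (hO : IsOpen O)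
    (hX : ∀ k ∈ s, HZ (X k) O) : HZ (fun t => ∏ k ∈ s, X k t) O := by
  classical
  induction s using Finset.induction_on with
  | empty => simpa using HZ.const (D := D) 1 O
  | insert a s ha ih =>
    simp only [Finset.prod_insert ha]
    exact (hX a (Finset.mem_insert_self a s)).mul hO
      (ih fun k hk => hX k (Finset.mem_insert_of_mem hk))

theorem HZ.comp {X : V → D.ZEl} {U : Set V} (h : HZ X U) {φ : V' → V} {O : Set V'}
    (hφ : DifferentiableOn ℂ φ O) (hm : ∀ t ∈ O, φ t ∈ U) : HZ (fun t => X (φ t)) O :=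
  ⟨h.1.comp hφ hm, HolFam.comp' h.2 hφ hm⟩

theorem HZ.mono {X : V → D.ZEl} {U U' : Set V} (h : HZ X U) (hs : U' ⊆ U) : HZ X U' :=
  ⟨h.1.mono hs, HolFam.mono' h.2 hs⟩

theorem HZ.congr {X X' : V → D.ZEl} {U : Set V} (h : HZ X U) (hs : ∀ t ∈ U, X' t = X t) :
    HZ X' U :=
  ⟨h.1.congr fun t ht => by rw [hs t ht], HolFam.congr' h.2 fun t ht => by rw [hs t ht]⟩

/-- a family is holomorphic if it is so locally -/
theorem HZ.of_local {X : V → D.ZEl}
    (h : ∀ t, ∃ O : Set V, IsOpen O ∧ t ∈ O ∧ HZ X O) : HZ X Set.univ := by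
  constructor
  · intro t _
    obtain ⟨O, hO, ht, hX⟩ := h t
    exact (hX.1.differentiableAt (hO.mem_nhds ht)).differentiableWithinAt
  · rintro ⟨t, z⟩ _
    obtain ⟨O, hO, ht, hX⟩ := h t
    exact (DifferentiableOn.differentiableAt hX.2
      ((hO.prod isOpen_univ).mem_nhds ⟨ht, Set.mem_univ _⟩)).differentiableWithinAt

/-- the inclusion of the algebra in the space of functions -/
noncomputable def ccIncl (D : Dat E G ι) : D.CC →ₗ[ℂ] (E → G → ℂ) where
  toFun c := c.1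
  map_add' _ _ := rfl
  map_smul' _ _ := rfl

theorem ccIncl_injective : Function.Injective (ccIncl D) := fun _ _ h => Subtype.ext h

theorem coords_of_hol {d : ℕ} (bas : Module.Basis (Fin d) ℂ D.CC) {O : Set V} (hO : IsOpen O)
    {X : V → D.CC} (hX : HolFam (fun t => (X t).1) O) (i : Fin d) :
    DifferentiableOn ℂ (fun t => bas.repr (X t) i) O := by
  have hsum : ∀ c : D.CC, c.1 = ∑ i, bas.repr c i • (bas i).1 := by
    intro c
    have := congrArg (ccIncl D) (bas.sum_repr c)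
    rw [map_sum] at this
    simp only [map_smul] at this
    exact this.symm
  obtain ⟨α, hα, hαX⟩ := hol_coords (F := fun i _ => (bas i).1) isOpen_univ
    (fun i => holFam_const (bas i).2.isH Set.univ)
    (fun w _ => bas.linearIndependent.map' (ccIncl D)
      (LinearMap.ker_eq_bot.2 ccIncl_injective)) hO (w := fun _ => (0 : G))
    (fun _ _ => Set.mem_univ _) (differentiableOn_const _) hX (by
      intro t _
      rw [hsum (X t)]
      exact Submodule.sum_mem _ fun i _ => Submodule.smul_mem _ _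
        (Submodule.subset_span ⟨i, rfl⟩))
  refine (hα i).congr fun t ht => ?_
  have h1 : X t = ∑ j, α j t • bas j := by
    apply ccIncl_injective
    rw [map_sum]
    simp only [map_smul]
    exact hαX t ht
  rw [h1, bas.repr_sum_self]

theorem hol_of_coords {d : ℕ} (bas : Module.Basis (Fin d) ℂ D.CC) {O : Set V}
    {X : V → D.CC} (hX : ∀ i, DifferentiableOn ℂ (fun t => bas.repr (X t) i) O) :
    HZ (fun t => toZ (X t)) O := by
  refine ⟨differentiableOn_const _, ?_⟩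
  have h1 : HolFam (fun t => ∑ i, bas.repr (X t) i • (bas i).1) O :=
    HolFam.lincomb (F := fun i _ => (bas i).1) (fun i => holFam_const (bas i).2.isH O) hX
  refine HolFam.congr' h1 fun t _ => ?_
  have := congrArg (ccIncl D) (bas.sum_repr (X t))
  rw [map_sum] at this
  simp only [map_smul] at this
  exact this.symm

theorem HZ.exists_CC {X : V → D.ZEl} {O : Set V} (hX : HZ X O) (h0 : ∀ t ∈ O, (X t).w = 0) :
    ∃ Y : V → D.CC, (∀ t ∈ O, toZ (Y t) = X t) ∧ HolFam (fun t => (Y t).1) O := by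
  classical
  have h1 : ∀ t, ∃ c : D.CC, t ∈ O → toZ c = X t := by
    intro t
    by_cases ht : t ∈ O
    · obtain ⟨c, hc⟩ := exists_toZ (X t) (h0 t ht)
      exact ⟨c, fun _ => hc⟩
    · exact ⟨1, fun h => absurd h ht⟩
  choose Y hY using h1
  refine ⟨Y, hY, HolFam.congr' hX.2 fun t ht => ?_⟩
  rw [← hY t ht]
  rfl

theorem prod_w {κ : Type*} (s : Finset κ) (X : κ → D.ZEl) :
    (∏ k ∈ s, X k).w = ∑ k ∈ s, (X k).w := by
  classical
  induction s using Finset.induction_on with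
  | empty => simp [ZEl.one_w]
  | insert a s ha ih => rw [Finset.prod_insert ha, Finset.sum_insert ha, ZEl.mul_w, ih]

variable (D)

/-- a local holomorphic section through the unit -/
theorem exists_section : ∃ (U : Set G) (z : G → D.ZEl), IsOpen U ∧ (0 : G) ∈ U ∧ z 0 = 1 ∧
    (∀ w ∈ U, (z w).w = w) ∧ HolFam (fun w => (z w).Φ) U := by
  classical
  obtain ⟨d, hd, hF⟩ := exists_framed_Zc (D := D)
  obtain ⟨U, F, hU, h0, hhol, hFU⟩ := hF 0
  have : FiniteDimensional ℂ (D.Zc 0) := (hd 0).1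
  obtain ⟨α, hα⟩ : ∃ α : Fin d → ℂ, ∑ i, α i • F i 0 = D.one := by
    let f : Fin d → D.Zc 0 := fun i => ⟨F i 0, (hFU 0 h0).1 i⟩
    have hf : LinearIndependent ℂ f :=
      LinearIndependent.of_comp (D.Zc 0).subtype (hFU 0 h0).2
    have htop : Submodule.span ℂ (Set.range f) = ⊤ :=
      hf.span_eq_top_of_card_eq_finrank' (by rw [Fintype.card_fin, (hd 0).2])
    have h1 : (⟨D.one, isZ_one⟩ : D.Zc 0) ∈ Submodule.span ℂ (Set.range f) := by
      rw [htop]; trivial
    obtain ⟨α, hα⟩ := (Submodule.mem_span_range_iff_exists_fun ℂ).1 h1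
    refine ⟨α, ?_⟩
    have h2 := congrArg (D.Zc 0).subtype hα
    rw [map_sum] at h2
    simpa [f] using h2
  have hmem : ∀ w ∈ U, ∑ i, α i • F i w ∈ D.Zc w := fun w hw =>
    Submodule.sum_mem _ fun i _ => Submodule.smul_mem _ _ ((hFU w hw).1 i)
  refine ⟨U, fun w => if h : w ∈ U then ⟨w, ∑ i, α i • F i w, hmem w h⟩ else 1, hU, h0, ?_, ?_, ?_⟩
  · simp only [dif_pos h0]
    apply ZEl.ext
    · rfl
    · exact hα
  · intro w hw
    simp only [dif_pos hw]
  · have h1 : HolFam (fun w => ∑ i, α i • F i w) U :=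
      HolFam.lincomb (α := fun i _ => α i) hhol fun i => differentiableOn_const _
    refine HolFam.congr' h1 fun w hw => ?_
    simp only [dif_pos hw]

theorem one_param_local (e : G) : ∃ (δ : ℝ) (a : ℂ → D.ZEl), 0 < δ ∧ a 0 = 1 ∧
    (∀ t s : ℂ, ‖t‖ + ‖s‖ < δ → a (t + s) = a t * a s) ∧
    (∀ t ∈ ball (0 : ℂ) δ, (a t).w = t • e) ∧ HZ a (ball 0 δ) := by
  classical
  obtain ⟨U, z, hU, h0U, hz0, hzw, hzhol⟩ := exists_section D
  have hzH : HZ z U := ⟨differentiableOn_id.congr fun w hw => hzw w hw, hzhol⟩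
  obtain ⟨δ₀, hδ₀, hball₀⟩ : ∃ δ₀ > 0, ∀ t ∈ ball (0 : ℂ) δ₀, t • e ∈ U := by
    have hc : Continuous fun t : ℂ => t • e := by fun_prop
    have : (fun t : ℂ => t • e) ⁻¹' U ∈ 𝓝 (0 : ℂ) :=
      (hU.preimage hc).mem_nhds (by simpa using h0U)
    obtain ⟨δ₀, h1, h2⟩ := Metric.mem_nhds_iff.1 this
    exact ⟨δ₀, h1, fun t ht => h2 ht⟩
  set ζ : ℂ → D.ZEl := fun t => z (t • e) with hζ
  have hζ0 : ζ 0 = 1 := by simp [hζ, hz0]
  have hζw : ∀ t ∈ ball (0 : ℂ) δ₀, (ζ t).w = t • e := fun t ht => hzw _ (hball₀ t ht)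
  have hζH : HZ ζ (ball 0 δ₀) :=
    hzH.comp (φ := fun t : ℂ => t • e) (by fun_prop) hball₀
  have hneg : ∀ {r : ℝ}, ∀ t ∈ ball (0 : ℂ) r, -t ∈ ball (0 : ℂ) r := by
    intro r t ht
    simpa using ht
  have hfd : FiniteDimensional ℂ D.CC := finiteDimensional_CC D
  set bas := Module.finBasis ℂ D.CC with hbas
  -- local inverse
  have hζζ : HZ (fun t => ζ t * ζ (-t)) (ball 0 δ₀) :=
    hζH.mul isOpen_ball (hζH.comp (φ := fun t : ℂ => -t) (by fun_prop) hneg)
  obtain ⟨g, hg, hgH⟩ := hζζ.exists_CC (by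
    intro t ht
    rw [ZEl.mul_w, hζw t ht, hζw (-t) (hneg t ht)]
    simp)
  have hg0 : g 0 = 1 := by
    apply toZ_injective
    rw [hg 0 (mem_ball_self hδ₀), toZ_one, neg_zero, hζ0, mul_one]
  obtain ⟨O', g', hO', h0', hO's, hgg', hg'0, hg'H⟩ :=
    OneParamAux.local_inverse bas isOpen_ball g (coords_of_hol bas isOpen_ball hgH)
      (mem_ball_self hδ₀) hg0
  obtain ⟨δ₁, hδ₁, hball₁⟩ := Metric.mem_nhds_iff.1 (hO'.mem_nhds h0')
  have hball₁' : ball (0 : ℂ) δ₁ ⊆ ball 0 δ₀ := hball₁.trans hO's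
  obtain ⟨ζi, hζi⟩ : ∃ ζi : ℂ → D.ZEl, ∀ t, ζi t = ζ (-t) * toZ (g' t) := ⟨_, fun _ => rfl⟩
  have hinv : ∀ t ∈ ball (0 : ℂ) δ₁, ζ t * ζi t = 1 := by
    intro t ht
    rw [hζi, ← mul_assoc, ← hg t (hball₁' ht), ← toZ_mul, hgg' t (hball₁ ht), toZ_one]
  have hζiw : ∀ t ∈ ball (0 : ℂ) δ₁, (ζi t).w = -(t • e) := by
    intro t ht
    rw [hζi, ZEl.mul_w, hζw (-t) (hneg t (hball₁' ht)), neg_smul]
    exact add_zero _
  have hζiH : HZ ζi (ball 0 δ₁) := by
    have h1 : HZ (fun t => ζ (-t) * toZ (g' t)) (ball (0 : ℂ) δ₁) := by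
      refine HZ.mul isOpen_ball ?_ ?_
      · exact hζH.comp (φ := fun t : ℂ => -t) (by fun_prop) fun t ht => hneg t (hball₁' ht)
      · exact (hol_of_coords bas hg'H).mono hball₁
    exact h1.congr fun t _ => hζi t
  -- the cocycle
  have hδ₂ : 0 < δ₁ / 2 := by positivity
  have hsumball : ∀ t s : ℂ, ‖t‖ + ‖s‖ < δ₁ → t + s ∈ ball (0 : ℂ) δ₁ := by
    intro t s h
    rw [mem_ball_zero_iff]
    exact (norm_add_le _ _).trans_lt h
  set W : Set (ℂ × ℂ) := ball (0 : ℂ) (δ₁ / 2) ×ˢ ball (0 : ℂ) (δ₁ / 2) with hW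
  have hWo : IsOpen W := isOpen_ball.prod isOpen_ball
  have hsub : ball (0 : ℂ) (δ₁ / 2) ⊆ ball 0 δ₁ := ball_subset_ball (by linarith)
  have hWs : ∀ q ∈ W, q.1 + q.2 ∈ ball (0 : ℂ) δ₁ := by
    rintro ⟨t, s⟩ ⟨ht, hs⟩
    apply hsumball
    rw [mem_ball_zero_iff] at ht hs
    simp only at ht hs ⊢
    linarith
  have hXH : HZ (fun q : ℂ × ℂ => ζi (q.1 + q.2) * (ζ q.1 * ζ q.2)) W := by
    refine HZ.mul hWo ?_ (HZ.mul hWo ?_ ?_)
    · exact hζiH.comp (φ := fun q : ℂ × ℂ => q.1 + q.2) (by fun_prop) hWs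
    · exact hζH.comp (φ := fun q : ℂ × ℂ => q.1) (by fun_prop)
        fun q hq => hball₁' (hsub hq.1)
    · exact hζH.comp (φ := fun q : ℂ × ℂ => q.2) (by fun_prop)
        fun q hq => hball₁' (hsub hq.2)
  obtain ⟨b, hb, hbH⟩ := hXH.exists_CC (by
    intro q hq
    rw [ZEl.mul_w, ZEl.mul_w, hζiw _ (hWs q hq), hζw _ (hball₁' (hsub hq.1)),
      hζw _ (hball₁' (hsub hq.2)), ← add_smul, neg_add_cancel])
  have hb1 : ∀ t ∈ ball (0 : ℂ) (δ₁ / 2), b (t, 0) = 1 := by
    intro t ht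
    apply toZ_injective
    rw [hb (t, 0) ⟨ht, mem_ball_self hδ₂⟩, toZ_one]
    simp only [add_zero, hζ0, mul_one]
    rw [mul_comm, hinv t (hsub ht)]
  have hb2 : ∀ t ∈ ball (0 : ℂ) (δ₁ / 2), b (0, t) = 1 := by
    intro t ht
    apply toZ_injective
    rw [hb (0, t) ⟨mem_ball_self hδ₂, ht⟩, toZ_one]
    simp only [zero_add, hζ0, one_mul]
    rw [mul_comm, hinv t (hsub ht)]
  have hcoc : ∀ t s r : ℂ, ‖t‖ + ‖s‖ + ‖r‖ < δ₁ / 2 →
      b (t, s) * b (t + s, r) = b (t, s + r) * b (s, r) := by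
    intro t s r h
    have nt := norm_nonneg t
    have ns := norm_nonneg s
    have nr := norm_nonneg r
    have n1 := norm_add_le t s
    have n2 := norm_add_le s r
    have n3 := norm_add_le (t + s) r
    have mt : t ∈ ball (0 : ℂ) (δ₁ / 2) := by rw [mem_ball_zero_iff]; linarith
    have ms : s ∈ ball (0 : ℂ) (δ₁ / 2) := by rw [mem_ball_zero_iff]; linarith
    have mr : r ∈ ball (0 : ℂ) (δ₁ / 2) := by rw [mem_ball_zero_iff]; linarith
    have mts : t + s ∈ ball (0 : ℂ) (δ₁ / 2) := by rw [mem_ball_zero_iff]; linarith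
    have msr : s + r ∈ ball (0 : ℂ) (δ₁ / 2) := by rw [mem_ball_zero_iff]; linarith
    apply toZ_injective
    rw [toZ_mul, toZ_mul, hb (t, s) ⟨mt, ms⟩, hb (t + s, r) ⟨mts, mr⟩, hb (t, s + r) ⟨mt, msr⟩,
      hb (s, r) ⟨ms, mr⟩]
    simp only
    have e1 := hinv (t + s) (hsub mts)
    have e2 := hinv (s + r) (hsub msr)
    have k1 : ζi (t + s) * (ζ t * ζ s) * (ζi (t + s + r) * (ζ (t + s) * ζ r)) =
        (ζ (t + s) * ζi (t + s)) * (ζi (t + s + r) * (ζ t * ζ s * ζ r)) :=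
      OneParamAux.cm1 _ _ _ _ _ _
    have k2 : ζi (t + (s + r)) * (ζ t * ζ (s + r)) * (ζi (s + r) * (ζ s * ζ r)) =
        (ζ (s + r) * ζi (s + r)) * (ζi (t + s + r) * (ζ t * ζ s * ζ r)) := by
      rw [← add_assoc t s r]
      exact OneParamAux.cm2 _ _ _ _ _ _
    rw [k1, k2, e1, e2]
  obtain ⟨δ', u, hδ', hu0, -, huH, hu⟩ := coboundary bas hδ₂ (fun t s => b (t, s))
    (coords_of_hol bas hWo hbH) hb1 hb2 hcoc
  refine ⟨min δ' (δ₁ / 2), fun t => ζ t * toZ (u t), lt_min hδ' hδ₂, ?_, ?_, ?_, ?_⟩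
  · simp only
    rw [hζ0, hu0, toZ_one, mul_one]
  · intro t s h
    have hd' : ‖t‖ + ‖s‖ < δ' := h.trans_le (min_le_left _ _)
    have hd'' : ‖t‖ + ‖s‖ < δ₁ / 2 := h.trans_le (min_le_right _ _)
    have nt := norm_nonneg t
    have ns := norm_nonneg s
    have n1 := norm_add_le t s
    have mt : t ∈ ball (0 : ℂ) (δ₁ / 2) := by rw [mem_ball_zero_iff]; linarith
    have ms : s ∈ ball (0 : ℂ) (δ₁ / 2) := by rw [mem_ball_zero_iff]; linarith
    have mts : t + s ∈ ball (0 : ℂ) (δ₁ / 2) := by rw [mem_ball_zero_iff]; linarith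
    simp only
    rw [← hu t s hd', toZ_mul, toZ_mul, hb (t, s) ⟨mt, ms⟩]
    simp only
    have k1 : ζ (t + s) * (ζi (t + s) * (ζ t * ζ s) * (toZ (u t) * toZ (u s))) =
      (ζ (t + s) * ζi (t + s)) * (ζ t * toZ (u t) * (ζ s * toZ (u s))) :=
      OneParamAux.cm3 _ _ _ _ _ _
    rw [k1, hinv _ (hsub mts), one_mul]
  · intro t ht
    simp only
    rw [ZEl.mul_w, hζw t (hball₁' (hsub (ball_subset_ball (min_le_right _ _) ht)))]
    exact add_zero _
  · refine HZ.mul isOpen_ball ?_ ?_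
    · exact hζH.mono fun t ht => hball₁' (hsub (ball_subset_ball (min_le_right _ _) ht))
    · exact (hol_of_coords bas huH).mono (ball_subset_ball (min_le_left _ _))

/-- one-parameter groups in every direction -/
theorem one_param (e : G) : ∃ a : ℂ → D.ZEl, a 0 = 1 ∧ (∀ t s, a (t + s) = a t * a s) ∧
    (∀ t, (a t).w = t • e) ∧ HolFam (fun t => (a t).Φ) Set.univ := by
  classical
  obtain ⟨δ, a, hδ, ha0, hadd, haw, haH⟩ := one_param_local D e
  have hnorm : ∀ (t : ℂ) (k : ℕ), ‖t / 2 ^ k‖ = ‖t‖ / 2 ^ k := by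
    intro t k
    rw [norm_div, norm_pow]
    simp
  have hex : ∀ x : ℝ, ∃ k : ℕ, x / 2 ^ k < δ := by
    intro x
    obtain ⟨k, hk⟩ := pow_unbounded_of_one_lt (x / δ) (one_lt_two : (1 : ℝ) < 2)
    refine ⟨k, ?_⟩
    rw [div_lt_iff₀ (by positivity)]
    rw [div_lt_iff₀ hδ] at hk
    linarith
  have hstep : ∀ (t : ℂ) (k n : ℕ), ‖t‖ / 2 ^ k < δ → k ≤ n →
      a (t / 2 ^ n) ^ (2 ^ n) = a (t / 2 ^ k) ^ (2 ^ k) := by
    intro t k n hk hkn
    induction n, hkn using Nat.le_induction with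
    | base => rfl
    | succ n hn ih =>
      rw [← ih]
      have h1 : ‖t‖ / 2 ^ n < δ := by
        refine lt_of_le_of_lt ?_ hk
        gcongr
        norm_num
      have h2 : t / 2 ^ (n + 1) + t / 2 ^ (n + 1) = t / 2 ^ n := by
        rw [pow_succ]; field_simp; ring
      have h3 : ‖t / 2 ^ (n + 1)‖ + ‖t / 2 ^ (n + 1)‖ < δ := by
        rw [hnorm]
        have : ‖t‖ / 2 ^ (n + 1) + ‖t‖ / 2 ^ (n + 1) = ‖t‖ / 2 ^ n := by
          rw [pow_succ]; field_simp; ring
        rw [this]; exact h1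
      have h4 := hadd _ _ h3
      rw [h2] at h4
      rw [h4, pow_succ (2 : ℕ) n, mul_comm (2 ^ n) 2, pow_mul, pow_two]
  choose κ hκ using fun t : ℂ => hex ‖t‖
  set A : ℂ → D.ZEl := fun t => a (t / 2 ^ κ t) ^ (2 ^ κ t) with hAdef
  have hA : ∀ (t : ℂ) (n : ℕ), ‖t‖ / 2 ^ n < δ → A t = a (t / 2 ^ n) ^ (2 ^ n) := by
    intro t n hn
    rw [hAdef]
    simp only
    rw [← hstep t (κ t) (max (κ t) n) (hκ t) (le_max_left _ _),
      ← hstep t n (max (κ t) n) hn (le_max_right _ _)]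
  have hAH : HZ A Set.univ := by
    refine HZ.of_local fun t₀ => ?_
    obtain ⟨n, hn⟩ := hex ‖t₀‖
    refine ⟨{t : ℂ | ‖t‖ / 2 ^ n < δ}, ?_, hn, ?_⟩
    · exact isOpen_lt (by fun_prop) continuous_const
    · have ho : IsOpen {t : ℂ | ‖t‖ / 2 ^ n < δ} := isOpen_lt (by fun_prop) continuous_const
      have h1 : HZ (fun t : ℂ => a (t / 2 ^ n)) {t : ℂ | ‖t‖ / 2 ^ n < δ} :=
        haH.comp (φ := fun t : ℂ => t / 2 ^ n) (by fun_prop) fun t ht => by
          rw [mem_ball_zero_iff, hnorm]; exact ht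
      exact (h1.pow ho (2 ^ n)).congr fun t ht => hA t n ht
  refine ⟨A, ?_, ?_, ?_, hAH.2⟩
  · rw [hA 0 0 (by simpa using hδ)]
    simp [ha0]
  · intro t s
    obtain ⟨n, hn⟩ := hex (‖t‖ + ‖s‖)
    have p2 : (0 : ℝ) < 2 ^ n := by positivity
    have nt := norm_nonneg t
    have ns := norm_nonneg s
    have ht : ‖t‖ / 2 ^ n < δ := lt_of_le_of_lt (by gcongr; linarith) hn
    have hs : ‖s‖ / 2 ^ n < δ := lt_of_le_of_lt (by gcongr; linarith) hn
    have hts : ‖t + s‖ / 2 ^ n < δ :=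
      lt_of_le_of_lt (by gcongr; exact norm_add_le _ _) hn
    rw [hA _ n hts, hA _ n ht, hA _ n hs, ← mul_pow, ← hadd, add_div]
    rw [hnorm, hnorm, ← add_div]
    exact hn
  · intro t
    have h1 := haw (t / 2 ^ κ t) (by rw [mem_ball_zero_iff, hnorm]; exact hκ t)
    change (a (t / 2 ^ κ t) ^ (2 ^ κ t)).w = t • e
    rw [pow_w, h1, ← Nat.cast_smul_eq_nsmul ℂ, smul_smul]
    congr 1
    push_cast
    field_simp

/-- the flat family -/
theorem exists_flat : ∃ A : G → D.ZEl, A 0 = 1 ∧ (∀ w w', A (w + w') = A w * A w') ∧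
    (∀ w, (A w).w = w) ∧ HolFam (fun w => (A w).Φ) Set.univ := by
  classical
  set bas := Module.finBasis ℂ G with hbas
  choose a ha0 hadd haw haH using fun i => one_param D (bas i)
  have haH' : ∀ i, HZ (a i) Set.univ := fun i =>
    ⟨DifferentiableOn.congr (f := fun t : ℂ => t • bas i) (by fun_prop) fun t _ => haw i t, haH i⟩
  have hc : ∀ i, Differentiable ℂ fun w : G => bas.repr w i := fun i =>
    ContinuousLinearMap.differentiable (LinearMap.toContinuousLinearMap (bas.coord i))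
  have hH : HZ (fun w : G => ∏ i, a i (bas.repr w i)) Set.univ :=
    HZ.prod Finset.univ isOpen_univ fun i _ =>
      (haH' i).comp (φ := fun w : G => bas.repr w i) (hc i).differentiableOn
        fun _ _ => Set.mem_univ _
  refine ⟨fun w => ∏ i, a i (bas.repr w i), ?_, ?_, ?_, hH.2⟩
  · simp [ha0]
  · intro w w'
    simp only [map_add, Finsupp.add_apply, hadd, Finset.prod_mul_distrib]
  · intro w
    simp only
    rw [prod_w]
    simp only [haw]
    exact bas.sum_repr w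

end Dat

end Pool.Agent.Lib.MP_db21fa_an.TF
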