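import Pool.Agent.Lib.MP_db21fa_an.TF.GradOps
import Pool.Agent.Lib.MP_db21fa_an.TF.Frame

/-!
Module S5: the spaces `H w` are presented.
-/

set_option autoImplicit false
set_option linter.unusedSectionVars false

open Filter Topology Metric

namespace Pool.Agent.Lib.MP_db21fa_an.TF

variable {E G ι : Type*} [NormedAddCommGroup E] [NormedSpace ℂ E] [NormedAddCommGroup G]
  [NormedSpace ℂ G]

namespace PresAux

/-! ### matrices depending on parameters -/

variable {V : Type*} [NormedAddCommGroup V] [NormedSpace ℂ V]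

theorem prod_diffAt {κ : Type*} {f : κ → V → ℂ} {q : V} (s : Finset κ)
    (h : ∀ i, DifferentiableAt ℂ (f i) q) : DifferentiableAt ℂ (fun v => ∏ i ∈ s, f i v) q := by
  classical
  induction s using Finset.induction_on with
  | empty => simp
  | insert a s ha ih =>
    simp only [Finset.prod_insert ha]
    exact (h a).mul ih

theorem det_diffAt {n : ℕ} {Mx : V → Matrix (Fin n) (Fin n) ℂ} {q : V}
    (h : ∀ i j, DifferentiableAt ℂ (fun v => Mx v i j) q) :
    DifferentiableAt ℂ (fun v => (Mx v).det) q := by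
  simp only [Matrix.det_apply]
  refine DifferentiableAt.fun_sum fun σ _ => ?_
  refine DifferentiableAt.const_smul ?_ _
  exact prod_diffAt _ fun i => h _ _

theorem inv_diffAt {n : ℕ} {Mx : V → Matrix (Fin n) (Fin n) ℂ} {q : V}
    (h : ∀ i j, DifferentiableAt ℂ (fun v => Mx v i j) q) (hd : (Mx q).det ≠ 0) (i j : Fin n) :
    DifferentiableAt ℂ (fun v => (Mx v)⁻¹ i j) q := by
  have e : (fun v => (Mx v)⁻¹ i j) = fun v => ((Mx v).det)⁻¹ * (Mx v).adjugate i j := by
    funext v
    rw [Matrix.inv_def, Ring.inverse_eq_inv', Matrix.smul_apply, smul_eq_mul]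
  rw [e]
  refine DifferentiableAt.mul ((differentiableAt_inv hd).comp q (det_diffAt h)) ?_
  simp only [Matrix.adjugate_apply]
  refine det_diffAt fun i' j' => ?_
  simp only [Matrix.updateRow_apply]
  split_ifs with hij
  · exact differentiableAt_const _
  · exact h i' j'

theorem holFam_const {Φ : E → G → ℂ} (h : HolFam (fun _ : ℂ => Φ) Set.univ) :
    Differentiable ℂ (fun q : E × G => Φ q.1 q.2) := by
  unfold HolFam at h
  rw [Set.univ_prod_univ] at h
  have h2 : Differentiable ℂ (fun p : ℂ × (E × G) => Φ p.2.1 p.2.2) := differentiableOn_univ.1 h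
  exact h2.comp ((differentiable_const (0 : ℂ)).prodMk differentiable_id)

/-! ### propagation of row conditions -/

/-- a row condition at `u = 0` propagates to all `u` -/
theorem row_all {D : Dat E G ι} {N : ℕ} {T K' : G → E → E → ℂ}
    (hT : ∀ x y, Differentiable ℂ (fun u => T u x y))
    (hK : ∀ x y, Differentiable ℂ (fun u => K' u x y))
    (hr : ∀ u, RankEq (K' u) N)
    (hTs : ∀ u t x y, T u (x + t) (y + t) = T (u + D.v t + D.v t) x y)
    (hKs : ∀ u t x y, K' u (x + t) (y + t) = K' (u + D.v t + D.v t) x y)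
    (hTp : ∀ (i : ι) (u : G), ∃ (α β : E → ℂ), (∀ x, α x ≠ 0) ∧ (∀ y, β y ≠ 0) ∧
      ∃ α' : E → ℂ, (∀ x, α' x ≠ 0) ∧ (∀ x y, T (u + D.ω i) x y = α x * β y * T u x y) ∧
      ∀ x y, K' (u + D.ω i) x y = α' x * β y * K' u x y)
    (h0 : ∀ x, T 0 x ∈ rowSp (K' 0)) : ∀ u x, T u x ∈ rowSp (K' u) := by
  have hA : {u : G | ∀ x, T u x ∈ rowSp (K' u)} = Set.univ := by
    refine D.Z _ ?_ ⟨0, h0⟩ ?_ ?_
    · -- analytic
      intro u₀
      obtain ⟨a, b, hd⟩ := (hr u₀).exists_minor
      have hmd : ∀ u i j, DifferentiableAt ℂ (fun u => mm (K' u) a b i j) u :=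
        fun u i j => hK (a i) (b j) u
      have hdc : Continuous (fun u => (mm (K' u) a b).det) :=
        continuous_iff_continuousAt.2 fun u => (det_diffAt (hmd u)).continuousAt
      refine ⟨{u | (mm (K' u) a b).det ≠ 0}, isOpen_ne_fun hdc continuous_const, hd,
        {f | ∃ x y, f = fun u => T u x y -
          ∑ i, ∑ j, T u x (b j) * (mm (K' u) a b)⁻¹ j i * K' u (a i) y}, ?_, ?_⟩
      · rintro f ⟨x, y, rfl⟩ u hu
        refine DifferentiableAt.differentiableWithinAt ?_
        refine DifferentiableAt.sub (hT x y u) ?_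
        refine DifferentiableAt.fun_sum fun i _ => DifferentiableAt.fun_sum fun j _ => ?_
        exact ((hT x (b j) u).mul (inv_diffAt (hmd u) hu j i)).mul (hK (a i) y u)
      · intro u hu
        constructor
        · rintro h f ⟨x, y, rfl⟩
          have := (mem_rowSp_iff (hr u).1 hu (T u x)).1 (h x) y
          show T u x y - _ = 0
          rw [← this, sub_self]
        · intro h x
          refine (mem_rowSp_iff (hr u).1 hu (T u x)).2 (fun y => ?_)
          exact sub_eq_zero.1 (h _ ⟨x, y, rfl⟩)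
    · -- translations
      intro u hu t'
      set t : E := (2 : ℂ)⁻¹ • t' with ht
      have h2 : (2 : ℂ)⁻¹ + (2 : ℂ)⁻¹ = 1 := by norm_num
      have htt : u + D.v t' = u + D.v t + D.v t := by
        have : D.v t' = D.v t + D.v t := by
          rw [ht, map_smul, ← add_smul, h2, one_smul]
        rw [this, add_assoc]
      intro x
      have hx := hu (x + t)
      -- the shift map on functions of `y`
      let σ : (E → ℂ) →ₗ[ℂ] (E → ℂ) :=
        { toFun := fun f y => f (y + t)
          map_add' := fun _ _ => rfl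
          map_smul' := fun _ _ => rfl }
      have h3 : σ (T u (x + t)) = T (u + D.v t') x := by
        funext y
        show T u (x + t) (y + t) = _
        rw [hTs, ← htt]
      rw [← h3]
      have h4 : Submodule.map σ (rowSp (K' u)) ≤ rowSp (K' (u + D.v t')) := by
        unfold rowSp
        rw [Submodule.map_span, Submodule.span_le]
        rintro _ ⟨_, ⟨x', rfl⟩, rfl⟩
        have : σ (K' u x') = K' (u + D.v t') (x' - t) := by
          funext y
          show K' u x' (y + t) = _
          rw [htt, ← hKs, sub_add_cancel]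
        rw [this]
        exact Submodule.subset_span ⟨_, rfl⟩
      exact h4 (Submodule.mem_map_of_mem hx)
    · -- periods
      rintro u hu _ ⟨i, rfl⟩
      constructor
      · obtain ⟨α, β, hα, hβ, α', hα', h1, h2⟩ := hTp i u
        intro x
        let σ : (E → ℂ) →ₗ[ℂ] (E → ℂ) :=
          { toFun := fun f y => β y * f y
            map_add' := fun f g => by funext y; exact mul_add _ _ _
            map_smul' := fun c f => by
              funext y
              show β y * (c * f y) = c * (β y * f y)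
              ring }
        have h3 : T (u + D.ω i) x = α x • σ (T u x) := by
          funext y
          rw [h1]
          show α x * β y * T u x y = α x * (β y * T u x y)
          ring
        rw [h3]
        refine Submodule.smul_mem _ _ ?_
        have h4 : Submodule.map σ (rowSp (K' u)) ≤ rowSp (K' (u + D.ω i)) := by
          unfold rowSp
          rw [Submodule.map_span, Submodule.span_le]
          rintro _ ⟨_, ⟨x', rfl⟩, rfl⟩
          have : σ (K' u x') = (α' x')⁻¹ • K' (u + D.ω i) x' := by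
            funext y
            show β y * K' u x' y = (α' x')⁻¹ * K' (u + D.ω i) x' y
            rw [h2]
            field_simp [hα' x']
          rw [this]
          exact Submodule.smul_mem _ _ (Submodule.subset_span ⟨_, rfl⟩)
        exact h4 (Submodule.mem_map_of_mem (hu x))
      · obtain ⟨α, β, hα, hβ, α', hα', h1, h2⟩ := hTp i (u - D.ω i)
        rw [sub_add_cancel] at h1 h2
        intro x
        let σ : (E → ℂ) →ₗ[ℂ] (E → ℂ) :=
          { toFun := fun f y => (β y)⁻¹ * f y
            map_add' := fun f g => by funext y; exact mul_add _ _ _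
            map_smul' := fun c f => by
              funext y
              show (β y)⁻¹ * (c * f y) = c * ((β y)⁻¹ * f y)
              ring }
        have h3 : T (u - D.ω i) x = (α x)⁻¹ • σ (T u x) := by
          funext y
          show T (u - D.ω i) x y = (α x)⁻¹ * ((β y)⁻¹ * T u x y)
          rw [h1]
          field_simp [hα x, hβ y]
        rw [h3]
        refine Submodule.smul_mem _ _ ?_
        have h4 : Submodule.map σ (rowSp (K' u)) ≤ rowSp (K' (u - D.ω i)) := by
          unfold rowSp
          rw [Submodule.map_span, Submodule.span_le]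
          rintro _ ⟨_, ⟨x', rfl⟩, rfl⟩
          have : σ (K' u x') = α' x' • K' (u - D.ω i) x' := by
            funext y
            show (β y)⁻¹ * K' u x' y = α' x' * K' (u - D.ω i) x' y
            rw [h2]
            field_simp [hβ y]
          rw [this]
          exact Submodule.smul_mem _ _ (Submodule.subset_span ⟨_, rfl⟩)
        exact h4 (Submodule.mem_map_of_mem (hu x))
  intro u x
  have : u ∈ {u : G | ∀ x, T u x ∈ rowSp (K' u)} := by rw [hA]; exact Set.mem_univ _
  exact this x

end PresAux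

open PresAux

namespace Dat

variable (D : Dat E G ι)

theorem K_diff (x y : E) : Differentiable ℂ (fun u => D.K u x y) := by
  unfold K
  exact (D.hp.comp (differentiable_id.const_add _)).const_mul _

/-- membership in `H w` from the conditions at `u = 0` -/
theorem isH_of_zero {w : G} {Φ : E → G → ℂ}
    (hdiff : Differentiable ℂ (fun q : E × G => Φ q.1 q.2))
    (hper : ∀ i z g, Φ z (g + D.ω i) = Complex.exp (D.l i (g + w) + D.c i) * Φ z g)
    (hrow : ∀ x, D.KF Φ 0 x ∈ rowSp (D.K 0))
    (hcol : ∀ y, (fun x => D.KF Φ 0 x y) ∈ colSp (D.K (0 + w + w))) : D.IsH w Φ := by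
  have hKF : ∀ x y, Differentiable ℂ (fun u => D.KF Φ u x y) := fun x y =>
    hdiff.comp ((differentiable_const (x - y)).prodMk (differentiable_id.const_add _))
  have hKFp : ∀ i u x y, D.KF Φ (u + D.ω i) x y =
      Complex.exp (D.l i (D.v x)) * Complex.exp (D.l i (D.v y)) *
        (Complex.exp (D.l i u + D.l i w + D.c i) * D.KF Φ u x y) := by
    intro i u x y
    show Φ (x - y) (D.v (x + y) + (u + D.ω i)) = _ * (_ * Φ (x - y) (D.v (x + y) + u))
    rw [← add_assoc, hper, ← mul_assoc, ← Complex.exp_add, ← Complex.exp_add]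
    congr 2
    simp only [map_add]
    ring
  refine ⟨hdiff, hper, ?_, ?_⟩
  · refine row_all (D := D) (N := D.N) (T := D.KF Φ) (K' := D.K) hKF D.K_diff D.rankEq
      (fun u t x y => D.KF_shift Φ u t x y) (fun u t x y => D.K_shift u t x y) ?_ hrow
    intro i u
    refine ⟨fun x => Complex.exp (D.l i (D.v x)) * Complex.exp (D.l i u + D.l i w + D.c i),
      fun y => Complex.exp (D.l i (D.v y)), fun x => mul_ne_zero (Complex.exp_ne_zero _)
        (Complex.exp_ne_zero _), fun y => Complex.exp_ne_zero _,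
      fun x => Complex.exp (D.l i (D.v x)) * Complex.exp (D.l i u + D.c i),
      fun x => mul_ne_zero (Complex.exp_ne_zero _) (Complex.exp_ne_zero _), ?_, ?_⟩
    · intro x y
      rw [hKFp]; ring
    · intro x y
      rw [D.K_per]; ring
  · have hkey := row_all (D := D) (N := D.N) (T := fun u y x => D.KF Φ u x y)
      (K' := fun u y x => D.K (u + w + w) x y) (fun y x => hKF x y)
      (fun y x => (D.K_diff x y).comp ((differentiable_id.add_const w).add_const w))
      (fun u => ?_) (fun u t y x => D.KF_shift Φ u t x y) (fun u t y x => ?_) ?_ (fun y => hcol y)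
    · intro u y
      exact hkey u y
    · have h := D.rankEq (u + w + w)
      exact ⟨h.1.swap, fun n hn => h.2 n hn.swap⟩
    · show D.K (u + w + w) (x + t) (y + t) = D.K (u + D.v t + D.v t + w + w) x y
      rw [D.K_shift]
      congr 1
      abel
    · intro i u
      refine ⟨fun y => Complex.exp (D.l i (D.v y)) * Complex.exp (D.l i u + D.l i w + D.c i),
        fun x => Complex.exp (D.l i (D.v x)), fun x => mul_ne_zero (Complex.exp_ne_zero _)
          (Complex.exp_ne_zero _), fun y => Complex.exp_ne_zero _,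
        fun y => Complex.exp (D.l i (D.v y)) * Complex.exp (D.l i (u + w + w) + D.c i),
        fun x => mul_ne_zero (Complex.exp_ne_zero _) (Complex.exp_ne_zero _), ?_, ?_⟩
      · intro y x
        show D.KF Φ (u + D.ω i) x y = _ * D.KF Φ u x y
        rw [hKFp]; ring
      · intro y x
        show D.K (u + D.ω i + w + w) x y = _ * D.K (u + w + w) x y
        have e : u + D.ω i + w + w = (u + w + w) + D.ω i := by abel
        rw [e, D.K_per]; ring

/-! ### the presentation -/

section pres

variable {N : ℕ} {r : ℕ}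

/-- the kernels `S_A` -/
noncomputable def SA (w : G) (b a' : Fin N → E) (A : Fin (N * N) → ℂ) (x y : E) : ℂ :=
  ∑ j, ∑ i, D.K (0 + w + w) x (b j) * A (finProdFinEquiv (j, i)) * D.K 0 (a' i) y

theorem SA_add (w : G) (b a' : Fin N → E) (A A' : Fin (N * N) → ℂ) (x y : E) :
    D.SA w b a' (A + A') x y = D.SA w b a' A x y + D.SA w b a' A' x y := by
  unfold SA
  rw [← Finset.sum_add_distrib]
  refine Finset.sum_congr rfl fun j _ => ?_
  rw [← Finset.sum_add_distrib]
  refine Finset.sum_congr rfl fun i _ => ?_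
  rw [Pi.add_apply]; ring

theorem SA_smul (w : G) (b a' : Fin N → E) (s : ℂ) (A : Fin (N * N) → ℂ) (x y : E) :
    D.SA w b a' (s • A) x y = s * D.SA w b a' A x y := by
  unfold SA
  rw [Finset.mul_sum]
  refine Finset.sum_congr rfl fun j _ => ?_
  rw [Finset.mul_sum]
  refine Finset.sum_congr rfl fun i _ => ?_
  rw [Pi.smul_apply, smul_eq_mul]; ring

/-- the matrices of theta functions -/
def QM (q : Fin r → G → ℂ) {n : ℕ} (w : G) (z : E) (t : Fin n → E) : Matrix (Fin n) (Fin r) ℂ :=
  Matrix.of fun i j => q j (D.v z + D.v (t i) + D.v (t i) + w)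

/-- the bordered matrix with last column zero -/
noncomputable def BM (q : Fin r → G → ℂ) (w : G) (z : E) (t : Fin (r + 1) → E) :
    Matrix (Fin (r + 1)) (Fin (r + 1)) ℂ :=
  Matrix.of fun i (j : Fin (r + 1)) =>
    (Fin.snoc (fun j => q j (D.v z + D.v (t i) + D.v (t i) + w)) 0 : Fin (r + 1) → ℂ) j

/-- the functionals -/
noncomputable def LF (q : Fin r → G → ℂ) (b a' : Fin N → E) (z : E) (t : Fin (r + 1) → E) (w : G) :
    (Fin (N * N) → ℂ) →ₗ[ℂ] ℂ where
  toFun A := ((D.BM q w z t).updateCol (Fin.last r)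
    (fun i => D.SA w b a' A (z + t i) (t i))).det
  map_add' A A' := by
    have : (fun i => D.SA w b a' (A + A') (z + t i) (t i)) =
        (fun i => D.SA w b a' A (z + t i) (t i)) + fun i => D.SA w b a' A' (z + t i) (t i) := by
      funext i; exact D.SA_add _ _ _ _ _ _ _
    rw [this, Matrix.det_updateCol_add]
  map_smul' s A := by
    have : (fun i => D.SA w b a' (s • A) (z + t i) (t i)) =
        s • (fun i => D.SA w b a' A (z + t i) (t i)) := by
      funext i; exact D.SA_smul _ _ _ _ _ _ _
    rw [this, Matrix.det_updateCol_smul]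
    rfl

theorem LF_eq (q : Fin r → G → ℂ) (b a' : Fin N → E) (z : E) (t : Fin (r + 1) → E) (w : G)
    (A : Fin (N * N) → ℂ) : D.LF q b a' z t w A = (Matrix.of fun i (j : Fin (r + 1)) =>
      (Fin.snoc (fun j => q j (D.v z + D.v (t i) + D.v (t i) + w))
        (D.SA w b a' A (z + t i) (t i)) : Fin (r + 1) → ℂ) j).det := by
  show ((D.BM q w z t).updateCol (Fin.last r)
    (fun i => D.SA w b a' A (z + t i) (t i))).det = _
  congr 1
  ext i j
  rw [Matrix.updateCol_apply]
  refine Fin.lastCases ?_ (fun j => ?_) j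
  · simp
  · simp [BM, (Fin.castSucc_lt_last j).ne]

/-- the coefficients -/
noncomputable def kap (q : Fin r → G → ℂ) (b a' : Fin N → E) (w : G) (A : Fin (N * N) → ℂ) (z : E)
    (t : Fin r → E) (j : Fin r) : ℂ :=
  ∑ i, (D.QM q w z t)⁻¹ j i * D.SA w b a' A (z + t i) (t i)

/-- all functionals vanish: the coefficients represent `S_A` -/
theorem kap_spec {q : Fin r → G → ℂ} {b a' : Fin N → E} {w : G} {A : Fin (N * N) → ℂ}
    (hA : ∀ z t, D.LF q b a' z t w A = 0) {z : E} {t : Fin r → E}
    (ht : (D.QM q w z t).det ≠ 0) (s : E) :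
    D.SA w b a' A (z + s) s =
      ∑ j, q j (D.v z + D.v s + D.v s + w) * D.kap q b a' w A z t j := by
  have h := eq_of_bordered (T := E) (fun j s => q j (D.v z + D.v s + D.v s + w))
    (fun s => D.SA w b a' A (z + s) s) (fun t' => by
      have := hA z t'
      rw [D.LF_eq] at this
      exact this) (t := t) ht s
  rw [h]
  refine Finset.sum_congr rfl fun j _ => ?_
  unfold kap
  rw [Finset.mul_sum]
  refine Finset.sum_congr rfl fun i _ => ?_
  show _ * (D.QM q w z t)⁻¹ j i * _ = _
  ring

/-- the coefficients do not depend on the points -/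
theorem kap_unique {q : Fin r → G → ℂ} {w : G} {z : E} {t : Fin r → E}
    (ht : (D.QM q w z t).det ≠ 0) {κ κ' : Fin r → ℂ}
    (h : ∀ s, ∑ j, q j (D.v z + D.v s + D.v s + w) * κ j =
      ∑ j, q j (D.v z + D.v s + D.v s + w) * κ' j) : κ = κ' := by
  have h1 : (D.QM q w z t).mulVec κ = (D.QM q w z t).mulVec κ' := by
    funext i
    exact h (t i)
  have hinv : (D.QM q w z t)⁻¹ * (D.QM q w z t) = 1 :=
    Matrix.nonsing_inv_mul _ (isUnit_iff_ne_zero.2 ht)
  have h2 := congrArg (fun v => (D.QM q w z t)⁻¹.mulVec v) h1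
  simpa only [Matrix.mulVec_mulVec, hinv, Matrix.one_mulVec] using h2

theorem kap_lin (q : Fin r → G → ℂ) (b a' : Fin N → E) (w : G) (s : ℂ) (A A' : Fin (N * N) → ℂ)
    (z : E) (t : Fin r → E) (j : Fin r) : D.kap q b a' w (s • A + A') z t j =
      s * D.kap q b a' w A z t j + D.kap q b a' w A' z t j := by
  unfold kap
  rw [Finset.mul_sum, ← Finset.sum_add_distrib]
  refine Finset.sum_congr rfl fun i _ => ?_
  rw [SA_add, SA_smul]; ring

theorem exists_tt {q : Fin r → G → ℂ} (hq : ∀ j, q j ∈ ThetaSp D.ω D.l D.c)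
    (hli : LinearIndependent ℂ q) (w : G) (z : E) : ∃ t : Fin r → E, (D.QM q w z t).det ≠ 0 := by
  obtain ⟨t', ht'⟩ := D.slices hq hli (D.v z + w)
  refine ⟨fun i => (2 : ℂ)⁻¹ • t' i, ?_⟩
  have h2 : (2 : ℂ)⁻¹ + (2 : ℂ)⁻¹ = 1 := by norm_num
  have e : D.QM q w z (fun i => (2 : ℂ)⁻¹ • t' i) =
      Matrix.of fun i j => q j (D.v (t' i) + (D.v z + w)) := by
    ext i j
    show q j (D.v z + D.v ((2 : ℂ)⁻¹ • t' i) + D.v ((2 : ℂ)⁻¹ • t' i) + w) =
      q j (D.v (t' i) + (D.v z + w))
    congr 1
    have h3 : D.v ((2 : ℂ)⁻¹ • t' i) + D.v ((2 : ℂ)⁻¹ • t' i) = D.v (t' i) := by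
      rw [map_smul, ← add_smul, h2, one_smul]
    rw [add_assoc (D.v z), h3]
    abel
  rw [e]
  exact ht'

/-- chosen points -/
noncomputable def tt {q : Fin r → G → ℂ} (hq : ∀ j, q j ∈ ThetaSp D.ω D.l D.c)
    (hli : LinearIndependent ℂ q) (w : G) (z : E) : Fin r → E := (D.exists_tt hq hli w z).choose

theorem tt_spec {q : Fin r → G → ℂ} (hq : ∀ j, q j ∈ ThetaSp D.ω D.l D.c)
    (hli : LinearIndependent ℂ q) (w : G) (z : E) : (D.QM q w z (D.tt hq hli w z)).det ≠ 0 :=
  (D.exists_tt hq hli w z).choose_spec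

/-- the symbols attached to `A` -/
noncomputable def Psi {q : Fin r → G → ℂ} (hq : ∀ j, q j ∈ ThetaSp D.ω D.l D.c)
    (hli : LinearIndependent ℂ q) (b a' : Fin N → E) (w : G) (A : Fin (N * N) → ℂ) (z : E)
    (g : G) : ℂ := ∑ j, D.kap q b a' w A z (D.tt hq hli w z) j * q j (g + w)

variable {q : Fin r → G → ℂ} (hq : ∀ j, q j ∈ ThetaSp D.ω D.l D.c) (hli : LinearIndependent ℂ q)
  (b a' : Fin N → E)

theorem Psi_lin (w : G) (s : ℂ) (A A' : Fin (N * N) → ℂ) :
    D.Psi hq hli b a' w (s • A + A') = s • D.Psi hq hli b a' w A + D.Psi hq hli b a' w A' := by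
  funext z g
  show (∑ j, D.kap q b a' w (s • A + A') z (D.tt hq hli w z) j * q j (g + w)) =
    s * (∑ j, D.kap q b a' w A z (D.tt hq hli w z) j * q j (g + w)) +
      ∑ j, D.kap q b a' w A' z (D.tt hq hli w z) j * q j (g + w)
  rw [Finset.mul_sum, ← Finset.sum_add_distrib]
  refine Finset.sum_congr rfl fun j _ => ?_
  rw [kap_lin]; ring

/-- the kernel of `Psi` -/
theorem Psi_KF {w : G} {A : Fin (N * N) → ℂ} (hA : ∀ z t, D.LF q b a' z t w A = 0) (x y : E) :
    D.KF (D.Psi hq hli b a' w A) 0 x y = D.SA w b a' A x y := by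
  have h := D.kap_spec hA (D.tt_spec hq hli w (x - y)) y
  rw [sub_add_cancel] at h
  rw [h]
  show (∑ j, D.kap q b a' w A (x - y) (D.tt hq hli w (x - y)) j * q j (D.v (x + y) + 0 + w)) = _
  refine Finset.sum_congr rfl fun j _ => ?_
  have e : D.v (x + y) + 0 + w = D.v (x - y) + D.v y + D.v y + w := by
    rw [add_zero, map_add, map_sub]; abel
  rw [e]; ring

/-- holomorphy of `Psi` along families -/
theorem Psi_hol {V : Type*} [NormedAddCommGroup V] [NormedSpace ℂ V] {O : Set V} (hO : IsOpen O)
    {w : V → G} {A : V → (Fin (N * N) → ℂ)} (hw : DifferentiableOn ℂ w O)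
    (hAd : DifferentiableOn ℂ A O)
    (hA : ∀ s ∈ O, ∀ z t, D.LF q b a' z t (w s) (A s) = 0) :
    HolFam (fun s => D.Psi hq hli b a' (w s) (A s)) O := by
  have hqd : ∀ j, Differentiable ℂ (q j) := fun j => (hq j).1
  rintro ⟨s₁, z₁, g₁⟩ ⟨hs₁, -⟩
  have hs₁' : s₁ ∈ O := hs₁
  refine DifferentiableAt.differentiableWithinAt ?_
  set t := D.tt hq hli (w s₁) z₁ with ht
  have htd : (D.QM q (w s₁) z₁ t).det ≠ 0 := D.tt_spec hq hli (w s₁) z₁
  have hwd : ∀ s ∈ O, DifferentiableAt ℂ w s := fun s hs => hw.differentiableAt (hO.mem_nhds hs)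
  have hAda : DifferentiableAt ℂ A s₁ := hAd.differentiableAt (hO.mem_nhds hs₁')
  have hfst : Differentiable ℂ (fun p : V × (E × G) => p.1) := differentiable_fst
  have hz : Differentiable ℂ (fun p : V × (E × G) => p.2.1) :=
    differentiable_fst.comp differentiable_snd
  have hg : Differentiable ℂ (fun p : V × (E × G) => p.2.2) :=
    differentiable_snd.comp differentiable_snd
  have hwp : ∀ p : V × (E × G), p.1 ∈ O → DifferentiableAt ℂ (fun p : V × (E × G) => w p.1) p :=
    fun p hp => (hwd p.1 hp).comp p (hfst p)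
  -- entries of the matrix
  have hent : ∀ p : V × (E × G), p.1 ∈ O → ∀ i j,
      DifferentiableAt ℂ (fun p : V × (E × G) => D.QM q (w p.1) p.2.1 t i j) p := by
    intro p hp i j
    have h1 : DifferentiableAt ℂ (fun p : V × (E × G) =>
        D.v p.2.1 + D.v (t i) + D.v (t i) + w p.1) p :=
      ((((D.v.differentiable.comp hz) p).add_const _).add_const _).add (hwp p hp)
    exact (hqd j _).comp p h1
  have hp₁ : ((s₁, z₁, g₁) : V × (E × G)).1 ∈ O := hs₁'
  have hev : ∀ᶠ p : V × (E × G) in 𝓝 (s₁, z₁, g₁), p.1 ∈ O ∧ (D.QM q (w p.1) p.2.1 t).det ≠ 0 := by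
    have c1 : ∀ᶠ p : V × (E × G) in 𝓝 (s₁, z₁, g₁), p.1 ∈ O :=
      continuous_fst.continuousAt.eventually_mem (hO.mem_nhds hs₁')
    have c2 : ∀ᶠ p : V × (E × G) in 𝓝 (s₁, z₁, g₁), (D.QM q (w p.1) p.2.1 t).det ≠ 0 :=
      (det_diffAt (hent _ hp₁)).continuousAt.eventually_ne htd
    exact c1.and c2
  have heq : (fun p : V × (E × G) => D.Psi hq hli b a' (w p.1) (A p.1) p.2.1 p.2.2) =ᶠ[𝓝 (s₁, z₁, g₁)]
      fun p => ∑ j, D.kap q b a' (w p.1) (A p.1) p.2.1 t j * q j (p.2.2 + w p.1) := by
    filter_upwards [hev] with p hp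
    show (∑ j, D.kap q b a' (w p.1) (A p.1) p.2.1 (D.tt hq hli (w p.1) p.2.1) j *
      q j (p.2.2 + w p.1)) = _
    have hk : D.kap q b a' (w p.1) (A p.1) p.2.1 (D.tt hq hli (w p.1) p.2.1) =
        D.kap q b a' (w p.1) (A p.1) p.2.1 t := by
      refine D.kap_unique hp.2 (fun s => ?_)
      rw [← D.kap_spec (hA p.1 hp.1) (D.tt_spec hq hli (w p.1) p.2.1) s,
        ← D.kap_spec (hA p.1 hp.1) hp.2 s]
    rw [hk]
  refine DifferentiableAt.congr_of_eventuallyEq ?_ heq
  refine DifferentiableAt.fun_sum fun j _ => DifferentiableAt.mul ?_ ?_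
  · refine DifferentiableAt.fun_sum fun i _ => DifferentiableAt.mul ?_ ?_
    · exact inv_diffAt (hent _ hp₁) htd j i
    · refine DifferentiableAt.fun_sum fun j' _ => DifferentiableAt.fun_sum fun i' _ => ?_
      refine DifferentiableAt.mul (DifferentiableAt.mul ?_ ?_) (differentiableAt_const _)
      · show DifferentiableAt ℂ (fun p : V × (E × G) => D.h (p.2.1 + t i - b j') *
          D.p (D.v (p.2.1 + t i + b j') + (0 + w p.1 + w p.1))) (s₁, z₁, g₁)
        refine DifferentiableAt.mul ?_ ?_
        · have h1 : DifferentiableAt ℂ (fun p : V × (E × G) => p.2.1 + t i - b j') (s₁, z₁, g₁) :=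
            ((hz _).add_const _).sub_const _
          exact (D.hh _).comp _ h1
        · have h1 : DifferentiableAt ℂ (fun p : V × (E × G) => p.2.1 + t i + b j') (s₁, z₁, g₁) :=
            ((hz _).add_const _).add_const _
          have h2 : DifferentiableAt ℂ (fun p : V × (E × G) => D.v (p.2.1 + t i + b j') +
              (0 + w p.1 + w p.1)) (s₁, z₁, g₁) :=
            ((D.v.differentiable _).comp _ h1).add (((hwp _ hp₁).const_add _).add (hwp _ hp₁))
          exact (D.hp _).comp _ h2
      · have h1 : DifferentiableAt ℂ (fun p : V × (E × G) => A p.1) (s₁, z₁, g₁) :=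
          DifferentiableAt.comp (s₁, z₁, g₁) (f := fun p : V × (E × G) => p.1) (g := A) hAda (hfst _)
        exact differentiableAt_pi.1 h1 _
  · have h1 : DifferentiableAt ℂ (fun p : V × (E × G) => p.2.2 + w p.1) (s₁, z₁, g₁) :=
      (hg _).add (hwp _ hp₁)
    exact (hqd j _).comp _ h1

theorem Psi_mem {w : G} {A : Fin (N * N) → ℂ} (hA : ∀ z t, D.LF q b a' z t w A = 0) :
    D.IsH w (D.Psi hq hli b a' w A) := by
  refine D.isH_of_zero ?_ ?_ ?_ ?_
  · exact holFam_const (D.Psi_hol hq hli b a' (V := ℂ) (O := Set.univ) isOpen_univ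
      (w := fun _ => w) (A := fun _ => A) (differentiableOn_const _) (differentiableOn_const _)
      (fun _ _ => hA))
  · intro i z g
    show (∑ j, D.kap q b a' w A z (D.tt hq hli w z) j * q j (g + D.ω i + w)) =
      _ * ∑ j, D.kap q b a' w A z (D.tt hq hli w z) j * q j (g + w)
    rw [Finset.mul_sum]
    refine Finset.sum_congr rfl fun j _ => ?_
    have e : g + D.ω i + w = (g + w) + D.ω i := by abel
    rw [e, (hq j).2 i (g + w)]
    ring
  · intro x
    have e : D.KF (D.Psi hq hli b a' w A) 0 x =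
        ∑ j, ∑ i, (D.K (0 + w + w) x (b j) * A (finProdFinEquiv (j, i))) • D.K 0 (a' i) := by
      funext y
      rw [D.Psi_KF hq hli b a' hA]
      simp only [Finset.sum_apply, Pi.smul_apply, smul_eq_mul]
      rfl
    rw [e]
    exact Submodule.sum_mem _ fun j _ => Submodule.sum_mem _ fun i _ =>
      Submodule.smul_mem _ _ (Submodule.subset_span ⟨_, rfl⟩)
  · intro y
    have e : (fun x => D.KF (D.Psi hq hli b a' w A) 0 x y) =
        ∑ j, ∑ i, (A (finProdFinEquiv (j, i)) * D.K 0 (a' i) y) •
          (fun x => D.K (0 + w + w) x (b j)) := by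
      funext x
      rw [D.Psi_KF hq hli b a' hA]
      simp only [Finset.sum_apply, Pi.smul_apply, smul_eq_mul]
      unfold SA
      exact Finset.sum_congr rfl fun j _ => Finset.sum_congr rfl fun i _ => by ring
    rw [e]
    exact Submodule.sum_mem _ fun j _ => Submodule.sum_mem _ fun i _ =>
      Submodule.smul_mem _ _ (Submodule.subset_span ⟨_, rfl⟩)

theorem LF_diff (z : E) (t : Fin (r + 1) → E) (A : Fin (N * N) → ℂ)
    (hqd : ∀ j, Differentiable ℂ (q j)) :
    Differentiable ℂ (fun w => D.LF q b a' z t w A) := by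
  intro w
  simp only [LF_eq]
  refine det_diffAt fun i j => ?_
  simp only [Matrix.of_apply]
  refine Fin.lastCases ?_ (fun j => ?_) j
  · simp only [Fin.snoc_last]
    unfold SA
    refine DifferentiableAt.fun_sum fun j' _ => DifferentiableAt.fun_sum fun i' _ => ?_
    refine DifferentiableAt.mul (DifferentiableAt.mul ?_ (differentiableAt_const _))
      (differentiableAt_const _)
    exact (D.K_diff _ _).comp ((differentiable_id.const_add 0).add differentiable_id) w
  · simp only [Fin.snoc_castSucc]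
    exact (hqd j).comp (differentiable_id.const_add _) w

end pres

/-- the spaces `H w` are presented -/
theorem presented_H [FiniteDimensional ℂ E] [FiniteDimensional ℂ G] : Presented D.H := by
  classical
  intro w₀
  have := D.fd
  obtain ⟨a, b, hd⟩ := (D.rankEq (0 + w₀ + w₀)).exists_minor
  obtain ⟨a', b', hd'⟩ := (D.rankEq 0).exists_minor
  set bas := Module.finBasis ℂ (ThetaSp D.ω D.l D.c) with hbas
  set q : Fin (Module.finrank ℂ (ThetaSp D.ω D.l D.c)) → G → ℂ := fun j => (bas j : G → ℂ) with hqdef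
  have hq : ∀ j, q j ∈ ThetaSp D.ω D.l D.c := fun j => (bas j).2
  have hli : LinearIndependent ℂ q := by
    have h := bas.linearIndependent
    exact h.map' (ThetaSp D.ω D.l D.c).subtype (Submodule.ker_subtype _)
  have hqd : ∀ j, Differentiable ℂ (q j) := fun j => (hq j).1
  have hmd : ∀ w i j, DifferentiableAt ℂ (fun w => mm (D.K (0 + w + w)) a b i j) w :=
    fun w i j => (D.K_diff (a i) (b j)).comp
      ((differentiable_id.const_add 0).add differentiable_id) w
  have hdc : Continuous (fun w => (mm (D.K (0 + w + w)) a b).det) :=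
    continuous_iff_continuousAt.2 fun w => (det_diffAt (hmd w)).continuousAt
  set 𝓛 : Set (G → (Fin (D.N * D.N) → ℂ) →ₗ[ℂ] ℂ) :=
    {L | ∃ z t, L = fun w => D.LF q b a' z t w} with h𝓛
  have hker : ∀ w A, A ∈ kerFam 𝓛 w ↔ ∀ z t, D.LF q b a' z t w A = 0 := by
    intro w A
    rw [mem_kerFam]
    constructor
    · intro h z t
      exact h _ ⟨z, t, rfl⟩
    · rintro h L ⟨z, t, rfl⟩
      exact h z t
  refine ⟨{w | (mm (D.K (0 + w + w)) a b).det ≠ 0}, D.N * D.N, 𝓛,
    fun w A => D.Psi hq hli b a' w A, isOpen_ne_fun hdc continuous_const, hd, ?_, ?_, ?_, ?_, ?_, ?_⟩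
  · rintro L ⟨z, t, rfl⟩ A
    exact (D.LF_diff b a' z t A hqd).differentiableOn
  · intro w _ A hA
    exact D.Psi_mem hq hli b a' ((hker w A).1 hA)
  · -- surjectivity
    intro w hw Φ hΦ
    have hw' : (mm (D.K (0 + w + w)) a b).det ≠ 0 := hw
    have hΦ' : D.IsH w Φ := hΦ
    set Mi := (mm (D.K (0 + w + w)) a b)⁻¹ with hMi
    set Mi' := (mm (D.K 0) a' b')⁻¹ with hMi'
    set S : E → E → ℂ := fun x y => D.KF Φ 0 x y with hS
    set A : Fin (D.N * D.N) → ℂ := fun k => ∑ i, ∑ j', Mi (finProdFinEquiv.symm k).1 i *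
      S (a i) (b' j') * Mi' j' (finProdFinEquiv.symm k).2 with hAdef
    have hcol : ∀ x y, S x y = ∑ i, ∑ j, D.K (0 + w + w) x (b j) * Mi j i * S (a i) y :=
      fun x y => (mem_colSp_iff (D.rankEq _).1 hw' (fun x => D.KF Φ 0 x y)).1 (hΦ'.col 0 y) x
    have hrow : ∀ x y, S x y = ∑ i, ∑ j, S x (b' j) * Mi' j i * D.K 0 (a' i) y :=
      fun x y => (mem_rowSp_iff (D.rankEq _).1 hd' (D.KF Φ 0 x)).1 (hΦ'.row 0 x) y
    have hSA : ∀ x y, D.SA w b a' A x y = S x y := by
      intro x y
      have h1 : S x y = ∑ i, ∑ j, ∑ i', ∑ j', D.K (0 + w + w) x (b j) *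
          (Mi j i * S (a i) (b' j') * Mi' j' i') * D.K 0 (a' i') y := by
        rw [hcol x y]
        refine Finset.sum_congr rfl fun i _ => Finset.sum_congr rfl fun j _ => ?_
        rw [hrow (a i) y, Finset.mul_sum]
        refine Finset.sum_congr rfl fun i' _ => ?_
        rw [Finset.mul_sum]
        refine Finset.sum_congr rfl fun j' _ => ?_
        ring
      have h2 : (∑ i, ∑ j, ∑ i', ∑ j', D.K (0 + w + w) x (b j) *
          (Mi j i * S (a i) (b' j') * Mi' j' i') * D.K 0 (a' i') y) =
          ∑ j, ∑ i', ∑ i, ∑ j', D.K (0 + w + w) x (b j) *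
          (Mi j i * S (a i) (b' j') * Mi' j' i') * D.K 0 (a' i') y :=
        Finset.sum_comm.trans (Finset.sum_congr rfl fun j _ => Finset.sum_comm)
      rw [h1, h2]
      unfold SA
      refine Finset.sum_congr rfl fun j _ => Finset.sum_congr rfl fun i' _ => ?_
      simp only [hAdef, Equiv.symm_apply_apply]
      rw [Finset.mul_sum, Finset.sum_mul]
      refine Finset.sum_congr rfl fun i _ => ?_
      rw [Finset.mul_sum, Finset.sum_mul]
    have hAk : ∀ z t, D.LF q b a' z t w A = 0 := by
      intro z t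
      rw [D.LF_eq]
      -- coefficients of `Φ z`
      have hT : (fun g => Φ z (g - w)) ∈ ThetaSp D.ω D.l D.c := by
        refine ⟨?_, fun i u => ?_⟩
        · exact hΦ'.diff.comp ((differentiable_const z).prodMk (differentiable_id.sub_const w))
        · have := hΦ'.per i z (u - w)
          show Φ z (u + D.ω i - w) = _ * Φ z (u - w)
          have e : u + D.ω i - w = u - w + D.ω i := by abel
          rw [e, this, sub_add_cancel]
      set κ : Fin (Module.finrank ℂ (ThetaSp D.ω D.l D.c)) → ℂ :=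
        fun j => bas.repr ⟨_, hT⟩ j with hκ
      have hκs : ∀ g, Φ z (g - w) = ∑ j, κ j * q j g := by
        intro g
        have h := bas.sum_repr ⟨_, hT⟩
        have h2 := congrArg (fun v : ThetaSp D.ω D.l D.c => (v : G → ℂ) g) h
        simp only [Submodule.coe_sum, Submodule.coe_smul, Finset.sum_apply, Pi.smul_apply,
          smul_eq_mul] at h2
        exact h2.symm
      refine Matrix.exists_mulVec_eq_zero_iff.1 ⟨Fin.snoc κ (-1), ?_, ?_⟩
      · intro h0
        have := congrFun h0 (Fin.last _)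
        simp at this
      · funext i
        simp only [Matrix.mulVec, dotProduct, Matrix.of_apply, Fin.sum_univ_castSucc,
          Fin.snoc_castSucc, Fin.snoc_last, Pi.zero_apply]
        rw [hSA]
        show _ + Φ (z + t i - t i) (D.v (z + t i + t i) + 0) * (-1) = 0
        have e : D.v (z + t i + t i) + 0 = (D.v z + D.v (t i) + D.v (t i) + w) - w := by
          rw [map_add, map_add]; abel
        rw [add_sub_cancel_right, e, hκs]
        simp only [mul_neg, mul_one]
        rw [← sub_eq_add_neg, sub_eq_zero]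
        exact Finset.sum_congr rfl fun j _ => mul_comm _ _
    refine ⟨A, (hker w A).2 hAk, ?_⟩
    have hmem : D.IsH w (D.Psi hq hli b a' w A - Φ) :=
      (D.H w).sub_mem (D.Psi_mem hq hli b a' hAk) hΦ
    have hz := IsH.eq_zero hmem (fun x y => by
      have h1 := D.Psi_KF hq hli b a' hAk x y
      rw [hSA] at h1
      have h2 : D.Psi hq hli b a' w A (x - y) (D.v (x + y) + 0) = Φ (x - y) (D.v (x + y) + 0) := h1
      rw [add_zero] at h2
      show D.Psi hq hli b a' w A (x - y) (D.v (x + y)) - Φ (x - y) (D.v (x + y)) = 0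
      rw [h2, sub_self])
    exact sub_eq_zero.1 hz
  · -- injectivity
    intro w hw A hA h0
    have hw' : (mm (D.K (0 + w + w)) a b).det ≠ 0 := hw
    have hSA0 : ∀ x y, D.SA w b a' A x y = 0 := by
      intro x y
      rw [← D.Psi_KF hq hli b a' ((hker w A).1 hA)]
      show D.Psi hq hli b a' w A (x - y) (D.v (x + y) + 0) = 0
      have : D.Psi hq hli b a' w A = 0 := h0
      rw [this]; rfl
    set Am : Matrix (Fin D.N) (Fin D.N) ℂ := Matrix.of fun j i => A (finProdFinEquiv (j, i))
      with hAm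
    have hprod : mm (D.K (0 + w + w)) a b * Am * mm (D.K 0) a' b' = 0 := by
      ext k l
      rw [Matrix.mul_apply]
      simp only [Matrix.mul_apply, Matrix.zero_apply]
      have h1 := hSA0 (a k) (b' l)
      unfold SA at h1
      rw [Finset.sum_comm] at h1
      rw [← h1]
      refine Finset.sum_congr rfl fun i _ => ?_
      rw [Finset.sum_mul]
      rfl
    have i1 : (mm (D.K (0 + w + w)) a b)⁻¹ * mm (D.K (0 + w + w)) a b = 1 :=
      Matrix.nonsing_inv_mul _ (isUnit_iff_ne_zero.2 hw')
    have i2 : mm (D.K 0) a' b' * (mm (D.K 0) a' b')⁻¹ = 1 :=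
      Matrix.mul_nonsing_inv _ (isUnit_iff_ne_zero.2 hd')
    have hAm0 : Am = 0 := by
      calc Am = ((mm (D.K (0 + w + w)) a b)⁻¹ * mm (D.K (0 + w + w)) a b) * Am *
            (mm (D.K 0) a' b' * (mm (D.K 0) a' b')⁻¹) := by rw [i1, i2, one_mul, mul_one]
        _ = (mm (D.K (0 + w + w)) a b)⁻¹ * (mm (D.K (0 + w + w)) a b * Am * mm (D.K 0) a' b') *
            (mm (D.K 0) a' b')⁻¹ := by simp only [Matrix.mul_assoc]
        _ = 0 := by rw [hprod]; simp
    funext k
    have h2 : A (finProdFinEquiv ((finProdFinEquiv.symm k).1, (finProdFinEquiv.symm k).2)) = 0 :=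
      congrFun (congrFun hAm0 (finProdFinEquiv.symm k).1) (finProdFinEquiv.symm k).2
    rw [Prod.mk.eta, Equiv.apply_symm_apply] at h2
    exact h2
  · intro w _ A _ A' _ s
    exact D.Psi_lin hq hli b a' w s A A'
  · intro U' A hU' _ hA hAk
    exact D.Psi_hol hq hli b a' hU' differentiableOn_id hA (fun w hw => (hker w _).1 (hAk w hw))

end Dat

end Pool.Agent.Lib.MP_db21fa_an.TF
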