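import Pool.Agent.Lib.MP_db21fa_an.TF.SimCalc
import Pool.Agent.Lib.MP_db21fa_an.TF.NF

/-!
Module E: recurrences.
-/

set_option autoImplicit false

open Filter Topology Metric

namespace Pool.Agent.Lib.MP_db21fa_an.TF

namespace ModE

/-! ### limits of elements of spaces of rows -/

section lin

variable {X Y : Type*} {N : ℕ}

theorem tendsto_inv_mm {Lj : ℕ → X → Y → ℂ} {L : X → Y → ℂ} {a : Fin N → X} {b : Fin N → Y}
    (hlim : ∀ x y, Tendsto (fun j => Lj j x y) atTop (𝓝 (L x y))) (hd : (mm L a b).det ≠ 0)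
    (k i : Fin N) :
    Tendsto (fun j => (mm (Lj j) a b)⁻¹ k i) atTop (𝓝 ((mm L a b)⁻¹ k i)) := by
  have hm : Tendsto (fun j => mm (Lj j) a b) atTop (𝓝 (mm L a b)) :=
    tendsto_pi_nhds.2 fun i => tendsto_pi_nhds.2 fun k => hlim _ _
  have hc : ContinuousAt (fun A : Matrix (Fin N) (Fin N) ℂ => A⁻¹ k i) (mm L a b) := by
    have e : (fun A : Matrix (Fin N) (Fin N) ℂ => A⁻¹ k i) =
        fun A => (A.det)⁻¹ * A.adjugate k i := by
      funext A
      rw [Matrix.inv_def, Ring.inverse_eq_inv']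
      simp
    rw [e]
    refine ContinuousAt.mul (ContinuousAt.inv₀ continuous_id.matrix_det.continuousAt hd) ?_
    exact ((continuous_id.matrix_adjugate).matrix_elem k i).continuousAt
  exact hc.tendsto.comp hm

theorem tendsto_det_mm {Lj : ℕ → X → Y → ℂ} {L : X → Y → ℂ} {a : Fin N → X} {b : Fin N → Y}
    (hlim : ∀ x y, Tendsto (fun j => Lj j x y) atTop (𝓝 (L x y))) :
    Tendsto (fun j => (mm (Lj j) a b).det) atTop (𝓝 (mm L a b).det) := by
  have hm : Tendsto (fun j => mm (Lj j) a b) atTop (𝓝 (mm L a b)) :=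
    tendsto_pi_nhds.2 fun i => tendsto_pi_nhds.2 fun k => hlim _ _
  exact (continuous_id.matrix_det.tendsto _).comp hm

/-- limits of elements of converging spaces of rows -/
theorem mem_rowSp_of_tendsto {Lj : ℕ → X → Y → ℂ} {L : X → Y → ℂ} {a : Fin N → X} {b : Fin N → Y}
    (hr : ∀ j, RankLE (Lj j) N)
    (hlim : ∀ x y, Tendsto (fun j => Lj j x y) atTop (𝓝 (L x y))) (hd : (mm L a b).det ≠ 0)
    {f : ℕ → Y → ℂ} {f₀ : Y → ℂ} (hf : ∀ j, f j ∈ rowSp (Lj j))
    (hff : ∀ y, Tendsto (fun j => f j y) atTop (𝓝 (f₀ y))) : f₀ ∈ rowSp L := by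
  have hrL : RankLE L N := rankLE_of_tendsto hr hlim
  rw [mem_rowSp_iff hrL hd]
  intro y
  have hev : ∀ᶠ j in atTop, (mm (Lj j) a b).det ≠ 0 := (tendsto_det_mm hlim).eventually_ne hd
  have h1 : Tendsto (fun j => ∑ i, ∑ k, f j (b k) * (mm (Lj j) a b)⁻¹ k i * Lj j (a i) y) atTop
      (𝓝 (∑ i, ∑ k, f₀ (b k) * (mm L a b)⁻¹ k i * L (a i) y)) := by
    refine tendsto_finsetSum _ fun i _ => tendsto_finsetSum _ fun k _ => ?_
    exact ((hff _).mul (tendsto_inv_mm hlim hd k i)).mul (hlim _ _)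
  have h2 : Tendsto (fun j => f j y) atTop
      (𝓝 (∑ i, ∑ k, f₀ (b k) * (mm L a b)⁻¹ k i * L (a i) y)) := by
    refine h1.congr' ?_
    filter_upwards [hev] with j hj
    exact ((mem_rowSp_iff (hr j) hj (f j)).1 (hf j) y).symm
  exact tendsto_nhds_unique (hff y) h2

/-- normalised limits of nonzero elements of converging spaces of rows -/
theorem exists_normalised {Lj : ℕ → X → Y → ℂ} {L : X → Y → ℂ} {a : Fin N → X} {b : Fin N → Y}
    (hr : ∀ j, RankLE (Lj j) N)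
    (hlim : ∀ x y, Tendsto (fun j => Lj j x y) atTop (𝓝 (L x y))) (hd : (mm L a b).det ≠ 0)
    {f : ℕ → Y → ℂ} (hf : ∀ j, f j ∈ rowSp (Lj j)) (hne : ∀ᶠ j in atTop, f j ≠ 0) :
    ∃ (σ : ℕ → ℕ) (s : ℕ → ℂ) (u : Y → ℂ), StrictMono σ ∧ u ≠ 0 ∧ u ∈ rowSp L ∧
      ∀ y, Tendsto (fun j => s j * f (σ j) y) atTop (𝓝 (u y)) := by
  have hev : ∀ᶠ j in atTop, (mm (Lj j) a b).det ≠ 0 := (tendsto_det_mm hlim).eventually_ne hd
  obtain ⟨j₀, hj₀⟩ := eventually_atTop.1 (hev.and hne)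
  let α : ℕ → Fin N → ℂ := fun j i => ∑ k, f (j + j₀) (b k) * (mm (Lj (j + j₀)) a b)⁻¹ k i
  have hα : ∀ j y, f (j + j₀) y = ∑ i, α j i * Lj (j + j₀) (a i) y := by
    intro j y
    rw [(mem_rowSp_iff (hr _) (hj₀ (j + j₀) (by omega)).1 _).1 (hf _) y]
    refine Finset.sum_congr rfl fun i _ => ?_
    rw [Finset.sum_mul]
  have hαne : ∀ j, α j ≠ 0 := by
    intro j h0
    apply (hj₀ (j + j₀) (by omega)).2
    funext y
    rw [hα, h0]
    simp
  have hn : ∀ j, ‖α j‖ ≠ 0 := fun j => norm_ne_zero_iff.2 (hαne j)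
  let β : ℕ → Fin N → ℂ := fun j => ((‖α j‖ : ℂ))⁻¹ • α j
  have hβ : ∀ j, β j ∈ sphere (0 : Fin N → ℂ) 1 := by
    intro j
    rw [mem_sphere_zero_iff_norm]
    simp only [β]
    rw [norm_smul, norm_inv, Complex.norm_real, norm_norm]
    exact inv_mul_cancel₀ (hn j)
  obtain ⟨β₀, hβ₀, τ, hτ, hlimβ⟩ := (isCompact_sphere (0 : Fin N → ℂ) 1).tendsto_subseq hβ
  have hβ0 : ∀ i, Tendsto (fun j => β (τ j) i) atTop (𝓝 (β₀ i)) := by
    intro i
    exact (tendsto_pi_nhds.1 hlimβ) i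
  refine ⟨fun j => τ j + j₀, fun j => ((‖α (τ j)‖ : ℂ))⁻¹, fun y => ∑ i, β₀ i * L (a i) y, ?_, ?_,
    ?_, ?_⟩
  · intro i j hij
    have := hτ hij
    simp only
    omega
  · intro h0
    have h1 : ∀ k, ∑ i, β₀ i * (mm L a b) i k = 0 := fun k => congrFun h0 (b k)
    have h2 : Matrix.vecMul β₀ (mm L a b) = 0 := by
      funext k
      exact h1 k
    have h3 : β₀ = 0 := by
      by_contra hne'
      exact hd (Matrix.exists_vecMul_eq_zero_iff.1 ⟨β₀, hne', h2⟩)
    rw [mem_sphere_zero_iff_norm, h3, norm_zero] at hβ₀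
    exact zero_ne_one hβ₀
  · have : (fun y => ∑ i, β₀ i * L (a i) y) = ∑ i, β₀ i • L (a i) := by
      funext y
      simp
    rw [this]
    exact Submodule.sum_mem _ fun i _ => Submodule.smul_mem _ _ (Submodule.subset_span ⟨_, rfl⟩)
  · intro y
    have h1 : Tendsto (fun j => ∑ i, β (τ j) i * Lj (τ j + j₀) (a i) y) atTop
        (𝓝 (∑ i, β₀ i * L (a i) y)) := by
      refine tendsto_finsetSum _ fun i _ => (hβ0 i).mul ?_
      have hT : Tendsto (fun j => τ j + j₀) atTop atTop :=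
        (tendsto_add_atTop_nat j₀).comp hτ.tendsto_atTop
      exact (hlim (a i) y).comp hT
    refine h1.congr fun j => ?_
    rw [hα, Finset.mul_sum]
    refine Finset.sum_congr rfl fun i _ => ?_
    simp only [β, Pi.smul_apply, smul_eq_mul]
    ring

end lin

/-! ### the shift formula -/

section shift

variable {E : Type*} [NormedAddCommGroup E] [NormedSpace ℂ E]

theorem shift_formula (p : E → ℂ) (c c' : ℂ) (l l' : E →L[ℂ] ℂ) (s t x y : E) :
    PK (fun x => c * Complex.exp (l x) * p (x + s)) (fun x => c' * Complex.exp (l' x) * p (x + t))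
      x y = (c * c' * Complex.exp (l x + l' x)) * (Complex.exp (l' y - l y) *
        PK p p (x + (2 : ℂ)⁻¹ • (s + t)) (y + (2 : ℂ)⁻¹ • (t - s))) := by
  unfold PK
  have e1 : x + (2 : ℂ)⁻¹ • (s + t) - (y + (2 : ℂ)⁻¹ • (t - s)) = x - y + s := by
    module
  have e2 : x + (2 : ℂ)⁻¹ • (s + t) + (y + (2 : ℂ)⁻¹ • (t - s)) = x + y + t := by
    module
  rw [e1, e2]
  simp only [map_sub, map_add]
  have e3 : Complex.exp (l x - l y) * Complex.exp (l' x + l' y) =
      Complex.exp (l x + l' x) * Complex.exp (l' y - l y) := by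
    rw [← Complex.exp_add, ← Complex.exp_add]
    congr 1
    ring
  linear_combination (c * c' * p (x - y + s) * p (x + y + t)) * e3

theorem rankLE_shift {p : E → ℂ} {N : ℕ} (h : RankLE (PK p p) N) (c c' : ℂ) (l l' : E →L[ℂ] ℂ)
    (s t : E) :
    RankLE (PK (fun x => c * Complex.exp (l x) * p (x + s))
      (fun x => c' * Complex.exp (l' x) * p (x + t))) N := by
  have h1 := (h.comp (fun x : E => x + (2 : ℂ)⁻¹ • (s + t))
    (fun y : E => y + (2 : ℂ)⁻¹ • (t - s))).scale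
    (fun x => c * c' * Complex.exp (l x + l' x)) (fun y => Complex.exp (l' y - l y))
  have e : (PK (fun x => c * Complex.exp (l x) * p (x + s))
      (fun x => c' * Complex.exp (l' x) * p (x + t))) = fun x y =>
      (c * c' * Complex.exp (l x + l' x)) * Complex.exp (l' y - l y) *
        PK p p (x + (2 : ℂ)⁻¹ • (s + t)) (y + (2 : ℂ)⁻¹ • (t - s)) := by
    funext x y
    rw [shift_formula]
    ring
  rw [e]
  exact h1

theorem mem_rowSp_shift {p : E → ℂ} {c c' : ℂ} (hc : c ≠ 0) (hc' : c' ≠ 0) (l l' : E →L[ℂ] ℂ)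
    (s t x : E) :
    (fun y => Complex.exp (l' y - l y) * PK p p x (y + (2 : ℂ)⁻¹ • (t - s))) ∈
      rowSp (PK (fun x => c * Complex.exp (l x) * p (x + s))
        (fun x => c' * Complex.exp (l' x) * p (x + t))) := by
  set x' := x - (2 : ℂ)⁻¹ • (s + t) with hx'
  have e : (fun y => Complex.exp (l' y - l y) * PK p p x (y + (2 : ℂ)⁻¹ • (t - s))) =
      (c * c' * Complex.exp (l x' + l' x'))⁻¹ •
        PK (fun x => c * Complex.exp (l x) * p (x + s))
          (fun x => c' * Complex.exp (l' x) * p (x + t)) x' := by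
    funext y
    rw [Pi.smul_apply, shift_formula, smul_eq_mul, ← mul_assoc, inv_mul_cancel₀, one_mul]
    · congr 2
      rw [hx']
      abel
    · exact mul_ne_zero (mul_ne_zero hc hc') (Complex.exp_ne_zero _)
  rw [e]
  exact Submodule.smul_mem _ _ (Submodule.subset_span ⟨_, rfl⟩)

end shift

end ModE

variable {E : Type*} [NormedAddCommGroup E] [NormedSpace ℂ E] [FiniteDimensional ℂ E]

theorem RankMin.rankEq {p : E → ℂ} {N : ℕ} (hp : RankMin p N) : RankEq (PK p p) N :=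
  ⟨hp.rank, fun n hn => hp.min p hp.diff hp.ne ⟨N, hp.rank⟩ n hn⟩

namespace ModE

theorem rowSp_diff {p : E → ℂ} (hp : Differentiable ℂ p) {w : E → ℂ} (hw : w ∈ rowSp (PK p p)) :
    Differentiable ℂ w := by
  unfold rowSp at hw
  induction hw using Submodule.span_induction with
  | mem w h =>
    obtain ⟨x, rfl⟩ := h
    unfold PK
    fun_prop
  | zero => exact differentiable_const 0
  | add u v _ _ hu hv => exact hu.add hv
  | smul c u _ hu => exact hu.const_smul c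

theorem rowSp_even {p : E → ℂ} {w : E → ℂ} (hw : w ∈ rowSp (PK p p)) (y : E) : w (-y) = w y := by
  unfold rowSp at hw
  induction hw using Submodule.span_induction with
  | mem w h =>
    obtain ⟨x, rfl⟩ := h
    unfold PK
    rw [sub_neg_eq_add, ← sub_eq_add_neg, mul_comm]
  | zero => rfl
  | add u v _ _ hu hv => simp only [Pi.add_apply, hu, hv]
  | smul c u _ hu => simp only [Pi.smul_apply, hu]

/-- linear forms whose exponentials converge up to a common factor are bounded -/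
theorem bounded_of_tendsto {κ : ℕ → E →L[ℂ] ℂ} {s : ℕ → ℂ} {h : E → ℂ} {z₀ : E} {ρ : ℝ}
    (hρ : 0 < ρ) (hne : ∀ z ∈ ball z₀ ρ, h z ≠ 0)
    (hlim : ∀ z ∈ ball z₀ ρ, Tendsto (fun j => s j * Complex.exp (κ j z)) atTop (𝓝 (h z))) :
    ∃ C, ∀ j, ‖κ j‖ ≤ C := by
  -- real parts
  have hre : ∀ v : E, ‖v‖ < ρ → ∃ C, ∀ j, |(κ j v).re| ≤ C := by
    intro v hv
    have hz0 : z₀ ∈ ball z₀ ρ := mem_ball_self hρ
    have hzv : z₀ + v ∈ ball z₀ ρ := by
      rw [mem_ball_iff_norm]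
      simpa using hv
    have h1 := (hlim _ hzv).div (hlim _ hz0) (hne _ hz0)
    have h2 : Tendsto (fun j => Complex.exp (κ j v)) atTop (𝓝 (h (z₀ + v) / h z₀)) := by
      have hev : ∀ᶠ j in atTop, s j * Complex.exp (κ j z₀) ≠ 0 :=
        (hlim _ hz0).eventually_ne (hne _ hz0)
      refine h1.congr' ?_
      filter_upwards [hev] with j hj
      have hsj : s j ≠ 0 := left_ne_zero_of_mul hj
      show s j * Complex.exp (κ j (z₀ + v)) / (s j * Complex.exp (κ j z₀)) = _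
      rw [map_add, Complex.exp_add]
      have he := Complex.exp_ne_zero (κ j z₀)
      field_simp
    have h3 : Tendsto (fun j => (κ j v).re) atTop (𝓝 (Real.log ‖h (z₀ + v) / h z₀‖)) := by
      have hn : ‖h (z₀ + v) / h z₀‖ ≠ 0 :=
        norm_ne_zero_iff.2 (div_ne_zero (hne _ hzv) (hne _ hz0))
      have h4 := (Real.continuousAt_log hn).tendsto.comp h2.norm
      refine h4.congr fun j => ?_
      rw [Function.comp_apply, Complex.norm_exp, Real.log_exp]
    obtain ⟨C, hC⟩ := (Metric.isBounded_range_of_tendsto _ h3).exists_norm_le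
    exact ⟨C, fun j => hC _ ⟨j, rfl⟩⟩
  have hpt : ∀ v : E, ∃ C, ∀ j, ‖κ j v‖ ≤ C := by
    intro v
    obtain ⟨r, hr0, hr⟩ : ∃ r : ℝ, 0 < r ∧ r * ‖v‖ < ρ := by
      refine ⟨ρ / (‖v‖ + 1), by positivity, ?_⟩
      rw [div_mul_eq_mul_div, div_lt_iff₀ (by positivity)]
      nlinarith [norm_nonneg v]
    have hv1 : ‖(r : ℂ) • v‖ < ρ := by
      rw [norm_smul, Complex.norm_real, Real.norm_of_nonneg hr0.le]
      exact hr
    have hv2 : ‖((r : ℂ) * Complex.I) • v‖ < ρ := by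
      rw [norm_smul, norm_mul, Complex.norm_I, mul_one, Complex.norm_real,
        Real.norm_of_nonneg hr0.le]
      exact hr
    obtain ⟨C1, hC1⟩ := hre _ hv1
    obtain ⟨C2, hC2⟩ := hre _ hv2
    refine ⟨(C1 + C2) / r, fun j => ?_⟩
    have h1 := hC1 j
    have h2 := hC2 j
    rw [map_smul, smul_eq_mul] at h1 h2
    have e1 : ((r : ℂ) * κ j v).re = r * (κ j v).re := by simp
    have e2 : ((r : ℂ) * Complex.I * κ j v).re = -(r * (κ j v).im) := by
      simp [mul_assoc]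
    rw [e1, abs_mul, abs_of_pos hr0] at h1
    rw [e2, abs_neg, abs_mul, abs_of_pos hr0] at h2
    rw [le_div_iff₀ hr0]
    have h3 := Complex.norm_le_abs_re_add_abs_im (κ j v)
    nlinarith
  obtain ⟨C, hC⟩ := banach_steinhaus (fun v => hpt v)
  exact ⟨C, hC⟩

end ModE

open ModE in
/-- a rank-minimal function has recurrences among the differences of any sequence -/
theorem recurrence {p : E → ℂ} {N : ℕ} (hp : RankMin p N) (a : ℕ → E) :
    ∃ (k k' : ℕ → ℕ) (c : ℕ → ℂ) (l : ℕ → E →L[ℂ] ℂ), (∀ j, k j < k' j) ∧ (∀ j, c j ≠ 0) ∧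
      LU (fun j x => c j * Complex.exp (l j x) * p (x + (a (k' j) - a (k j)))) p := by
  have : FiniteDimensional ℂ (rowSp (PK p p)) := finiteDimensional_rowSp hp.rank
  have hW : ∀ w ∈ rowSp (PK p p), Differentiable ℂ w := fun w hw => rowSp_diff hp.diff hw
  -- elements `y ↦ p (x - y + s) * p (x + y + s)`
  have hNFmem : ∀ (s x : E), (fun y => p (x - y + s) * p (x + y + s)) ∈ rowSp (PK p p) := by
    intro s x
    refine Submodule.subset_span ⟨x + s, ?_⟩
    funext y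
    unfold PK
    congr 2 <;> abel
  have hNFdiff : ∀ s : E, Differentiable ℂ (fun x => p (x + s)) := by
    intro s
    exact hp.diff.comp (differentiable_id.add_const s)
  have hNFne : ∀ s : E, (fun x => p (x + s)) ≠ 0 := by
    intro s h0
    apply hp.ne
    funext x
    have h1 := congrFun h0 (x - s)
    simpa using h1
  obtain ⟨φ, c, l, q, hφ, hc, hq, hqne, hLU⟩ := NF (rowSp (PK p p)) hW
    (fun k x => p (x + a k)) (fun k => hNFdiff _) (fun k => hNFne _) (fun k x => hNFmem _ _)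
  set Q : ℕ → E → ℂ := fun j x => c j * Complex.exp (l j x) * p (x + a (φ j)) with hQdef
  have hQlim : ∀ x, Tendsto (fun j => Q j x) atTop (𝓝 (q x)) := fun x => hLU.tendsto x
  have hp1 : (fun x => (1 : ℂ) * Complex.exp ((0 : E →L[ℂ] ℂ) x) * p (x + 0)) = p := by
    funext x
    simp
  have hQQ : ∀ i j, RankLE (PK (Q i) (Q j)) N := fun i j => rankLE_shift hp.rank _ _ _ _ _ _
  have hpQ : ∀ j, RankLE (PK p (Q j)) N := by
    intro j
    have h := rankLE_shift hp.rank 1 (c j) 0 (l j) 0 (a (φ j))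
    rw [hp1] at h
    exact h
  have hpq : RankLE (PK p q) N := rankLE_of_tendsto hpQ fun x y =>
    tendsto_const_nhds.mul (hQlim _)
  have hqq : RankLE (PK q q) N := rankLE_of_tendsto (fun j => hQQ j j) fun x y =>
    (hQlim _).mul (hQlim _)
  have hN : RankEq (PK q q) N := ⟨hqq, fun n hn => hp.min q hq hqne ⟨N, hpq⟩ n hn⟩
  obtain ⟨A₀, B₀, hd₀⟩ := hp.rankEq.exists_minor
  have hle : rowSp (PK q q) ≤ rowSp (PK p p) := by
    unfold rowSp
    rw [Submodule.span_le]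
    rintro _ ⟨x, rfl⟩
    refine mem_rowSp_of_tendsto (Lj := fun _ => PK p p) (fun _ => hp.rank)
      (fun _ _ => tendsto_const_nhds) hd₀ (f := fun j => PK (Q j) (Q j) x) (fun j => ?_)
      (fun y => (hQlim _).mul (hQlim _))
    have e : PK (Q j) (Q j) x = (c j * c j * Complex.exp (l j x + l j x)) •
        PK p p (x + (2 : ℂ)⁻¹ • (a (φ j) + a (φ j))) := by
      funext y
      simp only [hQdef]
      rw [shift_formula]
      simp
    rw [e]
    exact Submodule.smul_mem _ _ (Submodule.subset_span ⟨_, rfl⟩)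
  have hWeq : rowSp (PK q q) = rowSp (PK p p) := rowSp_eq_of_le hp.rank hN hle
  obtain ⟨A, B, hd⟩ := hN.exists_minor
  -- consecutive members
  set b : ℕ → E := fun j => a (φ (j + 1)) - a (φ j) with hb
  have hLlim : ∀ x y, Tendsto (fun j => PK (Q j) (Q (j + 1)) x y) atTop (𝓝 (PK q q x y)) :=
    fun x y => (hQlim _).mul ((hQlim _).comp (tendsto_add_atTop_nat 1))
  obtain ⟨ψ, c', l', p', hψ, hc', hp', hp'ne, hLU'⟩ := NF (rowSp (PK p p)) hW
    (fun k x => p (x + b k)) (fun k => hNFdiff _) (fun k => hNFne _) (fun k x => hNFmem _ _)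
  set P : ℕ → E → ℂ := fun j x => c' j * Complex.exp (l' j x) * p (x + b (ψ j)) with hPdef
  have hPlim : ∀ x, Tendsto (fun j => P j x) atTop (𝓝 (p' x)) := fun x => hLU'.tendsto x
  set κ : ℕ → E →L[ℂ] ℂ := fun j => (l (ψ j + 1) - l (ψ j)) - l' j with hκ
  set Ls : ℕ → E → E → ℂ := fun j => PK (Q (ψ j)) (Q (ψ j + 1)) with hLs
  have hLsr : ∀ j, RankLE (Ls j) N := fun j => hQQ _ _
  have hLslim : ∀ x y, Tendsto (fun j => Ls j x y) atTop (𝓝 (PK q q x y)) :=
    fun x y => (hLlim x y).comp hψ.tendsto_atTop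
  -- the twisted rows
  have hF : ∀ (x : E) (j : ℕ), (fun y => Complex.exp (κ j y) * PK p (P j) x y) ∈ rowSp (Ls j) := by
    intro x j
    have h1 := mem_rowSp_shift (p := p) (hc (ψ j)) (hc (ψ j + 1)) (l (ψ j)) (l (ψ j + 1))
      (a (φ (ψ j))) (a (φ (ψ j + 1))) (x + (2 : ℂ)⁻¹ • (0 + b (ψ j)))
    have e : (fun y => Complex.exp (κ j y) * PK p (P j) x y) =
        (1 * c' j * Complex.exp ((0 : E →L[ℂ] ℂ) x + l' j x)) •
        (fun y => Complex.exp (l (ψ j + 1) y - l (ψ j) y) *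
          PK p p (x + (2 : ℂ)⁻¹ • (0 + b (ψ j)))
            (y + (2 : ℂ)⁻¹ • (a (φ (ψ j + 1)) - a (φ (ψ j))))) := by
      funext y
      have h2 := shift_formula p 1 (c' j) 0 (l' j) 0 (b (ψ j)) x y
      rw [hp1] at h2
      have h3 : PK p (P j) x y = _ := h2
      rw [h3, Pi.smul_apply, smul_eq_mul, sub_zero]
      simp only [hκ, hb, ContinuousLinearMap.sub_apply, ContinuousLinearMap.zero_apply, sub_zero]
      have e4 : Complex.exp (l (ψ j + 1) y - l (ψ j) y - l' j y) * Complex.exp (l' j y) =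
          Complex.exp (l (ψ j + 1) y - l (ψ j) y) := by
        rw [← Complex.exp_add]
        congr 1
        ring
      rw [← e4]
      ring
    rw [e]
    exact Submodule.smul_mem _ _ h1
  -- a row which is not zero
  obtain ⟨s₀, hs₀⟩ : ∃ s, p s ≠ 0 := Function.ne_iff.1 hp.ne
  obtain ⟨t₀, ht₀⟩ : ∃ t, p' t ≠ 0 := Function.ne_iff.1 hp'ne
  set x₀ : E := (2 : ℂ)⁻¹ • (s₀ + t₀) with hx₀
  set y₀ : E := (2 : ℂ)⁻¹ • (t₀ - s₀) with hy₀
  have hxy1 : x₀ - y₀ = s₀ := by rw [hx₀, hy₀]; module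
  have hxy2 : x₀ + y₀ = t₀ := by rw [hx₀, hy₀]; module
  have hglim : ∀ x y, Tendsto (fun j => PK p (P j) x y) atTop (𝓝 (PK p p' x y)) := fun x y =>
    tendsto_const_nhds.mul (hPlim _)
  have hg0 : PK p p' x₀ y₀ ≠ 0 := by
    unfold PK
    rw [hxy1, hxy2]
    exact mul_ne_zero hs₀ ht₀
  have hfne : ∀ᶠ j in atTop, (fun y => Complex.exp (κ j y) * PK p (P j) x₀ y) ≠ 0 := by
    filter_upwards [(hglim x₀ y₀).eventually_ne hg0] with j hj h0
    have h1 := congrFun h0 y₀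
    exact (mul_ne_zero (Complex.exp_ne_zero _) hj) h1
  obtain ⟨σ, s, u, hσ, hune, humem, hu⟩ := exists_normalised hLsr hLslim hd
    (fun j => hF x₀ j) hfne
  have hudiff : Differentiable ℂ u := rowSp_diff hq humem
  have hgdiff : Differentiable ℂ (PK p p' x₀) := by
    have h1 := hp.diff
    unfold PK
    fun_prop
  have hgne : PK p p' x₀ ≠ 0 := fun h0 => hg0 (congrFun h0 y₀)
  obtain ⟨z₀, hz₀⟩ : ∃ z, PK p p' x₀ z * u z ≠ 0 := by
    by_contra hcon
    push Not at hcon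
    rcases mul_eq_zero_entire hgdiff hudiff hcon with h | h
    · exact hgne h
    · exact hune h
  obtain ⟨ρ, hρ, hball⟩ : ∃ ρ > 0, ball z₀ ρ ⊆ {z | PK p p' x₀ z * u z ≠ 0} := by
    have hopen : IsOpen {z | PK p p' x₀ z * u z ≠ 0} :=
      isOpen_ne_fun (hgdiff.mul hudiff).continuous continuous_const
    exact Metric.isOpen_iff.1 hopen z₀ hz₀
  obtain ⟨C, hC⟩ := bounded_of_tendsto (κ := fun j => κ (σ j)) (s := s)
    (h := fun z => u z / PK p p' x₀ z) hρ
    (fun z hz => div_ne_zero (right_ne_zero_of_mul (hball hz)) (left_ne_zero_of_mul (hball hz)))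
    (fun z hz => by
      have hgz : PK p p' x₀ z ≠ 0 := left_ne_zero_of_mul (hball hz)
      have h1 := (hu z).div ((hglim x₀ z).comp hσ.tendsto_atTop) hgz
      refine h1.congr' ?_
      filter_upwards [((hglim x₀ z).comp hσ.tendsto_atTop).eventually_ne hgz] with j hj
      have hj' : PK p (P (σ j)) x₀ z ≠ 0 := hj
      show s j * (Complex.exp (κ (σ j) z) * PK p (P (σ j)) x₀ z) / PK p (P (σ j)) x₀ z = _
      rw [← mul_assoc, mul_div_assoc, div_self hj', mul_one])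
  have : ProperSpace (E →L[ℂ] ℂ) := FiniteDimensional.proper ℂ _
  obtain ⟨κ₀, -, τ, hτ, hκlim⟩ := tendsto_subseq_of_bounded
    (s := closedBall (0 : E →L[ℂ] ℂ) C) isBounded_closedBall
    (x := fun j => κ (σ j)) (fun j => by simpa using hC j)
  set ι : ℕ → ℕ := fun j => σ (τ j) with hι
  have hιmono : StrictMono ι := hσ.comp hτ
  have hιtop := hιmono.tendsto_atTop
  have hκx : ∀ y, Tendsto (fun j => κ (ι j) y) atTop (𝓝 (κ₀ y)) := by
    intro y
    exact ((ContinuousLinearMap.apply ℂ ℂ y).continuous.tendsto κ₀).comp hκlim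
  -- the limit rows
  have hmem : ∀ x, (fun y => Complex.exp (κ₀ y) * PK p p' x y) ∈ rowSp (PK p p) := by
    intro x
    rw [← hWeq]
    refine mem_rowSp_of_tendsto (Lj := fun j => Ls (ι j)) (fun j => hLsr _)
      (fun x y => (hLslim x y).comp hιtop) hd (fun j => hF x (ι j)) (fun y => ?_)
    exact ((Complex.continuous_exp.tendsto _).comp (hκx y)).mul ((hglim x y).comp hιtop)
  -- evenness
  have heven : ∀ x y, Complex.exp (κ₀ y) * (p (x - y) * p' (x + y)) =
      Complex.exp (-κ₀ y) * (p (x + y) * p' (x - y)) := by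
    intro x y
    have h1 := rowSp_even (hmem x) y
    unfold PK at h1
    rw [map_neg, sub_neg_eq_add, ← sub_eq_add_neg] at h1
    exact h1.symm
  set r : ℂ := Complex.exp (κ₀ s₀) * p' s₀ / p s₀ with hr
  have hprop : ∀ t, Complex.exp (κ₀ t) * p' t = r * p t := by
    intro t
    have h1 := heven ((2 : ℂ)⁻¹ • (s₀ + t)) ((2 : ℂ)⁻¹ • (t - s₀))
    have e1 : (2 : ℂ)⁻¹ • (s₀ + t) - (2 : ℂ)⁻¹ • (t - s₀) = s₀ := by module
    have e2 : (2 : ℂ)⁻¹ • (s₀ + t) + (2 : ℂ)⁻¹ • (t - s₀) = t := by module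
    rw [e1, e2] at h1
    have e3 : κ₀ t = κ₀ ((2 : ℂ)⁻¹ • (s₀ + t)) + κ₀ ((2 : ℂ)⁻¹ • (t - s₀)) := by
      rw [← map_add, e2]
    have e4 : κ₀ s₀ = κ₀ ((2 : ℂ)⁻¹ • (s₀ + t)) - κ₀ ((2 : ℂ)⁻¹ • (t - s₀)) := by
      rw [← map_sub, e1]
    have e5 : Complex.exp (κ₀ s₀) = Complex.exp (κ₀ ((2 : ℂ)⁻¹ • (s₀ + t))) *
        Complex.exp (-κ₀ ((2 : ℂ)⁻¹ • (t - s₀))) := by
      rw [e4, sub_eq_add_neg, Complex.exp_add]
    rw [hr, div_mul_eq_mul_div, eq_div_iff hs₀, e3, Complex.exp_add, e5]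
    linear_combination Complex.exp (κ₀ ((2 : ℂ)⁻¹ • (s₀ + t))) * h1
  have hrne : r ≠ 0 := by
    intro h0
    have h1 := hprop t₀
    rw [h0, zero_mul] at h1
    exact (mul_ne_zero (Complex.exp_ne_zero _) ht₀) h1
  refine ⟨fun j => φ (ψ (ι j)), fun j => φ (ψ (ι j) + 1), fun j => r⁻¹ * c' (ι j),
    fun j => κ₀ + l' (ι j), fun j => hφ (Nat.lt_succ_self _),
    fun j => mul_ne_zero (inv_ne_zero hrne) (hc' _), ?_⟩
  have h1 : LU (fun j => P (ι j)) p' := hLU'.subseq hιtop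
  have h2 : LU (fun (_ : ℕ) x => Complex.exp (κ₀ x + Complex.log r⁻¹))
      (fun x => Complex.exp (κ₀ x + Complex.log r⁻¹)) :=
    LU.exp (l := fun _ => κ₀) (c := fun _ => Complex.log r⁻¹) tendsto_const_nhds
      tendsto_const_nhds
  have h3 := h2.mul h1 (by fun_prop) hp'.continuous
  have e1 : ∀ x, Complex.exp (κ₀ x + Complex.log r⁻¹) = Complex.exp (κ₀ x) * r⁻¹ := by
    intro x
    rw [Complex.exp_add, Complex.exp_log (inv_ne_zero hrne)]
  have e2 : (fun x => Complex.exp (κ₀ x + Complex.log r⁻¹) * p' x) = p := by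
    funext x
    rw [e1, mul_right_comm, hprop, mul_right_comm, mul_inv_cancel₀ hrne, one_mul]
  have e3 : (fun (j : ℕ) x => Complex.exp (κ₀ x + Complex.log r⁻¹) * P (ι j) x) =
      fun j x => r⁻¹ * c' (ι j) * Complex.exp ((κ₀ + l' (ι j)) x) *
        p (x + (a (φ (ψ (ι j) + 1)) - a (φ (ψ (ι j))))) := by
    funext j x
    rw [e1, ContinuousLinearMap.add_apply, Complex.exp_add]
    simp only [hPdef, hb]
    ring
  rw [e2, e3] at h3
  exact h3

end Pool.Agent.Lib.MP_db21fa_an.TF
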