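import Pool.Agent.Lib.MP_db21fa_an.TF.Cx

/-!
Module T: from vector valued theta functions to derivatives of scalar theta functions.
-/

set_option autoImplicit false

open Filter Topology Metric

namespace Pool.Agent.Lib.MP_db21fa_an.TF

/-- iterated partial derivatives -/
noncomputable def pd {m : ℕ} : List (Fin m) → ((Fin m → ℂ) → ℂ) → ((Fin m → ℂ) → ℂ)
  | [], f => f
  | (i :: s), f => fun u => fderiv ℂ (pd s f) u (Pi.single i 1)

/-- finite sums of polynomials times derivatives of theta functions -/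
def ThetaDer {m : ℕ} {ι : Type*} (ω : ι → Fin m → ℂ) (l : ι → (Fin m → ℂ) →L[ℂ] ℂ) :
    Submodule ℂ ((Fin m → ℂ) → ℂ) :=
  Submodule.span ℂ {f | ∃ (P : MvPolynomial (Fin m) ℂ) (α : List (Fin m)) (c : ι → ℂ)
    (θ : (Fin m → ℂ) → ℂ), θ ∈ ThetaSp ω l c ∧ ∀ u, f u = MvPolynomial.eval u P * pd α θ u}

namespace ScalarAux

/-! ### the abstract part -/

section abs

variable {V : Type*} [AddCommGroup V] [Module ℂ V]

/-- `X (X - 1) ... (X - (r - 1))` -/
def Yop (X : Module.End ℂ V) : ℕ → Module.End ℂ V
  | 0 => 1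
  | (r + 1) => (X - (r : ℂ) • 1) * Yop X r

theorem yop_comm {X A : Module.End ℂ V} (h : A * X = X * A) (r : ℕ) :
    A * Yop X r = Yop X r * A := by
  induction r with
  | zero => simp [Yop]
  | succ r ih =>
    simp only [Yop]
    have h1 : A * (X - (r : ℂ) • 1) = (X - (r : ℂ) • 1) * A := by
      rw [mul_sub, sub_mul, h]; simp
    rw [← mul_assoc, h1, mul_assoc, ih, ← mul_assoc]

theorem t_yop {X T : Module.End ℂ V} (h : T * X = X * T + T) {χ : ℂ} {g : V}
    (hg : T g = χ • g) (r : ℕ) :
    T (Yop X r g) = χ • Yop X r g + ((r : ℂ) * χ) • Yop X (r - 1) g := by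
  have hTX : ∀ y, T (X y) = X (T y) + T y := fun y => by
    have := LinearMap.congr_fun h y
    simpa using this
  induction r with
  | zero => simp [Yop, hg]
  | succ r ih =>
    simp only [Yop, Nat.add_sub_cancel]
    rw [Module.End.mul_apply]
    simp only [LinearMap.sub_apply, LinearMap.smul_apply, Module.End.one_apply, map_sub, map_smul,
      hTX, ih, map_add]
    rcases r with _ | s
    · simp [Yop]
    · simp only [Nat.add_sub_cancel]
      have h2 : Yop X (s + 1) g = X (Yop X s g) - (s : ℂ) • Yop X s g := by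
        simp [Yop, Module.End.mul_apply]
      have h3 : X (Yop X s g) = Yop X (s + 1) g + (s : ℂ) • Yop X s g := by
        rw [h2]; abel
      rw [h3]
      push_cast
      module

theorem m_yop {X T : Module.End ℂ V} (h : T * X = X * T + T) {χ : ℂ} {g : V}
    (hg : T g = χ • g) (r : ℕ) :
    ((T - χ • 1) ^ r) (Yop X r g) = ((r.factorial : ℂ) * χ ^ r) • g := by
  induction r with
  | zero => simp [Yop]
  | succ r ih =>
    rw [pow_succ, Module.End.mul_apply]
    have h1 : (T - χ • 1 : Module.End ℂ V) (Yop X (r + 1) g) = (((r + 1 : ℕ) : ℂ) * χ) • Yop X r g := by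
      simp only [LinearMap.sub_apply, LinearMap.smul_apply, Module.End.one_apply]
      rw [t_yop h hg]
      simp
    rw [h1, map_smul, ih, smul_smul]
    congr 1
    rw [Nat.factorial_succ, pow_succ]
    push_cast
    ring

variable {ι : Type*} [Fintype ι] {T X : ι → Module.End ℂ V} {D : Submodule ℂ V}

theorem main_abs (hTT : ∀ i j, T i * T j = T j * T i)
    (hTX : ∀ i, T i * X i = X i * T i + T i) (hTX' : ∀ i j, i ≠ j → T i * X j = X j * T i)
    (hD : ∀ i, ∀ f ∈ D, X i f ∈ D) {χ : ι → ℂ} (hχ : ∀ i, χ i ≠ 0)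
    (hD0 : ∀ f, (∀ i, T i f = χ i • f) → f ∈ D) :
    ∀ (n : ℕ) (k : ι → ℕ) (f : V), ∑ i, k i ≤ n →
      (∀ i, ((T i - χ i • 1) ^ (k i)) f = 0) → f ∈ D := by
  classical
  have hMM : ∀ i j (a b : ℕ), (T i - χ i • 1) ^ a * (T j - χ j • 1) ^ b =
      (T j - χ j • 1) ^ b * (T i - χ i • 1) ^ a := by
    intro i j a b
    have h1 : Commute (T i) (T j) := hTT i j
    have h2 : Commute (T i - χ i • (1 : Module.End ℂ V)) (T j - χ j • 1) := by
      refine Commute.sub_left (Commute.sub_right h1 ?_) (Commute.sub_right ?_ ?_)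
      · exact (Commute.one_right _).smul_right _
      · exact (Commute.one_left _).smul_left _
      · exact ((Commute.one_left _).smul_left _)
    exact (h2.pow_pow a b)
  have hYD : ∀ i r, ∀ f ∈ D, Yop (X i) r f ∈ D := by
    intro i r f hf
    induction r with
    | zero => simpa [Yop] using hf
    | succ r ih =>
      have : Yop (X i) (r + 1) f = X i (Yop (X i) r f) - (r : ℂ) • Yop (X i) r f := by
        simp [Yop, Module.End.mul_apply]
      rw [this]
      exact D.sub_mem (hD i _ ih) (D.smul_mem _ ih)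
  intro n
  induction n with
  | zero =>
    intro k f hk hf
    by_cases hall : ∀ i, k i ≤ 1
    · refine hD0 f fun i => ?_
      have h1 := hf i
      have h2 : k i = 0 := by
        have := Finset.single_le_sum (f := k) (fun _ _ => Nat.zero_le _) (Finset.mem_univ i)
        omega
      rw [h2, pow_zero, Module.End.one_apply] at h1
      rw [h1]; simp
    · push Not at hall
      obtain ⟨i, hi⟩ := hall
      have := Finset.single_le_sum (f := k) (fun _ _ => Nat.zero_le _) (Finset.mem_univ i)
      omega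
  | succ n ih =>
    intro k f hk hf
    by_cases hall : ∀ i, k i ≤ 1
    · refine hD0 f fun i => ?_
      have h1 := hf i
      rcases Nat.le_one_iff_eq_zero_or_eq_one.1 (hall i) with h2 | h2
      · rw [h2, pow_zero, Module.End.one_apply] at h1
        rw [h1]; simp
      · rw [h2, pow_one] at h1
        simp only [LinearMap.sub_apply, LinearMap.smul_apply, Module.End.one_apply] at h1
        exact sub_eq_zero.1 h1
    · push Not at hall
      obtain ⟨i, hi⟩ := hall
      obtain ⟨r, hr⟩ : ∃ r, k i = r + 1 := ⟨k i - 1, by omega⟩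
      have hr1 : 1 ≤ r := by omega
      have hsum : ∀ c, ∑ j, Function.update k i c j + k i = ∑ j, k j + c := by
        intro c
        rw [Finset.sum_update_of_mem (Finset.mem_univ i), ← Finset.sum_sdiff
          (Finset.subset_univ {i})]
        simp
        ring
      set g : V := ((T i - χ i • 1) ^ r) f with hg
      have hg1 : (T i - χ i • 1 : Module.End ℂ V) g = 0 := by
        have := hf i
        rw [hr, pow_succ', Module.End.mul_apply] at this
        exact this
      have hgj : ∀ j, ((T j - χ j • 1) ^ (k j)) g = 0 := by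
        intro j
        rw [hg, ← Module.End.mul_apply, hMM, Module.End.mul_apply, hf j, map_zero]
      have hgD : g ∈ D := by
        refine ih (Function.update k i 1) g ?_ ?_
        · have := hsum 1; omega
        · intro j
          by_cases hj : j = i
          · subst hj
            simpa using hg1
          · rw [Function.update_of_ne hj]; exact hgj j
      have hgT : T i g = χ i • g := by
        simp only [LinearMap.sub_apply, LinearMap.smul_apply, Module.End.one_apply] at hg1
        exact sub_eq_zero.1 hg1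
      set c : ℂ := ((r.factorial : ℂ) * χ i ^ r)⁻¹ with hc
      have hc0 : (r.factorial : ℂ) * χ i ^ r ≠ 0 :=
        mul_ne_zero (by exact_mod_cast r.factorial_ne_zero) (pow_ne_zero _ (hχ i))
      have hf' : f - c • Yop (X i) r g ∈ D := by
        refine ih (Function.update k i r) _ ?_ ?_
        · have := hsum r; omega
        · intro j
          by_cases hj : j = i
          · subst hj
            rw [Function.update_self, map_sub, map_smul, m_yop (hTX j) hgT, smul_smul, hc,
              inv_mul_cancel₀ hc0, one_smul, ← hg, sub_self]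
          · rw [Function.update_of_ne hj, map_sub, map_smul, hf j, zero_sub, neg_eq_zero]
            have h1 : (T j - χ j • 1) * X i = X i * (T j - χ j • 1) := by
              rw [sub_mul, mul_sub, hTX' j i hj]
              simp
            have h2 : (T j - χ j • 1) ^ (k j) * X i = X i * (T j - χ j • 1) ^ (k j) :=
              (Commute.pow_left (show Commute _ _ from h1) _)
            rw [← Module.End.mul_apply, yop_comm h2, Module.End.mul_apply, hgj j, map_zero,
              smul_zero]
      have : f = (f - c • Yop (X i) r g) + c • Yop (X i) r g := by abel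
      rw [this]
      exact D.add_mem hf' (D.smul_mem _ (hYD i r g hgD))

theorem le_of_fd (hTT : ∀ i j, T i * T j = T j * T i)
    (hTX : ∀ i, T i * X i = X i * T i + T i) (hTX' : ∀ i j, i ≠ j → T i * X j = X j * T i)
    (hD : ∀ i, ∀ f ∈ D, X i f ∈ D) (hinj : ∀ i, Function.Injective (T i))
    (hD0 : ∀ χ : ι → ℂ, (∀ i, χ i ≠ 0) → ∀ f, (∀ i, T i f = χ i • f) → f ∈ D)
    (W : Submodule ℂ V) [FiniteDimensional ℂ W] (hW : ∀ i, ∀ f ∈ W, T i f ∈ W) : W ≤ D := by
  intro f hf
  let t : ι → Module.End ℂ W := fun i => (T i).restrict (hW i)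
  have ht : ∀ i (x : W), ((t i x : W) : V) = T i x := fun i x => rfl
  have htop : ⨆ χ : ι → ℂ, ⨅ i, (t i).maxGenEigenspace (χ i) = ⊤ := by
    refine Module.End.iSup_iInf_maxGenEigenspace_eq_top_of_iSup_maxGenEigenspace_eq_top_of_commute
      t ?_ fun i => Module.End.iSup_maxGenEigenspace_eq_top (t i)
    intro i j _
    apply LinearMap.ext
    intro x
    apply Subtype.ext
    exact LinearMap.congr_fun (hTT i j) (x : V)
  have hmem : (⟨f, hf⟩ : W) ∈ ⨆ χ : ι → ℂ, ⨅ i, (t i).maxGenEigenspace (χ i) := by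
    rw [htop]; trivial
  refine Submodule.iSup_induction (fun χ : ι → ℂ => ⨅ i, (t i).maxGenEigenspace (χ i))
    (motive := fun x : W => (x : V) ∈ D) hmem ?_ ?_ ?_
  · intro χ x hx
    by_cases hx0 : (x : V) = 0
    · rw [hx0]; exact D.zero_mem
    rw [Module.End.mem_iInf_maxGenEigenspace_iff] at hx
    choose k hk using hx
    have hk' : ∀ i (n : ℕ) (y : W), ((((t i - χ i • 1) ^ n) y : W) : V) =
        ((T i - χ i • 1) ^ n) (y : V) := by
      intro i n
      induction n with
      | zero => intro y; simp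
      | succ n ih =>
        intro y
        rw [pow_succ, Module.End.mul_apply, ih, pow_succ, Module.End.mul_apply]
        simp [ht]
    have hχ : ∀ i, χ i ≠ 0 := by
      intro i h0
      have h1 := hk' i (k i) x
      rw [hk i, h0] at h1
      simp only [zero_smul, sub_zero, ZeroMemClass.coe_zero] at h1
      have h2 : Function.Injective ((T i) ^ (k i)) := by
        rw [Module.End.coe_pow]
        exact (hinj i).iterate _
      exact hx0 (h2 (by rw [← h1, map_zero]))
    refine main_abs hTT hTX hTX' hD hχ (hD0 χ hχ) _ k x le_rfl fun i => ?_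
    rw [← hk' i, hk i]; rfl
  · exact D.zero_mem
  · intro x y hx hy
    exact D.add_mem hx hy

end abs

/-! ### the concrete part -/

section conc

variable {m : ℕ}

/-- the entire functions -/
def ent (m : ℕ) : Submodule ℂ ((Fin m → ℂ) → ℂ) where
  carrier := {f | Differentiable ℂ f}
  add_mem' := fun h h' => Differentiable.add h h'
  zero_mem' := differentiable_const 0
  smul_mem' := fun a _ h => Differentiable.const_smul h a

/-- translations -/
noncomputable def tau (w : Fin m → ℂ) (l : (Fin m → ℂ) →L[ℂ] ℂ) : Module.End ℂ (ent m) where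
  toFun f := ⟨fun u => Complex.exp (-(l u)) * f.1 (u + w),
    (l.differentiable.neg.cexp).mul
      ((show Differentiable ℂ f.1 from f.2).comp (differentiable_id.add_const w))⟩
  map_add' f g := by
    apply Subtype.ext; funext u
    simp [mul_add]
  map_smul' a f := by
    apply Subtype.ext; funext u
    simp; ring

/-- `∂_a + A` -/
noncomputable def xop (a : Fin m → ℂ) (A : (Fin m → ℂ) →L[ℂ] ℂ) : Module.End ℂ (ent m) where
  toFun f := ⟨fun u => fderiv ℂ f.1 u a + A u * f.1 u,
    (differentiable_dirDeriv f.2 a).add (A.differentiable.mul f.2)⟩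
  map_add' f g := by
    apply Subtype.ext; funext u
    have h1 : fderiv ℂ (f.1 + g.1) u = fderiv ℂ f.1 u + fderiv ℂ g.1 u :=
      fderiv_add (f.2 u) (g.2 u)
    simp only [Submodule.coe_add, h1, _root_.add_apply, Pi.add_apply]
    ring
  map_smul' s f := by
    apply Subtype.ext; funext u
    have h1 : fderiv ℂ (s • f.1) u = s • fderiv ℂ f.1 u :=
      fderiv_const_smul (f.2 u) s
    simp only [Submodule.coe_smul, h1, _root_.smul_apply, Pi.smul_apply, smul_eq_mul,
      RingHom.id_apply]
    ring

theorem tau_apply (w : Fin m → ℂ) (l : (Fin m → ℂ) →L[ℂ] ℂ) (f : ent m) (u : Fin m → ℂ) :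
    (tau w l f).1 u = Complex.exp (-(l u)) * f.1 (u + w) := rfl

theorem xop_apply (a : Fin m → ℂ) (A : (Fin m → ℂ) →L[ℂ] ℂ) (f : ent m) (u : Fin m → ℂ) :
    (xop a A f).1 u = fderiv ℂ f.1 u a + A u * f.1 u := rfl

theorem tau_xop (w : Fin m → ℂ) (l : (Fin m → ℂ) →L[ℂ] ℂ) (a : Fin m → ℂ)
    (A : (Fin m → ℂ) →L[ℂ] ℂ) :
    tau w l * xop a A = xop a A * tau w l + (l a + A w) • tau w l := by
  apply LinearMap.ext
  intro f
  apply Subtype.ext
  funext u
  have h0 : HasFDerivAt f.1 (fderiv ℂ f.1 (u + w)) (u + w) :=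
    ((show Differentiable ℂ f.1 from f.2) (u + w)).hasFDerivAt
  have h1 : HasFDerivAt (fun u => f.1 (u + w)) (fderiv ℂ f.1 (u + w)) u := by
    have := h0.comp u ((hasFDerivAt_id u).add_const w)
    rw [ContinuousLinearMap.comp_id] at this
    exact this
  have h2 : HasFDerivAt (fun u => Complex.exp (-(l u))) (Complex.exp (-(l u)) • (-l)) u :=
    (l.hasFDerivAt.neg).cexp
  have h3 := h2.mul h1
  have h4 : fderiv ℂ (tau w l f).1 u a = Complex.exp (-(l u)) * fderiv ℂ f.1 (u + w) a -
      l a * (Complex.exp (-(l u)) * f.1 (u + w)) := by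
    have h5 : (tau w l f).1 = (fun u => Complex.exp (-(l u))) * (fun u => f.1 (u + w)) := rfl
    rw [h5, h3.fderiv]
    simp
    ring
  have h6 : ((xop a A * tau w l + (l a + A w) • tau w l) f).1 u =
      fderiv ℂ (tau w l f).1 u a + A u * (tau w l f).1 u + (l a + A w) * (tau w l f).1 u := rfl
  have h7 : ((tau w l * xop a A) f).1 u = Complex.exp (-(l u)) *
      (fderiv ℂ f.1 (u + w) a + A (u + w) * f.1 (u + w)) := rfl
  rw [h6, h7, h4, tau_apply, map_add]
  ring

theorem tau_tau {w w' : Fin m → ℂ} {l l' : (Fin m → ℂ) →L[ℂ] ℂ}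
    (h : ∃ n : ℤ, l w' - l' w = 2 * Real.pi * Complex.I * n) :
    tau w l * tau w' l' = tau w' l' * tau w l := by
  obtain ⟨n, hn⟩ := h
  apply LinearMap.ext
  intro f
  apply Subtype.ext
  funext u
  have h1 : ((tau w l * tau w' l') f).1 u = Complex.exp (-(l u)) *
      (Complex.exp (-(l' (u + w))) * f.1 (u + w + w')) := rfl
  have h2 : ((tau w' l' * tau w l) f).1 u = Complex.exp (-(l' u)) *
      (Complex.exp (-(l (u + w'))) * f.1 (u + w' + w)) := rfl
  rw [h1, h2, add_right_comm u w' w, ← mul_assoc, ← mul_assoc, ← Complex.exp_add,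
    ← Complex.exp_add]
  congr 1
  rw [Complex.exp_eq_exp_iff_exists_int]
  refine ⟨n, ?_⟩
  rw [map_add, map_add]
  linear_combination hn

theorem tau_inj (w : Fin m → ℂ) (l : (Fin m → ℂ) →L[ℂ] ℂ) : Function.Injective (tau w l) := by
  intro f g h
  apply Subtype.ext
  funext u
  have h1 := congrFun (congrArg Subtype.val h) (u - w)
  rw [tau_apply, tau_apply, sub_add_cancel] at h1
  exact mul_left_cancel₀ (Complex.exp_ne_zero _) h1

theorem differentiable_pd {f : (Fin m → ℂ) → ℂ} (hf : Differentiable ℂ f) (s : List (Fin m)) :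
    Differentiable ℂ (pd s f) := by
  induction s with
  | nil => exact hf
  | cons i s ih => exact differentiable_dirDeriv ih _

theorem differentiable_eval (P : MvPolynomial (Fin m) ℂ) :
    Differentiable ℂ (fun u : Fin m → ℂ => MvPolynomial.eval u P) := by
  induction P using MvPolynomial.induction_on with
  | C a => simp
  | add p q hp hq =>
    have : (fun u : Fin m → ℂ => MvPolynomial.eval u (p + q)) =
        (fun u => MvPolynomial.eval u p) + fun u => MvPolynomial.eval u q := by funext u; simp
    rw [this]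
    exact hp.add hq
  | mul_X p i hp =>
    have : (fun u : Fin m → ℂ => MvPolynomial.eval u (p * MvPolynomial.X i)) =
        fun u => MvPolynomial.eval u p * u i := by funext u; simp
    rw [this]
    exact hp.mul (differentiable_apply i)

theorem dir_eval (P : MvPolynomial (Fin m) ℂ) (a : Fin m → ℂ) : ∃ Q : MvPolynomial (Fin m) ℂ,
    ∀ u, fderiv ℂ (fun u : Fin m → ℂ => MvPolynomial.eval u P) u a = MvPolynomial.eval u Q := by
  induction P using MvPolynomial.induction_on with
  | C c => exact ⟨0, fun u => by simp⟩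
  | add p q hp hq =>
    obtain ⟨P', hP'⟩ := hp
    obtain ⟨Q', hQ'⟩ := hq
    refine ⟨P' + Q', fun u => ?_⟩
    have h1 : (fun u : Fin m → ℂ => MvPolynomial.eval u (p + q)) =
        (fun u => MvPolynomial.eval u p) + fun u => MvPolynomial.eval u q := by funext u; simp
    rw [h1, fderiv_add (differentiable_eval p u) (differentiable_eval q u)]
    simp [hP', hQ']
  | mul_X p i hp =>
    obtain ⟨P', hP'⟩ := hp
    refine ⟨P' * MvPolynomial.X i + p * MvPolynomial.C (a i), fun u => ?_⟩
    have h1 : (fun u : Fin m → ℂ => MvPolynomial.eval u (p * MvPolynomial.X i)) =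
        (fun u => MvPolynomial.eval u p) * fun u => u i := by funext u; simp
    rw [h1, fderiv_mul (differentiable_eval p u) (differentiable_apply i u)]
    have h2 : fderiv ℂ (fun u : Fin m → ℂ => u i) u = ContinuousLinearMap.proj i :=
      (ContinuousLinearMap.proj (R := ℂ) (φ := fun _ : Fin m => ℂ) i).fderiv
    rw [h2]
    simp [hP']
    ring

theorem fderiv_sum_single (f : (Fin m → ℂ) → ℂ) (u a : Fin m → ℂ) :
    fderiv ℂ f u a = ∑ i, a i * fderiv ℂ f u (Pi.single i 1) := by
  have h1 : a = ∑ i, a i • (Pi.single i 1 : Fin m → ℂ) := by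
    funext j
    simp [Finset.sum_apply, Pi.single_apply]
  conv_lhs => rw [h1, map_sum]
  simp

variable {ι : Type*} {ω : ι → Fin m → ℂ} {l : ι → (Fin m → ℂ) →L[ℂ] ℂ}

theorem gen_mem {P : MvPolynomial (Fin m) ℂ} {α : List (Fin m)} {c : ι → ℂ}
    {θ : (Fin m → ℂ) → ℂ} (hθ : θ ∈ ThetaSp ω l c) :
    (fun u => MvPolynomial.eval u P * pd α θ u) ∈ ThetaDer ω l :=
  Submodule.subset_span ⟨P, α, c, θ, hθ, fun _ => rfl⟩

theorem closed_dir (a : Fin m → ℂ) {f : (Fin m → ℂ) → ℂ} (hf : f ∈ ThetaDer ω l) :
    Differentiable ℂ f ∧ (fun u => fderiv ℂ f u a) ∈ ThetaDer ω l := by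
  unfold ThetaDer at hf
  induction hf using Submodule.span_induction with
  | mem f hf =>
    obtain ⟨P, α, c, θ, hθ, hfu⟩ := hf
    have hf1 : f = (fun u => MvPolynomial.eval u P) * pd α θ := funext hfu
    have hd := differentiable_pd hθ.1 α
    subst hf1
    refine ⟨(differentiable_eval P).mul hd, ?_⟩
    obtain ⟨Q, hQ⟩ := dir_eval P a
    have h1 : (fun u => fderiv ℂ ((fun u => MvPolynomial.eval u P) * pd α θ) u a) =
        (fun u => MvPolynomial.eval u Q * pd α θ u) +
          ∑ i, a i • fun u => MvPolynomial.eval u P * pd (i :: α) θ u := by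
      funext u
      rw [fderiv_mul (differentiable_eval P u) (hd u)]
      simp only [_root_.add_apply, _root_.smul_apply, smul_eq_mul, Pi.add_apply,
        Finset.sum_apply, Pi.smul_apply, pd, hQ]
      rw [fderiv_sum_single (pd α θ) u a, Finset.mul_sum, mul_comm (pd α θ u), add_comm]
      congr 1
      exact Finset.sum_congr rfl fun i _ => by ring
    rw [h1]
    exact Submodule.add_mem _ (gen_mem hθ)
      (Submodule.sum_mem _ fun i _ => Submodule.smul_mem _ _ (gen_mem hθ))
  | zero =>
    refine ⟨differentiable_const 0, ?_⟩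
    have : (fun u => fderiv ℂ (0 : (Fin m → ℂ) → ℂ) u a) = 0 := by
      funext u
      simp
    rw [this]
    exact Submodule.zero_mem _
  | add f g _ _ hf hg =>
    refine ⟨hf.1.add hg.1, ?_⟩
    have : (fun u => fderiv ℂ (f + g) u a) =
        (fun u => fderiv ℂ f u a) + fun u => fderiv ℂ g u a := by
      funext u
      rw [fderiv_add (hf.1 u) (hg.1 u)]
      simp
    rw [this]
    exact Submodule.add_mem _ hf.2 hg.2
  | smul s f _ hf =>
    refine ⟨hf.1.const_smul s, ?_⟩
    have : (fun u => fderiv ℂ (s • f) u a) = s • (fun u => fderiv ℂ f u a) := by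
      funext u
      rw [fderiv_const_smul (hf.1 u)]
      simp
    rw [this]
    exact Submodule.smul_mem _ _ hf.2

theorem closed_lin (A : (Fin m → ℂ) →L[ℂ] ℂ) {f : (Fin m → ℂ) → ℂ} (hf : f ∈ ThetaDer ω l) :
    (fun u => A u * f u) ∈ ThetaDer ω l := by
  unfold ThetaDer at hf
  induction hf using Submodule.span_induction with
  | mem f hf =>
    obtain ⟨P, α, c, θ, hθ, hfu⟩ := hf
    let Q : MvPolynomial (Fin m) ℂ :=
      ∑ i, MvPolynomial.C (A (Pi.single i 1)) * MvPolynomial.X i
    have hQ : ∀ u, MvPolynomial.eval u Q = A u := by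
      intro u
      have h1 : u = ∑ i, u i • (Pi.single i 1 : Fin m → ℂ) := by
        funext j
        simp [Finset.sum_apply, Pi.single_apply]
      conv_rhs => rw [h1, map_sum]
      simp [Q, mul_comm]
    have : (fun u => A u * f u) = fun u => MvPolynomial.eval u (Q * P) * pd α θ u := by
      funext u
      rw [hfu, map_mul, hQ]
      ring
    rw [this]
    exact gen_mem hθ
  | zero =>
    have : (fun u => A u * (0 : (Fin m → ℂ) → ℂ) u) = 0 := by funext u; simp
    rw [this]
    exact Submodule.zero_mem _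
  | add f g _ _ hf hg =>
    have : (fun u => A u * (f + g) u) = (fun u => A u * f u) + fun u => A u * g u := by
      funext u; simp [mul_add]
    rw [this]
    exact Submodule.add_mem _ hf hg
  | smul s f _ hf =>
    have : (fun u => A u * (s • f) u) = s • (fun u => A u * f u) := by
      funext u; simp; ring
    rw [this]
    exact Submodule.smul_mem _ _ hf

theorem exists_dual_ops {ι : Type*} [Fintype ι] [DecidableEq ι] (ω : Module.Basis ι ℝ (Fin m → ℂ))
    (l : ι → (Fin m → ℂ) →L[ℂ] ℂ)
    (hND : ∀ (u₀ : Fin m → ℂ) (A : (Fin m → ℂ) →L[ℂ] ℂ), (∀ i, l i u₀ = A (ω i)) → u₀ = 0) :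
    ∀ j, ∃ (a : Fin m → ℂ) (A : (Fin m → ℂ) →L[ℂ] ℂ),
      ∀ i, l i a + A (ω i) = if i = j then 1 else 0 := by
  let F : ((Fin m → ℂ) × Module.Dual ℂ (Fin m → ℂ)) →ₗ[ℂ] (ι → ℂ) :=
    LinearMap.pi fun i =>
      (l i : (Fin m → ℂ) →ₗ[ℂ] ℂ).comp (LinearMap.fst ℂ _ _) +
        (Module.Dual.eval ℂ (Fin m → ℂ) (ω i)).comp (LinearMap.snd ℂ _ _)
  have hF : ∀ a A i, F (a, A) i = l i a + A (ω i) := fun a A i => rfl
  have hinj : Function.Injective F := by
    rw [injective_iff_map_eq_zero]
    rintro ⟨a, A⟩ h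
    have h1 : ∀ i, l i a = (-(LinearMap.toContinuousLinearMap A)) (ω i) := by
      intro i
      have := congrFun h i
      rw [hF] at this
      simpa [eq_neg_iff_add_eq_zero] using this
    have ha : a = 0 := hND a _ h1
    subst ha
    have hA : A = 0 := by
      have h2 : (A.restrictScalars ℝ : (Fin m → ℂ) →ₗ[ℝ] ℂ) = 0 := by
        refine ω.ext fun i => ?_
        have := congrFun h i
        rw [hF] at this
        simpa using this
      ext i
      have := LinearMap.congr_fun h2 (Pi.single i 1)
      simpa using this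
    rw [hA]; rfl
  have hdim : Module.finrank ℂ ((Fin m → ℂ) × Module.Dual ℂ (Fin m → ℂ)) =
      Module.finrank ℂ (ι → ℂ) := by
    rw [Module.finrank_prod, Subspace.dual_finrank_eq, Module.finrank_fintype_fun_eq_card,
      Module.finrank_fintype_fun_eq_card, ← Module.finrank_eq_card_basis ω,
      finrank_real_of_complex, Module.finrank_fintype_fun_eq_card]
    ring
  have hsurj : Function.Surjective F :=
    (LinearMap.injective_iff_surjective_of_finrank_eq_finrank hdim).1 hinj
  intro j
  obtain ⟨⟨a, A⟩, h⟩ := hsurj fun i => if i = j then 1 else 0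
  refine ⟨a, LinearMap.toContinuousLinearMap A, fun i => ?_⟩
  have := congrFun h i
  rw [hF] at this
  simpa using this

end conc

end ScalarAux

open ScalarAux in
/-- **scalar refinement** -/
theorem scalar_refinement {m : ℕ} {ι : Type*} [Fintype ι] (ω : Module.Basis ι ℝ (Fin m → ℂ))
    (l : ι → (Fin m → ℂ) →L[ℂ] ℂ)
    (hl : ∀ i i', ∃ n : ℤ, l i (ω i') - l i' (ω i) = 2 * Real.pi * Complex.I * n)
    (hND : ∀ (u₀ : Fin m → ℂ) (A : (Fin m → ℂ) →L[ℂ] ℂ), (∀ i, l i u₀ = A (ω i)) → u₀ = 0)
    {k : ℕ} {Θ : Fin k → (Fin m → ℂ) → ℂ} {M : ι → Matrix (Fin k) (Fin k) ℂ}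
    (hΘ : ∀ j, Differentiable ℂ (Θ j)) (hM : ∀ i, IsUnit (M i))
    (hc : ∀ i i', M i * M i' = M i' * M i)
    (hper : ∀ i j u, Θ j (u + ω i) = Complex.exp (l i u) * ∑ j', M i j j' * Θ j' u) (j : Fin k) :
    Θ j ∈ ThetaDer ω l := by
  classical
  choose a A haA using exists_dual_ops ω l hND
  let T : ι → Module.End ℂ (ent m) := fun i => tau (ω i) (l i)
  let X : ι → Module.End ℂ (ent m) := fun i => xop (a i) (A i)
  let D : Submodule ℂ (ent m) := (ThetaDer ω l).comap (ent m).subtype
  have hTT : ∀ i j, T i * T j = T j * T i := fun i j => tau_tau (hl i j)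
  have hTX : ∀ i, T i * X i = X i * T i + T i := by
    intro i
    have := tau_xop (ω i) (l i) (a i) (A i)
    rw [haA i i, if_pos rfl, one_smul] at this
    exact this
  have hTX' : ∀ i j, i ≠ j → T i * X j = X j * T i := by
    intro i j hij
    have := tau_xop (ω i) (l i) (a j) (A j)
    rw [haA j i, if_neg hij, zero_smul, add_zero] at this
    exact this
  have hD : ∀ i, ∀ f ∈ D, X i f ∈ D := by
    intro i f hf
    exact Submodule.add_mem _ (closed_dir (a i) hf).2 (closed_lin (A i) hf)
  have hD0 : ∀ χ : ι → ℂ, (∀ i, χ i ≠ 0) → ∀ f, (∀ i, T i f = χ i • f) → f ∈ D := by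
    intro χ hχ f hf
    have h1 : f.1 ∈ ThetaSp (fun i => ω i) l (fun i => Complex.log (χ i)) := by
      refine ⟨f.2, fun i u => ?_⟩
      have h2 := congrFun (congrArg Subtype.val (hf i)) u
      have h3 : (T i f).1 u = Complex.exp (-(l i u)) * f.1 (u + ω i) := rfl
      rw [h3] at h2
      rw [Complex.exp_add, Complex.exp_log (hχ i)]
      have h4 : ((χ i • f : ent m) : (Fin m → ℂ) → ℂ) u = χ i * f.1 u := rfl
      rw [h4] at h2
      rw [mul_assoc, ← h2, ← mul_assoc, ← Complex.exp_add, add_neg_cancel, Complex.exp_zero,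
        one_mul]
    have h2 := gen_mem (P := 1) (α := []) h1
    have h3 : (fun u => MvPolynomial.eval u (1 : MvPolynomial (Fin m) ℂ) * pd [] f.1 u) = f.1 := by
      funext u; simp [pd]
    rw [h3] at h2
    exact h2
  let W : Submodule ℂ (ent m) := Submodule.span ℂ (Set.range fun j => (⟨Θ j, hΘ j⟩ : ent m))
  have : FiniteDimensional ℂ W := FiniteDimensional.span_of_finite ℂ (Set.finite_range _)
  have hW : ∀ i, ∀ f ∈ W, T i f ∈ W := by
    intro i f hf
    induction hf using Submodule.span_induction with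
    | mem f hf =>
      obtain ⟨j, rfl⟩ := hf
      have : T i ⟨Θ j, hΘ j⟩ = ∑ j', M i j j' • (⟨Θ j', hΘ j'⟩ : ent m) := by
        apply Subtype.ext
        funext u
        have h1 : (T i ⟨Θ j, hΘ j⟩).1 u = Complex.exp (-(l i u)) * Θ j (u + ω i) := rfl
        rw [h1, hper, ← mul_assoc, ← Complex.exp_add, neg_add_cancel, Complex.exp_zero, one_mul]
        simp
      rw [this]
      exact Submodule.sum_mem _ fun j' _ => Submodule.smul_mem _ _
        (Submodule.subset_span ⟨j', rfl⟩)
    | zero => rw [map_zero]; exact Submodule.zero_mem _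
    | add f g _ _ hf hg => rw [map_add]; exact Submodule.add_mem _ hf hg
    | smul s f _ hf => rw [map_smul]; exact Submodule.smul_mem _ _ hf
  exact le_of_fd hTT hTX hTX' hD (fun i => tau_inj _ _) hD0 W hW
    (Submodule.subset_span ⟨j, rfl⟩ : (⟨Θ j, hΘ j⟩ : ent m) ∈ W)

end Pool.Agent.Lib.MP_db21fa_an.TF
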