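import Pool.Agent.Lib.MP_db21fa_an.TF.FullExt
import Pool.Agent.Lib.MP_db21fa_an.TF.Quotient

/-!
Module L2: step 1.
-/

set_option autoImplicit false

open Filter Topology Metric

namespace Pool.Agent.Lib.MP_db21fa_an.TF

variable {E : Type*} [NormedAddCommGroup E] [NormedSpace ℂ E] [FiniteDimensional ℂ E]

/-- the data of the minimisation -/
private def Dat (h : E → ℂ) (N m : ℕ) : Prop :=
  ∃ (v : E →L[ℂ] (Fin m → ℂ)) (B : E →L[ℂ] E →L[ℂ] ℂ) (κ : E →L[ℂ] ℂ) (p : (Fin m → ℂ) → ℂ),
    Differentiable ℂ p ∧ (∃ x, p (v x) ≠ 0) ∧ RankLE (PK p p) N ∧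
      Sim h (fun x => gs B κ x * p (v x))

omit [FiniteDimensional ℂ E] in
private theorem gs_ne (B : E →L[ℂ] E →L[ℂ] ℂ) (κ : E →L[ℂ] ℂ) (x : E) : gs B κ x ≠ 0 :=
  Complex.exp_ne_zero _

omit [FiniteDimensional ℂ E] in
private theorem gs_diff (B : E →L[ℂ] E →L[ℂ] ℂ) (κ : E →L[ℂ] ℂ) : Differentiable ℂ (gs B κ) := by
  unfold gs
  have h1 : Differentiable ℂ fun x : E => B x x :=
    (B.differentiable).clm_apply differentiable_id
  exact (h1.add κ.differentiable).cexp

/-- nonzero multipliers of translates -/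
private theorem nonDeg_translate {G : Type*} [NormedAddCommGroup G] [NormedSpace ℂ G]
    {p : G → ℂ} (hnd : NonDeg p) (a : G) (s : ℂ) (hs : s ≠ 0) :
    NonDeg (fun u => s * p (u + a)) := by
  intro c l γ H
  refine hnd c l (γ - l a) fun w => ?_
  have h1 := H (w - a)
  have h2 : fderiv ℂ (fun u => s * p (u + a)) (w - a) = s • fderiv ℂ p w := by
    have h3 : (fun u => s * p (u + a)) = s • (fun u => p (u + a)) := rfl
    rw [h3, fderiv_const_smul_field, Pi.smul_apply, fderiv_comp_add_right, sub_add_cancel]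
  rw [h2] at h1
  simp only [_root_.smul_apply, smul_eq_mul, sub_add_cancel, map_sub] at h1
  have h4 : s * (fderiv ℂ p w c - (l w + (γ - l a)) * p w) = 0 := by linear_combination h1
  rcases mul_eq_zero.1 h4 with h5 | h5
  · exact absurd h5 hs
  · exact sub_eq_zero.1 h5

/-- transport of `FullPer` -/
private theorem fullPer_equiv {F G : Type*} [NormedAddCommGroup F] [NormedSpace ℂ F]
    [NormedAddCommGroup G] [NormedSpace ℂ G] (e : F ≃L[ℂ] G) {P : F → ℂ} (h : FullPer P) :
    FullPer (fun y => P (e.symm y)) := by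
  unfold FullPer at h ⊢
  let f : F ≃ₗ[ℝ] G := e.toLinearEquiv.restrictScalars ℝ
  have h1 : (f : F →ₗ[ℝ] G) '' (Per P) ⊆ Per (fun y => P (e.symm y)) := by
    rintro _ ⟨γ, ⟨l, c, hl⟩, rfl⟩
    refine ⟨l.comp (e.symm : G →L[ℂ] F), c, fun u => ?_⟩
    have := hl (e.symm u)
    simpa [f] using this
  rw [eq_top_iff]
  have h2 : (⊤ : Submodule ℝ G) = (⊤ : Submodule ℝ F).map (f : F →ₗ[ℝ] G) := by
    rw [Submodule.map_top, LinearEquiv.range]
  rw [h2, ← h, Submodule.map_span]
  exact Submodule.span_mono h1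

/-- **step 1** -/
theorem step_one {h : E → ℂ} (hd : Differentiable ℂ h) (h0 : h ≠ 0) (hs : Sim h h) :
    ∃ (m : ℕ) (v : E →L[ℂ] (Fin m → ℂ)) (B : E →L[ℂ] E →L[ℂ] ℂ) (κ : E →L[ℂ] ℂ)
      (p : (Fin m → ℂ) → ℂ), Differentiable ℂ p ∧ (∃ x, p (v x) ≠ 0) ∧ FullPer p ∧
      Sim h (fun x => gs B κ x * p (v x)) := by
  classical
  -- some data
  have hex : ∃ N m, Dat h N m := by
    obtain ⟨N, hN⟩ := hs
    obtain ⟨x0, hx0⟩ : ∃ x, h x ≠ 0 := by
      by_contra hcon; push Not at hcon; exact h0 (funext hcon)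
    let e : E ≃L[ℂ] (Fin (Module.finrank ℂ E) → ℂ) :=
      (Module.finBasis ℂ E).equivFunL
    refine ⟨N, Module.finrank ℂ E, (e : E →L[ℂ] _), 0, 0, fun y => h (e.symm y), ?_, ⟨x0, ?_⟩, ?_,
      ?_⟩
    · exact hd.comp e.symm.differentiable
    · simpa using hx0
    · exact rankLE_PK_comp hN (e.symm : (Fin (Module.finrank ℂ E) → ℂ) →L[ℂ] E)
    · refine ⟨N, ?_⟩
      have : (fun x => gs 0 0 x * h (e.symm (e x))) = h := by
        funext x; simp [gs]
      refine cast ?_ hN
      congr 2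
      exact this.symm
  let N := Nat.find hex
  have hN : ∃ m, Dat h N m := Nat.find_spec hex
  have hNmin : ∀ n m, Dat h n m → N ≤ n := fun n m H => Nat.find_min' hex ⟨m, H⟩
  let m := Nat.find hN
  have hm : Dat h N m := Nat.find_spec hN
  have hmmin : ∀ m', Dat h N m' → m ≤ m' := fun m' H => Nat.find_min' hN H
  clear_value m N
  obtain ⟨v, B, κ, p, hp, ⟨x0, hx0⟩, hr, hsim⟩ := hm
  -- nondegenerate
  have hnd : NonDeg p := by
    by_contra hcon
    obtain ⟨m', π, p', B', κ', hlt, hπ, hp', hpp⟩ := quotient hp hcon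
    have : Dat h N m' := by
      refine ⟨π.comp v, B + ((B'.comp v).flip.comp v).flip, κ + κ'.comp v, p', hp', ⟨x0, ?_⟩, ?_,
        ?_⟩
      · intro h1
        apply hx0
        rw [hpp]
        simp only [ContinuousLinearMap.comp_apply] at h1
        rw [h1, mul_zero]
      · have h1 : ∀ u, p' (π u) = gs (-B') (-κ') u * p u := by
          intro u
          rw [hpp u, ← mul_assoc]
          have : gs (-B') (-κ') u * gs B' κ' u = 1 := by
            unfold gs
            rw [← Complex.exp_add, ← Complex.exp_zero]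
            congr 1
            simp only [_root_.neg_apply]
            ring
          rw [this, one_mul]
        have h2 := rankLE_PK_gauss hr (-B') (-κ') (-κ')
        have h3 : (fun x => gs (-B') (-κ') x * p x) = fun x => p' (π x) := by
          funext x; rw [h1]
        rw [h3] at h2
        choose σ hσ using hπ
        -- a linear right inverse
        obtain ⟨τ, hτ⟩ := (π : (Fin m → ℂ) →ₗ[ℂ] (Fin m' → ℂ)).exists_rightInverse_of_surjective
          (LinearMap.range_eq_top.2 fun y => ⟨σ y, hσ y⟩)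
        have h4 : ∀ y, π (τ y) = y := fun y => LinearMap.congr_fun hτ y
        have h5 := RankLE.comp h2 (fun y => τ y) (fun y => τ y)
        refine cast ?_ h5
        congr 1
        funext x y
        simp only [PK]
        rw [← map_sub, ← map_add, h4, h4]
      · refine cast ?_ hsim
        congr 1
        funext x
        rw [hpp (v x), ← mul_assoc]
        congr 1
        unfold gs
        rw [← Complex.exp_add]
        congr 1
        simp
        ring
    exact absurd (hmmin m' this) (not_le.2 hlt)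
  -- translate
  set a : Fin m → ℂ := v x0 with ha
  let p₁ : (Fin m → ℂ) → ℂ := fun u => (p a)⁻¹ * p (u + a)
  have hp₁ : Differentiable ℂ p₁ :=
    (hp.comp (differentiable_id.add_const a)).const_mul _
  have hp₁0 : p₁ 0 = 1 := by simp [p₁, hx0]
  have hnd₁ : NonDeg p₁ := nonDeg_translate hnd a _ (inv_ne_zero hx0)
  have hr₁ : RankLE (PK p₁ p₁) N := by
    have h1 := rankLE_PK_shift hr a a
    have h2 := RankLE.scale h1 (fun _ => (p a)⁻¹) (fun _ => (p a)⁻¹)
    refine cast ?_ h2
    congr 1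
    funext x y
    simp only [PK, p₁]
    ring
  let κ₁ : E →L[ℂ] ℂ := κ + B x0 + B.flip x0
  have hsim₁ : Sim h (fun x => gs B κ₁ x * p₁ (v x)) := by
    have h1 := (hsim.shift 0 x0).smul ((gs B κ x0)⁻¹ * (p a)⁻¹)
    refine cast ?_ h1
    congr 1
    · funext x; simp
    · funext x
      simp only [p₁, map_add, ← ha]
      have h2 : gs B κ (x + x0) = gs B κ x0 * gs B κ₁ x := by
        unfold gs
        rw [← Complex.exp_add]
        congr 1
        simp [κ₁]
        ring
      rw [h2]
      have := gs_ne B κ x0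
      field_simp
  have hdg : Differentiable ℂ (fun x => gs B κ₁ x * p₁ (v x)) :=
    (gs_diff B κ₁).mul (hp₁.comp v.differentiable)
  have hmin : RankMin p₁ N := by
    refine ⟨hp₁, fun h1 => ?_, hr₁, ?_⟩
    · rw [h1] at hp₁0; simp at hp₁0
    · intro q hq hq0 hpq n hn
      obtain ⟨b, hb⟩ : ∃ x, q x ≠ 0 := by
        by_contra hcon; push Not at hcon; exact hq0 (funext hcon)
      refine hNmin n m ⟨v, B, κ₁, fun u => q (u + b), hq.comp (differentiable_id.add_const b),
        ⟨0, by simpa using hb⟩, rankLE_PK_shift hn b b, ?_⟩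
      have h1 : Sim p₁ (fun u => q (u + b)) := by
        have := hpq.shift 0 b
        refine cast ?_ this
        congr 1
        funext x; simp
      have h2 := (h1.comp v).gauss B κ₁ κ₁
      refine Sim.trans hd hdg ?_ ?_ hsim₁ h2
      · exact (gs_diff B κ₁).mul ((hq.comp (differentiable_id.add_const b)).comp v.differentiable)
      · intro h3
        have h4 := congrFun h3 0
        simp only [map_zero, hp₁0, mul_one, Pi.zero_apply] at h4
        exact gs_ne _ _ _ h4
  obtain ⟨k, P, hP, hP0, hfull⟩ := exists_full_ext hmin hnd₁ hp₁0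
  let e : ((Fin m → ℂ) × (Fin k → ℂ)) ≃L[ℂ] (Fin (m + k) → ℂ) :=
    ContinuousLinearEquiv.ofFinrankEq (by simp)
  refine ⟨m + k, (e : ((Fin m → ℂ) × (Fin k → ℂ)) →L[ℂ] (Fin (m + k) → ℂ)).comp (v.prod 0), B, κ₁, fun y => P (e.symm y),
    hP.comp e.symm.differentiable, ⟨0, ?_⟩, fullPer_equiv e hfull, ?_⟩
  · have : P (0, 0) = 1 := by rw [hP0, hp₁0]
    simp [this]
  · refine cast ?_ hsim₁
    congr 1
    funext x
    simp [hP0]

end Pool.Agent.Lib.MP_db21fa_an.TF
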